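import Pool.Agent.Lib.MP_45f16c_ag.CI

/-! Calculus in the plane: second order jets along lines, circle means, Cauchy transforms. -/

open Filter Topology Set Metric MeasureTheory Complex
open scoped Real Convolution

namespace Pool.Agent.Lib.MP_124863_gt.Ec

open Pool.Agent.Lib.MP_45f16c_ag

section jets

variable {F : Type} [NormedAddCommGroup F] [NormedSpace ℝ F]

/-- `f` has first derivative `a` and second derivative `b` at `0`. -/
def J2 (f : ℝ → F) (a b : F) : Prop :=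
  ∃ f1 : ℝ → F, (∀ᶠ t in 𝓝 0, HasDerivAt f (f1 t) t) ∧ f1 0 = a ∧ HasDerivAt f1 b 0

theorem J2.unique {f : ℝ → F} {a b a' b' : F} (h : J2 f a b) (h' : J2 f a' b') :
    a = a' ∧ b = b' := by
  obtain ⟨f1, h1, h2, h3⟩ := h
  obtain ⟨g1, g2, g3, g4⟩ := h'
  have e : f1 =ᶠ[𝓝 0] g1 := (h1.and g2).mono fun t ht => ht.1.unique ht.2
  exact ⟨by rw [← h2, ← g3, e.self_of_nhds], (h3.congr_of_eventuallyEq e.symm).unique g4⟩

theorem J2.congr {f g : ℝ → F} {a b : F} (h : J2 f a b) (e : g =ᶠ[𝓝 0] f) : J2 g a b := by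
  obtain ⟨f1, h1, h2, h3⟩ := h
  exact ⟨f1, (h1.and e.eventuallyEq_nhds).mono fun t ht => ht.1.congr_of_eventuallyEq ht.2, h2, h3⟩

theorem J2.of_eq {f : ℝ → F} {a b a' b' : F} (h : J2 f a b) (ha : a = a') (hb : b = b') :
    J2 f a' b' := ha ▸ hb ▸ h

theorem J2.add {f g : ℝ → F} {a b a' b' : F} (h : J2 f a b) (h' : J2 g a' b') :
    J2 (fun t => f t + g t) (a + a') (b + b') := by
  obtain ⟨f1, h1, h2, h3⟩ := h
  obtain ⟨g1, g2, g3, g4⟩ := h'
  exact ⟨fun t => f1 t + g1 t, (h1.and g2).mono fun t ht => ht.1.add ht.2, by simp [h2, g3],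
    h3.add g4⟩

theorem J2.const (c : F) : J2 (fun _ => c) 0 0 :=
  ⟨fun _ => 0, .of_forall fun t => hasDerivAt_const t c, rfl, hasDerivAt_const _ _⟩

theorem J2.mul {f g : ℝ → ℝ} {a b a' b' : ℝ} (h : J2 f a b) (h' : J2 g a' b') :
    J2 (fun t => f t * g t) (a * g 0 + f 0 * a') (b * g 0 + 2 * a * a' + f 0 * b') := by
  obtain ⟨f1, h1, rfl, h3⟩ := h
  obtain ⟨g1, g2, rfl, g4⟩ := h'
  refine ⟨fun t => f1 t * g t + f t * g1 t, (h1.and g2).mono fun t ht => ht.1.mul ht.2, rfl, ?_⟩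
  exact ((h3.mul g2.self_of_nhds).add (h1.self_of_nhds.mul g4)).congr_deriv (by ring)

theorem J2.inv {f : ℝ → ℝ} {a b : ℝ} (h : J2 f a b) (h0 : f 0 ≠ 0) :
    J2 (fun t => (f t)⁻¹) (-a / f 0 ^ 2) (2 * a ^ 2 / f 0 ^ 3 - b / f 0 ^ 2) := by
  obtain ⟨f1, h1, rfl, h3⟩ := h
  refine ⟨fun t => -f1 t / f t ^ 2, (h1.and (h1.self_of_nhds.continuousAt.eventually_ne h0)).mono
    fun t ht => ht.1.inv ht.2, rfl, ?_⟩
  refine (h3.neg.div (h1.self_of_nhds.pow 2) (pow_ne_zero 2 h0)).congr_deriv ?_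
  simp only [Pi.pow_apply, Pi.neg_apply]
  field_simp
  ring

theorem J2.quad (p q r : ℝ) : J2 (fun t => p + q * t + r * t ^ 2) q (2 * r) := by
  refine ⟨fun t => q + r * (2 * t), .of_forall fun t => ?_, by simp, ?_⟩
  · exact ((((hasDerivAt_id t).const_mul q).const_add p).add
      ((hasDerivAt_pow 2 t).const_mul r)).congr_deriv (by simp)
  · simpa [mul_comm] using ((((hasDerivAt_id (0 : ℝ)).const_mul 2).const_mul r).const_add q)

theorem J2.nonpos {f : ℝ → ℝ} {a b : ℝ} (h : J2 f a b) (hm : IsLocalMax f 0) : b ≤ 0 := by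
  obtain ⟨f1, h1, rfl, h3⟩ := h
  by_contra! hb
  have e : deriv f =ᶠ[𝓝 0] f1 := h1.mono fun t ht => ht.deriv
  have h4 := isLocalMin_of_deriv_deriv_pos (f := f) (x₀ := 0)
    (by rw [e.deriv_eq, h3.deriv]; exact hb) hm.deriv_eq_zero h1.self_of_nhds.continuousAt
  have h5 : f =ᶠ[𝓝 0] fun _ => f 0 := (hm.and h4).mono fun t ht => le_antisymm ht.1 ht.2
  have := (J2.unique ⟨f1, h1, rfl, h3⟩ ((J2.const (f 0)).congr h5)).2
  linarith

/-- The second derivative in the direction `e`. -/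
noncomputable def D2 (u : ℂ → F) (z e : ℂ) : F := fderiv ℝ (fderiv ℝ u) z e e

/-- The Laplace operator. -/
noncomputable def lp (u : ℂ → F) (z : ℂ) : F := D2 u z 1 + D2 u z I

theorem hasDerivAt_line (z e : ℂ) (t : ℝ) : HasDerivAt (fun t : ℝ => z + t * e) e t := by
  simpa using (ofRealCLM.hasDerivAt (x := t).mul_const e).const_add z

theorem tendsto_line (z e : ℂ) : Tendsto (fun t : ℝ => z + t * e) (𝓝 0) (𝓝 z) := by
  simpa using (hasDerivAt_line z e 0).continuousAt.tendsto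

theorem two_diff {D : Type} [NormedAddCommGroup D] [NormedSpace ℝ D] {u : D → F} {z : D}
    (h : ContDiffAt ℝ 2 u z) :
    (∀ᶠ w in 𝓝 z, DifferentiableAt ℝ u w) ∧ DifferentiableAt ℝ (fderiv ℝ u) z :=
  ⟨(h.eventually (by simp)).mono fun w hw => hw.differentiableAt (by simp),
    (h.fderiv_right (m := 1) (by norm_num)).differentiableAt (by simp)⟩

theorem j2_line {u : ℂ → F} {z : ℂ} (h : ContDiffAt ℝ 2 u z) (e : ℂ) :
    J2 (fun t : ℝ => u (z + t * e)) (fderiv ℝ u z e) (D2 u z e) := by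
  refine ⟨fun t => fderiv ℝ u (z + t * e) e, ((tendsto_line z e).eventually (two_diff h).1).mono
    fun t ht => ht.hasFDerivAt.comp_hasDerivAt t (hasDerivAt_line z e t), by simp, ?_⟩
  have h1 : HasFDerivAt (fderiv ℝ u) (fderiv ℝ (fderiv ℝ u) z) (z + (0 : ℝ) * e) := by
    simpa using (two_diff h).2.hasFDerivAt
  exact ((HasFDerivAt.comp_hasDerivAt (f := fun t : ℝ => z + t * e) (0 : ℝ) h1
    (hasDerivAt_line z e 0)).clm_apply (hasDerivAt_const (0 : ℝ) e)).congr_deriv (by simp [D2])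

theorem D2_rot {u : ℂ → F} {z : ℂ} (h : ContDiffAt ℝ 2 u z) (e : ℂ) (he : ‖e‖ = 1) :
    D2 u z e + D2 u z (I * e) = lp u z := by
  have hs := h.isSymmSndFDerivAt (by simp) 1 I
  have e1 : e = e.re • (1 : ℂ) + e.im • I := by simp
  have e2 : I * e = (-e.im) • (1 : ℂ) + e.re • I := by apply Complex.ext <;> simp
  have e3 : e.re ^ 2 + e.im ^ 2 = 1 := by
    have := Complex.sq_norm e
    rw [he, normSq_apply] at this
    nlinarith
  rw [lp, D2, D2, D2, D2, e2]
  conv_lhs => rw [e1]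
  simp only [map_add, map_smul, add_apply, smul_apply, hs,
    add_re, add_im, smul_re, smul_im, one_re, one_im, I_re, I_im, smul_eq_mul, mul_one, mul_zero,
    add_zero, zero_add]
  generalize fderiv ℝ (fderiv ℝ u) z 1 1 = A, fderiv ℝ (fderiv ℝ u) z I 1 = B,
    fderiv ℝ (fderiv ℝ u) z I I = C
  have : A + C = (e.re ^ 2 + e.im ^ 2) • (A + C) := by rw [e3, one_smul]
  rw [this]
  module

end jets

/-- The holomorphic Wirtinger derivative. -/
noncomputable def dz (φ : ℂ → ℂ) (w : ℂ) : ℂ := (fderiv ℝ φ w 1 - I * fderiv ℝ φ w I) / 2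

theorem lp_re {N n1 : ℂ → ℂ} {z : ℂ} (h : ContDiffAt ℝ 2 N z) (e : dbar N =ᶠ[𝓝 z] n1) :
    lp (fun w => (N w).re) z = 4 * (dz n1 z).re := by
  have hs := h.isSymmSndFDerivAt (by simp) 1 I
  have h1 := (two_diff h).2.hasFDerivAt
  have h2 : ∀ v, HasFDerivAt (fun w => fderiv ℝ N w v) ((fderiv ℝ (fderiv ℝ N) z).flip v) z :=
    fun v => (h1.clm_apply (hasFDerivAt_const v z)).congr_fderiv (by ext; simp)
  have h3 : HasFDerivAt (dbar N) _ z := (((h2 1).add ((h2 I).const_mul I)).mul_const (2⁻¹ : ℂ))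
  have h4 : ∀ v, D2 (fun w => (N w).re) z v = (D2 N z v).re := fun v => by
    obtain ⟨f1, a1, a2, a3⟩ := j2_line h v
    exact ((j2_line (reCLM.contDiff.contDiffAt.comp z h) v).unique ⟨fun t => (f1 t).re,
      a1.mono fun t ht => reCLM.hasFDerivAt.comp_hasDerivAt t ht, rfl,
      reCLM.hasFDerivAt.comp_hasDerivAt 0 a3⟩).2
  rw [lp, h4, h4, dz, ← e.fderiv_eq, h3.fderiv]
  simp [D2, hs]
  ring

theorem dz_mul {f g : ℂ → ℂ} {z : ℂ} (hf : DifferentiableAt ℝ f z) (hg : DifferentiableAt ℝ g z) :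
    dz (fun w => f w * g w) z = dz f z * g z + f z * dz g z := by
  rw [dz, dz, dz, fderiv_fun_mul hf hg]
  simp
  ring

theorem fderiv_holo {F : Type} [NormedAddCommGroup F] [NormedSpace ℂ F] {f : ℂ → F} {z : ℂ}
    (hf : DifferentiableAt ℂ f z) (e : ℂ) : fderiv ℝ f z e = e • deriv f z := by
  rw [(hf.hasDerivAt.hasFDerivAt.restrictScalars ℝ).fderiv]; simp

theorem dz_holo {f : ℂ → ℂ} {z : ℂ} (hf : DifferentiableAt ℂ f z) : dz f z = deriv f z := by
  rw [dz, fderiv_holo hf, fderiv_holo hf, smul_eq_mul, smul_eq_mul, ← mul_assoc, I_mul_I]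
  ring

theorem dbar_holo {f : ℂ → ℂ} {z : ℂ} (hf : DifferentiableAt ℂ f z) : dbar f z = 0 := by
  rw [dbar, fderiv_holo hf, fderiv_holo hf, smul_eq_mul, smul_eq_mul, ← mul_assoc, I_mul_I]
  ring

theorem dbar_mul {f g : ℂ → ℂ} {z : ℂ} (hf : DifferentiableAt ℝ f z)
    (hg : DifferentiableAt ℝ g z) :
    dbar (fun w => f w * g w) z = dbar f z * g z + f z * dbar g z := by
  rw [dbar, dbar, dbar, fderiv_fun_mul hf hg]
  simp
  ring

theorem CI_smooth {ψ : ℂ → ℂ} (h1 : ContDiff ℝ 2 ψ) (h2 : HasCompactSupport ψ) :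
    ContDiff ℝ 2 (CI ψ) ∧ ∀ z, dbar (CI ψ) z = -π * ψ z := by
  have hK : LocallyIntegrable (fun t : ℂ => -t⁻¹) := fun z => by
    refine ⟨ball 0 (‖z‖ + 1), isOpen_ball.mem_nhds (by simp), ?_⟩
    exact integrableOn_ball_of_norm_le_rpow (C := 1) (α := 1) (by simp) (by simp)
      (ae_of_all _ fun w => by simp [Real.rpow_neg_one]) (by fun_prop)
  have e : ∀ φ : ℂ → ℂ, CI φ = (fun t : ℂ => -t⁻¹) ⋆[ContinuousLinearMap.mul ℝ ℂ] φ := fun φ => by
    ext z
    rw [CI, convolution_def, ← integral_sub_left_eq_self _ _ z]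
    congr 1; ext t
    simp [div_eq_mul_inv, mul_comm]
  have h3 : ContDiff ℝ 1 ψ := h1.of_le (by norm_num)
  refine ⟨by rw [e]; exact h2.contDiff_convolution_right (n := 2) _ hK h1, fun z => ?_⟩
  have h4 : ∀ v, fderiv ℝ (CI ψ) z v = CI (fun w => fderiv ℝ ψ w v) z := fun v => by
    rw [e, e, (h2.hasFDerivAt_convolution_right _ hK h3 z).fderiv,
      convolution_precompR_apply _ hK (h2.fderiv ℝ) (h3.continuous_fderiv one_ne_zero)]
  have h5 : ∀ v, Integrable fun w => fderiv ℝ ψ w v / (w - z) := fun v => by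
    have hc : Continuous fun w => fderiv ℝ ψ w v :=
      (h3.continuous_fderiv one_ne_zero).clm_apply continuous_const
    have hs : HasCompactSupport fun w => fderiv ℝ ψ w v := h2.fderiv_apply ℝ v
    obtain ⟨C, hC⟩ := hc.bounded_above_of_compact_support hs
    obtain ⟨R, hR⟩ := hs.isCompact.isBounded.subset_closedBall 0
    exact (BC.mk hc.aestronglyMeasurable hC ⟨R, fun w hw => image_eq_zero_of_notMem_tsupport
      (f := fun w => fderiv ℝ ψ w v) fun hm => by have := hR hm; simp at this; linarith⟩).integrable_div z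
  rw [← pompeiu h3 h2 z, dbar, h4, h4, CI, CI, CI, ← integral_const_mul,
    ← integral_add (h5 1) ((h5 I).const_mul I), ← integral_div]
  congr 1; ext w
  rw [dbar]; ring

theorem hasDerivAt_param {F : Type} [NormedAddCommGroup F] [NormedSpace ℝ F] {f f' : ℝ → ℝ → F}
    {s : Set ℝ} (hs : IsOpen s) (hc : ContinuousOn (Function.uncurry f) (s ×ˢ univ))
    (hc' : ContinuousOn (Function.uncurry f') (s ×ˢ univ))
    (hd : ∀ x ∈ s, ∀ θ, HasDerivAt (fun x => f x θ) (f' x θ) x) {x : ℝ} (hx : x ∈ s) (a b : ℝ) :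
    HasDerivAt (fun x => ∫ θ in a..b, f x θ) (∫ θ in a..b, f' x θ) x := by
  obtain ⟨δ, hδ, h1⟩ := Metric.nhds_basis_closedBall.mem_iff.1 (hs.mem_nhds hx)
  have c1 : ∀ {g : ℝ → ℝ → F}, ContinuousOn (Function.uncurry g) (s ×ˢ univ) → ∀ y ∈ s,
      Continuous (g y) := fun hg y hy =>
    hg.comp_continuous (f := fun θ => (y, θ)) (by fun_prop) fun θ => ⟨hy, trivial⟩
  obtain ⟨C, hC⟩ := ((isCompact_closedBall x δ).prod (isCompact_uIcc (a := a) (b := b))
    ).exists_bound_of_continuousOn (hc'.mono (prod_mono h1 (subset_univ _)))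
  exact (intervalIntegral.hasDerivAt_integral_of_dominated_loc_of_deriv_le (bound := fun _ => C)
    (closedBall_mem_nhds x hδ)
    ((hs.eventually_mem hx).mono fun y hy => (c1 hc y hy).aestronglyMeasurable)
    ((c1 hc x hx).intervalIntegrable _ _) (c1 hc' x hx).aestronglyMeasurable
    (ae_of_all _ fun θ hθ y hy => hC (y, θ) ⟨hy, uIoc_subset_uIcc hθ⟩) intervalIntegrable_const
    (ae_of_all _ fun θ _ y hy => hd y (h1 hy) θ)).2

theorem continuousOn_param {F : Type} [NormedAddCommGroup F] [NormedSpace ℝ F] {f : ℝ → ℝ → F}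
    {s : Set ℝ} (hc : ContinuousOn (Function.uncurry f) (s ×ˢ univ)) (a b : ℝ) :
    ContinuousOn (fun x => ∫ θ in a..b, f x θ) s := by
  rw [continuousOn_iff_continuous_domRestrict]
  exact intervalIntegral.continuous_parametric_intervalIntegral_of_continuous'
    (f := fun (x : s) θ => f x θ)
    (hc.comp_continuous (f := fun p : s × ℝ => ((p.1 : ℝ), p.2)) (by fun_prop)
      fun p => ⟨p.1.2, trivial⟩) a b

/-- The point `r e^{iθ}`. -/
noncomputable def cm (r θ : ℝ) : ℂ := r * exp (θ * I)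

theorem norm_cm (r θ : ℝ) : ‖cm r θ‖ = |r| := by simp [cm]

@[fun_prop] theorem continuous_cm : Continuous fun p : ℝ × ℝ => cm p.1 p.2 := by
  unfold cm; fun_prop

theorem hasDerivAt_cm_r (r θ : ℝ) : HasDerivAt (fun r => cm r θ) (cm 1 θ) r := by
  simpa [cm] using (ofRealCLM.hasDerivAt (x := r).mul_const (exp (θ * I)))

theorem hasDerivAt_cm_θ (r θ : ℝ) : HasDerivAt (cm r) (I * cm r θ) θ := by
  have := ((ofRealCLM.hasDerivAt (x := θ).mul_const I).cexp).const_mul (r : ℂ)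
  exact this.congr_deriv (by simp [cm]; ring)

theorem cm_mem {R r : ℝ} (h : r ∈ Ioo (-R) R) (θ : ℝ) : cm r θ ∈ ball (0 : ℂ) R := by
  rw [mem_ball_zero_iff, norm_cm]; exact abs_lt.2 h

/-- The integral over the circle of radius `r`. -/
noncomputable def mean (u : ℂ → ℝ) (r : ℝ) : ℝ := ∫ θ in 0..2 * π, u (cm r θ)

theorem continuousOn_mean {u : ℂ → ℝ} {R : ℝ} (h : ContinuousOn u (ball 0 R)) :
    ContinuousOn (mean u) (Ioo (-R) R) :=
  continuousOn_param (f := fun r θ => u (cm r θ))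
    (h.comp continuous_cm.continuousOn fun p hp => cm_mem hp.1 p.2) _ _

theorem continuous_on_circle {F : Type} [TopologicalSpace F] {u : ℂ → F} {R r : ℝ}
    (h : ContinuousOn u (ball 0 R)) (hr : r ∈ Ioo (-R) R) : Continuous fun θ => u (cm r θ) :=
  h.comp_continuous (by fun_prop) (cm_mem hr)

theorem mean_derivs {u : ℂ → ℝ} {R : ℝ} (hu : ∀ z ∈ ball (0 : ℂ) R, ContDiffAt ℝ 2 u z) :
    ∃ V1 V2 : ℝ → ℝ, ∀ r ∈ Ioo (-R) R, HasDerivAt (mean u) (V1 r) r ∧ HasDerivAt V1 (V2 r) r ∧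
      (r ≠ 0 → V1 r + r * V2 r = r * mean (lp u) r) := by
  have c0 : ContinuousOn u (ball 0 R) := fun z hz => (hu z hz).continuousAt.continuousWithinAt
  have c1 : ContinuousOn (fderiv ℝ u) (ball 0 R) := fun z hz =>
    ((hu z hz).continuousAt_fderiv two_ne_zero).continuousWithinAt
  have c2 : ContinuousOn (fderiv ℝ (fderiv ℝ u)) (ball 0 R) := fun z hz =>
    (((hu z hz).fderiv_right (m := 1) (by norm_num)).continuousAt_fderiv
      one_ne_zero).continuousWithinAt
  have m : MapsTo (fun p : ℝ × ℝ => cm p.1 p.2) (Ioo (-R) R ×ˢ univ) (ball 0 R) :=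
    fun p hp => cm_mem hp.1 p.2
  have k : ContinuousOn (fun p : ℝ × ℝ => cm 1 p.2) (Ioo (-R) R ×ˢ univ) := by
    unfold cm; fun_prop
  have a1 := (c1.comp continuous_cm.continuousOn m).clm_apply k
  have a2 := ((c2.comp continuous_cm.continuousOn m).clm_apply k).clm_apply k
  refine ⟨fun r => ∫ θ in 0..2 * π, fderiv ℝ u (cm r θ) (cm 1 θ),
    fun r => ∫ θ in 0..2 * π, D2 u (cm r θ) (cm 1 θ), fun r hr => ⟨?_, ?_, fun h0 => ?_⟩⟩
  · exact hasDerivAt_param (f := fun r θ => u (cm r θ))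
      (f' := fun r θ => fderiv ℝ u (cm r θ) (cm 1 θ)) isOpen_Ioo
      (c0.comp continuous_cm.continuousOn m) a1 (fun r hr θ =>
      (two_diff (hu _ (cm_mem hr θ))).1.self_of_nhds.hasFDerivAt.comp_hasDerivAt r
        (hasDerivAt_cm_r r θ)) hr _ _
  · refine hasDerivAt_param (f := fun r θ => fderiv ℝ u (cm r θ) (cm 1 θ))
      (f' := fun r θ => D2 u (cm r θ) (cm 1 θ)) isOpen_Ioo a1 a2 (fun r hr θ => ?_) hr _ _
    exact (((two_diff (hu _ (cm_mem hr θ))).2.hasFDerivAt.comp_hasDerivAt r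
      (hasDerivAt_cm_r r θ)).clm_apply (hasDerivAt_const r (cm 1 θ))).congr_deriv (by simp [D2])
  · have b1 : Continuous fun θ => fderiv ℝ u (cm r θ) (cm 1 θ) :=
      (continuous_on_circle c1 hr).clm_apply (by fun_prop)
    have b2 : Continuous fun θ => D2 u (cm r θ) (cm 1 θ) :=
      ((continuous_on_circle c2 hr).clm_apply (by fun_prop)).clm_apply (by fun_prop)
    have b3 : Continuous fun θ => D2 u (cm r θ) (I * cm 1 θ) :=
      ((continuous_on_circle c2 hr).clm_apply (by fun_prop)).clm_apply (by fun_prop)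
    have e : ∀ θ, cm r θ = r • cm 1 θ := fun θ => by simp [cm]
    have b4 := intervalIntegral.integral_eq_sub_of_hasDerivAt (a := 0) (b := 2 * π)
      (f := fun θ => fderiv ℝ u (cm r θ) (I * cm 1 θ))
      (f' := fun θ => r * D2 u (cm r θ) (I * cm 1 θ) - fderiv ℝ u (cm r θ) (cm 1 θ))
      (fun θ _ => (((two_diff (hu _ (cm_mem hr θ))).2.hasFDerivAt.comp_hasDerivAt θ
        (hasDerivAt_cm_θ r θ)).clm_apply ((hasDerivAt_cm_θ 1 θ).const_mul I)).congr_deriv (by
          rw [← mul_assoc, I_mul_I, neg_one_mul, map_neg, e θ, mul_smul_comm, map_smul, ← e θ]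
          simp [D2, sub_eq_add_neg]))
      (((b3.const_mul r).sub b1).intervalIntegrable _ _)
    have b5 : cm r (2 * π) = cm r 0 ∧ cm 1 (2 * π) = cm 1 0 := by simp [cm]
    rw [b5.1, b5.2, sub_self, intervalIntegral.integral_sub ((b3.const_mul r).intervalIntegrable _ _)
      (b1.intervalIntegrable _ _), intervalIntegral.integral_const_mul, sub_eq_zero] at b4
    beta_reduce
    rw [← b4, ← mul_add, add_comm, ← intervalIntegral.integral_add (b2.intervalIntegrable _ _)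
      (b3.intervalIntegrable _ _), mean]
    congr 2; ext θ
    exact D2_rot (hu _ (cm_mem hr θ)) _ (by simp [norm_cm])

/-- The Green function times the radius. -/
noncomputable def gr (r : ℝ) : ℝ := r * (1 + Real.log (1 + r ^ 2)) - r * Real.log r

theorem continuous_gr : Continuous gr :=
  (continuous_id.mul (continuous_const.add (Continuous.log (by fun_prop) fun r => by
    positivity))).sub Real.continuous_mul_log

theorem le_gr {r : ℝ} (hr : 0 ≤ r) : r ≤ gr r := by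
  rcases hr.eq_or_lt with rfl | hr
  · simp [gr]
  have := Real.log_le_log hr (show r ≤ 1 + r ^ 2 by nlinarith)
  unfold gr; nlinarith

theorem gr_le {r R : ℝ} (hr : 1 ≤ r) (hR : r ≤ R) : gr r ≤ R * (1 + R ^ 2) := by
  have h1 := Real.log_nonneg hr
  have h2 := Real.log_le_sub_one_of_pos (show 0 < 1 + r ^ 2 by positivity)
  have h3 : r * (1 + r ^ 2) ≤ R * (1 + R ^ 2) := by gcongr; linarith
  unfold gr; nlinarith

theorem mean_mono {u v : ℂ → ℝ} {R r : ℝ} (hu : ContinuousOn u (ball 0 R))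
    (hv : ContinuousOn v (ball 0 R)) (hr : r ∈ Ioo (-R) R) (h : ∀ θ, u (cm r θ) ≤ v (cm r θ)) :
    mean u r ≤ mean v r :=
  intervalIntegral.integral_mono_on (by positivity)
    ((continuous_on_circle hu hr).intervalIntegrable _ _)
    ((continuous_on_circle hv hr).intervalIntegrable _ _) fun θ _ => h θ

theorem mean_nonneg {u : ℂ → ℝ} {r : ℝ} (h : ∀ θ, 0 ≤ u (cm r θ)) : 0 ≤ mean u r :=
  intervalIntegral.integral_nonneg (by positivity) fun θ _ => h θ

/-- The radial estimate. -/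
theorem radial {u f : ℂ → ℝ} {R ρ : ℝ} (hu : ∀ z ∈ ball (0 : ℂ) R, ContDiffAt ℝ 2 u z)
    (hf : ContinuousOn f (ball 0 R)) (u0 : ∀ z ∈ ball (0 : ℂ) R, 0 ≤ u z)
    (f0 : ∀ z ∈ ball (0 : ℂ) R, 0 ≤ f z)
    (hl : ∀ z ∈ ball (0 : ℂ) R, 4 / (1 + ‖z‖ ^ 2) ^ 2 * u z - f z ≤ lp u z) (h2 : 2 ≤ ρ)
    (hρ : ρ < R) : 2 * π * u 0 ≤ (∫ r in 0..ρ, gr r * mean f r) + R * (1 + R ^ 2) * mean u ρ := by
  obtain ⟨V1, V2, hV⟩ := mean_derivs hu
  have c0 : ContinuousOn u (ball 0 R) := fun z hz => (hu z hz).continuousAt.continuousWithinAt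
  have c2 : ContinuousOn (lp u) (ball 0 R) := fun z hz => by
    have := (((hu z hz).fderiv_right (m := 1) (by norm_num)).continuousAt_fderiv one_ne_zero)
    exact (((this.clm_apply continuousAt_const).clm_apply continuousAt_const).add
      ((this.clm_apply continuousAt_const).clm_apply continuousAt_const)).continuousWithinAt
  have hs : Icc 0 ρ ⊆ Ioo (-R) R := fun r hr => ⟨by linarith [hr.1], hr.2.trans_lt hρ⟩
  have cf : ContinuousOn (fun r => gr r * mean f r) (Icc 0 ρ) :=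
    continuous_gr.continuousOn.mul ((continuousOn_mean hf).mono hs)
  have pf : ∀ r ∈ Icc 0 ρ, 0 ≤ gr r * mean f r := fun r hr =>
    mul_nonneg (hr.1.trans (le_gr hr.1)) (mean_nonneg fun θ => f0 _ (cm_mem (hs hr) θ))
  have pu : ∀ r ∈ Icc 0 ρ, 0 ≤ mean u r := fun r hr =>
    mean_nonneg fun θ => u0 _ (cm_mem (hs hr) θ)
  set m := 2 * π * u 0 - ∫ r in 0..ρ, gr r * mean f r with hm
  have key : ∀ r ∈ Icc 1 ρ, m ≤ gr r * V1 r := fun r hr => by
    have hr0 : 0 ≤ r := zero_le_one.trans hr.1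
    have hs' : Icc 0 r ⊆ Icc 0 ρ := Icc_subset_Icc_right hr.2
    have h1 := intervalIntegral.integral_le_sub_of_hasDeriv_right_of_le hr0
      (g := fun t => gr t * V1 t - (1 - 2 / (1 + t ^ 2)) * mean u t)
      (g' := fun t => gr t / t * (V1 t + t * V2 t) - 4 * t / (1 + t ^ 2) ^ 2 * mean u t)
      (φ := fun t => -(gr t * mean f t))
      (fun t ht => ((continuous_gr.continuousAt.mul (hV t (hs (hs' ht))).2.1.continuousAt).sub
        (ContinuousAt.mul (by fun_prop (disch := positivity))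
          (hV t (hs (hs' ht))).1.continuousAt)).continuousWithinAt)
      (fun t ht => by
        have t0 := ht.1
        obtain ⟨a1, a2, -⟩ := hV t (hs (hs' (Ioo_subset_Icc_self ht)))
        have a3 : HasDerivAt (fun t : ℝ => 1 + t ^ 2) (2 * t) t := by
          simpa using (hasDerivAt_pow 2 t).const_add 1
        have a4 : HasDerivAt gr _ t := ((hasDerivAt_id t).mul
          ((a3.log (by positivity)).const_add 1)).sub (Real.hasDerivAt_mul_log t0.ne')
        refine (((a4.mul a2).sub ((((hasDerivAt_const t (2 : ℝ)).div a3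
          (by positivity)).const_sub 1).mul a1)).congr_deriv ?_).hasDerivWithinAt
        simp only [gr, id, Pi.div_apply]
        field_simp
        ring)
      (cf.mono hs').neg.integrableOn_Icc
      (fun t ht => by
        have t0 := ht.1
        have t1 := hs (hs' (Ioo_subset_Icc_self ht))
        have a1 := mean_mono (u := fun z => 4 / (1 + t ^ 2) ^ 2 * u z - f z)
          ((c0.const_mul _).sub hf) c2 t1 fun θ => by
            simpa [norm_cm] using hl _ (cm_mem t1 θ)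
        rw [mean, intervalIntegral.integral_sub
          (((continuous_on_circle c0 t1).const_mul _).intervalIntegrable _ _)
          ((continuous_on_circle hf t1).intervalIntegrable _ _),
          intervalIntegral.integral_const_mul, ← mean, ← mean] at a1
        rw [(hV t t1).2.2 t0.ne', ← mul_assoc, div_mul_cancel₀ _ t0.ne']
        have a2 := le_gr t0.le
        have a3 := mul_le_mul_of_nonneg_left a1 (t0.le.trans a2)
        have a4 := mul_le_mul_of_nonneg_right a2 (mul_nonneg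
          (show 0 ≤ 4 / (1 + t ^ 2) ^ 2 by positivity) (pu t (hs' (Ioo_subset_Icc_self ht))))
        have a5 : 4 * t / (1 + t ^ 2) ^ 2 * mean u t = t * (4 / (1 + t ^ 2) ^ 2 * mean u t) := by
          ring
        linarith)
    have h2 : ∫ t in 0..r, gr t * mean f t ≤ ∫ t in 0..ρ, gr t * mean f t :=
      intervalIntegral.integral_mono_interval le_rfl hr0 hr.2
        ((ae_restrict_mem measurableSet_Ioc).mono fun t ht => pf t (Ioc_subset_Icc_self ht))
        (cf.intervalIntegrable_of_Icc (by linarith))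
    have h3 : mean u 0 = 2 * π * u 0 := by simp [mean, cm]
    have h4 : 0 ≤ (1 - 2 / (1 + r ^ 2)) * mean u r := mul_nonneg (by
      rw [sub_nonneg, div_le_one (by positivity)]; nlinarith [hr.1]) (pu r ⟨hr0, hr.2⟩)
    rw [intervalIntegral.integral_neg, h3] at h1
    simp only [gr, zero_mul, sub_zero] at h1
    norm_num at h1
    simp only [gr] at *
    linarith
  have hC : 0 < R * (1 + R ^ 2) := by
    have : 0 < R := by linarith
    positivity
  rcases le_or_gt m 0 with h0 | h0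
  · nlinarith [mul_nonneg hC.le (pu ρ ⟨by linarith, le_rfl⟩)]
  have hs1 : Icc 1 ρ ⊆ Ioo (-R) R := (Icc_subset_Icc_left zero_le_one).trans hs
  have h5 := (convex_Icc 1 ρ).mul_sub_le_image_sub_of_le_deriv (f := mean u)
    (C := m / (R * (1 + R ^ 2))) ((continuousOn_mean c0).mono hs1)
    (fun r hr => (hV r (hs1 (interior_subset hr))).1.differentiableAt.differentiableWithinAt)
    (fun r hr => by
      have hr := interior_subset hr
      rw [(hV r (hs1 hr)).1.deriv, div_le_iff₀ hC]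
      have a1 := key r hr
      have a2 := gr_le hr.1 (hr.2.trans hρ.le)
      have a3 := le_gr (zero_le_one.trans hr.1)
      have a4 : 0 ≤ V1 r := by
        by_contra! h
        nlinarith [hr.1]
      nlinarith) 1 ⟨le_rfl, by linarith⟩ ρ ⟨by linarith, le_rfl⟩ (by linarith)
  have h6 : m / (R * (1 + R ^ 2)) ≤ mean u ρ := by
    nlinarith [div_pos h0 hC, pu 1 ⟨zero_le_one, by linarith⟩]
  rw [div_le_iff₀ hC] at h6
  linarith

/-- Polar coordinates. -/
theorem polar {g : ℂ → ℝ} (hg : Continuous g) {ρ : ℝ} (hρ : 0 ≤ ρ) (h0 : ∀ z, ρ ≤ ‖z‖ → g z = 0) :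
    ∫ z, g z = ∫ r in 0..ρ, r * mean g r := by
  have hc : Continuous fun p : ℝ × ℝ => p.1 * g (cm p.1 p.2) := by fun_prop
  have hz : ∀ r θ, ρ < r → r * g (cm r θ) = 0 := fun r θ h => by
    rw [h0 _ (by rw [norm_cm]; exact h.le.trans (le_abs_self r)), mul_zero]
  have hi : IntegrableOn (fun p : ℝ × ℝ => p.1 * g (cm p.1 p.2)) (Ioi 0 ×ˢ Ioo (-π) π) := by
    refine IntegrableOn.of_forall_sdiff_eq_zero (s := Icc 0 ρ ×ˢ Icc (-π) π)
      (hc.continuousOn.integrableOn_compact (isCompact_Icc.prod isCompact_Icc))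
      (measurableSet_Ioi.prod measurableSet_Ioo) fun p hp => hz _ _ ?_
    by_contra hc
    exact hp.2 ⟨⟨hp.1.1.le, not_lt.1 hc⟩, hp.1.2.1.le, hp.1.2.2.le⟩
  have e1 : ∫ z, g z = ∫ p : ℝ × ℝ in Ioi 0 ×ˢ Ioo (-π) π, p.1 * g (cm p.1 p.2) := by
    rw [← Complex.integral_comp_polarCoord_symm]
    refine setIntegral_congr_fun (measurableSet_Ioi.prod measurableSet_Ioo) fun p _ => ?_
    simp only [Complex.polarCoord_symm_apply, smul_eq_mul, cm, exp_mul_I, ofReal_cos, ofReal_sin]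
  have e2 : ∀ r, ∫ θ in Ioo (-π) π, r * g (cm r θ) = r * mean g r := fun r => by
    have hp : Function.Periodic (fun θ => g (cm r θ)) (2 * π) := fun θ => by
      simp [cm, add_mul, exp_add]
    have := hp.intervalIntegral_add_eq (-π) 0
    rw [integral_const_mul, ← integral_Ioc_eq_integral_Ioo,
      ← intervalIntegral.integral_of_le (by linarith [Real.pi_pos]), mean, ← zero_add (2 * π),
      ← this]
    congr 2; ring
  rw [e1, Measure.volume_eq_prod, setIntegral_prod _ (by rwa [← Measure.volume_eq_prod]),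
    intervalIntegral.integral_of_le hρ]
  simp only [e2]
  refine setIntegral_eq_of_subset_of_forall_sdiff_eq_zero measurableSet_Ioi Ioc_subset_Ioi_self
    fun r hr => ?_
  rw [← e2]
  have : ρ < r := by
    by_contra hc
    exact hr.2 ⟨hr.1, not_lt.1 hc⟩
  simp [hz r _ this]

/-- The principle of Brezis and Browder. -/
theorem exists_max {X : Type} {r : X → X → Prop} (h1 : ∀ x, r x x)
    (h2 : ∀ x y z, r x y → r y z → r x z) {t : X → ℝ} (hb : ∀ x, t x ≤ 1)
    (hm : ∀ x y, r x y → t x ≤ t y)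
    (h3 : ∀ s : ℕ → X, (∀ k, r (s k) (s (k + 1))) → ∃ y, ∀ k, r (s k) y) (x₀ : X) :
    ∃ x, r x₀ x ∧ ∀ y, r x y → t y ≤ t x := by
  have hB : ∀ x, BddAbove (t '' {y | r x y}) := fun x => ⟨1, by rintro _ ⟨y, -, rfl⟩; exact hb y⟩
  have key : ∀ (x : X) (k : ℕ), ∃ y, r x y ∧ ∀ z, r x z → t z ≤ t y + 1 / (k + 1) := fun x k => by
    obtain ⟨_, ⟨y, hy, rfl⟩, h⟩ := exists_lt_of_lt_csSup (s := t '' {y | r x y}) ⟨_, x, h1 x, rfl⟩
      (sub_lt_self _ (Nat.one_div_pos_of_nat (n := k)))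
    exact ⟨y, hy, fun z hz => by linarith [le_csSup (hB x) ⟨z, hz, rfl⟩]⟩
  choose f hf hf' using key
  let s : ℕ → X := fun k => Nat.rec x₀ (fun k x => f x k) k
  obtain ⟨x, hx⟩ := h3 s fun k => hf _ _
  refine ⟨x, hx 0, fun y hy => le_of_forall_pos_le_add fun ε hε => ?_⟩
  obtain ⟨k, hk⟩ := exists_nat_one_div_lt hε
  linarith [hf' (s k) k y (h2 _ _ _ (hx k) hy), hm _ _ (hx (k + 1)), show s (k + 1) = f (s k) k from rfl,
    show t (s (k + 1)) = t (f (s k) k) from rfl]

end Pool.Agent.Lib.MP_124863_gt.Ec
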