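import Pool.Agent.Lib.MP_124863_gt.Stmt

/-! Stein manifolds, nonnegative bisectional curvature and holomorphic curves. -/

open scoped Manifold

namespace Pool.Agent.Lib.MP_124863_gt

/-- `f` is complex differentiable at `x`, for the model spaces `F` and `G`. -/
def HolAt (F G : Type) [NormedAddCommGroup F] [NormedSpace ℂ F] [NormedAddCommGroup G]
    [NormedSpace ℂ G] {X Y : Type} [TopologicalSpace X] [ChartedSpace F X] [TopologicalSpace Y]
    [ChartedSpace G Y] (f : X → Y) (x : X) : Prop :=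
  MDifferentiableAt 𝓘(ℂ, F) 𝓘(ℂ, G) f x

variable (n : ℕ) (M : Type) [MetricSpace M] [ChartedSpace (Cn n) M]

/-- Nonnegative holomorphic bisectional curvature. -/
def NonnegativeBisec [Riem (Cn n) M] : Prop :=
  ∀ (f : Cn n → M) z, Coord f z → ∀ X Y : Cn n, 0 ≤ bisec (fun w => hmat (pull f w)) z X Y

/-- `M` has a holomorphic map `ι` onto a closed subset of some `ℂ^N` with a holomorphic left inverse
defined on an open neighbourhood of the image. -/
def Stein : Prop :=
  ∃ (N : ℕ) (ι : M → Cn N) (U : Set (Cn N)) (q : Cn N → M), (∀ x, HolAt (Cn n) (Cn N) ι x) ∧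
    IsClosed (Set.range ι) ∧ IsOpen U ∧ (∀ x, ι x ∈ U) ∧ (∀ z ∈ U, HolAt (Cn N) (Cn n) q z) ∧
    ∀ x, q (ι x) = x

variable {M} in
/-- The derivative `f'(w)` of a holomorphic curve. -/
noncomputable def vel (f : ℂ → M) (w : ℂ) : Cn n := mfderiv 𝓘(ℂ, ℂ) 𝓘(ℂ, Cn n) f w (1 : ℂ)

end Pool.Agent.Lib.MP_124863_gt
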