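import Pool.Agent.Lib.MP_124863_gt.EcKato

/-! The dual estimate: existence of sections with small boundary values and small variation. -/

open Filter Topology Set Metric Complex MeasureTheory
open scoped Real Matrix ComplexConjugate

namespace Pool.Agent.Lib.MP_124863_gt.Ec

open Pool.Agent.Lib.MP_45f16c_ag

variable {N : ℕ}

theorem glue_nhds {F : Type} [Zero F] {f : ℂ → F} {R₀ : ℝ} (h0 : ∀ w, R₀ ≤ ‖w‖ → f w = 0) {z : ℂ}
    (hz : R₀ < ‖z‖) : f =ᶠ[𝓝 z] fun _ => 0 :=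
  (continuous_norm.continuousAt.eventually (lt_mem_nhds hz)).mono fun w hw => h0 w hw.le

theorem glue_supp {F : Type} [Zero F] {f : ℂ → F} {R₀ : ℝ} (h0 : ∀ w, R₀ ≤ ‖w‖ → f w = 0) :
    HasCompactSupport f :=
  .intro (isCompact_closedBall 0 R₀) fun w hw => h0 w (by simp at hw; exact hw.le)

theorem glue_cont {F : Type} [Zero F] [TopologicalSpace F] {f : ℂ → F} {R₀ R : ℝ} (hR : R₀ < R)
    (h0 : ∀ w, R₀ ≤ ‖w‖ → f w = 0) (h : ContinuousOn f (ball 0 R)) : Continuous f :=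
  continuous_iff_continuousAt.2 fun z => (lt_or_ge ‖z‖ R).elim
    (fun hz => h.continuousAt (isOpen_ball.mem_nhds (mem_ball_zero_iff.2 hz)))
    fun hz => continuousAt_const.congr (glue_nhds h0 (hR.trans_le hz)).symm

theorem glue_diff {F : Type} [NormedAddCommGroup F] [NormedSpace ℝ F] {f : ℂ → F} {R₀ R : ℝ}
    {k : ℕ} (hR : R₀ < R) (h0 : ∀ w, R₀ ≤ ‖w‖ → f w = 0)
    (h : ∀ z ∈ ball 0 R, ContDiffAt ℝ k f z) : ContDiff ℝ k f :=
  contDiff_iff_contDiffAt.2 fun z => (lt_or_ge ‖z‖ R).elim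
    (fun hz => h z (mem_ball_zero_iff.2 hz))
    fun hz => contDiffAt_const.congr_of_eventuallyEq (glue_nhds h0 (hR.trans_le hz))

theorem bil_lower {X : Type} [TopologicalSpace X] {B : X → Bil N} {K : Set X} (hc : IsCompact K)
    (h1 : ContinuousOn B K) (h : ∀ z ∈ K, ∀ v, v ≠ 0 → 0 < B z v v) :
    ∃ m > 0, ∀ z ∈ K, ∀ v, m * ‖v‖ ^ 2 ≤ B z v v := by
  obtain ⟨m, hm, h2⟩ := (hc.prod (isCompact_sphere (0 : Cn N) 1)).exists_forall_le'
    (f := fun p => B p.1 p.2 p.2) (a := 0)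
    (((h1.comp continuousOn_fst fun p hp => hp.1).clm_apply continuousOn_snd).clm_apply
      continuousOn_snd) fun p hp => h _ hp.1 _ (ne_zero_of_mem_unit_sphere ⟨_, hp.2⟩)
  refine ⟨m, hm, fun z hz v => ?_⟩
  rcases eq_or_ne v 0 with rfl | hv
  · simp
  have h3 := h2 (z, ‖v‖⁻¹ • v) ⟨hz, by simp [norm_smul, hv]⟩
  simp only [map_smul, smul_apply, smul_eq_mul] at h3
  have h4 := norm_pos_iff.2 hv
  rw [← le_div_iff₀ (by positivity)]
  convert h3 using 1; field_simp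

theorem unif_quad {F : Type} [NormedAddCommGroup F] {f : ℂ → F} {K : Set ℂ} (hK : IsCompact K)
    (hf : ContinuousOn f K) {η : ℝ} (hη : 0 < η) :
    ∃ C ≥ 0, ∀ z ∈ K, ∀ w ∈ K, ‖f z - f w‖ ≤ η + C * ‖z - w‖ ^ 2 := by
  obtain ⟨δ, hδ, h1⟩ := Metric.uniformContinuousOn_iff.1
    (hK.uniformContinuousOn_of_continuous hf) η hη
  obtain ⟨M, hM⟩ := hK.exists_bound_of_continuousOn hf
  refine ⟨2 * |M| / δ ^ 2, by positivity, fun z hz w hw => ?_⟩
  rcases lt_or_ge ‖z - w‖ δ with h | h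
  · have := h1 z hz w hw (by rwa [dist_eq_norm])
    rw [dist_eq_norm] at this
    exact this.le.trans (le_add_of_nonneg_right (by positivity))
  · have h2 : 2 * |M| / δ ^ 2 * δ ^ 2 ≤ 2 * |M| / δ ^ 2 * ‖z - w‖ ^ 2 := by gcongr
    rw [div_mul_cancel₀ _ (by positivity)] at h2
    linarith [norm_sub_le (f z) (f w), hM z hz, hM w hw, le_abs_self M]

theorem poisson_int {R ρ : ℝ} (hρ : 0 ≤ ρ) (hR : ρ < R) {ζ : ℂ} (hζ : ‖ζ‖ = R) :
    ∫ θ in 0..2 * π, (R ^ 2 - ρ ^ 2) / ‖ζ - cm ρ θ‖ ^ 2 = 2 * π := by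
  have h0 : ∀ w ∈ closedBall (0 : ℂ) |ρ|, ζ - w ≠ 0 := fun w hw e => by
    rw [mem_closedBall_zero_iff, ← sub_eq_zero.1 e, abs_of_nonneg hρ] at hw; linarith
  have h1 : DiffContOnCl ℂ (fun w => (ζ + w) / (ζ - w)) (ball 0 |ρ|) :=
    DifferentiableOn.diffContOnCl_ball (U := closedBall 0 |ρ|)
      (DifferentiableOn.div (by fun_prop) (by fun_prop) h0) Subset.rfl
  have h2 := h1.circleAverage
  have h3 : ∀ θ, cm ρ θ ∈ closedBall (0 : ℂ) |ρ| := fun θ => by simp [norm_cm]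
  have h4 : Continuous fun θ => (ζ + cm ρ θ) / (ζ - cm ρ θ) :=
    Continuous.div (by fun_prop) (by fun_prop) fun θ => h0 _ (h3 θ)
  have h5 := reCLM.intervalIntegral_comp_comm (h4.intervalIntegrable (μ := volume) 0 (2 * π))
  simp only [Real.circleAverage, circleMap, zero_add, add_zero, sub_zero,
    div_self (by simpa using h0 0 (by simp) : ζ ≠ 0)] at h2
  rw [inv_smul_eq_iff₀ (by positivity)] at h2
  simp only [cm, h2, reCLM_apply] at h5
  refine Eq.trans ?_ (h5.trans (by simp))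
  congr 1; ext θ
  have h6 := norm_cm ρ θ
  rw [← hζ, ← sq_abs ρ, ← h6, cm, Complex.sq_norm, Complex.sq_norm, Complex.sq_norm, div_re,
    ← add_div, normSq_apply ζ, normSq_apply (ρ * _)]
  simp only [add_re, sub_re, add_im, sub_im]
  ring

theorem poisson_ker {R ρ : ℝ} (hρ : 0 < ρ) (hR : ρ < R) {ζ : ℂ} (hζ : ‖ζ‖ = R) (θ : ℝ) :
    ζ / (ζ - cm ρ θ) - ζ / (ζ - cm (R ^ 2 / ρ) θ) =
      ((R ^ 2 - ρ ^ 2) / ‖ζ - cm ρ θ‖ ^ 2 : ℝ) := by
  have h1 : ζ * conj ζ = R ^ 2 := by rw [mul_conj', hζ]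
  have h2 : cm ρ θ * conj (cm ρ θ) = ρ ^ 2 := by rw [mul_conj', norm_cm, abs_of_pos hρ]
  have h3 : cm (R ^ 2 / ρ) θ * conj (cm ρ θ) = R ^ 2 := by
    have : (ρ : ℂ) ≠ 0 := by exact_mod_cast hρ.ne'
    have e : cm (R ^ 2 / ρ) θ = R ^ 2 / ρ ^ 2 * cm ρ θ := by simp [cm]; field_simp
    rw [e, mul_assoc, h2]; field_simp
  have h4 : ζ - cm ρ θ ≠ 0 := fun e => by
    rw [sub_eq_zero.1 e, norm_cm, abs_of_pos hρ] at hζ; linarith
  have h5 : ζ - cm (R ^ 2 / ρ) θ ≠ 0 := fun e => by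
    rw [sub_eq_zero.1 e, norm_cm, abs_of_pos (by have := hρ.trans hR; positivity),
      div_eq_iff hρ.ne'] at hζ
    nlinarith
  have h6 : conj ζ - conj (cm ρ θ) ≠ 0 := by rwa [← map_sub, map_ne_zero]
  rw [ofReal_div, ofReal_pow, ← mul_conj', map_sub]
  push_cast
  rw [← h2]
  generalize cm ρ θ = w, cm (R ^ 2 / ρ) θ = v at *
  generalize conj ζ = ζ', conj w = w' at *
  field_simp
  linear_combination (w - v) * h1 + (ζ - w) * h3

variable {H : ℂ → Bil N} {P : ℂ → Cn N →L[ℂ] Cn N} {R R₀ : ℝ} {T : ℂ → Cn N} {b : ℂ → ℂ}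

variable (H T b) in
/-- The functional that has to be controlled. -/
noncomputable def el (y : ℂ → Cn N) : ℂ := ∫ w, b w * hc (H w) (y w) (T w)

theorem continuousOn_hc {y : ℂ → Cn N} {s : Set ℂ} (hH : ContinuousOn H s) (hy : ContinuousOn y s)
    (hT : ContinuousOn T s) : ContinuousOn (fun w => hc (H w) (y w) (T w)) s :=
  (continuous_ofReal.comp_continuousOn ((hH.clm_apply hy).clm_apply hT)).add
    (continuousOn_const.mul (continuous_ofReal.comp_continuousOn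
      ((hH.clm_apply hy).clm_apply (hT.const_smul I))))

theorem Fam.cT (h : Fam R H P T) : ContinuousOn T (ball 0 R) :=
  fun z hz => (h.dT z hz).continuousAt.continuousWithinAt

theorem Fam.el_add (h : Fam R H P T) (hb : Continuous b) (hR : R₀ < R)
    (h0 : ∀ w, R₀ ≤ ‖w‖ → b w = 0) {y y' : ℂ → Cn N} (hy : DiffContOnCl ℂ y (ball 0 R))
    (hy' : DiffContOnCl ℂ y' (ball 0 R)) : el H T b (y + y') = el H T b y + el H T b y' := by
  have key : ∀ {y : ℂ → Cn N}, DiffContOnCl ℂ y (ball 0 R) →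
      Integrable fun w => b w * hc (H w) (y w) (T w) := fun hy =>
    (glue_cont hR (fun w hw => by simp [h0 w hw]) (hb.continuousOn.mul (continuousOn_hc
      (h.cH.mono ball_subset_closedBall) hy.differentiableOn.continuousOn h.cT))
      ).integrable_of_hasCompactSupport (glue_supp (R₀ := R₀) fun w hw => by simp [h0 w hw])
  rw [el, el, el, ← integral_add (key hy) (key hy')]
  congr 1; ext w
  simp [hc]; ring

theorem Fam.el_smul (h : Fam R H P T) (hR : R₀ < R) (h0 : ∀ w, R₀ ≤ ‖w‖ → b w = 0) (c : ℂ)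
    (y : ℂ → Cn N) : el H T b (c • y) = c * el H T b y := by
  rw [el, el, ← integral_const_mul]
  congr 1; ext w
  rcases le_total R₀ ‖w‖ with hw | hw
  · simp [h0 w hw]
  · rw [Pi.smul_apply, hc_smul (h.isH w (mem_closedBall_zero_iff.2 (hw.trans hR.le)))]; ring

theorem hb_sep {E : Type} [NormedAddCommGroup E] [NormedSpace ℝ E] {K : Set (E × ℝ)}
    (h1 : ∀ x ∈ K, ∀ y ∈ K, ∀ s t : ℝ, 0 ≤ s → 0 ≤ t → s + t = 1 →
      (s • x.1 + t • y.1, s * x.2 + t * y.2) ∈ K) (h2 : IsOpen K) {g : E} {r : ℝ} (h3 : (g, r) ∉ K) :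
    ∃ (Λ : E →L[ℝ] ℝ) (μ : ℝ), ∀ x ∈ K, Λ x.1 + μ * x.2 < Λ g + μ * r := by
  obtain ⟨f, hf⟩ := geometric_hahn_banach_open_point
    (fun x hx y hy s t hs ht hst => h1 x hx y hy s t hs ht hst) h2 h3
  have e : ∀ g r, f.comp (.inl ℝ _ _) g + f (0, 1) * r = f (g, r) := fun g r => by
    rw [mul_comm, ← smul_eq_mul, ← map_smul, ContinuousLinearMap.comp_apply, ← map_add]
    simp
  exact ⟨f.comp (.inl ℝ _ _), f (0, 1), fun x hx => by rw [e, e]; exact hf x hx⟩

variable (N) in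
/-- Boundary values. -/
abbrev Bd (R : ℝ) : Type := C(sphere (0 : ℂ) R, Cn N)

theorem mem_cb (ζ : sphere (0 : ℂ) R) : ζ.1 ∈ closedBall (0 : ℂ) R := sphere_subset_closedBall ζ.2

variable (H T b R) in
/-- The convex set to which the separation theorem is applied. -/
def KK (A₁ A₂ : ℝ) : Set (Bd N R × ℝ) := {x | ∃ y : ℂ → Cn N, DiffContOnCl ℂ y (ball 0 R) ∧
  y 0 = 0 ∧ (∀ ζ : sphere (0 : ℂ) R, H ζ (x.1 ζ + y ζ) (x.1 ζ + y ζ) < A₁ ^ 2) ∧
    x.2 + (el H T b y).re < A₂}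

theorem Fam.convex (h : Fam R H P T) (hb : Continuous b) (hR : R₀ < R)
    (h0 : ∀ w, R₀ ≤ ‖w‖ → b w = 0) (A₁ A₂ : ℝ) : ∀ x ∈ KK H R T b A₁ A₂, ∀ y ∈ KK H R T b A₁ A₂,
      ∀ s t : ℝ, 0 ≤ s → 0 ≤ t → s + t = 1 →
      (s • x.1 + t • y.1, s * x.2 + t * y.2) ∈ KK H R T b A₁ A₂ := by
  rintro x ⟨y, y1, y2, y3, y4⟩ x' ⟨y', z1, z2, z3, z4⟩ s t hs ht hst
  refine ⟨(s : ℂ) • y + (t : ℂ) • y', (y1.const_smul _).add (z1.const_smul _), by simp [y2, z2],
    fun ζ => ?_, ?_⟩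
  · have e : (s • x.1 + t • x'.1) ζ + ((s : ℂ) • y + (t : ℂ) • y') ζ =
        s • (x.1 ζ + y ζ) + t • (x'.1 ζ + y' ζ) := by simp; module
    have a1 := y3 ζ
    have a2 := z3 ζ
    have a3 := h.nn _ (mem_cb ζ) ((x.1 ζ + y ζ) - (x'.1 ζ + y' ζ))
    rw [e]
    generalize x.1 ζ + y ζ = u, x'.1 ζ + y' ζ = v at *
    simp only [map_add, map_sub, map_smul, add_apply, sub_apply, smul_apply, smul_eq_mul] at a3 ⊢
    have a4 := (convex_Iio (𝕜 := ℝ) (A₁ ^ 2)) a1 a2 hs ht hst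
    obtain rfl : t = 1 - s := by linarith
    simp only [smul_eq_mul, mem_Iio] at a4
    nlinarith [mul_nonneg (mul_nonneg hs ht) a3]
  · rw [h.el_add hb hR h0 (y1.const_smul _) (z1.const_smul _), h.el_smul hR h0, h.el_smul hR h0]
    have a4 := (convex_Iio (𝕜 := ℝ) A₂) y4 z4 hs ht hst
    simp only [smul_eq_mul, mem_Iio] at a4
    simp
    linarith

theorem Fam.isOpen (h : Fam R H P T) (A₁ A₂ : ℝ) : IsOpen (KK H R T b A₁ A₂) :=
  isOpen_iff_mem_nhds.2 fun x ⟨y, y1, y2, y3, y4⟩ => by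
    have c1 : Continuous fun ζ : sphere (0 : ℂ) R => H ζ :=
      h.cH.comp_continuous (by fun_prop) mem_cb
    have c2 : Continuous fun ζ : sphere (0 : ℂ) R => y ζ :=
      y1.continuousOn_ball.comp_continuous (by fun_prop) mem_cb
    have c3 : Continuous fun p : (Bd N R × ℝ) × sphere (0 : ℂ) R => p.1.1 p.2 + y p.2 :=
      (continuous_fst.fst.eval continuous_snd).add (c2.comp continuous_snd)
    have c4 := ((c1.comp continuous_snd).clm_apply c3).clm_apply c3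
    filter_upwards [isCompact_univ.eventually_forall_of_forall_eventually (x₀ := x)
      (P := fun x (ζ : sphere (0 : ℂ) R) => H ζ (x.1 ζ + y ζ) (x.1 ζ + y ζ) < A₁ ^ 2)
      fun ζ _ => c4.continuousAt.eventually (gt_mem_nhds (y3 ζ)),
      (continuous_snd.add continuous_const).continuousAt.eventually (gt_mem_nhds y4)] with x a1 a2
    exact ⟨y, y1, y2, fun ζ => a1 ζ trivial, a2⟩

theorem Fam.sep (h : Fam R H P T) (hb : Continuous b) (hR : R₀ < R)
    (h0 : ∀ w, R₀ ≤ ‖w‖ → b w = 0) {a : Cn N} {A₁ A₂ : ℝ} (h1 : 0 < A₁) (h2 : 0 < A₂)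
    (hn : ¬ ∃ y, DiffContOnCl ℂ y (ball 0 R) ∧ y 0 = a ∧
      (∀ ζ ∈ sphere 0 R, H ζ (y ζ) (y ζ) < A₁ ^ 2) ∧ (el H T b y).re < A₂) :
    ∃ (Λ : Bd N R →L[ℂ] ℂ) (l μ : ℝ), 0 ≤ l ∧ 0 ≤ μ ∧ 0 < l + μ * A₂ ∧
      (∀ y : ℂ → Cn N, DiffContOnCl ℂ y (ball 0 R) → y 0 = 0 → ∀ g : Bd N R,
        (∀ ζ, g ζ = y ζ) → Λ g + μ * el H T b y = 0) ∧
      (∀ g t, 0 < t → (∀ ζ, H ζ.1 (g ζ) (g ζ) ≤ t ^ 2) → A₁ * (Λ g).re ≤ l * t) ∧
      (Λ (.const _ a) + μ * el H T b fun _ => a).re = l + μ * A₂ := by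
  have e0 : el H T b 0 = 0 := by simp [el, hc]
  have k3 : (ContinuousMap.const _ a, (el H T b fun _ => a).re) ∉ KK H R T b A₁ A₂ :=
    fun ⟨y, y1, y2, y3, y4⟩ => hn ⟨(fun _ => a) + y, diffContOnCl_const.add y1, by simp [y2],
      fun ζ hζ => y3 ⟨ζ, hζ⟩, by rwa [h.el_add hb hR h0 diffContOnCl_const y1, add_re]⟩
  obtain ⟨Λ, μ, hf⟩ := hb_sep (h.convex hb hR h0 A₁ A₂) (h.isOpen A₁ A₂) k3
  generalize hγ : Λ (ContinuousMap.const _ a) + μ * (el H T b fun _ => a).re = γ at hf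
  have k4 : ∀ (g : Bd N R) r, (∀ ζ, H ζ.1 (g ζ) (g ζ) < A₁ ^ 2) → r < A₂ → Λ g + μ * r < γ :=
    fun g r a1 a2 => hf (g, r) ⟨0, diffContOnCl_const, rfl,
      by simpa using a1, by simpa [e0] using a2⟩
  have γ0 : 0 < γ := by simpa using k4 0 0 (by simp [h1]) h2
  have μ0 : 0 ≤ μ := by
    by_contra! hμ
    have := k4 0 (γ / μ) (by simp [h1]) ((div_neg_of_pos_of_neg γ0 hμ).trans h2)
    simp [mul_div_cancel₀ _ hμ.ne] at this
  have k5 : ∀ g : Bd N R, (∀ ζ, H ζ.1 (g ζ) (g ζ) < A₁ ^ 2) → Λ g ≤ γ - μ * A₂ :=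
    fun g a1 => le_of_forall_small one_pos (k := μ) fun ε hε => by
      linarith [k4 g (A₂ - ε) a1 (by linarith [hε.1])]
  have l0 : 0 ≤ γ - μ * A₂ := by simpa using k5 0 (by simp [h1])
  have k6 : ∀ y : ℂ → Cn N, DiffContOnCl ℂ y (ball 0 R) → y 0 = 0 → ∀ g : Bd N R,
      (∀ ζ, g ζ = y ζ) → Λ g + μ * (el H T b y).re = 0 := fun y y1 y2 g hg => by
    by_contra hne
    obtain ⟨t, e⟩ : ∃ t, t * (Λ g + μ * (el H T b y).re) = -γ := ⟨_, div_mul_cancel₀ _ hne⟩
    have := hf (-(t • g), -(t * (el H T b y).re)) ⟨(t : ℂ) • y, y1.const_smul _, by simp [y2],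
      fun ζ => by simp [hg, h1], by rw [h.el_smul hR h0]; simpa using h2⟩
    rw [map_neg, map_smul, smul_eq_mul] at this
    linarith
  refine ⟨StrongDual.extendRCLike (𝕜 := ℂ) Λ, γ - μ * A₂, μ, l0, μ0, by simpa using γ0,
    fun y y1 y2 g hg => ?_, fun g t ht hg => ?_, ?_⟩
  · have a1 := k6 y y1 y2 g hg
    have a2 := k6 (I • y) (y1.const_smul I) (by simp [y2]) (I • g) (by simp [hg])
    rw [h.el_smul hR h0] at a2
    apply Complex.ext <;> simp [StrongDual.extendRCLike_apply] at a2 ⊢ <;> linarith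
  · refine le_of_forall_small one_pos (k := γ - μ * A₂) fun ε hε => ?_
    have a0 : 0 < t + ε := by linarith [hε.1]
    have := k5 ((A₁ / (t + ε)) • g) fun ζ => by
      simp only [ContinuousMap.smul_apply, map_smul, smul_apply, smul_eq_mul]
      rw [← mul_assoc, div_mul_div_comm, div_mul_eq_mul_div, div_lt_iff₀ (by positivity), ← sq]
      exact mul_lt_mul_of_pos_left ((hg ζ).trans_lt (by nlinarith [hε.1])) (by positivity)
    rw [map_smul, smul_eq_mul, div_mul_eq_mul_div, div_le_iff₀ a0] at this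
    simp [StrongDual.extendRCLike_apply]
    linarith
  · simp [StrongDual.extendRCLike_apply, ← hγ]

variable (R) in
/-- The coordinate on the circle. -/
def zz : C(sphere (0 : ℂ) R, ℂ) := ⟨Subtype.val, continuous_subtype_val⟩

variable (R) in
/-- The Cauchy kernel on the circle. -/
noncomputable def kk (w : ℂ) : C(sphere (0 : ℂ) R, ℂ) :=
  zz R * Ring.inverse (zz R - w • 1)

theorem kk_unit {w : ℂ} (hw : ‖w‖ ≠ R) : IsUnit (zz R - w • 1) :=
  (ContinuousMap.isUnit_iff_forall_ne_zero _).2 fun ζ e => hw (by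
    have : ζ.1 - w = 0 := by simpa [zz] using e
    rw [← sub_eq_zero.1 this]; simp)

theorem kk_apply {w : ℂ} (hw : ‖w‖ ≠ R) (ζ : sphere (0 : ℂ) R) : kk R w ζ = ζ / (ζ - w) := by
  have := DFunLike.congr_fun (Ring.mul_inverse_cancel _ (kk_unit hw)) ζ
  simp only [zz, ContinuousMap.mul_apply, ContinuousMap.sub_apply, ContinuousMap.coe_mk,
    ContinuousMap.smul_apply, ContinuousMap.one_apply, smul_eq_mul, mul_one] at this
  simp only [kk, zz, ContinuousMap.mul_apply, ContinuousMap.coe_mk]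
  rw [eq_inv_of_mul_eq_one_right this, div_eq_mul_inv]

theorem kk_an {w : ℂ} (hw : ‖w‖ ≠ R) : AnalyticAt ℂ (kk R) w :=
  analyticAt_const.mul (AnalyticAt.comp (f := fun w : ℂ => zz R - w • 1)
    (analyticAt_inverse (kk_unit hw).unit) (by fun_prop))

/-- Scalar functions times a vector. -/
noncomputable def sm (c : Cn N) : C(sphere (0 : ℂ) R, ℂ) →L[ℂ] Bd N R :=
  (ContinuousLinearMap.toSpanSingleton ℂ c).compLeftContinuous ℂ _

theorem sm_apply (c : Cn N) (k : C(sphere (0 : ℂ) R, ℂ)) (ζ : sphere (0 : ℂ) R) :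
    sm c k ζ = k ζ • c := rfl

theorem dot_sm (Λ : Bd N R →L[ℂ] ℂ) (c : Cn N) (k : C(sphere (0 : ℂ) R, ℂ)) :
    c ⬝ᵥ (fun i => Λ (sm (Pi.single i 1) k)) = Λ (sm c k) := by
  simp only [dotProduct, ← smul_eq_mul, ← map_smul, ← map_sum]
  congr 1; ext ζ j
  simp [sm_apply, Finset.sum_apply, Pi.single_apply, mul_comm]

variable (H T b) in
/-- The densities. -/
noncomputable def ps (i : Fin N) (w : ℂ) : ℂ := w * b w * hc (H w) (Pi.single i 1) (T w)

variable (H T b) in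
/-- The dual section. -/
noncomputable def al (Λ : Bd N R →L[ℂ] ℂ) (μ : ℝ) (w : ℂ) : Cn N :=
  (fun i => Λ (sm (Pi.single i 1) (kk R w))) + μ • fun i => CI (ps H T b i) w

theorem Fam.ps_smooth (h : Fam R H P T) (hb : ContDiff ℝ 2 b) (hR : R₀ < R)
    (h0 : ∀ w, R₀ ≤ ‖w‖ → b w = 0) (i : Fin N) :
    ContDiff ℝ 2 (CI (ps H T b i)) ∧ ∀ z, dbar (CI (ps H T b i)) z = -π * ps H T b i z :=
  CI_smooth (glue_diff (k := 2) hR (fun w hw => by simp [ps, h0 w hw]) fun z hz =>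
    (contDiffAt_id.mul hb.contDiffAt).mul
      (contDiffAt_hc (h.dH z hz) contDiffAt_const (an_two (h.dT z hz))))
    (glue_supp (R₀ := R₀) fun w hw => by simp [ps, h0 w hw])

theorem Fam.al_smooth (h : Fam R H P T) (hb : ContDiff ℝ 2 b) (hR : R₀ < R)
    (h0 : ∀ w, R₀ ≤ ‖w‖ → b w = 0) (Λ : Bd N R →L[ℂ] ℂ) (μ : ℝ) {z : ℂ} (hz : z ∈ ball 0 R) :
    ContDiffAt ℝ 2 (al H T b Λ μ) z ∧ ∀ i, dbar (fun w => al H T b Λ μ w i) z =
      -(π * μ : ℝ) * (z * b z * hc (H z) (Pi.single i 1) (T z)) := by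
  have h1 : ∀ i, AnalyticAt ℂ (fun w => Λ (sm (Pi.single i 1) (kk R w))) z := fun i =>
    ((Λ.comp (sm _)).analyticAt _).comp (kk_an (mem_ball_zero_iff.1 hz).ne)
  have h2 := h.ps_smooth hb hR h0
  refine ⟨(contDiffAt_pi.2 fun i => an_two (h1 i)).add
    ((contDiffAt_pi.2 fun i => (h2 i).1.contDiffAt).const_smul μ), fun i => ?_⟩
  have h3 := ((((h1 i).differentiableAt.restrictScalars ℝ).hasFDerivAt).add
    (((h2 i).1.differentiable two_ne_zero z).hasFDerivAt.const_smul μ)).fderiv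
  have h4 := dbar_holo (h1 i).differentiableAt
  have h5 := (h2 i).2 z
  rw [dbar] at h4 h5 ⊢
  erw [h3]
  simp only [add_apply, smul_apply, real_smul, ps] at h5 ⊢
  push_cast
  linear_combination h4 + μ * h5

theorem al_out {Λ : Bd N R →L[ℂ] ℂ} {μ : ℝ} (h : Fam R H P T) (hR : R₀ < R)
    (h0 : ∀ w, R₀ ≤ ‖w‖ → b w = 0)
    (hΛ : ∀ y : ℂ → Cn N, DiffContOnCl ℂ y (ball 0 R) → y 0 = 0 → ∀ g : Bd N R,
      (∀ ζ, g ζ = y ζ) → Λ g + μ * el H T b y = 0) {w : ℂ} (hw : R < ‖w‖) :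
    al H T b Λ μ w = 0 := by
  ext i
  have := hΛ (fun ζ => (ζ / (ζ - w)) • Pi.single i 1) (DifferentiableOn.diffContOnCl_ball
    (U := closedBall 0 R) (DifferentiableOn.smul_const (DifferentiableOn.div (by fun_prop)
      (by fun_prop) fun ζ hζ e => by
        rw [mem_closedBall_zero_iff, sub_eq_zero.1 e] at hζ; linarith) _) Subset.rfl) (by simp)
    (sm (Pi.single i 1) (kk R w)) fun ζ => by rw [sm_apply, kk_apply hw.ne']
  refine Eq.trans ?_ this
  simp only [al, Pi.add_apply, Pi.smul_apply, real_smul, el, CI, ps]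
  congr 3; ext ζ
  rcases le_total R₀ ‖ζ‖ with hζ | hζ
  · simp [h0 ζ hζ]
  · rw [hc_smul (h.isH ζ (mem_closedBall_zero_iff.2 (hζ.trans hR.le)))]; ring

theorem Fam.al_zero (h : Fam R H P T) (hb : Continuous b) (hR : R₀ < R) (hR' : 0 < R)
    (h0 : ∀ w, R₀ ≤ ‖w‖ → b w = 0) (Λ : Bd N R →L[ℂ] ℂ) (μ : ℝ) (a : Cn N) :
    a ⬝ᵥ al H T b Λ μ 0 = Λ (.const _ a) + μ * el H T b fun _ => a := by
  have e1 : sm a (kk R 0) = .const _ a := by
    ext ζ j
    have : ζ.1 ≠ 0 := ne_of_mem_sphere ζ.2 hR'.ne'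
    simp [sm_apply, kk_apply (show ‖(0 : ℂ)‖ ≠ R by simpa using hR'.ne), this]
  have e2 : ∀ i, CI (ps H T b i) 0 = el H T b fun _ => Pi.single i 1 :=
    fun i => integral_congr_ae (((Set.countable_singleton (0 : ℂ)).ae_notMem _).mono fun w hw => by
      have : w ≠ 0 := hw
      simp only [ps, sub_zero]; field_simp)
  have e3 : ∀ s : Finset (Fin N), ∑ i ∈ s, a i * el H T b (fun _ => Pi.single i 1) =
      el H T b fun _ => ∑ i ∈ s, a i • Pi.single i 1 := fun s => by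
    induction s using Finset.induction_on with
    | empty => simp [el, hc]
    | insert i s hi ih =>
      simp only [Finset.sum_insert hi]
      rw [ih, ← h.el_smul hR h0]
      exact (h.el_add hb hR h0 diffContOnCl_const diffContOnCl_const).symm
  have e4 : ∑ i, a i • (Pi.single i 1 : Cn N) = a := by
    ext j; simp [Finset.sum_apply, Pi.single_apply]
  rw [al, dotProduct_add, dot_sm, e1, dotProduct_smul, real_smul, dotProduct]
  simp only [e2, e3, e4]

theorem jensen {B : Bil N} (hs : ∀ u v, B u v = B v u) (h0 : ∀ u, 0 ≤ B u u) {p : ℝ → ℝ}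
    {d : ℝ → Cn N} (hp : Continuous p) (hd : Continuous d) (p0 : ∀ θ, 0 ≤ p θ)
    (p1 : ∫ θ in 0..2 * π, p θ = 2 * π) {c e : ℝ} (h : ∀ θ, p θ * B (d θ) (d θ) ≤ c * p θ + e) :
    B (∫ θ in 0..2 * π, p θ • d θ) (∫ θ in 0..2 * π, p θ • d θ) ≤ (2 * π) ^ 2 * (c + e) := by
  set G := ∫ θ in 0..2 * π, p θ • d θ with hG
  have h1 := (B G).intervalIntegral_comp_comm ((hp.smul hd).intervalIntegrable (μ := volume) 0 (2 * π))
  have h2 := intervalIntegral.integral_mono_on (μ := volume) (a := 0) (b := 2 * π)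
    (f := fun θ => 4 * π * B G (p θ • d θ))
    (g := fun θ => (B G G + (2 * π) ^ 2 * c) * p θ + (2 * π) ^ 2 * e) (by positivity)
    (Continuous.intervalIntegrable (by fun_prop) _ _) (Continuous.intervalIntegrable (by fun_prop) _ _)
    fun θ _ => by
      have a1 := mul_nonneg (p0 θ) (h0 (G - (2 * π) • d θ))
      have a2 := mul_le_mul_of_nonneg_left (h θ) (sq_nonneg (2 * π))
      simp only [map_sub, map_smul, sub_apply, smul_apply, smul_eq_mul, hs (d θ) G] at a1 ⊢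
      linarith
  rw [intervalIntegral.integral_add (Continuous.intervalIntegrable (by fun_prop) _ _)
    intervalIntegrable_const, intervalIntegral.integral_const_mul,
    intervalIntegral.integral_const_mul, p1, intervalIntegral.integral_const] at h2
  erw [h1] at h2
  change 4 * π * B G G ≤ _ at h2
  refine le_of_mul_le_mul_left ?_ (show 0 < 2 * π by positivity)
  simp only [sub_zero, smul_eq_mul] at h2
  linarith

theorem Fam.ht_cont (h : Fam R H P T) : ContinuousOn (ht H P) (closedBall 0 R) :=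
  continuousOn_clm_apply.2 fun _ => continuousOn_clm_apply.2 fun _ =>
    ((h.cH.clm_apply continuousOn_const).clm_apply continuousOn_const).add
      ((eu.continuous.comp_continuousOn (continuousOn_const.sub (h.cP.clm_apply continuousOn_const))
        ).clm_apply (continuousOn_const.sub (h.cP.clm_apply continuousOn_const)))

theorem re_dot_le (d x : Cn N) : (d ⬝ᵥ x).re ≤ N * (‖d‖ * ‖x‖) := by
  refine (re_le_norm _).trans ((norm_sum_le _ _).trans ?_)
  simpa using Finset.sum_le_card_nsmul Finset.univ (fun i => ‖d i * x i‖) (‖d‖ * ‖x‖) fun i _ => by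
    rw [norm_mul]; gcongr <;> exact norm_le_pi_norm _ _

/-- The boundary estimate. -/
theorem Fam.boundary (h : Fam R H P T) (hb : ContDiff ℝ 2 b) (hR : R₀ < R) (hR2 : 2 < R)
    (h0 : ∀ w, R₀ ≤ ‖w‖ → b w = 0) {Λ : Bd N R →L[ℂ] ℂ} {l μ A ε : ℝ} (hμ : 0 ≤ μ) (hA : 0 < A)
    (hΛ : ∀ y : ℂ → Cn N, DiffContOnCl ℂ y (ball 0 R) → y 0 = 0 → ∀ g : Bd N R,
      (∀ ζ, g ζ = y ζ) → Λ g + μ * el H T b y = 0)
    (hl : ∀ g t, 0 < t → (∀ ζ, H ζ.1 (g ζ) (g ζ) ≤ t ^ 2) → A * (Λ g).re ≤ l * t) (hε : 0 < ε) :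
    ∃ ρ ∈ Ico 2 R, mean (uu H P (al H T b Λ μ) ε) ρ ≤
      2 * π * (l / A * (R ^ 2 + 2) + (1 + μ) * ε) := by
  obtain ⟨m, m0, hm⟩ := bil_lower (isCompact_closedBall 0 R) h.ht_cont fun z hz => h.ht_pos hz
  set D := (1 + R ^ 2) ^ 2 / m with hD
  have D0 : 0 < D := by positivity
  obtain ⟨C, C0, hC⟩ := unif_quad (isCompact_closedBall 0 R) h.cH (η := 1 / (2 * D)) (by positivity)
  obtain ⟨δ, δ0, hδ⟩ := Metric.uniformContinuousOn_iff.1
    ((isCompact_closedBall (0 : ℂ) (2 * R)).uniformContinuousOn_of_continuous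
      (f := fun w i => CI (ps H T b i) w)
      (continuous_pi fun i => (h.ps_smooth hb hR h0 i).1.continuous).continuousOn)
    (ε / ((N + 1) * √D)) (by positivity)
  have R0 : 0 < R := by linarith
  obtain ⟨ρ, ⟨⟨ρ1, ρ2⟩, ρ3, ρ4⟩, ρ5⟩ := (((((lt_mem_nhds hR2).and
    (lt_mem_nhds (half_lt_self R0))).and (((show ContinuousAt (fun ρ => R ^ 2 / ρ - ρ) R by
      fun_prop (disch := positivity)).eventually (gt_mem_nhds (show R ^ 2 / R - R < δ by
        rwa [sq, mul_div_cancel_right₀ _ R0.ne', sub_self]))).and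
      ((show ContinuousAt (fun ρ => C * D * (R ^ 2 - ρ ^ 2)) R by fun_prop).eventually
        (gt_mem_nhds (show C * D * (R ^ 2 - R ^ 2) < 1 / 2 by simp))))).filter_mono
    (nhdsWithin_le_nhds (s := Iio R))).and self_mem_nhdsWithin).exists
  replace ρ5 : ρ < R := ρ5
  have ρ0 : 0 < ρ := by linarith
  have ρ6 : ρ ∈ Ioo (-R) R := ⟨by linarith, ρ5⟩
  have ρ7 : R < R ^ 2 / ρ := by rw [lt_div_iff₀ ρ0]; nlinarith
  refine ⟨ρ, ⟨ρ1.le, ρ5⟩, ?_⟩
  set α := al H T b Λ μ with hα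
  have w1 := cm_mem ρ6
  have w2 := fun θ => ball_subset_closedBall (w1 θ)
  have w3 : ∀ θ, ‖cm ρ θ‖ = ρ := fun θ => by rw [norm_cm, abs_of_pos ρ0]
  have s1 := fun z hz => (h.al_smooth hb hR h0 Λ μ (z := z) hz).1
  have u1 : ∀ θ, 0 < uu H P α ε (cm ρ θ) := fun θ => Real.sqrt_pos.2 (by
    have := h.fn_nonneg (α := α) (w2 θ); positivity)
  have u2 : ∀ θ, uu H P α ε (cm ρ θ) ^ 2 =
      (1 + ρ ^ 2) ^ 2 * fn P α (cm ρ θ) (dv H P α (cm ρ θ)) + ε ^ 2 := fun θ => by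
    have := h.fn_nonneg (α := α) (w2 θ)
    rw [uu, Real.sq_sqrt (by positivity), w3]
  have u3 : Continuous fun θ => uu H P α ε (cm ρ θ) := continuous_on_circle
    (fun z hz => (h.uu_smooth hz (s1 z hz) hε).continuousAt.continuousWithinAt) ρ6
  set d : ℝ → Cn N := fun θ => ((1 + ρ ^ 2) ^ 2 / uu H P α ε (cm ρ θ)) • dv H P α (cm ρ θ) with hd
  have d1 : Continuous d := (continuous_const.div u3 fun θ => (u1 θ).ne').smul (continuous_on_circle
    (fun z hz => (h.dv_smooth hz (s1 z hz)).2.continuousAt.continuousWithinAt) ρ6)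
  have d2 : ∀ θ, P (cm ρ θ) (d θ) = d θ := fun θ => by
    rw [hd, (P _).map_smul_of_tower, h.P_dv (w2 θ)]
  have d3 : ∀ θ, H (cm ρ θ) (d θ) (d θ) ≤ (1 + R ^ 2) ^ 2 := fun θ => by
    simp only [hd, map_smul, smul_apply, smul_eq_mul, h.H_dv (w2 θ)]
    rw [← mul_assoc, div_mul_div_comm, div_mul_eq_mul_div, div_le_iff₀ (mul_pos (u1 θ) (u1 θ)),
      ← sq (uu _ _ _ _ _), u2, mul_assoc]
    have := h.fn_nonneg (α := α) (w2 θ)
    gcongr
    exact le_add_of_nonneg_right (by positivity)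
  have d4 : ∀ θ, ‖d θ‖ ^ 2 ≤ D := fun θ => by
    have := hm _ (w2 θ) (d θ)
    rw [ht_apply, d2, sub_self, map_zero, add_zero] at this
    rw [hD, le_div_iff₀ m0]
    linarith [d3 θ]
  have p0 : ∀ (ζ : sphere (0 : ℂ) R) θ, 0 < ‖ζ.1 - cm ρ θ‖ := fun ζ θ =>
    norm_pos_iff.2 fun e => by
      have := w3 θ
      rw [← sub_eq_zero.1 e, norm_eq_of_mem_sphere] at this; linarith
  have p1 : Continuous fun q : ℝ × sphere (0 : ℂ) R => (R ^ 2 - ρ ^ 2) / ‖q.2.1 - cm ρ q.1‖ ^ 2 :=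
    continuous_const.div (by fun_prop) fun q => (pow_pos (p0 _ _) 2).ne'
  let G : ℝ → Bd N R := fun θ => ⟨fun ζ => ((R ^ 2 - ρ ^ 2) / ‖ζ.1 - cm ρ θ‖ ^ 2) • d θ,
    (p1.comp (Continuous.prodMk_right θ)).smul continuous_const⟩
  have G1 : Continuous G := ContinuousMap.continuous_of_continuous_uncurry G
    (p1.smul (d1.comp continuous_fst))
  have G2 : ∀ θ, uu H P α ε (cm ρ θ) ≤ (Λ (G θ)).re + (1 + μ) * ε := fun θ => by
    have a1 : uu H P α ε (cm ρ θ) ≤ fn P α (cm ρ θ) (d θ) + ε := by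
      refine le_of_mul_le_mul_left ?_ (u1 θ)
      have : ε ≤ uu H P α ε (cm ρ θ) := Real.le_sqrt_of_sq_le (le_add_of_nonneg_left (by
        have := h.fn_nonneg (α := α) (w2 θ); positivity))
      rw [← sq, u2, hd, map_smul, smul_eq_mul, mul_add, ← mul_assoc, mul_div_cancel₀ _ (u1 θ).ne']
      nlinarith
    have a2 : R < ‖cm (R ^ 2 / ρ) θ‖ := by rwa [norm_cm, abs_of_pos (R0.trans ρ7)]
    have a3 : G θ = sm (d θ) (kk R (cm ρ θ)) - sm (d θ) (kk R (cm (R ^ 2 / ρ) θ)) := by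
      ext1 ζ
      rw [ContinuousMap.sub_apply, sm_apply, sm_apply, kk_apply a2.ne',
        kk_apply (by rw [w3]; exact ρ5.ne), ← sub_smul,
        poisson_ker ρ0 ρ5 (norm_eq_of_mem_sphere ζ), coe_smul]
      rfl
    have a4 := hδ (cm ρ θ) (closedBall_subset_closedBall (by linarith) (w2 θ)) (cm (R ^ 2 / ρ) θ)
      (by
        rw [mem_closedBall_zero_iff, norm_cm, abs_of_pos (R0.trans ρ7), div_le_iff₀ ρ0]
        nlinarith)
      (by
        rw [dist_comm, dist_eq_norm, show cm (R ^ 2 / ρ) θ - cm ρ θ = cm (R ^ 2 / ρ - ρ) θ by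
          simp [cm, sub_mul], norm_cm, abs_of_pos (by linarith)]
        exact ρ3)
    rw [dist_eq_norm, lt_div_iff₀ (by positivity)] at a4
    have a5 := re_dot_le (d θ) ((fun i => CI (ps H T b i) (cm ρ θ)) -
      fun i => CI (ps H T b i) (cm (R ^ 2 / ρ) θ))
    have a6 : ‖d θ‖ ≤ √D := Real.le_sqrt_of_sq_le (d4 θ)
    have a7 : fn P α (cm ρ θ) (d θ) = (Λ (G θ)).re + μ * (d θ ⬝ᵥ ((fun i => CI (ps H T b i) (cm ρ θ)) -
        fun i => CI (ps H T b i) (cm (R ^ 2 / ρ) θ))).re := by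
      rw [fn_apply, d2, ← sub_zero (α _), ← al_out h hR h0 hΛ a2, hα, al, al, a3, map_sub,
        ← dot_sm, ← dot_sm]
      simp only [dotProduct_sub, dotProduct_add, dotProduct_smul, sub_re, add_re, smul_re,
        smul_eq_mul]
      ring
    have a8 := norm_nonneg ((fun i => CI (ps H T b i) (cm ρ θ)) -
      fun i => CI (ps H T b i) (cm (R ^ 2 / ρ) θ))
    have a9 := mul_le_mul_of_nonneg_left (mul_le_mul_of_nonneg_right a6 a8) (Nat.cast_nonneg (α := ℝ) N)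
    have a10 := mul_le_mul_of_nonneg_left (a5.trans (a9.trans (show _ ≤ ε by
      nlinarith [mul_nonneg a8 (Real.sqrt_nonneg D)]))) hμ
    linarith
  have G3 := hl (∫ θ in 0..2 * π, G θ) (2 * π * (R ^ 2 + 2)) (by positivity) fun ζ => by
    rw [← ContinuousMap.evalCLM_apply ℝ, ← (ContinuousMap.evalCLM ℝ ζ).intervalIntegral_comp_comm
      (G1.intervalIntegrable _ _)]
    refine (jensen (h.isH _ (mem_cb ζ)).symm (h.nn _ (mem_cb ζ))
      (p1.comp (Continuous.prodMk_left ζ)) d1 (fun θ => div_nonneg (by nlinarith) (sq_nonneg _))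
      (poisson_int ρ0.le ρ5 (norm_eq_of_mem_sphere ζ)) (c := (1 + R ^ 2) ^ 2 + 1 / 2) (e := 1 / 2)
      fun θ => ?_).trans (by rw [mul_pow (2 * π)]; gcongr; nlinarith)
    have a1 := (le_abs_self _).trans ((H ζ - H (cm ρ θ)).le_opNorm₂ (d θ) (d θ))
    rw [mul_assoc, ← sq] at a1
    have a2 := mul_le_mul (hC _ (mem_cb ζ) _ (w2 θ)) (d4 θ) (sq_nonneg _) (by positivity)
    rw [add_mul, show 1 / (2 * D) * D = 1 / 2 by field_simp] at a2
    have a3 : 0 ≤ (R ^ 2 - ρ ^ 2) / ‖ζ.1 - cm ρ θ‖ ^ 2 := div_nonneg (by nlinarith) (sq_nonneg _)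
    have a4 := mul_le_mul_of_nonneg_left (show H ζ (d θ) (d θ) ≤
      (1 + R ^ 2) ^ 2 + 1 / 2 + C * ‖ζ.1 - cm ρ θ‖ ^ 2 * D by
        simp only [sub_apply] at a1; linarith [d3 θ]) a3
    have a5 : (R ^ 2 - ρ ^ 2) / ‖ζ.1 - cm ρ θ‖ ^ 2 * (C * ‖ζ.1 - cm ρ θ‖ ^ 2 * D) =
      C * D * (R ^ 2 - ρ ^ 2) := by have := p0 ζ θ; field_simp
    simp only [Function.comp_apply]
    linarith
  have G4 := (reCLM.comp (Λ.restrictScalars ℝ)).intervalIntegral_comp_comm
    (G1.intervalIntegrable (μ := volume) 0 (2 * π))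
  have G5 := intervalIntegral.integral_mono_on (μ := volume) (a := 0) (b := 2 * π) (by positivity)
    (u3.intervalIntegrable _ _) (Continuous.intervalIntegrable (by fun_prop) _ _) fun θ _ => G2 θ
  rw [intervalIntegral.integral_add (Continuous.intervalIntegrable (by fun_prop) _ _)
    intervalIntegrable_const, intervalIntegral.integral_const] at G5
  erw [G4] at G5
  rw [← le_div_iff₀' hA] at G3
  refine G5.trans ((add_le_add_left G3 _).trans_eq ?_)
  simp only [sub_zero, smul_eq_mul]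
  ring

variable (H T b) in
/-- The source term in the Kato inequality. -/
noncomputable def src (z : ℂ) : ℝ := ‖dz (fun w => w * b w) z +
  2 * conj z / (1 + ‖z‖ ^ 2 : ℝ) * (z * b z)‖ * (1 + ‖z‖ ^ 2) * √(H z (T z) (T z))

theorem Fam.src_cont (h : Fam R H P T) (hb : ContDiff ℝ 2 b) :
    ContinuousOn (src H T b) (ball 0 R) := by
  have h1 := (contDiff_id.mul hb).continuous_fderiv two_ne_zero
  have h2 := hb.continuous
  have h3 : Continuous (dz fun w => w * b w) :=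
    ((h1.clm_apply continuous_const).sub
      (continuous_const.mul (h1.clm_apply continuous_const))).div_const 2
  have h4 : Continuous fun z : ℂ => 2 * conj z / (1 + ‖z‖ ^ 2 : ℝ) :=
    Continuous.div (by fun_prop) (by fun_prop) fun z => ofReal_ne_zero.2 (by positivity)
  exact (Continuous.continuousOn (by fun_prop)).mul
    (((h.cH.mono ball_subset_closedBall).clm_apply h.cT).clm_apply h.cT).sqrt

/-- The dual estimate. -/
theorem Fam.dual (h : Fam R H P T) (hb : ContDiff ℝ 2 b) (hR : R₀ < R) (hR2 : 2 < R)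
    (h0 : ∀ w, R₀ ≤ ‖w‖ → b w = 0) {a : Cn N} (ha : P 0 a = a) {ν J A₁ A₂ : ℝ} (hν : 0 < ν)
    (haν : H 0 a a ≤ ν ^ 2) (hJ : ∀ ρ ∈ Ico 2 R, ∫ r in 0..ρ, gr r * mean (src H T b) r ≤ J)
    (h1 : ν * (R * (1 + R ^ 2) * (R ^ 2 + 2)) < A₁) (h2 : 2 * ν * J < A₂) (h3 : 0 < A₂) :
    ∃ y, DiffContOnCl ℂ y (ball 0 R) ∧ y 0 = a ∧
      (∀ ζ ∈ sphere 0 R, H ζ (y ζ) (y ζ) < A₁ ^ 2) ∧ (el H T b y).re < A₂ := by
  by_contra hn
  have R0 : 0 < R := by linarith
  have A0 : 0 < A₁ := lt_trans (by positivity) h1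
  obtain ⟨Λ, l, μ, l0, μ0, k1, k2, k3, k4⟩ := h.sep hb.continuous hR h0 A0 h3 hn
  have z0 : (0 : ℂ) ∈ closedBall 0 R := mem_closedBall_self R0.le
  have s1 := fun z hz => h.al_smooth hb hR h0 Λ μ (z := z) hz
  have key : l + μ * A₂ ≤ ν * (2 * μ * J + R * (1 + R ^ 2) * (l / A₁ * (R ^ 2 + 2))) := by
    refine le_of_forall_small one_pos
      (k := ν * (4 * (R * (R * (1 + R ^ 2))) + R * (1 + R ^ 2) * (1 + μ))) fun ε hε => ?_
    have hε := hε.1
    obtain ⟨ρ, hρ, b1⟩ := h.boundary hb hR hR2 h0 μ0 A0 k2 k3 hε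
    have c1 : ContinuousOn (fun z : ℂ => 4 * ε / (1 + ‖z‖ ^ 2) ^ 2) (ball 0 R) :=
      (continuous_const.div (by fun_prop) fun z => by positivity).continuousOn
    have c2 := (h.src_cont hb).const_mul (4 * (π * μ))
    have s0 : ∀ z, 0 ≤ src H T b z := fun z => by unfold src; positivity
    have b2 := radial (fun z hz => h.uu_smooth hz (s1 z hz).1 hε) (c1.add c2)
      (fun z _ => Real.sqrt_nonneg _) (fun z _ => by have := s0 z; simp only [Pi.add_apply]; positivity)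
      (fun z hz => h.kato hz (s1 z hz).1 (m := fun w => w * b w)
        ((contDiff_id.mul hb).differentiable two_ne_zero z) (by positivity) hε
        ((isOpen_ball.eventually_mem hz).mono fun w hw => (s1 w hw).2)) hρ.1 hρ.2
    have hs : Icc 0 ρ ⊆ Ioo (-R) R := fun r hr => ⟨by linarith [hr.1], hr.2.trans_lt hρ.2⟩
    have ρ0 : 0 ≤ ρ := by linarith [hρ.1]
    have c3 : ContinuousOn (fun r => gr r * mean (src H T b) r) (Icc 0 ρ) :=
      continuous_gr.continuousOn.mul ((continuousOn_mean (h.src_cont hb)).mono hs)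
    have b3 := intervalIntegral.integral_mono_on (μ := volume) ρ0
      ((continuous_gr.continuousOn.mul ((continuousOn_mean (c1.add c2)).mono hs)
        ).intervalIntegrable_of_Icc ρ0)
      (((continuousOn_const (c := 2 * π * (4 * ε) * (R * (1 + R ^ 2)))).add
        (c3.const_mul (4 * (π * μ)))).intervalIntegrable_of_Icc ρ0) fun r hr => by
        have a1 := mean_mono (c1.add c2) ((continuousOn_const (c := 4 * ε)).add c2) (hs hr)
          fun θ => add_le_add_left (div_le_self (by positivity)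
            (one_le_pow₀ (le_add_of_nonneg_right (sq_nonneg _)))) _
        simp only [mean, Pi.add_apply] at a1
        rw [intervalIntegral.integral_add intervalIntegrable_const
          ((continuous_on_circle c2 (hs hr)).intervalIntegrable _ _),
          intervalIntegral.integral_const, intervalIntegral.integral_const_mul] at a1
        have a2 := hr.1.trans (le_gr hr.1)
        have a3 : gr r ≤ R * (1 + R ^ 2) := by
          rcases le_total 1 r with h1 | h1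
          · exact gr_le h1 (hr.2.trans hρ.2.le)
          · have := Real.log_le_sub_one_of_pos (show 0 < 1 + r ^ 2 by positivity)
            have := Real.negMulLog_le_one_sub_self hr.1
            rw [Real.negMulLog] at this
            unfold gr
            nlinarith [hr.1, mul_nonneg hr.1 (sq_nonneg r), sq_nonneg R]
        have a4 := mul_le_mul_of_nonneg_left a1 a2
        have a5 := mul_le_mul_of_nonneg_left a3 (show 0 ≤ 2 * π * (4 * ε) by positivity)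
        simp only [mean, Pi.add_apply, Pi.mul_apply, sub_zero, smul_eq_mul] at a4 ⊢
        linarith
    simp only [Pi.add_apply, Pi.mul_apply] at b3 b2
    rw [intervalIntegral.integral_add intervalIntegrable_const
      ((c3.const_mul _).intervalIntegrable_of_Icc ρ0), intervalIntegral.integral_const,
      intervalIntegral.integral_const_mul] at b3
    have b4 := mul_le_mul_of_nonneg_left (hJ ρ hρ) (show 0 ≤ 4 * (π * μ) by positivity)
    have b5 := mul_le_mul_of_nonneg_left b1 (show 0 ≤ R * (1 + R ^ 2) by positivity)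
    have b6 := mul_le_mul_of_nonneg_right hρ.2.le
      (show 0 ≤ 2 * π * (4 * ε) * (R * (1 + R ^ 2)) by positivity)
    have b7 : uu H P (al H T b Λ μ) ε 0 ≤ 2 * μ * J + R * (1 + R ^ 2) * (l / A₁ * (R ^ 2 + 2)) +
        (4 * (R * (R * (1 + R ^ 2))) + R * (1 + R ^ 2) * (1 + μ)) * ε := by
      refine le_of_mul_le_mul_left ?_ (show 0 < 2 * π by positivity)
      simp only [sub_zero, smul_eq_mul] at b3
      linarith
    have b8 := h.fn_le (α := al H T b Λ μ) z0 a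
    rw [fn_apply, ha, h.al_zero hb.continuous hR R0 h0, k4] at b8
    have b9 := b8.trans (mul_le_mul (show _ ≤ uu H P (al H T b Λ μ) ε 0 from Real.sqrt_le_sqrt (by
      simp; positivity)) (Real.sqrt_le_iff.2 ⟨hν.le, haν⟩) (Real.sqrt_nonneg _) (Real.sqrt_nonneg _))
    linarith [mul_le_mul_of_nonneg_left b7 hν.le]
  have e : ν * (2 * μ * J + R * (1 + R ^ 2) * (l / A₁ * (R ^ 2 + 2))) =
    μ * (2 * ν * J) + l * (ν * (R * (1 + R ^ 2) * (R ^ 2 + 2)) / A₁) := by ring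
  have h4 := (div_lt_one A0).2 h1
  rw [e] at key
  rcases l0.eq_or_lt with rfl | l0
  · have : 0 < μ := μ0.lt_of_ne (by rintro rfl; simp at k1)
    nlinarith
  · nlinarith [mul_le_mul_of_nonneg_left h2.le μ0]

end Pool.Agent.Lib.MP_124863_gt.Ec
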