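import Pool.Agent.Lib.MP_124863_gt.EcMain

/-! Entire curves as limits of large discs. -/

open Filter Topology Set Metric Complex MeasureTheory
open scoped Real

namespace Pool.Agent.Lib.MP_124863_gt.Ec

variable {n N : ℕ} {M : Type} [MetricSpace M] {ι : M → Cn N} {q : Cn N → M} {U : Set (Cn N)}
  {G : Cn N → Bil N} {R R₀ δ ρ : ℝ} {Z : ℂ → Cn N}

theorem montel {F : ℕ → ℂ → Cn N} (l : Ultrafilter ℕ) (h : ∀ ρ : ℝ, ∃ C, ∀ᶠ k in l,
    DifferentiableOn ℂ (F k) (ball 0 ρ) ∧ ∀ w ∈ ball 0 ρ, ‖F k w‖ ≤ C) :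
    ∃ Z, ∀ s, TendstoLocallyUniformlyOn F Z l s := by
  have h1 : ∀ w, ∃ z, Tendsto (fun k => F k w) l (𝓝 z) := fun w => by
    obtain ⟨C, hC⟩ := h (‖w‖ + 1)
    obtain ⟨z, -, hz⟩ := (isCompact_closedBall (0 : Cn N) C).ultrafilter_le_nhds
      (l.map fun k => F k w) (tendsto_principal.2 (hC.mono fun k hk =>
        mem_closedBall_zero_iff.2 (hk.2 w (by simp))))
    exact ⟨z, hz⟩
  choose Z hZ using h1
  refine ⟨Z, fun s => Metric.tendstoLocallyUniformlyOn_iff.2 fun ε hε x _ => ?_⟩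
  obtain ⟨C, hC⟩ := h (‖x‖ + 1)
  have s1 : ball x 1 ⊆ ball 0 (‖x‖ + 1) := ball_subset_ball' (by simp [add_comm])
  have h2 : ∀ᶠ k in l, ∀ y ∈ ball x 1, dist (F k y) (F k x) ≤ 2 * C * dist y x :=
    hC.mono fun k hk y hy => by
      simpa using dist_le_div_mul_dist_of_mapsTo_ball (R₂ := 2 * C) (hk.1.mono s1) (fun z hz => by
        rw [mem_closedBall, dist_eq_norm]
        linarith [norm_sub_le (F k z) (F k x), hk.2 z (s1 hz), hk.2 x (s1 (mem_ball_self one_pos))]) hy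
  have h3 : ∀ᶠ y in 𝓝 x, 2 * C * dist y x < ε / 3 :=
    (by fun_prop : ContinuousAt (fun y => 2 * C * dist y x) x).eventually
      (gt_mem_nhds (by simpa using hε))
  refine ⟨_, mem_nhdsWithin_of_mem_nhds (h3.and (ball_mem_nhds x one_pos)), ?_⟩
  filter_upwards [h2, Metric.tendsto_nhds.1 (hZ x) (ε / 3) (by positivity)] with k a1 a2 y hy
  have a3 := le_of_tendsto ((hZ y).dist (hZ x)) (h2.mono fun k hk => hk y hy.2)
  linarith [dist_triangle4_right (Z y) (F k y) (Z x) (F k x), a1 y hy.2, hy.1, dist_comm (Z x) (F k x)]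

omit [MetricSpace M] in
theorem Dsc.mono (h : Dsc ι R Z) (hρ : ρ ≤ R) : Dsc ι ρ Z :=
  ⟨h.hol.mono (ball_subset_ball hρ), fun w hw => h.mem w (closedBall_subset_closedBall hρ hw)⟩

theorem Data.curve (h : Data n ι q U G) (hZ : Dsc ι R Z) {γ γ' : ℝ → ℂ} {σ : ℝ → ℝ} {a b : ℝ}
    (hab : a ≤ b) (h1 : ∀ t ∈ Icc a b, γ t ∈ ball 0 R ∧ HasDerivAt γ (γ' t) t ∧
      ‖γ' t‖ * √(G (Z (γ t)) (deriv Z (γ t)) (deriv Z (γ t))) ≤ σ t)
    (h2 : ContinuousOn γ' (Icc a b)) (h3 : ContinuousOn σ (Icc a b)) :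
    dist (q (Z (γ a))) (q (Z (γ b))) ≤ ∫ t in a..b, σ t := by
  refine h.len (fun t => Z (γ t)) (fun t => γ' t • deriv Z (γ t)) σ a b hab (fun t ht => ?_)
    (h2.smul ((h.fam hZ).cT.comp (fun t ht => (h1 t ht).2.1.continuousAt.continuousWithinAt)
      fun t ht => (h1 t ht).1)) h3
  obtain ⟨a1, a2, a3⟩ := h1 t ht
  refine ⟨h.sub (hZ.mem _ (ball_subset_closedBall a1)),
    (an_of hZ.hol a1).differentiableAt.hasDerivAt.scomp t a2, ?_⟩
  rwa [isH_smul ((h.fam hZ).isH _ (ball_subset_closedBall a1)), Real.sqrt_mul (sq_nonneg _),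
    Real.sqrt_sq (norm_nonneg _)]

theorem W0_ge (hδ : 0 < δ) (h0 : 0 < R₀) {r : ℝ} (hr : 0 ≤ r) (hρ : r ≤ ρ) (hR : 2 * ρ ≤ R₀) :
    (√(r ^ 2 + δ ^ 2))⁻¹ * ((1 + ρ ^ 2) ^ 4)⁻¹ ≤ 4 * W0 (R₀ ^ 2) δ (r ^ 2) := by
  have h1 : 3 / 4 ≤ cc (R₀ ^ 2) (r ^ 2) := le_max_of_le_left (by
    rw [le_sub_comm, div_le_iff₀ (by positivity)]; nlinarith)
  have h2 : (3 / 4 : ℝ) ^ 4 ≤ cc (R₀ ^ 2) (r ^ 2) ^ 4 := by gcongr
  have h3 : (√(r ^ 2 + δ ^ 2))⁻¹ * ((1 + ρ ^ 2) ^ 4)⁻¹ ≤ vv δ (r ^ 2) := by unfold vv; gcongr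
  have h4 := vv_pos hδ (sq_nonneg r)
  unfold W0
  nlinarith

theorem exists_le_int {f : ℝ → ℝ} {a b B : ℝ} (hab : a + 1 ≤ b) (hf : ContinuousOn f (Icc a b))
    (h0 : 0 ≤ B) (h : ∫ t in a..b, f t ≤ B) : ∃ t ∈ Icc a b, f t ≤ B := by
  have h1 : a ≤ b := by linarith
  obtain ⟨t, ht, hm⟩ := isCompact_Icc.exists_isMinOn (nonempty_Icc.2 h1) hf
  have := intervalIntegral.integral_mono_on (μ := volume) h1 (intervalIntegrable_const (c := f t))
    (hf.intervalIntegrable_of_Icc h1) fun s hs => hm hs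
  rw [intervalIntegral.integral_const, smul_eq_mul] at this
  exact ⟨t, ht, by nlinarith⟩

theorem Data.anchor (h : Data n ι q U G) (hZ : Dsc ι R Z) (hδ : 0 < δ) (hδ1 : δ ≤ 1) (hρ : 1 ≤ ρ)
    (h0 : 4 * ρ ≤ R₀) (hR : R₀ < R) {A : ℝ} (hA : ar G R₀ δ Z ≤ A)
    (hK : ∀ w ∈ closedBall 0 1, δ * √(G (Z w) (deriv Z w) (deriv Z w)) ≤ 1) :
    ∃ r ∈ Icc ρ (2 * ρ), ∀ w ∈ sphere 0 r, dist (q (Z 0)) (q (Z w)) ≤
      1 + (2 * ρ + 8 * (1 + (2 * ρ) ^ 2) ^ 4 * A) + 4 * ρ * (8 + 8 * (1 + (2 * ρ) ^ 2) ^ 4 * A) := by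
  have hf := h.fam hZ
  have c0 := ((hf.cH.mono ball_subset_closedBall).clm_apply hf.cT).clm_apply hf.cT
  have e0 := fun z hz => hf.nn z (ball_subset_closedBall hz) (deriv Z z)
  have R0 : 0 < R₀ := by linarith
  have hc := fun γ γ' σ a b => h.curve hZ (γ := γ) (γ' := γ') (σ := σ) (a := a) (b := b)
  have h1 := (area_polar c0 e0 hδ R0 hR hδ.le (show δ ≤ 2 * ρ by linarith)).trans hA
  generalize he : (fun z => G (Z z) (deriv Z z) (deriv Z z)) = e at c0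
  have he' : ∀ z, G (Z z) (deriv Z z) (deriv Z z) = e z := congrFun he
  simp only [he'] at e0 hc h1 hK
  have hs : ∀ {a b}, 0 ≤ a → b ≤ 2 * ρ → Icc a b ⊆ Ioo (-R) R := fun ha hb r hr =>
    ⟨by linarith [hr.1], by linarith [hr.2]⟩
  have c1 := continuousOn_mean c0
  have c2 : ContinuousOn (fun p : ℝ × ℝ => e (cm p.1 p.2)) (Icc δ (2 * ρ) ×ˢ univ) :=
    c0.comp continuous_cm.continuousOn fun p hp => cm_mem (hs hδ.le le_rfl hp.1) _
  have d1 : δ ≤ 2 * ρ := by linarith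
  have h2 : ∫ r in δ..2 * ρ, mean e r ≤ 8 * (1 + (2 * ρ) ^ 2) ^ 4 * A := by
    refine le_trans ?_ (mul_le_mul_of_nonneg_left h1 (by positivity))
    rw [← intervalIntegral.integral_const_mul]
    refine intervalIntegral.integral_mono_on d1
      ((c1.mono (hs hδ.le le_rfl)).intervalIntegrable_of_Icc d1)
      (((continuousOn_id.mul ((continuousOn_mean (area_cont c0 hδ R0 hR).continuousOn).mono
        (hs hδ.le le_rfl))).const_mul _).intervalIntegrable_of_Icc d1) fun r hr => ?_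
    have r0 := hδ.trans_le hr.1
    have a1 := mean_nonneg fun θ => e0 _ (cm_mem (hs hδ.le le_rfl hr) θ)
    have a2 := W0_ge hδ R0 r0.le hr.2 (by linarith)
    have a3 : √(r ^ 2 + δ ^ 2) ≤ 2 * r := Real.sqrt_le_iff.2 ⟨by positivity, by nlinarith [hr.1]⟩
    have a4 : (2 * r)⁻¹ * ((1 + (2 * ρ) ^ 2) ^ 4)⁻¹ ≤ 4 * W0 (R₀ ^ 2) δ (r ^ 2) :=
      le_trans (by gcongr) a2
    rw [← mul_inv, inv_le_iff_one_le_mul₀ (by positivity)] at a4
    simp only [mean, norm_cm, sq_abs, intervalIntegral.integral_const_mul] at a1 ⊢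
    nlinarith
  generalize 8 * (1 + (2 * ρ) ^ 2) ^ 4 * A = B at h2
  have m1 : ∀ {f : ℝ → ℝ} {a b c d : ℝ}, c ≤ a → a ≤ b → b ≤ d → ContinuousOn f (Icc c d) →
      (∀ t ∈ Icc c d, 0 ≤ f t) → ∫ t in a..b, f t ≤ ∫ t in c..d, f t := fun a1 a2 a3 a4 a5 =>
    intervalIntegral.integral_mono_interval a1 a2 a3 ((ae_restrict_mem measurableSet_Ioc).mono
      fun t ht => a5 t (Ioc_subset_Icc_self ht)) (a4.intervalIntegrable_of_Icc (by linarith))
  have m2 := fun r hr => mean_nonneg fun θ => e0 _ (cm_mem (r := r) (hs hδ.le le_rfl hr) θ)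
  have B0 := (intervalIntegral.integral_nonneg d1 m2).trans h2
  obtain ⟨r, hr, r1⟩ := exists_le_int (a := ρ) (b := 2 * ρ) (by linarith)
    (c1.mono (hs (by linarith) le_rfl)) B0
    ((m1 (hδ1.trans hρ) (by linarith) le_rfl (c1.mono (hs hδ.le le_rfl)) m2).trans h2)
  have c3 : ∀ θ, ContinuousOn (fun t => e (cm t θ)) (Icc δ (2 * ρ)) := fun θ =>
    c2.comp (f := fun t => (t, θ)) (by fun_prop) fun t ht => ⟨ht, trivial⟩
  obtain ⟨θ, hθ, θ1⟩ := exists_le_int (f := fun θ => ∫ t in δ..2 * ρ, e (cm t θ)) (a := 0)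
    (b := 2 * π) (by linarith [Real.two_le_pi])
    ((intervalIntegral.continuous_parametric_intervalIntegral_of_continuous'
      (f := fun θ t => e (cm (projIcc δ (2 * ρ) d1 t) θ)) (c2.comp_continuous
        (f := fun p : ℝ × ℝ => ((projIcc δ (2 * ρ) d1 p.2 : ℝ), p.1))
        ((continuous_subtype_val.comp (continuous_projIcc.comp continuous_snd)).prodMk continuous_fst)
        fun p => ⟨Subtype.prop _, trivial⟩) δ (2 * ρ)).congr fun θ =>
      intervalIntegral.integral_congr fun t ht => by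
        simp only [projIcc_of_mem d1 (uIcc_of_le d1 ▸ ht)]).continuousOn B0 (by
      rwa [← intervalIntegral_intervalIntegral_swap (F := fun t θ => e (cm t θ))
        (((c2.mono (prod_mono subset_rfl (subset_univ _))).integrableOn_compact
          (isCompact_Icc.prod isCompact_uIcc)).mono_set
          (prod_mono (by rw [uIoc_of_le d1]; exact Ioc_subset_Icc_self) uIoc_subset_uIcc))])
  have sq : ∀ x : ℝ, 0 ≤ x → √x ≤ 1 + x := fun x hx =>
    Real.sqrt_le_iff.2 ⟨by positivity, by nlinarith⟩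
  have r0 : δ ≤ r := by linarith [hr.1]
  have r2 := hs (a := ρ) (by linarith) le_rfl hr
  have a1 := hc (fun t => cm t θ) (fun _ => cm 1 θ) (fun _ => δ⁻¹) 0 δ hδ.le (fun t ht =>
    ⟨cm_mem (hs le_rfl d1 ht) θ, hasDerivAt_cm_r t θ, by
      rw [norm_cm, abs_one, one_mul, ← one_div, le_div_iff₀' hδ]
      exact hK _ (by rw [mem_closedBall_zero_iff, norm_cm, abs_of_nonneg ht.1]; linarith [ht.2])⟩)
    continuousOn_const continuousOn_const
  have a2 := (hc (fun t => cm t θ) (fun _ => cm 1 θ) (fun t => 1 + e (cm t θ)) δ r r0 (fun t ht =>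
    ⟨cm_mem (hs hδ.le hr.2 ht) θ, hasDerivAt_cm_r t θ, by
      rw [norm_cm, abs_one, one_mul]
      exact sq _ (e0 _ (cm_mem (hs hδ.le hr.2 ht) θ))⟩) continuousOn_const
    (continuousOn_const.add ((c3 θ).mono (Icc_subset_Icc_right hr.2)))).trans
      (m1 le_rfl r0 hr.2 (continuousOn_const.add (c3 θ)) fun t ht =>
        add_nonneg zero_le_one (e0 _ (cm_mem (hs hδ.le le_rfl ht) θ)))
  have c4 := continuous_on_circle c0 r2
  have c5 := (c4.const_add 1).const_mul r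
  have a3 : ∀ s ∈ Icc 0 (2 * π), dist (q (Z (cm r 0))) (q (Z (cm r s))) ≤ 2 * ρ * (8 + B) :=
    fun s hs => by
      refine ((hc (cm r) (fun t => I * cm r t) (fun t => r * (1 + e (cm r t))) 0 s hs.1 (fun t ht =>
        ⟨cm_mem r2 t, hasDerivAt_cm_θ r t, by
          rw [norm_mul, norm_I, norm_cm, one_mul, abs_of_nonneg (by linarith)]
          exact mul_le_mul_of_nonneg_left (sq _ (e0 _ (cm_mem r2 t))) (by linarith)⟩)
        (by fun_prop) c5.continuousOn).trans (m1 le_rfl hs.1 hs.2 c5.continuousOn fun t _ =>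
          mul_nonneg (by linarith) (add_nonneg zero_le_one (e0 _ (cm_mem r2 t))))).trans ?_
      rw [intervalIntegral.integral_const_mul, intervalIntegral.integral_add
        intervalIntegrable_const (c4.intervalIntegrable _ _), intervalIntegral.integral_const]
      refine mul_le_mul hr.2 (add_le_add (by simp; linarith [Real.pi_le_four]) r1) ?_ (by linarith)
      have := m2 r ⟨r0, hr.2⟩
      simp only [mean, sub_zero, smul_eq_mul] at this ⊢
      positivity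
  rw [intervalIntegral.integral_add intervalIntegrable_const
    ((c3 θ).intervalIntegrable_of_Icc d1)] at a2
  refine ⟨r, hr, fun w hw => ?_⟩
  rw [← abs_of_nonneg (hδ.le.trans r0), ← image_circleMap_Ioc] at hw
  obtain ⟨s, hs, rfl⟩ := hw
  have a4 := a3 s (Ioc_subset_Icc_self hs)
  have a5 := a3 θ hθ
  simp only [intervalIntegral.integral_const, sub_zero, smul_eq_mul, mul_inv_cancel₀ hδ.ne',
    show cm 0 θ = 0 by simp [cm], mul_one] at a1 a2
  rw [show circleMap 0 r s = cm r s by simp [cm, circleMap]]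
  linarith [dist_triangle4 (q (Z 0)) (q (Z (cm δ θ))) (q (Z (cm r θ))) (q (Z (cm r s))),
    dist_triangle_left (q (Z (cm r θ))) (q (Z (cm r s))) (q (Z (cm r 0)))]

theorem Data.area_le (h : Data n ι q U G) (hZ : Dsc ι R Z) (hδ : 0 < δ) (hδ1 : δ ≤ 1) (hρ : 0 < ρ)
    (h0 : 2 * ρ ≤ R₀) (hR : R₀ < R) : ∫ w in closedBall 0 ρ, G (Z w) (deriv Z w) (deriv Z w) ≤
      4 * (1 + ρ ^ 2) ^ 5 * ar G R₀ δ Z := by
  have hf := h.fam hZ
  have c0 := ((hf.cH.mono ball_subset_closedBall).clm_apply hf.cT).clm_apply hf.cT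
  have R0 : 0 < R₀ := by linarith
  have c1 := area_cont c0 hδ R0 hR
  have s1 : closedBall (0 : ℂ) ρ ⊆ closedBall 0 R₀ := closedBall_subset_closedBall (by linarith)
  have s2 : closedBall (0 : ℂ) R₀ ⊆ ball 0 R := closedBall_subset_ball hR
  have e0 := fun z hz => hf.nn z (ball_subset_closedBall (s2 hz)) (deriv Z z)
  rw [ar_eq R0]
  refine le_trans ?_ (mul_le_mul_of_nonneg_left (setIntegral_mono_set
    (c1.continuousOn.integrableOn_compact (isCompact_closedBall _ _))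
    ((ae_restrict_mem measurableSet_closedBall).mono fun w hw =>
      mul_nonneg (W0_nonneg hδ (sq_nonneg _)) (e0 w hw)) s1.eventuallyLE) (by positivity))
  rw [← integral_const_mul]
  refine setIntegral_mono_on ((c0.mono (s1.trans s2)).integrableOn_compact (isCompact_closedBall _ _))
    ((c1.const_mul _).continuousOn.integrableOn_compact (isCompact_closedBall _ _))
    measurableSet_closedBall fun w hw => ?_
  have a1 := mem_closedBall_zero_iff.1 hw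
  have a2 := W0_ge hδ R0 (norm_nonneg w) a1 h0
  have a3 : √(‖w‖ ^ 2 + δ ^ 2) ≤ 1 + ρ ^ 2 :=
    Real.sqrt_le_iff.2 ⟨by positivity, by nlinarith [norm_nonneg w, sq_nonneg (ρ ^ 2)]⟩
  have a4 : (1 + ρ ^ 2)⁻¹ * ((1 + ρ ^ 2) ^ 4)⁻¹ ≤ 4 * W0 (R₀ ^ 2) δ (‖w‖ ^ 2) :=
    le_trans (by gcongr) a2
  rw [← mul_inv, inv_le_iff_one_le_mul₀ (by positivity)] at a4
  nlinarith [e0 w (s1 hw)]

variable [ProperSpace M]

theorem Data.norm_le (h : Data n ι q U G) (x : M) (C : ℝ) : ∃ K, ∀ R Z, 0 < R → Dsc ι R Z →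
    (∀ w ∈ sphere 0 R, dist x (q (Z w)) ≤ C) → ∀ w ∈ closedBall 0 R, ‖Z w‖ ≤ K := by
  obtain ⟨K, hK⟩ := (isCompact_closedBall x C).exists_bound_of_continuousOn h.cι.continuousOn
  exact ⟨K, fun R Z hR hZ h1 w hw => max_disc hZ.hol hR (fun w hw => by
    simpa [h.eq_of (hZ.mem w (sphere_subset_closedBall hw))] using
      hK _ (mem_closedBall'.2 (h1 w hw))) hw⟩

theorem Data.speed (h : Data n ι q U G) (x : M) (C : ℝ) (hR : 2 < R) : ∃ δ, 0 < δ ∧ δ ≤ 1 ∧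
    ∀ Z, Dsc ι R Z → (∀ w ∈ sphere 0 R, dist x (q (Z w)) ≤ C) →
      ∀ w ∈ closedBall 0 1, δ * √(G (Z w) (deriv Z w) (deriv Z w)) ≤ 1 := by
  obtain ⟨K, hK⟩ := h.norm_le x C
  obtain ⟨L, hL⟩ := ((isCompact_closedBall (0 : Cn N) K).inter_left h.closed
    ).exists_bound_of_continuousOn (h.cG.mono (inter_subset_left.trans h.sub))
  refine ⟨(1 + √(L * K * K))⁻¹, by positivity, inv_le_one_of_one_le₀ (by simp), fun Z hZ h1 w hw => ?_⟩
  have s1 : closedBall w 1 ⊆ ball 0 R := fun z hz => by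
    rw [mem_ball]; linarith [dist_triangle z w 0, mem_closedBall.1 hz, mem_closedBall.1 hw]
  have h2 := fun z hz => hK R Z (by linarith) hZ h1 z (ball_subset_closedBall (s1 hz))
  have h3 := norm_deriv_le_of_forall_mem_sphere_norm_le one_pos
    (hZ.hol.differentiableOn.diffContOnCl_ball s1) fun z hz => h2 z (sphere_subset_closedBall hz)
  have w1 := mem_closedBall_self (x := w) zero_le_one
  have h4 := hL _ ⟨hZ.mem w (ball_subset_closedBall (s1 w1)), mem_closedBall_zero_iff.2 (h2 w w1)⟩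
  rw [inv_mul_le_one₀ (by positivity)]
  refine (Real.sqrt_le_sqrt ((le_abs_self _).trans (((G (Z w)).le_opNorm₂ _ _).trans ?_))).trans
    (le_add_of_nonneg_left zero_le_one)
  have := (norm_nonneg _).trans h4
  rw [div_one] at h3
  gcongr
  exact mul_nonneg this ((norm_nonneg _).trans h3)

/-- Entire curves with prescribed tangent vector and polynomial area growth. -/
theorem Data.entire (h : Data n ι q U G) (x : M) {a : Cn N} (ha : fderiv ℂ (ι ∘ q) (ι x) a = a)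
    {ν : ℝ} (hν : 0 < ν) (haν : G (ι x) a a ≤ ν ^ 2) : ∃ Z : ℂ → Cn N, Differentiable ℂ Z ∧
      (∀ w, Z w ∈ range ι) ∧ Z 0 = ι x ∧ deriv Z 0 = a ∧ ∀ ρ, 0 < ρ →
      ∫ w in closedBall 0 ρ, G (Z w) (deriv Z w) (deriv Z w) ≤ 4 * (1 + ρ ^ 2) ^ 5 * (10 ^ 9 * ν ^ 2) := by
  have h1 : ∀ k : ℕ, ∃ Z δ, 0 < δ ∧ δ ≤ 1 ∧ Dsc ι (k + 3) Z ∧ Z 0 = ι x ∧ deriv Z 0 = a ∧
      ar G (k + 2) δ Z ≤ 10 ^ 9 * ν ^ 2 ∧
      ∀ w ∈ closedBall 0 1, δ * √(G (Z w) (deriv Z w) (deriv Z w)) ≤ 1 := fun k => by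
    have k0 : (2 : ℝ) < k + 3 := by linarith [k.cast_nonneg (α := ℝ)]
    obtain ⟨δ, a1, a2, a3⟩ := h.speed x _ k0
    obtain ⟨Z, z1, z2, z3, z4, z5⟩ := h.disc a1 (R₀ := k + 2) (by positivity) (by linarith) k0 x ha
      hν haν
    exact ⟨Z, δ, a1, a2, z1, z2, z3, z5, a3 Z z1 z4⟩
  choose F δ d0 d1 f1 f2 f3 f4 f5 using h1
  have ev : ∀ ρ : ℝ, ∀ᶠ k : ℕ in hyperfilter ℕ, ρ ≤ k := fun ρ => Nat.hyperfilter_le_atTop
    (tendsto_natCast_atTop_atTop.eventually_ge_atTop ρ)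
  have ds : ∀ ρ : ℝ, ∀ᶠ k : ℕ in hyperfilter ℕ, Dsc ι ρ (F k) := fun ρ =>
    (ev ρ).mono fun k hk => (f1 k).mono (by linarith)
  obtain ⟨Z, hZ⟩ := montel (F := F) (hyperfilter ℕ) fun ρ => by
    obtain ⟨K, hK⟩ := h.norm_le x _
    refine ⟨K, ((ds ρ).and (ev (4 * max ρ 1))).mono fun k hk => ⟨hk.1.hol.differentiableOn,
      fun w hw => ?_⟩⟩
    have a1 := le_max_right ρ 1
    obtain ⟨r, hr, a2⟩ := h.anchor (f1 k) (d0 k) (d1 k) a1 (by linarith [hk.2]) (by linarith)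
      (f4 k) (f5 k)
    rw [f2, h.left] at a2
    exact hK r _ (by linarith [hr.1]) ((f1 k).mono (by linarith [hr.2, hk.2])) a2 w
      (ball_subset_closedBall (ball_subset_ball ((le_max_left _ _).trans hr.1) hw))
  have dd := fun ρ => (ds ρ).mono fun k hk => hk.hol.differentiableOn
  have z1 : ∀ w, Z w ∈ range ι := fun w => h.closed.mem_of_tendsto
    ((hZ univ).tendsto_at (mem_univ w)) ((ds ‖w‖).mono fun k hk => hk.mem w (by simp))
  refine ⟨Z, fun w => ((hZ _).differentiableOn (dd (‖w‖ + 1)) isOpen_ball).differentiableAt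
    (isOpen_ball.mem_nhds (by simp)), z1, tendsto_nhds_unique ((hZ univ).tendsto_at (mem_univ 0))
      (tendsto_const_nhds.congr fun k => (f2 k).symm), tendsto_nhds_unique
      (((hZ _).deriv (dd 1) isOpen_ball).tendsto_at (mem_ball_self one_pos))
      (tendsto_const_nhds.congr fun k => (f3 k).symm), fun ρ hρ => ?_⟩
  have := h.tendsto_area (ds (ρ + 1)) (fun w _ => h.sub (z1 w)) (hZ _) (lt_add_one ρ)
    (continuous_const (y := 1))
  simp only [one_mul] at this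
  exact le_of_tendsto this ((ev (2 * ρ)).mono fun k hk => (h.area_le (f1 k) (d0 k) (d1 k) hρ
    (by linarith) (by linarith)).trans (mul_le_mul_of_nonneg_left (f4 k) (by positivity)))

end Pool.Agent.Lib.MP_124863_gt.Ec
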