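import Pool.Agent.Lib.MP_124863_gt.Met

/-! Lengths of curves and the metric part of the Hopf-Rinow theorem. -/

open scoped Manifold ContDiff Topology Bundle
open Set Filter Function Metric Manifold MeasureTheory

namespace Pool.Agent.Lib.MP_124863_gt

variable {n : ℕ} {M : Type} [MetricSpace M] [ChartedSpace (Cn n) M]
  [Bundle.RiemannianBundle fun x : M => TangentSpace 𝓘(ℝ, Cn n) x]
  [IsRiemannianManifold 𝓘(ℝ, Cn n) M]

theorem edist_le_length {γ : ℝ → M} {a b : ℝ} (hab : a ≤ b)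
    (h : ContMDiffOn 𝓘(ℝ, ℝ) 𝓘(ℝ, Cn n) 1 γ (Icc a b)) :
    edist (γ a) (γ b) ≤ pathELength 𝓘(ℝ, Cn n) γ a b := by
  rw [IsRiemannianManifold.out (I := 𝓘(ℝ, Cn n))]
  exact riemannianEDist_le_pathELength h rfl rfl hab

theorem dist_le_integral [IsManifold 𝓘(ℂ, Cn n) ω M] {f : Cn n → M} {c c' : ℝ → Cn n} {σ : ℝ → ℝ}
    {a b : ℝ} (hab : a ≤ b)
    (hf : ∀ t ∈ Icc a b, ∀ᶠ w in 𝓝 (c t), MDifferentiableAt 𝓘(ℂ, Cn n) 𝓘(ℂ, Cn n) f w)
    (hc : ContDiffOn ℝ 1 c (Icc a b)) (hd : ∀ t ∈ Ioo a b, HasDerivAt c (c' t) t)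
    (hσ : ContinuousOn σ (Icc a b)) (hle : ∀ t ∈ Ioo a b, √(Bm f (c t) (c' t) (c' t)) ≤ σ t) :
    dist (f (c a)) (f (c b)) ≤ ∫ t in a..b, σ t := by
  have h0 : 0 ≤ᵐ[volume.restrict (Ioo a b)] σ := (ae_restrict_mem measurableSet_Ioo).mono
    fun t ht => (Real.sqrt_nonneg _).trans (hle t ht)
  have h1 := edist_le_length (γ := f ∘ c) hab fun t ht =>
    (contMDiffAt_real (hf t ht) 1).comp_contMDiffWithinAt t (hc t ht).contMDiffWithinAt
  rw [intervalIntegral.integral_of_le hab, integral_Ioc_eq_integral_Ioo,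
    ← ENNReal.ofReal_le_ofReal_iff (integral_nonneg_of_ae h0), ← edist_dist,
    ofReal_integral_eq_lintegral_ofReal (hσ.integrableOn_Icc.mono_set Ioo_subset_Icc_self) h0]
  refine h1.trans ?_
  rw [pathELength_eq_lintegral_mfderiv_Ioo]
  refine setLIntegral_mono' measurableSet_Ioo fun t ht => ?_
  exact (enorm_mfderiv (hf t (Ioo_subset_Icc_self ht)).self_of_nhds (hd t ht)).trans_le
    (ENNReal.ofReal_le_ofReal (hle t ht))

/-- Lipschitz bound on convex sets. -/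
theorem dist_le_of_convex [IsManifold 𝓘(ℂ, Cn n) ω M] {f : Cn n → M} {D : Set (Cn n)}
    (hD : Convex ℝ D) (hf : ∀ z ∈ D, ∀ᶠ w in 𝓝 z, MDifferentiableAt 𝓘(ℂ, Cn n) 𝓘(ℂ, Cn n) f w)
    {C : ℝ} (hC : 0 ≤ C) (hb : ∀ z ∈ D, ∀ v, Bm f z v v ≤ C ^ 2 * ‖v‖ ^ 2) {x y : Cn n} (hx : x ∈ D)
    (hy : y ∈ D) : dist (f x) (f y) ≤ C * dist x y := by
  have hm : ∀ t ∈ Icc (0 : ℝ) 1, x + t • (y - x) ∈ D := fun t ht =>
    hD.add_smul_sub_mem hx hy ht
  have := dist_le_integral (f := f) (c := fun t => x + t • (y - x)) (c' := fun _ => y - x)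
    (σ := fun _ => C * ‖y - x‖) zero_le_one (fun t ht => hf _ (hm t ht)) (by fun_prop)
    (fun t _ => by simpa using ((hasDerivAt_id t).smul_const (y - x)).const_add x)
    continuousOn_const fun t ht => Real.sqrt_le_iff.2 ⟨by positivity, by
      rw [mul_pow]; exact hb _ (hm t (Ioo_subset_Icc_self ht)) _⟩
  simpa [dist_eq_norm' x] using this

variable (n) in
theorem exists_path {x y : M} {r : ℝ} (h : dist x y < r) : ∃ γ : ℝ → M, γ 0 = x ∧ γ 1 = y ∧
    ContMDiff 𝓘(ℝ, ℝ) 𝓘(ℝ, Cn n) 1 γ ∧ pathELength 𝓘(ℝ, Cn n) γ 0 1 < ENNReal.ofReal r ∧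
    ∀ t ∈ Icc (0 : ℝ) 1, dist x (γ t) + dist (γ t) y < r := by
  have hr : 0 < r := dist_nonneg.trans_lt h
  obtain ⟨γ, h0, h1, h2, h3, -⟩ := exists_lt_locally_constant_of_riemannianEDist_lt
    (I := 𝓘(ℝ, Cn n)) (x := x) (y := y) (r := ENNReal.ofReal r) (a := 0) (b := 1) (by
      rw [← IsRiemannianManifold.out, edist_dist]; exact (ENNReal.ofReal_lt_ofReal_iff hr).2 h)
    zero_lt_one
  refine ⟨γ, h0, h1, h2, h3, fun t ht => ?_⟩
  rw [← ENNReal.ofReal_lt_ofReal_iff hr, ENNReal.ofReal_add dist_nonneg dist_nonneg, ← edist_dist,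
    ← edist_dist, ← h0, ← h1]
  refine lt_of_le_of_lt ?_ h3
  rw [← pathELength_add ht.1 ht.2]
  exact add_le_add (edist_le_length ht.1 h2.contMDiffOn) (edist_le_length ht.2 h2.contMDiffOn)

theorem IsIsomFlow.dist_le {a : ℝ → M → M} (ha : IsIsomFlow n a) (t : ℝ) (x y : M) :
    dist (a t x) (a t y) ≤ dist x y := by
  refine le_of_forall_gt_imp_ge_of_dense fun r hr => ?_
  obtain ⟨γ, rfl, rfl, h1, h2, -⟩ := exists_path n hr
  have h3 : ContMDiff 𝓘(ℝ, Cn n) 𝓘(ℝ, Cn n) 1 (a t) :=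
    (ha.smooth.comp (contMDiff_const.prodMk contMDiff_id)).of_le (by norm_cast)
  rw [← ENNReal.ofReal_le_ofReal_iff (dist_nonneg.trans hr.le), ← edist_dist]
  refine (edist_le_length zero_le_one (h3.comp h1).contMDiffOn).trans (le_of_eq_of_le ?_ h2.le)
  simp only [pathELength_eq_lintegral_mfderiv_Icc]
  congr 1; ext1 s
  rw [mfderiv_comp s (h3.mdifferentiableAt one_ne_zero) (h1.mdifferentiableAt one_ne_zero),
    ← ofReal_norm, ← ofReal_norm, norm_eq_sqrt_real_inner, norm_eq_sqrt_real_inner]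
  exact congrArg (fun x => ENNReal.ofReal √x) (ha.isom t _ _ _)

theorem IsIsomFlow.dist_eq {a : ℝ → M → M} (ha : IsIsomFlow n a) (t : ℝ) (x y : M) :
    dist (a t x) (a t y) = dist x y := by
  refine le_antisymm (ha.dist_le t x y) ((ha.dist_le (-t) _ _).trans_eq' ?_)
  simp only [← ha.add, neg_add_cancel, ha.zero]

variable (n) in
include n in
theorem exists_near_mid (x y : M) {s ε : ℝ} (h0 : 0 ≤ s) (h1 : s ≤ dist x y) (hε : 0 < ε) :
    ∃ z, dist x z = s ∧ dist z y < dist x y - s + ε := by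
  obtain ⟨γ, g0, g1, g2, -, g4⟩ := exists_path n (lt_add_of_pos_right (dist x y) hε)
  obtain ⟨t, ht, e⟩ := intermediate_value_Icc zero_le_one (f := fun t => dist x (γ t))
    (continuous_const.dist g2.continuous).continuousOn (show s ∈ _ by simp [g0, g1, h0, h1])
  exact ⟨γ t, e, by have := g4 t ht; simp only at e; linarith⟩

variable (n M) in
include n in
theorem properSpace [CompleteSpace M] : ProperSpace M := by
  have : LocallyCompactSpace M := ChartedSpace.locallyCompactSpace (Cn n) M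
  have key : ∀ (x : M) (r ε : ℝ), 0 ≤ r → 0 < ε →
      closedBall x (r + ε) ⊆ thickening (2 * ε) (closedBall x r) := fun x r ε hr hε y hy => by
    rw [mem_thickening_iff]
    rcases le_total (dist x y) r with h | h
    · exact ⟨y, mem_closedBall'.2 h, by simpa using hε⟩
    · obtain ⟨z, h1, h2⟩ := exists_near_mid n x y hr h hε
      exact ⟨z, mem_closedBall'.2 h1.le, by rw [dist_comm]; linarith [mem_closedBall'.1 hy]⟩
  refine .of_isCompact_closedBall_of_le 0 fun x R hR => by_contra fun hc => ?_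
  let S := {r | 0 ≤ r ∧ IsCompact (closedBall x r)}
  have hb : BddAbove S := ⟨R, fun r hr => le_of_not_gt fun h =>
    hc (hr.2.of_isClosed_subset isClosed_closedBall (closedBall_subset_closedBall h.le))⟩
  have hn : (0 : ℝ) ∈ S := ⟨le_rfl, by simp⟩
  have h0 := le_csSup hb hn
  have h1 : IsCompact (closedBall x (sSup S)) := by
    refine isCompact_iff_totallyBounded_isComplete.2
      ⟨Metric.totallyBounded_iff.2 fun ε hε => ?_, isClosed_closedBall.isComplete⟩
    obtain ⟨r, hr, h2⟩ := exists_lt_of_lt_csSup ⟨_, hn⟩ (sub_lt_self (sSup S) (by positivity :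
      0 < ε / 4))
    obtain ⟨t, ht, h3⟩ := Metric.totallyBounded_iff.1 hr.2.totallyBounded (ε / 2) (by positivity)
    refine ⟨t, ht, fun y hy => ?_⟩
    obtain ⟨z, hz, h4⟩ := mem_thickening_iff.1 (key x r (ε / 4) hr.1 (by positivity)
      (closedBall_subset_closedBall (by linarith) hy))
    obtain ⟨u, hu, h5⟩ := mem_iUnion₂.1 (h3 hz)
    exact mem_iUnion₂.2 ⟨u, hu, by
      rw [mem_ball] at h5 ⊢; linarith [dist_triangle y z u]⟩
  obtain ⟨δ, hδ, h2⟩ := h1.exists_isCompact_cthickening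
  have h3 : sSup S + δ / 2 ∈ S := ⟨by positivity, h2.of_isClosed_subset isClosed_closedBall
    ((key x _ _ h0 (by positivity)).trans (by
      rw [mul_div_cancel₀ _ two_ne_zero]; exact thickening_subset_cthickening _ _))⟩
  linarith [le_csSup hb h3]

variable (n) in
include n in
theorem exists_mid [CompleteSpace M] (x y : M) {s : ℝ} (h0 : 0 ≤ s) (h1 : s ≤ dist x y) :
    ∃ z, dist x z = s ∧ dist z y = dist x y - s := by
  have := properSpace n M
  obtain ⟨z, hz, h2⟩ := (isCompact_sphere x s).exists_isMinOn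
    (by obtain ⟨z, hz, -⟩ := exists_near_mid n x y h0 h1 one_pos; exact ⟨z, mem_sphere'.2 hz⟩)
    (f := fun z => dist z y) (by fun_prop)
  refine ⟨z, mem_sphere'.1 hz, le_antisymm (le_of_forall_pos_le_add fun ε hε => ?_) ?_⟩
  · obtain ⟨w, hw, h3⟩ := exists_near_mid n x y h0 h1 hε
    exact (h2 (mem_sphere'.2 hw)).trans h3.le
  · linarith [dist_triangle x z y, mem_sphere'.1 hz]

end Pool.Agent.Lib.MP_124863_gt
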