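import Pool.Agent.Lib.MP_124863_gt.Var
import Pool.Agent.Lib.MP_124863_gt.Len

/-! Estimates in normal coordinates. -/

open scoped Manifold ContDiff Topology Bundle
open Set Filter Function Metric Complex Manifold MeasureTheory

namespace Pool.Agent.Lib.MP_124863_gt

variable {n : ℕ} {B : Cn n → Bil n}

noncomputable instance : NormedAddCommGroup (Cn n →L[ℝ] Bil n) := inferInstance

noncomputable instance : NormedSpace ℝ (Cn n →L[ℝ] Bil n) := inferInstance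

theorem exists_small (h : ContDiffAt ℝ 2 B 0) (h0 : fderiv ℝ B 0 = 0) {η : ℝ} (hη : 0 < η) :
    ∀ᶠ a in 𝓝 0, (∀ x u v, |fderiv ℝ B a x u v| ≤ η * ‖x‖ * ‖u‖ * ‖v‖) ∧ ∀ Y X,
      fderiv ℝ (fderiv ℝ B) a Y Y X X ≤ fderiv ℝ (fderiv ℝ B) 0 Y Y X X + η * ‖Y‖ ^ 2 * ‖X‖ ^ 2 := by
  have h1 := h.fderiv_right (m := 1) (by norm_num)
  filter_upwards [h1.continuousAt.eventually (closedBall_mem_nhds _ hη),
    (h1.continuousAt_fderiv one_ne_zero).eventually (closedBall_mem_nhds _ hη)] with a a1 a2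
  rw [h0, dist_zero_right] at a1
  rw [dist_eq_norm] at a2
  refine ⟨fun x u v => ((fderiv ℝ B a x).le_opNorm₂ u v).trans ?_, fun Y X => ?_⟩
  · gcongr; exact ((fderiv ℝ B a).le_opNorm x).trans (by gcongr)
  · generalize fderiv ℝ (fderiv ℝ B) a = D, fderiv ℝ (fderiv ℝ B) 0 = D' at a2 ⊢
    have a3 := (le_abs_self _).trans (((D - D') Y Y).le_opNorm₂ X X)
    have a4 : ‖(D - D') Y Y‖ ≤ η * ‖Y‖ * ‖Y‖ := ((D - D').le_opNorm₂ Y Y).trans (by gcongr)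
    have a5 : ‖(D - D') Y Y‖ * ‖X‖ * ‖X‖ ≤ η * ‖Y‖ * ‖Y‖ * ‖X‖ * ‖X‖ := by gcongr
    simp only [sub_apply] at a3 a5
    linarith

theorem bil_close {D : Set (Cn n)} (hD : Convex ℝ D) (hd : ∀ a ∈ D, DifferentiableAt ℝ B a) {η : ℝ}
    (hη : 0 ≤ η) (h : ∀ a ∈ D, ∀ x u v, |fderiv ℝ B a x u v| ≤ η * ‖x‖ * ‖u‖ * ‖v‖) {a b : Cn n}
    (ha : a ∈ D) (hb : b ∈ D) (u : Cn n) : B b u u ≤ B a u u + η * ‖u‖ ^ 2 * ‖b - a‖ := by
  have := hD.norm_image_sub_le_of_norm_hasFDerivWithin_le (C := η * ‖u‖ ^ 2)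
    (fun x hx => (((hd x hx).hasFDerivAt.clm_apply (hasFDerivAt_const u x)).clm_apply
      (hasFDerivAt_const u x)).hasFDerivWithinAt)
    (fun x hx => ContinuousLinearMap.opNorm_le_bound _ (by positivity) fun y => by
      simpa using (h x hx y u u).trans_eq (by ring)) ha hb
  linarith [(le_abs_self _).trans this]

theorem lap_le {a W u : Cn n} {η κ N C w φ l θ x : ℝ} (hH : IsH (B a)) (hη : 0 ≤ η) (hη1 : η ≤ 1)
    (hκ : 0 ≤ κ) (hN : 1 ≤ N) (hC : 0 < C)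
    (h1 : ∀ x u v, |fderiv ℝ B a x u v| ≤ η * ‖x‖ * ‖u‖ * ‖v‖)
    (h2 : ∀ Y X, fderiv ℝ (fderiv ℝ B) a Y Y X X ≤
      fderiv ℝ (fderiv ℝ B) 0 Y Y X X + η * ‖Y‖ ^ 2 * ‖X‖ ^ 2)
    (h3 : ∀ X Y, (fderiv ℝ (fderiv ℝ B) 0 Y Y + fderiv ℝ (fderiv ℝ B) 0 (I • Y) (I • Y)) X X ≤
      -κ * ‖Y‖ ^ 2 * ‖X‖ ^ 2) (hw : ‖W‖ ^ 2 ≤ N * w) (hw' : w ≤ C * ‖W‖ ^ 2) (hW : B a W W ≤ 2 * w)
    (hu : ‖u‖ ≤ N) (hu' : B a u u ≤ C * ‖u‖ ^ 2) (hu0 : 0 ≤ B a u u) (hl : 0 ≤ l) (hφ : l ≤ φ)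
    (hφ' : φ ≤ 1) (hθ : 0 ≤ θ) (hx : θ ≤ x) :
    lap B a (φ • W) u (-(θ • W)) ≤ w * (12 * x ^ 2 + 6 * η * N ^ 4) - κ * l ^ 2 / C ^ 2 * w * B a u u := by
  have hI : ∀ v : Cn n, ‖I • v‖ = ‖v‖ := fun v => by simp [norm_smul]
  have hx0 := hθ.trans hx
  have hw0 : 0 ≤ w := nonneg_of_mul_nonneg_right ((sq_nonneg _).trans hw) (by linarith)
  have n1 : ‖φ • W‖ = φ * ‖W‖ := by rw [norm_smul, Real.norm_of_nonneg (hl.trans hφ)]
  have n2 : ‖-(θ • W)‖ = θ * ‖W‖ := by rw [norm_neg, norm_smul, Real.norm_of_nonneg hθ]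
  have a1 := h2 (φ • W) u
  have a2 := h2 (I • φ • W) u
  have a3 := h3 u (φ • W)
  have a4 := (le_abs_self _).trans (h1 (φ • W) (-(θ • W)) u)
  have a5 := (le_abs_self _).trans (h1 (φ • W) u (-(θ • W)))
  have a6 := (le_abs_self _).trans (h1 (I • φ • W) (I • -(θ • W)) u)
  have a7 := (le_abs_self _).trans (h1 (I • φ • W) u (I • -(θ • W)))
  have a8 : B a (-(θ • W)) (-(θ • W)) = θ ^ 2 * B a W W := by simp; ring
  rw [lap, hH.inv, a8]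
  simp only [hI, n1, n2, add_apply] at *
  have b1 : η * (φ * ‖W‖) ^ 2 * ‖u‖ ^ 2 ≤ η * N ^ 4 * w := by
    calc _ = η * φ ^ 2 * ‖W‖ ^ 2 * ‖u‖ ^ 2 := by ring
      _ ≤ η * 1 ^ 2 * (N * w) * N ^ 2 := by gcongr; exact hl.trans hφ
      _ = η * N ^ 3 * w := by ring
      _ ≤ _ := by gcongr; norm_num
  have b2 : η * (φ * ‖W‖) * (θ * ‖W‖) * ‖u‖ ≤ (x ^ 2 + η * N ^ 4) / 2 * w := by
    calc _ = η * φ * θ * ‖W‖ ^ 2 * ‖u‖ := by ring
      _ ≤ η * 1 * x * (N * w) * N := by gcongr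
      _ = x * (η * N ^ 2) * w := by ring
      _ ≤ _ := by
        gcongr
        nlinarith [sq_nonneg (x - η * N ^ 2), mul_le_mul_of_nonneg_right hη1
          (show 0 ≤ η * N ^ 4 by positivity)]
  have b3 : θ ^ 2 * B a W W ≤ x ^ 2 * (2 * w) := by
    calc _ ≤ θ ^ 2 * (2 * w) := by gcongr
      _ ≤ _ := by gcongr
  have b4 : κ * l ^ 2 / C ^ 2 * w * B a u u ≤ κ * (φ * ‖W‖) ^ 2 * ‖u‖ ^ 2 := by
    calc _ ≤ κ * φ ^ 2 / C ^ 2 * (C * ‖W‖ ^ 2) * (C * ‖u‖ ^ 2) := by gcongr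
      _ = _ := by field_simp
  nlinarith

variable {M : Type} [MetricSpace M] [ChartedSpace (Cn n) M]
  [Bundle.RiemannianBundle fun x : M => TangentSpace 𝓘(ℝ, Cn n) x] [IsManifold 𝓘(ℂ, Cn n) ω M]
  [IsRiemannianManifold 𝓘(ℝ, Cn n) M]

theorem dist_le_integral' {f : Cn n → M} {c c' : ℝ → Cn n} {σ : ℝ → ℝ}
    (hf : ∀ t ∈ Icc (0 : ℝ) 1, IsLoc n f (c t)) (hd : ∀ t ∈ Icc (0 : ℝ) 1, HasDerivAt c (c' t) t)
    (hc : ContinuousOn c' (Icc 0 1)) (hσ : ContinuousOn σ (Icc 0 1))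
    (hle : ∀ t ∈ Icc (0 : ℝ) 1, √(Bm f (c t) (c' t) (c' t)) ≤ σ t) :
    dist (f (c 0)) (f (c 1)) ≤ ∫ t in 0..1, σ t :=
  dist_le_integral zero_le_one (fun t ht => (hf t ht).1)
    ((contDiffOn_one_iff_derivWithin (uniqueDiffOn_Icc zero_lt_one)).2
      ⟨fun t ht => (hd t ht).differentiableAt.differentiableWithinAt, hc.congr fun t ht =>
        (hd t ht).hasDerivWithinAt.derivWithin (uniqueDiffOn_Icc zero_lt_one t ht)⟩)
    (fun t ht => hd t (Ioo_subset_Icc_self ht)) hσ fun t ht => hle t (Ioo_subset_Icc_self ht)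

variable [IsManifold 𝓘(ℝ, Cn n) ∞ M]

theorem exists_chart_path (hK : IsKaehler n M) {f : Cn n → M} {κ : M → Cn n} {x y : M} {r : ℝ}
    (h : dist x y < r) (hV : ∀ z ∈ ball x r, f (κ z) = z ∧ IsLoc n κ z ∧ IsLoc n f (κ z)) :
    ∃ c c' : ℝ → Cn n, c 0 = κ x ∧ c 1 = κ y ∧
      (∀ t ∈ Icc (0 : ℝ) 1, c t ∈ κ '' ball x r ∧ HasDerivAt c (c' t) t) ∧
      ContinuousOn c' (Icc 0 1) ∧ ∫ t in 0..1, √(Bm f (c t) (c' t) (c' t)) ≤ r := by
  obtain ⟨γ, g0, g1, g2, g3, g4⟩ := exists_path n h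
  have h1 : ∀ t ∈ Icc (0 : ℝ) 1, γ t ∈ ball x r := fun t ht =>
    mem_ball'.2 (by linarith [g4 t ht, dist_nonneg (x := γ t) (y := y)])
  have h2 : ∀ t ∈ Icc (0 : ℝ) 1, ContDiffAt ℝ 1 (κ ∘ γ) t := fun t ht => by
    set e := chartAt (Cn n) (γ t)
    have a1 : γ t ∈ e.source := mem_chart_source _ _
    have a2 : IsLoc n (κ ∘ e.symm) (e (γ t)) := IsLoc.comp
      (by rw [e.left_inv a1]; exact (hV _ (h1 t ht)).2.1) (isLoc_chart_symm (e.map_source a1))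
    have a3 := ((contMDiffAt_of_mem_maximalAtlas (I := 𝓘(ℝ, Cn n)) (n := 1)
      (IsManifold.chart_mem_maximalAtlas _) a1).comp t (g2 t)).contDiffAt
    refine (((contDiffAt_of_eventually (a2.1.mono fun w hw => hw.differentiableAt)
      1).restrict_scalars ℝ).comp t a3).congr_of_eventuallyEq ?_
    filter_upwards [g2.continuous.continuousAt.eventually (e.open_source.eventually_mem a1)]
      with s hs
    simp only [comp_apply]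
    rw [e.left_inv hs]
  have h3 := fun t ht => ((h2 t ht).differentiableAt one_ne_zero).hasDerivAt
  have h4 : ContinuousOn (deriv (κ ∘ γ)) (Icc 0 1) := fun t ht =>
    (((h2 t ht).continuousAt_fderiv one_ne_zero).clm_apply continuousAt_const).continuousWithinAt
  refine ⟨κ ∘ γ, deriv (κ ∘ γ), by simp [g0], by simp [g1],
    fun t ht => ⟨mem_image_of_mem _ (h1 t ht), h3 t ht⟩, h4, ?_⟩
  have h5 : ContinuousOn (fun t => √(Bm f ((κ ∘ γ) t) (deriv (κ ∘ γ) t) (deriv (κ ∘ γ) t)))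
      (Icc 0 1) := ((ContinuousOn.clm_apply (fun t ht => ((hK.diff (hV _ (h1 t ht)).2.2).continuousAt.comp
        (f := κ ∘ γ) (h3 t ht).continuousAt).continuousWithinAt)
          h4).clm_apply h4).sqrt
  rw [intervalIntegral.integral_of_le zero_le_one, ← integral_Icc_eq_integral_Ioc,
    ← ENNReal.ofReal_le_ofReal_iff (dist_nonneg.trans h.le), ofReal_integral_eq_lintegral_ofReal
      h5.integrableOn_Icc (.of_forall fun t => Real.sqrt_nonneg _)]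
  refine le_of_eq_of_le ?_ g3.le
  rw [pathELength_eq_lintegral_mfderiv_Icc]
  refine setLIntegral_congr_fun measurableSet_Icc fun t ht => ?_
  have h6 : f ∘ κ ∘ γ =ᶠ[𝓝 t] γ := (g2.continuous.continuousAt.eventually
    (isOpen_ball.eventually_mem (h1 t ht))).mono fun s hs => (hV _ hs).1
  rw [← enorm_mfderiv (hV _ (h1 t ht)).2.2.md (h3 t ht)]
  have key : ∀ (p q : M) (v : Cn n), p = q → ‖(show TangentSpace 𝓘(ℝ, Cn n) p from v)‖ₑ =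
      ‖(show TangentSpace 𝓘(ℝ, Cn n) q from v)‖ₑ := by rintro p q v rfl; rfl
  exact (key _ _ _ h6.self_of_nhds).trans (by rw [h6.mfderiv_eq]; rfl)

end Pool.Agent.Lib.MP_124863_gt
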