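import Mathlib

/-! Curves of Hermitian metrics with nonnegative curvature. -/

open scoped Matrix Matrix.Norms.Operator ComplexOrder MatrixOrder Topology
open Set Filter

namespace Pool.Agent.Lib.MP_124863_gt

variable {n : ℕ}

/-- Complex square matrices. -/
abbrev Mt (n : ℕ) : Type := Matrix (Fin n) (Fin n) ℂ

/-- The real part of the sesquilinear form of a matrix. -/
noncomputable def fm (x y : Fin n → ℂ) : Mt n →ₗ[ℝ] ℝ where
  toFun A := (star x ⬝ᵥ A *ᵥ y).re
  map_add' A B := by simp [Matrix.add_mulVec]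
  map_smul' r A := by simp [Matrix.smul_mulVec]

theorem fm_apply (x y : Fin n → ℂ) (A : Mt n) : fm x y A = (star x ⬝ᵥ A *ᵥ y).re := rfl

theorem fm_mul (x y : Fin n → ℂ) (A B C : Mt n) :
    fm (B *ᵥ x) (C *ᵥ y) A = fm x y (Bᴴ * A * C) := by
  simp only [fm_apply, Matrix.star_mulVec, Matrix.dotProduct_mulVec, Matrix.vecMul_vecMul]

theorem fm_left (x y : Fin n → ℂ) (A B : Mt n) : fm (B *ᵥ x) y A = fm x y (Bᴴ * A) := by
  simpa using fm_mul x y A B 1

theorem fm_right (x y : Fin n → ℂ) (A C : Mt n) : fm x (C *ᵥ y) A = fm x y (A * C) := by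
  simpa using fm_mul x y A 1 C

theorem fm_symm {A : Mt n} (h : A.IsHermitian) (x y : Fin n → ℂ) : fm x y A = fm y x A := by
  rw [fm_apply, fm_apply, Matrix.star_dotProduct, Matrix.star_mulVec, h.eq, ← Matrix.dotProduct_mulVec,
    Complex.star_def, Complex.conj_re]

theorem fm_add_smul (A : Mt n) (x y : Fin n → ℂ) (r : ℝ) : fm (y + r • x) (y + r • x) A =
    fm y y A + r * (fm x y A + fm y x A) + r ^ 2 * fm x x A := by
  simp [fm_apply, Matrix.mulVec_add, Matrix.mulVec_smul]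
  ring

theorem fm_nonneg {A : Mt n} (h : A.PosDef) (x : Fin n → ℂ) : 0 ≤ fm x x A :=
  h.posSemidef.re_dotProduct_nonneg x

theorem fm_pos {A : Mt n} (h : A.PosDef) {x : Fin n → ℂ} (hx : x ≠ 0) : 0 < fm x x A :=
  h.re_dotProduct_pos hx

theorem fm_cs {A : Mt n} (h : A.PosDef) (x y : Fin n → ℂ) :
    fm x y A ^ 2 ≤ fm x x A * fm y y A := by
  have := discrim_le_zero (a := fm x x A) (b := 2 * fm x y A) (c := fm y y A) fun r => by
    have := fm_nonneg h (y + r • x)
    rw [fm_add_smul, fm_symm h.1 y x] at this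
    linarith
  rw [discrim] at this
  linarith

theorem hasDerivAt_fm {A : ℝ → Mt n} {A' : Mt n} {t : ℝ} (h : HasDerivAt A A' t)
    (x y : Fin n → ℂ) : HasDerivAt (fun s => fm x y (A s)) (fm x y A') t :=
  (LinearMap.toContinuousLinearMap (fm x y)).hasFDerivAt.comp_hasDerivAt t h

theorem hasDerivAt_inv {A : ℝ → Mt n} {A' : Mt n} {t : ℝ} (h : HasDerivAt A A' t)
    (hu : IsUnit (A t)) : HasDerivAt (fun s => (A s)⁻¹) (-((A t)⁻¹ * A' * (A t)⁻¹)) t := by
  have := (hasFDerivAt_ringInverse (𝕜 := ℝ) hu.unit).comp_hasDerivAt t h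
  simp only [Matrix.nonsing_inv_eq_ringInverse]
  rw [← Ring.inverse_unit] at this
  exact this

/-- A curve of metrics on the set `S` of times. -/
structure Cv (S : Set ℝ) (G G1 G2 : ℝ → Mt n) : Prop where
  d1 : ∀ t ∈ S, HasDerivAt G (G1 t) t
  d2 : ∀ t ∈ S, HasDerivAt G1 (G2 t) t
  pos : ∀ t ∈ S, (G t).PosDef
  h1 : ∀ t ∈ S, (G1 t).IsHermitian
  curv : ∀ t ∈ S, ∀ x, 0 ≤ fm x x (-G2 t + G1 t * (G t)⁻¹ * G1 t)

variable {S : Set ℝ} {G G1 G2 : ℝ → Mt n}

/-- The logarithmic derivative of the dual metric. -/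
noncomputable def rt (G G1 : ℝ → Mt n) (v : Fin n → ℂ) (t : ℝ) : ℝ :=
  -fm v v ((G t)⁻¹ * G1 t * (G t)⁻¹) / fm v v (G t)⁻¹

theorem Cv.log_deriv (h : Cv S G G1 G2) {v : Fin n → ℂ} (hv : v ≠ 0) {t : ℝ} (ht : t ∈ S) :
    HasDerivAt (fun s => Real.log (fm v v (G s)⁻¹)) (rt G G1 v t) t := by
  have := (hasDerivAt_fm (hasDerivAt_inv (h.d1 t ht) (h.pos t ht).isUnit) v v).log
    (fm_pos (h.pos t ht).inv hv).ne'
  rwa [map_neg] at this

theorem Cv.rt_deriv (h : Cv S G G1 G2) {v : Fin n → ℂ} (hv : v ≠ 0) {t : ℝ} (ht : t ∈ S) :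
    ∃ r, HasDerivAt (rt G G1 v) r t ∧ fm ((G t)⁻¹ *ᵥ v) ((G t)⁻¹ *ᵥ v)
      (-G2 t + G1 t * (G t)⁻¹ * G1 t) / fm v v (G t)⁻¹ ≤ r := by
  have hi := hasDerivAt_inv (h.d1 t ht) (h.pos t ht).isUnit
  have hq := fm_pos (h.pos t ht).inv hv
  have hH := (h.pos t ht).inv.1.eq
  have hu := (Matrix.isUnit_iff_isUnit_det _).1 (h.pos t ht).isUnit
  refine ⟨_, (hasDerivAt_fm ((hi.mul (h.d2 t ht)).mul hi) v v).neg.div (hasDerivAt_fm hi v v)
    hq.ne', ?_⟩
  have cs := fm_cs (h.pos t ht) ((G t)⁻¹ *ᵥ v) (((G t)⁻¹ * G1 t * (G t)⁻¹) *ᵥ v)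
  simp only [fm_mul, Matrix.conjTranspose_mul, hH, (h.h1 t ht).eq, mul_assoc,
    Matrix.mul_nonsing_inv_cancel_left _ _ hu, Matrix.mul_nonsing_inv _ hu, mul_one] at cs
  simp only [fm_mul, hH, Pi.mul_apply, Pi.neg_apply, add_mul, mul_neg, neg_mul, map_add,
    map_neg, mul_assoc]
  rw [div_le_div_iff₀ hq (by positivity)]
  nlinarith [mul_le_mul_of_nonneg_left cs hq.le]

theorem Cv.rt_mono (h : Cv S G G1 G2) (hS : Convex ℝ S) (_ : IsOpen S) {v : Fin n → ℂ}
    (hv : v ≠ 0) : MonotoneOn (rt G G1 v) S := by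
  refine monotoneOn_of_deriv_nonneg hS
    (fun t ht => (h.rt_deriv hv ht).choose_spec.1.continuousAt.continuousWithinAt)
    (fun t ht => (h.rt_deriv hv (interior_subset ht)).choose_spec.1.differentiableAt
      |>.differentiableWithinAt) fun t ht => ?_
  obtain ⟨r, h1, h2⟩ := h.rt_deriv hv (interior_subset ht)
  rw [h1.deriv]
  exact (div_nonneg (h.curv t (interior_subset ht) _)
    (fm_nonneg (h.pos t (interior_subset ht)).inv v)).trans h2

/-- Lower bound for the dual metric from a lower bound of the logarithmic derivative. -/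
theorem Cv.lower (h : Cv S G G1 G2) (hS : Convex ℝ S) (ho : IsOpen S) {v : Fin n → ℂ}
    {a b k : ℝ} (ha : a ∈ S) (hb : b ∈ S) (hab : a ≤ b) (hk : v ≠ 0 → -k ≤ rt G G1 v a) :
    Real.exp (-k * (b - a)) * fm v v (G a)⁻¹ ≤ fm v v (G b)⁻¹ := by
  rcases eq_or_ne v 0 with rfl | hv
  · simp [fm_apply]
  have hs : Icc a b ⊆ S := hS.ordConnected.out ha hb
  have := (convex_Icc a b).mul_sub_le_image_sub_of_le_deriv
    (f := fun s => Real.log (fm v v (G s)⁻¹)) (C := -k)
    (fun t ht => (h.log_deriv hv (hs ht)).continuousAt.continuousWithinAt)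
    (fun t ht => (h.log_deriv hv (hs (interior_subset ht))).differentiableAt.differentiableWithinAt)
    (fun t ht => by
      rw [(h.log_deriv hv (hs (interior_subset ht))).deriv]
      exact (hk hv).trans (h.rt_mono hS ho hv ha (hs (interior_subset ht)) (interior_subset ht).1))
    a (left_mem_Icc.2 hab) b (right_mem_Icc.2 hab) hab
  rw [← Real.exp_log (fm_pos (h.pos a ha).inv hv), ← Real.exp_log (fm_pos (h.pos b hb).inv hv),
    ← Real.exp_add]
  exact Real.exp_le_exp.2 (by linarith)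

/-- The logarithmic derivative is bounded below by an earlier slope. -/
theorem Cv.slope_le (h : Cv S G G1 G2) (hS : Convex ℝ S) (ho : IsOpen S) {v : Fin n → ℂ}
    (hv : v ≠ 0) {a b : ℝ} (ha : a ∈ S) (hb : b ∈ S) (hab : a ≤ b) :
    Real.log (fm v v (G b)⁻¹) - Real.log (fm v v (G a)⁻¹) ≤ rt G G1 v b * (b - a) := by
  have hs : Icc a b ⊆ S := hS.ordConnected.out ha hb
  exact (convex_Icc a b).image_sub_le_mul_sub_of_deriv_le
    (f := fun s => Real.log (fm v v (G s)⁻¹))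
    (fun t ht => (h.log_deriv hv (hs ht)).continuousAt.continuousWithinAt)
    (fun t ht => (h.log_deriv hv (hs (interior_subset ht))).differentiableAt.differentiableWithinAt)
    (fun t ht => by
      rw [(h.log_deriv hv (hs (interior_subset ht))).deriv]
      exact h.rt_mono hS ho hv (hs (interior_subset ht)) hb (interior_subset ht).2)
    a (left_mem_Icc.2 hab) b (right_mem_Icc.2 hab) hab

/-- Inversion reverses inequalities between metrics. -/
theorem fm_le_of_inv {A B : Mt n} (hA : A.PosDef) (hB : B.PosDef) {c : ℝ} (hc : 0 < c)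
    (h : ∀ v, c * fm v v B⁻¹ ≤ fm v v A⁻¹) (x : Fin n → ℂ) : c * fm x x A ≤ fm x x B := by
  have hu := (Matrix.isUnit_iff_isUnit_det _).1 hA.isUnit
  have hw := (Matrix.isUnit_iff_isUnit_det _).1 hB.isUnit
  have h1 := h (A *ᵥ x)
  have h2 := fm_cs hB (B⁻¹ *ᵥ (A *ᵥ x)) x
  rw [fm_mul (A *ᵥ x), fm_left (A *ᵥ x), hB.inv.1.eq, Matrix.nonsing_inv_mul _ hw, one_mul,
    fm_left, hA.1.eq, mul_one] at h2
  rw [fm_mul x x A⁻¹, hA.1.eq, Matrix.mul_nonsing_inv _ hu, one_mul] at h1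
  rcases (fm_nonneg hA x).eq_or_lt with h3 | h3
  · rw [← h3, mul_zero]; exact fm_nonneg hB x
  · nlinarith [fm_nonneg hB x, mul_le_mul_of_nonneg_right h1 (fm_nonneg hB x)]

theorem exists_diag {A B : Mt n} (hA : A.PosDef) (hB : B.IsHermitian) :
    ∃ (V : Mt n) (d : Fin n → ℝ), IsUnit V ∧ Vᴴ * A * V = 1 ∧
      Vᴴ * B * V = Matrix.diagonal fun i => (d i : ℂ) := by
  obtain ⟨R, rfl⟩ := CStarAlgebra.nonneg_iff_eq_star_mul_self.mp hA.posSemidef.nonneg
  have hR : IsUnit R := isUnit_of_mul_isUnit_right hA.isUnit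
  have hu := (Matrix.isUnit_iff_isUnit_det _).1 hR
  have hC := Matrix.isHermitian_conjTranspose_mul_mul R⁻¹ hB
  have h1 := hC.conjStarAlgAut_star_eigenvectorUnitary
  rw [Unitary.conjStarAlgAut_star_apply] at h1
  refine ⟨R⁻¹ * hC.eigenvectorUnitary, hC.eigenvalues, (Matrix.isUnit_nonsing_inv_iff.2 hR).mul
    (Unitary.isUnit_coe), ?_, ?_⟩
  · rw [Matrix.conjTranspose_mul, Matrix.star_eq_conjTranspose]
    calc _ = (hC.eigenvectorUnitary : Mt n)ᴴ * ((R * R⁻¹)ᴴ * (R * R⁻¹)) *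
          hC.eigenvectorUnitary := by rw [Matrix.conjTranspose_mul]; noncomm_ring
      _ = 1 := by
        rw [Matrix.mul_nonsing_inv _ hu, Matrix.conjTranspose_one, mul_one, mul_one]
        exact Unitary.coe_star_mul_self _
  · rw [Matrix.conjTranspose_mul]
    exact Eq.trans (by rw [Matrix.star_eq_conjTranspose]; noncomm_ring) h1

theorem fm_diag (d : Fin n → ℝ) (y : Fin n → ℂ) :
    fm y y (Matrix.diagonal fun i => (d i : ℂ)) = ∑ i, d i * ‖y i‖ ^ 2 := by
  simp only [fm_apply, dotProduct, Matrix.mulVec_diagonal, Complex.re_sum, Pi.star_apply]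
  refine Finset.sum_congr rfl fun i _ => ?_
  rw [mul_left_comm, Complex.star_def, Complex.conj_mul', ← Complex.ofReal_pow,
    ← Complex.ofReal_mul, Complex.ofReal_re]

/-- A spectral gap appears for large times. -/
theorem Cv.gap (h : Cv univ G G1 G2) : ∃ T c : ℝ, 0 < c ∧ ∀ t ≥ T, IsUnit (-G1 t - c • G t) ∧
    ∀ u, 0 ≤ fm u u (G1 t * (G t)⁻¹ * G1 t) + c * fm u u (G1 t) := by
  classical
  let P : ℕ → Prop := fun k => ∃ (t : ℝ) (W : Submodule ℂ (Fin n → ℂ)), Module.finrank ℂ W = k ∧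
    ∀ v ∈ W, v ≠ 0 → 0 < rt G G1 v t
  have hP : ∀ k, P k → k ≤ Nat.findGreatest P n := fun k hk => Nat.le_findGreatest
    (by obtain ⟨_, W, rfl, -⟩ := hk; simpa using W.finrank_le) hk
  obtain ⟨T, W, hW, h1⟩ : P (Nat.findGreatest P n) :=
    Nat.findGreatest_spec (Nat.zero_le n) ⟨0, ⊥, by simp, by simp⟩
  have hr : ∀ (r : ℝ) (v : Fin n → ℂ), r ≠ 0 → rt G G1 (r • v) T = rt G G1 v T := fun r v hr => by
    have e : ∀ A, fm (r • v) (r • v) A = r ^ 2 * fm v v A := fun A => by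
      simpa [fm_apply] using fm_add_smul A v 0 r
    rw [rt, rt, e, e, ← mul_neg, mul_div_mul_left _ _ (pow_ne_zero 2 hr)]
  obtain ⟨δ, hδ, h2⟩ : ∃ δ > 0, ∀ v ∈ W, v ≠ 0 → δ ≤ rt G G1 v T := by
    have hc : ∀ A : Mt n, Continuous fun v : Fin n → ℂ => fm v v A := fun A => by
      simp only [fm_apply]; fun_prop
    obtain ⟨δ, hδ, h2⟩ := ((isCompact_sphere (0 : Fin n → ℂ) 1).inter_right
      W.closed_of_finiteDimensional).exists_forall_le' (f := fun v => rt G G1 v T) (a := 0)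
      ((hc _).neg.continuousOn.div (hc _).continuousOn fun v hv =>
        (fm_pos (h.pos T trivial).inv (ne_zero_of_mem_unit_sphere ⟨v, hv.1⟩)).ne')
      fun v hv => h1 v hv.2 (ne_zero_of_mem_unit_sphere ⟨v, hv.1⟩)
    refine ⟨δ, hδ, fun v hv h0 => ?_⟩
    rw [← hr ‖v‖⁻¹ v (inv_ne_zero (norm_ne_zero_iff.2 h0))]
    exact h2 _ ⟨by simp [norm_smul, inv_mul_cancel₀ (norm_ne_zero_iff.2 h0)],
      W.smul_of_tower_mem _ hv⟩
  refine ⟨T, δ / 2, by positivity, fun t ht => ?_⟩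
  obtain ⟨V, d, hV, e1, e2⟩ := exists_diag (h.pos t trivial) (h.h1 t trivial).neg
  have hu := (Matrix.isUnit_iff_isUnit_det _).1 (h.pos t trivial).isUnit
  have hGV := (h.pos t trivial).isUnit.mul hV
  have e3 : (G t)⁻¹ = V * Vᴴ := Matrix.inv_eq_right_inv (by
    rw [← mul_assoc, mul_eq_one_comm, ← mul_assoc, e1])
  have e4 : ∀ y, rt G G1 ((G t * V) *ᵥ y) t = (∑ i, d i * ‖y i‖ ^ 2) / ∑ i, ‖y i‖ ^ 2 := fun y => by
    have a1 := fm_diag d y
    have a2 := fm_diag (fun _ => 1) y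
    rw [← e2] at a1
    simp only [Complex.ofReal_one, Matrix.diagonal_one, one_mul] at a2
    rw [← a1, ← a2, ← e1, rt, fm_mul, fm_mul, ← map_neg, Matrix.conjTranspose_mul,
      (h.pos t trivial).1.eq]
    simp only [mul_assoc, Matrix.mul_nonsing_inv_cancel_left _ _ hu,
      Matrix.nonsing_inv_mul_cancel_left _ _ hu, mul_neg, neg_mul]
  have hs : ∀ y : Fin n → ℂ, y ≠ 0 → ∃ i, 0 < ‖y i‖ ^ 2 := fun y hy => by
    obtain ⟨i, hi⟩ := Function.ne_iff.1 hy
    exact ⟨i, pow_pos (norm_pos_iff.2 hi) 2⟩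
  have hs' : ∀ y : Fin n → ℂ, y ≠ 0 → 0 < ∑ i, ‖y i‖ ^ 2 := fun y hy =>
    Finset.sum_pos' (fun _ _ => by positivity) ((hs y hy).imp fun i hi => ⟨Finset.mem_univ i, hi⟩)
  have c1 : Fintype.card {i // 0 < d i} ≤ Module.finrank ℂ W := by
    let e := (Matrix.toLin' (G t * V)) ∘ₗ Function.ExtendByZero.linearMap ℂ
      (Subtype.val : {i // 0 < d i} → Fin n)
    have hy : ∀ y : {i // 0 < d i} → ℂ, Function.extend Subtype.val y 0 = 0 → y = 0 :=
      fun y hy => funext fun i => by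
        simpa [Subtype.val_injective.extend_apply] using congrFun hy i
    have he : Function.Injective e := (injective_iff_map_eq_zero e).2 fun y h0 =>
      hy y (Matrix.mulVec_injective_of_isUnit hGV (h0.trans (Matrix.mulVec_zero _).symm))
    rw [hW, ← Module.finrank_fintype_fun_eq_card ℂ, ← LinearMap.finrank_range_of_inj he]
    refine hP _ ⟨t, _, rfl, ?_⟩
    rintro _ ⟨y, rfl⟩ h0
    have h3 : Function.extend Subtype.val y 0 ≠ 0 := fun h3 => h0 (by rw [hy y h3, map_zero])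
    refine (div_pos ?_ (hs' _ h3)).trans_eq (e4 _).symm
    have h4 : ∀ i, ¬ 0 < d i → Function.extend Subtype.val y (0 : Fin n → ℂ) i = 0 := fun i hi =>
      Function.extend_apply' _ _ _ fun ⟨j, hj⟩ => hi (hj ▸ j.2)
    obtain ⟨i, hi⟩ := hs _ h3
    refine Finset.sum_pos' (fun j _ => ?_) ⟨i, Finset.mem_univ i, mul_pos ?_ hi⟩
    · by_cases hj : 0 < d j
      · positivity
      · simp [h4 j hj]
    · by_contra hj
      simp [h4 i hj] at hi
  have c2 : Module.finrank ℂ W ≤ Fintype.card {i // δ ≤ d i} := by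
    let e := LinearMap.funLeft ℂ ℂ (Subtype.val : {i // δ ≤ d i} → Fin n) ∘ₗ
      Matrix.toLin' (G t * V)⁻¹ ∘ₗ W.subtype
    rw [← Module.finrank_fintype_fun_eq_card ℂ]
    refine LinearMap.finrank_le_finrank_of_injective (f := e)
      ((injective_iff_map_eq_zero e).2 fun v h0 => by_contra fun hv => ?_)
    have hv' : (v : Fin n → ℂ) ≠ 0 := fun h => hv (Subtype.ext h)
    have a1 : (G t * V) *ᵥ ((G t * V)⁻¹ *ᵥ v) = v := by
      rw [Matrix.mulVec_mulVec, Matrix.mul_nonsing_inv _ ((Matrix.isUnit_iff_isUnit_det _).1 hGV),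
        Matrix.one_mulVec]
    have a2 := (h2 v v.2 hv').trans (h.rt_mono convex_univ isOpen_univ hv' trivial trivial ht)
    have a3 : ∀ i, δ ≤ d i → ((G t * V)⁻¹ *ᵥ (v : Fin n → ℂ)) i = 0 := fun i hi =>
      congrFun h0 ⟨i, hi⟩
    rw [← a1, e4] at a2
    generalize (G t * V)⁻¹ *ᵥ (v : Fin n → ℂ) = y at a1 a2 a3
    have hy : y ≠ 0 := by rintro rfl; exact hv' (by simpa using a1.symm)
    rw [le_div_iff₀ (hs' y hy), Finset.mul_sum] at a2
    obtain ⟨i, hi⟩ := hs y hy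
    refine a2.not_gt (Finset.sum_lt_sum (fun j _ => ?_) ⟨i, Finset.mem_univ i,
      mul_lt_mul_of_pos_right (lt_of_not_ge fun hj => ?_) hi⟩)
    · rcases le_total δ (d j) with hj | hj
      · simp [a3 j hj]
      · gcongr
    · simp [a3 i hj] at hi
  have c3 : ∀ i, 0 < d i → δ ≤ d i := fun i hi => by
    have := Finset.eq_of_subset_of_card_le (s := Finset.univ.filter fun i => δ ≤ d i)
      (t := Finset.univ.filter fun i => 0 < d i) (fun j hj => by
        simp only [Finset.mem_filter, Finset.mem_univ, true_and] at hj ⊢; linarith)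
      (by simpa [Fintype.card_subtype] using c1.trans c2)
    simpa [hi] using Finset.ext_iff.1 this i
  have hd := (Matrix.isUnit_iff_isUnit_det _).1 hV
  constructor
  · have : Vᴴ * (-G1 t - (δ / 2) • G t) * V = Matrix.diagonal fun i => ((d i - δ / 2 : ℝ) : ℂ) := by
      rw [mul_sub, sub_mul, e2, mul_smul_comm, smul_mul_assoc, e1]
      ext i j
      by_cases hij : i = j <;> simp [hij]
    have h5 : IsUnit (Vᴴ * (-G1 t - (δ / 2) • G t) * V) := by
      rw [this, Matrix.isUnit_diagonal, Pi.isUnit_iff]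
      intro i
      rw [isUnit_iff_ne_zero, Complex.ofReal_ne_zero]
      intro h6
      linarith [c3 i (by linarith)]
    exact isUnit_of_mul_isUnit_right (isUnit_of_mul_isUnit_left h5)
  · intro u
    obtain ⟨y, rfl⟩ : ∃ y, u = V *ᵥ y := ⟨V⁻¹ *ᵥ u, by
      rw [Matrix.mulVec_mulVec, Matrix.mul_nonsing_inv _ hd, Matrix.one_mulVec]⟩
    have a1 : Vᴴ * (G1 t * (G t)⁻¹ * G1 t) * V =
        Matrix.diagonal fun i => ((d i * d i : ℝ) : ℂ) := by
      simp only [Complex.ofReal_mul]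
      rw [← Matrix.diagonal_mul_diagonal, ← e2, e3]
      noncomm_ring
    have a2 : Vᴴ * G1 t * V = -Matrix.diagonal fun i => (d i : ℂ) := by rw [← e2]; noncomm_ring
    rw [fm_mul, fm_mul, a1, a2, map_neg, fm_diag, fm_diag, mul_neg, Finset.mul_sum, ← sub_eq_add_neg,
      ← Finset.sum_sub_distrib]
    refine Finset.sum_nonneg fun i _ => ?_
    have : 0 ≤ d i * (d i - δ / 2) := by
      rcases le_or_gt (d i) 0 with hi | hi
      · nlinarith
      · nlinarith [c3 i hi]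
    nlinarith [sq_nonneg ‖y i‖]

/-- A constant vector of integrable squared length has integrable length. -/
theorem Cv.decay (h : Cv univ G G1 G2) (x : Fin n → ℂ) {μ : ℝ → ℝ} {m : ℝ}
    (hμ : ∀ t, HasDerivAt μ (fm x x (G t)) t) (hm : ∀ t, μ t ≤ m) :
    ∃ (T : ℝ) (Λ : ℝ → ℝ), ∀ t ≥ T, 0 ≤ Λ t ∧ ∃ l, HasDerivAt Λ l t ∧ l ≤ -√(fm x x (G t)) := by
  obtain ⟨T, c, hc, hg⟩ := h.gap
  let F : ℝ → ℝ := fun t => fm x x (G t * (-G1 t - c • G t)⁻¹ * G t)
  have key : ∀ t ≥ T, -c * F t ≤ fm x x (G t) ∧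
      ∃ l, HasDerivAt F l t ∧ l ≤ -fm x x (G t) - c * F t := fun t ht => by
    obtain ⟨hu, hN⟩ := hg t ht
    have hd := (Matrix.isUnit_iff_isUnit_det _).1 hu
    have hG := (h.pos t trivial).1
    have hdG := (Matrix.isUnit_iff_isUnit_det _).1 (h.pos t trivial).isUnit
    have hB : ((-G1 t - c • G t)⁻¹)ᴴ = (-G1 t - c • G t)⁻¹ :=
      ((h.h1 t trivial).neg.sub (by simp [Matrix.IsHermitian, hG.eq])).inv.eq
    have hD := hasDerivAt_fm (((h.d1 t trivial).mul (hasDerivAt_inv ((h.d2 t trivial).neg.sub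
      ((h.d1 t trivial).const_smul c)) hu)).mul (h.d1 t trivial)) x x
    obtain ⟨u, hx, hu'⟩ : ∃ u, x = (-((G t)⁻¹ * G1 t) - c • 1) *ᵥ u ∧
        ((-G1 t - c • G t)⁻¹ * G t) *ᵥ x = u := ⟨_, by
      rw [Matrix.mulVec_mulVec, show -((G t)⁻¹ * G1 t) - c • 1 = (G t)⁻¹ * (-G1 t - c • G t) by
        rw [mul_sub, mul_neg, mul_smul_comm, Matrix.nonsing_inv_mul _ hdG], mul_assoc,
        Matrix.mul_nonsing_inv_cancel_left _ _ hd, Matrix.nonsing_inv_mul _ hdG,
        Matrix.one_mulVec], rfl⟩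
    have hP : (-((G t)⁻¹ * G1 t) - c • (1 : Mt n))ᴴ = -(G1 t * (G t)⁻¹) - c • 1 := by
      simp [hG.inv.eq, (h.h1 t trivial).eq]
    have a1 : fm x x (G t) = fm u u (G1 t * (G t)⁻¹ * G1 t) + 2 * c * fm u u (G1 t) +
        c ^ 2 * fm u u (G t) := by
      rw [hx, fm_mul, hP]
      simp only [mul_sub, sub_mul, mul_neg, neg_mul, smul_mul_assoc, mul_smul_comm, mul_assoc,
        Matrix.mul_nonsing_inv_cancel_left _ _ hdG, Matrix.nonsing_inv_mul _ hdG, mul_one, one_mul,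
        map_sub, map_neg, map_smul, smul_eq_mul]
      ring
    have a2 : ∀ A, fm x u A = -fm u u (G1 t * (G t)⁻¹ * A) - c * fm u u A := fun A => by
      rw [hx, fm_left, hP]
      simp only [sub_mul, neg_mul, smul_mul_assoc, one_mul, map_sub, map_neg, map_smul, smul_eq_mul]
    have a3 : F t = -fm u u (G1 t) - c * fm u u (G t) := by
      have := a2 (G t)
      rwa [mul_assoc, Matrix.nonsing_inv_mul _ hdG, mul_one, ← hu', fm_right x, ← mul_assoc,
        hu'] at this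
    refine ⟨by nlinarith [hN u], _, hD, ?_⟩
    have a4 := fm_right x x (G1 t) ((-G1 t - c • G t)⁻¹ * G t)
    have a5 := fm_left x x (G1 t) ((-G1 t - c • G t)⁻¹ * G t)
    have a6 := fm_mul x x (-G2 t - c • G1 t) ((-G1 t - c • G t)⁻¹ * G t) ((-G1 t - c • G t)⁻¹ * G t)
    have a7 := h.curv t trivial u
    rw [hu', Matrix.conjTranspose_mul, hB, hG.eq] at a5 a6
    rw [hu'] at a4
    rw [fm_symm (h.h1 t trivial), a2] at a5
    rw [a2] at a4
    simp only [map_sub, map_neg, map_smul, smul_eq_mul, map_add] at a6 a7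
    simp only [Pi.mul_apply, Pi.sub_apply, Pi.neg_apply, Pi.smul_apply, add_mul, map_add, mul_neg,
      neg_mul, map_neg, mul_assoc] at a4 a5 a6 a7 a1 ⊢
    rw [← a4, ← a5, ← a6, a1, a3]
    nlinarith
  have hF : ∀ t ≥ T, 0 ≤ F t := fun t ht => by
    by_contra! hneg
    have h1 : AntitoneOn F (Ici T) := antitoneOn_of_deriv_nonpos (convex_Ici T)
      (fun s hs => (key s hs).2.choose_spec.1.continuousAt.continuousWithinAt)
      (fun s hs => (key s (interior_subset hs)).2.choose_spec.1.differentiableAt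
        |>.differentiableWithinAt) fun s hs => by
        obtain ⟨h1, l, h2, h3⟩ := key s (interior_subset hs)
        rw [h2.deriv]; linarith
    have hp : 0 < -c * F t := by nlinarith
    have h2 := (convex_Ici t).mul_sub_le_image_sub_of_le_deriv (f := μ) (C := -c * F t)
      (fun s _ => (hμ s).continuousAt.continuousWithinAt)
      (fun s _ => (hμ s).differentiableAt.differentiableWithinAt)
      (fun s hs => by
        have hs' : t ≤ s := interior_subset hs
        rw [(hμ s).deriv]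
        nlinarith [(key s (hs'.trans' ht)).1, h1 ht (hs'.trans' ht) hs'])
      t self_mem_Ici (t + (m - μ t + 1) / (-c * F t)) (by
        have := div_nonneg (show 0 ≤ m - μ t + 1 by linarith [hm t]) hp.le
        exact le_add_of_nonneg_right this) (by
        have := div_nonneg (show 0 ≤ m - μ t + 1 by linarith [hm t]) hp.le
        exact le_add_of_nonneg_right this)
    rw [add_sub_cancel_left, mul_div_cancel₀ _ hp.ne'] at h2
    linarith [hm (t + (m - μ t + 1) / (-c * F t))]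
  refine ⟨T, fun t => (Real.exp (c * t) * F t + Real.exp (-(c * t)) / c) / 2, fun t ht =>
    ⟨by have := hF t ht; positivity, ?_⟩⟩
  obtain ⟨-, l, h2, h3⟩ := key t ht
  have h4 := (hasDerivAt_id t).const_mul c
  refine ⟨_, ((h4.exp.mul h2).add (h4.neg.exp.div_const c)).div_const 2, ?_⟩
  have h5 := Real.sq_sqrt (fm_nonneg (h.pos t trivial) x)
  have h6 : Real.exp (c * t) * Real.exp (-(c * t)) = 1 := by rw [← Real.exp_add]; simp
  have h7 := Real.exp_pos (c * t)
  have h8 := Real.exp_pos (-(c * t))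
  simp only [id, mul_one, Pi.neg_apply, mul_neg, neg_div, mul_div_cancel_right₀ _ hc.ne']
  nlinarith [mul_le_mul_of_nonneg_left h3 h7.le,
    mul_nonneg h7.le (sq_nonneg (√(fm x x (G t)) - Real.exp (-(c * t))))]

end Pool.Agent.Lib.MP_124863_gt
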