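import Pool.Agent.Lib.MP_124863_gt.Hol
import Pool.Agent.Lib.MP_124863_gt.Mat

/-! The metric tensor in coordinates. -/

open scoped Manifold ContDiff Topology Matrix Bundle ComplexOrder
open Set Filter Function Complex

namespace Pool.Agent.Lib.MP_124863_gt

variable {n : ℕ}

/-- Real bilinear forms. -/
abbrev Bil (n : ℕ) : Type := Cn n →L[ℝ] Cn n →L[ℝ] ℝ

noncomputable instance : NormedAddCommGroup (Bil n) := inferInstance

noncomputable instance : NormedSpace ℝ (Bil n) := inferInstance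

/-! The next instances only shorten instance searches. -/

noncomputable instance : SMul ℂ (Cn n →L[ℝ] ℝ) := ⟨fun c B => c.re • B⟩

noncomputable instance : SMul ℂ (Bil n) := ⟨fun c B => c.re • B⟩

noncomputable instance : SMul ℂ (Cn n →L[ℝ] Bil n) := ⟨fun c B => c.re • B⟩

noncomputable instance : AddCommGroup (Bil n) := inferInstance

noncomputable instance : AddCommMonoid (Bil n) := inferInstance

noncomputable instance : NormedAddCommGroup (Cn n →L[ℝ] Bil n) := inferInstance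

noncomputable instance : NormedSpace ℝ (Cn n →L[ℝ] Bil n) := inferInstance

noncomputable instance : AddCommGroup (Cn n →L[ℝ] Bil n) := inferInstance

noncomputable instance : AddCommMonoid (Cn n →L[ℝ] Bil n) := inferInstance

noncomputable instance : AddMonoid (Bil n) := inferInstance

noncomputable instance : AddZeroClass (Bil n) := inferInstance

noncomputable instance : SeminormedAddCommGroup (Bil n) := inferInstance

noncomputable instance : Module ℝ (Bil n) := inferInstance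

noncomputable instance : SMul ℝ (Bil n) := inferInstance

noncomputable instance : AddMonoid (Cn n →L[ℝ] Bil n) := inferInstance

noncomputable instance : AddZeroClass (Cn n →L[ℝ] Bil n) := inferInstance

noncomputable instance : Module ℝ (Cn n →L[ℝ] Bil n) := inferInstance

noncomputable instance : SMul ℝ (Cn n →L[ℝ] Bil n) := inferInstance

/-- The matrix of a bilinear form. -/
noncomputable def hm : Bil n →ₗ[ℝ] Mt n where
  toFun B := Matrix.of fun i j => B (Pi.single i 1) (Pi.single j 1) +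
    I * B (Pi.single i 1) (Pi.single j I)
  map_add' A B := by ext i j; simp; ring
  map_smul' r A := by ext i j; simp; ring

/-- Symmetric forms that are invariant under the complex structure. -/
structure IsH (B : Bil n) : Prop where
  symm : ∀ u v, B u v = B v u
  inv : ∀ u v, B (I • u) (I • v) = B u v

theorem IsH.skew {B : Bil n} (h : IsH B) (u v : Cn n) : B (I • u) v = -B u (I • v) := by
  rw [← h.inv u (I • v), smul_smul, I_mul_I]
  simp

theorem smul_eq (c : ℂ) (u : Cn n) : c • u = c.re • u + c.im • I • u := by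
  ext i; simp only [Pi.add_apply, Pi.smul_apply, smul_eq_mul, real_smul]
  conv_lhs => rw [← re_add_im c]
  ring

theorem IsH.form {B : Bil n} (h : IsH B) (u v : Cn n) :
    u ⬝ᵥ hm B *ᵥ star v = B u v + I * B u (I • v) := by
  have e : ∀ u : Cn n, u = ∑ i, u i • (Pi.single i 1 : Cn n) := fun u => by
    ext j; simp [Finset.sum_apply, Pi.single_apply]
  have e1 : ∀ j, (Pi.single j I : Cn n) = I • Pi.single j 1 := fun j => by
    rw [← Pi.single_smul, smul_eq_mul, mul_one]
  have key : ∀ (a b : ℂ) (x y : Cn n), ((B (a • x) (b • y) : ℝ) : ℂ) + I * B (a • x) (I • b • y) =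
      a * ((B x y + I * B x (I • y)) * star b) := fun a b x y => by
    rw [smul_comm I b, smul_eq a, smul_eq b, smul_eq b, smul_smul I I, I_mul_I]
    simp only [map_add, map_smul, add_apply, smul_apply,
      h.skew, smul_smul, I_mul_I, neg_smul, one_smul, map_neg, smul_eq_mul]
    apply Complex.ext <;> simp <;> ring
  conv_rhs => rw [e u, e v]
  simp only [Finset.smul_sum, map_sum, sum_apply, ofReal_sum, Finset.mul_sum,
    ← Finset.sum_add_distrib, key, dotProduct, Matrix.mulVec, hm, LinearMap.coe_mk, AddHom.coe_mk,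
    Matrix.of_apply, e1, Pi.star_apply]
  exact Finset.sum_comm

theorem IsH.fm {B : Bil n} (h : IsH B) (x y : Cn n) : fm x y (hm B) = B (star x) (star y) := by
  have := h.form (star x) (star y)
  rw [star_star] at this
  rw [fm_apply, this]; simp

theorem IsH.herm {B : Bil n} (h : IsH B) : (hm B).IsHermitian := by
  have e1 : ∀ j, (Pi.single j I : Cn n) = I • Pi.single j 1 := fun j => by
    rw [← Pi.single_smul, smul_eq_mul, mul_one]
  ext i j
  simp only [Matrix.conjTranspose_apply, hm, LinearMap.coe_mk, AddHom.coe_mk, Matrix.of_apply, e1]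
  rw [h.symm (Pi.single j 1), h.symm (Pi.single j 1), h.skew]
  simp

theorem IsH.posDef {B : Bil n} (h : IsH B) (hp : ∀ u, u ≠ 0 → 0 < B u u) : (hm B).PosDef := by
  refine .of_dotProduct_mulVec_pos h.herm fun x hx => ?_
  have := h.form (star x) (star x)
  have h0 : B (star x) (I • star x) = 0 := by
    have := h.skew (star x) (star x)
    rw [h.symm] at this
    linarith
  rw [star_star, h0] at this
  rw [this]
  simpa using hp (star x) (by simpa using hx)

theorem IsH.fderiv {B : Cn n → Bil n} {z : Cn n} (h : ∀ᶠ w in 𝓝 z, IsH (B w))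
    (hd : DifferentiableAt ℝ B z) (Y : Cn n) : IsH (fderiv ℝ B z Y) := by
  have e : ∀ u v, _root_.fderiv ℝ B z Y u v = _root_.fderiv ℝ (fun w => B w u v) z Y :=
    fun u v => by
      rw [((hd.hasFDerivAt.clm_apply (hasFDerivAt_const u z)).clm_apply
        (hasFDerivAt_const v z)).fderiv]; simp
  constructor <;> intro u v <;> rw [e, e] <;> congr 1 <;> refine EventuallyEq.fderiv_eq ?_
  exacts [h.mono fun w hw => hw.symm u v, h.mono fun w hw => hw.inv u v]

theorem contDiffAt_clm {D F G : Type} [NormedAddCommGroup D] [NormedSpace ℝ D]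
    [NormedAddCommGroup F] [NormedSpace ℝ F] [FiniteDimensional ℝ F] [NormedAddCommGroup G]
    [NormedSpace ℝ G] {f : D → F →L[ℝ] G} {x : D} {k : ℕ∞ω}
    (h : ∀ y, ContDiffAt ℝ k (fun x => f x y) x) : ContDiffAt ℝ k f x := by
  let d := Module.finrank ℝ F
  have hd : d = Module.finrank ℝ (Fin d → ℝ) := (Module.finrank_fin_fun ℝ).symm
  let e₁ := ContinuousLinearEquiv.ofFinrankEq hd
  let e₂ := (e₁.arrowCongr (1 : G ≃L[ℝ] G)).trans (ContinuousLinearEquiv.piRing (Fin d))
  rw [← id_comp f, ← e₂.symm_comp_self]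
  exact e₂.symm.contDiff.contDiffAt.comp x (contDiffAt_pi.mpr fun i => h _)

/-- The curvature in terms of the derivatives of the metric tensor. -/
theorem bisec_eq {B : Cn n → Bil n} {z : Cn n} (h : ContDiffAt ℝ 2 B z) (X Y : Cn n) :
    4 * bisec (fun w => hm (B w)) z X Y = (X ⬝ᵥ (-hm (fderiv ℝ (fderiv ℝ B) z Y Y +
      fderiv ℝ (fderiv ℝ B) z (I • Y) (I • Y)) +
      (hm (fderiv ℝ B z Y) - I • hm (fderiv ℝ B z (I • Y))) * (hm (B z))⁻¹ *
        (hm (fderiv ℝ B z Y) + I • hm (fderiv ℝ B z (I • Y)))) *ᵥ star X).re := by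
  let E : Fin n → Fin n → Bil n →L[ℝ] ℂ := fun i j => LinearMap.toContinuousLinearMap (E := Bil n)
    ((Matrix.entryLinearMap ℝ ℂ i j).comp hm)
  have hE : ∀ i j A, hm A i j = E i j A := fun _ _ _ => rfl
  have d1 : ∀ i j w, DifferentiableAt ℝ B w → ∀ u, fderiv ℝ (fun w => hm (B w) i j) w u =
      hm (fderiv ℝ B w u) i j := fun i j w hw u => by
    rw [show (fun w => hm (B w) i j) = E i j ∘ B from rfl,
      ((E i j).hasFDerivAt.comp w hw.hasFDerivAt).fderiv]; rfl
  have h1 : ∀ᶠ w in 𝓝 z, DifferentiableAt ℝ B w :=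
    (h.eventually (by simp)).mono fun w hw => hw.differentiableAt (by simp)
  have h2 : DifferentiableAt ℝ (fderiv ℝ B) z :=
    (h.fderiv_right (m := 1) (by norm_num)).differentiableAt (by simp)
  have h3 := h.isSymmSndFDerivAt (by simp) Y (I • Y)
  have a1 : (Matrix.of fun i j => dz Y (dzb Y fun w => hm (B w) i j) z) =
      (1 / 4 : ℂ) • hm (fderiv ℝ (fderiv ℝ B) z Y Y + fderiv ℝ (fderiv ℝ B) z (I • Y) (I • Y)) := by
    ext i j
    have b1 : (dzb Y fun w => hm (B w) i j) =ᶠ[𝓝 z] fun w =>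
        (E i j (fderiv ℝ B w Y) + I * E i j (fderiv ℝ B w (I • Y))) / 2 :=
      h1.mono fun w hw => by simp only [dzb, d1 i j w hw, ← hE]
    have b2 := fun u => (E i j).hasFDerivAt.comp z (h2.hasFDerivAt.clm_apply (hasFDerivAt_const u z))
    have b3 := (((b2 Y).add ((b2 (I • Y)).const_mul I)).mul_const (2⁻¹ : ℂ)).fderiv
    simp only [Matrix.of_apply, dz, b1.fderiv_eq, div_eq_mul_inv]
    erw [b3]
    simp [hE, h3]
    ring_nf
    simp
    ring
  have a2 : (Matrix.of fun i j => dz Y (fun w => hm (B w) i j) z) =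
      (1 / 2 : ℂ) • (hm (fderiv ℝ B z Y) - I • hm (fderiv ℝ B z (I • Y))) := by
    ext i j; simp [dz, d1 i j z h1.self_of_nhds]; ring
  have a3 : (Matrix.of fun i j => dzb Y (fun w => hm (B w) i j) z) =
      (1 / 2 : ℂ) • (hm (fderiv ℝ B z Y) + I • hm (fderiv ℝ B z (I • Y))) := by
    ext i j; simp [dzb, d1 i j z h1.self_of_nhds]; ring
  rw [bisec, a1, a2, a3, Matrix.smul_mul, Matrix.smul_mul, Matrix.mul_smul, smul_smul, ← smul_neg,
    show (1 / 2 * (1 / 2) : ℂ) = 1 / 4 by norm_num, ← smul_add, Matrix.smul_mulVec,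
    dotProduct_smul]
  simp

variable {M : Type} [TopologicalSpace M] [ChartedSpace (Cn n) M]
  [Bundle.RiemannianBundle fun x : M => TangentSpace 𝓘(ℝ, Cn n) x]

/-- The inner product at a point. -/
noncomputable def ip (y : M) : Bil n :=
  (innerSL ℝ (E := TangentSpace 𝓘(ℝ, Cn n) y) :)

/-- The metric tensor in the coordinates `f`. -/
noncomputable def Bm (f : Cn n → M) (z : Cn n) : Bil n :=
  (ip (f z)).bilinearComp (mfderiv 𝓘(ℝ, Cn n) 𝓘(ℝ, Cn n) f z :) (mfderiv 𝓘(ℝ, Cn n) 𝓘(ℝ, Cn n) f z :)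

theorem met_eq (f : Cn n → M) (z u v : Cn n) : met f z u v = Bm f z u v := rfl

theorem herm_eq (f : Cn n → M) : herm f = fun z => hm (Bm f z) := rfl

theorem Bm_symm (f : Cn n → M) (z u v : Cn n) : Bm f z u v = Bm f z v u :=
  real_inner_comm (F := TangentSpace 𝓘(ℝ, Cn n) (f z)) _ _

theorem Bm_nonneg (f : Cn n → M) (z u : Cn n) : 0 ≤ Bm f z u u :=
  real_inner_self_nonneg (F := TangentSpace 𝓘(ℝ, Cn n) (f z))

theorem Bm_cs (f : Cn n → M) (z u v : Cn n) : |Bm f z u v| ≤ √(Bm f z u u) * √(Bm f z v v) := by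
  rw [← met_eq, ← met_eq, ← met_eq, met, met, met, ← norm_eq_sqrt_real_inner,
    ← norm_eq_sqrt_real_inner]
  exact abs_real_inner_le_norm _ _

theorem Bm_pos {f : Cn n → M} {z : Cn n} (h : IsLoc n f z) {u : Cn n} (hu : u ≠ 0) :
    0 < Bm f z u u := by
  refine (real_inner_self_pos (F := TangentSpace 𝓘(ℝ, Cn n) (f z))).2 fun h0 => hu (h.2.1 ?_)
  exact ((mfderiv_real h.md u).symm.trans h0).trans (map_zero _).symm

theorem Bm_congr {f g : Cn n → M} {z : Cn n} (h : f =ᶠ[𝓝 z] g) : Bm f z = Bm g z := by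
  rw [Bm, Bm, h.mfderiv_eq, h.self_of_nhds]

theorem Bm_comp {f : Cn n → M} {g : Cn n → Cn n} {z : Cn n} {g' : Cn n →L[ℝ] Cn n}
    (hf : MDifferentiableAt 𝓘(ℂ, Cn n) 𝓘(ℂ, Cn n) f (g z)) (hg : HasFDerivAt g g' z) (u v : Cn n) :
    Bm (f ∘ g) z u v = Bm f (g z) (g' u) (g' v) := by
  rw [Bm, ((mdiff_real hf).hasMFDerivAt.comp z hg.hasMFDerivAt).mfderiv]; rfl

theorem Bm_act {a : ℝ → M → M} (ha : IsIsomFlow n a) (t : ℝ) {f : Cn n → M} {z : Cn n}
    (hf : MDifferentiableAt 𝓘(ℂ, Cn n) 𝓘(ℂ, Cn n) f z) : Bm (a t ∘ f) z = Bm f z := by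
  ext1 u; ext1 v
  rw [Bm, mfderiv_comp z (mdiff_real (ha.holo t _)) (mdiff_real hf)]
  exact ha.isom t _ _ _

theorem IsKaehler.contDiffAt (hK : IsKaehler n M) {f : Cn n → M} {z : Cn n} (h : IsLoc n f z) :
    ContDiffAt ℝ ∞ (Bm f) z :=
  contDiffAt_clm fun u => contDiffAt_clm fun v => hK.smooth f z h u v

theorem IsKaehler.two (hK : IsKaehler n M) {f : Cn n → M} {z : Cn n} (h : IsLoc n f z) :
    ContDiffAt ℝ 2 (Bm f) z := (hK.contDiffAt h).of_le (by norm_cast)

theorem IsKaehler.diff (hK : IsKaehler n M) {f : Cn n → M} {z : Cn n} (h : IsLoc n f z) :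
    DifferentiableAt ℝ (Bm f) z := (hK.two h).differentiableAt (by simp)

theorem IsKaehler.isH (hK : IsKaehler n M) {f : Cn n → M} {z : Cn n} (h : IsLoc n f z) :
    IsH (Bm f z) := ⟨Bm_symm f z, hK.hermitian f z h⟩

theorem IsKaehler.cyc (hK : IsKaehler n M) {f : Cn n → M} {z : Cn n} (h : IsLoc n f z)
    (u v w : Cn n) : fderiv ℝ (Bm f) z u (I • v) w + fderiv ℝ (Bm f) z v (I • w) u +
      fderiv ℝ (Bm f) z w (I • u) v = 0 := by
  have e : ∀ Y u v, fderiv ℝ (Bm f) z Y u v = fderiv ℝ (fun w => met f w u v) z Y :=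
    fun Y u v => by
      simp only [met_eq]
      rw [(((hK.diff h).hasFDerivAt.clm_apply (hasFDerivAt_const u z)).clm_apply
        (hasFDerivAt_const v z)).fderiv]; simp
  rw [e, e, e]
  exact hK.closed f z h u v w

theorem enorm_mfderiv {f : Cn n → M} {c : ℝ → Cn n} {c' : Cn n} {t : ℝ}
    (hf : MDifferentiableAt 𝓘(ℂ, Cn n) 𝓘(ℂ, Cn n) f (c t)) (hc : HasDerivAt c c' t) :
    ‖mfderiv 𝓘(ℝ, ℝ) 𝓘(ℝ, Cn n) (f ∘ c) t 1‖ₑ = ENNReal.ofReal √(Bm f (c t) c' c') := by
  rw [((mdiff_real hf).hasMFDerivAt.comp t hc.hasFDerivAt.hasMFDerivAt).mfderiv, ← ofReal_norm,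
    norm_eq_sqrt_real_inner]
  congr 2
  change inner ℝ (mfderiv 𝓘(ℝ, Cn n) 𝓘(ℝ, Cn n) f (c t) ((1 : ℝ) • c'))
    (mfderiv 𝓘(ℝ, Cn n) 𝓘(ℝ, Cn n) f (c t) ((1 : ℝ) • c')) = _
  rw [one_smul]; rfl

end Pool.Agent.Lib.MP_124863_gt
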