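import Pool.Agent.Lib.MP_124863_gt.Hol
import Pool.Agent.Lib.MP_124863_gt.Len
import Pool.Agent.Lib.MP_124863_gt.Met
import Pool.Agent.Lib.MP_124863_gt.Est

-- part Pool.Agent.Lib.MP_124863_gt.Lie
section

/-! Complexification of a local one-parameter group of holomorphic maps by Lie series. -/

open scoped Topology Nat
open Set Filter Function Metric Complex Pool.Agent.Lib.MP_7906d6_an

namespace Pool.Agent.Lib.MP_124863_gt

variable {E : Type} [NormedAddCommGroup E] [NormedSpace ℂ E]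

theorem differentiableAt_of_comm {G : Type} [NormedAddCommGroup G] [NormedSpace ℂ G] {f : E → G}
    {f' : E →L[ℝ] G} {x : E} (h : HasFDerivAt f f' x) (hI : ∀ v, f' (I • v) = I • f' v) :
    DifferentiableAt ℂ f x := by
  have e : ∀ (c : ℂ) (v : E), f' (c • v) = c • f' v := fun c v => by
    rw [← re_add_im c, add_smul, add_smul, mul_smul, mul_smul, map_add, coe_smul, coe_smul,
      coe_smul, coe_smul, map_smul, map_smul, hI]
  exact (hasFDerivAt_of_restrictScalars ℝ (f' := ⟨⟨⟨f', map_add f'⟩, e⟩, f'.cont⟩) h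
    rfl).differentiableAt

/-- Iterated Lie derivatives of the identity. -/
noncomputable def lie (X : E → E) : ℕ → E → E
  | 0 => id
  | k + 1 => fun y => fderiv ℂ (lie X k) y (X y)

variable [FiniteDimensional ℂ E] [CompleteSpace E]

theorem lie_diff {X : E → E} {U : Set E} (ho : IsOpen U) (hX : DifferentiableOn ℂ X U) (k : ℕ) :
    DifferentiableOn ℂ (lie X k) U := by
  induction k with
  | zero => exact differentiableOn_id
  | succ k ih => exact (differentiableOn_fderiv ho ih).clm_apply hX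

theorem lie_bound {X : E → E} {c : E} {R C : ℝ} (hX : DifferentiableOn ℂ X (ball c R))
    (hC : ∀ y ∈ ball c R, ‖X y‖ ≤ C) (k : ℕ) : ∀ y ∈ ball c R,
    ‖lie X (k + 1) y‖ ≤ C * k ! * (12 * C / (R - dist y c)) ^ k := by
  induction k with
  | zero => intro y hy; simpa [lie] using hC y hy
  | succ k ih =>
    intro y hy
    have hC0 : 0 ≤ C := (norm_nonneg _).trans (hC y hy)
    obtain ⟨d, hd, e⟩ : ∃ d > 0, R - dist y c = d := ⟨_, sub_pos.2 hy, rfl⟩
    have h1 : d / (k + 2) ≤ d := div_le_self hd.le (by linarith [k.cast_nonneg (α := ℝ)])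
    have hs : ball y (d / (k + 2)) ⊆ ball c R := ball_subset_ball' (by linarith)
    have h2 : (1 + 1 / ((k : ℝ) + 1)) ^ k ≤ 3 := by
      calc _ ≤ Real.exp (1 / ((k : ℝ) + 1)) ^ k := by
            gcongr; linarith [Real.add_one_le_exp (1 / ((k : ℝ) + 1))]
        _ ≤ Real.exp 1 := by
            rw [← Real.exp_nat_mul, Real.exp_le_exp, mul_one_div, div_le_one (by positivity)]
            linarith
        _ ≤ 3 := by linarith [Real.exp_one_lt_d9]
    have h3 := cauchy_fderiv (f := lie X (k + 1)) (M := C * k ! * ((12 * C / d) ^ k * 3))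
      (by positivity : 0 < d / (k + 2)) ((lie_diff isOpen_ball hX _).mono hs) fun z hz => by
        refine (ih z (hs hz)).trans ?_
        gcongr
        refine le_trans ?_ (mul_le_mul_of_nonneg_left h2 (by positivity))
        rw [← mul_pow]
        have h4 : d - d / (k + 2) ≤ R - dist z c := by
          linarith [dist_triangle z y c, mem_ball.1 hz]
        have h5 : 0 < d - d / (k + 2) := by
          rw [sub_pos]; exact div_lt_self hd (by linarith [k.cast_nonneg (α := ℝ)])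
        have h6 := h5.trans_le h4
        gcongr
        refine (div_le_div_of_nonneg_left (by positivity) h5 h4).trans_eq ?_
        rw [show d - d / (k + 2) = d * (k + 1) / (k + 2) by field_simp; ring]
        field_simp
        ring
    rw [e]
    calc _ ≤ 2 * (C * k ! * ((12 * C / d) ^ k * 3)) / (d / (k + 2)) * C :=
          (ContinuousLinearMap.le_opNorm _ _).trans (by gcongr; exact hC y hy)
      _ = C * k ! * (12 * C / d) ^ k * (C / d) * (6 * (k + 2)) := by field_simp; ring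
      _ ≤ C * k ! * (12 * C / d) ^ k * (C / d) * (12 * (k + 1)) := by
          gcongr ?_ * ?_; linarith [k.cast_nonneg (α := ℝ)]
      _ = _ := by rw [Nat.factorial_succ, pow_succ]; push_cast; ring

theorem exists_flow {X : E → E} {c : E} (hX : ∀ᶠ y in 𝓝 c, DifferentiableAt ℂ X y) {b : ℝ × E → E}
    (h0 : ∀ᶠ y in 𝓝 c, b (0, y) = y) (hc : ContinuousAt b (0, c))
    (hb : ∀ᶠ p : ℝ × E in 𝓝 (0, c), HasDerivAt (fun s => b (s, p.2)) (X (b p)) p.1) :
    ∃ A : ℂ × E → E, (∀ᶠ p in 𝓝 ((0 : ℂ), c), DifferentiableAt ℂ A p) ∧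
      ∀ᶠ p : ℝ × E in 𝓝 (0, c), A (p.1, p.2) = b p := by
  obtain ⟨U, hU, ho, hcU⟩ := _root_.mem_nhds_iff.1 hX
  have hd : DifferentiableOn ℂ X U := fun y hy => (hU hy).differentiableWithinAt
  obtain ⟨R, hR, C', hs, hC'⟩ := exists_ball_bound ho hd hcU
  obtain ⟨C, hC0, hC⟩ : ∃ C > 0, ∀ y ∈ ball c R, ‖X y‖ ≤ C :=
    ⟨|C'| + 1, by positivity, fun y hy => by linarith [hC' y hy, le_abs_self C']⟩
  replace hd := hd.mono hs
  have key : ∀ (k : ℕ) (w : ℂ), ‖w‖ ≤ R / (48 * C) → ∀ y ∈ ball c (R / 2),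
      ‖(w ^ k / k !) • lie X (k + 1) y‖ ≤ C * (1 / 2) ^ k := fun k w hw y hy => by
    have h1 := lie_bound hd hC k y (ball_subset_ball (by linarith) hy)
    have h2 : R / 2 ≤ R - dist y c := by linarith [mem_ball.1 hy]
    have h3 := (half_pos hR).trans_le h2
    rw [norm_smul, norm_div, norm_pow, Complex.norm_natCast]
    calc _ ≤ (R / (48 * C)) ^ k / k ! * (C * k ! * (12 * C / (R / 2)) ^ k) := by
          gcongr; exact h1.trans (by gcongr)
      _ = C * (R / (48 * C) * (12 * C / (R / 2))) ^ k := by rw [mul_pow]; field_simp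
      _ = _ := by congr 2; field_simp; ring
  let T : ℕ → ℂ × E → E := fun k p => (p.1 ^ (k + 1) / (k + 1)!) • lie X (k + 1) p.2
  obtain ⟨δ, hδ, δ1, δ2, δ3⟩ : ∃ δ > 0, δ ≤ 1 ∧ δ ≤ R / (48 * C) ∧ δ ≤ R / 2 :=
    ⟨min 1 (min (R / (48 * C)) (R / 2)), by positivity, by simp, by simp, by simp⟩
  have hp : ∀ p ∈ ball ((0 : ℂ), c) δ, ‖p.1‖ < δ ∧ p.2 ∈ ball c (R / 2) := fun p hp => by
    rw [← ball_prod_same] at hp
    exact ⟨by simpa using hp.1, ball_subset_ball δ3 hp.2⟩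
  have hT := tendstoUniformlyOn_tsum_nat (f := T) (s := ball ((0 : ℂ), c) δ)
    (summable_geometric_two.mul_left C) fun k p h => by
      refine le_trans ?_ (key k p.1 ((hp p h).1.le.trans δ2) p.2 (hp p h).2)
      have e : (p.1 ^ (k + 1) / (k + 1)! : ℂ) = p.1 / (k + 1) * (p.1 ^ k / k !) := by
        rw [Nat.factorial_succ]; push_cast; field_simp; ring
      simp only [T]
      rw [e, mul_smul, norm_smul (p.1 / (k + 1))]
      refine mul_le_of_le_one_left (norm_nonneg _) ?_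
      rw [norm_div, div_le_one (by exact_mod_cast k.succ_pos)]
      have : (1 : ℝ) ≤ ‖(k + 1 : ℂ)‖ := by exact_mod_cast k.succ_pos
      linarith [(hp p h).1]
  refine ⟨fun p => p.2 + ∑' k, T k p, ?_, ?_⟩
  · filter_upwards [ball_mem_nhds _ hδ] with p h
    obtain ⟨r, hr, h1⟩ := isOpen_iff.1 isOpen_ball p h
    refine differentiableAt_snd.add (weierstrass hr (fun N => ?_) (hT.mono h1))
    refine DifferentiableOn.fun_sum fun k _ => DifferentiableOn.smul
      (by simp only [div_eq_mul_inv]; exact ((differentiable_fst.pow _).mul_const _).differentiableOn) ?_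
    exact (lie_diff isOpen_ball hd _).comp differentiableOn_snd fun q hq =>
      ball_subset_ball (by linarith) (hp q (h1 hq)).2
  · have h1 : ∀ᶠ p : ℝ × E in 𝓝 (0, c), b p ∈ ball c (R / 2) :=
      hc (by rw [h0.self_of_nhds]; exact ball_mem_nhds _ (by positivity))
    obtain ⟨ε, hε, h2⟩ := eventually_nhds_iff_ball.1 ((hb.and h1).and (continuousAt_snd h0))
    filter_upwards [ball_mem_nhds _ (lt_min hε (half_pos hδ))] with ⟨θ, y⟩ h
    rw [← ball_prod_same] at h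
    obtain ⟨hθ, hy⟩ := h
    have h3 : ∀ s ∈ ball (0 : ℝ) (min ε (δ / 2)), (s, y) ∈ ball ((0 : ℝ), c) ε := fun s h => by
      rw [← ball_prod_same]
      exact ⟨ball_subset_ball (min_le_left _ _) h, ball_subset_ball (min_le_left _ _) hy⟩
    let S : ℕ → ℝ → E := fun N s =>
      ∑ k ∈ Finset.range (N + 1), (((θ - s : ℝ) : ℂ) ^ k / k !) • lie X k (b (s, y))
    have h4 : ∀ N, ∀ s ∈ ball (0 : ℝ) (min ε (δ / 2)), HasDerivAt (S N)
        ((((θ - s : ℝ) : ℂ) ^ N / N !) • lie X (N + 1) (b (s, y))) s := fun N s hs => by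
      obtain ⟨⟨a1, a2⟩, -⟩ := h2 _ (h3 s hs)
      have a3 : ∀ k, HasDerivAt (fun s => lie X k (b (s, y))) (lie X (k + 1) (b (s, y))) s :=
        fun k => HasFDerivAt.comp_hasDerivAt (f := fun s => b (s, y)) s
          (((lie_diff isOpen_ball hd k).differentiableAt (isOpen_ball.mem_nhds
          (ball_subset_ball (by linarith) a2))).hasFDerivAt.restrictScalars ℝ) a1
      induction N with
      | zero => simpa [S] using a3 0
      | succ N ih =>
        have a4 := (((((hasDerivAt_id s).const_sub θ).ofReal_comp.pow (N + 1)).div_const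
          ((N + 1)! : ℂ)).smul (a3 (N + 1)))
        convert ih.add a4 using 1
        · ext s; simp [S, Finset.sum_range_succ _ (N + 1)]
        · have e : ((N + 1 : ℕ) * ((θ - s : ℝ) : ℂ) ^ N * ((-1 : ℝ) : ℂ) / (N + 1)! : ℂ) =
              -(((θ - s : ℝ) : ℂ) ^ N / N !) := by
            rw [Nat.factorial_succ]; push_cast; field_simp
          simp only [id, Pi.pow_apply, Nat.add_sub_cancel, e, neg_smul]
          abel
    have h0' : (0 : ℝ) ∈ ball (0 : ℝ) (min ε (δ / 2)) := mem_ball_self (by positivity)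
    have h5 : ∀ N, ‖S N θ - S N 0‖ ≤ C * (1 / 2) ^ N * ‖θ - 0‖ := fun N =>
      (convex_ball _ _).norm_image_sub_le_of_norm_hasDerivWithin_le
        (fun s hs => (h4 N s hs).hasDerivWithinAt) (fun s hs => key N _ (by
          rw [Complex.norm_real]
          have a1 := ball_subset_ball (min_le_right _ _) hθ
          have a2 := ball_subset_ball (min_le_right _ _) hs
          rw [mem_ball_zero_iff] at a1 a2
          linarith [norm_sub_le θ s]) _ (h2 _ (h3 s hs)).1.2) h0' hθ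
    have h6 : ∀ N, S N θ = b (θ, y) := fun N => by simp [S, Finset.sum_range_succ', lie]
    have h7 : ∀ N, S N 0 = y + ∑ k ∈ Finset.range N, T k (θ, y) := fun N => by
      have : b (0, y) = y := (h2 _ (h3 0 h0')).2
      simp [S, T, Finset.sum_range_succ', lie, this, add_comm]
    have h8 : ((θ : ℂ), y) ∈ ball ((0 : ℂ), c) δ := by
      rw [← ball_prod_same]
      refine ⟨?_, ball_subset_ball ((min_le_right _ _).trans (by linarith)) hy⟩
      simpa using ball_subset_ball ((min_le_right _ _).trans (half_le_self hδ.le)) hθ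
    refine tendsto_nhds_unique ((hT.tendsto_at h8).const_add y) ?_
    rw [tendsto_iff_norm_sub_tendsto_zero]
    refine squeeze_zero (fun _ => norm_nonneg _) (fun N => ?_) (g := fun N =>
      C * (1 / 2) ^ N * ‖θ - 0‖) ?_
    · rw [← h7, ← h6 N, norm_sub_rev]; exact h5 N
    · simpa using ((tendsto_pow_atTop_nhds_zero_of_lt_one (r := (1 / 2 : ℝ)) (by norm_num)
        (by norm_num)).const_mul C).mul_const ‖θ - 0‖

omit [FiniteDimensional ℂ E] [CompleteSpace E] in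
/-- The generator of a local one-parameter group of holomorphic maps. -/
theorem exists_generator {b : ℝ × E → E} {c : E} (hb : ContDiffAt ℝ 2 b (0, c))
    (hh : ∀ᶠ p : ℝ × E in 𝓝 (0, c), DifferentiableAt ℂ (fun y => b (p.1, y)) p.2)
    (h0 : ∀ᶠ y in 𝓝 c, b (0, y) = y)
    (hg : ∀ᶠ p : ℝ × E in 𝓝 (0, c), ∀ᶠ s in 𝓝 (0 : ℝ), b (s + p.1, p.2) = b (s, b p)) :
    ∃ X : E → E, (∀ᶠ y in 𝓝 c, DifferentiableAt ℂ X y) ∧
      ∀ᶠ p : ℝ × E in 𝓝 (0, c), HasDerivAt (fun s => b (s, p.2)) (X (b p)) p.1 := by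
  have h1 := hb.eventually (by simp)
  have h2 := h1.mono fun p hp => hp.differentiableAt (by simp)
  have hi : ContinuousAt (fun y : E => ((0 : ℝ), y)) c := by fun_prop
  refine ⟨fun y => fderiv ℝ b (0, y) (1, 0), ?_, ?_⟩
  · have h3 : ∀ᶠ p : ℝ × E in 𝓝 (0, c), ∀ v : E,
        fderiv ℝ b p (0, I • v) = I • fderiv ℝ b p (0, v) := by
      filter_upwards [hh, h2] with p a1 a2 v
      have a3 := (a1.hasFDerivAt.restrictScalars ℝ).unique
        (a2.hasFDerivAt.comp p.2 (hasFDerivAt_prodMk_right p.1 p.2))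
      have a4 : ∀ v, fderiv ℝ b p (0, v) = fderiv ℂ (fun y => b (p.1, y)) p.2 v := fun v =>
        (DFunLike.congr_fun a3 v).symm
      rw [a4, a4, map_smul]
    filter_upwards [hi.eventually h1, hi.eventually h3.eventually_nhds] with y a1 a2
    have a3 : DifferentiableAt ℝ (fderiv ℝ b) (0, y) :=
      (ContDiffAt.fderiv_right a1 (m := 1) (by norm_num)).differentiableAt (by simp)
    have a4 := ContDiffAt.isSymmSndFDerivAt a1 (by simp)
    have a5 := fun u => a3.hasFDerivAt.clm_apply (hasFDerivAt_const u ((0 : ℝ), y))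
    refine differentiableAt_of_comm ((a5 (1, 0)).comp y (hasFDerivAt_prodMk_right 0 y)) fun v => ?_
    have a6 := ((a5 (0, I • v)).congr_of_eventuallyEq (Eventually.mono a2 fun p hp =>
      (hp v).symm)).unique ((a5 (0, v)).const_smul I)
    simpa [a4 (1, 0)] using DFunLike.congr_fun a6 (1, 0)
  · have h3 : ContinuousAt (fun p => ((0 : ℝ), b p)) (0, c) := by
      have := hb.continuousAt; fun_prop
    filter_upwards [hg, h3.eventually (by simpa [h0.self_of_nhds] using h2)] with p a1 a2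
    have a3 := (DifferentiableAt.hasFDerivAt a2).comp_hasDerivAt (0 : ℝ)
      ((hasDerivAt_id (0 : ℝ)).prodMk (hasDerivAt_const (0 : ℝ) (b p)))
    have a4 := (a3.congr_of_eventuallyEq a1)
    rw [← sub_self p.1] at a4
    simpa using a4.comp_sub_const p.1 p.1

end Pool.Agent.Lib.MP_124863_gt
end

-- part Pool.Agent.Lib.MP_124863_gt.Act
section

/-! Local complexification of flows. -/

open scoped Manifold ContDiff Topology Bundle Real
open Set Filter Function Metric Complex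

namespace Pool.Agent.Lib.MP_124863_gt

variable {n : ℕ}

/-- The diagonal flow. -/
noncomputable def fl (α : Fin n → ℝ) (w : ℂ) : Cn n →L[ℂ] Cn n :=
  ContinuousLinearMap.pi fun j => exp (α j * w) • ContinuousLinearMap.proj j

theorem fl_apply (α : Fin n → ℝ) (w : ℂ) (z : Cn n) (j : Fin n) :
    fl α w z j = exp (α j * w) * z j := rfl

theorem fl_add (α : Fin n → ℝ) (w w' : ℂ) (z : Cn n) : fl α (w + w') z = fl α w (fl α w' z) := by
  ext j; simp only [fl_apply, mul_add, exp_add, mul_assoc]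

@[simp] theorem fl_zero (α : Fin n → ℝ) (z : Cn n) : fl α 0 z = z := by ext j; simp [fl_apply]

theorem fl_neg (α : Fin n → ℝ) (w : ℂ) (z : Cn n) : fl α (-w) (fl α w z) = z := by
  rw [← fl_add]; simp

theorem fl_neg' (α : Fin n → ℝ) (w : ℂ) (z : Cn n) : fl α w (fl α (-w) z) = z := by
  rw [← fl_add]; simp

theorem fl_diff (α : Fin n → ℝ) : ContDiff ℂ ∞ fun p : ℂ × Cn n => fl α p.1 p.2 :=
  contDiff_pi.2 fun j => by simp only [fl_apply]; fun_prop

theorem isLoc_fl (α : Fin n → ℝ) (w : ℂ) (z : Cn n) : IsLoc n (fl α w) z :=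
  isLoc_flat (.of_forall fun _ => (fl α w).differentiableAt) (by
    rw [ContinuousLinearMap.fderiv]; exact LeftInverse.injective (fl_neg α w))

theorem integral_holo {F : ℝ × Cn n → Cn n} {c : Cn n} {T : ℝ} (hT : 0 ≤ T)
    (h : ∀ θ ∈ Icc 0 T, ∀ᶠ p : ℝ × Cn n in 𝓝 (θ, c), ContDiffAt ℝ 1 F p ∧
      DifferentiableAt ℂ (fun y => F (p.1, y)) p.2) :
    ∀ᶠ y in 𝓝 c, HasFDerivAt (fun y => ∫ θ in 0..T, F (θ, y))
      (∫ θ in 0..T, fderiv ℂ (fun y => F (θ, y)) y) y := by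
  obtain ⟨r, hr, h1⟩ := nhds_basis_closedBall.eventually_iff.1
    (isCompact_Icc.eventually_forall_of_forall_eventually (x₀ := c) (P := fun y θ =>
      ∀ᶠ p : ℝ × Cn n in 𝓝 (θ, y), ContDiffAt ℝ 1 F p ∧
        DifferentiableAt ℂ (fun y => F (p.1, y)) p.2) fun θ hθ =>
      (continuous_swap.tendsto (c, θ)).eventually (h θ hθ).eventually_nhds)
  have h2 : ∀ y ∈ closedBall c r, ∀ θ ∈ Icc 0 T,
      ContinuousAt (fun p : ℝ × Cn n => fderiv ℂ (fun y => F (p.1, y)) p.2) (θ, y) := by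
    intro y hy θ hθ
    refine continuousAt_clm_apply.2 fun v => ContinuousAt.congr
      ((((h1 hy θ hθ).self_of_nhds.1.continuousAt_fderiv one_ne_zero).clm_apply
        (continuousAt_const (y := (0, v))))) ((h1 hy θ hθ).mono fun p hp => ?_)
    exact (DFunLike.congr_fun ((hp.2.hasFDerivAt.restrictScalars ℝ).unique
      ((hp.1.differentiableAt one_ne_zero).hasFDerivAt.comp p.2
        (hasFDerivAt_prodMk_right p.1 p.2))) v).symm
  obtain ⟨C, hC⟩ := (isCompact_Icc.prod (isCompact_closedBall c r)).exists_bound_of_continuousOn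
    fun p hp => (h2 p.2 hp.2 p.1 hp.1).continuousWithinAt
  have h3 : ∀ y ∈ closedBall c r, ContinuousOn (fun θ => F (θ, y)) (Icc 0 T) := fun y hy θ hθ =>
    (ContinuousAt.comp (f := fun θ => (θ, y)) (h1 hy θ hθ).self_of_nhds.1.continuousAt
      (by fun_prop)).continuousWithinAt
  filter_upwards [eventually_eventually_nhds.2 (closedBall_mem_nhds c hr)] with y hy
  have hI : uIoc 0 T ⊆ Icc 0 T := by rw [uIoc_of_le hT]; exact Ioc_subset_Icc_self
  refine intervalIntegral.hasFDerivAt_integral_of_dominated_of_fderiv_le (bound := fun _ => C)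
    (F' := fun y θ => fderiv ℂ (fun y => F (θ, y)) y) hy
    (hy.mono fun x hx => ((h3 x hx).mono hI).aestronglyMeasurable measurableSet_uIoc)
    ((h3 y hy.self_of_nhds).intervalIntegrable_of_Icc hT)
    (ContinuousOn.aestronglyMeasurable (fun θ hθ => ?_) measurableSet_uIoc)
    (.of_forall fun θ hθ x hx => hC (θ, x) ⟨hI hθ, hx⟩) intervalIntegrable_const
    (.of_forall fun θ hθ x hx => (h1 hx θ (hI hθ)).self_of_nhds.2.hasFDerivAt)
  exact (ContinuousAt.comp (f := fun θ => (θ, y)) (h2 y hy.self_of_nhds θ (hI hθ))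
    (by fun_prop)).continuousWithinAt

variable {M : Type} [TopologicalSpace M] [ChartedSpace (Cn n) M]
  [Bundle.RiemannianBundle fun x : M => TangentSpace 𝓘(ℝ, Cn n) x] {a : ℝ → M → M}

theorem IsIsomFlow.cont (ha : IsIsomFlow n a) : Continuous fun p : ℝ × M => a p.1 p.2 :=
  ha.smooth.continuous

variable [IsManifold 𝓘(ℂ, Cn n) ω M] [IsManifold 𝓘(ℝ, Cn n) ∞ M]

theorem IsIsomFlow.chart (ha : IsIsomFlow n a) (q : M) {θ : ℝ} {y : Cn n}
    (hy : y ∈ (chartAt (Cn n) q).target)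
    (h : a θ ((chartAt (Cn n) q).symm y) ∈ (chartAt (Cn n) q).source) :
    ∀ᶠ p : ℝ × Cn n in 𝓝 (θ, y), p.2 ∈ (chartAt (Cn n) q).target ∧
      a p.1 ((chartAt (Cn n) q).symm p.2) ∈ (chartAt (Cn n) q).source ∧
      ContDiffAt ℝ 2 (fun p : ℝ × Cn n => chartAt (Cn n) q (a p.1 ((chartAt (Cn n) q).symm p.2))) p ∧
      DifferentiableAt ℂ (fun y => chartAt (Cn n) q (a p.1 ((chartAt (Cn n) q).symm y))) p.2 := by
  set e := chartAt (Cn n) q
  have h1 : ContinuousAt (fun p : ℝ × Cn n => a p.1 (e.symm p.2)) (θ, y) :=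
    ha.cont.continuousAt.comp (f := fun p : ℝ × Cn n => (p.1, e.symm p.2))
      (continuousAt_fst.prodMk ((e.continuousAt_symm hy).comp continuousAt_snd))
  filter_upwards [continuousAt_snd.eventually (e.open_target.eventually_mem hy),
    h1.eventually (e.open_source.eventually_mem h)] with p a1 a2
  refine ⟨a1, a2, ?_, chart_diff ((ha.holo p.1 _).comp p.2 (chart_symm_diff a1)) a2⟩
  have hm : e ∈ IsManifold.maximalAtlas 𝓘(ℝ, Cn n) ∞ M := IsManifold.chart_mem_maximalAtlas q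
  have a3 : ContMDiffAt 𝓘(ℝ, ℝ × Cn n) (𝓘(ℝ, ℝ).prod 𝓘(ℝ, Cn n)) ∞
      (fun p : ℝ × Cn n => (p.1, e.symm p.2)) p :=
    contDiffAt_fst.contMDiffAt.prodMk
      ((contMDiffAt_symm_of_mem_maximalAtlas hm a1).comp p contDiffAt_snd.contMDiffAt)
  exact ((contMDiffAt_of_mem_maximalAtlas hm a2).comp p
    ((ha.smooth _).comp p a3)).contDiffAt.of_le (by norm_cast)

variable (n) in
/-- `c` is a holomorphic extension of the orbit of `y`. -/
def IsOrb (a : ℝ → M → M) (y : M) (U : Set ℂ) (c : ℂ → M) : Prop :=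
  (∀ w ∈ U, MDifferentiableAt 𝓘(ℂ, ℂ) 𝓘(ℂ, Cn n) c w) ∧ ∀ᶠ θ : ℝ in 𝓝 0, c (θ * I) = a θ y

omit [Bundle.RiemannianBundle fun x : M => TangentSpace 𝓘(ℝ, Cn n) x] [IsManifold 𝓘(ℝ, Cn n) ∞ M] in
theorem IsOrb.eqOn [T2Space M] {y : M} {U : Set ℂ} {c d : ℂ → M} (hc : IsOrb n a y U c)
    (hd : IsOrb n a y U d) (ho : IsOpen U) (hU : Convex ℝ U) (h0 : 0 ∈ U) : EqOn c d U := by
  refine eqOn_curve ho hU.isPreconnected hc.1 hd.1 h0 ?_
  have : Tendsto (fun θ : ℝ => θ * I) (𝓝[≠] 0) (𝓝[≠] 0) :=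
    tendsto_nhdsWithin_iff.2 ⟨((by fun_prop : Continuous fun θ : ℝ => θ * I).tendsto' 0 0
      (by simp)).mono_left nhdsWithin_le_nhds, eventually_mem_nhdsWithin.mono fun θ h => by
        simpa using h⟩
  refine this.frequently (Eventually.frequently (Eventually.filter_mono nhdsWithin_le_nhds ?_))
  filter_upwards [hc.2, hd.2] with θ h1 h2 using h1.trans h2.symm

/-- Local complexification. -/
theorem IsIsomFlow.exists_cx (ha : IsIsomFlow n a) (q : M) : ∃ A : ℂ → M → M, ∃ δ > 0,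
    ∀ᶠ y in 𝓝 q, IsOrb n a y (ball 0 δ) (fun w => A w y) ∧ ∀ w ∈ ball 0 δ, IsLoc n (A w) y := by
  set e := chartAt (Cn n) q with he
  have hq : q ∈ e.source := mem_chart_source _ q
  have h1 := ha.chart q (θ := 0) (e.map_source hq) (by rwa [ha.zero, e.left_inv hq])
  rw [← he] at h1
  let b : ℝ × Cn n → Cn n := fun p => e (a p.1 (e.symm p.2))
  have h0 : ∀ᶠ y in 𝓝 (e q), b (0, y) = y :=
    (e.open_target.eventually_mem (e.map_source hq)).mono fun y hy => by
      simp only [b, ha.zero, e.right_inv hy]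
  obtain ⟨X, hX, hb⟩ := exists_generator (b := b) h1.self_of_nhds.2.2.1
    (h1.mono fun p hp => hp.2.2.2) h0 (h1.mono fun p hp => .of_forall fun s => by
      simp only [b, ha.add, e.left_inv hp.2.1])
  obtain ⟨A, hA, hA'⟩ := exists_flow hX h0 h1.self_of_nhds.2.2.1.continuousAt hb
  have h2 : ∀ᶠ y in 𝓝 (e q), A (0, y) = y := by
    filter_upwards [h0, (continuousAt_const.prodMk continuousAt_id).eventually hA'] with y a1 a2
      using (show A (0, y) = b (0, y) from a2).trans a1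
  have h3 : ContinuousAt (fun p => (fderiv ℂ A p).comp (ContinuousLinearMap.inr ℂ ℂ (Cn n)))
      (0, e q) := ((contDiffAt_of_eventually hA 1).continuousAt_fderiv (by simp)).clm_comp
        continuousAt_const
  have h4 : ∀ p, DifferentiableAt ℂ A p → HasFDerivAt (fun y => A (p.1, y))
      ((fderiv ℂ A p).comp (ContinuousLinearMap.inr ℂ ℂ (Cn n))) p.2 := fun p hp =>
    hp.hasFDerivAt.comp p.2 (hasFDerivAt_prodMk_right p.1 p.2)
  have h5 := h3.eventually (p := IsUnit) (Units.isOpen.mem_nhds (by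
    simp only [mem_ofPred_eq]
    rw [(h4 _ hA.self_of_nhds).unique
      ((hasFDerivAt_id (e q)).congr_of_eventuallyEq h2)]
    exact isUnit_one))
  have h6 := hA.self_of_nhds.continuousAt.eventually (e.open_target.eventually_mem (by
    rw [h2.self_of_nhds]; exact e.map_source hq))
  obtain ⟨δ, hδ, h7⟩ := eventually_nhds_iff_ball.1 (hA.eventually_nhds.and (h5.and h6))
  refine ⟨fun w y => e.symm (A (-I * w, e y)), δ, hδ, ?_⟩
  have c1 := e.continuousAt hq
  filter_upwards [e.open_source.eventually_mem hq, c1.eventually (ball_mem_nhds _ hδ),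
    (continuousAt_const.prodMk c1).eventually (hA'.and h1).eventually_nhds] with y a1 a2 a3
  have a4 : ∀ w ∈ ball (0 : ℂ) δ, (-I * w, e y) ∈ ball ((0 : ℂ), e q) δ := fun w hw => by
    rw [← ball_prod_same]; exact ⟨by simpa using hw, a2⟩
  refine ⟨⟨fun w hw => ?_, ?_⟩, fun w hw => ?_⟩
  · exact (chart_symm_diff (h7 _ (a4 w hw)).2.2).comp w (DifferentiableAt.mdifferentiableAt
      ((h7 _ (a4 w hw)).1.self_of_nhds.comp w (by fun_prop)))
  · filter_upwards [(continuousAt_id.prodMk continuousAt_const).eventually a3] with θ ⟨b1, b2⟩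
    have e1 : -I * (θ * I) = θ := by linear_combination (-θ : ℂ) * I_mul_I
    simp only [id, b, e.left_inv a1] at b1 b2
    simp only [e1, b1, e.left_inv b2.2.1]
  · obtain ⟨b1, b2, b3⟩ := h7 _ (a4 w hw)
    refine IsLoc.comp (isLoc_chart_symm b3) (IsLoc.comp (g := fun y => A (-I * w, y))
      (isLoc_flat ?_ ?_) (isLoc_chart a1))
    · exact ((continuousAt_const.prodMk continuousAt_id).eventually b1).mono fun y hy =>
        (h4 _ hy).differentiableAt
    · rw [(h4 _ b1.self_of_nhds).fderiv]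
      exact (ContinuousLinearMap.isUnit_iff_bijective.1 b2).1

end Pool.Agent.Lib.MP_124863_gt
end

-- part Pool.Agent.Lib.MP_124863_gt.Cvx
section

/-! The metric along the orbits of the complexified action. -/

open scoped Manifold ContDiff Topology Bundle Matrix Matrix.Norms.Operator ComplexOrder
open Set Filter Function Metric Complex

namespace Pool.Agent.Lib.MP_124863_gt

variable {n : ℕ} {α : Fin n → ℝ}

/-- The generator of the diagonal flow. -/
noncomputable def gn (α : Fin n → ℝ) : Cn n →L[ℂ] Cn n :=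
  ContinuousLinearMap.pi fun j => (α j : ℂ) • ContinuousLinearMap.proj j

theorem gn_apply (z : Cn n) (j : Fin n) : gn α z j = α j * z j := rfl

theorem gn_fl (w : ℂ) (z : Cn n) : gn α (fl α w z) = fl α w (gn α z) := by
  ext j; simp only [gn_apply, fl_apply]; ring

theorem gn_ne (hα : ∀ j, 1 ≤ α j) {z : Cn n} (hz : z ≠ 0) : gn α z ≠ 0 := fun h => hz <| by
  ext j; simpa [gn_apply, (zero_lt_one.trans_le (hα j)).ne'] using congrFun h j

theorem hasFDerivAt_fl {D : Type} [NormedAddCommGroup D] [NormedSpace ℂ D] {w : D → ℂ}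
    {z : D → Cn n} {w' : D →L[ℂ] ℂ} {z' : D →L[ℂ] Cn n} {x : D} (hw : HasFDerivAt w w' x)
    (hz : HasFDerivAt z z' x) : HasFDerivAt (fun x => fl α (w x) (z x))
      (w'.smulRight (fl α (w x) (gn α (z x))) + (fl α (w x)).comp z') x := by
  refine hasFDerivAt_pi'' fun j => ?_
  refine ((hw.const_mul (α j : ℂ)).cexp.mul (hasFDerivAt_pi'.1 hz j)).congr_fderiv ?_
  ext v; simp [fl_apply, gn_apply]; ring

theorem hasDerivAt_fl (w : ℂ) (z : Cn n) :
    HasDerivAt (fun w => fl α w z) (fl α w (gn α z)) w := by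
  simpa using (hasFDerivAt_fl (α := α) (hasFDerivAt_id w) (hasFDerivAt_const z w)).hasDerivAt

theorem norm_fl_le (hα : ∀ j, 1 ≤ α j) {w : ℂ} (hw : w.re ≤ 0) (z : Cn n) :
    ‖fl α w z‖ ≤ Real.exp w.re * ‖z‖ := by
  refine (pi_norm_le_iff_of_nonneg (by positivity)).2 fun j => ?_
  rw [fl_apply, norm_mul, norm_exp]
  have := hα j
  refine mul_le_mul (Real.exp_le_exp.2 ?_) (norm_le_pi_norm z j) (norm_nonneg _) (by positivity)
  simp only [mul_re, ofReal_re, ofReal_im, zero_mul, sub_zero]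
  nlinarith

theorem Cv.three {S : Set ℝ} {G G1 G2 : ℝ → Mt n} (h : Cv S G G1 G2) (hS : Convex ℝ S)
    (ho : IsOpen S) (h0 : -1 ∈ S) (h1 : 0 ∈ S) (h2 : 1 ∈ S) {k : ℝ} (hk : 0 < k)
    (hb : ∀ x, fm x x (G 0) ≤ k * fm x x (G (-1))) (x : Fin n → ℂ) :
    fm x x (G 1) ≤ k * fm x x (G 0) := by
  have i : ∀ t ∈ S, (G t)⁻¹⁻¹ = G t := fun t ht =>
    Matrix.nonsing_inv_nonsing_inv _ ((Matrix.isUnit_iff_isUnit_det _).1 (h.pos t ht).isUnit)
  have a1 := fm_le_of_inv (h.pos _ h0).inv (h.pos _ h1).inv (inv_pos.2 hk) fun v => by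
    rw [i _ h0, i _ h1, inv_mul_le_iff₀ hk]; exact hb v
  rw [← inv_mul_le_iff₀ hk]
  refine fm_le_of_inv (h.pos _ h2) (h.pos _ h1) (inv_pos.2 hk) (fun v => ?_) x
  have a2 := h.lower hS ho (v := v) (k := Real.log k) h1 h2 zero_le_one fun hv => by
    have a3 := h.slope_le hS ho hv h0 h1 (by norm_num)
    have a4 := Real.log_le_log (mul_pos (inv_pos.2 hk) (fm_pos (h.pos _ h0).inv hv)) (a1 v)
    rw [Real.log_mul (inv_pos.2 hk).ne' (fm_pos (h.pos _ h0).inv hv).ne', Real.log_inv] at a4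
    linarith
  rwa [sub_zero, mul_one, Real.exp_neg, Real.exp_log hk] at a2

theorem bil_bounds {B : Cn n → Bil n} {K : Set (Cn n)} (hc : IsCompact K) (h1 : ContinuousOn B K)
    (h : ∀ z ∈ K, ∀ v, v ≠ 0 → 0 < B z v v) : ∃ m > 0, ∃ C > 0, ∀ z ∈ K, ∀ v,
      m * ‖v‖ ^ 2 ≤ B z v v ∧ B z v v ≤ C * ‖v‖ ^ 2 := by
  obtain ⟨C, hC⟩ := hc.exists_bound_of_continuousOn h1
  obtain ⟨m, hm, h2⟩ := (hc.prod (isCompact_sphere (0 : Cn n) 1)).exists_forall_le'
    (f := fun p => B p.1 p.2 p.2) (a := 0)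
    (((h1.comp continuousOn_fst fun p hp => hp.1).clm_apply continuousOn_snd).clm_apply
      continuousOn_snd) fun p hp => h _ hp.1 _ (ne_zero_of_mem_unit_sphere ⟨_, hp.2⟩)
  refine ⟨m, hm, |C| + 1, by positivity, fun z hz v => ⟨?_, ?_⟩⟩
  · rcases eq_or_ne v 0 with rfl | hv
    · simp
    have h3 := h2 (z, ‖v‖⁻¹ • v) ⟨hz, by simp [norm_smul, hv]⟩
    simp only [map_smul, smul_apply, smul_eq_mul] at h3
    have h4 := norm_pos_iff.2 hv
    rw [← le_div_iff₀ (by positivity)]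
    convert h3 using 1; field_simp
  · have := (le_abs_self _).trans ((B z).le_opNorm₂ v v)
    nlinarith [hC z hz, le_abs_self C, sq_nonneg ‖v‖]

theorem cv_of_bil {B : Cn n → Bil n} {Y : Cn n} {S : Set ℝ} (h2 : ∀ t ∈ S, ContDiffAt ℝ 2 B (t • Y))
    (hH : ∀ t ∈ S, ∀ᶠ w in 𝓝 (t • Y), IsH (B w) ∧ fderiv ℝ B w (I • Y) = 0)
    (hp : ∀ t ∈ S, ∀ v, v ≠ 0 → 0 < B (t • Y) v v)
    (hR : ∀ t ∈ S, ∀ X, 0 ≤ bisec (fun w => hm (B w)) (t • Y) X Y) :
    Cv S (fun t => hm (B (t • Y))) (fun t => hm (fderiv ℝ B (t • Y) Y))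
      fun t => hm (fderiv ℝ (fderiv ℝ B) (t • Y) Y Y) := by
  let H : Bil n →L[ℝ] Mt n := LinearMap.toContinuousLinearMap (E := Bil n) hm
  have d0 : ∀ t : ℝ, HasDerivAt (fun t : ℝ => t • Y) Y t := fun t => by
    simpa using (hasDerivAt_id t).smul_const Y
  have d1 := fun t ht => (h2 t ht).differentiableAt (by simp)
  have d2 := fun t ht => ((h2 t ht).fderiv_right (m := 1) (by norm_num)).differentiableAt (by simp)
  refine ⟨fun t ht => ?_, fun t ht => ?_, fun t ht => (hH t ht).self_of_nhds.1.posDef (hp t ht),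
    fun t ht => (IsH.fderiv ((hH t ht).mono fun w hw => hw.1) (d1 t ht) Y).herm, fun t ht x => ?_⟩
  · have := (d1 t ht).hasFDerivAt.comp_hasDerivAt t (d0 t)
    exact H.hasFDerivAt.comp_hasDerivAt t this
  · have := ((d2 t ht).hasFDerivAt.comp_hasDerivAt t (d0 t)).clm_apply (hasDerivAt_const t Y)
    rw [map_zero, add_zero] at this
    exact H.hasFDerivAt.comp_hasDerivAt t this
  · have a1 := bisec_eq (h2 t ht) (star x) Y
    have a3 := ((d2 t ht).hasFDerivAt.clm_apply (hasFDerivAt_const (I • Y) _)).unique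
      ((hasFDerivAt_const (0 : Bil n) _).congr_of_eventuallyEq ((hH t ht).mono fun w hw => hw.2))
    have a4 : fderiv ℝ (fderiv ℝ B) (t • Y) (I • Y) (I • Y) = 0 := by
      simpa using DFunLike.congr_fun a3 (I • Y)
    have a5 := hR t ht (star x)
    rw [a4, (hH t ht).self_of_nhds.2, map_zero, smul_zero, add_zero, add_zero, sub_zero,
      star_star] at a1
    rw [fm_apply, ← a1]
    positivity

variable {M : Type} [TopologicalSpace M] [ChartedSpace (Cn n) M]
  [Bundle.RiemannianBundle fun x : M => TangentSpace 𝓘(ℝ, Cn n) x] {a : ℝ → M → M}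

theorem IsKaehler.bounds (hK : IsKaehler n M) {f : Cn n → M} {K : Set (Cn n)} (hc : IsCompact K)
    (h : ∀ z ∈ K, IsLoc n f z) : ∃ m > 0, ∃ C > 0, ∀ z ∈ K, ∀ v,
      m * ‖v‖ ^ 2 ≤ Bm f z v v ∧ Bm f z v v ≤ C * ‖v‖ ^ 2 :=
  bil_bounds hc (fun z hz => (hK.diff (h z hz)).continuousAt.continuousWithinAt)
    fun z hz _ hv => Bm_pos (h z hz) hv

variable (α a) in
/-- Equivariant local biholomorphisms on `D`. -/
def Good (ψ : Cn n → M) (D : Set (Cn n)) : Prop :=
  ∀ z ∈ D, IsLoc n ψ z ∧ ∀ t : ℝ, ψ (fl α (t * I) z) = a t (ψ z)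

variable [IsManifold 𝓘(ℂ, Cn n) ω M]

theorem Good.exists_cv (hK : IsKaehler n M) (hR : NonnegBisec n M) (ha : IsIsomFlow n a)
    (hα : ∀ j, 1 ≤ α j) {ψ : Cn n → M} {D : Set (Cn n)} (h : Good α a ψ D) (ho : IsOpen D)
    {s : Cn n} (hs : s ≠ 0) : ∃ G G1 G2, Cv {t : ℝ | fl α t s ∈ D} G G1 G2 ∧
      ∀ t : ℝ, fl α t s ∈ D → ∀ x, fm x x (G t) =
        Bm ψ (fl α t s) (fl α t (star x)) (fl α t (star x)) := by
  obtain ⟨j, hj⟩ := Function.ne_iff.1 (gn_ne hα hs)
  set Y := gn α s with hY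
  let l : Cn n →L[ℂ] ℂ := (Y j)⁻¹ • ContinuousLinearMap.proj j
  have l1 : l Y = 1 := inv_mul_cancel₀ hj
  let χ : Cn n → Cn n := fun y => fl α (l y) (s + y - l y • Y)
  have c1 : ∀ (w : ℂ) y, χ (y + w • Y) = fl α w (χ y) := fun w y => by
    simp only [χ, map_add, map_smul, l1, smul_eq_mul, mul_one, ← fl_add, add_comm w, add_smul]
    congr 1; abel
  have c0 : ∀ t : ℝ, χ (t • Y) = fl α t s := fun t => by
    simpa [χ] using c1 t 0
  have c2 := fun y => hasFDerivAt_fl (α := α) l.hasFDerivAt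
    (((hasFDerivAt_id y).const_add s).sub (l.hasFDerivAt.smul_const Y))
  have c3 : ∀ t : ℝ, HasFDerivAt χ (fl α t) (t • Y) := fun t => by
    refine (c2 (t • Y)).congr_fderiv ?_
    have : l (t • Y) = t := by rw [← coe_smul, map_smul, l1, smul_eq_mul, mul_one]
    ext1 v; simp [this, ← hY]
  have c4 : Continuous χ := continuous_iff_continuousAt.2 fun y => (c2 y).continuousAt
  have c5 : ∀ t : ℝ, fl α t s ∈ D → IsLoc n (ψ ∘ χ) (t • Y) := fun t ht =>
    IsLoc.comp (h _ (c0 t ▸ ht)).1 (isLoc_flat (.of_forall fun y => (c2 y).differentiableAt)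
      (by rw [(c3 t).fderiv]; exact LeftInverse.injective (fl_neg α t)))
  have c6 : ∀ y, χ y ∈ D → IsLoc n (ψ ∘ χ) y → fderiv ℝ (Bm (ψ ∘ χ)) y (I • Y) = 0 := by
    intro y hy hl
    have a0 : HasDerivAt (fun θ : ℝ => y + θ • I • Y) (I • Y) 0 := by
      simpa using ((hasDerivAt_id (0 : ℝ)).smul_const (I • Y)).const_add y
    have a1 := (hK.diff hl).hasFDerivAt.comp_hasDerivAt_of_eq (0 : ℝ) a0 (by simp)
    refine a1.unique ((hasDerivAt_const (0 : ℝ) (Bm (ψ ∘ χ) y)).congr_of_eventuallyEq ?_)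
    filter_upwards [a0.continuousAt.eventually (p := fun w => IsLoc n (ψ ∘ χ) w)
      (by simpa using hl.eventually)] with θ hθ
    rw [← Bm_act ha θ hl.md, ← Bm_congr (f := (ψ ∘ χ) ∘ fun w => w + θ • I • Y)]
    · ext1 u; ext1 v
      exact (Bm_comp (g := fun w => w + θ • I • Y) hθ.md ((hasFDerivAt_id y).add_const _) u v).symm
    · filter_upwards [c4.continuousAt.eventually (ho.eventually_mem hy)] with w hw
      simp only [comp_apply]
      rw [← coe_smul, smul_smul, c1, (h _ hw).2]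
  refine ⟨_, _, _, cv_of_bil (B := Bm (ψ ∘ χ)) (Y := Y) (fun t ht => hK.two (c5 t ht))
    (fun t ht => ?_) (fun t ht v hv => Bm_pos (c5 t ht) hv) fun t ht X => hR _ _ (c5 t ht) X Y,
    fun t ht x => ?_⟩
  · filter_upwards [(c5 t ht).eventually,
      c4.continuousAt.eventually (ho.eventually_mem (by rwa [c0]))] with w b1 b2
      using ⟨hK.isH b1, c6 w b2 b1⟩
  · rw [(hK.isH (c5 t ht)).fm, Bm_comp (h _ (c0 t ▸ ht)).1.md ((c3 t).restrictScalars ℝ), c0]
    rfl

end Pool.Agent.Lib.MP_124863_gt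
end

-- part Pool.Agent.Lib.MP_124863_gt.Nrm
section

/-! Normal coordinates on Kaehler manifolds. -/

open scoped Manifold ContDiff Topology Bundle Matrix
open Set Filter Function Metric Complex

namespace Pool.Agent.Lib.MP_124863_gt

variable {n : ℕ}

theorem exists_gamma {B : Bil n} (hH : IsH B) (hp : ∀ v, v ≠ 0 → 0 < B v v) {D : Cn n →L[ℝ] Bil n}
    (hD : ∀ x, IsH (D x)) (hc : ∀ u v w, D u (I • v) w + D v (I • w) u + D w (I • u) v = 0) :
    ∃ Γ : Cn n →L[ℝ] Cn n →L[ℝ] Cn n, (∀ x u, Γ x u = Γ u x) ∧ (∀ x u, Γ x (I • u) = I • Γ x u) ∧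
      ∀ x u v, B (Γ x u) v + B u (Γ x v) = D x u v := by
  have h1 : Injective B := (injective_iff_map_eq_zero B).2 fun v hv => by_contra fun h => by
    simpa [hv] using hp v h
  have h2 : Module.finrank ℝ (Cn n) = Module.finrank ℝ (Cn n →L[ℝ] ℝ) := by
    rw [← (LinearMap.toContinuousLinearMap (𝕜 := ℝ) (E := Cn n) (F' := ℝ)).finrank_eq]
    exact Subspace.dual_finrank_eq.symm
  obtain ⟨R, hR⟩ := B.toLinearMap.exists_rightInverse_of_surjective (LinearMap.range_eq_top.2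
    ((LinearMap.injective_iff_surjective_of_finrank_eq_finrank h2).1 h1))
  let J : Cn n →L[ℝ] Cn n := I • ContinuousLinearMap.id ℝ (Cn n)
  let Γ : Cn n →L[ℝ] Cn n →L[ℝ] Cn n :=
    (ContinuousLinearMap.compL ℝ (Cn n) _ _ (LinearMap.toContinuousLinearMap R)).comp
      ((1 / 2 : ℝ) • (D + (ContinuousLinearMap.compL ℝ (Cn n) _ _
        ((ContinuousLinearMap.compL ℝ (Cn n) (Cn n) ℝ).flip J)).comp (D.comp J)))
  have h3 : ∀ x u v, B (Γ x u) v = (D x u v + D (I • x) u (I • v)) / 2 := fun x u v => by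
    have := LinearMap.congr_fun hR ((1 / 2 : ℝ) • (D x u + (D (I • x) u).comp J))
    refine (DFunLike.congr_fun this v).trans ?_
    simp [J]; ring
  have hI : ∀ v : Cn n, I • I • v = -v := fun v => by rw [smul_smul, I_mul_I, neg_one_smul]
  refine ⟨Γ, fun x u => h1 (ContinuousLinearMap.ext fun v => ?_),
    fun x u => h1 (ContinuousLinearMap.ext fun v => ?_), fun x u v => ?_⟩
  · have a1 := hc x u (I • v)
    have a2 := hc (I • x) (I • u) (I • v)
    simp only [hI, map_neg, neg_apply, (hD _).inv] at a1 a2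
    rw [h3, h3]
    linarith [(hD u).symm v x, (hD (I • u)).symm v (I • x), (hD (I • u)).skew x v,
      (hD (I • v)).skew x u]
  · rw [hH.skew, h3, h3, (hD _).skew, (hD _).inv, hI, map_neg]; ring
  · rw [hH.symm u, h3, h3]
    linarith [(hD x).symm u v, (hD (I • x)).skew u v, (hD (I • x)).symm v (I • u)]

theorem neg_bound {L : Cn n → Bil n} (hc : Continuous L) (hs : ∀ (r : ℝ) Y, L (r • Y) = r ^ 2 • L Y)
    (hp : ∀ X Y, X ≠ 0 → Y ≠ 0 → 0 < -L Y X X) :
    ∃ κ > 0, ∀ X Y, L Y X X ≤ -κ * ‖Y‖ ^ 2 * ‖X‖ ^ 2 := by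
  obtain ⟨κ, hκ, h5⟩ := ((isCompact_sphere (0 : Cn n) 1).prod
    (isCompact_sphere (0 : Cn n) 1)).exists_forall_le' (a := 0) (f := fun p => -L p.2 p.1 p.1)
    (((hc.comp continuous_snd).clm_apply continuous_fst).clm_apply continuous_fst).neg.continuousOn
    fun p h => hp _ _ (ne_zero_of_mem_unit_sphere ⟨_, h.1⟩) (ne_zero_of_mem_unit_sphere ⟨_, h.2⟩)
  refine ⟨κ, hκ, fun X Y => ?_⟩
  rcases eq_or_ne X 0 with rfl | hX
  · simp
  rcases eq_or_ne Y 0 with rfl | hY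
  · simpa using congrArg (fun A : Bil n => A X X) (hs 0 0) |>.le
  have h6 := h5 (‖X‖⁻¹ • X, ‖Y‖⁻¹ • Y) ⟨by simp [norm_smul, hX], by simp [norm_smul, hY]⟩
  have a1 := norm_pos_iff.2 hX
  have a2 := norm_pos_iff.2 hY
  simp only [hs, map_smul, smul_apply, smul_eq_mul] at h6
  field_simp at h6
  linarith

theorem lap_neg {B : Cn n → Bil n} {z : Cn n} (h : ContDiffAt ℝ 2 B z)
    (hH : ∀ᶠ w in 𝓝 z, IsH (B w)) (h0 : fderiv ℝ B z = 0)
    (hR : ∀ X Y, X ≠ 0 → Y ≠ 0 → 0 < bisec (fun w => hm (B w)) z X Y) : ∃ κ > 0, ∀ X Y,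
      (fderiv ℝ (fderiv ℝ B) z Y Y + fderiv ℝ (fderiv ℝ B) z (I • Y) (I • Y)) X X ≤
        -κ * ‖Y‖ ^ 2 * ‖X‖ ^ 2 := by
  have h2 := (h.fderiv_right (m := 1) (by norm_num)).differentiableAt (by simp)
  have h3 : ∀ Y, IsH (fderiv ℝ (fderiv ℝ B) z Y Y) := fun Y => by
    have a1 := h2.hasFDerivAt.clm_apply (hasFDerivAt_const Y z)
    have a2 := IsH.fderiv (B := fun w => fderiv ℝ B w Y) (by
      filter_upwards [hH.eventually_nhds, h.eventually (by simp)] with w b1 b2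
        using IsH.fderiv b1 (b2.differentiableAt (by simp)) Y) a1.differentiableAt Y
    rw [a1.fderiv] at a2
    simpa using a2
  have h4 := bisec_eq h
  generalize fderiv ℝ (fderiv ℝ B) z = D at h3 h4
  have h5 : Continuous fun Y => D Y Y := D.continuous.clm_apply continuous_id
  refine neg_bound (L := fun Y => D Y Y + D (I • Y) (I • Y))
    (h5.add (h5.comp (continuous_const_smul I))) (fun r Y => ?_) fun X Y hX hY => ?_
  · simp only [smul_comm I r, map_smul, smul_apply, smul_smul, smul_add, sq]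
  · have a1 := h4 X Y
    have a2 := hR _ _ hX hY
    rw [h0] at a1
    simp only [zero_apply, map_zero, smul_zero, add_zero, mul_zero, map_add, Matrix.neg_mulVec,
      Matrix.add_mulVec, dotProduct_neg, dotProduct_add, (h3 _).form] at a1
    simp at a1 ⊢
    linarith

variable {M : Type} [TopologicalSpace M] [ChartedSpace (Cn n) M]
  [Bundle.RiemannianBundle fun x : M => TangentSpace 𝓘(ℝ, Cn n) x] [IsManifold 𝓘(ℂ, Cn n) ω M]

attribute [local irreducible] Bm

theorem IsKaehler.exists_normal (hK : IsKaehler n M) (z : M) :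
    ∃ f : Cn n → M, IsLoc n f 0 ∧ f 0 = z ∧ fderiv ℝ (Bm f) 0 = 0 := by
  set e := chartAt (Cn n) z
  have hz : z ∈ e.source := mem_chart_source _ z
  have h1 : IsLoc n e.symm (e z) := isLoc_chart_symm (e.map_source hz)
  obtain ⟨Γ, g1, g2, g3⟩ := exists_gamma (hK.isH h1) (fun v hv => Bm_pos h1 hv)
    (IsH.fderiv (h1.eventually.mono fun w hw => hK.isH hw) (hK.diff h1)) (hK.cyc h1)
  let τ : Cn n → Cn n := fun w => e z + w - (1 / 2 : ℝ) • Γ w w
  have t0 : τ 0 = e z := by simp [τ]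
  have t1 : ∀ w, HasFDerivAt τ (ContinuousLinearMap.id ℝ _ - Γ w) w := fun w => by
    refine (((hasFDerivAt_id w).const_add (e z)).sub
      ((Γ.hasFDerivAt.clm_apply (hasFDerivAt_id w)).const_smul (1 / 2 : ℝ))).congr_fderiv ?_
    ext1 v
    simp [g1 v w]
    module
  have t2 : ∀ w, DifferentiableAt ℂ τ w := fun w =>
    differentiableAt_of_comm (t1 w) fun v => by simp [g2, smul_sub]
  have t3 : IsLoc n τ 0 := isLoc_flat (.of_forall t2) fun u v h => by
    have := ((t2 0).hasFDerivAt.restrictScalars ℝ).unique (t1 0)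
    simpa using ((DFunLike.congr_fun this u).symm.trans h).trans (DFunLike.congr_fun this v)
  rw [← t0] at h1
  have h2 := h1.comp t3
  refine ⟨_, h2, by rw [comp_apply, t0, e.left_inv hz], ?_⟩
  ext1 x; ext1 u; ext1 v
  have a1 := ((hK.diff h2).hasFDerivAt.clm_apply (hasFDerivAt_const u _)).clm_apply
    (hasFDerivAt_const v _)
  have a2 := fun u => (hasFDerivAt_const u (0 : Cn n)).sub (Γ.flip u).hasFDerivAt
  have a3 := (((hK.diff h1).hasFDerivAt.comp _ (t1 0)).clm_apply (a2 u)).clm_apply (a2 v)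
  have a4 := a1.unique (a3.congr_of_eventuallyEq
    ((t3.md.continuousAt.eventually h1.1).mono fun w hw => Bm_comp hw (t1 w) u v))
  have a5 := DFunLike.congr_fun a4 x
  have a6 := g3 x u v
  simp [t0] at a5 ⊢
  linarith

end Pool.Agent.Lib.MP_124863_gt
end

-- part Pool.Agent.Lib.MP_124863_gt.Step
section

/-! The local second variation estimate for distances between holomorphic discs. -/

open scoped Manifold ContDiff Topology Bundle
open Set Filter Function Metric Complex MeasureTheory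

namespace Pool.Agent.Lib.MP_124863_gt

variable {n : ℕ} {M : Type} [MetricSpace M] [ChartedSpace (Cn n) M]
  [Bundle.RiemannianBundle fun x : M => TangentSpace 𝓘(ℝ, Cn n) x]

variable (n) in
/-- Germs of holomorphic discs. -/
def Disc (g : ℂ → M) : Prop := ∀ᶠ ζ in 𝓝 0, MDifferentiableAt 𝓘(ℂ, ℂ) 𝓘(ℂ, Cn n) g ζ

variable (n) in
/-- The squared speed of a disc. -/
noncomputable def sp (g : ℂ → M) : ℝ :=
  ip (n := n) (g 0) (mfderiv 𝓘(ℂ, ℂ) 𝓘(ℂ, Cn n) g 0 (1 : ℂ))
    (mfderiv 𝓘(ℂ, ℂ) 𝓘(ℂ, Cn n) g 0 (1 : ℂ))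

theorem sp_congr {g g' : ℂ → M} (h : g =ᶠ[𝓝 0] g') : sp n g = sp n g' := by
  rw [sp, sp, h.mfderiv_eq, h.self_of_nhds]

theorem sp_comp {f : Cn n → M} {c : ℂ → Cn n} {W : Cn n}
    (hf : MDifferentiableAt 𝓘(ℂ, Cn n) 𝓘(ℂ, Cn n) f (c 0)) (hc : HasDerivAt c W 0) :
    sp n (f ∘ c) = Bm f (c 0) W W := by
  rw [sp, (hf.hasMFDerivAt.comp 0 hc.hasFDerivAt.hasMFDerivAt).mfderiv]
  change ip (f (c 0)) (mfderiv 𝓘(ℂ, Cn n) 𝓘(ℂ, Cn n) f (c 0) ((1 : ℂ) • W))
    (mfderiv 𝓘(ℂ, Cn n) 𝓘(ℂ, Cn n) f (c 0) ((1 : ℂ) • W)) = _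
  rw [one_smul, ← mfderiv_real hf]; rfl

attribute [local irreducible] Bm

/-- Upper bound for the Laplacian in the mean value sense. -/
def QLe (u : ℂ → ℝ) (b : ℝ) : Prop := ∀ ε > 0, ∀ᶠ r : ℝ in 𝓝[>] 0, four u r ≤ (b + ε) * r ^ 2

theorem sqrt_smul_le {B : Bil n} {v : Cn n} {s : ℝ} (hs : 0 ≤ s) (h : 0 ≤ B v v) :
    √(B (s • v) (s • v)) ≤ s * (B v v + 1) / 2 := by
  simp only [map_smul, smul_apply, smul_eq_mul]
  rw [← mul_assoc, Real.sqrt_mul (mul_self_nonneg _), Real.sqrt_mul_self hs, mul_div_assoc]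
  exact mul_le_mul_of_nonneg_left (Real.sqrt_le_iff.2 ⟨by positivity, by
    nlinarith [sq_nonneg (B v v - 1)]⟩) hs

variable [IsManifold 𝓘(ℂ, Cn n) ω M] [IsRiemannianManifold 𝓘(ℝ, Cn n) M]

theorem sum_dist_le (hK : IsKaehler n M) {f : Cn n → M} {c c' : ℝ → Cn n}
    (hf : ∀ t ∈ Icc (0 : ℝ) 1, IsLoc n f (c t)) (hd : ∀ t ∈ Icc (0 : ℝ) 1, HasDerivAt c (c' t) t)
    (hc : ContinuousOn c' (Icc 0 1)) {p q : ℂ → Cn n} {ζ : Fin 4 → ℂ}
    (hz : ∀ t ∈ Icc (0 : ℝ) 1, ∀ χ ∈ Icc (0 : ℝ) 1, ∀ k, IsLoc n f (c t + p (ζ k) + χ • q (ζ k)))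
    {Z ε ℓ : ℝ} (hZ0 : 0 ≤ Z) (hε : 0 < ε) (h0 : 0 < dist (f (c 0)) (f (c 1)))
    (hℓ : ∫ t in 0..1, √(Bm f (c t) (c' t) (c' t)) ≤ ℓ)
    (hZ : ∀ t ∈ Icc (0 : ℝ) 1, ∀ χ ∈ Icc (0 : ℝ) 1, ∀ u, Bm f (c t) u u ≤ 1 →
      ∀ θ ∈ Icc 0 (dist (f (c 0)) (f (c 1)))⁻¹, ∑ k, en (Bm f) p q (c t, χ, u, θ) (ζ k) ≤ Z) :
    ∑ k, dist (f (c 0 + p (ζ k))) (f (c 1 + p (ζ k) + q (ζ k))) ≤ (ℓ + ε) * (Z + 4) / 2 := by
  have hB : ∀ {x v : ℝ → Cn n}, (∀ t ∈ Icc (0 : ℝ) 1, IsLoc n f (x t)) → ContinuousOn x (Icc 0 1) →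
      ContinuousOn v (Icc 0 1) → ContinuousOn (fun t => Bm f (x t) (v t) (v t)) (Icc 0 1) :=
    fun h1 h2 h3 => (ContinuousOn.clm_apply (fun t ht =>
      (hK.diff (h1 t ht)).continuousAt.comp_continuousWithinAt (h2 t ht)) h3).clm_apply h3
  have hcc : ContinuousOn c (Icc 0 1) := fun t ht => (hd t ht).continuousAt.continuousWithinAt
  have h1 := (hB hf hcc hc).sqrt
  obtain ⟨σ, s1, s2, s3⟩ : ∃ σ : ℝ → ℝ, Continuous σ ∧ (∀ t, 0 < σ t) ∧
      ∀ t ∈ Icc (0 : ℝ) 1, σ t = √(Bm f (c t) (c' t) (c' t)) + ε :=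
    ⟨fun t => IccExtend zero_le_one (fun t => √(Bm f (c t) (c' t) (c' t))) t + ε,
      (h1.domRestrict.Icc_extend').add continuous_const, fun t => by
        simp only [IccExtend_apply]; positivity, fun t ht => by simp only [IccExtend_of_mem _ _ ht]⟩
  obtain ⟨S, hS⟩ : ∃ S, ∫ t in 0..1, σ t = S := ⟨_, rfl⟩
  have s4 : S ≤ ℓ + ε := by
    rw [← hS, intervalIntegral.integral_congr (by rwa [uIcc_of_le zero_le_one]),
      intervalIntegral.integral_add (h1.intervalIntegrable_of_Icc zero_le_one) (by simp)]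
    simpa using hℓ
  have s5 : dist (f (c 0)) (f (c 1)) ≤ S := hS ▸ dist_le_integral' hf hd hc s1.continuousOn
    fun t ht => by linarith [s3 t ht]
  have s6 := h0.trans_le s5
  let χ : ℝ → ℝ := fun t => (∫ s in 0..t, σ s) / S
  have x1 : ∀ t, HasDerivAt χ (σ t / S) t := fun t =>
    (s1.integral_hasStrictDerivAt 0 t).hasDerivAt.div_const S
  have x0 : χ 0 = 0 := by simp [χ]
  have x2 : χ 1 = 1 := by simp only [χ, hS, div_self s6.ne']
  have x3 : Monotone χ := monotone_of_hasDerivAt_nonneg x1 fun t => (div_pos (s2 t) s6).le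
  have x4 : ∀ t ∈ Icc (0 : ℝ) 1, χ t ∈ Icc (0 : ℝ) 1 := fun t ht => ⟨x0 ▸ x3 ht.1, x2 ▸ x3 ht.2⟩
  have x5 : Continuous χ := continuous_iff_continuousAt.2 fun t => (x1 t).continuousAt
  let τ : Fin 4 → ℝ → ℝ := fun k t =>
    σ t * (en (Bm f) p q (c t, χ t, (σ t)⁻¹ • c' t, S⁻¹) (ζ k) + 1) / 2
  have t0 : ∀ k, ContinuousOn
      (fun t => en (Bm f) p q (c t, χ t, (σ t)⁻¹ • c' t, S⁻¹) (ζ k)) (Icc 0 1) := fun k =>
    hB (x := fun t => c t + p (ζ k) + χ t • q (ζ k)) (v := fun t => (σ t)⁻¹ • c' t + S⁻¹ • q (ζ k))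
      (fun t ht => hz t ht _ (x4 t ht) k) (by fun_prop) (((s1.continuousOn.inv₀
      fun t _ => (s2 t).ne').smul hc).add continuousOn_const)
  have t1 : ∀ k, ContinuousOn (τ k) (Icc 0 1) := fun k =>
    (s1.continuousOn.mul ((t0 k).add continuousOn_const)).div_const 2
  have t2 : ∀ k, dist (f (c 0 + p (ζ k))) (f (c 1 + p (ζ k) + q (ζ k))) ≤ ∫ t in 0..1, τ k t :=
    fun k => by
      have := dist_le_integral' (c := fun t => c t + p (ζ k) + χ t • q (ζ k))
        (fun t ht => hz t ht _ (x4 t ht) k)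
        (fun t ht => ((hd t ht).add_const _).add ((x1 t).smul_const _))
        (hc.add (by fun_prop)) (t1 k) fun t ht => by
          have e : c' t + (σ t / S) • q (ζ k) = σ t • ((σ t)⁻¹ • c' t + S⁻¹ • q (ζ k)) := by
            rw [smul_add, smul_smul, smul_smul, mul_inv_cancel₀ (s2 t).ne', one_smul, div_eq_mul_inv]
          rw [e]
          exact sqrt_smul_le (s2 t).le (Bm_nonneg _ _ _)
      simpa [x0, x2] using this
  refine (Finset.sum_le_sum fun k _ => t2 k).trans ?_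
  rw [← intervalIntegral.integral_finsetSum fun k _ => (t1 k).intervalIntegrable_of_Icc zero_le_one]
  refine (intervalIntegral.integral_mono_on (g := fun t => σ t * ((Z + 4) / 2)) zero_le_one
    ((continuousOn_finsetSum _ fun k _ => t1 k).intervalIntegrable_of_Icc zero_le_one)
    ((s1.mul continuous_const).intervalIntegrable _ _) fun t ht => ?_).trans ?_
  · have a1 := hZ t ht _ (x4 t ht) ((σ t)⁻¹ • c' t) (by
      simp only [map_smul, smul_apply, smul_eq_mul]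
      rw [← mul_assoc, ← mul_inv, inv_mul_le_iff₀ (mul_pos (s2 t) (s2 t)), s3 t ht]
      nlinarith [Real.sq_sqrt (Bm_nonneg f (c t) (c' t)), Real.sqrt_nonneg (Bm f (c t) (c' t) (c' t))])
      S⁻¹ ⟨(inv_pos.2 s6).le, inv_anti₀ h0 s5⟩
    simp only [τ, Fin.sum_univ_four] at a1 ⊢
    nlinarith [s2 t]
  · rw [intervalIntegral.integral_mul_const, hS, mul_div_assoc]
    gcongr

theorem le_of_forall_small {x y k δ : ℝ} (hδ : 0 < δ) (h : ∀ ε ∈ Ioc 0 δ, x ≤ y + k * ε) :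
    x ≤ y := by
  have : Tendsto (fun ε => y + k * ε) (𝓝[>] 0) (𝓝 y) :=
    ((by fun_prop : Continuous fun ε => y + k * ε).tendsto' 0 y (by simp)).mono_left
      nhdsWithin_le_nhds
  exact ge_of_tendsto this (mem_of_superset (Ioc_mem_nhdsGT hδ) h)

variable [IsManifold 𝓘(ℝ, Cn n) ∞ M]

theorem one_step (hK : IsKaehler n M) (hR : PosBisec n M) (z : M) : ∃ κ > 0, ∀ η > 0, ∃ U ∈ 𝓝 z,
    ∀ y ∈ U, ∀ y₁ ∈ U, y ≠ y₁ → ∀ g, Disc n g → g 0 = y → ∀ l ∈ Icc (0 : ℝ) 1, ∃ g₁, Disc n g₁ ∧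
      g₁ 0 = y₁ ∧ sp n g₁ ≤ l ^ 2 * (1 + η * dist y y₁) * sp n g ∧ (l = 0 → ∀ ζ, g₁ ζ = y₁) ∧
      QLe (fun ζ => dist (g ζ) (g₁ ζ))
        ((6 * (1 - l) ^ 2 / dist y y₁ + η * dist y y₁ - κ * l ^ 2 * dist y y₁) * sp n g) := by
  obtain ⟨f, hf, rfl, hD⟩ := hK.exists_normal z
  obtain ⟨κ, hκ, hL⟩ := lap_neg (hK.two hf) (hf.eventually.mono fun w hw => hK.isH hw) hD
    (herm_eq f ▸ hR f 0 hf)
  obtain ⟨R, hR0, hR1⟩ := nhds_basis_closedBall.eventually_iff.1 hf.eventually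
  obtain ⟨m, hm, C, hC, hb⟩ := hK.bounds (isCompact_closedBall 0 R) hR1
  obtain ⟨N, hN, hN'⟩ : ∃ N ≥ (1 : ℝ), ∀ a ∈ closedBall 0 R, ∀ v, ‖v‖ ^ 2 ≤ N * Bm f a v v :=
    ⟨m⁻¹ + 1, by simp [hm.le], fun a ha v => by
      have h2 := (le_inv_mul_iff₀ hm).2 (hb a ha v).1
      nlinarith [Bm_nonneg f a v]⟩
  refine ⟨κ / (2 * C ^ 2), by positivity, fun η hη => ?_⟩
  obtain ⟨η₁, e0, e1, e2⟩ : ∃ η₁ > 0, η₁ * N ^ 4 ≤ 1 ∧ 3 * η₁ * N ^ 4 ≤ η :=
    ⟨min η 1 / (3 * N ^ 4), by positivity, by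
      field_simp; linarith [min_le_right η 1], by field_simp; exact min_le_left η 1⟩
  have e3 : ∀ k ≤ 4, η₁ * N ^ k ≤ η₁ * N ^ 4 := fun k hk => by gcongr
  obtain ⟨ρ', r0', hs'⟩ := nhds_basis_closedBall.eventually_iff.1 (exists_small (hK.two hf) hD e0)
  obtain ⟨ρ, r0, r1, r2, r3⟩ : ∃ ρ > 0, ρ ≤ R / 2 ∧ ρ ≤ 1 / 2 ∧ ρ ≤ ρ' :=
    ⟨min ρ' (min (R / 2) (1 / 2)), by positivity, by simp, by simp, by simp⟩
  have hs := fun a (ha : a ∈ closedBall 0 ρ) => hs' (closedBall_subset_closedBall r3 ha)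
  have hρ : closedBall (0 : Cn n) ρ ⊆ closedBall 0 R := closedBall_subset_closedBall (by linarith)
  have hcl := fun {a b} ha hb => bil_close (a := a) (b := b) (convex_closedBall 0 ρ)
    (fun a ha => hK.diff (hR1 (hρ ha))) e0.le (fun a ha => (hs a ha).1) ha hb
  obtain ⟨k, k1, k2, k3⟩ := hf.inv
  obtain ⟨δ, hδ, hV⟩ := eventually_nhds_iff_ball.1 (k2.and (k3.eventually.and
    (k3.md.continuousAt.eventually (p := fun a => a ∈ closedBall 0 ρ)
      (by rw [k1.self_of_nhds]; exact closedBall_mem_nhds _ r0))))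
  refine ⟨_, ball_mem_nhds _ (by positivity : 0 < δ / 4), fun y hy y₁ hy₁ hne g hg g0 l hl => ?_⟩
  have hd := dist_pos.2 hne
  have hd' : dist y y₁ < δ / 2 := by
    linarith [dist_triangle_right y y₁ (f 0), mem_ball.1 hy, mem_ball.1 hy₁]
  have v0 := hV y (ball_subset_ball (by linarith) hy)
  have v1 := hV y₁ (ball_subset_ball (by linarith) hy₁)
  have hp : ∀ ε ∈ Ioc 0 (δ / 4), ∃ c c' : ℝ → Cn n, c 0 = k y ∧ c 1 = k y₁ ∧
      (∀ t ∈ Icc (0 : ℝ) 1, c t ∈ closedBall 0 ρ ∧ HasDerivAt c (c' t) t) ∧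
      ContinuousOn c' (Icc 0 1) ∧ ∫ t in 0..1, √(Bm f (c t) (c' t) (c' t)) ≤ dist y y₁ + ε := by
    intro ε hε
    have a1 : ball y (dist y y₁ + ε) ⊆ ball (f 0) δ :=
      ball_subset_ball' (by linarith [mem_ball.1 hy, hε.2])
    obtain ⟨c, c', a2, a3, a4, a5, a6⟩ := exists_chart_path hK (lt_add_of_pos_right _ hε.1)
      fun x hx => ⟨(hV x (a1 hx)).1, (hV x (a1 hx)).2.1, hR1 (hρ (hV x (a1 hx)).2.2)⟩
    refine ⟨c, c', a2, a3, fun t ht => ⟨?_, (a4 t ht).2⟩, a5, a6⟩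
    obtain ⟨x, hx, e⟩ := (a4 t ht).1
    exact e ▸ (hV x (a1 hx)).2.2
  have hn : ‖k y₁ - k y‖ ≤ N * dist y y₁ := by
    refine le_of_forall_small (k := N) (by positivity : 0 < δ / 4) fun ε hε => ?_
    obtain ⟨c, c', a2, a3, a4, a5, a6⟩ := hp ε hε
    rw [← a2, ← a3, ← intervalIntegral.integral_eq_sub_of_hasDerivAt (fun t ht =>
      (a4 t (by rwa [uIcc_of_le zero_le_one] at ht)).2) (a5.intervalIntegrable_of_Icc zero_le_one)]
    refine (intervalIntegral.norm_integral_le_of_norm_le zero_le_one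
      (g := fun t => N * √(Bm f (c t) (c' t) (c' t))) (.of_forall fun t ht => ?_)
      (ContinuousOn.intervalIntegrable_of_Icc zero_le_one (continuousOn_const.mul
        ((ContinuousOn.clm_apply (fun t ht => ((hK.diff (hR1 (hρ (a4 t ht).1))).continuousAt.comp
          (a4 t ht).2.continuousAt).continuousWithinAt) a5).clm_apply a5).sqrt))).trans ?_
    · refine abs_le_of_sq_le_sq' ?_ (by positivity) |>.2
      rw [mul_pow, Real.sq_sqrt (Bm_nonneg _ _ _)]
      refine (hN' _ (hρ (a4 t (Ioc_subset_Icc_self ht)).1) _).trans ?_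
      gcongr
      exacts [Bm_nonneg _ _ _, le_self_pow₀ hN two_ne_zero]
    · rw [intervalIntegral.integral_const_mul, ← mul_add]; gcongr
  have g1 := hg.self_of_nhds.continuousAt.eventually (p := fun x => x ∈ ball (f 0) δ)
    (isOpen_ball.eventually_mem (g0 ▸ ball_subset_ball (by linarith) hy))
  have g2 : AnalyticAt ℂ (k ∘ g) 0 := analyticAt_iff_eventually_differentiableAt.2 (by
    filter_upwards [hg, g1] with ζ a1 a2 using ((hV _ a2).2.1.md.comp ζ a1).differentiableAt)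
  obtain ⟨W, hW⟩ : ∃ W, HasDerivAt (k ∘ g) W 0 := ⟨_, g2.differentiableAt.hasDerivAt⟩
  have g3 : sp n g = Bm f (k y) W W := by
    rw [sp_congr (g' := f ∘ k ∘ g) (g1.mono fun ζ h => (hV _ h).1.symm), sp_comp (by
      rw [comp_apply, g0]; exact (hR1 (hρ v0.2.2)).md) hW, comp_apply, g0]
  obtain ⟨w, hw⟩ : ∃ w, Bm f (k y) W W = w := ⟨_, rfl⟩
  have w0 : 0 ≤ w := hw ▸ Bm_nonneg _ _ _
  have w1 : ‖W‖ ^ 2 ≤ N * w := hw ▸ hN' _ (hρ v0.2.2) W
  have d1 : ∀ ζ : ℂ, HasDerivAt (fun ζ : ℂ => ζ • l • W) (l • W) ζ := fun ζ => by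
    simpa using (hasDerivAt_id ζ).smul_const (l • W)
  have d2 : IsLoc n f (k y₁ + (0 : ℂ) • l • W) := by simpa using hR1 (hρ v1.2.2)
  rw [g3, hw]
  refine ⟨f ∘ fun ζ => k y₁ + ζ • l • W, ?_, by simp [v1.1], ?_, fun h ζ => by simp [h, v1.1],
    fun ε hε => ?_⟩
  · exact (((d1 0).const_add _).continuousAt.eventually d2.1).mono fun ζ h =>
      h.comp ζ ((d1 ζ).const_add _).differentiableAt.mdifferentiableAt
  · rw [sp_comp d2.md ((d1 0).const_add _)]
    simp only [zero_smul, add_zero, map_smul, smul_apply, smul_eq_mul]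
    have a1 := hcl v0.2.2 v1.2.2 W
    have a2 : η₁ * ‖W‖ ^ 2 * ‖k y₁ - k y‖ ≤ η₁ * (N * w) * (N * dist y y₁) := by gcongr
    have a3 : η₁ * N ^ 2 * (dist y y₁ * w) ≤ η * (dist y y₁ * w) := by
      gcongr; linarith [e3 2 (by norm_num), show 0 ≤ η₁ * N ^ 4 by positivity]
    rw [← mul_assoc, ← sq, mul_assoc]
    gcongr
    linarith
  let p : ℂ → Cn n := fun ζ => (k ∘ g) ζ - k y
  let q : ℂ → Cn n := fun ζ => ζ • l • W - p ζ
  have p0 : p 0 = 0 := by simp [p, g0]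
  have q0 : q 0 = 0 := by simp [q, p0]
  have p1 : AnalyticAt ℂ p 0 := g2.sub analyticAt_const
  have q1 : AnalyticAt ℂ q 0 := (analyticAt_id.smul analyticAt_const).sub p1
  have p2 : deriv p 0 = W := (hW.sub_const _).deriv
  have q2 : deriv q 0 = l • W - W := ((d1 0).sub (hW.sub_const _)).deriv
  obtain ⟨δ', hδ', hP⟩ := eventually_nhds_iff_ball.1 (g1.and
    ((p1.continuousAt.eventually (closedBall_mem_nhds (p 0) (by positivity : 0 < R / 4))).and
    (q1.continuousAt.eventually (closedBall_mem_nhds (q 0) (by positivity : 0 < R / 4)))))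
  obtain ⟨A, hA⟩ : ∃ A, w * (12 * ((1 - l) / dist y y₁) ^ 2 + 6 * η₁ * N ^ 4) = A := ⟨_, rfl⟩
  obtain ⟨κ', hκ'⟩ : ∃ κ', κ * l ^ 2 / C ^ 2 * w = κ' := ⟨_, rfl⟩
  have A0 : 0 ≤ A := by rw [← hA]; positivity
  filter_upwards [en_four p1 q1 p0 q0 ((isCompact_closedBall 0 ρ).prod
    ((isCompact_Icc (a := (0 : ℝ)) (b := 1)).prod ((isCompact_closedBall 0 N).prod
      (isCompact_Icc (a := 0) (b := (dist y y₁)⁻¹))))) (fun x hx => hK.two (hR1 (hρ hx.1)))
      (by positivity : 0 < 2 * ε / dist y y₁), Ioo_mem_nhdsGT hδ',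
    mem_nhdsWithin_of_mem_nhds ((by fun_prop : Continuous fun r : ℝ => κ' * r ^ 2).continuousAt
      |>.eventually (ge_mem_nhds (show κ' * 0 ^ 2 < 4 by simp)))] with r h1 h2 h3
  let ζ : Fin 4 → ℂ := ![r, -r, r * I, -(r * I)]
  have z1 : ∀ j, ζ j ∈ ball 0 δ' := fun j => by
    fin_cases j <;> simpa [ζ, abs_of_pos h2.1] using h2.2
  have key := le_of_forall_small (x := ∑ j, dist (g (ζ j)) (f (k y₁ + ζ j • l • W)))
    (y := dist y y₁ * (4 + r ^ 2 * (A - κ' + 2 * ε / dist y y₁) + 4) / 2)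
    (k := 4 + r ^ 2 * (A - κ' + 2 * ε / dist y y₁) + 4) (by positivity : 0 < δ / 4) fun ε' hε' => by
      obtain ⟨c, c', a2, a3, a4, a5, a6⟩ := hp ε' hε'
      have a7 := sum_dist_le hK (fun t ht => hR1 (hρ (a4 t ht).1)) (fun t ht => (a4 t ht).2) a5
        (p := p) (q := q) (ζ := ζ) (Z := 4 + r ^ 2 * (A - κ' + 2 * ε / dist y y₁))
        (fun t ht χ hχ j => hR1 (mem_closedBall_zero_iff.2 (by
          have b1 := mem_closedBall_zero_iff.1 (a4 t ht).1
          have b2 := (hP _ (z1 j)).2.1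
          have b3 := (hP _ (z1 j)).2.2
          rw [p0, dist_zero_right] at b2
          rw [q0, dist_zero_right] at b3
          have b4 : ‖χ • q (ζ j)‖ ≤ 1 * (R / 4) := by
            rw [norm_smul, Real.norm_of_nonneg hχ.1]; gcongr; exact hχ.2
          linarith [norm_add₃_le (a := c t) (b := p (ζ j)) (c := χ • q (ζ j))])))
        (by linarith [show 0 ≤ r ^ 2 * (A + 2 * ε / dist y y₁) by positivity]) hε'.1
        (by rwa [a2, a3, v0.1, v1.1]) a6 fun t ht χ hχ u hu θ hθ => by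
          rw [a2, a3, v0.1, v1.1] at hθ
          have b0 := (a4 t ht).1
          have b1 : ‖u‖ ≤ N := by
            refine abs_le_of_sq_le_sq' ((hN' _ (hρ b0) u).trans ?_) (by positivity) |>.2
            linarith [mul_le_mul_of_nonneg_left hu (zero_le_one.trans hN),
              le_self_pow₀ hN two_ne_zero]
          have b2 := h1 (c t, χ, u, θ) ⟨b0, hχ, mem_closedBall_zero_iff.2 b1, hθ⟩
          have b3 : W + χ • (l • W - W) = (1 - χ * (1 - l)) • W := by module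
          have b4 : θ • (l • W - W) = -((θ * (1 - l)) • W) := by module
          have b5 : Bm f (c t) W W ≤ 2 * w := by
            have c1 := hcl v0.2.2 b0 W
            have c2 : ‖c t - k y‖ ≤ 1 := by
              linarith [norm_sub_le (c t) (k y), mem_closedBall_zero_iff.1 b0,
                mem_closedBall_zero_iff.1 v0.2.2]
            have c3 : η₁ * ‖W‖ ^ 2 * ‖c t - k y‖ ≤ η₁ * (N * w) * 1 := by gcongr
            linarith [mul_le_mul_of_nonneg_right ((e3 1 (by norm_num)).trans e1) w0]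
          have b6 := lap_le (φ := 1 - χ * (1 - l)) (θ := θ * (1 - l)) (x := (1 - l) / dist y y₁)
            (hK.isH (hR1 (hρ b0))) e0.le (by linarith [e3 0 (by norm_num)]) hκ.le hN hC
            (hs _ b0).1 (hs _ b0).2 hL w1 (hw ▸ (hb _ (hρ v0.2.2) W).2) b5 b1 (hb _ (hρ b0) u).2
            (Bm_nonneg _ _ _) hl.1
            (by linarith [mul_nonneg (sub_nonneg.2 hχ.2) (sub_nonneg.2 hl.2)])
            (by linarith [mul_nonneg hχ.1 (sub_nonneg.2 hl.2)])
            (mul_nonneg hθ.1 (sub_nonneg.2 hl.2)) (by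
              rw [div_eq_inv_mul]; gcongr; exacts [sub_nonneg.2 hl.2, hθ.2])
          rw [p2, q2, b3, b4, four] at b2
          rw [hA, hκ'] at b6
          have b7 : en (Bm f) p q (c t, χ, u, θ) 0 = Bm f (c t) u u := by simp [en, p0, q0]
          simp only [Fin.sum_univ_four, ζ, Matrix.cons_val]
          linarith [mul_le_mul_of_nonneg_right b6 (sq_nonneg r),
            mul_le_mul_of_nonneg_left hu (sub_nonneg.2 h3)]
      have a8 : ∀ j, dist (f (c 0 + p (ζ j))) (f (c 1 + p (ζ j) + q (ζ j))) =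
          dist (g (ζ j)) (f (k y₁ + ζ j • l • W)) := fun j => by
        simp [a2, a3, p, q, (hV _ (hP _ (z1 j)).1).1, add_assoc]
      simp only [a8] at a7
      linarith
  simp only [Fin.sum_univ_four, ζ, Matrix.cons_val] at key
  have e4 : dist y y₁ * (r ^ 2 * (A - κ' + 2 * ε / dist y y₁)) / 2 =
      ((6 * (1 - l) ^ 2 / dist y y₁ + 3 * η₁ * N ^ 4 * dist y y₁ -
        κ / (2 * C ^ 2) * l ^ 2 * dist y y₁) * w + ε) * r ^ 2 := by
    rw [← hA, ← hκ']; field_simp; ring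
  have e5 : 3 * η₁ * N ^ 4 * (dist y y₁ * w * r ^ 2) ≤ η * (dist y y₁ * w * r ^ 2) := by gcongr
  simp only [four, comp_apply, zero_smul, add_zero, g0, v1.1]
  linarith

end Pool.Agent.Lib.MP_124863_gt
end

-- part Pool.Agent.Lib.MP_124863_gt.Ext
section

/-! Extension of the linearisation to the whole space. -/

open scoped Manifold ContDiff Topology Bundle
open Set Filter Function Metric Complex

namespace Pool.Agent.Lib.MP_124863_gt

attribute [local irreducible] Bm fl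

variable {n : ℕ} {α : Fin n → ℝ} {ε T : ℝ}

/-- Polydiscs. -/
def dom (α : Fin n → ℝ) (ε T : ℝ) : Set (Cn n) := fl α (-T) ⁻¹' ball 0 ε

theorem isOpen_dom : IsOpen (dom α ε T) := isOpen_ball.preimage (fl α _).continuous

theorem convex_dom : Convex ℝ (dom α ε T) :=
  (convex_ball 0 ε).is_linear_preimage ((fl α (-T)).restrictScalars ℝ).toLinearMap.isLinear

theorem dom_zero : dom α ε 0 = ball 0 ε := by ext z; simp [dom]

theorem norm_fl_le' (hα : ∀ j, 1 ≤ α j) {w : ℂ} (hw : w.re ≤ 0) (z : Cn n) : ‖fl α w z‖ ≤ ‖z‖ :=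
  (norm_fl_le hα hw z).trans (mul_le_of_le_one_left (norm_nonneg _) (Real.exp_le_one_iff.2 hw))

theorem fl_mem (hα : ∀ j, 1 ≤ α j) {z : Cn n} (hz : z ∈ dom α ε T) {w : ℂ} {T' : ℝ}
    (h : T + w.re ≤ T') : fl α w z ∈ dom α ε T' := by
  simp only [dom, mem_preimage, mem_ball_zero_iff] at hz ⊢
  rw [← fl_add, show -(T' : ℂ) + w = (T + w - T') + -T by ring, fl_add]
  exact (norm_fl_le' hα (by simpa using h) _).trans_lt hz

theorem fl_mem' (hα : ∀ j, 1 ≤ α j) {z : Cn n} {w w' : ℂ} (hz : fl α w z ∈ dom α ε T)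
    (h : w'.re ≤ w.re) : fl α w' z ∈ dom α ε T := by
  have := fl_mem hα hz (w := w' - w) (T' := T) (by simpa using h)
  rwa [← fl_add, sub_add_cancel] at this

theorem dom_mono (hα : ∀ j, 1 ≤ α j) {T' : ℝ} (h : T ≤ T') : dom α ε T ⊆ dom α ε T' :=
  fun z hz => by simpa using fl_mem hα hz (w := 0) (by simpa using h)

theorem continuous_fl (z : Cn n) : Continuous fun w => fl α w z :=
  continuous_iff_continuousAt.2 fun w => (hasDerivAt_fl w z).continuousAt

theorem convex_times (hα : ∀ j, 1 ≤ α j) (z : Cn n) : Convex ℝ {w | fl α w z ∈ dom α ε T} := by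
  intro u hu v hv a b ha hb hab
  obtain rfl : b = 1 - a := by linarith
  rcases le_total u.re v.re with h | h
  · exact fl_mem' hα hv (by simp only [add_re, smul_re, smul_eq_mul]; nlinarith)
  · exact fl_mem' hα hu (by simp only [add_re, smul_re, smul_eq_mul]; nlinarith)

theorem eventually_mem_dom (hα : ∀ j, 1 ≤ α j) (hε : 0 < ε) (z : Cn n) :
    ∀ᶠ T in atTop, z ∈ dom α ε T := by
  have h := (Real.tendsto_exp_neg_atTop_nhds_zero.mul_const ‖z‖).eventually
    (gt_mem_nhds (by simpa using hε))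
  filter_upwards [h, eventually_ge_atTop 0] with T h1 h2
  exact mem_ball_zero_iff.2 ((norm_fl_le hα (by simpa using h2) z).trans_lt (by simpa using h1))

variable {M : Type} [MetricSpace M] [ChartedSpace (Cn n) M]
  [Bundle.RiemannianBundle fun x : M => TangentSpace 𝓘(ℝ, Cn n) x] {a : ℝ → M → M}
  [IsManifold 𝓘(ℂ, Cn n) ω M] {ψ : Cn n → M}

omit [Bundle.RiemannianBundle fun x : M => TangentSpace 𝓘(ℝ, Cn n) x]
  [IsManifold 𝓘(ℂ, Cn n) ω M] in
theorem Good.isOrb {D : Set (Cn n)} (h : Good α a ψ D) {u : Cn n} (hu : u ∈ D) {U : Set ℂ}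
    (hU : ∀ w ∈ U, fl α w u ∈ D) : IsOrb n a (ψ u) U fun w => ψ (fl α w u) :=
  ⟨fun w hw => (h _ (hU w hw)).1.md.comp w (hasDerivAt_fl w u).differentiableAt.mdifferentiableAt,
    .of_forall (h u hu).2⟩

theorem Good.bound (hK : IsKaehler n M) (hR : NonnegBisec n M) (ha : IsIsomFlow n a)
    (hα : ∀ j, 1 ≤ α j) (h : Good α a ψ (dom α ε T)) :
    ∃ C ≥ 0, ∀ z ∈ dom α ε T, ∀ v, Bm ψ z v v ≤ C ^ 2 * ‖v‖ ^ 2 := by
  rcases le_or_gt ε 0 with hε | hε
  · exact ⟨0, le_rfl, fun z hz => by simp [dom, ball_eq_empty.2 hε] at hz⟩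
  obtain ⟨m, hm, C, hC, h1⟩ := hK.bounds ((isCompact_closedBall 0 (ε / 2)).image (fl α T).continuous)
    (by
      rintro _ ⟨z, hz, rfl⟩
      exact (h _ (by rw [dom, mem_preimage, fl_neg]; exact closedBall_subset_ball (by linarith) hz)).1)
  have h2 : ∀ z ∈ dom α ε T, ∀ t : ℝ, t ≤ -1 → fl α t z ∈ fl α T '' closedBall 0 (ε / 2) := by
    refine fun z hz t ht => ⟨fl α t (fl α (-T) z), mem_closedBall_zero_iff.2 ?_, by
      rw [← fl_add, ← fl_add]; congr 2; ring⟩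
    have a1 := norm_fl_le hα (w := t) (by simp; linarith) (fl α (-T) z)
    have a2 : Real.exp t ≤ 1 / 2 := by
      refine (Real.exp_le_exp.2 ht).trans ?_
      rw [Real.exp_neg, one_div]
      exact inv_anti₀ two_pos (by linarith [Real.add_one_le_exp 1])
    have a3 := mem_ball_zero_iff.1 hz
    rw [ofReal_re] at a1
    nlinarith [norm_nonneg (fl α (-T) z)]
  let k := C * (‖fl α 1‖ ^ 2 + 1) / m
  refine ⟨√((k + 1) * C), Real.sqrt_nonneg _, fun z hz v => ?_⟩
  rw [Real.sq_sqrt (by positivity)]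
  rcases eq_or_ne z 0 with rfl | h0
  · have := (h1 0 ⟨0, mem_closedBall_self (by positivity), map_zero _⟩ v).2
    nlinarith [show 0 ≤ k * C * ‖v‖ ^ 2 by positivity]
  have h3 : fl α (-1) z ≠ 0 := fun h => h0 (by rw [← fl_neg' α 1 z, h, map_zero])
  obtain ⟨G, G1, G2, hG, h4⟩ := h.exists_cv hK hR ha hα isOpen_dom h3
  have h5 : fl α (1 : ℝ) (fl α (-1) z) ∈ dom α ε T := by rwa [ofReal_one, fl_neg']
  have h6 : fl α (0 : ℝ) (fl α (-1) z) ∈ dom α ε T := fl_mem' hα h5 (by simp)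
  have h7 : fl α (-1 : ℝ) (fl α (-1) z) ∈ dom α ε T := fl_mem' hα h5 (by simp)
  have h8 := h1 _ (h2 z hz (-1) le_rfl)
  have h9 := h1 _ (h2 z hz (-2) (by norm_num))
  have h10 := hG.three ((convex_times (ε := ε) (T := T) hα (fl α (-1) z)).is_linear_preimage
      (f := fun t : ℝ => (t : ℂ)) ofRealCLM.toLinearMap.isLinear)
    (isOpen_dom.preimage ((continuous_fl _).comp continuous_ofReal)) h7 h6 h5
    (by positivity : 0 < k) (fun x => by
      rw [h4 _ h6, h4 _ h7, ← fl_add, ← fl_add]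
      have a1 := (fl α 1).le_opNorm (fl α (-1) (star x))
      have a2 := (h8 (star x)).2
      have a3 := (h9 (fl α (-1) (star x))).1
      rw [fl_neg'] at a1
      norm_num at a2 a3 ⊢
      calc _ ≤ C * (‖fl α 1‖ * ‖fl α (-1) (star x)‖) ^ 2 := a2.trans (by gcongr; simpa using a1)
        _ ≤ k * (m * ‖fl α (-1) (star x)‖ ^ 2) := by
          simp only [k]; field_simp; nlinarith [sq_nonneg ‖fl α (-1) (star x)‖]
        _ ≤ _ := by gcongr) (star (fl α (-1) v))
  rw [h4 _ h5, h4 _ h6] at h10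
  simp only [ofReal_one, fl_neg', star_star, ofReal_zero, fl_zero] at h10
  have a1 := (h8 (fl α (-1) v)).2
  have a2 := pow_le_pow_left₀ (norm_nonneg _) (norm_fl_le' hα (w := -1) (by simp) v) 2
  push_cast at a1
  calc _ ≤ k * (C * ‖v‖ ^ 2) := h10.trans (by gcongr; exact a1.trans (by gcongr))
    _ ≤ _ := by nlinarith [show 0 ≤ C * ‖v‖ ^ 2 by positivity]

omit [Bundle.RiemannianBundle fun x : M => TangentSpace 𝓘(ℝ, Cn n) x] in
theorem Good.unique (hα : ∀ j, 1 ≤ α j) {χ : Cn n → M} {T' : ℝ} (hT : 0 ≤ T)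
    (hT' : 0 ≤ T') (h : Good α a ψ (dom α ε T)) (h' : Good α a χ (dom α ε T'))
    (e : EqOn ψ χ (ball 0 ε)) {z : Cn n} (hz : z ∈ dom α ε T) (hz' : z ∈ dom α ε T') :
    ψ z = χ z := by
  have h0 : fl α (-T) z ∈ dom α ε 0 := fl_mem hα hz (by simp)
  have h1 := h.isOrb (dom_mono hα hT h0) (U := {w | fl α w (fl α (-T) z) ∈ dom α ε T} ∩
    {w | fl α w (fl α (-T) z) ∈ dom α ε T'}) fun w hw => hw.1
  have h2 := h'.isOrb (dom_mono hα hT' h0) (U := {w | fl α w (fl α (-T) z) ∈ dom α ε T} ∩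
    {w | fl α w (fl α (-T) z) ∈ dom α ε T'}) fun w hw => hw.2
  rw [← e (dom_zero (α := α) ▸ h0)] at h2
  simpa [fl_neg'] using h1.eqOn h2 ((isOpen_dom.preimage (continuous_fl _)).inter
    (isOpen_dom.preimage (continuous_fl _))) ((convex_times hα _).inter (convex_times hα _))
    ⟨by simpa using dom_mono hα hT h0, by simpa using dom_mono hα hT' h0⟩ (x := T)
    ⟨by simpa [fl_neg'], by simpa [fl_neg']⟩

variable [IsManifold 𝓘(ℝ, Cn n) ∞ M] [IsRiemannianManifold 𝓘(ℝ, Cn n) M] [CompleteSpace M]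

theorem Good.extend (hK : IsKaehler n M) (hR : NonnegBisec n M) (ha : IsIsomFlow n a)
    (hα : ∀ j, 1 ≤ α j) (hε : 0 < ε) (h : Good α a ψ (dom α ε T)) :
    ∃ δ > 0, ∃ χ, Good α a χ (dom α ε (T + δ)) ∧ EqOn χ ψ (dom α ε T) := by
  classical
  have := properSpace n M
  obtain ⟨C, hC, hb⟩ := h.bound hK hR ha hα
  have h1 : ∀ z ∈ dom α ε T, ψ z ∈ closedBall (ψ 0) (C * (‖fl α T‖ * ε)) := fun z hz => by
    refine (dist_le_of_convex convex_dom (fun z hz => (h z hz).1.1) hC hb hz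
      (by simpa [dom])).trans ?_
    rw [dist_zero_right, ← fl_neg' α T z]
    gcongr
    exact ((fl α T).le_opNorm _).trans (by gcongr; exact (mem_ball_zero_iff.1 hz).le)
  have h2 := (isCompact_closedBall (ψ 0) (C * (‖fl α T‖ * ε))).eventually_forall_of_forall_eventually
    (x₀ := (0 : ℝ)) (P := fun δ y => ∃ A : ℂ → M → M, ∀ᶠ y' in 𝓝 y,
      IsOrb n a y' (ball 0 δ) (fun w => A w y') ∧ ∀ w ∈ ball 0 δ, IsLoc n (A w) y') fun q _ => by
      obtain ⟨A, δ, hδ, hA⟩ := ha.exists_cx q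
      filter_upwards [continuousAt_fst.eventually (gt_mem_nhds hδ),
        continuousAt_snd.eventually hA.eventually_nhds] with p a1 a2
      exact ⟨A, a2.mono fun y hy => ⟨⟨fun w hw => hy.1.1 w (ball_subset_ball a1.le hw), hy.1.2⟩,
        fun w hw => hy.2 w (ball_subset_ball a1.le hw)⟩⟩
  obtain ⟨δ, h3, hδ⟩ := ((h2.filter_mono nhdsWithin_le_nhds).and
    (eventually_mem_nhdsWithin (s := Ioi 0))).exists
  replace hδ : 0 < δ := hδ
  let F : M → M := fun y => if h : ∃ c, IsOrb n a y (ball 0 δ) c then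
    h.choose (δ / 2 : ℝ) else y
  have hm : ((δ / 2 : ℝ) : ℂ) ∈ ball 0 δ := by
    rw [mem_ball_zero_iff, norm_real, Real.norm_of_nonneg (by positivity)]; linarith
  have hF : ∀ y c U, IsOrb n a y U c → IsOpen U → Convex ℝ U → 0 ∈ U → ((δ / 2 : ℝ) : ℂ) ∈ U →
      (∃ d, IsOrb n a y (ball 0 δ) d) → F y = c (δ / 2 : ℝ) := fun y c U hc u1 u2 u3 u4 hd => by
    simp only [F, dif_pos hd]
    have hs := hd.choose_spec
    exact IsOrb.eqOn (U := ball 0 δ ∩ U) ⟨fun w hw => hs.1 w hw.1, hs.2⟩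
      ⟨fun w hw => hc.1 w hw.2, hc.2⟩ (isOpen_ball.inter u1) ((convex_ball _ _).inter u2)
      ⟨mem_ball_self hδ, u3⟩ ⟨hm, u4⟩
  have hF' : ∀ y c, IsOrb n a y (ball 0 δ) c → F y = c (δ / 2 : ℝ) := fun y c hc =>
    hF y c _ hc isOpen_ball (convex_ball _ _) (mem_ball_self hδ) hm ⟨c, hc⟩
  refine ⟨δ / 2, by positivity, fun z => F (ψ (fl α (-(δ / 2 : ℝ)) z)), fun z hz => ?_,
    fun z hz => ?_⟩
  · have a1 : fl α (-(δ / 2 : ℝ)) z ∈ dom α ε T := fl_mem hα hz (by simp)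
    obtain ⟨A, hA⟩ := h3 _ (h1 _ a1)
    have a2 := (h _ a1).1.comp (isLoc_fl α _ z)
    refine ⟨(IsLoc.comp (f := ψ ∘ fl α (-(δ / 2 : ℝ))) (hA.self_of_nhds.2 _ hm) a2).congr ?_,
      fun t => ?_⟩
    · exact (a2.md.continuousAt.eventually hA).mono fun u hu => hF' _ _ hu.1
    · have a3 := hA.self_of_nhds.1
      simp only
      rw [← fl_add, add_comm, fl_add, (h _ a1).2, hF' _ _ a3]
      refine hF' _ (fun w => a t (A w (ψ (fl α (-(δ / 2 : ℝ)) z))))
        ⟨fun w hw => (ha.holo t _).comp w (a3.1 w hw), a3.2.mono fun θ hθ => ?_⟩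
      simp only at hθ ⊢
      rw [hθ, ← ha.add, ← ha.add, add_comm]
  · have a1 : fl α (-(δ / 2 : ℝ)) z ∈ dom α ε T := fl_mem hα hz (by
      rw [neg_re, ofReal_re]; linarith)
    obtain ⟨A, hA⟩ := h3 _ (h1 _ a1)
    have := hF _ _ _ (h.isOrb a1 (U := {w | fl α w (fl α (-(δ / 2 : ℝ)) z) ∈ dom α ε T})
      fun w hw => hw) (isOpen_dom.preimage (continuous_fl _))
      (convex_times hα _) (by simpa using a1) (by rwa [mem_ofPred_eq, fl_neg'])
      ⟨_, hA.self_of_nhds.1⟩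
    simpa only [fl_neg'] using this

/-- The global linearisation. -/
theorem exists_global (hK : IsKaehler n M) (hR : NonnegBisec n M) (ha : IsIsomFlow n a)
    (hα : ∀ j, 1 ≤ α j) (hε : 0 < ε) (hi : InjOn ψ (ball 0 ε)) (h : Good α a ψ (ball 0 ε)) :
    ∃ χ : Cn n → M, Good α a χ univ ∧ Injective χ ∧ χ 0 = ψ 0 := by
  classical
  let S := {T | 0 ≤ T ∧ ∃ χ, Good α a χ (dom α ε T) ∧ EqOn χ ψ (ball 0 ε)}
  have h0 : (0 : ℝ) ∈ S := ⟨le_rfl, ψ, by rwa [dom_zero], fun _ _ => rfl⟩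
  have hS : ∀ T, T ∈ S → ∃ χ, Good α a χ (dom α ε T) ∧ EqOn χ ψ (ball 0 ε) := fun T hT => hT.2
  choose P hP hP' using hS
  let Ψ : Cn n → M := fun z => if h : ∃ T ∈ S, z ∈ dom α ε T then P _ h.choose_spec.1 z else ψ z
  have h1 : ∀ T (hT : T ∈ S), EqOn Ψ (P T hT) (dom α ε T) := fun T hT z hz => by
    have hz' : ∃ T ∈ S, z ∈ dom α ε T := ⟨T, hT, hz⟩
    simp only [Ψ, dif_pos hz']
    exact (hP _ _).unique hα hz'.choose_spec.1.1 hT.1 (hP T hT) ((hP' _ _).trans (hP' _ _).symm)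
      hz'.choose_spec.2 hz
  have h2 : EqOn Ψ ψ (ball 0 ε) := fun z hz => (h1 0 h0 (by rwa [dom_zero])).trans (hP' 0 h0 hz)
  have h3 : ∀ T ∈ S, Good α a Ψ (dom α ε T) := fun T hT z hz =>
    ⟨(hP T hT z hz).1.congr ((isOpen_dom.eventually_mem hz).mono (h1 T hT)), fun t => by
      rw [h1 T hT hz, h1 T hT (fl_mem hα hz (by simp)), (hP T hT z hz).2]⟩
  have h4 : ¬BddAbove S := fun hb => by
    have a1 : Good α a Ψ (dom α ε (sSup S)) := fun z hz => by
      have a2 : ∀ᶠ T : ℝ in 𝓝 (sSup S), z ∈ dom α ε T :=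
        ((continuous_fl (α := α) z).comp continuous_ofReal.neg).continuousAt.eventually
          (p := fun x => x ∈ ball (0 : Cn n) ε) (isOpen_ball.eventually_mem hz)
      obtain ⟨T, a3, a4⟩ := ((a2.filter_mono nhdsWithin_le_nhds).and
        (eventually_mem_nhdsWithin (s := Iio (sSup S)))).exists
      obtain ⟨T', a5, a6⟩ := exists_lt_of_lt_csSup ⟨0, h0⟩ a4
      exact h3 T' a5 z (dom_mono hα a6.le a3)
    obtain ⟨δ, hδ, χ, a2, a3⟩ := a1.extend hK hR ha hα hε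
    have a4 := le_csSup hb h0
    have a5 : sSup S + δ ∈ S := ⟨by positivity, χ, a2, fun z hz =>
      (a3 (dom_mono hα a4 (by rwa [dom_zero]))).trans (h2 hz)⟩
    linarith [le_csSup hb a5]
  have h5 : Good α a Ψ univ := fun z _ => by
    obtain ⟨T, hT⟩ := (eventually_mem_dom hα hε z).exists
    obtain ⟨T', a1, a2⟩ := not_bddAbove_iff.1 h4 T
    exact h3 T' a1 z (dom_mono hα a2.le hT)
  refine ⟨Ψ, h5, fun z z' e => ?_, h2 (mem_ball_self hε)⟩
  obtain ⟨T, a1, a2⟩ := ((eventually_mem_dom hα hε z).and (eventually_mem_dom hα hε z')).exists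
  have a3 := (h5.isOrb trivial (u := z) (U := univ) fun _ _ => trivial).eqOn
    (e ▸ h5.isOrb trivial (u := z') fun _ _ => trivial) isOpen_univ convex_univ trivial
    (x := -T) trivial
  simp only at a3
  rw [h2 a1, h2 a2] at a3
  exact LeftInverse.injective (fl_neg' α T) (hi a1 a2 a3)

end Pool.Agent.Lib.MP_124863_gt
end
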