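import Pool.Agent.Lib.MP_124863_gt.EcCalc
import Pool.Agent.Lib.MP_124863_gt.Ext

/-! The Kato inequality for the dual norm along a disc. -/

open Filter Topology Set Metric Complex
open scoped Real Matrix ComplexConjugate

namespace Pool.Agent.Lib.MP_124863_gt.Ec

open Pool.Agent.Lib.MP_45f16c_ag

variable {N : ℕ}

/-- The Hermitian form of a real form. -/
noncomputable def hc (B : Bil N) (u v : Cn N) : ℂ := B u v + I * B u (I • v)

theorem hc_re (B : Bil N) (u v : Cn N) : (hc B u v).re = B u v := by simp [hc]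

theorem hc_smul {B : Bil N} (h : IsH B) (c : ℂ) (u v : Cn N) : hc B (c • u) v = c * hc B u v := by
  rw [hc, hc, smul_eq c u]
  simp only [map_add, map_smul, add_apply, smul_apply, h.skew, smul_smul, I_mul_I, neg_smul,
    one_smul, map_neg, smul_eq_mul]
  apply Complex.ext <;> simp
  ring

theorem hc_I (B : Bil N) (u v : Cn N) : hc B u (I • v) = -I * hc B u v := by
  rw [hc, hc, smul_smul, I_mul_I]
  apply Complex.ext <;> simp

theorem hc_sum {B : Bil N} (h : IsH B) (u v : Cn N) :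
    ∑ i, u i * hc B (Pi.single i 1) v = hc B u v := by
  have e : u = ∑ i, u i • (Pi.single i 1 : Cn N) := by
    ext j; simp [Finset.sum_apply, Pi.single_apply]
  simp only [← hc_smul h]
  conv_rhs => rw [e]
  simp only [hc, map_sum, sum_apply, ofReal_sum, Finset.mul_sum, Finset.sum_add_distrib]

theorem isH_smul {B : Bil N} (h : IsH B) (c : ℂ) (u : Cn N) :
    B (c • u) (c • u) = ‖c‖ ^ 2 * B u u := by
  have h0 : B u (I • u) = 0 := by
    have := h.skew u u
    rw [h.symm] at this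
    linarith
  rw [smul_eq c u, Complex.sq_norm, normSq_apply]
  simp only [map_add, map_smul, add_apply, smul_apply, h.inv, h.symm (I • u) u, h0, smul_eq_mul]
  ring

theorem bil_cs {B : Bil N} (hs : ∀ u v, B u v = B v u) (h0 : ∀ u, 0 ≤ B u u) (u v : Cn N) :
    B u v ≤ √(B u u) * √(B v v) := by
  have := discrim_le_zero (a := B u u) (b := 2 * B u v) (c := B v v) fun r => by
    have := h0 (v + r • u)
    simp only [map_add, map_smul, add_apply, smul_apply, hs v u, smul_eq_mul] at this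
    linarith
  rw [discrim] at this
  rw [← Real.sqrt_mul (h0 u)]
  exact Real.le_sqrt_of_sq_le (by linarith)

theorem isInvertible_of_pos {B : Bil N} (h : ∀ v, v ≠ 0 → 0 < B v v) : B.IsInvertible := by
  have h1 : Function.Injective B.toLinearMap := (injective_iff_map_eq_zero _).2 fun v hv =>
    by_contra fun h0 => (h v h0).ne' (by rw [show B v = 0 from hv]; rfl)
  have h2 : Module.finrank ℝ (Cn N) = Module.finrank ℝ (Cn N →L[ℝ] ℝ) := by
    rw [← (LinearMap.toContinuousLinearMap (𝕜 := ℝ) (E := Cn N) (F' := ℝ)).finrank_eq]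
    exact Subspace.dual_finrank_eq.symm
  exact ⟨(LinearEquiv.ofBijective B.toLinearMap ⟨h1,
    (LinearMap.injective_iff_surjective_of_finrank_eq_finrank h2).1 h1⟩).toContinuousLinearEquiv,
    rfl⟩

/-- The Euclidean form. -/
noncomputable def eu : Bil N := ∑ i, (innerSL ℝ (E := ℂ)).bilinearComp
  (ContinuousLinearMap.proj i) (ContinuousLinearMap.proj i)

theorem eu_apply (u v : Cn N) : eu u v = ∑ i, inner ℝ (u i) (v i) := by
  simp [eu, sum_apply]

theorem eu_nonneg (u : Cn N) : 0 ≤ eu u u := by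
  rw [eu_apply]; exact Finset.sum_nonneg fun i _ => real_inner_self_nonneg

theorem eu_eq_zero {u : Cn N} (h : eu u u = 0) : u = 0 := by
  rw [eu_apply, Finset.sum_eq_zero_iff_of_nonneg fun i _ => real_inner_self_nonneg] at h
  ext i
  exact inner_self_eq_zero.1 (h i (Finset.mem_univ i))

theorem touch {u n q : ℝ → ℝ} {m a b a' b' b'' : ℝ} (hu : J2 u a b) (hn : J2 n a' b')
    (hq : J2 q 0 b'') (hm : 0 < m) (u0 : u 0 = m) (q0 : q 0 = m ^ 2) (n0 : n 0 = m ^ 2)
    (h : ∀ᶠ t in 𝓝 0, n t ≤ u t * √(q t)) (hq0 : ∀ᶠ t in 𝓝 0, 0 ≤ u t ∧ 0 ≤ q t) :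
    b' - b'' / 2 ≤ m * b := by
  have h1 := (hn.add (hu.mul (((J2.const (-(2 * m)⁻¹)).mul hq).add (J2.const (-(m / 2)))))).nonpos
    ((h.and hq0).mono fun t ht => by
      have a1 : √(q t) ≤ (2 * m)⁻¹ * q t + m / 2 := by
        have := Real.sq_sqrt ht.2.2
        rw [← sub_nonneg, ← mul_nonneg_iff_of_pos_left (show 0 < 2 * m by positivity)]
        field_simp
        nlinarith [sq_nonneg (√(q t) - m)]
      have a2 := mul_le_mul_of_nonneg_left a1 ht.2.1
      have a3 : m * (-(2 * m)⁻¹ * m ^ 2 + -(m / 2)) = -m ^ 2 := by field_simp; ring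
      simp only [u0, q0, n0, a3]
      linarith [ht.1])
  simp only [u0, q0] at h1
  have a3 : b * (-(2 * m)⁻¹ * m ^ 2 + -(m / 2)) = -(m * b) := by field_simp; ring
  have a4 : m * (0 * m ^ 2 + 2 * 0 * 0 + -(2 * m)⁻¹ * b'' + 0) = -(b'' / 2) := by field_simp; ring
  rw [a3, a4] at h1
  linarith

theorem sqrt_cs {A g Q ω ε : ℝ} (hg : 0 ≤ g) (hQ : 0 ≤ Q) (hω : 0 < ω) (h : A ≤ √g * √Q) :
    A + ε ^ 2 ≤ √(ω ^ 2 * g + ε ^ 2) * √(ω⁻¹ * ω⁻¹ * Q + ε ^ 2) := by
  rw [← Real.sqrt_mul (by positivity)]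
  refine (add_le_add_left h _).trans (Real.le_sqrt_of_sq_le ?_)
  have h1 := Real.sq_sqrt hg
  have h2 := Real.sq_sqrt hQ
  generalize √g = x, √Q = y at *
  subst h1 h2
  have : (ω ^ 2 * x ^ 2 + ε ^ 2) * (ω⁻¹ * ω⁻¹ * y ^ 2 + ε ^ 2) =
    (x * y + ε ^ 2) ^ 2 + ε ^ 2 * (ω * x - ω⁻¹ * y) ^ 2 := by field_simp; ring
  rw [this]
  exact le_add_of_nonneg_right (by positivity)

/-- A family of degenerate metrics of nonnegative curvature on a disc. -/
structure Fam (R : ℝ) (H : ℂ → Bil N) (P : ℂ → Cn N →L[ℂ] Cn N) (T : ℂ → Cn N) : Prop where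
  cH : ContinuousOn H (closedBall 0 R)
  cP : ContinuousOn P (closedBall 0 R)
  dH : ∀ z ∈ ball 0 R, ContDiffAt ℝ 2 H z
  dP : ∀ z ∈ ball 0 R, AnalyticAt ℂ P z
  dT : ∀ z ∈ ball 0 R, AnalyticAt ℂ T z
  isH : ∀ z ∈ closedBall 0 R, IsH (H z)
  nn : ∀ z ∈ closedBall 0 R, ∀ v, 0 ≤ H z v v
  inv : ∀ z ∈ closedBall 0 R, ∀ u v, H z (P z u) v = H z u v
  idem : ∀ z ∈ closedBall 0 R, ∀ u, P z (P z u) = P z u
  ker : ∀ z ∈ closedBall 0 R, ∀ u, H z u u = 0 → P z u = 0
  curv : ∀ z ∈ ball 0 R, ∀ s0, ∃ s : ℂ → Cn N, AnalyticAt ℂ s z ∧ s z = P z s0 ∧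
    fderiv ℝ (fun w => H w (s w) (s w)) z = 0 ∧ lp (fun w => H w (s w) (s w)) z ≤ 0 ∧
    dz (fun w => hc (H w) (s w) (T w)) z = 0

variable (H : ℂ → Bil N) (P : ℂ → Cn N →L[ℂ] Cn N) (α : ℂ → Cn N)

/-- The completed metric. -/
noncomputable def ht (w : ℂ) : Bil N := H w + eu.bilinearComp
  (ContinuousLinearMap.id ℝ _ - (P w).restrictScalars ℝ)
  (ContinuousLinearMap.id ℝ _ - (P w).restrictScalars ℝ)

/-- The real part of the projected functional. -/
noncomputable def fn (w : ℂ) : Cn N →L[ℝ] ℝ := LinearMap.toContinuousLinearMap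
  { toFun c := (P w c ⬝ᵥ α w).re
    map_add' := by simp
    map_smul' := fun r c => by simp [(P w).map_smul_of_tower] }

/-- The dual vector. -/
noncomputable def dv (w : ℂ) : Cn N := (ht H P w).inverse (fn P α w)

/-- The regularised dual norm. -/
noncomputable def uu (ε : ℝ) (w : ℂ) : ℝ :=
  √((1 + ‖w‖ ^ 2) ^ 2 * fn P α w (dv H P α w) + ε ^ 2)

variable {H P α} {R : ℝ} {T : ℂ → Cn N} {w z : ℂ}

theorem ht_apply (u v : Cn N) : ht H P w u v = H w u v + eu (u - P w u) (v - P w v) := rfl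

theorem fn_apply (c : Cn N) : fn P α w c = (P w c ⬝ᵥ α w).re := rfl

theorem Fam.ht_symm (h : Fam R H P T) (hw : w ∈ closedBall 0 R) (u v : Cn N) :
    ht H P w u v = ht H P w v u := by
  simp only [ht_apply, eu_apply, (h.isH w hw).symm u, real_inner_comm ((u - P w u) _)]

theorem Fam.ht_pos (h : Fam R H P T) (hw : w ∈ closedBall 0 R) (u : Cn N) (hu : u ≠ 0) :
    0 < ht H P w u u := by
  have h1 := h.nn w hw u
  have h2 := eu_nonneg (u - P w u)
  rw [ht_apply]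
  by_contra! h3
  have := eu_eq_zero (u := u - P w u) (by linarith)
  rw [h.ker w hw u (by linarith), sub_zero] at this
  exact hu this

theorem Fam.ht_nonneg (h : Fam R H P T) (hw : w ∈ closedBall 0 R) (u : Cn N) :
    0 ≤ ht H P w u u := add_nonneg (h.nn w hw u) (eu_nonneg _)

theorem Fam.ht_dv (h : Fam R H P T) (hw : w ∈ closedBall 0 R) (u : Cn N) :
    ht H P w (dv H P α w) u = fn P α w u := by
  rw [dv, (isInvertible_of_pos (h.ht_pos hw)).self_apply_inverse]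

theorem Fam.P_dv (h : Fam R H P T) (hw : w ∈ closedBall 0 R) : P w (dv H P α w) = dv H P α w := by
  have h1 := h.ht_dv (α := α) hw (dv H P α w - P w (dv H P α w))
  have h2 : P w (dv H P α w - P w (dv H P α w)) = 0 := by rw [map_sub, h.idem w hw, sub_self]
  rw [ht_apply, fn_apply, (h.isH w hw).symm, ← h.inv w hw, h2] at h1
  exact (sub_eq_zero.1 (eu_eq_zero (by simpa using h1))).symm

theorem Fam.H_dv (h : Fam R H P T) (hw : w ∈ closedBall 0 R) :
    H w (dv H P α w) (dv H P α w) = fn P α w (dv H P α w) := by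
  rw [← h.ht_dv hw, ht_apply, h.P_dv hw]; simp

theorem Fam.fn_nonneg (h : Fam R H P T) (hw : w ∈ closedBall 0 R) :
    0 ≤ fn P α w (dv H P α w) := h.H_dv hw ▸ h.nn w hw _

theorem Fam.fn_le (h : Fam R H P T) (hw : w ∈ closedBall 0 R) (y : Cn N) :
    fn P α w y ≤ √(fn P α w (dv H P α w)) * √(H w y y) := by
  have := bil_cs (h.ht_symm hw) (h.ht_nonneg hw) (dv H P α w) (P w y)
  rwa [h.ht_dv hw, h.ht_dv hw, ht_apply, fn_apply, h.idem w hw, ← fn_apply, sub_self, map_zero,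
    add_zero, h.inv w hw, (h.isH w hw).symm, h.inv w hw] at this

theorem an_two {F : Type} [NormedAddCommGroup F] [NormedSpace ℂ F] [CompleteSpace F] {f : ℂ → F}
    (h : AnalyticAt ℂ f z) : ContDiffAt ℝ 2 f z := h.contDiffAt.restrict_scalars ℝ

theorem an_apply (h : AnalyticAt ℂ P z) {y : ℂ → Cn N} (hy : AnalyticAt ℂ y z) :
    AnalyticAt ℂ (fun w => P w (y w)) z :=
  analyticAt_iff_eventually_differentiableAt.2 ((h.eventually_analyticAt.and
    hy.eventually_analyticAt).mono fun _ hw => hw.1.differentiableAt.clm_apply hw.2.differentiableAt)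

theorem contDiffAt_dot {y : ℂ → Cn N} (hy : ContDiffAt ℝ 2 y z) (hα : ContDiffAt ℝ 2 α z) :
    ContDiffAt ℝ 2 (fun w => y w ⬝ᵥ α w) z :=
  ContDiffAt.sum fun i _ => (contDiffAt_pi.1 hy i).mul (contDiffAt_pi.1 hα i)

theorem Fam.dv_smooth (h : Fam R H P T) (hz : z ∈ ball 0 R) (hα : ContDiffAt ℝ 2 α z) :
    ContDiffAt ℝ 2 (fn P α) z ∧ ContDiffAt ℝ 2 (dv H P α) z := by
  have h1 := fun v => an_two (an_apply (h.dP z hz) (analyticAt_const (v := v)))
  have h2 : ContDiffAt ℝ 2 (fn P α) z := contDiffAt_clm fun v =>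
    reCLM.contDiff.contDiffAt.comp z (contDiffAt_dot (h1 v) hα)
  have h3 : ContDiffAt ℝ 2 (ht H P) z := contDiffAt_clm fun u => contDiffAt_clm fun v =>
    (((h.dH z hz).clm_apply contDiffAt_const).clm_apply contDiffAt_const).add
      ((eu.contDiff.contDiffAt.comp z (contDiffAt_const.sub (h1 u))).clm_apply
        (contDiffAt_const.sub (h1 v)))
  exact ⟨h2, ((isInvertible_of_pos (h.ht_pos (ball_subset_closedBall hz))
    ).contDiffAt_map_inverse.comp z h3).clm_apply h2⟩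

theorem Fam.uu_smooth (h : Fam R H P T) (hz : z ∈ ball 0 R) (hα : ContDiffAt ℝ 2 α z) {ε : ℝ}
    (hε : 0 < ε) : ContDiffAt ℝ 2 (uu H P α ε) z := by
  have := h.fn_nonneg (α := α) (ball_subset_closedBall hz)
  exact ((((contDiffAt_const.add (contDiff_norm_sq ℝ).contDiffAt).pow 2).mul
    ((h.dv_smooth hz hα).1.clm_apply (h.dv_smooth hz hα).2)).add contDiffAt_const).sqrt
      (by positivity)

theorem contDiffAt_hc {y : ℂ → Cn N} (hH : ContDiffAt ℝ 2 H z) (hy : ContDiffAt ℝ 2 y z)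
    (hT : ContDiffAt ℝ 2 T z) : ContDiffAt ℝ 2 (fun w => hc (H w) (y w) (T w)) z :=
  (ofRealCLM.contDiff.contDiffAt.comp z ((hH.clm_apply hy).clm_apply hT)).add
    (contDiffAt_const.mul (ofRealCLM.contDiff.contDiffAt.comp z
      ((hH.clm_apply hy).clm_apply (hT.const_smul I))))

theorem dbar_dot {y : ℂ → Cn N} (hy : DifferentiableAt ℂ y z) (hα : DifferentiableAt ℝ α z) :
    dbar (fun w => y w ⬝ᵥ α w) z = ∑ i, y z i * dbar (fun w => α w i) z := by
  have h1 := fun i => differentiableAt_pi.1 hy i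
  have h2 := fun i => differentiableAt_pi.1 hα i
  have h3 := fun i => dbar_mul ((h1 i).restrictScalars ℝ) (h2 i)
  simp only [dbar_holo (h1 _), zero_mul, zero_add] at h3
  simp only [← h3, dotProduct]
  rw [dbar, fderiv_fun_sum fun i _ => ((h1 i).restrictScalars ℝ).fun_mul (h2 i)]
  simp only [dbar, sum_apply, Finset.mul_sum, ← Finset.sum_add_distrib, Finset.sum_div]

theorem j2_weight (z e : ℂ) (he : ‖e‖ = 1) : J2 (fun t : ℝ => (1 + ‖z + t * e‖ ^ 2)⁻¹ *
    (1 + ‖z + t * e‖ ^ 2)⁻¹ * ‖1 + 2 * conj z / (1 + ‖z‖ ^ 2 : ℝ) * (z + t * e - z)‖ ^ 2) 0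
    (2 * (4 * ‖z‖ ^ 2 - 4 * (conj z * e).re ^ 2 - 2 * (1 + ‖z‖ ^ 2)) / (1 + ‖z‖ ^ 2) ^ 4) := by
  have e3 : e.re ^ 2 + e.im ^ 2 = 1 := by
    have := Complex.sq_norm e
    rw [he, normSq_apply] at this
    nlinarith
  have e4 : ‖z‖ ^ 2 = z.re ^ 2 + z.im ^ 2 := by rw [Complex.sq_norm, normSq_apply]; ring
  have h0 : 0 < 1 + ‖z‖ ^ 2 := by positivity
  have h1 : ∀ t : ℝ, 1 + ‖z + t * e‖ ^ 2 = (1 + ‖z‖ ^ 2) + 2 * (conj z * e).re * t + 1 * t ^ 2 :=
    fun t => by
      rw [e4, Complex.sq_norm, normSq_apply]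
      simp
      linear_combination t ^ 2 * e3
  have h2 : ∀ t : ℝ, ‖1 + 2 * conj z / (1 + ‖z‖ ^ 2 : ℝ) * (z + t * e - z)‖ ^ 2 =
      1 + 4 * (conj z * e).re / (1 + ‖z‖ ^ 2) * t + 4 * ‖z‖ ^ 2 / (1 + ‖z‖ ^ 2) ^ 2 * t ^ 2 :=
    fun t => by
      generalize 1 + ‖z‖ ^ 2 = ω at h0
      rw [e4, Complex.sq_norm, normSq_apply]
      simp
      field_simp
      linear_combination 4 * t ^ 2 * (z.re ^ 2 + z.im ^ 2) * e3
  simp only [h1, h2]
  have h3 := (J2.quad (1 + ‖z‖ ^ 2) (2 * (conj z * e).re) 1).inv (by simpa using h0.ne')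
  refine ((h3.mul h3).mul (J2.quad _ _ _)).of_eq ?_ ?_ <;>
  · generalize 1 + ‖z‖ ^ 2 = ω at h0
    simp only [mul_zero, add_zero, ne_eq, OfNat.ofNat_ne_zero, not_false_eq_true, zero_pow]
    field_simp
    ring

/-- The Kato inequality. -/
theorem Fam.kato (h : Fam R H P T) (hz : z ∈ ball 0 R) (hα : ContDiffAt ℝ 2 α z) {m : ℂ → ℂ}
    (hm : DifferentiableAt ℝ m z) {κ ε : ℝ} (hκ : 0 ≤ κ) (hε : 0 < ε)
    (hd : ∀ᶠ w in 𝓝 z, ∀ i, dbar (fun w => α w i) w =
      -κ * (m w * hc (H w) (Pi.single i 1) (T w))) :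
    4 / (1 + ‖z‖ ^ 2) ^ 2 * uu H P α ε z - (4 * ε / (1 + ‖z‖ ^ 2) ^ 2 + 4 * κ *
      (‖dz m z + 2 * conj z / (1 + ‖z‖ ^ 2 : ℝ) * m z‖ * (1 + ‖z‖ ^ 2) * √(H z (T z) (T z)))) ≤
      lp (uu H P α ε) z := by
  have hz' := ball_subset_closedBall hz
  have hb : ∀ᶠ w in 𝓝 z, w ∈ ball 0 R := isOpen_ball.mem_nhds hz
  set ω := 1 + ‖z‖ ^ 2 with hω
  have ω0 : 0 < ω := by positivity
  set g := fn P α z (dv H P α z) with hg
  have g0 : 0 ≤ g := h.fn_nonneg hz'
  obtain ⟨s, s1, s2, s3, s4, s5⟩ := h.curv z hz (((ω ^ 2 : ℝ) : ℂ) • dv H P α z)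
  rw [map_smul, h.P_dv hz'] at s2
  set c : ℂ := 2 * conj z / ω with hc'
  have χ1 : AnalyticAt ℂ (fun w => 1 + c * (w - z)) z := by fun_prop
  have y1 := an_apply (h.dP z hz) (χ1.fun_smul s1)
  have Q1 : ContDiffAt ℝ 2 (fun w => H w (s w) (s w)) z :=
    ((h.dH z hz).clm_apply (an_two s1)).clm_apply (an_two s1)
  have Q0 : H z (s z) (s z) = ω ^ 4 * g := by
    rw [s2, isH_smul (h.isH z hz'), h.H_dv hz', norm_real, Real.norm_of_nonneg (by positivity)]
    ring
  have N1 := contDiffAt_dot (an_two y1) hα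
  have u0 : uu H P α ε z ^ 2 = ω ^ 2 * g + ε ^ 2 := Real.sq_sqrt (by positivity)
  have u1 : 0 < uu H P α ε z := Real.sqrt_pos.2 (by positivity)
  have key : ∀ e : ℂ, ‖e‖ = 1 → D2 (fun w => (P w ((1 + c * (w - z)) • s w) ⬝ᵥ α w).re) z e -
      (2 * (4 * ‖z‖ ^ 2 - 4 * (conj z * e).re ^ 2 - 2 * ω) * g +
        D2 (fun w => H w (s w) (s w)) z e / ω ^ 2) / 2 ≤
      uu H P α ε z * D2 (uu H P α ε) z e := fun e he => by
    refine touch (j2_line (h.uu_smooth hz hα hε) e)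
      (((j2_line (reCLM.contDiff.contDiffAt.comp z N1) e).add (J2.const (ε ^ 2))).of_eq rfl
        (add_zero _))
      ((((j2_weight z e he).mul (j2_line Q1 e)).add (J2.const (ε ^ 2))).of_eq (by simp [s3]) ?_)
      u1 (by simp) ?_ ?_ ?_ ?_
    · simp only [ofReal_zero, zero_mul, add_zero, sub_self, mul_zero, norm_one, Q0, ← hω]
      field_simp
    · simp only [ofReal_zero, zero_mul, add_zero, sub_self, mul_zero, norm_one, Q0, ← hω, u0]
      field_simp
    · simp only [ofReal_zero, zero_mul, add_zero, Function.comp_apply, sub_self,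
        mul_zero, one_mul, u0, s2, map_smul, smul_dotProduct, smul_eq_mul, reCLM_apply,
        re_ofReal_mul]
      rfl
    · filter_upwards [(tendsto_line z e).eventually hb] with t ht
      have ht := ball_subset_closedBall ht
      rw [mul_assoc, ← isH_smul (h.isH _ ht)]
      exact sqrt_cs (h.fn_nonneg ht) (h.nn _ ht _) (by positivity) (h.fn_le ht _)
    · filter_upwards [(tendsto_line z e).eventually hb] with t ht
      have := h.nn _ (ball_subset_closedBall ht) (s (z + t * e))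
      exact ⟨Real.sqrt_nonneg _, by positivity⟩
  have k1 := key 1 norm_one
  have k2 := key I norm_I
  have n1 := contDiffAt_hc (h.dH z hz) (an_two s1) (an_two (h.dT z hz))
  have n2 := lp_re N1 (n1 := fun w => -κ * ((1 + c * (w - z)) * (m w * hc (H w) (s w) (T w)))) (by
    filter_upwards [hd, hb, y1.eventually_analyticAt, (two_diff hα).1] with w a1 a2 a3 a4
    have a2 := ball_subset_closedBall a2
    rw [dbar_dot a3.differentiableAt a4]
    have a5 : ∀ a b : ℂ, a * (-κ * (m w * b)) = -κ * m w * (a * b) := fun a b => by ring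
    simp only [a1, a5, ← Finset.mul_sum, hc_sum (h.isH w a2)]
    rw [mul_left_comm (1 + _), ← hc_smul (h.isH w a2) (1 + _), hc, hc, h.inv w a2, h.inv w a2,
      mul_assoc])
  have n3 := n1.differentiableAt (by simp)
  have χ2 := χ1.differentiableAt
  rw [dz_mul (differentiableAt_const _) ((χ2.restrictScalars ℝ).fun_mul (hm.fun_mul n3)),
    dz_holo (differentiableAt_const _), dz_mul (χ2.restrictScalars ℝ) (hm.fun_mul n3), dz_holo χ2,
    dz_mul hm n3, s5, deriv_const, show deriv (fun w => 1 + c * (w - z)) z = c by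
      simp] at n2
  have n4 := bil_cs (h.isH z hz').symm (h.nn z hz') ((dz m z + c * m z) • s z) (T z)
  rw [isH_smul (h.isH z hz'), ← hc_re, hc_smul (h.isH z hz'), Q0,
    Real.sqrt_mul (by positivity), Real.sqrt_mul (by positivity), Real.sqrt_sq (norm_nonneg _),
    show ω ^ 4 = (ω ^ 2) ^ 2 by ring, Real.sqrt_sq (by positivity)] at n4
  have n5 : lp (fun w => (P w ((1 + c * (w - z)) • s w) ⬝ᵥ α w).re) z =
      -(4 * κ * ((dz m z + c * m z) * hc (H z) (s z) (T z)).re) := by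
    refine n2.trans ?_
    rw [show ∀ a b : ℂ, (0 : ℂ) * a + -κ * b = ((-κ : ℝ) : ℂ) * b by simp, re_ofReal_mul]
    rw [show c * (m z * hc (H z) (s z) (T z)) + (1 + c * (z - z)) * (dz m z * hc (H z) (s z) (T z) +
      m z * 0) = (dz m z + c * m z) * hc (H z) (s z) (T z) by ring]
    ring
  have e4 : (conj z * 1).re ^ 2 + (conj z * I).re ^ 2 = ‖z‖ ^ 2 := by
    rw [Complex.sq_norm, normSq_apply]; simp; ring
  have g1 : ω * √g ≤ uu H P α ε z := Real.le_sqrt_of_sq_le (by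
    rw [mul_pow, Real.sq_sqrt g0]; exact le_add_of_nonneg_right (by positivity))
  have g2 : ε ≤ uu H P α ε z := Real.le_sqrt_of_sq_le (le_add_of_nonneg_left (by positivity))
  have s6 := div_nonpos_of_nonpos_of_nonneg s4 (sq_nonneg ω)
  rw [lp, add_div] at s6
  rw [lp] at n5 ⊢
  have t0 : 0 ≤ 4 * κ * (‖dz m z + c * m z‖ * ω * √(H z (T z) (T z))) := by positivity
  have t1 := mul_le_mul_of_nonneg_left g1 t0
  have t2 := mul_le_mul_of_nonneg_left n4 hκ
  have t3 : uu H P α ε z * (4 / ω ^ 2 * uu H P α ε z - 4 * ε / ω ^ 2) ≤ 4 * g := by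
    rw [div_mul_eq_mul_div, ← sub_div, ← mul_div_assoc, div_le_iff₀ (by positivity)]
    nlinarith
  refine le_of_mul_le_mul_left ?_ u1
  have t4 : 2 * (4 * ‖z‖ ^ 2 - 4 * (conj z * 1).re ^ 2 - 2 * ω) * g +
      2 * (4 * ‖z‖ ^ 2 - 4 * (conj z * I).re ^ 2 - 2 * ω) * g = -8 * g := by
    rw [hω]; linear_combination (-8 * g) * e4
  linarith

end Pool.Agent.Lib.MP_124863_gt.Ec
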