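import Pool.Agent.Lib.MP_124863_gt.EcWt

/-! The local model of a degenerate Kaehler metric of nonnegative curvature. -/

open Filter Topology Set Metric Complex MeasureTheory
open scoped Real ComplexConjugate

namespace Pool.Agent.Lib.MP_124863_gt.Ec

variable {n N : ℕ}

/-- Normal coordinates for a retraction `p` and a metric `G` near `z`. -/
structure Chart (p : Cn N → Cn N) (G : Cn N → Bil N) (z : Cn N) (c : Cn N → Cn n) (j : Cn n → Cn N)
    (B : Cn n → Bil n) : Prop where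
  dc : ∀ᶠ x in 𝓝 z, DifferentiableAt ℂ c x
  c0 : c z = 0
  dj : ∀ᶠ y in 𝓝 0, DifferentiableAt ℂ j y
  cj : ∀ᶠ y in 𝓝 0, c (j y) = y
  jc : ∀ᶠ x in 𝓝 z, j (c x) = p x
  two : ContDiffAt ℝ 2 B 0
  isH : IsH (B 0)
  pos : ∀ v, v ≠ 0 → 0 < B 0 v v
  d0 : fderiv ℝ B 0 = 0
  curv : ∀ X Y, fderiv ℝ (fderiv ℝ B) 0 Y Y X X + fderiv ℝ (fderiv ℝ B) 0 (I • Y) (I • Y) X X ≤ 0
  eq : ∀ᶠ x in 𝓝 z, ∀ u v, G x u v = B (c x) (fderiv ℂ c x u) (fderiv ℂ c x v)

variable {p : Cn N → Cn N} {G : Cn N → Bil N} {z : Cn N} {c : Cn N → Cn n} {j : Cn n → Cn N}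
  {B : Cn n → Bil n}

namespace Chart

theorem smooth (h : Chart p G z c j B) : ContDiffAt ℝ 2 G z := by
  have h1 := contDiffAt_of_eventually h.dc 3
  have h2 : ∀ u, ContDiffAt ℝ 2 (fun x => fderiv ℂ c x u) z := fun u =>
    ((h1.fderiv_right (m := 2) (by norm_num)).clm_apply contDiffAt_const).restrict_scalars ℝ
  have h3 : ContDiffAt ℝ 2 (B ∘ c) z := ContDiffAt.comp z (h.c0 ▸ h.two)
    ((h1.of_le (by norm_num)).restrict_scalars ℝ)
  exact contDiffAt_clm fun u => contDiffAt_clm fun v =>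
    ((h3.clm_apply (h2 u)).clm_apply (h2 v)).congr_of_eventuallyEq (h.eq.mono fun x hx => hx u v)

theorem at_z (h : Chart p G z c j B) (u v : Cn N) :
    G z u v = B 0 (fderiv ℂ c z u) (fderiv ℂ c z v) := by rw [h.eq.self_of_nhds, h.c0]

theorem isH' (h : Chart p G z c j B) : IsH (G z) :=
  ⟨fun u v => by rw [h.at_z, h.at_z, h.isH.symm], fun u v => by
    rw [h.at_z, h.at_z, (fderiv ℂ c z).map_smul, (fderiv ℂ c z).map_smul, h.isH.inv]⟩

theorem nonneg (h : Chart p G z c j B) (u : Cn N) : 0 ≤ G z u u := by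
  rw [h.at_z]
  rcases eq_or_ne (fderiv ℂ c z u) 0 with h0 | h0
  exacts [by simp [h0], (h.pos _ h0).le]

theorem fderiv_p (h : Chart p G z c j B) (u : Cn N) :
    fderiv ℂ p z u = fderiv ℂ j 0 (fderiv ℂ c z u) := by
  rw [← (show j ∘ c =ᶠ[𝓝 z] p from h.jc).fderiv_eq,
    fderiv_comp z (h.c0 ▸ h.dj.self_of_nhds) h.dc.self_of_nhds, h.c0]
  rfl

theorem left (h : Chart p G z c j B) (hz : p z = z) :
    ∀ᶠ y in 𝓝 0, ∀ σ, fderiv ℂ c (j y) (fderiv ℂ j y σ) = σ := by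
  have h0 : j 0 = z := by rw [← h.c0, h.jc.self_of_nhds, hz]
  filter_upwards [h.cj.eventually_nhds, h.dj,
    h.dj.self_of_nhds.continuousAt.eventually (h0.symm ▸ h.dc)] with y a1 a2 a3 σ
  have := fderiv_comp y a3 a2
  rw [(show c ∘ j =ᶠ[𝓝 y] id from a1).fderiv_eq, fderiv_id] at this
  exact (DFunLike.congr_fun this σ).symm

theorem left0 (h : Chart p G z c j B) (hz : p z = z) (u : Cn N) :
    fderiv ℂ c z (fderiv ℂ p z u) = fderiv ℂ c z u := by
  have h0 : j 0 = z := by rw [← h.c0, h.jc.self_of_nhds, hz]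
  have := (h.left hz).self_of_nhds
  rw [h0] at this
  rw [h.fderiv_p, this]

theorem kaehler (h : Chart p G z c j B) (Y T : Cn N) :
    fderiv ℝ G z Y T T = fderiv ℝ G z T Y T + fderiv ℝ G z (I • T) Y (I • T) := by
  have h1 := contDiffAt_of_eventually h.dc 2
  have h2 := h1.isSymmSndFDerivAt (by simp)
  have h3 := ((h1.fderiv_right (m := 1) (by norm_num)).differentiableAt (by simp)).hasFDerivAt
  have h4 := fun u => (h3.clm_apply (hasFDerivAt_const u z)).restrictScalars ℝ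
  have h5 : HasFDerivAt B (0 : Cn n →L[ℝ] Bil n) (c z) := by
    rw [h.c0, ← h.d0]; exact (h.two.differentiableAt (by simp)).hasFDerivAt
  have h6 := h5.comp z (h.dc.self_of_nhds.hasFDerivAt.restrictScalars ℝ)
  have key : ∀ X u v, fderiv ℝ G z X u v =
      B 0 (fderiv ℂ (fderiv ℂ c) z X u) (fderiv ℂ c z v) +
        B 0 (fderiv ℂ c z u) (fderiv ℂ (fderiv ℂ c) z X v) := fun X u v => by
    have a1 := (((h.smooth.differentiableAt (by simp)).hasFDerivAt.clm_apply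
      (hasFDerivAt_const u z)).clm_apply (hasFDerivAt_const v z)).unique
      (((h6.clm_apply (h4 u)).clm_apply (h4 v)).congr_of_eventuallyEq (h.eq.mono fun x hx => hx u v))
    have a2 := DFunLike.congr_fun a1 X
    simp [h.c0] at a2
    linarith
  simp only [key, h2 T Y, map_smul, smul_apply, h.isH.inv, smul_smul, I_mul_I, neg_smul, one_smul,
    map_neg, h.isH.symm (fderiv ℂ c z T)]
  ring

theorem test (h : Chart p G z c j B) {Z : ℂ → Cn N} {ζ : ℂ} (hZ : AnalyticAt ℂ Z ζ) (h0 : Z ζ = z)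
    (hp : ∀ᶠ w in 𝓝 ζ, p (Z w) = Z w) (s0 : Cn N) : ∃ s : ℂ → Cn N, AnalyticAt ℂ s ζ ∧
      s ζ = fderiv ℂ p z s0 ∧ fderiv ℝ (fun w => G (Z w) (s w) (s w)) ζ = 0 ∧
      lp (fun w => G (Z w) (s w) (s w)) ζ ≤ 0 ∧
      dz (fun w => hc (G (Z w)) (s w) (deriv Z w)) ζ = 0 := by
  have t1 : Tendsto Z (𝓝 ζ) (𝓝 z) := h0 ▸ hZ.continuousAt
  have g1 : AnalyticAt ℂ (c ∘ Z) ζ := analyticAt_iff_eventually_differentiableAt.2
    (((t1.eventually h.dc).and hZ.eventually_analyticAt).mono fun w hw =>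
      hw.1.comp w hw.2.differentiableAt)
  have g0 : (c ∘ Z) ζ = 0 := by rw [Function.comp_apply, h0, h.c0]
  have g2 : ∀ᶠ w in 𝓝 ζ, deriv (c ∘ Z) w = fderiv ℂ c (Z w) (deriv Z w) :=
    ((t1.eventually h.dc).and hZ.eventually_analyticAt).mono fun w hw =>
      (hw.1.hasFDerivAt.comp_hasDerivAt w hw.2.differentiableAt.hasDerivAt).deriv
  generalize hγ : c ∘ Z = γ at g1 g0 g2
  have t2 : Tendsto γ (𝓝 ζ) (𝓝 0) := g0 ▸ g1.continuousAt
  set σ := fderiv ℂ c z s0
  have j1 := ((contDiffAt_of_eventually h.dj 2).fderiv_right (m := 1) (by norm_num)).eventually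
    (by simp)
  have e1 : ∀ᶠ w in 𝓝 ζ, ∀ v, G (Z w) (fderiv ℂ j (γ w) σ) v = B (γ w) σ (fderiv ℂ c (Z w) v) ∧
      fderiv ℂ c (Z w) (fderiv ℂ j (γ w) σ) = σ := by
    filter_upwards [t1.eventually h.eq, t1.eventually h.jc, hp,
      t2.eventually (h.left (h0 ▸ hp.self_of_nhds))] with w a1 a2 a3 a4 v
    have a5 : γ w = c (Z w) := by rw [← hγ]; rfl
    rw [a5, a2, a3] at a4
    rw [a1, a5, a4]
    exact ⟨rfl, rfl⟩
  have e2 : (fun w => G (Z w) (fderiv ℂ j (γ w) σ) (fderiv ℂ j (γ w) σ)) =ᶠ[𝓝 ζ]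
      fun w => B (γ w) σ σ := e1.mono fun w hw => by simp only [(hw _).1, (hw 0).2]
  have e3 : (fun w => hc (G (Z w)) (fderiv ℂ j (γ w) σ) (deriv Z w)) =ᶠ[𝓝 ζ]
      fun w => hc (B (γ w)) σ (deriv γ w) := (e1.and g2).mono fun w hw => by
    simp only [hc, (hw.1 _).1, hw.2, map_smul]
  have b1 : HasFDerivAt B (0 : Cn n →L[ℝ] Bil n) (γ ζ) := by
    rw [g0, ← h.d0]; exact (h.two.differentiableAt (by simp)).hasFDerivAt
  have b2 := b1.comp ζ (g1.differentiableAt.hasFDerivAt.restrictScalars ℝ)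
  refine ⟨fun w => fderiv ℂ j (γ w) σ, analyticAt_iff_eventually_differentiableAt.2
    (((t2.eventually j1).and g1.eventually_analyticAt).mono fun w hw =>
      ((hw.1.differentiableAt (by simp)).comp w hw.2.differentiableAt).clm_apply
        (differentiableAt_const _)), by rw [h.fderiv_p, ← g0], ?_, ?_, ?_⟩
  · rw [e2.fderiv_eq]
    simpa using ((b2.clm_apply (hasFDerivAt_const σ ζ)).clm_apply (hasFDerivAt_const σ ζ)).fderiv
  · have k : ∀ (f : ℂ → Cn n) (e : ℂ) (t : ℝ), AnalyticAt ℂ f (ζ + t * e) →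
        HasDerivAt (fun t : ℝ => f (ζ + t * e)) (e • deriv f (ζ + t * e)) t := fun f e t hf =>
      (HasFDerivAt.comp_hasDerivAt (f := fun t : ℝ => ζ + t * e) t
        (hf.differentiableAt.restrictScalars ℝ).hasFDerivAt (hasDerivAt_line ζ e t)).congr_deriv
          (fderiv_holo hf.differentiableAt e)
    have two : ContDiffAt ℝ 2 (fun w => B (γ w) σ σ) ζ :=
      ((ContDiffAt.comp ζ (g0 ▸ h.two) (an_two g1)).clm_apply contDiffAt_const).clm_apply
        contDiffAt_const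
    have key : ∀ e, D2 (fun w => B (γ w) σ σ) ζ e =
        fderiv ℝ (fderiv ℝ B) 0 (e • deriv γ ζ) (e • deriv γ ζ) σ σ := fun e => by
      refine ((j2_line two e).unique ⟨fun t => fderiv ℝ B (γ (ζ + t * e))
        (e • deriv γ (ζ + t * e)) σ σ, ?_, rfl, ?_⟩).2
      · filter_upwards [(tendsto_line ζ e).eventually g1.eventually_analyticAt,
          (t2.comp (tendsto_line ζ e)).eventually (two_diff h.two).1] with t a1 a2
        simpa using ((a2.hasFDerivAt.comp_hasDerivAt t (k γ e t a1)).clm_apply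
          (hasDerivAt_const t σ)).clm_apply (hasDerivAt_const t σ)
      · have a1 : HasFDerivAt (fderiv ℝ B) (fderiv ℝ (fderiv ℝ B) 0) (γ (ζ + (0 : ℝ) * e)) := by
          simpa [g0] using (two_diff h.two).2.hasFDerivAt
        refine ((((HasFDerivAt.comp_hasDerivAt (f := fun t : ℝ => γ (ζ + t * e)) (0 : ℝ) a1
          (k γ e 0 (by simpa using g1))).clm_apply
          ((k _ e 0 (by simpa using g1.deriv)).const_smul e)).clm_apply
          (hasDerivAt_const _ σ)).clm_apply (hasDerivAt_const _ σ)).congr_deriv ?_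
        simp [g0, h.d0]
    have e4 : ∀ e, D2 (fun w => G (Z w) (fderiv ℂ j (γ w) σ) (fderiv ℂ j (γ w) σ)) ζ e =
        D2 (fun w => B (γ w) σ σ) ζ e := fun e => by rw [D2, D2, e2.fderiv.fderiv_eq]
    rw [lp, e4, e4, key, key, one_smul]
    exact h.curv _ _
  · have a1 := g1.deriv.differentiableAt.hasDerivAt.hasFDerivAt.restrictScalars ℝ
    have a2 := b2.clm_apply (hasFDerivAt_const σ ζ)
    have a3 := (ofRealCLM.hasFDerivAt.comp ζ (a2.clm_apply a1)).add
      ((ofRealCLM.hasFDerivAt.comp ζ (a2.clm_apply (a1.const_smul I))).const_mul I)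
    rw [dz, e3.fderiv_eq]
    erw [a3.fderiv]
    simp [smul_smul]
    ring_nf
    simp

end Chart

end Pool.Agent.Lib.MP_124863_gt.Ec
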