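import Pool.Agent.Lib.MP_124863_gt.EcStep

/-! Construction of large discs and of entire curves. -/

open Filter Topology Set Metric Complex MeasureTheory
open scoped Real

namespace Pool.Agent.Lib.MP_124863_gt.Ec

variable {n N : ℕ} {M : Type} [MetricSpace M] {ι : M → Cn N} {q : Cn N → M} {U : Set (Cn N)}
  {G : Cn N → Bil N} {R R₀ δ : ℝ} {Z : ℂ → Cn N}

theorem tendsto_int {κ : Type} {l : Filter κ} {K : Set ℂ} (hK : IsCompact K) {F : κ → ℂ → ℝ}
    {f : ℂ → ℝ} (hf : ContinuousOn f K) (hF : ∀ᶠ k in l, ContinuousOn (F k) K)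
    (h : TendstoUniformlyOn F f l K) : Tendsto (fun k => ∫ w in K, F k w) l (𝓝 (∫ w in K, f w)) := by
  refine Metric.tendsto_nhds.2 fun ε hε => ?_
  have h0 : 0 ≤ volume.real K := measureReal_nonneg
  filter_upwards [hF, Metric.tendstoUniformlyOn_iff.1 h (ε / (volume.real K + 1)) (by positivity)]
    with k a1 a2
  rw [dist_comm, dist_eq_norm, ← integral_sub (hf.integrableOn_compact hK) (a1.integrableOn_compact hK)]
  refine (norm_setIntegral_le_of_norm_le_const hK.measure_lt_top fun w hw =>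
    (dist_eq_norm (f w) _ ▸ a2 w hw).le).trans_lt ?_
  rw [div_mul_eq_mul_div, div_lt_iff₀ (by positivity)]
  nlinarith

theorem Data.tendsto_area (h : Data n ι q U G) {κ : Type} {l : Filter κ} [l.NeBot]
    {F : κ → ℂ → Cn N} (hF : ∀ᶠ k in l, Dsc ι R (F k)) (hZ : ∀ w ∈ ball 0 R, Z w ∈ U)
    (hl : TendstoLocallyUniformlyOn F Z l (ball 0 R)) (hR : R₀ < R) {g : ℂ → ℝ}
    (hg : Continuous g) : Tendsto (fun k => ∫ w in closedBall 0 R₀,
      g w * G (F k w) (deriv (F k) w) (deriv (F k) w)) l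
      (𝓝 (∫ w in closedBall 0 R₀, g w * G (Z w) (deriv Z w) (deriv Z w))) := by
  have s1 : closedBall (0 : ℂ) R₀ ⊆ ball 0 R := closedBall_subset_ball hR
  have hK := isCompact_closedBall (0 : ℂ) R₀
  have d1 := hF.mono fun k hk => hk.hol.differentiableOn
  have d2 := hl.differentiableOn d1 isOpen_ball
  have c1 := d2.continuousOn.mono s1
  have c2 := (d2.deriv isOpen_ball).continuousOn.mono s1
  have u1 := (tendstoLocallyUniformlyOn_iff_forall_isCompact isOpen_ball).1 hl _ s1 hK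
  have u2 := (tendstoLocallyUniformlyOn_iff_forall_isCompact isOpen_ball).1
    (hl.deriv d1 isOpen_ball) _ s1 hK
  refine tendsto_int hK (hg.continuousOn.mul (((h.cG.comp c1 fun w hw => hZ w (s1 hw)).clm_apply
    c2).clm_apply c2)) (hF.mono fun k hk => hg.continuousOn.mul
      ((((h.fam hk).cH.mono (s1.trans ball_subset_closedBall)).clm_apply
        ((h.fam hk).cT.mono s1)).clm_apply ((h.fam hk).cT.mono s1))) fun r hr => ?_
  have := (hK.image_of_continuousOn (continuousOn_id.prodMk (c1.prodMk c2))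
    ).uniformContinuousAt_of_continuousAt (fun x => g x.1 * G x.2.1 x.2.2 x.2.2) (by
      rintro _ ⟨w, hw, rfl⟩
      exact (hg.continuousAt.comp continuousAt_fst).mul
        ((((h.two (hZ w (s1 hw))).continuousAt.comp (f := fun x : ℂ × Cn N × Cn N => x.2.1)
          (by fun_prop)).clm_apply (by fun_prop)).clm_apply (by fun_prop))) hr
  obtain ⟨ε, hε, h1⟩ := Metric.mem_uniformity_dist.1 this
  filter_upwards [Metric.tendstoUniformlyOn_iff.1 u1 ε hε, Metric.tendstoUniformlyOn_iff.1 u2 ε hε]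
    with k a1 a2 w hw
  exact h1 (a := (w, Z w, deriv Z w)) (b := (w, F k w, deriv (F k) w))
    (by simpa [Prod.dist_eq, hε] using ⟨a1 w hw, a2 w hw⟩) ⟨w, hw, rfl⟩

theorem ar_eq (h0 : 0 < R₀) : ar G R₀ δ Z = ∫ w in closedBall 0 R₀,
    W0 (R₀ ^ 2) δ (‖w‖ ^ 2) * G (Z w) (deriv Z w) (deriv Z w) :=
  (setIntegral_eq_integral_of_forall_compl_eq_zero fun w hw => by
    rw [W0_zero h0 w (by simp at hw; exact hw.le), zero_mul]).symm

theorem max_disc {f : ℂ → Cn N} (hf : DiffContOnCl ℂ f (ball 0 R)) (hR : 0 < R) {C : ℝ}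
    (h : ∀ w ∈ sphere 0 R, ‖f w‖ ≤ C) {w : ℂ} (hw : w ∈ closedBall 0 R) : ‖f w‖ ≤ C :=
  norm_le_of_forall_mem_frontier_norm_le isBounded_ball hf (by rwa [frontier_ball _ hR.ne'])
    (by rwa [closure_ball _ hR.ne'])

theorem Data.eq_of (h : Data n ι q U G) {z : Cn N} (hz : z ∈ range ι) : ι (q z) = z := h.fix hz

variable [ProperSpace M]

theorem Data.limit (h : Data n ι q U G) (hR : 0 < R) {F : ℕ → ℂ → Cn N} (hF : ∀ k, Dsc ι R (F k))
    {x : M} {C : ℝ} (hx : ∀ k, ∀ w ∈ sphere 0 R, dist x (q (F k w)) ≤ C)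
    (hc : ∀ ε > 0, ∃ k₀, ∀ k ≥ k₀, ∀ l ≥ k₀, ∀ w ∈ sphere 0 R, dist (q (F k w)) (q (F l w)) < ε) :
    ∃ Z, Dsc ι R Z ∧ TendstoUniformlyOn F Z atTop (closedBall 0 R) := by
  have h1 : UniformCauchySeqOn F atTop (closedBall 0 R) :=
    Metric.uniformCauchySeqOn_iff.2 fun ε hε => by
      obtain ⟨η, hη, h2⟩ := Metric.uniformContinuousOn_iff.1
        ((isCompact_closedBall x C).uniformContinuousOn_of_continuous h.cι.continuousOn) (ε / 2)
        (by positivity)
      obtain ⟨k₀, h3⟩ := hc η hη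
      refine ⟨k₀, fun k hk l hl w hw => ?_⟩
      rw [dist_eq_norm]
      refine (max_disc ((hF k).hol.sub (hF l).hol) hR (fun w hw => ?_) hw).trans_lt (half_lt_self hε)
      have := h2 _ (mem_closedBall'.2 (hx k w hw)) _ (mem_closedBall'.2 (hx l w hw)) (h3 k hk l hl w hw)
      rw [h.eq_of ((hF k).mem w (sphere_subset_closedBall hw)),
        h.eq_of ((hF l).mem w (sphere_subset_closedBall hw)), dist_eq_norm] at this
      exact this.le
  have h2 := h1.tendstoUniformlyOn_of_tendsto (f := fun w => limUnder atTop fun k => F k w)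
    fun w hw => (h1.cauchySeq hw).tendsto_limUnder
  exact ⟨_, ⟨.mk_ball ((h2.mono ball_subset_closedBall).tendstoLocallyUniformlyOn.differentiableOn
    (.of_forall fun k => (hF k).hol.differentiableOn) isOpen_ball)
    (h2.continuousOn (.of_forall fun k => (hF k).hol.continuousOn_ball)),
    fun w hw => h.closed.mem_of_tendsto (h2.tendsto_at hw) (.of_forall fun k => (hF k).mem w hw)⟩, h2⟩

/-- Large discs with bounded weighted area. -/
theorem Data.disc (h : Data n ι q U G) (hδ : 0 < δ) (h0 : 0 < R₀) (hR : R₀ < R) (hR2 : 2 < R)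
    (x : M) {a : Cn N} (ha : fderiv ℂ (ι ∘ q) (ι x) a = a) {ν : ℝ} (hν : 0 < ν)
    (haν : G (ι x) a a ≤ ν ^ 2) : ∃ Z, Dsc ι R Z ∧ Z 0 = ι x ∧ deriv Z 0 = a ∧
      (∀ w ∈ sphere 0 R, dist x (q (Z w)) ≤ R * (ν * (R * (1 + R ^ 2) * (R ^ 2 + 2)) + 1)) ∧
      ar G R₀ δ Z ≤ 10 ^ 9 * ν ^ 2 := by
  have R0 : 0 < R := by linarith
  have z0 : (0 : ℂ) ∈ ball 0 R := mem_ball_self R0
  have st := fun Z hZ => h.step (Z := Z) hZ hδ h0 hR hR2 (a := a) (ν := ν)
  generalize hC : R * (ν * (R * (1 + R ^ 2) * (R ^ 2 + 2)) + 1) = C at st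
  have C0 : 0 < C := by rw [← hC]; positivity
  generalize hA : 10 ^ 9 * ν ^ 2 = A at st
  have A0 : 0 < A := by rw [← hA]; positivity
  let X := {p : (ℂ → Cn N) × ℝ // Dsc ι R p.1 ∧ p.1 0 = ι x ∧ deriv p.1 0 = (p.2 : ℂ) • a ∧ p.2 ≤ 1 ∧
    (∀ w ∈ sphere 0 R, dist x (q (p.1 w)) ≤ C * p.2) ∧ ar G R₀ δ p.1 ≤ A * p.2}
  obtain ⟨⟨⟨Z, t⟩, z1, z2, z3, z4, z5, z6⟩, -, hm⟩ := exists_max (X := X)
    (r := fun p p' => p.1.2 ≤ p'.1.2 ∧ (∀ w ∈ sphere 0 R, dist (q (p.1.1 w)) (q (p'.1.1 w)) ≤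
      C * (p'.1.2 - p.1.2)) ∧ ar G R₀ δ p'.1.1 ≤ ar G R₀ δ p.1.1 + A * (p'.1.2 - p.1.2))
    (fun p => by simp) (fun p p' p'' a1 a2 => ⟨a1.1.trans a2.1, fun w hw => by
      linarith [a1.2.1 w hw, a2.2.1 w hw, dist_triangle (q (p.1.1 w)) (q (p'.1.1 w)) (q (p''.1.1 w))],
      by linarith [a1.2.2, a2.2.2]⟩) (t := fun p => p.1.2) (fun p => p.2.2.2.2.1) (fun _ _ h => h.1)
    (fun s hs => by
      have m1 : Monotone fun k => (s k).1.2 := monotone_nat_of_le_succ fun k => (hs k).1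
      have m2 : ∀ k l, k ≤ l → (∀ w ∈ sphere 0 R, dist (q ((s k).1.1 w)) (q ((s l).1.1 w)) ≤
          C * ((s l).1.2 - (s k).1.2)) ∧
          ar G R₀ δ (s l).1.1 ≤ ar G R₀ δ (s k).1.1 + A * ((s l).1.2 - (s k).1.2) := fun k l hkl => by
        induction l, hkl using Nat.le_induction with
        | base => simp
        | succ l _ ih => exact ⟨fun w hw => by
            linarith [ih.1 w hw, (hs l).2.1 w hw,
              dist_triangle (q ((s k).1.1 w)) (q ((s l).1.1 w)) (q ((s (l + 1)).1.1 w))],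
            by linarith [ih.2, (hs l).2.2]⟩
      have b1 : BddAbove (range fun k => (s k).1.2) := ⟨1, by rintro _ ⟨k, rfl⟩; exact (s k).2.2.2.2.1⟩
      have t1 := tendsto_atTop_ciSup m1 b1
      obtain ⟨Z, z1, z2⟩ := h.limit R0 (fun k => (s k).2.1) (x := x) (C := C)
        (fun k w hw => ((s k).2.2.2.2.2.1 w hw).trans (mul_le_of_le_one_right C0.le (s k).2.2.2.2.1))
        fun ε hε => by
          obtain ⟨k₀, hk⟩ := Metric.cauchySeq_iff.1 (t1.const_mul C).cauchySeq ε hε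
          refine ⟨k₀, fun k h1 l h2 w hw => ?_⟩
          have := abs_lt.1 (hk k h1 l h2)
          rcases le_total k l with h3 | h3
          · linarith [(m2 k l h3).1 w hw]
          · rw [dist_comm]; linarith [(m2 l k h3).1 w hw]
      have z3 := (z2.mono ball_subset_closedBall).tendstoLocallyUniformlyOn
      have z4 := h.tendsto_area (.of_forall fun k => (s k).2.1)
        (fun w hw => h.sub (z1.mem w (ball_subset_closedBall hw))) z3 hR
        (W_smooth (S := R₀ ^ 2) hδ).1.continuous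
      simp only [← ar_eq h0] at z4
      have z5 : ∀ w ∈ sphere (0 : ℂ) R, Tendsto (fun k => q ((s k).1.1 w)) atTop (𝓝 (q (Z w))) :=
        fun w hw => (h.cq.continuousAt (h.isOpen.mem_nhds (h.sub (z1.mem w
          (sphere_subset_closedBall hw))))).tendsto.comp (z2.tendsto_at (sphere_subset_closedBall hw))
      refine ⟨⟨(Z, _), z1, tendsto_nhds_unique (z3.tendsto_at z0)
        (tendsto_const_nhds.congr fun k => (s k).2.2.1.symm), tendsto_nhds_unique
          ((z3.deriv (.of_forall fun k => (s k).2.1.hol.differentiableOn) isOpen_ball).tendsto_at z0)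
          (((continuous_ofReal.tendsto _).comp t1).smul_const a |>.congr fun k => (s k).2.2.2.1.symm),
        ciSup_le fun k => (s k).2.2.2.2.1, fun w hw => le_of_tendsto_of_tendsto'
          (tendsto_const_nhds.dist (z5 w hw)) (t1.const_mul C) fun k => (s k).2.2.2.2.2.1 w hw,
        le_of_tendsto_of_tendsto' z4 (t1.const_mul A) fun k => (s k).2.2.2.2.2.2⟩,
        fun k => ⟨le_ciSup b1 k, fun w hw => le_of_tendsto_of_tendsto
          (tendsto_const_nhds.dist (z5 w hw)) ((t1.sub_const _).const_mul C)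
          ((eventually_ge_atTop k).mono fun l hl => (m2 k l hl).1 w hw),
        le_of_tendsto_of_tendsto z4 (((t1.sub_const _).const_mul A).const_add _)
          ((eventually_ge_atTop k).mono fun l hl => (m2 k l hl).2)⟩⟩)
    ⟨(fun _ => ι x, 0), ⟨diffContOnCl_const, fun _ _ => mem_range_self x⟩, rfl, by simp,
      zero_le_one, by simp [h.left], by simp [ar]⟩
  simp only at z1 z2 z3 z4 z5 z6
  have z7 := z6.trans (mul_le_of_le_one_right A0.le z4)
  rcases z4.eq_or_lt with rfl | z4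
  · exact ⟨Z, z1, z2, by simpa using z3, by simpa using z5, z7⟩
  obtain ⟨τ, ⟨Z', a1, a2, a3, a4, a5⟩, a6⟩ := ((st Z z1 (by rwa [z2]) hν (by rwa [z2]) z7 z3).and
    (Ioo_mem_nhdsGT (sub_pos.2 z4))).exists
  have := hm ⟨(Z', t + τ), a1, a2.trans z2, by simpa using a3, by linarith [a6.2], fun w hw => by
    linarith [a4 w hw, z5 w hw, dist_triangle x (q (Z w)) (q (Z' w))], by linarith⟩
    ⟨by linarith [a6.1], by simpa using a4, by simpa using a5⟩
  linarith [a6.1]

end Pool.Agent.Lib.MP_124863_gt.Ec
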