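import Pool.Agent.Lib.MP_124863_gt.EcEnt
import Pool.Agent.Lib.MP_124863_gt.EcDefs

/-! Entire curves in Stein manifolds with nonnegative bisectional curvature. -/

open scoped Manifold ContDiff Topology Bundle Matrix
open Set Filter Function Metric Complex Manifold MeasureTheory

namespace Pool.Agent.Lib.MP_124863_gt.Ec

variable {n N : ℕ}

theorem lap_nonpos {B : Cn n → Bil n} {z : Cn n} (h : ContDiffAt ℝ 2 B z)
    (hH : ∀ᶠ w in 𝓝 z, IsH (B w)) (h0 : fderiv ℝ B z = 0)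
    (hR : ∀ X Y, 0 ≤ bisec (fun w => hm (B w)) z X Y) (X Y : Cn n) :
    fderiv ℝ (fderiv ℝ B) z Y Y X X + fderiv ℝ (fderiv ℝ B) z (I • Y) (I • Y) X X ≤ 0 := by
  have h2 := (h.fderiv_right (m := 1) (by norm_num)).differentiableAt (by simp)
  have h3 : ∀ Y, IsH (fderiv ℝ (fderiv ℝ B) z Y Y) := fun Y => by
    have a1 := h2.hasFDerivAt.clm_apply (hasFDerivAt_const Y z)
    have a2 := IsH.fderiv (B := fun w => fderiv ℝ B w Y) (by
      filter_upwards [hH.eventually_nhds, h.eventually (by simp)] with w b1 b2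
        using IsH.fderiv b1 (b2.differentiableAt (by simp)) Y) a1.differentiableAt Y
    rw [a1.fderiv] at a2
    simpa using a2
  have a1 := bisec_eq h X Y
  generalize fderiv ℝ (fderiv ℝ B) z = D at h3 a1
  have a2 := hR X Y
  rw [h0] at a1
  simp only [zero_apply, map_zero, smul_zero, add_zero, mul_zero, map_add, Matrix.neg_mulVec,
    Matrix.add_mulVec, dotProduct_neg, dotProduct_add, (h3 _).form] at a1
  simp at a1 ⊢
  linarith

/-- The complex differential. -/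
noncomputable def md (F G : Type) [NormedAddCommGroup F] [NormedSpace ℂ F] [NormedAddCommGroup G]
    [NormedSpace ℂ G] {X Y : Type} [TopologicalSpace X] [ChartedSpace F X] [TopologicalSpace Y]
    [ChartedSpace G Y] (f : X → Y) (x : X) : F →L[ℂ] G := mfderiv 𝓘(ℂ, F) 𝓘(ℂ, G) f x

section
variable {E F G : Type} [NormedAddCommGroup E] [NormedSpace ℂ E] [NormedAddCommGroup F]
  [NormedSpace ℂ F] [NormedAddCommGroup G] [NormedSpace ℂ G] {X Y Z : Type} [TopologicalSpace X]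
  [ChartedSpace E X] [TopologicalSpace Y] [ChartedSpace F Y] [TopologicalSpace Z] [ChartedSpace G Z]

theorem md_comp {g : Y → Z} {f : X → Y} {x : X} (hg : HolAt F G g (f x)) (hf : HolAt E F f x)
    (u : E) : md E G (g ∘ f) x u = md F G g (f x) (md E F f x u) :=
  mfderiv_comp_apply x hg hf u

theorem md_flat (f : E → F) (x : E) : md E F f x = fderiv ℂ f x := mfderiv_eq_fderiv

theorem md_congr {f g : X → Y} {x : X} (h : f =ᶠ[𝓝 x] g) : md E F f x = md E F g x := h.mfderiv_eq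

end

variable {M : Type} [MetricSpace M] [ChartedSpace (Cn n) M]
  [Bundle.RiemannianBundle fun x : M => TangentSpace 𝓘(ℝ, Cn n) x] {ι : M → Cn N} {q : Cn N → M}
  {U : Set (Cn N)}

variable (n) in
/-- The pulled back metric. -/
noncomputable def Gm (q : Cn N → M) (z : Cn N) : Bil N :=
  (ip (n := n) (q z)).bilinearComp (mfderiv 𝓘(ℝ, Cn N) 𝓘(ℝ, Cn n) q z :)
    (mfderiv 𝓘(ℝ, Cn N) 𝓘(ℝ, Cn n) q z :)

theorem Gm_apply {z : Cn N} (h : HolAt (Cn N) (Cn n) q z) (u v : Cn N) :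
    Gm n q z u v = ip (n := n) (q z) (md (Cn N) (Cn n) q z u) (md (Cn N) (Cn n) q z v) :=
  congrArg₂ (fun a b : Cn n => ip (n := n) (q z) a b) (mfderiv_real h u) (mfderiv_real h v)

omit [Bundle.RiemannianBundle fun x : M => TangentSpace 𝓘(ℝ, Cn n) x] in
theorem md_left (hι : ∀ x, HolAt (Cn n) (Cn N) ι x) (hq : ∀ x, HolAt (Cn N) (Cn n) q (ι x))
    (hl : ∀ x, q (ι x) = x) (x : M) (u : Cn n) :
    md (Cn N) (Cn n) q (ι x) (md (Cn n) (Cn N) ι x u) = u := by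
  rw [← md_comp (hq x) (hι x), show q ∘ ι = id from funext hl, md, mfderiv_id]; rfl

variable [IsManifold 𝓘(ℂ, Cn n) ω M] [IsRiemannianManifold 𝓘(ℝ, Cn n) M]

theorem len_le (ho : IsOpen U) (hq : ∀ z ∈ U, HolAt (Cn N) (Cn n) q z) (γ γ' : ℝ → Cn N)
    (σ : ℝ → ℝ) (a b : ℝ) (hab : a ≤ b) (h : ∀ t ∈ Icc a b, γ t ∈ U ∧ HasDerivAt γ (γ' t) t ∧
      √(Gm n q (γ t) (γ' t) (γ' t)) ≤ σ t) (h1 : ContinuousOn γ' (Icc a b))
    (hσ : ContinuousOn σ (Icc a b)) : dist (q (γ a)) (q (γ b)) ≤ ∫ t in a..b, σ t := by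
  rcases hab.eq_or_lt with rfl | hlt
  · simp
  have hc : ContDiffOn ℝ 1 γ (Icc a b) := (contDiffOn_one_iff_derivWithin (uniqueDiffOn_Icc hlt)).2
    ⟨fun t ht => (h t ht).2.1.differentiableAt.differentiableWithinAt, h1.congr fun t ht =>
      (h t ht).2.1.hasDerivWithinAt.derivWithin (uniqueDiffOn_Icc hlt t ht)⟩
  have h0 : 0 ≤ᵐ[volume.restrict (Ioo a b)] σ := (ae_restrict_mem measurableSet_Ioo).mono
    fun t ht => (Real.sqrt_nonneg _).trans (h t (Ioo_subset_Icc_self ht)).2.2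
  have h1 := edist_le_length (n := n) (γ := q ∘ γ) hab fun t ht =>
    (contMDiffAt_real ((ho.eventually_mem (h t ht).1).mono hq) 1).comp_contMDiffWithinAt t
      (hc t ht).contMDiffWithinAt
  rw [intervalIntegral.integral_of_le hab, integral_Ioc_eq_integral_Ioo,
    ← ENNReal.ofReal_le_ofReal_iff (integral_nonneg_of_ae h0), ← edist_dist,
    ofReal_integral_eq_lintegral_ofReal (hσ.integrableOn_Icc.mono_set Ioo_subset_Icc_self) h0]
  refine h1.trans ?_
  rw [pathELength_eq_lintegral_mfderiv_Ioo]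
  refine setLIntegral_mono' measurableSet_Ioo fun t ht => ?_
  obtain ⟨a1, a2, a3⟩ := h t (Ioo_subset_Icc_self ht)
  refine le_of_eq_of_le ?_ (ENNReal.ofReal_le_ofReal a3)
  rw [((mdiff_real (hq _ a1)).hasMFDerivAt.comp t a2.hasFDerivAt.hasMFDerivAt).mfderiv,
    ← ofReal_norm, norm_eq_sqrt_real_inner]
  congr 2
  change inner ℝ (mfderiv 𝓘(ℝ, Cn N) 𝓘(ℝ, Cn n) q (γ t) ((1 : ℝ) • γ' t))
    (mfderiv 𝓘(ℝ, Cn N) 𝓘(ℝ, Cn n) q (γ t) ((1 : ℝ) • γ' t)) = _
  rw [one_smul]; rfl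

theorem data (hK : IsKaehler n M) (hR : NonnegBisec n M) (hι : ∀ x, HolAt (Cn n) (Cn N) ι x)
    (hc : IsClosed (range ι)) (ho : IsOpen U) (hU : ∀ x, ι x ∈ U)
    (hq : ∀ z ∈ U, HolAt (Cn N) (Cn n) q z) (hl : ∀ x, q (ι x) = x) : Data n ι q U (Gm n q) := by
  refine ⟨ho, hc, range_subset_iff.2 hU, hl,
    continuous_iff_continuousAt.2 fun x => (hι x).continuousAt,
    fun z hz => (hq z hz).continuousAt.continuousWithinAt,
    fun z hz => ((hι _).comp z (hq z hz)).differentiableAt.differentiableWithinAt,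
    fun z hz u v => ?_, fun z hz => ?_, len_le ho hq⟩
  · simp only [Gm_apply (hq _ (hU _)), Gm_apply (hq z hz), ← md_flat, md_comp (hι _) (hq z hz), hl,
      md_left hι (fun x => hq _ (hU x)) hl]
  obtain ⟨f, f1, f2, f3⟩ := hK.exists_normal (q z)
  obtain ⟨κ, k1, k2, k3⟩ := f1.inv
  have k0 := k1.self_of_nhds
  rw [f2] at k0 k2 k3
  have c1 := (hq z hz).continuousAt
  have c2 : ∀ᶠ x in 𝓝 z, HolAt (Cn N) (Cn n) (κ ∘ q) x :=
    ((ho.eventually_mem hz).and (c1.eventually k3.1)).mono fun x hx => hx.2.comp x (hq x hx.1)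
  have c3 : ∀ᶠ x in 𝓝 z, HolAt (Cn n) (Cn n) f (κ (q x)) :=
    c2.self_of_nhds.continuousAt.eventually (p := HolAt (Cn n) (Cn n) f)
      (by rw [comp_apply, k0]; exact f1.1)
  have c4 : ∀ᶠ x in 𝓝 z, q x = (f ∘ κ ∘ q) x := (c1.eventually k2).mono fun x hx => hx.symm
  refine ⟨κ ∘ q, ι ∘ f, Bm f, c2.mono fun x hx => hx.differentiableAt, k0,
    f1.1.mono fun y hy => ((hι _).comp y hy).differentiableAt, k1.mono fun y hy => by simp [hl, hy],
    c4.mono fun x hx => congrArg ι hx.symm, hK.two f1, hK.isH f1, fun v => Bm_pos f1, f3,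
    lap_nonpos (hK.two f1) (f1.eventually.mono fun w hw => hK.isH hw) f3 (hR f 0 f1), ?_⟩
  filter_upwards [ho.mem_nhds hz, c2, c3, c4.eventually_nhds] with x a1 a2 a3 a4 u v
  rw [Gm_apply (hq x a1), md_congr a4, md_comp (f := κ ∘ q) a3 a2, md_comp (f := κ ∘ q) a3 a2,
    md_flat, a4.self_of_nhds]
  exact (Gm_apply a3 _ _).symm

theorem main [CompleteSpace M] (hK : IsKaehler n M) (hR : NonnegBisec n M) (hS : Stein n M) (x : M)
    (v : Cn n) : ∃ f : ℂ → M, (∀ w, HolAt ℂ (Cn n) f w) ∧ f 0 = x ∧ vel n f 0 = v ∧ ∀ r, 0 < r →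
      ∫ w in closedBall 0 r, ip (f w) (vel n f w) (vel n f w) ≤
        4 * 10 ^ 9 * ip x v v * (1 + r ^ 2) ^ 5 := by
  rcases eq_or_ne v 0 with rfl | hv
  · have : ∀ w, vel n (fun _ : ℂ => x) w = 0 := fun w => by rw [vel, mfderiv_const]; rfl
    exact ⟨fun _ => x, fun w => mdifferentiableAt_const, rfl, this 0, fun r _ => by simp [this]⟩
  obtain ⟨N, ι, U, q, hι, hc, ho, hU, hq, hl⟩ := hS
  have := properSpace n M
  have h := data hK hR hι hc ho hU hq hl
  have h1 := md_left hι (fun x => hq _ (hU x)) hl x v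
  have h2 : 0 < ip x v v := (real_inner_self_pos (F := TangentSpace 𝓘(ℝ, Cn n) x)).2 hv
  obtain ⟨Z, z1, z2, z3, z4, z5⟩ := h.entire x (a := md (Cn n) (Cn N) ι x v)
    (by rw [← md_flat, md_comp (hι _) (hq _ (hU x)), h1, hl]) (Real.sqrt_pos.2 h2)
    (by rw [Gm_apply (hq _ (hU x)), h1, hl, Real.sq_sqrt h2.le])
  have z6 := fun w => hq _ (h.sub (z2 w))
  have z7 : ∀ w, vel n (q ∘ Z) w = md (Cn N) (Cn n) q (Z w) (deriv Z w) := fun w =>
    (md_comp (z6 w) (z1 w).mdifferentiableAt 1).trans (by rw [md_flat]; rfl)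
  refine ⟨q ∘ Z, fun w => (z6 w).comp w (z1 w).mdifferentiableAt, by simp [z3, hl],
    by rw [z7, z3, z4, h1], fun r hr => ?_⟩
  simp only [z7, comp_apply, ← Gm_apply (z6 _)]
  refine (z5 r hr).trans_eq ?_
  rw [Real.sq_sqrt h2.le]; ring

end Pool.Agent.Lib.MP_124863_gt.Ec
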