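import Pool.Agent.Lib.MP_124863_gt.EcLoc

/-! The first variation of the weighted area and the deformation step. -/

open Filter Topology Set Metric Complex MeasureTheory
open scoped Real ComplexConjugate

namespace Pool.Agent.Lib.MP_124863_gt.Ec

variable {n N : ℕ}

theorem hasDerivAt_compact {K : Set ℂ} (hK : IsCompact K) {f f' : ℝ → ℂ → ℝ} {ε : ℝ} (hε : 0 < ε)
    (hc : ContinuousOn (Function.uncurry f) (closedBall 0 ε ×ˢ K))
    (hc' : ContinuousOn (Function.uncurry f') (closedBall 0 ε ×ˢ K))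
    (hd : ∀ τ ∈ closedBall 0 ε, ∀ w ∈ K, HasDerivAt (fun τ => f τ w) (f' τ w) τ) :
    HasDerivAt (fun τ => ∫ w in K, f τ w) (∫ w in K, f' 0 w) 0 := by
  have c1 : ∀ {g : ℝ → ℂ → ℝ}, ContinuousOn (Function.uncurry g) (closedBall 0 ε ×ˢ K) →
      ∀ τ ∈ closedBall 0 ε, IntegrableOn (g τ) K := fun hg τ hτ =>
    (hg.comp (f := fun w => (τ, w)) (by fun_prop) fun w hw => ⟨hτ, hw⟩).integrableOn_compact hK
  obtain ⟨C, hC⟩ := ((isCompact_closedBall 0 ε).prod hK).exists_bound_of_continuousOn hc'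
  have h0 := mem_closedBall_self (x := (0 : ℝ)) hε.le
  exact (hasDerivAt_integral_of_dominated_loc_of_deriv_le (bound := fun _ => C)
    (closedBall_mem_nhds 0 hε) (mem_of_superset (closedBall_mem_nhds 0 hε) fun τ hτ => (c1 hc τ hτ).1)
    (c1 hc 0 h0) (c1 hc' 0 h0).1
    ((ae_restrict_mem hK.measurableSet).mono fun w hw τ hτ => hC (τ, w) ⟨hτ, hw⟩)
    (integrableOn_const hK.measure_lt_top.ne)
    ((ae_restrict_mem hK.measurableSet).mono fun w hw τ hτ => hd τ hτ w hw)).2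

theorem integral_dz {ψ : ℂ → ℂ} (h1 : ContDiff ℝ 2 ψ) (h2 : HasCompactSupport ψ) :
    Integrable (dz ψ) ∧ ∫ w, dz ψ w = 0 := by
  have a1 : ∀ e, Integrable fun w => fderiv ℝ ψ w e := fun e =>
    ((h1.continuous_fderiv two_ne_zero).clm_apply continuous_const).integrable_of_hasCompactSupport
      (h2.fderiv_apply ℝ e)
  have a2 : ∀ e, ∫ w, fderiv ℝ ψ w e = 0 := fun e => by
    simpa using integral_mul_fderiv_eq_neg_fderiv_mul_of_integrable (μ := volume)
      (f := fun _ => (1 : ℂ)) (g := ψ) (v := e) (by simp) (by simpa using a1 e)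
      (by simpa using h1.continuous.integrable_of_hasCompactSupport h2)
      (fun _ _ => differentiableAt_const _) fun w _ => h1.differentiable two_ne_zero w
  refine ⟨((a1 1).sub ((a1 I).const_mul I)).div_const 2, ?_⟩
  simp only [dz]
  rw [integral_div, integral_sub (a1 1) ((a1 I).const_mul I), integral_const_mul, a2, a2]
  simp

variable (n) in
/-- A closed subset of `ℂ^N` that is a holomorphic retract of an open set, with a metric. -/
structure Data {M : Type} [MetricSpace M] (ι : M → Cn N) (q : Cn N → M) (U : Set (Cn N))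
    (G : Cn N → Bil N) : Prop where
  isOpen : IsOpen U
  closed : IsClosed (range ι)
  sub : range ι ⊆ U
  left : ∀ x, q (ι x) = x
  cι : Continuous ι
  cq : ContinuousOn q U
  hol : DifferentiableOn ℂ (ι ∘ q) U
  inv : ∀ z ∈ U, ∀ u v, G (ι (q z)) (fderiv ℂ (ι ∘ q) z u) (fderiv ℂ (ι ∘ q) z v) = G z u v
  loc : ∀ z ∈ U, ∃ (c : Cn N → Cn n) (j : _) (B : _), Chart (ι ∘ q) G z c j B
  len : ∀ (γ γ' : ℝ → Cn N) (σ : ℝ → ℝ) (a b : ℝ), a ≤ b →
    (∀ t ∈ Icc a b, γ t ∈ U ∧ HasDerivAt γ (γ' t) t ∧ √(G (γ t) (γ' t) (γ' t)) ≤ σ t) →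
    ContinuousOn γ' (Icc a b) → ContinuousOn σ (Icc a b) →
    dist (q (γ a)) (q (γ b)) ≤ ∫ t in a..b, σ t

variable {M : Type} [MetricSpace M] {ι : M → Cn N} {q : Cn N → M} {U : Set (Cn N)}
  {G : Cn N → Bil N} {R R₀ δ : ℝ} {Z Y : ℂ → Cn N}

variable (ι R Z) in
/-- Holomorphic discs. -/
structure Dsc : Prop where
  hol : DiffContOnCl ℂ Z (ball 0 R)
  mem : ∀ w ∈ closedBall 0 R, Z w ∈ range ι

theorem an_of {F : Type} [NormedAddCommGroup F] [NormedSpace ℂ F] [CompleteSpace F] {Z : ℂ → F}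
    (h : DiffContOnCl ℂ Z (ball 0 R)) {w : ℂ} (hw : w ∈ ball 0 R) : AnalyticAt ℂ Z w :=
  h.differentiableOn.analyticAt (isOpen_ball.mem_nhds hw)

theorem Data.two (h : Data n ι q U G) {z : Cn N} (hz : z ∈ U) : ContDiffAt ℝ 2 G z :=
  let ⟨_, _, _, hc⟩ := h.loc z hz; hc.smooth

theorem Data.cG (h : Data n ι q U G) : ContinuousOn G U :=
  fun _ hz => (h.two hz).continuousAt.continuousWithinAt

theorem Data.nonneg (h : Data n ι q U G) {z : Cn N} (hz : z ∈ U) (u : Cn N) : 0 ≤ G z u u :=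
  let ⟨_, _, _, hc⟩ := h.loc z hz; hc.nonneg u

theorem Data.fix (h : Data n ι q U G) {z : Cn N} (hz : z ∈ range ι) : (ι ∘ q) z = z := by
  obtain ⟨x, rfl⟩ := hz
  simp [h.left]

theorem Data.fam (h : Data n ι q U G) (hZ : Dsc ι R Z) :
    Fam R (fun w => G (Z w)) (fun w => fderiv ℂ (ι ∘ q) (Z w)) (deriv Z) := by
  have h1 : ∀ w ∈ closedBall 0 R, Z w ∈ U := fun w hw => h.sub (hZ.mem w hw)
  have h2 : ∀ z ∈ U, ContDiffAt ℂ 1 (fderiv ℂ (ι ∘ q)) z := fun z hz =>
    (contDiffAt_of_eventually ((h.isOpen.eventually_mem hz).mono fun x hx =>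
      h.hol.differentiableAt (h.isOpen.mem_nhds hx)) 2).fderiv_right (by norm_num)
  have h3 := fun w hw => h.fix (hZ.mem w hw)
  refine ⟨h.cG.comp hZ.hol.continuousOn_ball h1, ContinuousOn.comp (g := fderiv ℂ (ι ∘ q))
    (fun z hz => (h2 z hz).continuousAt.continuousWithinAt) hZ.hol.continuousOn_ball h1,
    fun w hw => (h.two (h1 w (ball_subset_closedBall hw))).comp w (an_two (an_of hZ.hol hw)),
    fun w hw => analyticAt_iff_eventually_differentiableAt.2
      ((isOpen_ball.eventually_mem hw).mono fun x hx =>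
        ((h2 _ (h1 x (ball_subset_closedBall hx))).differentiableAt one_ne_zero).comp x
          (an_of hZ.hol hx).differentiableAt),
    fun w hw => (an_of hZ.hol hw).deriv, fun w hw => ?_, fun w hw => h.nonneg (h1 w hw),
    fun w hw u v => ?_, fun w hw u => ?_, fun w hw u hu => ?_, fun w hw s0 => ?_⟩
  · obtain ⟨c, j, B, hc⟩ := h.loc _ (h1 w hw)
    exact hc.isH'
  · obtain ⟨c, j, B, hc⟩ := h.loc _ (h1 w hw)
    rw [hc.at_z, hc.at_z, hc.left0 (h3 w hw)]
  · obtain ⟨c, j, B, hc⟩ := h.loc _ (h1 w hw)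
    rw [hc.fderiv_p, hc.left0 (h3 w hw), hc.fderiv_p]
  · obtain ⟨c, j, B, hc⟩ := h.loc _ (h1 w hw)
    rw [hc.at_z] at hu
    rw [hc.fderiv_p, by_contra fun h0 => (hc.pos _ h0).ne' hu, map_zero]
  · obtain ⟨c, j, B, hc⟩ := h.loc _ (h1 w (ball_subset_closedBall hw))
    exact hc.test (an_of hZ.hol hw) rfl ((isOpen_ball.eventually_mem hw).mono fun x hx =>
      h3 x (ball_subset_closedBall hx)) s0

variable (G R₀ δ Z) in
/-- The weighted area. -/
noncomputable def ar : ℝ := ∫ z : ℂ, W0 (R₀ ^ 2) δ (‖z‖ ^ 2) * G (Z z) (deriv Z z) (deriv Z z)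

theorem Data.tube (h : Data n ι q U G) (hZ : Dsc ι R Z) (hY : DiffContOnCl ℂ Y (ball 0 R)) :
    ∀ᶠ τ : ℝ in 𝓝 0, ∀ w ∈ closedBall 0 R, Z w + τ • Y w ∈ U := by
  have c : ContinuousOn (fun p : ℝ × ℂ => Z p.2 + p.1 • Y p.2) (univ ×ˢ closedBall 0 R) :=
    (hZ.hol.continuousOn_ball.comp continuousOn_snd fun p hp => hp.2).add (continuousOn_fst.smul
      (hY.continuousOn_ball.comp continuousOn_snd fun p hp => hp.2))
  have := (isCompact_closedBall (0 : ℂ) R).eventually_forall_of_forall_eventually (x₀ := (0 : ℝ))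
    (P := fun τ w => w ∈ closedBall 0 R → Z w + τ • Y w ∈ U) fun w hw => by
      have := (c (0, w) ⟨trivial, hw⟩).eventually (h.isOpen.mem_nhds (by
        simpa using h.sub (hZ.mem w hw)))
      exact (eventually_nhdsWithin_iff.1 this).mono fun p hp h1 => hp ⟨trivial, h1⟩
  exact this.mono fun τ hτ w hw => hτ w hw hw

theorem Data.first_var (h : Data n ι q U G) (hZ : Dsc ι R Z) (hδ : 0 < δ) (h0 : 0 < R₀)
    (hR : R₀ < R) {y : ℂ → Cn N} (hy : DiffContOnCl ℂ y (ball 0 R)) :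
    HasDerivAt (fun τ : ℝ => ar G R₀ δ fun w => Z w + τ • w • y w)
      (el (fun w => G (Z w)) (deriv Z) (bb (R₀ ^ 2) δ) y).re 0 := by
  have hY : DiffContOnCl ℂ (fun w => w • y w) (ball 0 R) := differentiable_id.diffContOnCl.smul hy
  generalize hYy : (fun w => w • y w) = Y at hY
  have eY : ∀ w, w • y w = Y w := congrFun hYy
  simp only [eY]
  have hf := h.fam hZ
  obtain ⟨ε, hε, h1⟩ := nhds_basis_closedBall.eventually_iff.1 (h.tube hZ hY)
  have s1 : closedBall (0 : ℂ) R₀ ⊆ ball 0 R := closedBall_subset_ball hR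
  have c : ∀ {f : ℂ → Cn N}, (∀ w ∈ ball 0 R, AnalyticAt ℂ f w) →
      ContinuousOn (fun p : ℝ × ℂ => f p.2) (closedBall 0 ε ×ˢ closedBall 0 R₀) := fun hf p hp =>
    ((hf _ (s1 hp.2)).continuousAt.comp continuousAt_snd).continuousWithinAt
  have c1 := c fun w hw => an_of hY hw
  have c2 := c fun w hw => (an_of hY hw).deriv
  have c3 := (c fun w hw => an_of hZ.hol hw).add (continuousOn_fst.smul c1)
  have c4 := (c hf.dT).add (continuousOn_fst.smul c2)
  have m : MapsTo (fun p : ℝ × ℂ => Z p.2 + p.1 • Y p.2) (closedBall 0 ε ×ˢ closedBall 0 R₀) U :=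
    fun p hp => h1 hp.1 _ (ball_subset_closedBall (s1 hp.2))
  have c5 := h.cG.comp c3 m
  have c6 := ContinuousOn.comp (g := fderiv ℝ G)
    (fun z hz => ((h.two hz).continuousAt_fderiv two_ne_zero).continuousWithinAt) c3 m
  have c7 := ((W_smooth (S := R₀ ^ 2) hδ).1.continuous.comp continuous_snd).continuousOn
    (s := closedBall (0 : ℝ) ε ×ˢ closedBall (0 : ℂ) R₀)
  have h2 := hasDerivAt_compact (isCompact_closedBall 0 R₀) hε
    (f := fun τ w => W0 (R₀ ^ 2) δ (‖w‖ ^ 2) * G (Z w + τ • Y w) (deriv Z w + τ • deriv Y w)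
      (deriv Z w + τ • deriv Y w))
    (f' := fun τ w => W0 (R₀ ^ 2) δ (‖w‖ ^ 2) * (fderiv ℝ G (Z w + τ • Y w) (Y w)
      (deriv Z w + τ • deriv Y w) (deriv Z w + τ • deriv Y w) +
      G (Z w + τ • Y w) (deriv Y w) (deriv Z w + τ • deriv Y w) +
      G (Z w + τ • Y w) (deriv Z w + τ • deriv Y w) (deriv Y w)))
    (c7.mul ((c5.clm_apply c4).clm_apply c4))
    (c7.mul (((((c6.clm_apply c1).clm_apply c4).clm_apply c4).add
      ((c5.clm_apply c2).clm_apply c4)).add ((c5.clm_apply c4).clm_apply c2)))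
    fun τ hτ w hw => by
      have a : ∀ u v : Cn N, HasDerivAt (fun τ : ℝ => u + τ • v) v τ := fun u v => by
        simpa using ((hasDerivAt_id τ).smul_const v).const_add u
      exact (hasDerivAt_T0 (c := fun τ : ℝ => Z w + τ • Y w)
        ((h.two (m (x := (τ, w)) ⟨hτ, hw⟩)).differentiableAt two_ne_zero)
        (a _ _) (a _ _) (a _ _)).const_mul _
  have z0 : ∀ (g : ℂ → ℝ), ∀ w ∉ closedBall (0 : ℂ) R₀, W0 (R₀ ^ 2) δ (‖w‖ ^ 2) * g w = 0 :=
    fun g w hw => by rw [W0_zero h0 w (by simp at hw; exact hw.le), zero_mul]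
  rw [setIntegral_eq_integral_of_forall_compl_eq_zero (z0 _)] at h2
  refine (h2.congr_of_eventuallyEq (.of_forall fun τ => ?_)).congr_deriv ?_
  · simp only [ar]
    rw [← setIntegral_eq_integral_of_forall_compl_eq_zero (z0 _)]
    refine setIntegral_congr_fun measurableSet_closedBall fun w hw => ?_
    rw [((an_of hZ.hol (s1 hw)).differentiableAt.hasDerivAt.fun_add
      ((an_of hY (s1 hw)).differentiableAt.hasDerivAt.fun_const_smul τ)).deriv]
  have n1 := fun w hw => contDiffAt_hc (hf.dH w hw) (an_two (an_of hY hw)) (an_two (hf.dT w hw))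
  have w1 : ContDiff ℝ 2 fun w : ℂ => (W0 (R₀ ^ 2) δ (‖w‖ ^ 2) : ℂ) :=
    ofRealCLM.contDiff.comp (W_smooth (S := R₀ ^ 2) hδ).1
  have z1 : ∀ w : ℂ, R₀ ≤ ‖w‖ → (W0 (R₀ ^ 2) δ (‖w‖ ^ 2) : ℂ) * hc (G (Z w)) (Y w) (deriv Z w) = 0 :=
    fun w hw => by simp [W0_zero h0 w hw]
  obtain ⟨i1, i2⟩ := integral_dz (glue_diff (k := 2) hR z1 fun w hw => w1.contDiffAt.mul (n1 w hw))
    (glue_supp z1)
  have z2 : ∀ w : ℂ, R₀ ≤ ‖w‖ → bb (R₀ ^ 2) δ w * hc (G (Z w)) (y w) (deriv Z w) = 0 :=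
    fun w hw => by simp [bb_zero h0 w hw]
  have i3 : Integrable fun w => bb (R₀ ^ 2) δ w * hc (G (Z w)) (y w) (deriv Z w) :=
    (glue_cont hR z2 ((bb_smooth hδ).continuous.continuousOn.mul (continuousOn_hc
    (hf.cH.mono ball_subset_closedBall) hy.differentiableOn.continuousOn hf.cT))
    ).integrable_of_hasCompactSupport (glue_supp z2)
  have i4 := reCLM.integral_comp_comm (i3.add (i1.const_mul 2))
  rw [integral_add' i3 (i1.const_mul 2), integral_const_mul, i2, mul_zero, add_zero] at i4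
  refine Eq.trans ?_ i4
  congr 1; ext w
  rcases lt_or_ge ‖w‖ R with hw | hw
  · have hw := mem_ball_zero_iff.2 hw
    have hw' := ball_subset_closedBall hw
    obtain ⟨c, j, B, hc'⟩ := h.loc _ (h.sub (hZ.mem w hw'))
    have a0 : ∀ {f : ℂ → Cn N}, AnalyticAt ℂ f w → HasFDerivAt f _ w := fun hf =>
      hf.differentiableAt.hasDerivAt.hasFDerivAt.restrictScalars ℝ
    have a1 := ((hc'.smooth.differentiableAt two_ne_zero).hasFDerivAt.comp w
      (a0 (an_of hZ.hol hw))).clm_apply (a0 (an_of hY hw))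
    have a2 := ((ofRealCLM.hasFDerivAt.comp w (a1.clm_apply (a0 (hf.dT w hw)))).add
      ((ofRealCLM.hasFDerivAt.comp w (a1.clm_apply ((a0 (hf.dT w hw)).const_smul I))).const_mul I)
      ).fderiv
    have a3 : 2 * (dz (fun w => hc (G (Z w)) (Y w) (deriv Z w)) w).re =
        fderiv ℝ G (Z w) (Y w) (deriv Z w) (deriv Z w) + 2 * G (Z w) (deriv Y w) (deriv Z w) := by
      rw [dz]
      erw [a2]
      simp [hc'.kaehler (Y w), hc'.isH'.inv, smul_smul]
      ring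
    rw [Pi.add_apply, dz_mul (w1.differentiable two_ne_zero w) ((n1 w hw).differentiableAt two_ne_zero),
      dz_radial (W0_deriv hδ (sq_nonneg _)), ← eY w, hc_smul (hf.isH w hw'), eY w]
    have a4 : bb (R₀ ^ 2) δ w * hc (G (Z w)) (y w) (deriv Z w) + 2 * (W1 (R₀ ^ 2) δ (‖w‖ ^ 2) * conj w *
      (w * hc (G (Z w)) (y w) (deriv Z w))) = 0 := by
      simp only [bb]
      push_cast
      linear_combination 2 * W1 (R₀ ^ 2) δ (‖w‖ ^ 2) * hc (G (Z w)) (y w) (deriv Z w) * mul_conj' w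
    rw [mul_add (2 : ℂ), ← add_assoc, a4]
    simp only [zero_smul, add_zero, zero_add, reCLM_apply, mul_re, ofReal_re, ofReal_im, re_ofNat,
      im_ofNat, hc'.isH'.symm (deriv Z w) (deriv Y w)]
    linear_combination (-W0 (R₀ ^ 2) δ (‖w‖ ^ 2)) * a3
  · have hw := hR.trans_le hw
    simp [z2 w hw.le, W0_zero h0 w hw.le, dz, (glue_nhds z1 hw).fderiv_eq]

/-- The deformation step. -/
theorem Data.step (h : Data n ι q U G) (hZ : Dsc ι R Z) (hδ : 0 < δ) (h0 : 0 < R₀) (hR : R₀ < R)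
    (hR2 : 2 < R) {a : Cn N} (ha : fderiv ℂ (ι ∘ q) (Z 0) a = a) {ν : ℝ} (hν : 0 < ν)
    (haν : G (Z 0) a a ≤ ν ^ 2) (hA : ar G R₀ δ Z ≤ 10 ^ 9 * ν ^ 2) {t : ℂ} (ht : deriv Z 0 = t • a) :
    ∀ᶠ τ : ℝ in 𝓝[>] 0, ∃ Z', Dsc ι R Z' ∧ Z' 0 = Z 0 ∧ deriv Z' 0 = (t + τ) • a ∧
      (∀ w ∈ sphere 0 R, dist (q (Z w)) (q (Z' w)) ≤
        R * (ν * (R * (1 + R ^ 2) * (R ^ 2 + 2)) + 1) * τ) ∧
      ar G R₀ δ Z' ≤ ar G R₀ δ Z + 10 ^ 9 * ν ^ 2 * τ := by
  have hf := h.fam hZ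
  have R0 : 0 < R := by linarith
  obtain ⟨y, y1, y2, y3, y4⟩ := hf.dual (bb_smooth hδ) hR hR2 (bb_zero h0) ha hν haν
    (fun ρ hρ => hf.J_bound hδ h0 hR hν hρ) (lt_add_one _) (A₂ := 10 ^ 9 * ν ^ 2) (by
      rw [← ar, mul_add, show 2 * ν * (ar G R₀ δ Z / (4 * ν)) = ar G R₀ δ Z / 2 by field_simp; ring]
      nlinarith [sq_pos_of_pos hν]) (by positivity)
  generalize hC : ν * (R * (1 + R ^ 2) * (R ^ 2 + 2)) + 1 = C at y3
  have C0 : 0 < C := by rw [← hC]; positivity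
  have hY : DiffContOnCl ℂ (fun w => w • y w) (ball 0 R) := differentiable_id.diffContOnCl.smul y1
  have e3 := (h.first_var hZ hδ h0 hR y1).tendsto_slope_zero_right.eventually (gt_mem_nhds y4)
  have e4 : ∀ w ∈ sphere (0 : ℂ) R, G (Z w) (w • y w) (w • y w) < (R * C) ^ 2 := fun w hw => by
    rw [isH_smul (hf.isH w (sphere_subset_closedBall hw)), mem_sphere_zero_iff_norm.1 hw, mul_pow]
    exact mul_lt_mul_of_pos_left (y3 w hw) (by positivity)
  have e5 : deriv (fun w => w • y w) 0 = a := by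
    simpa [y2] using ((hasDerivAt_id (0 : ℂ)).fun_smul
      (an_of y1 (mem_ball_self R0)).differentiableAt.hasDerivAt).deriv
  have e6 : (fun w => w • y w) 0 = 0 := zero_smul _ _
  generalize hYy : (fun w => w • y w) = Y at hY e5 e6
  have eY : ∀ w, w • y w = Y w := congrFun hYy
  simp only [eY, zero_add, zero_smul, add_zero] at e3 e4
  have c1 : ContinuousOn (fun p : ℝ × ℂ => Y p.2) (univ ×ˢ closedBall 0 R) :=
    hY.continuousOn_ball.comp continuousOn_snd fun p hp => hp.2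
  have c2 : ContinuousOn (fun p : ℝ × ℂ => Z p.2 + p.1 • Y p.2) (univ ×ˢ closedBall 0 R) :=
    (hZ.hol.continuousOn_ball.comp continuousOn_snd fun p hp => hp.2).add (continuousOn_fst.smul c1)
  have e2 := (isCompact_sphere (0 : ℂ) R).eventually_forall_of_forall_eventually (x₀ := (0 : ℝ))
    (P := fun τ w => w ∈ closedBall 0 R → G (Z w + τ • Y w) (Y w) (Y w) < (R * C) ^ 2) fun w hw => by
      have hw' := sphere_subset_closedBall hw
      have := (((ContinuousAt.comp_continuousWithinAt (f := fun p : ℝ × ℂ => Z p.2 + p.1 • Y p.2)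
        (h.two (by simpa using h.sub (hZ.mem w hw'))).continuousAt
        (c2 (0, w) ⟨trivial, hw'⟩)).clm_apply (c1 (0, w) ⟨trivial, hw'⟩)).clm_apply
          (c1 (0, w) ⟨trivial, hw'⟩)).eventually
            (gt_mem_nhds (a := (R * C) ^ 2) (by simpa using e4 w hw))
      exact (eventually_nhdsWithin_iff.1 this).mono fun p hp h1 => hp ⟨trivial, h1⟩
  obtain ⟨ε, hε, e1⟩ := eventually_nhds_iff_ball.1 ((h.tube hZ hY).and e2)
  filter_upwards [e3, Ioo_mem_nhdsGT hε] with τ a1 a2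
  have a3 : ∀ σ ∈ Icc 0 τ, σ ∈ ball (0 : ℝ) ε := fun σ hσ => by
    rw [mem_ball_zero_iff, Real.norm_of_nonneg hσ.1]; exact hσ.2.trans_lt a2.2
  have a4 := (e1 τ (a3 τ ⟨a2.1.le, le_rfl⟩)).1
  have a5 : ∀ w ∈ ball 0 R, HasDerivAt (fun w => Z w + τ • Y w) (deriv Z w + τ • deriv Y w) w :=
    fun w hw => (an_of hZ.hol hw).differentiableAt.hasDerivAt.fun_add
      ((an_of hY hw).differentiableAt.hasDerivAt.fun_const_smul τ)
  have a6 : ∀ w ∈ ball 0 R, HasDerivAt (fun w => ι (q (Z w + τ • Y w)))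
      (fderiv ℂ (ι ∘ q) (Z w + τ • Y w) (deriv Z w + τ • deriv Y w)) w := fun w hw =>
    HasFDerivAt.comp_hasDerivAt (f := fun w => Z w + τ • Y w) (l := ι ∘ q) w (h.hol.differentiableAt
      (h.isOpen.mem_nhds (a4 w (ball_subset_closedBall hw)))).hasFDerivAt (a5 w hw)
  refine ⟨fun w => ι (q (Z w + τ • Y w)), ⟨.mk_ball
    (fun w hw => (a6 w hw).differentiableAt.differentiableWithinAt)
    (h.hol.continuousOn.comp (hZ.hol.add (hY.const_smul τ)).continuousOn_ball a4),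
    fun w _ => mem_range_self _⟩, ?_, ?_, fun w hw => ?_, ?_⟩
  · simpa [e6] using h.fix (hZ.mem 0 (mem_closedBall_self R0.le))
  · rw [(a6 0 (mem_ball_self R0)).deriv, e6, e5, ht, ← coe_smul τ a, ← add_smul, map_smul]
    simp [ha]
  · have hw' := sphere_subset_closedBall hw
    have := h.len (fun σ => Z w + σ • Y w) (fun _ => Y w) (fun _ => R * C) 0 τ a2.1.le
      (fun σ hσ => ⟨(e1 σ (a3 σ hσ)).1 w hw', by
        simpa using ((hasDerivAt_id σ).smul_const (Y w)).const_add (Z w),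
        Real.sqrt_le_iff.2 ⟨by positivity, ((e1 σ (a3 σ hσ)).2 w hw hw').le⟩⟩)
      continuousOn_const continuousOn_const
    simpa [h.left, mul_comm τ, mul_assoc] using this
  · rw [smul_eq_mul, inv_mul_lt_iff₀ a2.1] at a1
    refine le_of_eq_of_le ?_ (show ar G R₀ δ (fun w => Z w + τ • Y w) ≤ _ by linarith)
    simp only [ar]
    congr 1; ext w
    rcases lt_or_ge ‖w‖ R with hw | hw
    · have hw := mem_ball_zero_iff.2 hw
      rw [(a6 w hw).deriv, (a5 w hw).deriv, h.inv _ (a4 w (ball_subset_closedBall hw))]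
    · simp [W0_zero h0 w (hR.le.trans hw)]

end Pool.Agent.Lib.MP_124863_gt.Ec
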