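import Pool.Agent.Lib.MP_124863_gt.EcDual

/-! The weights of the area functional. -/

open Filter Topology Set Metric Complex MeasureTheory
open scoped Real ComplexConjugate

namespace Pool.Agent.Lib.MP_124863_gt.Ec

theorem hasDerivAt_pos_pow (m : ℕ) (x : ℝ) :
    HasDerivAt (fun x : ℝ => max x 0 ^ (m + 2)) ((m + 2) * max x 0 ^ (m + 1)) x := by
  rcases lt_trichotomy x 0 with h | rfl | h
  · rw [max_eq_right h.le, zero_pow m.succ_ne_zero, mul_zero]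
    exact (hasDerivAt_const x (0 : ℝ)).congr_of_eventuallyEq ((gt_mem_nhds h).mono fun y hy => by
      simp [max_eq_right hy.le])
  · rw [max_self, zero_pow m.succ_ne_zero, mul_zero, hasDerivAt_iff_isLittleO_nhds_zero]
    refine Asymptotics.IsBigO.trans_isLittleO (.of_bound 1 (.of_forall fun y => ?_))
      (Asymptotics.isLittleO_pow_id (n := m + 2) (by omega))
    simp only [zero_add, max_self, zero_pow (m + 1).succ_ne_zero, sub_zero, smul_zero, norm_pow,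
      one_mul, Real.norm_eq_abs]
    refine pow_le_pow_left₀ (abs_nonneg _) ?_ _
    rw [abs_of_nonneg (le_max_right y 0)]
    exact max_le (le_abs_self y) (abs_nonneg y)
  · rw [max_eq_left h.le]
    exact ((hasDerivAt_pow (m + 2) x).congr_of_eventuallyEq ((lt_mem_nhds h).mono fun y hy => by
      simp [max_eq_left hy.le])).congr_deriv (by simp)

theorem contDiff_pos_pow (k m : ℕ) : ContDiff ℝ k fun x : ℝ => max x 0 ^ (m + k + 1) := by
  induction k with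
  | zero => exact contDiff_zero.2 (by fun_prop)
  | succ k ih =>
    refine (contDiff_succ_iff_deriv (n := k)).2 ⟨fun x => (hasDerivAt_pos_pow (m + k) x).differentiableAt,
      by simp, ?_⟩
    rw [show deriv (fun x : ℝ => max x 0 ^ (m + (k + 1) + 1)) = _ from
      funext fun x => (hasDerivAt_pos_pow (m + k) x).deriv]
    exact contDiff_const.mul ih

variable (S δ : ℝ)

/-- The cut-off function. -/
noncomputable def cc (s : ℝ) : ℝ := max (1 - s / S) 0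

/-- The singular weight. -/
noncomputable def vv (s : ℝ) : ℝ := (√(s + δ ^ 2))⁻¹ * ((1 + s) ^ 4)⁻¹

/-- The logarithmic derivative of the singular weight. -/
noncomputable def ka (s : ℝ) : ℝ := 1 / (2 * (s + δ ^ 2)) + 4 / (1 + s)

/-- The weight. -/
noncomputable def W0 (s : ℝ) : ℝ := cc S s ^ 4 * vv δ s

/-- The derivative of the weight. -/
noncomputable def W1 (s : ℝ) : ℝ := -(4 / S * cc S s ^ 3 * vv δ s) - cc S s ^ 4 * vv δ s * ka δ s

/-- The second derivative of the weight. -/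
noncomputable def W2 (s : ℝ) : ℝ := 12 / S ^ 2 * cc S s ^ 2 * vv δ s +
  8 / S * cc S s ^ 3 * vv δ s * ka δ s +
  cc S s ^ 4 * vv δ s * (ka δ s ^ 2 + (1 / (2 * (s + δ ^ 2) ^ 2) + 4 / (1 + s) ^ 2))

/-- The density of the first variation. -/
noncomputable def bb (z : ℂ) : ℂ := (-2 * ‖z‖ ^ 2 * W1 S δ (‖z‖ ^ 2) : ℝ)

variable {S δ} {s : ℝ}

theorem cc_deriv (m : ℕ) (s : ℝ) :
    HasDerivAt (fun s => cc S s ^ (m + 2)) (-((m + 2) / S * cc S s ^ (m + 1))) s :=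
  ((hasDerivAt_pos_pow m _).comp s (((hasDerivAt_id s).div_const S).const_sub 1)).congr_deriv
    (by simp only [cc, id]; ring)

theorem vv_deriv (hδ : 0 < δ) (hs : 0 ≤ s) : HasDerivAt (vv δ) (-(vv δ s * ka δ s)) s := by
  have h1 : 0 < √(s + δ ^ 2) := by positivity
  have h2 := Real.sq_sqrt (show 0 ≤ s + δ ^ 2 by positivity)
  refine ((((hasDerivAt_id s).add_const (δ ^ 2)).sqrt (by simp; positivity)).inv h1.ne' |>.mul
    ((((hasDerivAt_id s).const_add 1).pow 4).inv (by simp; positivity))).congr_deriv ?_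
  simp only [vv, ka, id, Pi.inv_apply, Pi.pow_apply]
  generalize √(s + δ ^ 2) = q at *
  rw [← h2]
  field_simp
  ring

theorem ka_deriv (hδ : 0 < δ) (hs : 0 ≤ s) :
    HasDerivAt (ka δ) (-(1 / (2 * (s + δ ^ 2) ^ 2) + 4 / (1 + s) ^ 2)) s := by
  refine (((hasDerivAt_const s (1 : ℝ)).div (((hasDerivAt_id s).add_const (δ ^ 2)).const_mul 2)
    (by simp; positivity)).add ((hasDerivAt_const s (4 : ℝ)).div ((hasDerivAt_id s).const_add 1)
      (by simp; positivity))).congr_deriv ?_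
  simp only [id]
  field_simp
  ring

theorem W0_deriv (hδ : 0 < δ) (hs : 0 ≤ s) : HasDerivAt (W0 S δ) (W1 S δ s) s :=
  ((cc_deriv 2 s).mul (vv_deriv hδ hs)).congr_deriv (by simp only [W1]; ring)

theorem W1_deriv (hδ : 0 < δ) (hs : 0 ≤ s) : HasDerivAt (W1 S δ) (W2 S δ s) s :=
  ((((cc_deriv 1 s).const_mul (4 / S)).mul (vv_deriv hδ hs)).neg.sub
    ((W0_deriv hδ hs).mul (ka_deriv hδ hs))).congr_deriv (by simp only [W0, W1, W2]; ring)

theorem vv_pos (hδ : 0 < δ) (hs : 0 ≤ s) : 0 < vv δ s := by unfold vv; positivity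

theorem W0_nonneg (hδ : 0 < δ) (hs : 0 ≤ s) : 0 ≤ W0 S δ s := by
  have := vv_pos hδ hs
  unfold W0; positivity

theorem W_bound (hS : 0 < S) (hδ : 0 < δ) (hs : 0 ≤ s) :
    |-2 * s * W1 S δ s + s * (-2 * W1 S δ s + -2 * s * W2 S δ s) +
      2 * s / (1 + s) * (-2 * s * W1 S δ s)| ≤ 214 * (cc S s ^ 2 * vv δ s) := by
  rcases le_total S s with h | h
  · have : cc S s = 0 := max_eq_right (by rwa [sub_nonpos, one_le_div hS])
    simp [W1, W2, this]
  have c0 : 0 ≤ cc S s := le_max_right _ _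
  have c1 : cc S s ≤ 1 := max_le (by simp; positivity) zero_le_one
  have v0 := vv_pos hδ hs
  have x1 : s / S ≤ 1 := (div_le_one hS).2 h
  have p1 : s / (s + δ ^ 2) ≤ 1 := (div_le_one (by positivity)).2 (by simp; positivity)
  have q1 : s / (1 + s) ≤ 1 := (div_le_one (by positivity)).2 (by simp)
  have e : -2 * s * W1 S δ s + s * (-2 * W1 S δ s + -2 * s * W2 S δ s) +
      2 * s / (1 + s) * (-2 * s * W1 S δ s) = ((4 + 4 * (s / (1 + s))) * (4 * (s / S) * cc S s +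
        cc S s ^ 2 * (s / (s + δ ^ 2) / 2 + 4 * (s / (1 + s)))) - 2 * (12 * (s / S) ^ 2 +
        8 * (s / S) * cc S s * (s / (s + δ ^ 2) / 2 + 4 * (s / (1 + s))) +
        cc S s ^ 2 * ((s / (s + δ ^ 2) / 2 + 4 * (s / (1 + s))) ^ 2 +
          ((s / (s + δ ^ 2)) ^ 2 / 2 + 4 * (s / (1 + s)) ^ 2)))) * (cc S s ^ 2 * vv δ s) := by
    simp only [W1, W2, ka]
    field_simp
    ring
  have x0 : 0 ≤ s / S := by positivity
  have p0 : 0 ≤ s / (s + δ ^ 2) := by positivity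
  have q0 : 0 ≤ s / (1 + s) := by positivity
  rw [e, abs_mul, abs_of_nonneg (show 0 ≤ cc S s ^ 2 * vv δ s by positivity)]
  generalize s / S = x, s / (s + δ ^ 2) = p, s / (1 + s) = q, cc S s = c at *
  gcongr
  have a1 : (4 + 4 * q) * (4 * x * c + c ^ 2 * (p / 2 + 4 * q)) ≤
    (4 + 4 * 1) * (4 * 1 * 1 + 1 ^ 2 * (1 / 2 + 4 * 1)) := by gcongr
  have a2 : 12 * x ^ 2 + 8 * x * c * (p / 2 + 4 * q) +
      c ^ 2 * ((p / 2 + 4 * q) ^ 2 + (p ^ 2 / 2 + 4 * q ^ 2)) ≤ 12 * 1 ^ 2 + 8 * 1 * 1 * (1 / 2 + 4 * 1) +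
      1 ^ 2 * ((1 / 2 + 4 * 1) ^ 2 + (1 ^ 2 / 2 + 4 * 1 ^ 2)) := by gcongr
  have a3 : 0 ≤ (4 + 4 * q) * (4 * x * c + c ^ 2 * (p / 2 + 4 * q)) := by positivity
  have a4 : 0 ≤ 12 * x ^ 2 + 8 * x * c * (p / 2 + 4 * q) +
      c ^ 2 * ((p / 2 + 4 * q) ^ 2 + (p ^ 2 / 2 + 4 * q ^ 2)) := by positivity
  rw [abs_le]
  constructor <;> linarith

theorem dz_radial {f : ℝ → ℝ} {f' : ℝ} {z : ℂ} (h : HasDerivAt f f' (‖z‖ ^ 2)) :
    dz (fun w => (f (‖w‖ ^ 2) : ℂ)) z = f' * conj z := by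
  have := (ofRealCLM.hasFDerivAt.comp z (h.comp_hasFDerivAt z
    (hasStrictFDerivAt_norm_sq z).hasFDerivAt)).fderiv
  rw [dz]
  erw [this]
  apply Complex.ext <;> simp <;> ring

theorem W_smooth (hδ : 0 < δ) : ContDiff ℝ 2 (fun z : ℂ => W0 S δ (‖z‖ ^ 2)) ∧
    ContDiff ℝ 2 fun z : ℂ => W1 S δ (‖z‖ ^ 2) := by
  have h0 : ContDiff ℝ 2 fun z : ℂ => ‖z‖ ^ 2 := contDiff_norm_sq ℝ
  have h1 : ∀ m, ContDiff ℝ 2 fun z : ℂ => cc S (‖z‖ ^ 2) ^ (m + 2 + 1) := fun m =>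
    (contDiff_pos_pow 2 m).comp (contDiff_const.sub (h0.div_const S))
  have h2 : ContDiff ℝ 2 fun z : ℂ => vv δ (‖z‖ ^ 2) :=
    (((h0.add contDiff_const).sqrt fun z => by positivity).inv fun z => by positivity).mul
      (((contDiff_const.add h0).pow 4).inv fun z => by positivity)
  have h3 : ContDiff ℝ 2 fun z : ℂ => ka δ (‖z‖ ^ 2) :=
    (contDiff_const.div (contDiff_const.mul (h0.add contDiff_const)) fun z => by positivity).add
      (contDiff_const.div (contDiff_const.add h0) fun z => by positivity)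
  exact ⟨(h1 1).mul h2, ((contDiff_const.mul (h1 0)).mul h2).neg.sub (((h1 1).mul h2).mul h3)⟩

theorem bb_smooth (hδ : 0 < δ) : ContDiff ℝ 2 (bb S δ) :=
  ofRealCLM.contDiff.comp ((contDiff_const.mul (contDiff_norm_sq ℝ)).mul (W_smooth hδ).2)

theorem cc_zero {R₀ : ℝ} (hR : 0 < R₀) {z : ℂ} (hz : R₀ ≤ ‖z‖) : cc (R₀ ^ 2) (‖z‖ ^ 2) = 0 :=
  max_eq_right (by rw [sub_nonpos, one_le_div (by positivity)]; gcongr)

theorem W0_zero {R₀ : ℝ} (hR : 0 < R₀) (z : ℂ) (hz : R₀ ≤ ‖z‖) : W0 (R₀ ^ 2) δ (‖z‖ ^ 2) = 0 := by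
  simp [W0, cc_zero hR hz]

theorem W1_zero {R₀ : ℝ} (hR : 0 < R₀) (z : ℂ) (hz : R₀ ≤ ‖z‖) : W1 (R₀ ^ 2) δ (‖z‖ ^ 2) = 0 := by
  simp [W1, cc_zero hR hz]

theorem bb_zero {R₀ : ℝ} (hR : 0 < R₀) (z : ℂ) (hz : R₀ ≤ ‖z‖) : bb (R₀ ^ 2) δ z = 0 := by
  simp [bb, W1_zero hR z hz]

theorem bb_bound (hS : 0 < S) (hδ : 0 < δ) (z : ℂ) : ‖dz (fun w => w * bb S δ w) z +
    2 * conj z / (1 + ‖z‖ ^ 2 : ℝ) * (z * bb S δ z)‖ ≤
    214 * (cc S (‖z‖ ^ 2) ^ 2 * vv δ (‖z‖ ^ 2)) := by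
  have h1 := dz_radial (f := fun s => -2 * s * W1 S δ s)
    (((hasDerivAt_id _).const_mul (-2)).mul (W1_deriv (S := S) hδ (sq_nonneg ‖z‖)))
  refine le_of_eq_of_le ?_ (W_bound hS hδ (sq_nonneg ‖z‖))
  rw [dz_mul differentiableAt_fun_id ((bb_smooth hδ).differentiable two_ne_zero z),
    dz_holo differentiableAt_fun_id, ← Real.norm_eq_abs, ← norm_real]
  erw [h1]
  congr 1
  have := mul_conj' z
  simp only [bb, deriv_id'']
  push_cast
  linear_combination (-2 * W1 S δ (‖z‖ ^ 2) + -2 * ‖z‖ ^ 2 * W2 S δ (‖z‖ ^ 2) +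
    2 / (1 + ‖z‖ ^ 2) * (-2 * ‖z‖ ^ 2 * W1 S δ (‖z‖ ^ 2))) * this

theorem gr_sq {r : ℝ} (hr : 0 < r) : gr r ^ 2 * (√r * (1 + r)) ≤ 68 * r ^ 2 * (1 + r ^ 2) ^ 2 := by
  have h1 : gr r = r * (1 + Real.log ((1 + r ^ 2) / r)) := by
    rw [gr, Real.log_div (by positivity) hr.ne']; ring
  have h2 : 1 ≤ (1 + r ^ 2) / r := by rw [one_le_div hr]; nlinarith
  have h3 := Real.log_nonneg h2
  have h4 := Real.log_le_sub_one_of_pos (show 0 < √√((1 + r ^ 2) / r) by positivity)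
  rw [Real.log_sqrt (by positivity), Real.log_sqrt (by positivity)] at h4
  have h5 := Real.sq_sqrt (Real.sqrt_nonneg ((1 + r ^ 2) / r))
  have h6 : Real.log ((1 + r ^ 2) / r) ^ 2 ≤ (4 * √√((1 + r ^ 2) / r)) ^ 2 := by gcongr; linarith
  rw [mul_pow, h5, Real.sqrt_div (by positivity), ← mul_div_assoc, le_div_iff₀ (by positivity)] at h6
  have h7 : √(1 + r ^ 2) ≤ 1 + r ^ 2 := Real.sqrt_le_iff.2 ⟨by positivity, by nlinarith⟩
  have h8 : √r ≤ 1 + r ^ 2 := Real.sqrt_le_iff.2 ⟨by positivity, by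
    nlinarith [sq_nonneg (r - 1), sq_nonneg (r ^ 2)]⟩
  have h9 : (1 + Real.log ((1 + r ^ 2) / r)) ^ 2 * √r ≤ 34 * (1 + r ^ 2) := by
    nlinarith [mul_nonneg (sq_nonneg (1 - Real.log ((1 + r ^ 2) / r))) (Real.sqrt_nonneg r)]
  calc _ = r ^ 2 * ((1 + Real.log ((1 + r ^ 2) / r)) ^ 2 * √r) * (1 + r) := by rw [h1]; ring
    _ ≤ r ^ 2 * (34 * (1 + r ^ 2)) * (2 * (1 + r ^ 2)) := by gcongr; nlinarith
    _ = _ := by ring

theorem amgm {r ν e : ℝ} (hδ : 0 < δ) (hr : 0 < r) (hν : 0 < ν) (he : 0 ≤ e) :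
    gr r * (214 * (cc S (r ^ 2) ^ 2 * vv δ (r ^ 2)) * (1 + r ^ 2) * √e) ≤
      r * (W0 S δ (r ^ 2) * e) / (4 * ν) + 214 ^ 2 * 68 * ν / (√r * (1 + r)) := by
  have v0 := vv_pos hδ (sq_nonneg r)
  have h1 : r * vv δ (r ^ 2) * (1 + r ^ 2) ^ 4 ≤ 1 := by
    rw [vv, mul_assoc, mul_assoc, inv_mul_cancel₀ (by positivity), mul_one, ← div_eq_mul_inv,
      div_le_one (by positivity)]
    exact Real.le_sqrt_of_sq_le (le_add_of_nonneg_right (sq_nonneg _))
  have h2 : gr r ^ 2 * (1 + r ^ 2) ^ 2 * vv δ (r ^ 2) / r ≤ 68 / (√r * (1 + r)) := by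
    rw [div_le_div_iff₀ hr (by positivity)]
    calc _ = gr r ^ 2 * (√r * (1 + r)) * ((1 + r ^ 2) ^ 2 * vv δ (r ^ 2)) := by ring
      _ ≤ 68 * r ^ 2 * (1 + r ^ 2) ^ 2 * ((1 + r ^ 2) ^ 2 * vv δ (r ^ 2)) :=
        mul_le_mul_of_nonneg_right (gr_sq hr) (by positivity)
      _ = 68 * r * (r * vv δ (r ^ 2) * (1 + r ^ 2) ^ 4) := by ring
      _ ≤ 68 * r * 1 := by gcongr
      _ = _ := by ring
  have h3 := mul_le_mul_of_nonneg_left h2 (show 0 ≤ 214 ^ 2 * ν by positivity)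
  have h4 : 0 ≤ vv δ (r ^ 2) / (4 * ν * r) *
    (r * cc S (r ^ 2) ^ 2 * √e - 2 * ν * 214 * gr r * (1 + r ^ 2)) ^ 2 := by positivity
  have h5 := Real.sq_sqrt he
  rw [W0]
  generalize √e = x at *
  subst h5
  have h6 : vv δ (r ^ 2) / (4 * ν * r) *
      (r * cc S (r ^ 2) ^ 2 * x - 2 * ν * 214 * gr r * (1 + r ^ 2)) ^ 2 =
      r * (cc S (r ^ 2) ^ 4 * vv δ (r ^ 2) * x ^ 2) / (4 * ν) -
      gr r * (214 * (cc S (r ^ 2) ^ 2 * vv δ (r ^ 2)) * (1 + r ^ 2) * x) +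
      214 ^ 2 * ν * (gr r ^ 2 * (1 + r ^ 2) ^ 2 * vv δ (r ^ 2) / r) := by field_simp; ring
  have h7 : 214 ^ 2 * ν * (68 / (√r * (1 + r))) = 214 ^ 2 * 68 * ν / (√r * (1 + r)) := by ring
  linarith

variable {N : ℕ} {H : ℂ → Bil N} {P : ℂ → Cn N →L[ℂ] Cn N} {R R₀ : ℝ} {T : ℂ → Cn N}

theorem area_cont {e : ℂ → ℝ} (he : ContinuousOn e (ball 0 R)) (hδ : 0 < δ) (h0 : 0 < R₀)
    (hR : R₀ < R) : Continuous fun z : ℂ => W0 (R₀ ^ 2) δ (‖z‖ ^ 2) * e z :=
  glue_cont hR (fun w hw => by simp [W0_zero h0 w hw])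
    ((W_smooth hδ).1.continuous.continuousOn.mul he)

theorem area_polar {e : ℂ → ℝ} (he : ContinuousOn e (ball 0 R)) (e0 : ∀ z ∈ ball 0 R, 0 ≤ e z)
    (hδ : 0 < δ) (h0 : 0 < R₀) (hR : R₀ < R) {a ρ : ℝ} (ha : 0 ≤ a) (hρ : a ≤ ρ) :
    ∫ r in a..ρ, r * mean (fun z => W0 (R₀ ^ 2) δ (‖z‖ ^ 2) * e z) r ≤
      ∫ z : ℂ, W0 (R₀ ^ 2) δ (‖z‖ ^ 2) * e z := by
  have hc := area_cont he hδ h0 hR
  rw [polar hc (ρ := max ρ R₀) (by positivity) fun z hz => by
    simp [W0_zero h0 z ((le_max_right _ _).trans hz)]]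
  refine intervalIntegral.integral_mono_interval ha hρ (le_max_left _ _)
    ((ae_restrict_mem measurableSet_Ioc).mono fun r hr => mul_nonneg hr.1.le
      (mean_nonneg fun θ => ?_)) (ContinuousOn.intervalIntegrable_of_Icc (by positivity)
        (continuousOn_id.mul ((continuousOn_mean (R := max ρ R₀ + 1) hc.continuousOn).mono
          fun r hr => ⟨by linarith [hr.1, hr.2], by linarith [hr.2]⟩)))
  rcases le_total R₀ ‖cm r θ‖ with h | h
  · simp [W0_zero h0 _ h]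
  · exact mul_nonneg (W0_nonneg hδ (sq_nonneg _)) (e0 _ (mem_ball_zero_iff.2 (h.trans_lt hR)))

theorem Fam.J_bound (h : Fam R H P T) (hδ : 0 < δ) (h0 : 0 < R₀) (hR : R₀ < R) {ν : ℝ} (hν : 0 < ν)
    {ρ : ℝ} (hρ : ρ ∈ Ico 2 R) : ∫ r in 0..ρ, gr r * mean (src H T (bb (R₀ ^ 2) δ)) r ≤
      (∫ z : ℂ, W0 (R₀ ^ 2) δ (‖z‖ ^ 2) * H z (T z) (T z)) / (4 * ν) + 10 ^ 8 * ν := by
  have ρ0 : 0 ≤ ρ := by linarith [hρ.1]
  have hs : Icc 0 ρ ⊆ Ioo (-R) R := fun r hr => ⟨by linarith [hr.1], hr.2.trans_lt hρ.2⟩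
  have c0 := ((h.cH.mono ball_subset_closedBall).clm_apply h.cT).clm_apply h.cT
  have c1 := (area_cont c0 hδ h0 hR).continuousOn (s := ball 0 R)
  have c2 := h.src_cont (bb_smooth (S := R₀ ^ 2) hδ)
  have c3 : ContinuousOn (fun r => gr r * mean (src H T (bb (R₀ ^ 2) δ)) r) (Icc 0 ρ) :=
    continuous_gr.continuousOn.mul ((continuousOn_mean c2).mono hs)
  have c4 : ContinuousOn (fun r => r * mean (fun z => W0 (R₀ ^ 2) δ (‖z‖ ^ 2) * H z (T z) (T z)) r /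
      (4 * ν)) (Icc 0 ρ) := (continuousOn_id.mul ((continuousOn_mean c1).mono hs)).div_const _
  have h1 := intervalIntegral.integral_le_sub_of_hasDeriv_right_of_le ρ0
    (g := fun r => 4 * π * (214 ^ 2 * 68 * ν) * Real.arctan √r)
    (g' := fun r => 2 * π * (214 ^ 2 * 68 * ν / (√r * (1 + r))))
    ((Real.continuous_arctan.comp Real.continuous_sqrt).continuousOn.const_mul _)
    (fun r hr => (((Real.hasDerivAt_sqrt hr.1.ne').arctan.const_mul _).congr_deriv (by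
      rw [Real.sq_sqrt hr.1.le]; field_simp; ring)).hasDerivWithinAt)
    (c3.sub c4).integrableOn_Icc fun r hr => by
      have r1 := hs (Ioo_subset_Icc_self hr)
      have := mean_mono ((c2.const_mul (gr r)).sub ((c1.const_mul r).div_const (4 * ν)))
        (continuousOn_const (c := 214 ^ 2 * 68 * ν / (√r * (1 + r)))) r1 fun θ => by
          have a1 := amgm (S := R₀ ^ 2) hδ hr.1 hν (h.nn _ (ball_subset_closedBall (cm_mem r1 θ))
            (T (cm r θ)))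
          have a2 := bb_bound (S := R₀ ^ 2) (by positivity) hδ (cm r θ)
          have a3 := hr.1.le.trans (le_gr hr.1.le)
          simp only [src, Pi.sub_apply, norm_cm, sq_abs] at a2 ⊢
          refine sub_le_iff_le_add'.2 (le_trans ?_ a1)
          gcongr
      simp only [mean, Pi.sub_apply] at this ⊢
      rwa [intervalIntegral.integral_sub
        (((continuous_on_circle c2 r1).const_mul _).intervalIntegrable _ _)
        ((((continuous_on_circle c1 r1).const_mul _).div_const _).intervalIntegrable _ _),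
        intervalIntegral.integral_const, intervalIntegral.integral_div,
        intervalIntegral.integral_const_mul, intervalIntegral.integral_const_mul, sub_zero] at this
  simp only [Pi.sub_apply] at h1
  rw [intervalIntegral.integral_sub (c3.intervalIntegrable_of_Icc ρ0)
    (c4.intervalIntegrable_of_Icc ρ0), intervalIntegral.integral_div] at h1
  have h2 := div_le_div_of_nonneg_right (area_polar c0
    (fun z hz => h.nn z (ball_subset_closedBall hz) _) hδ h0 hR le_rfl ρ0)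
    (show 0 ≤ 4 * ν by positivity)
  have h3 : 4 * π * (214 ^ 2 * 68 * ν) * Real.arctan √ρ ≤ 4 * 4 * (214 ^ 2 * 68 * ν) * (4 / 2) := by
    gcongr
    exacts [Real.pi_le_four, (Real.arctan_lt_pi_div_two _).le.trans (by linarith [Real.pi_le_four])]
  simp only [Real.sqrt_zero, Real.arctan_zero] at h1
  linarith

end Pool.Agent.Lib.MP_124863_gt.Ec
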