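import Pool.Agent.Lib.MP_124863_gt.OkStmt

/-! Tensor semipositivity of the tangent bundle and elliptic manifolds. -/

open scoped Manifold Matrix

namespace Pool.Agent.Lib.MP_124863_gt

/-- `R(X, conj X', Y, conj Y')` at `z` for the Hermitian metric with matrix `h`, where
`R_{i j k l} = - ∂_k ∂bar_l h_{i j} + ∑ ∂_k h_{i q} h^{q p} ∂bar_l h_{p j}`. -/
noncomputable def curv {n : ℕ} (h : Cn n → Matrix (Fin n) (Fin n) ℂ) (z X X' Y Y' : Cn n) : ℂ :=
  X ⬝ᵥ (-(Matrix.of fun i j => dz Y (dzb Y' fun w => h w i j) z) +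
    (Matrix.of fun i j => dz Y (fun w => h w i j) z) * (h z)⁻¹ *
      (Matrix.of fun i j => dzb Y' (fun w => h w i j) z)) *ᵥ star X'

variable (k n : ℕ) (M : Type) [MetricSpace M] [ChartedSpace (Cn n) M]

/-- The curvature form of the tangent bundle is nonnegative on the tensors `∑ X_i ⊗ Y_i` of rank at
most `k`. For `k = 1` this is nonnegative holomorphic bisectional curvature. -/
def TensorSemipositive [Riem (Cn n) M] : Prop :=
  ∀ (f : Cn n → M) z, Coord f z → ∀ X Y : Fin k → Cn n,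
    0 ≤ (∑ i, ∑ j, curv (fun w => hmat (pull f w)) z (X i) (X j) (Y i) (Y j)).re

/-- `s : M × ℂ^k → M` is holomorphic. -/
def HolProd (s : M × Cn k → M) : Prop :=
  MDifferentiable (𝓘(ℂ, Cn n).prod 𝓘(ℂ, Cn k)) 𝓘(ℂ, Cn n) s

/-- `M` has a dominating spray defined on a trivial vector bundle. -/
def Elliptic : Prop :=
  ∃ (k : ℕ) (s : M × Cn k → M), HolProd k n M s ∧
    ∀ x, s (x, 0) = x ∧ SubmAt (Cn k) (Cn n) (fun w => s (x, w)) 0

end Pool.Agent.Lib.MP_124863_gt
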