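import Pool.Agent.Lib.MP_124863_gt.Stmt
import Pool.Agent.Lib.MP_7906d6_an.Holo

-- part Pool.Agent.Lib.MP_124863_gt.Defs
section

/-! Working forms of the definitions. -/

open scoped Manifold ContDiff Matrix Bundle Topology
open Complex

namespace Pool.Agent.Lib.MP_124863_gt

variable {n : ℕ}

variable {M : Type} [TopologicalSpace M] [ChartedSpace (Cn n) M]

/-- `f` is a holomorphic local coordinate system near `z`. -/
def IsCoord (f : Cn n → M) (z : Cn n) : Prop :=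
  (∀ᶠ w in 𝓝 z, MDifferentiableAt 𝓘(ℂ, Cn n) 𝓘(ℂ, Cn n) f w) ∧
    Function.Bijective (mfderiv 𝓘(ℂ, Cn n) 𝓘(ℂ, Cn n) f z)

variable [Bundle.RiemannianBundle fun x : M => TangentSpace 𝓘(ℝ, Cn n) x]

/-- The Riemannian metric read in the coordinates `f`. -/
noncomputable def met (f : Cn n → M) (z u v : Cn n) : ℝ :=
  inner ℝ (mfderiv 𝓘(ℝ, Cn n) 𝓘(ℝ, Cn n) f z u) (mfderiv 𝓘(ℝ, Cn n) 𝓘(ℝ, Cn n) f z v)

/-- The Hermitian matrix of the metric in the coordinates `f`. -/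
noncomputable def herm (f : Cn n → M) (z : Cn n) : Matrix (Fin n) (Fin n) ℂ :=
  Matrix.of fun i j => met f z (Pi.single i 1) (Pi.single j 1) +
    I * met f z (Pi.single i 1) (Pi.single j I)

variable (n M)

/-- The metric is smooth, Hermitian, and its fundamental form `ω(u, v) = g(J u, v)` is closed. -/
structure IsKaehler : Prop where
  smooth : ∀ (f : Cn n → M) z, IsCoord f z → ∀ u v, ContDiffAt ℝ ∞ (fun x => met f x u v) z
  hermitian : ∀ (f : Cn n → M) z, IsCoord f z → ∀ u v, met f z (I • u) (I • v) = met f z u v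
  closed : ∀ (f : Cn n → M) z, IsCoord f z → ∀ u v w,
    fderiv ℝ (fun x => met f x (I • v) w) z u + fderiv ℝ (fun x => met f x (I • w) u) z v +
      fderiv ℝ (fun x => met f x (I • u) v) z w = 0

/-- Positive holomorphic bisectional curvature. -/
def PosBisec : Prop :=
  ∀ (f : Cn n → M) z, IsCoord f z → ∀ X Y : Cn n, X ≠ 0 → Y ≠ 0 → 0 < bisec (herm f) z X Y

/-- Nonnegative holomorphic bisectional curvature. -/
def NonnegBisec : Prop :=
  ∀ (f : Cn n → M) z, IsCoord f z → ∀ X Y : Cn n, 0 ≤ bisec (herm f) z X Y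

variable {M}

/-- A smooth one-parameter group of holomorphic isometries. -/
structure IsIsomFlow (a : ℝ → M → M) : Prop where
  zero : ∀ x, a 0 x = x
  add : ∀ s t x, a (s + t) x = a s (a t x)
  smooth : ContMDiff (𝓘(ℝ, ℝ).prod 𝓘(ℝ, Cn n)) 𝓘(ℝ, Cn n) ∞ fun p : ℝ × M => a p.1 p.2
  holo : ∀ t, MDifferentiable 𝓘(ℂ, Cn n) 𝓘(ℂ, Cn n) (a t)
  isom : ∀ t x (u v : TangentSpace 𝓘(ℝ, Cn n) x),
    inner ℝ (mfderiv 𝓘(ℝ, Cn n) 𝓘(ℝ, Cn n) (a t) x u) (mfderiv 𝓘(ℝ, Cn n) 𝓘(ℝ, Cn n) (a t) x v) =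
      inner ℝ u v

variable (M)

/-- `M` is biholomorphic to `ℂ^n`. -/
def BiholCn : Prop :=
  ∃ ψ : Cn n ≃ M, MDifferentiable 𝓘(ℂ, Cn n) 𝓘(ℂ, Cn n) ψ ∧
    MDifferentiable 𝓘(ℂ, Cn n) 𝓘(ℂ, Cn n) ψ.symm

end Pool.Agent.Lib.MP_124863_gt
end

-- part Pool.Agent.Lib.MP_124863_gt.Hol
section

/-! Holomorphic maps between complex manifolds. -/

open scoped Manifold ContDiff Topology
open Set Filter Function Pool.Agent.Lib.MP_7906d6_an

namespace Pool.Agent.Lib.MP_124863_gt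

section general

variable {F G : Type} [NormedAddCommGroup F] [NormedSpace ℂ F] [NormedAddCommGroup G]
  [NormedSpace ℂ G] {X Y : Type} [TopologicalSpace X] [ChartedSpace F X] [TopologicalSpace Y]
  [ChartedSpace G Y]

theorem hasMFDerivAt_real {f : X → Y} {x : X} (h : MDifferentiableAt 𝓘(ℂ, F) 𝓘(ℂ, G) f x) :
    HasMFDerivAt 𝓘(ℝ, F) 𝓘(ℝ, G) f x
      (show F →L[ℝ] G from (show F →L[ℂ] G from mfderiv 𝓘(ℂ, F) 𝓘(ℂ, G) f x).restrictScalars ℝ) :=
  ⟨h.continuousAt, h.hasMFDerivAt.2.restrictScalars ℝ⟩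

theorem mdiff_real {f : X → Y} {x : X} (h : MDifferentiableAt 𝓘(ℂ, F) 𝓘(ℂ, G) f x) :
    MDifferentiableAt 𝓘(ℝ, F) 𝓘(ℝ, G) f x := (hasMFDerivAt_real h).mdifferentiableAt

theorem mfderiv_real {f : X → Y} {x : X} (h : MDifferentiableAt 𝓘(ℂ, F) 𝓘(ℂ, G) f x) (v : F) :
    (mfderiv 𝓘(ℝ, F) 𝓘(ℝ, G) f x v : G) = mfderiv 𝓘(ℂ, F) 𝓘(ℂ, G) f x v := by
  rw [(hasMFDerivAt_real h).mfderiv]; rfl

theorem contDiffAt_of_eventually [FiniteDimensional ℂ F] [CompleteSpace G] {f : F → G} {z : F}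
    (h : ∀ᶠ w in 𝓝 z, DifferentiableAt ℂ f w) (k : ℕ) : ContDiffAt ℂ k f z := by
  obtain ⟨U, hU, ho, hz⟩ := mem_nhds_iff.1 h
  exact (contDiffOn_of_differentiableOn ho k fun w hw =>
    (hU hw).differentiableWithinAt).contDiffAt (ho.mem_nhds hz)

variable [IsManifold 𝓘(ℂ, G) ω Y]

theorem chart_diff {f : F → Y} {z : F} (h : MDifferentiableAt 𝓘(ℂ, F) 𝓘(ℂ, G) f z) {q : Y}
    (hq : f z ∈ (chartAt G q).source) : DifferentiableAt ℂ (chartAt G q ∘ f) z :=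
  ((mdifferentiableAt_atlas (chart_mem_atlas G q) hq).comp z h).differentiableAt

theorem chart_symm_diff {q : Y} {y : G} (hy : y ∈ (chartAt G q).target) :
    MDifferentiableAt 𝓘(ℂ, G) 𝓘(ℂ, G) (chartAt G q).symm y :=
  mdifferentiableAt_atlas_symm (chart_mem_atlas G q) hy

theorem chart_contDiffAt [FiniteDimensional ℂ F] [CompleteSpace G] {f : F → Y} {z : F}
    (h : ∀ᶠ w in 𝓝 z, MDifferentiableAt 𝓘(ℂ, F) 𝓘(ℂ, G) f w) {q : Y}
    (hq : f z ∈ (chartAt G q).source) (k : ℕ) : ContDiffAt ℂ k (chartAt G q ∘ f) z := by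
  refine contDiffAt_of_eventually ?_ k
  filter_upwards [h, h.self_of_nhds.continuousAt ((chartAt G q).open_source.mem_nhds hq)]
    with w h1 h2 using chart_diff h1 h2

theorem contMDiffAt_real [FiniteDimensional ℂ F] [CompleteSpace G] {f : F → Y} {z : F}
    (h : ∀ᶠ w in 𝓝 z, MDifferentiableAt 𝓘(ℂ, F) 𝓘(ℂ, G) f w) (k : ℕ) :
    ContMDiffAt 𝓘(ℝ, F) 𝓘(ℝ, G) k f z := by
  rw [contMDiffAt_iff_target]
  exact ⟨h.self_of_nhds.continuousAt,
    ((chart_contDiffAt h (mem_chart_source G _) k).restrict_scalars ℝ).contMDiffAt⟩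

/-- The identity theorem for holomorphic curves. -/
theorem eqOn_curve [CompleteSpace G] [T2Space Y] {c d : ℂ → Y} {U : Set ℂ} (ho : IsOpen U)
    (hU : IsPreconnected U) (hc : ∀ w ∈ U, MDifferentiableAt 𝓘(ℂ, ℂ) 𝓘(ℂ, G) c w)
    (hd : ∀ w ∈ U, MDifferentiableAt 𝓘(ℂ, ℂ) 𝓘(ℂ, G) d w) {z : ℂ} (hz : z ∈ U)
    (h : ∃ᶠ w in 𝓝[≠] z, c w = d w) : EqOn c d U := by
  have key : ∀ z ∈ U, (∃ᶠ w in 𝓝[≠] z, c w = d w) → c =ᶠ[𝓝 z] d := fun z hz h => by
    have e : c z = d z := tendsto_nhds_unique_of_frequently_eq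
      ((hc z hz).continuousAt.tendsto.mono_left nhdsWithin_le_nhds)
      ((hd z hz).continuousAt.tendsto.mono_left nhdsWithin_le_nhds) h
    have s1 := (hc z hz).continuousAt (chart_source_mem_nhds G (c z))
    have s2 : ∀ᶠ w in 𝓝 z, d w ∈ (chartAt G (c z)).source :=
      (hd z hz).continuousAt (by rw [← e]; exact chart_source_mem_nhds G (c z))
    have a1 : AnalyticAt ℂ (chartAt G (c z) ∘ c) z :=
      Complex.analyticAt_iff_eventually_differentiableAt.2 (by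
      filter_upwards [ho.mem_nhds hz, s1] with w h1 h2 using chart_diff (hc w h1) h2)
    have a2 : AnalyticAt ℂ (chartAt G (c z) ∘ d) z :=
      Complex.analyticAt_iff_eventually_differentiableAt.2 (by
      filter_upwards [ho.mem_nhds hz, s2] with w h1 h2 using chart_diff (hd w h1) h2)
    filter_upwards [(a1.frequently_eq_iff_eventually_eq a2).1
      (h.mono fun w hw => by simp [hw]), s1, s2] with w h1 h2 h3
    exact (chartAt G (c z)).injOn h2 h3 h1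
  have := hU.subset_of_closure_inter_subset (u := {w | c =ᶠ[𝓝 w] d})
    isOpen_setOfPred_eventually_nhds
    ⟨z, hz, key z hz h⟩ fun w hw => by
      by_cases h1 : c =ᶠ[𝓝 w] d
      · exact h1
      · refine key w hw.2 ?_
        rw [frequently_nhdsWithin_iff]
        refine (mem_closure_iff_frequently.1 hw.1).mono fun u hu => ⟨hu.eq_of_nhds, ?_⟩
        rintro rfl
        exact h1 hu
  exact fun w hw => (this hw).eq_of_nhds

end general

variable {n : ℕ} {X Y Z : Type} [TopologicalSpace X] [ChartedSpace (Cn n) X] [TopologicalSpace Y]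
  [ChartedSpace (Cn n) Y] [TopologicalSpace Z] [ChartedSpace (Cn n) Z]

variable (n) in
/-- Local biholomorphisms. -/
def IsLoc (f : X → Y) (x : X) : Prop :=
  (∀ᶠ w in 𝓝 x, MDifferentiableAt 𝓘(ℂ, Cn n) 𝓘(ℂ, Cn n) f w) ∧
    Bijective (mfderiv 𝓘(ℂ, Cn n) 𝓘(ℂ, Cn n) f x)

theorem IsLoc.md {f : X → Y} {x : X} (h : IsLoc n f x) :
    MDifferentiableAt 𝓘(ℂ, Cn n) 𝓘(ℂ, Cn n) f x := h.1.self_of_nhds

theorem IsLoc.comp {g : Y → Z} {f : X → Y} {x : X} (hg : IsLoc n g (f x)) (hf : IsLoc n f x) :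
    IsLoc n (g ∘ f) x := by
  refine ⟨?_, ?_⟩
  · filter_upwards [hf.1, hf.md.continuousAt hg.1] with w h1 h2 using
      MDifferentiableAt.comp w h2 h1
  · rw [mfderiv_comp x hg.md hf.md]
    exact hg.2.comp hf.2

theorem IsLoc.congr {f g : X → Y} {x : X} (hf : IsLoc n f x) (h : g =ᶠ[𝓝 x] f) : IsLoc n g x := by
  refine ⟨?_, ?_⟩
  · filter_upwards [hf.1, h.eventuallyEq_nhds] with w h1 h2 using h1.congr_of_eventuallyEq h2
  · rw [h.mfderiv_eq]; exact hf.2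

theorem isLoc_of_left {f : X → Y} {g : Y → X} {x : X}
    (hf : ∀ᶠ w in 𝓝 x, MDifferentiableAt 𝓘(ℂ, Cn n) 𝓘(ℂ, Cn n) f w)
    (hg : MDifferentiableAt 𝓘(ℂ, Cn n) 𝓘(ℂ, Cn n) g (f x)) (h : ∀ᶠ w in 𝓝 x, g (f w) = w) :
    IsLoc n f x := by
  have h1 := mfderiv_comp x hg hf.self_of_nhds
  rw [(show g ∘ f =ᶠ[𝓝 x] id from h).mfderiv_eq, mfderiv_id] at h1
  have h2 : Injective (show Cn n →L[ℂ] Cn n from mfderiv 𝓘(ℂ, Cn n) 𝓘(ℂ, Cn n) f x) :=
    LeftInverse.injective (g := mfderiv 𝓘(ℂ, Cn n) 𝓘(ℂ, Cn n) g (f x)) fun v =>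
      (DFunLike.congr_fun h1 v).symm
  exact ⟨hf, h2, LinearMap.surjective_of_injective (f := (show Cn n →L[ℂ] Cn n from
    mfderiv 𝓘(ℂ, Cn n) 𝓘(ℂ, Cn n) f x).toLinearMap) h2⟩

theorem isLoc_flat {f : Cn n → Cn n} {x : Cn n} (hf : ∀ᶠ w in 𝓝 x, DifferentiableAt ℂ f w)
    (h : Injective (fderiv ℂ f x)) : IsLoc n f x := by
  refine ⟨hf.mono fun w hw => hw.mdifferentiableAt, ?_⟩
  rw [mfderiv_eq_fderiv]
  exact ⟨h, LinearMap.surjective_of_injective (f := (fderiv ℂ f x).toLinearMap) h⟩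

theorem isLoc_chart [IsManifold 𝓘(ℂ, Cn n) ω X] {q x : X} (hx : x ∈ (chartAt (Cn n) q).source) :
    IsLoc n (chartAt (Cn n) q) x :=
  ⟨((chartAt (Cn n) q).open_source.eventually_mem hx).mono fun _ hw =>
    mdifferentiableAt_atlas (chart_mem_atlas _ q) hw,
    (mdifferentiable_chart q).mfderiv_bijective hx⟩

theorem isLoc_chart_symm [IsManifold 𝓘(ℂ, Cn n) ω X] {q : X} {y : Cn n}
    (hy : y ∈ (chartAt (Cn n) q).target) : IsLoc n (chartAt (Cn n) q).symm y :=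
  ⟨((chartAt (Cn n) q).open_target.eventually_mem hy).mono fun _ hw => chart_symm_diff hw,
    (mdifferentiable_chart q).symm.mfderiv_bijective hy⟩

theorem exists_inv_flat {f : Cn n → Cn n} {x : Cn n} (h : IsLoc n f x) :
    ∃ g : Cn n → Cn n, (∀ᶠ w in 𝓝 x, g (f w) = w) ∧ (∀ᶠ y in 𝓝 (f x), f (g y) = y) ∧
      ∀ᶠ y in 𝓝 (f x), DifferentiableAt ℂ g y := by
  have h1 := contDiffAt_of_eventually (h.1.mono fun w hw => hw.differentiableAt) 1
  have h2 := h.2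
  rw [mfderiv_eq_fderiv] at h2
  let L : Cn n ≃L[ℂ] Cn n :=
    (LinearEquiv.ofBijective (fderiv ℂ f x).toLinearMap h2).toContinuousLinearEquiv
  have h3 : HasFDerivAt f (L : Cn n →L[ℂ] Cn n) x := h.md.differentiableAt.hasFDerivAt
  have h4 := h1.hasStrictFDerivAt' h3 (by simp)
  refine ⟨h1.localInverse h3 (by simp), h4.eventually_left_inverse, h4.eventually_right_inverse, ?_⟩
  exact ((h1.to_localInverse h3 (by simp)).eventually (by simp)).mono fun y hy =>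
    hy.differentiableAt (by simp)

/-- The inverse function theorem. -/
theorem IsLoc.exists_inv [IsManifold 𝓘(ℂ, Cn n) ω X] [IsManifold 𝓘(ℂ, Cn n) ω Y] {f : X → Y}
    {x : X} (h : IsLoc n f x) : ∃ g : Y → X, (∀ᶠ w in 𝓝 x, g (f w) = w) ∧
      (∀ᶠ y in 𝓝 (f x), f (g y) = y) ∧
      ∀ᶠ y in 𝓝 (f x), MDifferentiableAt 𝓘(ℂ, Cn n) 𝓘(ℂ, Cn n) g y := by
  set e := chartAt (Cn n) x
  set e' := chartAt (Cn n) (f x)
  have hx : x ∈ e.source := mem_chart_source _ x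
  have hy : f x ∈ e'.source := mem_chart_source _ _
  have e1 : e.symm (e x) = x := e.left_inv hx
  have h1 : IsLoc n (e' ∘ f ∘ e.symm) (e x) :=
    IsLoc.comp (isLoc_chart (by simp [e1]))
      (IsLoc.comp (by rwa [e1]) (isLoc_chart_symm (e.map_source hx)))
  obtain ⟨g, g1, g2, g3⟩ := exists_inv_flat h1
  have g0 := g1.self_of_nhds
  simp only [comp_apply, e1] at g0 g1 g2 g3
  have c1 := e.continuousAt hx
  have c2 := e'.continuousAt hy
  have c3 : ContinuousAt (g ∘ e') (f x) := g3.self_of_nhds.continuousAt.comp c2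
  have c4 : ∀ᶠ y in 𝓝 (f x), g (e' y) ∈ e.target :=
    c3 (e.open_target.mem_nhds (by simpa [g0] using e.map_source hx))
  have c5 : ContinuousAt (f ∘ e.symm ∘ g ∘ e') (f x) := by
    refine ContinuousAt.comp (by simpa [g0, e1] using h.md.continuousAt)
      (ContinuousAt.comp ?_ c3)
    exact e.continuousAt_symm c4.self_of_nhds
  refine ⟨e.symm ∘ g ∘ e', ?_, ?_, ?_⟩
  · filter_upwards [c1 g1, e.open_source.mem_nhds hx] with w h1 h2
    simp only [mem_preimage, mem_ofPred_eq, e.left_inv h2] at h1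
    simp [h1, e.left_inv h2]
  · filter_upwards [c2 g2, e'.open_source.mem_nhds hy,
      c5 (e'.open_source.mem_nhds (by simpa [g0, e1] using hy))] with y h1 h2 h3
    exact e'.injOn h3 h2 h1
  · filter_upwards [c2 g3, c4, e'.open_source.mem_nhds hy] with y h1 h2 h3
    exact (chart_symm_diff h2).comp y
      ((DifferentiableAt.mdifferentiableAt h1).comp y (isLoc_chart h3).md)

theorem IsLoc.eventually [IsManifold 𝓘(ℂ, Cn n) ω X] [IsManifold 𝓘(ℂ, Cn n) ω Y] {f : X → Y}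
    {x : X} (h : IsLoc n f x) : ∀ᶠ w in 𝓝 x, IsLoc n f w := by
  obtain ⟨g, g1, -, g3⟩ := h.exists_inv
  filter_upwards [h.1.eventually_nhds, g1.eventually_nhds, h.md.continuousAt g3] with w a b c
    using isLoc_of_left a c b

/-- The inverse function theorem, strong form. -/
theorem IsLoc.inv [IsManifold 𝓘(ℂ, Cn n) ω X] [IsManifold 𝓘(ℂ, Cn n) ω Y] {f : X → Y}
    {x : X} (h : IsLoc n f x) : ∃ g : Y → X, (∀ᶠ w in 𝓝 x, g (f w) = w) ∧
      (∀ᶠ y in 𝓝 (f x), f (g y) = y) ∧ IsLoc n g (f x) := by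
  obtain ⟨g, g1, g2, g3⟩ := h.exists_inv
  exact ⟨g, g1, g2, isLoc_of_left g3 (by rw [g1.self_of_nhds]; exact h.md) g2⟩

theorem IsLoc.image_mem [IsManifold 𝓘(ℂ, Cn n) ω X] [IsManifold 𝓘(ℂ, Cn n) ω Y] {f : X → Y}
    {x : X} (h : IsLoc n f x) {s : Set X} (hs : s ∈ 𝓝 x) : f '' s ∈ 𝓝 (f x) := by
  obtain ⟨g, g1, g2, g3⟩ := h.inv
  filter_upwards [g2, g3.md.continuousAt (g1.self_of_nhds.symm ▸ hs)] with y h1 h2
    using ⟨g y, h2, h1⟩

theorem biholCn_of [IsManifold 𝓘(ℂ, Cn n) ω X] {ψ : Cn n → X} (h : ∀ z, IsLoc n ψ z)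
    (hb : Bijective ψ) : BiholCn n X := by
  refine ⟨Equiv.ofBijective ψ hb, fun z => (h z).md, fun y => ?_⟩
  obtain ⟨z, rfl⟩ := hb.2 y
  obtain ⟨g, -, g2, g3⟩ := (h z).inv
  refine g3.md.congr_of_eventuallyEq (g2.mono fun y hy => ?_)
  rw [Equiv.symm_apply_eq]
  exact hy.symm

end Pool.Agent.Lib.MP_124863_gt
end
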