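import Pool.Agent.Lib.MP_124863_gt.EcEnt

-- part Pool.Agent.Lib.MP_124863_gt.OkDefs
section

/-! Definitions for the construction of sprays. -/

open Filter Topology Set Metric Complex MeasureTheory
open scoped Real

namespace Pool.Agent.Lib.MP_124863_gt.Ok

open Ec

section alg

variable {Z : Type} [NormedAddCommGroup Z] [NormedSpace ℝ Z] [NormedSpace ℂ Z] {J : Type}
  [Fintype J] {N : ℕ}

/-- The real frame `e_j, i e_j`. -/
noncomputable def ee (e : J → Z) (a : J × Bool) : Z := bif a.2 then I • e a.1 else e a.1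

/-- The real coefficients `α_j, -i α_j` of a form. -/
noncomputable def aa (α : J → Cn N) (a : J × Bool) : Cn N := bif a.2 then -(I • α a.1) else α a.1

/-- The contraction of a form with a covector. -/
noncomputable def xi (e : J → Z) (l : Z →L[ℝ] ℝ) (α : J → Cn N) : Cn N :=
  ∑ a, l (ee e a) • aa α a

/-- The pairing of a form with the derivative of a section. -/
noncomputable def pr (e : J → Z) (H : Bil N) (D : Z →L[ℝ] Cn N) (α : J → Cn N) : ℝ :=
  ∑ a, H (D (ee e a)) (aa α a)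

/-- The Levi term. -/
noncomputable def lev (e : J → Z) (L : Z →L[ℝ] Z →L[ℝ] ℝ) (H : Bil N) (α : J → Cn N) : ℝ :=
  ∑ a, ∑ b, L (ee e a) (ee e b) * H (aa α a) (aa α b)

/-- The Nakano form is the supremum over `C` of this expression. -/
noncomputable def nk (e : J → Z) (W : Z → Bil N) (z : Z) (α : J → Cn N) (C : Cn N) : ℝ :=
  -(∑ a, ∑ b, fderiv ℝ (fderiv ℝ W) z (ee e a) (ee e b) (aa α a) (aa α b)) +
    2 * ∑ a, fderiv ℝ W z (ee e a) (aa α a) C - W z C C

/-- The connection term. -/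
noncomputable def cn (e : J → Z) (W : Z → Bil N) (z : Z) (α : J → Cn N) : Cn N :=
  (W z).inverse (∑ a, fderiv ℝ W z (ee e a) (aa α a))

/-- The divergence of a form. -/
noncomputable def dg (e : J → Z) (α : J → Z → Cn N) (z : Z) : Cn N :=
  ∑ a, aa (fun j => fderiv ℝ (α j) z (ee e a)) a

/-- Minus the formal adjoint of the Cauchy-Riemann operator. -/
noncomputable def tau (e : J → Z) (W : Z → Bil N) (α : J → Z → Cn N) (z : Z) : Cn N :=
  dg e α z + cn e W z fun j => α j z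

/-- The Cauchy-Riemann operator. -/
noncomputable def db (e : J → Z) (φ : Z → Cn N) (z : Z) (j : J) : Cn N :=
  fderiv ℝ φ z (e j) + I • fderiv ℝ φ z (I • e j)

/-- The symbol of the Cauchy-Riemann operator. -/
noncomputable def dbs (e : J → Z) (l : Z →L[ℝ] ℝ) (j : J) (x : Cn N) : Cn N :=
  l (e j) • x + l (I • e j) • I • x

/-- The Levi form. -/
noncomputable def lv (u : Z → ℝ) (z v : Z) : ℝ :=
  fderiv ℝ (fderiv ℝ u) z v v + fderiv ℝ (fderiv ℝ u) z (I • v) (I • v)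

/-- The real form `re (l u * conj (l v))`. -/
noncomputable def qf [IsScalarTower ℝ ℂ Z] (l : Z →L[ℂ] ℂ) : Z →L[ℝ] Z →L[ℝ] ℝ :=
  (innerSL ℝ (E := ℂ)).bilinearComp (l.restrictScalars ℝ) (l.restrictScalars ℝ)

/-- The Euclidean form composed with a linear map. -/
noncomputable def eq' (Q : Cn N →L[ℂ] Cn N) : Bil N :=
  eu.bilinearComp (Q.restrictScalars ℝ) (Q.restrictScalars ℝ)

/-- Nakano semipositivity at the origin of normal coordinates. -/
def Nak (B : Cn N → Bil N) : Prop := ∀ (J : Type) [Fintype J] (Y σ : J → Cn N),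
  ∑ a, ∑ b, fderiv ℝ (fderiv ℝ B) 0 (ee Y a) (ee Y b) (aa σ a) (aa σ b) ≤ 0

end alg

section psh

variable {E : Type} [NormedAddCommGroup E] [NormedSpace ℂ E]

/-- The sub-mean value property on affine discs. -/
def SM (u : E → ℝ) (B : Set E) : Prop := ∀ b v : E, (∀ ζ ∈ closedBall (0 : ℂ) 1, b + ζ • v ∈ B) →
  u b ≤ Real.circleAverage (fun ζ : ℂ => u (b + ζ • v)) 0 1

/-- The sub-mean value property on holomorphic discs. -/
def HSM (u : E → ℝ) (B : Set E) : Prop := ∀ Z : ℂ → E, Differentiable ℂ Z →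
  (∀ ζ ∈ closedBall (0 : ℂ) 1, Z ζ ∈ B) → u (Z 0) ≤ Real.circleAverage (fun ζ => u (Z ζ)) 0 1

/-- Hartogs domains with open fibres. -/
def Ht (B : Set E) (u : E → ℝ) : Set (E × ℂ) := {z | z.1 ∈ B ∧ ‖z.2‖ < Real.exp (-u z.1)}

/-- Hartogs domains with closed fibres. -/
def Hc (B : Set E) (u : E → ℝ) : Set (E × ℂ) := {z | z.1 ∈ B ∧ ‖z.2‖ ≤ Real.exp (-u z.1)}

/-- Sublevel sets. -/
def Lv (B : Set E) (β : E → ℝ) (σ : ℝ) : Set E := {b | b ∈ B ∧ β b ≤ σ}

end psh

section data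

variable (n : ℕ) {N : ℕ} {M : Type} [MetricSpace M] (ι : M → Cn N) (q : Cn N → M) (U : Set (Cn N))
  (G : Cn N → Bil N)

/-- Normal coordinates with Nakano semipositivity. -/
def HasNak : Prop :=
  ∀ z ∈ U, ∃ (c : Cn N → Cn n) (j : _) (B : _), Chart (ι ∘ q) G z c j B ∧ Nak B

/-- Almost minimizing paths. -/
def HasPath : Prop := ∀ (x y : M) (r : ℝ), dist x y < r → ∃ γ γ' : ℝ → Cn N, γ 0 = ι x ∧ γ 1 = ι y ∧
  (∀ t, γ t ∈ range ι ∧ HasDerivAt γ (γ' t) t) ∧ Continuous γ' ∧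
    ∫ t in 0..1, √(G (γ t) (γ' t) (γ' t)) ≤ r

variable {E : Type} [NormedAddCommGroup E] [NormedSpace ℝ E] [NormedSpace ℂ E] [MeasurableSpace E]

/-- A holomorphic map with a vector field along it, on a convex base with an exhaustion. -/
structure Base (μ : Measure E) (B : Set E) (β : E → ℝ) (f A : E → Cn N) : Prop where
  isOpen : IsOpen B
  cvx : ConvexOn ℝ B β
  cpt : ∀ σ, IsCompact (Lv B β σ)
  df : ∀ b ∈ B, DifferentiableAt ℂ f b
  dA : ∀ b ∈ B, DifferentiableAt ℂ A b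
  mem : ∀ b ∈ B, f b ∈ range ι
  tan : ∀ b ∈ B, fderiv ℂ (ι ∘ q) (f b) (A b) = A b
  int : ∫⁻ b in B, ENNReal.ofReal (Real.exp (-β b) * G (f b) (A b) (A b)) ∂μ ≤ 1

end data

end Pool.Agent.Lib.MP_124863_gt.Ok
end

-- part Pool.Agent.Lib.MP_124863_gt.OkSqrt
section

/-! Square roots of Hermitian forms and homogeneous functions. -/

open Filter Topology Set Metric Complex MeasureTheory
open scoped Real ENNReal

namespace Pool.Agent.Lib.MP_124863_gt.Ok

open Ec

variable {N : ℕ}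

open scoped MatrixOrder Matrix.Norms.L2Operator ComplexOrder in
theorem oksqrt_root : ∃ R : Mt N → Mt N, ContinuousOn R {A | A.PosSemidef} ∧
    ∀ A : Mt N, A.PosSemidef → (R A).IsHermitian ∧ R A * R A = A := by
  refine ⟨CFC.sqrt, ?_, fun A hA => ⟨(Matrix.nonneg_iff_posSemidef.1 (CFC.sqrt_nonneg A)).isHermitian, ?_⟩⟩
  · have h : ContinuousOn CFC.sqrt {a : Mt N | 0 ≤ a} := CFC.continuousOn_sqrt
    exact h.mono fun A hA => Matrix.PosSemidef.nonneg hA
  · exact CFC.sqrt_mul_sqrt_self A hA.nonneg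

open scoped ComplexOrder Matrix in
theorem oksqrt_psd {H : Bil N} (hH : IsH H) (h0 : ∀ v, 0 ≤ H v v) : (hm H).PosSemidef := by
  refine .of_dotProduct_mulVec_nonneg hH.herm fun x => ?_
  have := hH.form (star x) (star x)
  have h1 : H (star x) (I • star x) = 0 := by
    have := hH.skew (star x) (star x)
    rw [hH.symm] at this
    linarith
  rw [star_star, h1] at this
  rw [this]
  simpa using h0 (star x)

open scoped ComplexOrder in
theorem oksqrt_det {H : Bil N} (hH : IsH H) (hp : ∀ v, v ≠ 0 → 0 < H v v) : (hm H).det ≠ 0 :=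
  (hH.posDef hp).det_pos.ne'

open scoped Matrix in
theorem oksqrt_form {H : Bil N} (hH : IsH H) {R : Mt N} (h1 : R.IsHermitian) (h2 : R * R = hm H)
    (u v : Cn N) : H u v = ∑ i, inner ℝ ((u ᵥ* R) i) ((v ᵥ* R) i) := by
  have h := hH.form u v
  rw [← h2, ← Matrix.mulVec_mulVec, Matrix.dotProduct_mulVec] at h
  have e : R *ᵥ star v = star (v ᵥ* R) := by rw [Matrix.star_vecMul, h1.eq]
  rw [e] at h
  have h3 := congrArg Complex.re h
  simp only [add_re, ofReal_re, mul_re, I_re, I_im, ofReal_im, zero_mul, mul_zero, sub_zero,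
    add_zero] at h3
  rw [← h3, dotProduct, Complex.re_sum]
  refine Finset.sum_congr rfl fun i _ => ?_
  simp [Complex.inner, mul_comm]

/-- Continuous isometries onto the Euclidean space. -/
theorem exists_sqrt {X : Type} [TopologicalSpace X] {W : X → Bil N} (hc : Continuous W)
    (hH : ∀ z, IsH (W z)) (hp : ∀ z v, v ≠ 0 → 0 < W z v v) :
    ∃ (S : X → Cn N →L[ℝ] EuclideanSpace ℂ (Fin N)) (T : X → EuclideanSpace ℂ (Fin N) →L[ℝ] Cn N),
      Continuous S ∧ Continuous T ∧ (∀ z u, T z (S z u) = u) ∧ (∀ z x, S z (T z x) = x) ∧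
      ∀ z u v, inner ℝ (S z u) (S z v) = W z u v := by
  obtain ⟨R, hR, hR'⟩ := oksqrt_root (N := N)
  have h0 : ∀ z v, 0 ≤ W z v v := fun z v => by
    by_cases h : v = 0
    · simp [h]
    · exact (hp z v h).le
  have hpsd := fun z => oksqrt_psd (hH z) (h0 z)
  have hcm : Continuous fun z => hm (W z) :=
    (LinearMap.continuous_of_finiteDimensional hm).comp hc
  have hcR : Continuous fun z => R (hm (W z)) := hR.comp_continuous hcm hpsd
  have hdet : ∀ z, (R (hm (W z))).det ≠ 0 := fun z h => by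
    have h1 := oksqrt_det (hH z) (hp z)
    rw [← (hR' _ (hpsd z)).2, Matrix.det_mul, h, mul_zero] at h1
    exact h1 rfl
  have hcI : Continuous fun z => (R (hm (W z)))⁻¹ := by
    refine continuous_iff_continuousAt.2 fun z => ?_
    refine ContinuousAt.comp (f := fun z => R (hm (W z))) ?_ hcR.continuousAt
    refine continuousAt_matrix_inv _ ?_
    rw [Ring.inverse_eq_inv']
    exact continuousAt_inv₀ (hdet z)
  let e : EuclideanSpace ℂ (Fin N) ≃L[ℂ] Cn N := EuclideanSpace.equiv (Fin N) ℂ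
  let V : Mt N → Cn N →L[ℂ] Cn N := fun A => LinearMap.toContinuousLinearMap A.vecMulLinear
  have hV : ∀ A u, V A u = Matrix.vecMul u A := fun A u => rfl
  refine ⟨fun z => (e.symm.toContinuousLinearMap.comp (V (R (hm (W z))))).restrictScalars ℝ,
    fun z => ((V (R (hm (W z)))⁻¹).comp e.toContinuousLinearMap).restrictScalars ℝ,
    ?_, ?_, fun z u => ?_, fun z x => ?_, fun z u v => ?_⟩
  · refine continuous_clm_apply.2 fun u => ?_
    exact e.symm.continuous.comp (continuous_const.matrix_vecMul hcR)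
  · refine continuous_clm_apply.2 fun u => ?_
    exact continuous_const.matrix_vecMul hcI
  · change Matrix.vecMul (e (e.symm (Matrix.vecMul u (R (hm (W z)))))) (R (hm (W z)))⁻¹ = u
    rw [e.apply_symm_apply, Matrix.vecMul_vecMul, Matrix.mul_nonsing_inv _ (hdet z).isUnit,
      Matrix.vecMul_one]
  · change e.symm (Matrix.vecMul (Matrix.vecMul (e x) (R (hm (W z)))⁻¹) (R (hm (W z)))) = x
    rw [Matrix.vecMul_vecMul, Matrix.nonsing_inv_mul _ (hdet z).isUnit, Matrix.vecMul_one,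
      e.symm_apply_apply]
  · rw [oksqrt_form (hH z) (hR' _ (hpsd z)).1 (hR' _ (hpsd z)).2, PiLp.inner_apply]
    rfl

/-- A semipositive Hermitian form is a sum of squares. -/
theorem exists_fact {H : Bil N} (hH : IsH H) (h0 : ∀ v, 0 ≤ H v v) :
    ∃ l : Fin N → Cn N →L[ℂ] ℂ, ∀ u v, H u v = ∑ i, inner ℝ (l i u) (l i v) := by
  obtain ⟨R, -, hR⟩ := oksqrt_root (N := N)
  obtain ⟨h1, h2⟩ := hR _ (oksqrt_psd hH h0)
  exact ⟨fun i => (ContinuousLinearMap.proj i).comp
    (LinearMap.toContinuousLinearMap (R (hm H)).vecMulLinear), oksqrt_form hH h1 h2⟩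

/-- Comparison of homogeneous functions of degree two. -/
theorem homog_le {X F : Type} [TopologicalSpace X] [NormedAddCommGroup F] [NormedSpace ℝ F]
    [FiniteDimensional ℝ F] {K : Set X} (hK : IsCompact K) {Θ Ξ : X → F → ℝ}
    (h1 : ContinuousOn (Function.uncurry Θ) (K ×ˢ univ))
    (h2 : ContinuousOn (Function.uncurry Ξ) (K ×ˢ univ))
    (h3 : ∀ z ∈ K, ∀ (t : ℝ) x, Θ z (t • x) = t ^ 2 * Θ z x)
    (h4 : ∀ z ∈ K, ∀ (t : ℝ) x, Ξ z (t • x) = t ^ 2 * Ξ z x)
    (h5 : ∀ z ∈ K, ∀ x, x ≠ 0 → 0 < Ξ z x) : ∃ C, 0 < C ∧ ∀ z ∈ K, ∀ x, Θ z x ≤ C * Ξ z x := by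
  have hc : IsCompact (K ×ˢ sphere (0 : F) 1) := hK.prod (isCompact_sphere 0 1)
  have hs : K ×ˢ sphere (0 : F) 1 ⊆ K ×ˢ univ := prod_mono_right (subset_univ _)
  have hne : ∀ x ∈ sphere (0 : F) 1, x ≠ 0 := fun x hx h => by simp [h] at hx
  obtain ⟨C, hC⟩ := hc.bddAbove_image (((h1.mono hs).div (h2.mono hs)
    fun p hp => (h5 p.1 hp.1 p.2 (hne _ hp.2)).ne'))
  refine ⟨max C 1, lt_max_of_lt_right one_pos, fun z hz x => ?_⟩
  by_cases hx : x = 0
  · have e1 := h3 z hz 0 x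
    have e2 := h4 z hz 0 x
    rw [zero_smul] at e1 e2
    rw [hx, e1, e2]
    simp
  · have hn : ‖x‖ ≠ 0 := norm_ne_zero_iff.2 hx
    have hy : ‖x‖⁻¹ • x ∈ sphere (0 : F) 1 := by
      rw [mem_sphere_zero_iff_norm, norm_smul, norm_inv, norm_norm, inv_mul_cancel₀ hn]
    have e : x = ‖x‖ • ‖x‖⁻¹ • x := by rw [smul_smul, mul_inv_cancel₀ hn, one_smul]
    have hp := h5 z hz _ (hne _ hy)
    have hle : Θ z (‖x‖⁻¹ • x) / Ξ z (‖x‖⁻¹ • x) ≤ C :=
      hC (mem_image_of_mem _ (show (z, ‖x‖⁻¹ • x) ∈ K ×ˢ sphere (0 : F) 1 from ⟨hz, hy⟩))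
    rw [div_le_iff₀ hp] at hle
    have hle' : Θ z (‖x‖⁻¹ • x) ≤ max C 1 * Ξ z (‖x‖⁻¹ • x) :=
      hle.trans (mul_le_mul_of_nonneg_right (le_max_left _ _) hp.le)
    calc Θ z x = ‖x‖ ^ 2 * Θ z (‖x‖⁻¹ • x) := by rw [← h3 z hz, ← e]
      _ ≤ ‖x‖ ^ 2 * (max C 1 * Ξ z (‖x‖⁻¹ • x)) := mul_le_mul_of_nonneg_left hle' (sq_nonneg _)
      _ = max C 1 * Ξ z x := by rw [mul_left_comm, ← h4 z hz, ← e]

end Pool.Agent.Lib.MP_124863_gt.Ok
end

-- part Pool.Agent.Lib.MP_124863_gt.OkMol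
section

/-! Mollification. -/

open Filter Topology Set Metric Complex MeasureTheory
open scoped Real ENNReal

namespace Pool.Agent.Lib.MP_124863_gt.Ok

open Ec

variable {Z : Type} [NormedAddCommGroup Z] [NormedSpace ℝ Z] [FiniteDimensional ℝ Z]
  [MeasurableSpace Z] [BorelSpace Z] {μ : Measure Z} [μ.IsAddHaarMeasure]
  {F : Type} [NormedAddCommGroup F] [NormedSpace ℝ F] [FiniteDimensional ℝ F]

variable (μ) in
/-- Convolution with a kernel. -/
noncomputable def mo (ρ : Z → ℝ) (f : Z → F) (x : Z) : F := ∫ t, ρ (x - t) • f t ∂μ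

theorem mo_int {ρ : Z → ℝ} (hρ : Continuous ρ) (hρ' : HasCompactSupport ρ) {f : Z → F}
    (hf : LocallyIntegrable f μ) (x : Z) : Integrable (fun t => ρ (x - t) • f t) μ :=
  hf.integrable_smul_left_of_hasCompactSupport (hρ.comp (continuous_const.sub continuous_id))
    (hρ'.comp_homeomorph (Homeomorph.subLeft x))

theorem mo_smooth {ρ : Z → ℝ} (hρ : ContDiff ℝ 2 ρ) (hρ' : HasCompactSupport ρ) {f : Z → F}
    (hf : LocallyIntegrable f μ) : ContDiff ℝ 2 (mo μ ρ f) ∧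
      ∀ x v, fderiv ℝ (mo μ ρ f) x v = ∫ t, fderiv ℝ ρ (x - t) v • f t ∂μ := by
  have e : mo μ ρ f = MeasureTheory.convolution f ρ (ContinuousLinearMap.lsmul ℝ ℝ).flip μ := rfl
  rw [e]
  refine ⟨hρ'.contDiff_convolution_right _ hf hρ, fun x v => ?_⟩
  rw [(hρ'.hasFDerivAt_convolution_right _ hf (hρ.of_le one_le_two) x).fderiv,
    convolution_precompR_apply _ hf (hρ'.fderiv ℝ) (hρ.continuous_fderiv two_ne_zero)]
  rfl

/-- The inequality of Young for probability kernels. -/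
theorem okmol_young {ρ : Z → ℝ} (hρ : Continuous ρ) (h0 : ∀ z, 0 ≤ ρ z)
    (h1 : ∫⁻ z, ENNReal.ofReal (ρ z) ∂μ = 1) {f : Z → F} (hf : AEStronglyMeasurable f μ) :
    eLpNorm (mo μ ρ f) 2 μ ≤ eLpNorm f 2 μ := by
  rw [eLpNorm_eq_lintegral_rpow_enorm_toReal two_ne_zero ENNReal.ofNat_ne_top,
    eLpNorm_eq_lintegral_rpow_enorm_toReal two_ne_zero ENNReal.ofNat_ne_top]
  refine ENNReal.rpow_le_rpow ?_ (by norm_num)
  rw [ENNReal.toReal_ofNat]
  have hm : Measurable fun z => ENNReal.ofReal (ρ z) := hρ.measurable.ennreal_ofReal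
  have hf2 : AEMeasurable (fun t => ‖f t‖ₑ ^ (2 : ℝ)) μ := hf.enorm.pow_const _
  have key : ∀ x, ‖mo μ ρ f x‖ₑ ^ (2 : ℝ) ≤
      ∫⁻ t, ENNReal.ofReal (ρ (x - t)) * ‖f t‖ₑ ^ (2 : ℝ) ∂μ := by
    intro x
    have hx : AEMeasurable (fun t => ENNReal.ofReal (ρ (x - t))) μ :=
      (hm.comp (measurable_const.sub measurable_id)).aemeasurable
    have a1 := ENNReal.lintegral_mul_norm_pow_le (p := 1 / 2) (q := 1 / 2) hx (hx.mul hf2)
      (by norm_num) (by norm_num) (by norm_num)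
    rw [lintegral_sub_left_eq_self (fun z => ENNReal.ofReal (ρ z)) x, h1, ENNReal.one_rpow,
      one_mul] at a1
    have a2 : ‖mo μ ρ f x‖ₑ ≤ ∫⁻ t, ENNReal.ofReal (ρ (x - t)) ^ (1 / 2 : ℝ) *
        (ENNReal.ofReal (ρ (x - t)) * ‖f t‖ₑ ^ (2 : ℝ)) ^ (1 / 2 : ℝ) ∂μ := by
      refine (enorm_integral_le_lintegral_enorm _).trans (le_of_eq (lintegral_congr fun t => ?_))
      rw [enorm_smul, Real.enorm_eq_ofReal (h0 _), ENNReal.mul_rpow_of_nonneg _ _ (by norm_num),
        ← mul_assoc, ← ENNReal.rpow_add_of_nonneg _ _ (by norm_num) (by norm_num),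
        ← ENNReal.rpow_mul]
      norm_num
    refine (ENNReal.rpow_le_rpow (a2.trans a1) (by norm_num)).trans (le_of_eq ?_)
    rw [← ENNReal.rpow_mul]
    norm_num
  refine (lintegral_mono key).trans (le_of_eq ?_)
  rw [lintegral_lintegral_swap]
  · refine lintegral_congr fun t => ?_
    have ht : Measurable fun x => ENNReal.ofReal (ρ (x - t)) :=
      hm.comp (measurable_id.sub measurable_const)
    rw [lintegral_mul_const _ ht,
      lintegral_sub_right_eq_self (fun z => ENNReal.ofReal (ρ z)) t, h1, one_mul]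
  · exact (hm.comp (measurable_fst.sub measurable_snd)).aemeasurable.mul hf2.comp_snd

theorem okmol_cc {φ : ℕ → ContDiffBump (0 : Z)} (h1 : ∀ k, (φ k).rOut ≤ 1)
    (h2 : Tendsto (fun k => (φ k).rOut) atTop (𝓝 0)) {g : Z → F} (hg : Continuous g)
    (hg' : HasCompactSupport g) :
    Tendsto (fun k => eLpNorm (mo μ ((φ k).normed μ) g - g) 2 μ) atTop (𝓝 0) := by
  have hK : IsCompact (cthickening 1 (tsupport g)) := hg'.isCompact.cthickening
  have hu : UniformContinuous g := hg'.uniformContinuous_of_continuous hg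
  have hb : ∀ δ : ℝ, 0 < δ → ∀ᶠ k in atTop, eLpNorm (mo μ ((φ k).normed μ) g - g) 2 μ ≤
      ‖δ‖ₑ * μ (cthickening 1 (tsupport g)) ^ (1 / (2 : ℝ≥0∞).toReal) := by
    intro δ hδ
    obtain ⟨r, hr, hr'⟩ := Metric.uniformContinuous_iff.1 hu δ hδ
    filter_upwards [h2.eventually (gt_mem_nhds hr)] with k hk
    refine le_trans (eLpNorm_mono fun x => ?_) (eLpNorm_indicator_const_le δ 2)
    have e : mo μ ((φ k).normed μ) g x = MeasureTheory.convolution ((φ k).normed μ) g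
        (ContinuousLinearMap.lsmul ℝ ℝ) μ x := convolution_lsmul_swap.symm
    rw [Pi.sub_apply, ← dist_eq_norm, e]
    by_cases hx : x ∈ cthickening 1 (tsupport g)
    · rw [indicator_of_mem hx, Real.norm_of_nonneg hδ.le]
      exact (φ k).dist_normed_convolution_le hg.aestronglyMeasurable fun y hy =>
        (hr' ((mem_ball.1 hy).trans hk)).le
    · rw [indicator_of_notMem hx, norm_zero]
      have h0 : ∀ y, dist y x ≤ 1 → g y = 0 := fun y hy => by
        by_contra h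
        exact hx (mem_cthickening_of_dist_le x y 1 _ (subset_tsupport g h) (by rwa [dist_comm]))
      refine (φ k).dist_normed_convolution_le hg.aestronglyMeasurable fun y hy => ?_
      rw [h0 y ((mem_ball.1 hy).le.trans (h1 k)), h0 x (by simp), dist_self]
  have ht : Tendsto (fun δ : ℝ => ‖δ‖ₑ * μ (cthickening 1 (tsupport g)) ^ (1 / (2 : ℝ≥0∞).toReal))
      (𝓝[>] 0) (𝓝 0) := by
    have a1 : Tendsto (fun δ : ℝ => ‖δ‖ₑ) (𝓝[>] 0) (𝓝 0) := by
      have := (continuous_enorm (E := ℝ)).tendsto 0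
      rw [enorm_zero] at this
      exact this.mono_left nhdsWithin_le_nhds
    have := ENNReal.Tendsto.mul_const a1 (b := μ (cthickening 1 (tsupport g)) ^
      (1 / (2 : ℝ≥0∞).toReal)) (Or.inr (ENNReal.rpow_ne_top_of_nonneg (by norm_num)
        hK.measure_lt_top.ne))
    rwa [zero_mul] at this
  refine ENNReal.tendsto_nhds_zero.2 fun ε hε => ?_
  obtain ⟨δ, hδ, hδ'⟩ := ((ENNReal.tendsto_nhds_zero.1 ht ε hε).and self_mem_nhdsWithin).exists
  exact (hb δ hδ').mono fun k hk => hk.trans hδ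

variable (μ) in
/-- Approximate identities. -/
theorem exists_mol : ∃ ρ : ℕ → Z → ℝ, (∀ k, ContDiff ℝ 2 (ρ k) ∧ HasCompactSupport (ρ k) ∧
    ∀ z, 1 ≤ ‖z‖ → ρ k z = 0) ∧ ∀ (F : Type) [NormedAddCommGroup F] [NormedSpace ℝ F]
      [FiniteDimensional ℝ F] (f : Z → F), MemLp f 2 μ →
      Tendsto (fun k => eLpNorm (mo μ (ρ k) f - f) 2 μ) atTop (𝓝 0) := by
  let φ : ℕ → ContDiffBump (0 : Z) := fun k =>
    ⟨1 / ((k : ℝ) + 1) / 2, 1 / ((k : ℝ) + 1), by positivity, half_lt_self (by positivity)⟩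
  have h1 : ∀ k, (φ k).rOut ≤ 1 := fun k => by
    change 1 / ((k : ℝ) + 1) ≤ 1
    rw [div_le_one (by positivity)]
    linarith [Nat.cast_nonneg (α := ℝ) k]
  have h2 : Tendsto (fun k => (φ k).rOut) atTop (𝓝 0) := tendsto_one_div_add_atTop_nhds_zero_nat
  refine ⟨fun k => (φ k).normed μ, fun k => ⟨(φ k).contDiff_normed,
    (φ k).hasCompactSupport_normed, fun z hz => ?_⟩, fun F _ _ _ f hf => ?_⟩
  · by_contra h
    have : z ∈ Function.support ((φ k).normed μ) := h
    rw [(φ k).support_normed_eq, mem_ball_zero_iff] at this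
    linarith [h1 k]
  · refine ENNReal.tendsto_nhds_zero.2 fun ε hε => ?_
    have hε3 : ε / 3 ≠ 0 := ENNReal.div_ne_zero.2 ⟨hε.ne', ENNReal.ofNat_ne_top⟩
    obtain ⟨g, hg1, hg2, hg3, hg4⟩ :=
      hf.exists_hasCompactSupport_eLpNorm_sub_le ENNReal.ofNat_ne_top hε3
    have hlf : LocallyIntegrable f μ := hf.locallyIntegrable one_le_two
    have hlg : LocallyIntegrable g μ := hg4.locallyIntegrable one_le_two
    filter_upwards [ENNReal.tendsto_nhds_zero.1 (okmol_cc (μ := μ) h1 h2 hg3 hg1) (ε / 3)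
      (pos_iff_ne_zero.2 hε3)] with k hk
    have hc : Continuous ((φ k).normed μ) := (φ k).continuous_normed
    have hs : HasCompactSupport ((φ k).normed μ) := (φ k).hasCompactSupport_normed
    have e : mo μ ((φ k).normed μ) f - f =
        mo μ ((φ k).normed μ) (f - g) + (mo μ ((φ k).normed μ) g - g) + -(f - g) := by
      funext x
      simp only [mo, Pi.sub_apply, Pi.add_apply, Pi.neg_apply, smul_sub]
      rw [integral_sub (mo_int hc hs hlf x) (mo_int hc hs hlg x)]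
      abel
    have m1 := (mo_smooth (φ k).contDiff_normed hs (hlf.sub hlg)).1.continuous
    have m2 := (mo_smooth (φ k).contDiff_normed hs hlg).1.continuous
    have y := okmol_young (μ := μ) hc (φ k).nonneg_normed (by
      rw [← ofReal_integral_eq_lintegral_ofReal (φ k).integrable_normed
        (ae_of_all _ (φ k).nonneg_normed), (φ k).integral_normed, ENNReal.ofReal_one])
      (hf.sub hg4).1
    rw [e]
    refine (eLpNorm_add_le (m1.add (m2.sub hg3)).aestronglyMeasurable (hf.sub hg4).1.neg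
      one_le_two).trans ?_
    rw [eLpNorm_neg, ← ENNReal.add_thirds ε]
    refine add_le_add ((eLpNorm_add_le m1.aestronglyMeasurable
      (m2.sub hg3).aestronglyMeasurable one_le_two).trans ?_) hg2
    exact add_le_add (y.trans hg2) hk

theorem quad_int {Θ : Z → F → ℝ} (hc : Continuous (Function.uncurry Θ))
    (hh : ∀ z (t : ℝ) x, Θ z (t • x) = t ^ 2 * Θ z x) {K : Set Z} (hK : IsCompact K) {Y : Z → F}
    (hY : MemLp Y 2 (μ.restrict K)) : IntegrableOn (fun z => Θ z (Y z)) K μ := by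
  obtain ⟨C, -, hC⟩ := homog_le (Θ := fun z x => |Θ z x|) (Ξ := fun _ x => ‖x‖ ^ 2) hK
    hc.abs.continuousOn (continuous_snd.norm.pow 2).continuousOn
    (fun z _ t x => by rw [hh, abs_mul, abs_of_nonneg (sq_nonneg t)])
    (fun z _ t x => by rw [norm_smul, mul_pow, Real.norm_eq_abs, sq_abs])
    (fun z _ x hx => pow_pos (norm_pos_iff.2 hx) 2)
  refine Integrable.mono' (((memLp_two_iff_integrable_sq_norm hY.1).1 hY).const_mul C)
    (hc.comp_aestronglyMeasurable (aestronglyMeasurable_id.prodMk hY.1)) ?_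
  exact ae_restrict_of_forall_mem hK.measurableSet fun z hz => hC z hz _

omit [NormedSpace ℝ Z] [FiniteDimensional ℝ Z] [MeasurableSpace Z] [BorelSpace Z] in
theorem okmol_split {Θ : Z → F → ℝ} (hc : Continuous (Function.uncurry Θ))
    (hh : ∀ z (t : ℝ) x, Θ z (t • x) = t ^ 2 * Θ z x) {K : Set Z} (hK : IsCompact K) {ε : ℝ}
    (hε : 0 < ε) : ∃ C : ℝ, ∀ z ∈ K, ∀ y d : F,
      |Θ z (y + d) - Θ z y| ≤ ε * ‖y‖ ^ 2 + C * ‖d‖ ^ 2 := by
  have hcp : IsCompact (K ×ˢ sphere (0 : F × F) 1) := hK.prod (isCompact_sphere 0 1)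
  have c1 : Continuous fun p : Z × F × F => |Θ p.1 (p.2.1 + p.2.2) - Θ p.1 p.2.1| :=
    ((hc.comp (continuous_fst.prodMk (continuous_snd.fst.add continuous_snd.snd))).sub
      (hc.comp (continuous_fst.prodMk continuous_snd.fst))).abs
  obtain ⟨n, hn⟩ := hcp.elim_directed_cover (fun n : ℕ => {p : Z × F × F |
      |Θ p.1 (p.2.1 + p.2.2) - Θ p.1 p.2.1| < ε * ‖p.2.1‖ ^ 2 + n * ‖p.2.2‖ ^ 2})
    (fun n => isOpen_lt c1 (by fun_prop)) (by
      rintro ⟨z, y, d⟩ ⟨-, hp⟩
      simp only [mem_iUnion, mem_ofPred_eq]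
      by_cases hd : d = 0
      · subst hd
        have hy : ‖y‖ = 1 := by simpa using hp
        exact ⟨0, by simp [hy, hε]⟩
      · have hd' : 0 < ‖d‖ ^ 2 := pow_pos (norm_pos_iff.2 hd) 2
        obtain ⟨n, hn⟩ := exists_nat_gt (|Θ z (y + d) - Θ z y| / ‖d‖ ^ 2)
        rw [div_lt_iff₀ hd'] at hn
        exact ⟨n, by nlinarith [mul_nonneg hε.le (sq_nonneg ‖y‖)]⟩)
    (Monotone.directed_le fun m n hmn p hp => by
      simp only [mem_ofPred_eq] at hp ⊢
      exact hp.trans_le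
        (add_le_add le_rfl (mul_le_mul_of_nonneg_right (Nat.cast_le.2 hmn) (sq_nonneg _))))
  refine ⟨n, fun z hz y d => ?_⟩
  by_cases h0 : (y, d) = 0
  · obtain ⟨rfl, rfl⟩ := Prod.mk_eq_zero.1 h0
    simp
  · have hn0 : ‖(y, d)‖ ≠ 0 := norm_ne_zero_iff.2 h0
    have hy : ‖(y, d)‖⁻¹ • (y, d) ∈ sphere (0 : F × F) 1 := by
      rw [mem_sphere_zero_iff_norm, norm_smul, norm_inv, norm_norm, inv_mul_cancel₀ hn0]
    have h1 := hn (show (z, ‖(y, d)‖⁻¹ • (y, d)) ∈ K ×ˢ sphere (0 : F × F) 1 from ⟨hz, hy⟩)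
    simp only [mem_ofPred_eq, Prod.smul_mk, ← smul_add, hh, ← mul_sub, abs_mul, norm_smul,
      mul_pow, Real.norm_eq_abs, sq_abs] at h1
    have hp : 0 < ‖(y, d)‖⁻¹ ^ 2 := pow_pos (inv_pos.2 (norm_pos_iff.2 h0)) 2
    rw [abs_of_pos hp] at h1
    refine le_of_mul_le_mul_left ?_ hp
    linarith

theorem quad_lim {Θ : Z → F → ℝ} (hc : Continuous (Function.uncurry Θ))
    (hh : ∀ z (t : ℝ) x, Θ z (t • x) = t ^ 2 * Θ z x) {K : Set Z} (hK : IsCompact K)
    {X : ℕ → Z → F} {Y : Z → F} (hX : ∀ k, MemLp (X k) 2 (μ.restrict K))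
    (hY : MemLp Y 2 (μ.restrict K))
    (h : Tendsto (fun k => eLpNorm (X k - Y) 2 (μ.restrict K)) atTop (𝓝 0)) :
    Tendsto (fun k => ∫ z in K, Θ z (X k z) ∂μ) atTop (𝓝 (∫ z in K, Θ z (Y z) ∂μ)) := by
  have hs : Tendsto (fun k => ∫ z in K, ‖(X k - Y) z‖ ^ 2 ∂μ) atTop (𝓝 0) := by
    have a1 := ((ENNReal.tendsto_toReal ENNReal.zero_ne_top).comp h).pow 2
    rw [ENNReal.toReal_zero, zero_pow two_ne_zero] at a1
    refine a1.congr fun k => ?_
    have a2 : 0 ≤ ∫ z in K, ‖(X k - Y) z‖ ^ 2 ∂μ := integral_nonneg fun z => sq_nonneg _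
    rw [Function.comp_apply, ((hX k).sub hY).eLpNorm_eq_integral_rpow_norm two_ne_zero
      ENNReal.ofNat_ne_top, ENNReal.toReal_ofNat]
    simp only [Real.rpow_two]
    rw [ENNReal.toReal_ofReal (Real.rpow_nonneg a2 _), ← Real.rpow_two,
      Real.rpow_inv_rpow a2 two_ne_zero]
  have iY := (memLp_two_iff_integrable_sq_norm hY.1).1 hY
  have pY : 0 ≤ ∫ z in K, ‖Y z‖ ^ 2 ∂μ := integral_nonneg fun z => sq_nonneg _
  refine Metric.tendsto_nhds.2 fun ε hε => ?_
  obtain ⟨C, hC⟩ := okmol_split hc hh hK (ε := ε / 2 / (∫ z in K, ‖Y z‖ ^ 2 ∂μ + 1))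
    (by positivity)
  have a3 := hs.const_mul C
  rw [mul_zero] at a3
  filter_upwards [a3.eventually (gt_mem_nhds (half_pos hε))] with k hk
  have iD := (memLp_two_iff_integrable_sq_norm ((hX k).sub hY).1).1 ((hX k).sub hY)
  rw [dist_eq_norm, ← integral_sub (quad_int hc hh hK (hX k)) (quad_int hc hh hK hY)]
  have a4 := norm_integral_le_of_norm_le (f := fun z => Θ z (X k z) - Θ z (Y z))
    ((iY.const_mul (ε / 2 / (∫ z in K, ‖Y z‖ ^ 2 ∂μ + 1))).add (iD.const_mul C))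
    (ae_restrict_of_forall_mem hK.measurableSet fun z hz => by
      have := hC z hz (Y z) ((X k - Y) z)
      rwa [Pi.sub_apply, add_sub_cancel] at this)
  refine a4.trans_lt ?_
  simp only [Pi.add_apply]
  rw [integral_add (iY.const_mul _) (iD.const_mul C), integral_const_mul, integral_const_mul]
  have a5 : ε / 2 / (∫ z in K, ‖Y z‖ ^ 2 ∂μ + 1) * ∫ z in K, ‖Y z‖ ^ 2 ∂μ ≤ ε / 2 := by
    rw [div_mul_eq_mul_div, div_le_iff₀ (by positivity)]
    nlinarith
  linarith

theorem int_deriv {f : Z → F} (hf : ContDiff ℝ 1 f) (hf' : HasCompactSupport f) (v : Z) :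
    ∫ z, fderiv ℝ f z v ∂μ = 0 := by
  have h1 : Integrable (fun z => fderiv ℝ f z v) μ :=
    ((hf.continuous_fderiv one_ne_zero).clm_apply continuous_const).integrable_of_hasCompactSupport
      (hf'.fderiv_apply ℝ v)
  have h := integral_smul_fderiv_eq_neg_fderiv_smul_of_integrable (μ := μ) (f := fun _ : Z => (1 : ℝ))
    (g := f) (v := v) (by simp) (by simpa using h1)
    (by simpa using hf.continuous.integrable_of_hasCompactSupport hf')
    (fun x _ => differentiableAt_const _) (fun x _ => hf.differentiable one_ne_zero x)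
  simpa using h

end Pool.Agent.Lib.MP_124863_gt.Ok
end

-- part Pool.Agent.Lib.MP_124863_gt.OkAlg
section

/-! The Nakano form and the Levi form. -/

open Filter Topology Set Metric Complex MeasureTheory
open scoped Real ENNReal

namespace Pool.Agent.Lib.MP_124863_gt.Ok

open Ec

variable {Z : Type} [NormedAddCommGroup Z] [NormedSpace ℝ Z] [NormedSpace ℂ Z] [IsScalarTower ℝ ℂ Z]
  {J : Type} [Fintype J] {n N : ℕ} {e : J → Z} {W W' : Z → Bil N} {z : Z} {α : J → Cn N} {C : Cn N}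
  {H : Bil N}

set_option linter.unusedSectionVars false

section calc1

variable {F G K : Type} [NormedAddCommGroup F] [NormedSpace ℝ F] [NormedAddCommGroup G]
  [NormedSpace ℝ G] [NormedAddCommGroup K] [NormedSpace ℝ K]

theorem alg1_d1 {c : Z → F →L[ℝ] G} {x : Z → F} (hc : DifferentiableAt ℝ c z)
    (hx : DifferentiableAt ℝ x z) (v : Z) : fderiv ℝ (fun w => c w (x w)) z v =
      fderiv ℝ c z v (x z) + c z (fderiv ℝ x z v) := by
  rw [(hc.hasFDerivAt.clm_apply hx.hasFDerivAt).fderiv]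
  simp [add_comm]

theorem alg1_d0 {c : Z → F →L[ℝ] G} (hc : DifferentiableAt ℝ c z) (x : F) (v : Z) :
    fderiv ℝ (fun w => c w x) z v = fderiv ℝ c z v x := by
  rw [alg1_d1 hc (differentiableAt_const x)]
  simp

theorem alg1_d2 {c : Z → F →L[ℝ] G} {x : Z → F} (hc : ContDiffAt ℝ 2 c z)
    (hx : ContDiffAt ℝ 2 x z) (u v : Z) : fderiv ℝ (fderiv ℝ fun w => c w (x w)) z u v =
      fderiv ℝ (fderiv ℝ c) z u v (x z) + fderiv ℝ c z v (fderiv ℝ x z u) +
        (fderiv ℝ c z u (fderiv ℝ x z v) + c z (fderiv ℝ (fderiv ℝ x) z u v)) := by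
  obtain ⟨c1, c2⟩ := two_diff hc
  obtain ⟨x1, x2⟩ := two_diff hx
  have c3 := c2.clm_apply (differentiableAt_const v)
  have x3 := x2.clm_apply (differentiableAt_const v)
  have e1 : (fun w => fderiv ℝ (fun w => c w (x w)) w v) =ᶠ[𝓝 z]
      fun w => fderiv ℝ c w v (x w) + c w (fderiv ℝ x w v) :=
    (c1.and x1).mono fun w hw => alg1_d1 hw.1 hw.2 v
  rw [← alg1_d0 (two_diff (hc.clm_apply hx)).2, e1.fderiv_eq,
    fderiv_fun_add (c3.clm_apply x1.self_of_nhds) (c1.self_of_nhds.clm_apply x3), add_apply,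
    alg1_d1 c3 x1.self_of_nhds, alg1_d1 c1.self_of_nhds x3, alg1_d0 c2, alg1_d0 x2]

theorem alg1_d3 {c : Z → F →L[ℝ] G} (hc : ContDiffAt ℝ 2 c z) (x : F) (u v : Z) :
    fderiv ℝ (fderiv ℝ fun w => c w x) z u v = fderiv ℝ (fderiv ℝ c) z u v x := by
  rw [alg1_d2 hc contDiffAt_const]
  simp

theorem alg1_lin (l : F →L[ℝ] G) {x : Z → F} (hx : ContDiffAt ℝ 2 x z) (u v : Z) :
    fderiv ℝ (fun w => l (x w)) z v = l (fderiv ℝ x z v) ∧
      fderiv ℝ (fderiv ℝ fun w => l (x w)) z u v = l (fderiv ℝ (fderiv ℝ x) z u v) := by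
  rw [alg1_d2 contDiffAt_const hx,
    alg1_d1 (differentiableAt_const l) (two_diff hx).1.self_of_nhds]
  simp

theorem alg1_comp {g : F → G} {x : Z → F} (hg : ContDiffAt ℝ 2 g (x z)) (hx : ContDiffAt ℝ 2 x z)
    (u v : Z) : fderiv ℝ (fderiv ℝ fun w => g (x w)) z u v =
      fderiv ℝ (fderiv ℝ g) (x z) (fderiv ℝ x z u) (fderiv ℝ x z v) +
        fderiv ℝ g (x z) (fderiv ℝ (fderiv ℝ x) z u v) := by
  obtain ⟨g1, g2⟩ := two_diff hg
  obtain ⟨x1, x2⟩ := two_diff hx
  have e1 : (fun w => fderiv ℝ (fun w => g (x w)) w v) =ᶠ[𝓝 z]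
      fun w => fderiv ℝ g (x w) (fderiv ℝ x w v) :=
    ((hx.continuousAt.eventually g1).and x1).mono fun w hw => by
      simp only [fderiv_fun_comp w hw.1 hw.2, ContinuousLinearMap.comp_apply]
  have e2 : ContDiffAt ℝ 2 (fun w => g (x w)) z := hg.comp z hx
  rw [← alg1_d0 (two_diff e2).2, e1.fderiv_eq,
    alg1_d1 (g2.fun_comp' z x1.self_of_nhds) (x2.clm_apply (differentiableAt_const v)), alg1_d0 x2,
    fderiv_fun_comp z g2 x1.self_of_nhds, ContinuousLinearMap.comp_apply]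

end calc1

section holo

variable {F : Type} [NormedAddCommGroup F] [NormedSpace ℝ F] [NormedSpace ℂ F]
  [IsScalarTower ℝ ℂ F] {f : Z → F}

theorem alg1_h1 (h : DifferentiableAt ℂ f z) (v : Z) :
    fderiv ℝ f z (I • v) = I • fderiv ℝ f z v := by
  simp [h.fderiv_restrictScalars ℝ]

theorem alg1_h0 [FiniteDimensional ℂ Z] [CompleteSpace F]
    (h : ∀ᶠ w in 𝓝 z, DifferentiableAt ℂ f w) : ContDiffAt ℝ 2 f z :=
  (contDiffAt_of_eventually h 2).restrict_scalars ℝ

theorem alg1_h2 [FiniteDimensional ℂ Z] [CompleteSpace F]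
    (h : ∀ᶠ w in 𝓝 z, DifferentiableAt ℂ f w) (u v : Z) :
    fderiv ℝ (fderiv ℝ f) z u (I • v) = I • fderiv ℝ (fderiv ℝ f) z u v := by
  have h2 := (two_diff (alg1_h0 h)).2
  have e1 : (fun w => fderiv ℝ f w (I • v)) =ᶠ[𝓝 z] fun w => I • fderiv ℝ f w v :=
    h.mono fun w hw => alg1_h1 hw v
  rw [← alg1_d0 h2, ← alg1_d0 h2, e1.fderiv_eq,
    fderiv_fun_const_smul (h2.clm_apply (differentiableAt_const v)), smul_apply]

end holo

theorem alg1_isH (h : ∀ᶠ w in 𝓝 z, IsH (W w)) (hd : DifferentiableAt ℝ W z) (Y : Z) :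
    IsH (fderiv ℝ W z Y) := by
  have e1 : ∀ u v, fderiv ℝ W z Y u v = fderiv ℝ (fun w => W w u v) z Y := fun u v => by
    rw [alg1_d0 (hd.clm_apply (differentiableAt_const u)), alg1_d0 hd]
  constructor <;> intro u v <;> rw [e1, e1] <;> congr 1 <;> refine EventuallyEq.fderiv_eq ?_
  exacts [h.mono fun w hw => hw.symm u v, h.mono fun w hw => hw.inv u v]

theorem alg1_aa (α : J → Cn N) (a : J × Bool) : aa α a = (bif a.2 then -I else 1 : ℂ) • α a.1 := by
  rcases a with ⟨j, _ | _⟩ <;> simp [aa]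

theorem alg1_zero (hH : IsH H) {D : Z → Cn N} (hD : ∀ v, D (I • v) = I • D v) (α : J → Cn N) :
    ∑ a, H (D (ee e a)) (aa α a) = 0 ∧ ∑ a, H (aa α a) (D (ee e a)) = 0 := by
  have : ∑ a, H (D (ee e a)) (aa α a) = 0 := by
    simp [Fintype.sum_prod_type, ee, aa, hD, hH.inv]
  exact ⟨this, by simpa only [hH.symm (aa α _)] using this⟩

theorem sum_aa (hH : IsH H) (α : J → Cn N) :
    ∑ a, H (aa α a) (aa α a) = 2 * ∑ j, H (α j) (α j) := by
  simp [Fintype.sum_prod_type, aa, hH.inv, Finset.sum_add_distrib, two_mul]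

theorem pr_eq (hH : IsH H) (φ : Z → Cn N) :
    pr e H (fderiv ℝ φ z) α = ∑ j, H (db e φ z j) (α j) := by
  simp [pr, db, Fintype.sum_prod_type, aa, ee, hH.skew, add_comm]

theorem xi_eq (hH : IsH H) (l : Z →L[ℝ] ℝ) (u : Cn N) :
    H u (xi e l α) = ∑ j, H (dbs e l j u) (α j) := by
  simp [xi, dbs, Fintype.sum_prod_type, aa, ee, hH.skew, add_comm]

theorem cn_spec (hp : ∀ v, v ≠ 0 → 0 < W z v v) (c : Cn N) :
    W z (cn e W z α) c = ∑ a, fderiv ℝ W z (ee e a) (aa α a) c := by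
  rw [cn, (isInvertible_of_pos hp).self_apply_inverse, sum_apply]

theorem cn_add (α β : J → Cn N) : cn e W z (α + β) = cn e W z α + cn e W z β := by
  simp only [cn, alg1_aa, Pi.add_apply, smul_add, map_add, Finset.sum_add_distrib]

theorem alg1_aa_smul (t : ℝ) (α : J → Cn N) (a : J × Bool) : aa (t • α) a = t • aa α a := by
  rw [alg1_aa, alg1_aa, Pi.smul_apply, smul_comm]

theorem cn_smul (t : ℝ) (α : J → Cn N) : cn e W z (t • α) = t • cn e W z α := by
  simp only [cn, alg1_aa_smul, map_smul, ← Finset.smul_sum]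

theorem alg1_aa_cont {X : Type} [TopologicalSpace X] {α : X → J → Cn N} (h : Continuous α)
    (a : J × Bool) : Continuous fun x => aa (α x) a := by
  simp only [alg1_aa]
  fun_prop

theorem cn_cont (hW : ContDiff ℝ 2 W) (hp : ∀ z v, v ≠ 0 → 0 < W z v v) :
    Continuous fun p : Z × (J → Cn N) => cn e W p.1 p.2 := by
  have h1 : Continuous fun z => (W z).inverse := continuous_iff_continuousAt.2 fun z =>
    ((isInvertible_of_pos (hp z)).contDiffAt_map_inverse (n := 0)).continuousAt.comp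
      hW.continuous.continuousAt
  exact (h1.comp continuous_fst).clm_apply (continuous_finsetSum _ fun a _ =>
    (((hW.continuous_fderiv two_ne_zero).comp continuous_fst).clm_apply
      continuous_const).clm_apply (alg1_aa_cont continuous_snd a))

theorem nk_le (hH : IsH (W z)) (hp : ∀ v, v ≠ 0 → 0 < W z v v) (α : J → Cn N) (C : Cn N) :
    nk e W z α C ≤ nk e W z α (cn e W z α) := by
  have h : 0 ≤ W z (cn e W z α - C) (cn e W z α - C) := by
    rcases eq_or_ne (cn e W z α - C) 0 with h | h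
    · simp [h]
    · exact (hp _ h).le
  simp only [map_sub, sub_apply, hH.symm C (cn e W z α)] at h
  rw [nk, nk, ← cn_spec hp, ← cn_spec hp]
  linarith

theorem nk_congr (h : W =ᶠ[𝓝 z] W') : nk e W z α C = nk e W' z α C := by
  rw [nk, nk, h.fderiv.fderiv_eq, h.fderiv_eq, h.self_of_nhds]

theorem alg1_const (H : Bil N) : nk e (fun _ => H) z α C = -H C C := by
  simp [nk]

theorem nk_const (H : Bil N) : nk e (fun _ => H) z α 0 = 0 := by
  simp [nk]

theorem nk_smul (t : ℝ) : nk e W z (t • α) (t • C) = t ^ 2 * nk e W z α C := by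
  simp only [nk, alg1_aa_smul, map_smul, smul_apply, smul_eq_mul, ← Finset.mul_sum]
  ring

theorem nk_cont (hW : ContDiff ℝ 2 W) :
    Continuous fun p : Z × (J → Cn N) => nk e W p.1 p.2 0 := by
  have h2 : Continuous (fderiv ℝ (fderiv ℝ W)) :=
    (hW.fderiv_right (m := 1) (by norm_num)).continuous_fderiv one_ne_zero
  simp only [nk, map_zero, Finset.sum_const_zero, mul_zero, add_zero, sub_zero]
  exact (continuous_finsetSum _ fun a _ => continuous_finsetSum _ fun b _ =>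
    ((((h2.comp continuous_fst).clm_apply continuous_const).clm_apply continuous_const).clm_apply
      (alg1_aa_cont continuous_snd a)).clm_apply (alg1_aa_cont continuous_snd b)).neg

theorem nk_add (h : ContDiffAt ℝ 2 W z) (h' : ContDiffAt ℝ 2 W' z) :
    nk e (fun w => W w + W' w) z α C = nk e W z α C + nk e W' z α C := by
  obtain ⟨a1, a2⟩ := two_diff h
  obtain ⟨b1, b2⟩ := two_diff h'
  have e1 : (fderiv ℝ fun w => W w + W' w) =ᶠ[𝓝 z] fun w => fderiv ℝ W w + fderiv ℝ W' w :=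
    (a1.and b1).mono fun w hw => fderiv_fun_add hw.1 hw.2
  simp only [nk, e1.fderiv_eq, e1.self_of_nhds, fderiv_fun_add a2 b2, add_apply,
    Finset.sum_add_distrib]
  ring

theorem alg1_exp {φ : Z → ℝ} (hφ : DifferentiableAt ℝ φ z) (h : DifferentiableAt ℝ W z) (v : Z) :
    fderiv ℝ (fun w => Real.exp (-φ w) • W w) z v =
      Real.exp (-φ z) • (fderiv ℝ W z v - fderiv ℝ φ z v • W z) := by
  rw [(hφ.hasFDerivAt.fun_neg.exp.fun_smul h.hasFDerivAt).fderiv]
  simp only [add_apply, smul_apply, ContinuousLinearMap.smulRight_apply, neg_apply, smul_eq_mul]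
  module

theorem nk_twist {φ : Z → ℝ} (hφ : ContDiffAt ℝ 2 φ z) (h : ContDiffAt ℝ 2 W z)
    (hH : ∀ᶠ w in 𝓝 z, IsH (W w)) :
    nk e (fun w => Real.exp (-φ w) • W w) z α (C - xi e (fderiv ℝ φ z) α) =
      Real.exp (-φ z) * (nk e W z α C + lev e (fderiv ℝ (fderiv ℝ φ) z) (W z) α) := by
  obtain ⟨a1, a2⟩ := two_diff h
  obtain ⟨b1, b2⟩ := two_diff hφ
  have a0 := a1.self_of_nhds
  have b0 := b1.self_of_nhds
  have e2 : ∀ u v, fderiv ℝ (fderiv ℝ fun w => Real.exp (-φ w) • W w) z u v = Real.exp (-φ z) •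
      (fderiv ℝ (fderiv ℝ W) z u v - fderiv ℝ φ z v • fderiv ℝ W z u -
        fderiv ℝ (fderiv ℝ φ) z u v • W z - fderiv ℝ φ z u • fderiv ℝ W z v +
        fderiv ℝ φ z u • fderiv ℝ φ z v • W z) := fun u v => by
    have e1 : (fun w => fderiv ℝ (fun w => Real.exp (-φ w) • W w) w v) =ᶠ[𝓝 z]
        fun w => Real.exp (-φ w) • (fderiv ℝ W w v - fderiv ℝ φ w v • W w) :=
      (a1.and b1).mono fun w hw => alg1_exp hw.2 hw.1 v
    have a3 := a2.clm_apply (differentiableAt_const v)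
    have b3 := b2.clm_apply (differentiableAt_const v)
    have a4 : ContDiffAt ℝ 2 (fun w => Real.exp (-φ w) • W w) z := hφ.neg.exp.smul h
    rw [← alg1_d0 (two_diff a4).2, e1.fderiv_eq,
      alg1_exp b0 (a3.fun_sub (b3.fun_smul a0)), fderiv_fun_sub a3 (b3.fun_smul a0),
      fderiv_fun_smul b3 a0]
    simp only [sub_apply, add_apply, smul_apply, ContinuousLinearMap.smulRight_apply,
      alg1_d0 a2, alg1_d0 b2]
    module
  have x1 : ∀ (B : Bil N) c, ∑ a, fderiv ℝ φ z (ee e a) * B c (aa α a) =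
      B c (xi e (fderiv ℝ φ z) α) := fun B c => by simp [xi]
  have x2 : ∀ c, ∑ a, fderiv ℝ φ z (ee e a) * W z (aa α a) c =
      W z (xi e (fderiv ℝ φ z) α) c := fun c => by simp [xi]
  have x3 : ∑ a, fderiv ℝ φ z (ee e a) * ∑ b, fderiv ℝ W z (ee e b) (aa α a) (aa α b) =
      ∑ a, fderiv ℝ W z (ee e a) (aa α a) (xi e (fderiv ℝ φ z) α) := by
    simp only [Finset.mul_sum]
    rw [Finset.sum_comm]
    exact Finset.sum_congr rfl fun b _ => by
      simp only [(alg1_isH hH a0 _).symm _ (aa α b), x1]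
  simp only [nk, lev, e2, alg1_exp b0 a0, sub_apply, add_apply, smul_apply, smul_eq_mul,
    ← Finset.mul_sum, Finset.sum_add_distrib, Finset.sum_sub_distrib, x1, x2, x3, map_sub,
    hH.self_of_nhds.symm C (xi e (fderiv ℝ φ z) α)]
  ring

theorem cn_twist {φ : Z → ℝ} (hφ : DifferentiableAt ℝ φ z) (h : DifferentiableAt ℝ W z)
    (hp : ∀ v, v ≠ 0 → 0 < W z v v) :
    cn e (fun w => Real.exp (-φ w) • W w) z α = cn e W z α - xi e (fderiv ℝ φ z) α := by
  have hp' : ∀ v, v ≠ 0 → 0 < (Real.exp (-φ z) • W z) v v := fun v hv =>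
    mul_pos (Real.exp_pos _) (hp v hv)
  rw [cn, (isInvertible_of_pos hp').inverse_apply_eq]
  ext c
  rw [smul_apply, smul_apply, map_sub]
  simp only [alg1_exp hφ h, sum_apply, smul_apply, sub_apply, cn_spec hp, xi, map_sum,
    map_smul, smul_eq_mul, ← Finset.mul_sum, Finset.sum_sub_distrib]

theorem nk_proj {P : Z → Cn N →L[ℂ] Cn N} (h : DifferentiableAt ℝ W z) (hH : IsH (W z))
    (hP : DifferentiableAt ℂ P z) (hW : ∀ᶠ w in 𝓝 z, ∀ u c, W w u (P w c) = W w u c) :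
    nk e W z α (P z C) = nk e W z α C := by
  have h1 : DifferentiableAt ℂ (fun w => P w C) z := hP.clm_apply (differentiableAt_const C)
  have h2 : ∀ u v, fderiv ℝ W z v u (P z C) + W z u (fderiv ℝ (fun w => P w C) z v) =
      fderiv ℝ W z v u C := fun u v => by
    have h3 := h.clm_apply (differentiableAt_const u)
    have e1 : (fun w => W w u (P w C)) =ᶠ[𝓝 z] fun w => W w u C := hW.mono fun w hw => hw u C
    rw [← alg1_d0 h, ← alg1_d0 h3 C, ← e1.fderiv_eq, alg1_d1 h3 (h1.restrictScalars ℝ)]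
  have h4 := (alg1_zero (e := e) hH (alg1_h1 h1) α).2
  simp only [nk, ← h2, Finset.sum_add_distrib, h4, add_zero, hW.self_of_nhds, hH.symm (P z C)]

theorem nk_germ [FiniteDimensional ℂ Z] (h : ContDiffAt ℝ 2 W z) (hH : ∀ᶠ w in 𝓝 z, IsH (W w))
    {s : J → Z → Cn N} (hs : ∀ j, ∀ᶠ w in 𝓝 z, DifferentiableAt ℂ (s j) w) :
    nk e W z (fun j => s j z) (-dg e s z) = -∑ a, ∑ b, fderiv ℝ (fderiv ℝ fun w =>
      W w (aa (fun j => s j w) a) (aa (fun j => s j w) b)) z (ee e a) (ee e b) := by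
  have a0 := (two_diff h).1.self_of_nhds
  have h0 := hH.self_of_nhds
  have h1 := alg1_isH hH a0
  let t : J × Bool → Z → Cn N := fun a w => aa (fun j => s j w) a
  have t1 : ∀ a, ∀ᶠ w in 𝓝 z, DifferentiableAt ℂ (t a) w := fun a => (hs a.1).mono fun w hw => by
    simp only [t, alg1_aa]
    exact hw.fun_const_smul _
  have t2 := fun a => alg1_h0 (t1 a)
  have t3 : ∀ a v, fderiv ℝ (t a) z v = aa (fun j => fderiv ℝ (s j) z v) a := fun a v => by
    simp only [t, alg1_aa]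
    rw [fderiv_fun_const_smul ((hs a.1).self_of_nhds.restrictScalars ℝ), smul_apply]
  have e1 : ∀ a b u v, fderiv ℝ (fderiv ℝ fun w => W w (t a w) (t b w)) z u v =
      fderiv ℝ (fderiv ℝ W) z u v (t a z) (t b z) + fderiv ℝ W z v (t b z) (fderiv ℝ (t a) z u) +
      fderiv ℝ W z u (fderiv ℝ (t a) z v) (t b z) + W z (fderiv ℝ (fderiv ℝ (t a)) z u v) (t b z) +
      fderiv ℝ W z v (t a z) (fderiv ℝ (t b) z u) +
      W z (fderiv ℝ (t a) z v) (fderiv ℝ (t b) z u) + fderiv ℝ W z u (t a z) (fderiv ℝ (t b) z v) +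
      W z (fderiv ℝ (t a) z u) (fderiv ℝ (t b) z v) +
      W z (t a z) (fderiv ℝ (fderiv ℝ (t b)) z v u) := fun a b u v => by
    have t4 := alg1_d1 a0 (two_diff (t2 a)).1.self_of_nhds
    rw [alg1_d2 (h.clm_apply (t2 a)) (t2 b), alg1_d2 h (t2 a), t4, t4,
      (t2 b).isSymmSndFDerivAt (by simp) v u, (h1 v).symm (t b z)]
    simp only [add_apply]
    ring
  have d : dg e s z = ∑ a, fderiv ℝ (t a) z (ee e a) := by simp only [dg, t3]
  have s2 : ∑ a, ∑ b, fderiv ℝ W z (ee e b) (t b z) (fderiv ℝ (t a) z (ee e a)) =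
      ∑ a, fderiv ℝ W z (ee e a) (t a z) (dg e s z) := by
    rw [Finset.sum_comm]
    simp only [d, map_sum]
  have s3 : ∀ a, ∑ b, fderiv ℝ W z (ee e a) (fderiv ℝ (t a) z (ee e b)) (t b z) = 0 := fun a =>
    (alg1_zero (h1 _) (alg1_h1 (t1 a).self_of_nhds) _).1
  have s4 : ∀ a, ∑ b, W z (fderiv ℝ (fderiv ℝ (t a)) z (ee e a) (ee e b)) (t b z) = 0 := fun a =>
    (alg1_zero h0 (alg1_h2 (t1 a) _) _).1
  have s5 : ∑ a, ∑ b, fderiv ℝ W z (ee e b) (t a z) (fderiv ℝ (t b) z (ee e a)) = 0 := by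
    rw [Finset.sum_comm]
    exact Finset.sum_eq_zero fun b _ => (alg1_zero (h1 _) (alg1_h1 (t1 b).self_of_nhds) _).2
  have s6 : ∀ a, ∑ b, W z (fderiv ℝ (t a) z (ee e b)) (fderiv ℝ (t b) z (ee e a)) = 0 := fun a => by
    simp only [t3 _ (ee e a)]
    exact (alg1_zero h0 (alg1_h1 (t1 a).self_of_nhds) _).1
  have s7 : ∀ a, ∑ b, fderiv ℝ W z (ee e a) (t a z) (fderiv ℝ (t b) z (ee e b)) =
      fderiv ℝ W z (ee e a) (t a z) (dg e s z) := fun a => by rw [d, map_sum]
  have s8 : ∑ a, ∑ b, W z (fderiv ℝ (t a) z (ee e a)) (fderiv ℝ (t b) z (ee e b)) =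
      W z (dg e s z) (dg e s z) := by
    simp only [← map_sum, ← d]
    rw [← sum_apply, ← map_sum, ← d]
  have s9 : ∑ a, ∑ b, W z (t a z) (fderiv ℝ (fderiv ℝ (t b)) z (ee e b) (ee e a)) = 0 := by
    rw [Finset.sum_comm]
    exact Finset.sum_eq_zero fun b _ => (alg1_zero h0 (alg1_h2 (t1 b) _) _).2
  change -(∑ a, ∑ b, fderiv ℝ (fderiv ℝ W) z (ee e a) (ee e b) (t a z) (t b z)) +
    2 * ∑ a, fderiv ℝ W z (ee e a) (t a z) (-dg e s z) - W z (-dg e s z) (-dg e s z) =
    -∑ a, ∑ b, fderiv ℝ (fderiv ℝ fun w => W w (t a w) (t b w)) z (ee e a) (ee e b)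
  simp only [e1, Finset.sum_add_distrib, s2, s3, s4, s5, s6, s7, s8, s9, map_neg, neg_apply,
    Finset.sum_neg_distrib, Finset.sum_const_zero]
  ring

theorem nk_pull [FiniteDimensional ℂ Z] {B : Cn n → Bil n} (hB : ContDiffAt ℝ 2 B 0)
    (h0 : fderiv ℝ B 0 = 0) (hN : Nak B) {γ : Z → Cn n} {L : Z → Cn N →L[ℂ] Cn n}
    {R : Z → Cn n →L[ℂ] Cn N} (hγ : ∀ᶠ w in 𝓝 z, DifferentiableAt ℂ γ w) (hγ0 : γ z = 0)
    (hL : ∀ᶠ w in 𝓝 z, DifferentiableAt ℂ L w) (hR : ∀ᶠ w in 𝓝 z, DifferentiableAt ℂ R w)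
    (hLR : ∀ᶠ w in 𝓝 z, ∀ σ, L w (R w σ) = σ) (h : ContDiffAt ℝ 2 W z)
    (hH : ∀ᶠ w in 𝓝 z, IsH (W w)) (hW : ∀ᶠ w in 𝓝 z, ∀ u v, W w u v = B (γ w) (L w u) (L w v))
    (α : J → Cn N) : ∃ C, 0 ≤ nk e W z α C := by
  let s : J → Z → Cn N := fun j w => α j + R w (L z (α j) - L w (α j))
  have h1 := nk_germ (e := e) h hH (s := s) fun j => (hL.and hR).mono fun w hw =>
    (hw.2.clm_apply ((hw.1.clm_apply (differentiableAt_const _)).const_sub _)).const_add _
  have h2 : (fun j => s j z) = α := by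
    ext1 j
    simp [s]
  have h3 : ContDiffAt ℝ 2 B (γ z) := hγ0 ▸ hB
  have h4 := alg1_h0 hγ
  have h5 : ∀ a, fderiv ℝ γ z (ee e a) = ee (fun j => fderiv ℝ γ z (e j)) a := by
    rintro ⟨j, _ | _⟩
    · rfl
    · exact alg1_h1 hγ.self_of_nhds _
  refine ⟨-dg e s z, ?_⟩
  rw [← h2, h1, neg_nonneg]
  refine le_of_eq_of_le (Finset.sum_congr rfl fun a _ => Finset.sum_congr rfl fun b _ => ?_)
    (hN J (fun j => fderiv ℝ γ z (e j)) fun j => L z (α j))
  have h6 : (fun w => W w (aa (fun j => s j w) a) (aa (fun j => s j w) b)) =ᶠ[𝓝 z]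
      fun w => B (γ w) (aa (fun j => L z (α j)) a) (aa (fun j => L z (α j)) b) :=
    (hW.and hLR).mono fun w hw => by
      have : ∀ j, L w (s j w) = L z (α j) := fun j => by simp [s, hw.2]
      simp only [hw.1, alg1_aa, (L w).map_smul, this]
  have h7 : ContDiffAt ℝ 2 (fun w => B (γ w)) z := h3.comp z h4
  rw [h6.fderiv.fderiv_eq, alg1_d3 (h7.clm_apply contDiffAt_const), alg1_d3 h7, alg1_comp h3 h4, hγ0,
    h0, h5, h5]
  simp

theorem alg1_eu : IsH (eu : Bil N) := by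
  constructor <;> intro u v <;> simp only [eu_apply]
  · exact Finset.sum_congr rfl fun i _ => real_inner_comm _ _
  · refine Finset.sum_congr rfl fun i _ => ?_
    simp [Complex.inner]

theorem alg1_eq (Q : Cn N →L[ℂ] Cn N) (u v : Cn N) : eq' Q u v = eu (Q u) (Q v) := rfl

theorem eq'_isH (Q : Cn N →L[ℂ] Cn N) : IsH (eq' Q) :=
  ⟨fun u v => alg1_eu.symm _ _, fun u v => by rw [alg1_eq, alg1_eq, Q.map_smul, Q.map_smul, alg1_eu.inv]⟩

theorem eq'_smooth [FiniteDimensional ℂ Z] {Q : Z → Cn N →L[ℂ] Cn N}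
    (hQ : ∀ᶠ w in 𝓝 z, DifferentiableAt ℂ Q w) : ContDiffAt ℝ 2 (fun w => eq' (Q w)) z := by
  have h : ∀ u, ContDiffAt ℝ 2 (fun w => Q w u) z := fun u =>
    alg1_h0 (hQ.mono fun w hw => hw.clm_apply (differentiableAt_const u))
  exact contDiffAt_clm fun u => contDiffAt_clm fun v =>
    ((contDiffAt_const (c := eu)).clm_apply (h u)).clm_apply (h v)

theorem nk_norm [FiniteDimensional ℂ Z] {K O : Set Z} (hK : IsCompact K) (hO : IsOpen O)
    (hKO : K ⊆ O) {Q : Z → Cn N →L[ℂ] Cn N} (hQ : DifferentiableOn ℂ Q O)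
    (hi : ∀ w ∈ O, ∀ u, Q w (Q w u) = Q w u) : ∃ A, 0 < A ∧ ∀ z ∈ K, ∀ α : J → Cn N, ∃ C,
      -(A * ∑ j, eq' (Q z) (α j) (α j)) ≤ nk e (fun w => eq' (Q w)) z α C := by
  have h1 : ∀ z ∈ K, ∀ᶠ w in 𝓝 z, DifferentiableAt ℂ Q w := fun z hz =>
    (hO.eventually_mem (hKO hz)).mono fun w hw => hQ.differentiableAt (hO.mem_nhds hw)
  let d : Z → (J → Cn N) → Cn N := fun z β => ∑ a, aa (fun j => fderiv ℂ Q z (ee e a) (β j)) a
  have h2 : ContinuousOn (fun p : Z × (J → Cn N) => d p.1 p.2) (K ×ˢ univ) := by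
    have c : ContinuousOn (fun p : Z × (J → Cn N) => fderiv ℂ Q p.1) (K ×ˢ univ) := fun p hp =>
      (((contDiffAt_of_eventually (h1 _ hp.1) 1).continuousAt_fderiv (by simp)).comp
        continuousAt_fst).continuousWithinAt
    simp only [d, alg1_aa]
    exact continuousOn_finsetSum _ fun a _ => ((c.clm_apply continuousOn_const).clm_apply
      (by fun_prop)).fun_const_smul _
  obtain ⟨A, hA, h3⟩ := homog_le hK (Θ := fun z β => eu (d z β) (d z β))
    (Ξ := fun _ β => ∑ j, eu (β j) (β j)) ((continuousOn_const.clm_apply h2).clm_apply h2)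
    (Continuous.continuousOn (by unfold Function.uncurry; fun_prop))
    (fun z _ t β => by
      have : d z (t • β) = t • d z β := by
        simp only [d, alg1_aa, Pi.smul_apply, Finset.smul_sum,
          ContinuousLinearMap.map_smul_of_tower, smul_comm t]
      simp only [this, map_smul, smul_apply, smul_eq_mul]
      ring)
    (fun z _ t β => by
      simp only [Pi.smul_apply, map_smul, smul_apply, smul_eq_mul, ← Finset.mul_sum]
      ring)
    fun z _ β hβ => by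
      obtain ⟨j, hj⟩ := Function.ne_iff.1 hβ
      exact Finset.sum_pos' (fun i _ => eu_nonneg _)
        ⟨j, Finset.mem_univ j, (eu_nonneg _).lt_of_ne' fun h => hj (eu_eq_zero h)⟩
  refine ⟨A, hA, fun z hz α => ?_⟩
  let s : J → Z → Cn N := fun j w => α j - Q w (α j - Q z (α j))
  let r : J → Z → Cn N := fun j w => Q w (Q z (α j))
  have g1 := nk_germ (e := e) (eq'_smooth (h1 z hz)) (.of_forall fun w => eq'_isH _) (s := s)
    fun j => (h1 z hz).mono fun w hw => (hw.clm_apply (differentiableAt_const _)).const_sub _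
  have g2 := nk_germ (e := e) (z := z) (W := fun _ => eu) contDiffAt_const
    (.of_forall fun w => alg1_eu) (s := r)
    fun j => (h1 z hz).mono fun w hw => hw.clm_apply (differentiableAt_const _)
  have g3 : (fun j => s j z) = α := by
    ext1 j
    simp [s, hi z (hKO hz)]
  have g4 : dg e r z = d z fun j => Q z (α j) := by
    refine Finset.sum_congr rfl fun a _ => congrArg (aa · a) (funext fun j => ?_)
    have := (h1 z hz).self_of_nhds
    rw [(this.clm_apply (differentiableAt_const _)).fderiv_restrictScalars ℝ,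
      (this.hasFDerivAt.clm_apply (hasFDerivAt_const _ z)).fderiv]
    simp
  refine ⟨-dg e s z, ?_⟩
  rw [g3] at g1
  rw [alg1_const, map_neg, map_neg, neg_apply, neg_neg, g4] at g2
  rw [g1]
  refine (neg_le_neg (h3 z hz fun j => Q z (α j))).trans (g2.trans ?_).le
  refine congrArg _ (Finset.sum_congr rfl fun a _ => Finset.sum_congr rfl fun b _ => ?_)
  congr 2
  refine (EventuallyEq.fderiv ((hO.eventually_mem (hKO hz)).mono fun w hw => ?_)).fderiv_eq
  simp [alg1_eq, alg1_aa, s, r, hi w hw]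

theorem alg2_inner (p q : ℂ) : inner ℝ p q = p.re * q.re + p.im * q.im := by
  simp [Complex.inner, mul_comm]

theorem alg2_bil {X ι : Type} [NormedAddCommGroup X] [NormedSpace ℝ X] [Fintype ι]
    (B : X →L[ℝ] X →L[ℝ] ℝ) (c : ι → ℝ) (x : ι → X) :
    B (∑ a, c a • x a) (∑ a, c a • x a) = ∑ a, ∑ b, c a * c b * B (x a) (x b) := by
  rw [map_sum B, sum_apply]
  refine Finset.sum_congr rfl fun a _ => ?_
  rw [map_sum]
  refine Finset.sum_congr rfl fun b _ => ?_
  simp only [map_smul, smul_apply, smul_eq_mul]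
  ring

theorem alg2_smul (c : ℂ) (x : Z) : c • x = c.re • x + c.im • I • x := by
  conv_lhs => rw [← re_add_im c, add_smul, mul_smul]
  rw [← Complex.coe_algebraMap, algebraMap_smul, algebraMap_smul]

theorem alg2_comp {g f f' : ℝ → ℝ} {a b f'' : ℝ} (h : J2 g a b)
    (h1 : ∀ᶠ x in 𝓝 (g 0), HasDerivAt f (f' x) x) (h2 : HasDerivAt f' f'' (g 0)) :
    J2 (fun t => f (g t)) (f' (g 0) * a) (f' (g 0) * b + f'' * a ^ 2) := by
  obtain ⟨g1, a1, rfl, a3⟩ := h
  refine ⟨fun t => f' (g t) * g1 t, (a1.and (a1.self_of_nhds.continuousAt.eventually h1)).mono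
    fun t ht => ht.2.comp t ht.1, rfl, ?_⟩
  exact ((h2.comp 0 a1.self_of_nhds).mul a3).congr_deriv (by simp only [Function.comp]; ring)

theorem alg2_smooth (l : Z →L[ℂ] ℂ) : ContDiffAt ℝ 2 (fun x => ‖l x‖ ^ 2) z :=
  (l.restrictScalars ℝ).contDiff.contDiffAt.norm_sq ℝ

theorem lev_add (L L' : Z →L[ℝ] Z →L[ℝ] ℝ) :
    lev e (L + L') H α = lev e L H α + lev e L' H α := by
  simp only [lev, add_apply, add_mul, Finset.sum_add_distrib]

theorem lev_smul (t : ℝ) (L : Z →L[ℝ] Z →L[ℝ] ℝ) : lev e (t • L) H α = t * lev e L H α := by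
  simp only [lev, smul_apply, smul_eq_mul, Finset.mul_sum, mul_assoc]

theorem lev_smul' (t : ℝ) (L : Z →L[ℝ] Z →L[ℝ] ℝ) : lev e L (t • H) α = t * lev e L H α := by
  simp only [lev, smul_apply, smul_eq_mul, Finset.mul_sum, mul_left_comm]

theorem lev_mono (hH : IsH H) (h0 : ∀ v, 0 ≤ H v v) {L L' : Z →L[ℝ] Z →L[ℝ] ℝ}
    (h : ∀ v, L v v + L (I • v) (I • v) ≤ L' v v + L' (I • v) (I • v)) :
    lev e L H α ≤ lev e L' H α := by
  obtain ⟨l, hl⟩ := exists_fact hH h0
  have key : ∀ L : Z →L[ℝ] Z →L[ℝ] ℝ, lev e L H α = ∑ i,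
      (L (∑ a, (l i (aa α a)).re • ee e a) (∑ a, (l i (aa α a)).re • ee e a) +
        L (I • ∑ a, (l i (aa α a)).re • ee e a) (I • ∑ a, (l i (aa α a)).re • ee e a)) := by
    intro L
    have e1 : ∀ i, I • ∑ a, (l i (aa α a)).re • ee e a = -∑ a, (l i (aa α a)).im • ee e a := by
      intro i
      rw [Finset.smul_sum, ← Finset.sum_neg_distrib, Fintype.sum_prod_type, Fintype.sum_prod_type]
      refine Finset.sum_congr rfl fun j _ => ?_
      simp only [Fintype.sum_bool, aa, ee, cond_true, cond_false, map_neg, map_smul, smul_eq_mul,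
        neg_re, neg_im, I_mul_re, I_mul_im, neg_neg, neg_smul]
      rw [smul_comm I (l i (α j)).im, smul_comm I (l i (α j)).re, smul_smul I I, I_mul_I,
        neg_one_smul, smul_neg, add_comm]
    simp only [e1, map_neg, neg_apply, neg_neg, alg2_bil, lev, hl, alg2_inner,
      ← Finset.sum_add_distrib, Finset.mul_sum]
    rw [Finset.sum_comm (s := Finset.univ (α := Fin N))]
    refine Finset.sum_congr rfl fun a _ => ?_
    rw [Finset.sum_comm (s := Finset.univ (α := Fin N))]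
    refine Finset.sum_congr rfl fun b _ => Finset.sum_congr rfl fun i _ => by ring
  rw [key, key]
  exact Finset.sum_le_sum fun i _ => h _

theorem lev_rank (l : Z →L[ℝ] ℝ) :
    lev e (l.smulRight l) H α = H (xi e l α) (xi e l α) := by
  simp only [xi, alg2_bil, lev, ContinuousLinearMap.smulRight_apply,
    smul_apply, smul_eq_mul]

theorem qf_apply (l : Z →L[ℂ] ℂ) (v : Z) : qf l v v = ‖l v‖ ^ 2 :=
  real_inner_self_eq_norm_sq (l v)

theorem lev_qf (hH : IsH H) (l : Z →L[ℂ] ℂ) :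
    lev e (qf l) H α = 2 * H (∑ j, l (e j) • α j) (∑ j, l (e j) • α j) := by
  have e1 : ∑ j, l (e j) • α j = ∑ a, (l (ee e a)).re • aa α a := by
    rw [Fintype.sum_prod_type]
    refine Finset.sum_congr rfl fun j _ => ?_
    simp only [Fintype.sum_bool, aa, ee, cond_true, cond_false, map_smul, smul_eq_mul, I_mul_re,
      neg_smul, smul_neg, neg_neg]
    rw [smul_eq, add_comm]
  have e2 : I • ∑ j, l (e j) • α j = -∑ a, (l (ee e a)).im • aa α a := by
    rw [Finset.smul_sum, ← Finset.sum_neg_distrib, Fintype.sum_prod_type]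
    refine Finset.sum_congr rfl fun j _ => ?_
    simp only [Fintype.sum_bool, aa, ee, cond_true, cond_false, map_smul, smul_eq_mul, I_mul_im,
      smul_neg, neg_neg]
    rw [smul_eq (l (e j)), smul_add, smul_comm I, smul_comm I, smul_smul I I, I_mul_I,
      neg_one_smul, smul_neg]
  have e3 : ∀ u v, qf l u v = (l u).re * (l v).re + (l u).im * (l v).im :=
    fun u v => alg2_inner (l u) (l v)
  rw [two_mul]
  nth_rewrite 2 [← hH.inv]
  rw [e2, e1]
  simp only [map_neg, neg_apply, neg_neg, alg2_bil, lev, e3,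
    ← Finset.sum_add_distrib, add_mul]

theorem j2_dir {F : Type} [NormedAddCommGroup F] [NormedSpace ℝ F] {u : Z → F}
    (h : ContDiffAt ℝ 2 u z) (v : Z) : J2 (fun t : ℝ => u (z + t • v)) (fderiv ℝ u z v)
      (fderiv ℝ (fderiv ℝ u) z v v) := by
  have hl : ∀ t : ℝ, HasDerivAt (fun t : ℝ => z + t • v) v t := fun t => by
    simpa using ((hasDerivAt_id t).smul_const v).const_add z
  have ht : Tendsto (fun t : ℝ => z + t • v) (𝓝 0) (𝓝 z) := by
    simpa using (hl 0).continuousAt.tendsto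
  refine ⟨fun t => fderiv ℝ u (z + t • v) v, (ht.eventually (two_diff h).1).mono
    fun t ht => ht.hasFDerivAt.comp_hasDerivAt t (hl t), by simp, ?_⟩
  have h1 : HasFDerivAt (fderiv ℝ u) (fderiv ℝ (fderiv ℝ u) z) (z + (0 : ℝ) • v) := by
    simpa using (two_diff h).2.hasFDerivAt
  exact ((HasFDerivAt.comp_hasDerivAt (f := fun t : ℝ => z + t • v) (0 : ℝ) h1
    (hl 0)).clm_apply (hasDerivAt_const (0 : ℝ) v)).congr_deriv (by simp)

theorem lv_add {u w : Z → ℝ} (hu : ContDiffAt ℝ 2 u z) (hw : ContDiffAt ℝ 2 w z) (v : Z) :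
    lv (fun x => u x + w x) z v = lv u z v + lv w z v := by
  have k := fun v => ((j2_dir (hu.add hw) v).unique ((j2_dir hu v).add (j2_dir hw v))).2
  rw [lv, lv, lv, k, k]
  ring

theorem lv_const_mul {u : Z → ℝ} (hu : ContDiffAt ℝ 2 u z) (c : ℝ) (v : Z) :
    lv (fun x => c * u x) z v = c * lv u z v := by
  have k := fun v => ((j2_dir (contDiffAt_const.mul hu) v).unique
    ((J2.const c).mul (j2_dir hu v))).2
  rw [lv, lv, k, k]
  ring

theorem lv_congr {u w : Z → ℝ} (h : u =ᶠ[𝓝 z] w) (v : Z) : lv u z v = lv w z v := by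
  rw [lv, lv, h.fderiv.fderiv_eq]

theorem lv_comp {u : Z → ℝ} (hu : ContDiffAt ℝ 2 u z) {f f' : ℝ → ℝ} {f'' : ℝ}
    (h1 : ∀ᶠ x in 𝓝 (u z), HasDerivAt f (f' x) x) (h2 : HasDerivAt f' f'' (u z))
    (h3 : ContDiffAt ℝ 2 f (u z)) (v : Z) : lv (fun x => f (u x)) z v =
      f' (u z) * lv u z v + f'' * (fderiv ℝ u z v ^ 2 + fderiv ℝ u z (I • v) ^ 2) := by
  have k := fun v => ((j2_dir (h3.comp z hu) v).unique
    (alg2_comp (f := f) (j2_dir hu v) (by simpa using h1) (by simpa using h2))).2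
  simp only [zero_smul, add_zero] at k
  rw [lv, lv]
  erw [k, k]
  ring

theorem lv_clm {Y : Type} [NormedAddCommGroup Y] [NormedSpace ℝ Y] [NormedSpace ℂ Y]
    [IsScalarTower ℝ ℂ Y] (l : Z →L[ℂ] Y) {u : Y → ℝ} (hu : ContDiffAt ℝ 2 u (l z)) (v : Z) :
    lv (fun x => u (l x)) z v = lv u (l z) (l v) := by
  have h2 : ContDiffAt ℝ 2 (fun x => u (l x)) z :=
    hu.comp z (l.restrictScalars ℝ).contDiff.contDiffAt
  have k := fun v => ((j2_dir h2 v).unique ((j2_dir hu (l v)).congr (.of_forall fun t => by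
    simp only [map_add, l.map_smul_of_tower]))).2
  rw [lv, lv, k, k, map_smul]

theorem alg2_nsq (l : Z →L[ℂ] ℂ) (z v : Z) :
    fderiv ℝ (fun x => ‖l x‖ ^ 2) z v = 2 * inner ℝ (l z) (l v) ∧
      fderiv ℝ (fderiv ℝ fun x => ‖l x‖ ^ 2) z v v = 2 * ‖l v‖ ^ 2 :=
  (j2_dir (alg2_smooth l) v).unique ((J2.quad (‖l z‖ ^ 2) _ _).congr (.of_forall fun t => by
    simp only [map_add, l.map_smul_of_tower]
    rw [norm_add_sq_real, real_inner_smul_right, norm_smul, mul_pow, Real.norm_eq_abs, sq_abs]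
    ring))

theorem lv_norm_sq (l : Z →L[ℂ] ℂ) (v : Z) : lv (fun x => ‖l x‖ ^ 2) z v = 4 * ‖l v‖ ^ 2 := by
  rw [lv, (alg2_nsq l z v).2, (alg2_nsq l z _).2, map_smul, norm_smul, norm_I]
  ring

theorem lv_log (l : Z →L[ℂ] ℂ) {c : ℝ} (hc : 0 < c) (v : Z) :
    lv (fun x => Real.log (‖l x‖ ^ 2 + c)) z v = 4 * (c / (‖l z‖ ^ 2 + c) ^ 2) * ‖l v‖ ^ 2 := by
  have p : 0 < ‖l z‖ ^ 2 + c := by positivity
  have d1 : ∀ x : ℝ, x + c ≠ 0 → HasDerivAt (fun x => Real.log (x + c)) (x + c)⁻¹ x :=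
    fun x hx => by simpa using ((hasDerivAt_id x).add_const c).log hx
  have := lv_comp (z := z) (alg2_smooth l) (f := fun x => Real.log (x + c))
    (f' := fun x => (x + c)⁻¹) (f'' := -1 / (‖l z‖ ^ 2 + c) ^ 2)
    (((continuous_id.add continuous_const).continuousAt.eventually_ne p.ne').mono d1)
    (((hasDerivAt_id _).add_const c).inv p.ne')
    ((contDiffAt_id.add contDiffAt_const).log p.ne') v
  rw [this, lv_norm_sq, (alg2_nsq l z v).1, (alg2_nsq l z _).1, map_smul, alg2_inner, alg2_inner]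
  have e : (2 * ((l z).re * (l v).re + (l z).im * (l v).im)) ^ 2 +
      (2 * ((l z).re * (I • l v).re + (l z).im * (I • l v).im)) ^ 2 =
      4 * ‖l z‖ ^ 2 * ‖l v‖ ^ 2 := by
    rw [Complex.sq_norm, Complex.sq_norm, normSq_apply, normSq_apply, smul_eq_mul, I_mul_re,
      I_mul_im]
    ring
  rw [e]
  field_simp
  ring

theorem diff_of_db {φ : Z → Cn N} (he : Submodule.span ℂ (range e) = ⊤)
    (h : DifferentiableAt ℝ φ z) (h0 : ∀ j, db e φ z j = 0) : DifferentiableAt ℂ φ z := by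
  have k : ∀ v, fderiv ℝ φ z (I • v) = I • fderiv ℝ φ z v := by
    intro v
    have hv : v ∈ Submodule.span ℂ (range e) := he ▸ Submodule.mem_top
    induction hv using Submodule.span_induction with
    | mem x hx =>
      obtain ⟨j, rfl⟩ := hx
      have := congrArg (I • ·) (h0 j)
      simp only [db, smul_add, smul_smul, I_mul_I, neg_smul, one_smul, smul_zero] at this
      exact (add_neg_eq_zero.1 this).symm
    | zero => simp
    | add x y _ _ hx hy => simp only [smul_add, map_add, hx, hy]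
    | smul c x _ hx =>
      rw [alg2_smul c x, smul_add, smul_comm I, smul_comm I, smul_smul I I, I_mul_I]
      simp only [map_add, map_smul, hx, neg_smul, one_smul, map_neg, smul_add]
      rw [smul_comm I c.re, smul_comm I c.im, smul_smul I I, I_mul_I, neg_one_smul]
  let g : Z →L[ℂ] Cn N :=
    { toFun := fderiv ℝ φ z
      map_add' := map_add _
      map_smul' := fun c x => by
        rw [alg2_smul c x, map_add, map_smul, map_smul, k, RingHom.id_apply, ← smul_eq]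
      cont := (fderiv ℝ φ z).continuous }
  exact (hasFDerivAt_of_restrictScalars ℝ (g' := fderiv ℝ φ z) (f' := g) h.hasFDerivAt
    (by ext; rfl)).differentiableAt

theorem db_holo {φ : Z → Cn N} (h : DifferentiableAt ℂ φ z) (j : J) : db e φ z j = 0 := by
  simp only [db, h.fderiv_restrictScalars ℝ, ContinuousLinearMap.coe_restrictScalars', map_smul,
    smul_smul, I_mul_I, neg_smul, one_smul, add_neg_cancel]

end Pool.Agent.Lib.MP_124863_gt.Ok
end

-- part Pool.Agent.Lib.MP_124863_gt.OkBK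
section

/-! The Bochner-Kodaira inequality. -/

set_option linter.unusedSectionVars false

open Filter Topology Set Metric Complex MeasureTheory
open scoped Real ENNReal

namespace Pool.Agent.Lib.MP_124863_gt.Ok

open Ec

section

variable {Z : Type} [NormedAddCommGroup Z] [NormedSpace ℝ Z] {N : ℕ} {W : Z → Bil N} {z x : Z}
  {F : Type} [NormedAddCommGroup F] [NormedSpace ℝ F] {ι : Type} [Fintype ι]

/-- The derivative of `f` at `z` in the direction `x` is `y`. -/
def BkD (f : Z → F) (z x : Z) (y : F) : Prop := DifferentiableAt ℝ f z ∧ fderiv ℝ f z x = y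

theorem BkD.add {f g : Z → F} {y y' : F} (h : BkD f z x y) (h' : BkD g z x y') :
    BkD (fun w => f w + g w) z x (y + y') :=
  ⟨h.1.add h'.1, by rw [fderiv_fun_add h.1 h'.1, ← h.2, ← h'.2]; rfl⟩

theorem BkD.sub {f g : Z → F} {y y' : F} (h : BkD f z x y) (h' : BkD g z x y') :
    BkD (fun w => f w - g w) z x (y - y') :=
  ⟨h.1.sub h'.1, by rw [fderiv_fun_sub h.1 h'.1, ← h.2, ← h'.2]; rfl⟩

theorem BkD.sum {f : ι → Z → F} {y : ι → F} (h : ∀ i, BkD (f i) z x (y i)) :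
    BkD (fun w => ∑ i, f i w) z x (∑ i, y i) :=
  ⟨DifferentiableAt.fun_sum fun i _ => (h i).1, by
    rw [fderiv_fun_sum fun i _ => (h i).1, sum_apply]
    exact Finset.sum_congr rfl fun i _ => (h i).2⟩

theorem BkD.app {F' : Type} [NormedAddCommGroup F'] [NormedSpace ℝ F'] {c : Z → F →L[ℝ] F'}
    {u : Z → F} {c' : F →L[ℝ] F'} {u' : F} (h : BkD c z x c') (h' : BkD u z x u') :
    BkD (fun w => c w (u w)) z x (c' (u z) + c z u') :=
  ⟨h.1.clm_apply h'.1, by
    rw [fderiv_clm_apply h.1 h'.1, ← h.2, ← h'.2, add_comm]; rfl⟩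

theorem BkD.one {f : Z → F} (h : ContDiff ℝ 2 f) (z x : Z) : BkD f z x (fderiv ℝ f z x) :=
  ⟨h.differentiable (by simp) z, rfl⟩

theorem BkD.two {f : Z → F} (h : ContDiff ℝ 2 f) (z x v : Z) :
    BkD (fun w => fderiv ℝ f w v) z x (fderiv ℝ (fderiv ℝ f) z x v) := by
  have := BkD.app (c := fderiv ℝ f) (u := fun _ => v) (z := z) (x := x)
    ⟨(two_diff h.contDiffAt).2, rfl⟩ ⟨differentiableAt_const v, rfl⟩
  simpa using this

/-- The vector field whose divergence appears in the formula. -/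
noncomputable def bkX (W : Z → Bil N) (A : ι → Z → Cn N) (E : ι → Z) (a : ι) (w : Z) : ℝ :=
  W w (A a w) (∑ b, fderiv ℝ (A b) w (E b)) - ∑ b, W w (A b w) (fderiv ℝ (A a) w (E b)) +
    ∑ b, fderiv ℝ W w (E b) (A a w) (A b w)

theorem bk_smooth (hW : ContDiff ℝ 2 W) {A : ι → Z → Cn N} (hA : ∀ a, ContDiff ℝ 2 (A a))
    (E : ι → Z) (a : ι) : ContDiff ℝ 1 (bkX W A E a) := by
  have h1 : ContDiff ℝ 1 W := hW.of_le (by norm_num)
  have h2 : ∀ a, ContDiff ℝ 1 (A a) := fun a => (hA a).of_le (by norm_num)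
  have h3 : ∀ v, ContDiff ℝ 1 fun w => fderiv ℝ W w v := fun v =>
    (hW.fderiv_right (m := 1) (by norm_num)).clm_apply contDiff_const
  have h4 : ∀ a v, ContDiff ℝ 1 fun w => fderiv ℝ (A a) w v := fun a v =>
    ((hA a).fderiv_right (m := 1) (by norm_num)).clm_apply contDiff_const
  exact (((h1.clm_apply (h2 a)).clm_apply (ContDiff.sum fun b _ => h4 b _)).sub
    (ContDiff.sum fun b _ => (h1.clm_apply (h2 b)).clm_apply (h4 a _))).add
    (ContDiff.sum fun b _ => ((h3 _).clm_apply (h2 a)).clm_apply (h2 b))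

theorem bk_div (hW : ContDiff ℝ 2 W) (hs : ∀ z u v, W z u v = W z v u) {A : ι → Z → Cn N}
    (hA : ∀ a, ContDiff ℝ 2 (A a)) (E : ι → Z) (z : Z) :
    ∑ a, fderiv ℝ (bkX W A E a) z (E a) =
      W z (∑ b, fderiv ℝ (A b) z (E b)) (∑ b, fderiv ℝ (A b) z (E b)) +
      2 * ∑ a, fderiv ℝ W z (E a) (A a z) (∑ b, fderiv ℝ (A b) z (E b)) +
      ∑ a, ∑ b, fderiv ℝ (fderiv ℝ W) z (E a) (E b) (A a z) (A b z) -
      ∑ a, ∑ b, W z (fderiv ℝ (A a) z (E b)) (fderiv ℝ (A b) z (E a)) := by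
  have hs' : ∀ x u v, fderiv ℝ W z x u v = fderiv ℝ W z x v u := by
    intro x u v
    have k : ∀ u v : Cn N, fderiv ℝ (fun w => W w u v) z x = fderiv ℝ W z x u v := fun u v => by
      simpa using (((BkD.one hW z x).app (u := fun _ => u) ⟨differentiableAt_const u, rfl⟩).app
        (u := fun _ => v) ⟨differentiableAt_const v, rfl⟩).2
    rw [← k, ← k]
    simp only [hs _ u v]
  have k := fun a => (((((BkD.one hW z (E a)).app (BkD.one (hA a) z (E a))).app
    (BkD.sum fun b => BkD.two (hA b) z (E a) (E b))).sub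
    (BkD.sum fun b => ((BkD.one hW z (E a)).app (BkD.one (hA b) z (E a))).app
      (BkD.two (hA a) z (E a) (E b)))).add
    (BkD.sum fun b => ((BkD.two hW z (E a) (E b)).app (BkD.one (hA a) z (E a))).app
      (BkD.one (hA b) z (E a)))).2
  have k' : ∑ a, fderiv ℝ (bkX W A E a) z (E a) = _ := Finset.sum_congr rfl fun a _ => k a
  rw [k']
  have e1 : ∑ a, ∑ b, W z (A b z) (fderiv ℝ (fderiv ℝ (A a)) z (E a) (E b)) =
      ∑ a, ∑ b, W z (A a z) (fderiv ℝ (fderiv ℝ (A b)) z (E a) (E b)) := by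
    rw [Finset.sum_comm]
    refine Finset.sum_congr rfl fun a _ => Finset.sum_congr rfl fun b _ => ?_
    rw [(hA b).contDiffAt.isSymmSndFDerivAt (by simp) (E a) (E b)]
  have e2 : ∑ a, ∑ b, fderiv ℝ W z (E a) (A b z) (fderiv ℝ (A a) z (E b)) =
      ∑ a, ∑ b, fderiv ℝ W z (E b) (A a z) (fderiv ℝ (A b) z (E a)) := Finset.sum_comm
  have e3 : ∑ a, ∑ b, W z (fderiv ℝ (A b) z (E a)) (fderiv ℝ (A a) z (E b)) =
      ∑ a, ∑ b, W z (fderiv ℝ (A a) z (E b)) (fderiv ℝ (A b) z (E a)) := Finset.sum_comm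
  have e4 : ∑ a, ∑ b, fderiv ℝ W z (E b) (fderiv ℝ (A a) z (E a)) (A b z) =
      ∑ a, ∑ b, fderiv ℝ W z (E a) (A a z) (fderiv ℝ (A b) z (E b)) := by
    rw [Finset.sum_comm]
    exact Finset.sum_congr rfl fun a _ => Finset.sum_congr rfl fun b _ => hs' _ _ _
  have e5 : W z (∑ b, fderiv ℝ (A b) z (E b)) (∑ b, fderiv ℝ (A b) z (E b)) =
      ∑ a, ∑ b, W z (fderiv ℝ (A a) z (E a)) (fderiv ℝ (A b) z (E b)) := by
    rw [map_sum (W z), sum_apply]
    exact Finset.sum_congr rfl fun a _ => map_sum _ _ _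
  rw [e5]
  simp only [add_apply, map_sum, Finset.sum_add_distrib,
    Finset.sum_sub_distrib]
  rw [e1, e2, e3, e4]
  ring

end

variable {Z : Type} [NormedAddCommGroup Z] [NormedSpace ℝ Z] [NormedSpace ℂ Z] [IsScalarTower ℝ ℂ Z]
  [FiniteDimensional ℝ Z] [MeasurableSpace Z] [BorelSpace Z] {μ : Measure Z} [μ.IsAddHaarMeasure]
  {J : Type} [Fintype J] {N : ℕ} {e : J → Z} {W : Z → Bil N}

theorem bk_curl {H : Bil N} (hH : IsH H) (h0 : ∀ v, 0 ≤ H v v) (p q : J → J → Cn N) :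
    0 ≤ ∑ a : J × Bool, ∑ b : J × Bool,
        H (aa (fun k => bif b.2 then q k b.1 else p k b.1) a)
          (aa (fun k => bif a.2 then q k a.1 else p k a.1) b) +
      2⁻¹ * ∑ j, ∑ k, H (p k j + I • q k j - (p j k + I • q j k))
        (p k j + I • q k j - (p j k + I • q j k)) := by
  have e1 : ∑ a : J × Bool, ∑ b : J × Bool,
      H (aa (fun k => bif b.2 then q k b.1 else p k b.1) a)
        (aa (fun k => bif a.2 then q k a.1 else p k a.1) b) =
      ∑ k, ∑ j, H (p k j + I • q k j) (p j k + I • q j k) := by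
    rw [Fintype.sum_prod_type]
    refine Finset.sum_congr rfl fun k _ => ?_
    simp only [Fintype.sum_bool, Fintype.sum_prod_type, ← Finset.sum_add_distrib]
    refine Finset.sum_congr rfl fun j _ => ?_
    simp only [aa, cond_true, cond_false, map_neg, map_add, neg_apply,
      add_apply, hH.inv, hH.skew (p k j), hH.skew (q k j) (p j k)]
    ring
  rw [e1]
  generalize hx : (fun k j => p k j + I • q k j) = x
  have hx' : ∀ k j, p k j + I • q k j = x k j := fun k j => by rw [← hx]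
  simp only [hx', map_sub, sub_apply, Finset.sum_sub_distrib]
  have e2 : ∑ j, ∑ k, H (x k j) (x k j) = ∑ j, ∑ k, H (x j k) (x j k) := Finset.sum_comm
  have e3 : ∑ j, ∑ k, H (x k j) (x j k) = ∑ j, ∑ k, H (x j k) (x k j) := Finset.sum_comm
  have e4 : 0 ≤ ∑ j, ∑ k, H (x j k) (x j k) :=
    Finset.sum_nonneg fun j _ => Finset.sum_nonneg fun k _ => h0 _
  rw [e2, e3]
  linarith

theorem bk (hW : ContDiff ℝ 2 W) (hH : ∀ z, IsH (W z)) (hp : ∀ z v, v ≠ 0 → 0 < W z v v)
    {α : J → Z → Cn N} (hα : ∀ j, ContDiff ℝ 2 (α j)) (hα' : ∀ j, HasCompactSupport (α j)) :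
    0 ≤ ∫ z, (W z (tau e W α z) (tau e W α z) +
      2⁻¹ * ∑ j, ∑ k, W z (db e (α k) z j - db e (α j) z k) (db e (α k) z j - db e (α j) z k) -
      nk e W z (fun j => α j z) (cn e W z fun j => α j z)) ∂μ := by
  have hA : ∀ a, ContDiff ℝ 2 fun w => aa (fun j => α j w) a := by
    rintro ⟨j, _ | _⟩
    · exact hα j
    · exact ((hα j).const_smul I).neg
  have hD : ∀ a z v, fderiv ℝ (fun w => aa (fun j => α j w) a) z v =
      aa (fun j => fderiv ℝ (α j) z v) a := by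
    rintro ⟨j, _ | _⟩ z v
    · rfl
    · exact congrArg (· v)
        ((((hα j).differentiable (by simp) z).hasFDerivAt.const_smul I).neg).fderiv
  have s1 := bk_smooth hW hA (ee e)
  have s2 : ∀ a, HasCompactSupport (bkX W (fun a w => aa (fun j => α j w) a) (ee e) a) := by
    intro a
    refine HasCompactSupport.intro (isCompact_iUnion fun j => (hα' j).isCompact) fun w hw => ?_
    have h0 : ∀ b, aa (fun j => α j w) b = 0 := by
      have h1 : ∀ j, α j w = 0 := fun j =>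
        image_eq_zero_of_notMem_tsupport fun h => hw (mem_iUnion.2 ⟨j, h⟩)
      rintro ⟨j, _ | _⟩ <;> simp [aa, h1]
    simp [bkX, h0]
  have s3 : ∀ a, Integrable (fun z =>
      fderiv ℝ (bkX W (fun a w => aa (fun j => α j w) a) (ee e) a) z (ee e a)) μ := fun a =>
    (((s1 a).continuous_fderiv one_ne_zero).clm_apply continuous_const).integrable_of_hasCompactSupport
      ((s2 a).fderiv_apply ℝ _)
  have s4 : ∫ z, ∑ a, fderiv ℝ (bkX W (fun a w => aa (fun j => α j w) a) (ee e) a) z (ee e a) ∂μ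
      = 0 := by
    rw [integral_finsetSum _ fun a _ => s3 a]
    exact Finset.sum_eq_zero fun a _ => int_deriv (s1 a) (s2 a) _
  by_cases hI : Integrable (fun z => W z (tau e W α z) (tau e W α z) +
      2⁻¹ * ∑ j, ∑ k, W z (db e (α k) z j - db e (α j) z k) (db e (α k) z j - db e (α j) z k) -
      nk e W z (fun j => α j z) (cn e W z fun j => α j z)) μ
  swap
  · rw [integral_undef hI]
  rw [← s4]
  refine integral_mono (integrable_finsetSum _ fun a _ => s3 a) hI fun z => ?_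
  have h0 : ∀ v, 0 ≤ W z v v := fun v => by
    by_cases hv : v = 0
    · simp [hv]
    · exact (hp z v hv).le
  have c1 := bk_curl (hH z) h0 (fun k j => fderiv ℝ (α k) z (e j))
    fun k j => fderiv ℝ (α k) z (I • e j)
  have c2 : ∀ (b : J × Bool), (fun k => bif b.2 then fderiv ℝ (α k) z (I • e b.1)
      else fderiv ℝ (α k) z (e b.1)) = fun k => fderiv ℝ (α k) z (ee e b) := by
    rintro ⟨j, _ | _⟩ <;> rfl
  simp only [c2] at c1
  have c3 := cn_spec (e := e) (α := fun j => α j z) (hp z)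
  simp only [bk_div hW (fun z => (hH z).symm) hA, hD]
  change W z (dg e α z) (dg e α z) + 2 * ∑ a, fderiv ℝ W z (ee e a) _ (dg e α z) + _ - _ ≤ _
  simp only [tau, nk, db, map_add (W z) (dg e α z), map_add (W z _) (dg e α z),
    add_apply, ← c3, (hH z).symm (dg e α z) (cn e W z _)]
  linarith

end Pool.Agent.Lib.MP_124863_gt.Ok
end
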