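import Pool.Agent.Lib.MP_124863_gt.OkBK

-- part Pool.Agent.Lib.MP_124863_gt.OkE1b
section

/-! Elementary integral estimates for the extension theorem. -/

open Filter Topology Set Metric Complex MeasureTheory
open scoped Real ENNReal

namespace Pool.Agent.Lib.MP_124863_gt.Ok

open Ec

theorem e1b_int : Integrable (fun w : ℂ => 1 / (‖w‖ ^ 2 + 1) ^ 2) := by
  have h := integrable_rpow_neg_one_add_norm_sq (E := ℂ) (μ := volume) (r := 4)
    (by rw [Complex.finrank_real_complex]; norm_num)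
  refine h.congr (Eventually.of_forall fun w => ?_)
  have h1 : (0 : ℝ) < 1 + ‖w‖ ^ 2 := by positivity
  have h2 : (-4 / 2 : ℝ) = -((2 : ℕ) : ℝ) := by norm_num
  simp only
  rw [h2, Real.rpow_neg h1.le, Real.rpow_natCast, add_comm, one_div]

theorem e1b_scale {ε : ℝ} (hε : 0 < ε) (w : ℂ) : ε ^ 2 / (‖w‖ ^ 2 + ε ^ 2) ^ 2 =
    (ε ^ 2)⁻¹ * (1 / (‖ε⁻¹ • w‖ ^ 2 + 1) ^ 2) := by
  rw [norm_smul, Real.norm_eq_abs, abs_of_pos (inv_pos.2 hε)]
  have h1 : (0 : ℝ) < ‖w‖ ^ 2 + ε ^ 2 := by positivity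
  field_simp

theorem e1b_int_th {ε : ℝ} (hε : 0 < ε) :
    Integrable (fun w : ℂ => ε ^ 2 / (‖w‖ ^ 2 + ε ^ 2) ^ 2) := by
  have h := (e1b_int.comp_smul (inv_ne_zero hε.ne')).const_mul (ε ^ 2)⁻¹
  exact h.congr (Eventually.of_forall fun w => (e1b_scale hε w).symm)

theorem e1b_val {ε : ℝ} (hε : 0 < ε) : ∫ w : ℂ, ε ^ 2 / (‖w‖ ^ 2 + ε ^ 2) ^ 2 =
    ∫ w : ℂ, 1 / (‖w‖ ^ 2 + 1) ^ 2 := by
  have h := Measure.integral_comp_inv_smul (volume : Measure ℂ)
    (fun w : ℂ => 1 / (‖w‖ ^ 2 + 1) ^ 2) ε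
  simp_rw [e1b_scale hε]
  rw [integral_const_mul, h, Complex.finrank_real_complex, abs_of_pos (pow_pos hε 2), smul_eq_mul,
    ← mul_assoc, inv_mul_cancel₀ (pow_pos hε 2).ne', one_mul]

theorem e1b_small (C : ℝ) : ∀ᶠ ε : ℝ in 𝓝[>] 0, ε ^ 2 * C ≤ 1 / 2 := by
  have h : Tendsto (fun ε : ℝ => ε ^ 2 * C) (𝓝 0) (𝓝 (0 ^ 2 * C)) :=
    ((continuous_pow 2).mul continuous_const).tendsto 0
  have h2 : (0 : ℝ) ^ 2 * C < 1 / 2 := by norm_num
  exact (h.eventually_le_const h2).filter_mono nhdsWithin_le_nhds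

variable {E : Type} [NormedAddCommGroup E] [NormedSpace ℝ E] [FiniteDimensional ℝ E]
  [MeasurableSpace E] [BorelSpace E] (μ : Measure E) [μ.IsAddHaarMeasure]

theorem main_term : ∃ c : ℝ, 0 < c ∧ ∀ (K : Set (E × ℂ)) (L : Set E) (Θ : E × ℂ → ℝ), IsCompact K →
    IsCompact L → (∀ z ∈ K, z.1 ∈ L) → ContinuousOn Θ (K ∪ L ×ˢ {0}) →
    (∀ z ∈ K ∪ L ×ˢ {0}, 0 ≤ Θ z) → ∫ b in L, Θ (b, 0) ∂μ ≤ 1 → ∀ᶠ ε : ℝ in 𝓝[>] 0,
      ∫ z in K, ε ^ 2 / (‖z.2‖ ^ 2 + ε ^ 2) ^ 2 * Θ z ∂μ.prod volume ≤ c := by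
  obtain ⟨c0, hc0⟩ : ∃ c0 : ℝ, c0 = ∫ w : ℂ, 1 / (‖w‖ ^ 2 + 1) ^ 2 := ⟨_, rfl⟩
  have hc : 0 ≤ c0 := hc0 ▸ integral_nonneg fun w => by positivity
  refine ⟨c0 + 1, by linarith, fun K L Θ hK hL hKL hΘ h0 h1 => ?_⟩
  have hS : IsCompact (K ∪ L ×ˢ ({0} : Set ℂ)) := hK.union (hL.prod isCompact_singleton)
  obtain ⟨M, hM⟩ := hS.exists_bound_of_continuousOn hΘ
  have hm : 0 ≤ μ.real L := measureReal_nonneg
  obtain ⟨η, hη, hη2⟩ : ∃ η : ℝ, 0 < η ∧ η * μ.real L * c0 ≤ 1 / 2 := by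
    refine ⟨1 / (2 * (μ.real L * c0 + 1)), by positivity, ?_⟩
    have h3 : 0 ≤ μ.real L * c0 := by positivity
    rw [mul_assoc, div_mul_eq_mul_div, div_le_div_iff₀ (by positivity) (by norm_num)]
    linarith
  obtain ⟨r, hr, hu⟩ := Metric.uniformContinuousOn_iff.1
    (hS.uniformContinuousOn_of_continuous hΘ) η hη
  have hLΘ : ContinuousOn (fun b => Θ (b, 0)) L :=
    hΘ.comp (by fun_prop) fun b hb => Or.inr ⟨hb, rfl⟩
  have hLi : IntegrableOn (fun b => Θ (b, 0) + η) L μ :=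
    (hLΘ.add continuousOn_const).integrableOn_compact hL
  filter_upwards [self_mem_nhdsWithin, e1b_small (|M| / r ^ 4 * (μ.prod volume).real K)]
    with ε hε hsm
  have hε : 0 < ε := hε
  have hth : Continuous fun z : E × ℂ => ε ^ 2 / (‖z.2‖ ^ 2 + ε ^ 2) ^ 2 :=
    continuous_const.div (by fun_prop) fun z => by positivity
  have hG : IntegrableOn (fun z : E × ℂ => (Θ (z.1, 0) + η) * (ε ^ 2 / (‖z.2‖ ^ 2 + ε ^ 2) ^ 2))
      (L ×ˢ univ) (μ.prod volume) := by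
    have := Integrable.mul_prod hLi (e1b_int_th hε)
    rwa [Measure.restrict_prod_eq_prod_univ] at this
  have hsub : K ⊆ L ×ˢ univ := fun z hz => ⟨hKL z hz, trivial⟩
  have hKf : (μ.prod volume) K ≠ ∞ := hK.measure_lt_top.ne
  have hA : ∫ z in K, ε ^ 2 / (‖z.2‖ ^ 2 + ε ^ 2) ^ 2 * Θ z ∂μ.prod volume ≤
      ∫ z in K, ((Θ (z.1, 0) + η) * (ε ^ 2 / (‖z.2‖ ^ 2 + ε ^ 2) ^ 2) + ε ^ 2 * (|M| / r ^ 4))
        ∂μ.prod volume := by
    refine setIntegral_mono_on
      ((hth.continuousOn.mul (hΘ.mono subset_union_left)).integrableOn_compact hK)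
      ((hG.mono_set hsub).add (integrableOn_const hKf)) hK.measurableSet fun z hz => ?_
    have hz0 : ((z.1, 0) : E × ℂ) ∈ K ∪ L ×ˢ ({0} : Set ℂ) := Or.inr ⟨hKL z hz, rfl⟩
    have hp : 0 ≤ ε ^ 2 / (‖z.2‖ ^ 2 + ε ^ 2) ^ 2 := by positivity
    have hq : 0 ≤ ε ^ 2 * (|M| / r ^ 4) := by positivity
    have hz1 := h0 _ hz0
    rcases lt_or_ge ‖z.2‖ r with h | h
    · have hd : dist z (z.1, 0) < r := by
        rw [Prod.dist_eq]
        simpa [hr] using h
      have h3 := hu z (Or.inl hz) _ hz0 hd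
      rw [Real.dist_eq, abs_lt] at h3
      have h4 : Θ z ≤ Θ (z.1, 0) + η := by linarith [h3.2]
      nlinarith [mul_le_mul_of_nonneg_left h4 hp]
    · have h3 : Θ z ≤ |M| := (le_abs_self _).trans ((hM z (Or.inl hz)).trans (le_abs_self _))
      have h4 : r ^ 4 ≤ (‖z.2‖ ^ 2 + ε ^ 2) ^ 2 := by
        have h5 : r ^ 2 ≤ ‖z.2‖ ^ 2 + ε ^ 2 := by
          have := pow_le_pow_left₀ hr.le h 2
          nlinarith [sq_nonneg ε]
        calc r ^ 4 = (r ^ 2) ^ 2 := by ring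
          _ ≤ _ := pow_le_pow_left₀ (by positivity) h5 2
      have h5 : ε ^ 2 / (‖z.2‖ ^ 2 + ε ^ 2) ^ 2 ≤ ε ^ 2 / r ^ 4 :=
        div_le_div_of_nonneg_left (by positivity) (by positivity) h4
      have h6 : ε ^ 2 / (‖z.2‖ ^ 2 + ε ^ 2) ^ 2 * Θ z ≤ ε ^ 2 / r ^ 4 * |M| :=
        mul_le_mul h5 h3 (h0 z (Or.inl hz)) (by positivity)
      have h7 : ε ^ 2 / r ^ 4 * |M| = ε ^ 2 * (|M| / r ^ 4) := by ring
      have h8 : 0 ≤ (Θ (z.1, 0) + η) * (ε ^ 2 / (‖z.2‖ ^ 2 + ε ^ 2) ^ 2) := by positivity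
      linarith
  have hB : ∫ z in K, (Θ (z.1, 0) + η) * (ε ^ 2 / (‖z.2‖ ^ 2 + ε ^ 2) ^ 2) ∂μ.prod volume ≤
      ∫ z in L ×ˢ (univ : Set ℂ), (Θ (z.1, 0) + η) * (ε ^ 2 / (‖z.2‖ ^ 2 + ε ^ 2) ^ 2)
        ∂μ.prod volume := by
    refine setIntegral_mono_set hG ?_ hsub.eventuallyLE
    refine ae_restrict_of_forall_mem (hL.measurableSet.prod MeasurableSet.univ) fun z hz => ?_
    have hz1 := h0 (z.1, 0) (Or.inr ⟨hz.1, rfl⟩)
    simp only [Pi.zero_apply]
    positivity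
  have hC : ∫ z in L ×ˢ (univ : Set ℂ), (Θ (z.1, 0) + η) * (ε ^ 2 / (‖z.2‖ ^ 2 + ε ^ 2) ^ 2)
      ∂μ.prod volume = (∫ b in L, Θ (b, 0) ∂μ + η * μ.real L) * c0 := by
    rw [setIntegral_prod_mul (fun b : E => Θ (b, 0) + η)
      (fun w : ℂ => ε ^ 2 / (‖w‖ ^ 2 + ε ^ 2) ^ 2), Measure.restrict_univ, e1b_val hε, ← hc0,
      integral_add (hLΘ.integrableOn_compact hL) (integrableOn_const hL.measure_lt_top.ne),
      setIntegral_const, smul_eq_mul, mul_comm η]
  rw [integral_add (hG.mono_set hsub) (integrableOn_const hKf), setIntegral_const,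
    smul_eq_mul] at hA
  have h9 : (∫ b in L, Θ (b, 0) ∂μ) * c0 ≤ 1 * c0 := mul_le_mul_of_nonneg_right h1 hc
  nlinarith

theorem small_term {K : Set (E × ℂ)} (hK : IsCompact K) {Θ : E × ℂ → ℝ} (hΘ : ContinuousOn Θ K) :
    ∀ᶠ ε : ℝ in 𝓝[>] 0, ∫⁻ z in K,
      ENNReal.ofReal ((ε ^ 2 / (‖z.2‖ ^ 2 + ε ^ 2)) ^ 2 * Θ z / ‖z.2‖) ∂μ.prod volume ≤ 1 := by
  obtain ⟨M, hM⟩ := hK.exists_bound_of_continuousOn hΘ
  obtain ⟨R, hR⟩ := hK.isBounded.subset_ball 0
  have hsub : K ⊆ closedBall (0 : E) R ×ˢ ball (0 : ℂ) R := fun z hz => by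
    have h := hR hz
    rw [mem_ball_zero_iff] at h
    exact ⟨mem_closedBall_zero_iff.2 ((norm_fst_le z).trans h.le),
      mem_ball_zero_iff.2 ((norm_snd_le z).trans_lt h)⟩
  have hI : IntegrableOn (fun w : ℂ => |M| / ‖w‖) (ball 0 R) := by
    refine integrableOn_ball_of_norm_le_rpow (C := |M|) (α := 1)
      (by rw [Complex.finrank_real_complex]; norm_num)
      (by rw [Complex.finrank_real_complex]; norm_num) (Eventually.of_forall fun w => ?_)
      (Measurable.aestronglyMeasurable (by fun_prop))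
    rw [Real.rpow_neg_one, Real.norm_eq_abs, abs_of_nonneg (by positivity), div_eq_mul_inv]
  have hJ : IntegrableOn (fun z : E × ℂ => |M| / ‖z.2‖) K (μ.prod volume) := by
    have h1 : IntegrableOn (fun _ : E => (1 : ℝ)) (closedBall 0 R) μ :=
      integrableOn_const (isCompact_closedBall _ _).measure_lt_top.ne
    have h2 := Integrable.mul_prod h1 hI
    rw [Measure.prod_restrict] at h2
    simp only [one_mul] at h2
    exact IntegrableOn.mono_set h2 hsub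
  have hT : Tendsto (fun ε : ℝ => ∫⁻ z in K,
      ENNReal.ofReal ((ε ^ 2 / (‖z.2‖ ^ 2 + ε ^ 2)) ^ 2 * |M| / ‖z.2‖) ∂μ.prod volume) (𝓝[>] 0)
      (𝓝 (∫⁻ _ in K, 0 ∂μ.prod volume)) := by
    refine tendsto_lintegral_filter_of_dominated_convergence
      (fun z => ENNReal.ofReal (|M| / ‖z.2‖)) (Eventually.of_forall fun ε => by fun_prop) ?_
      hJ.lintegral_lt_top.ne (Eventually.of_forall fun z => ?_)
    · filter_upwards [self_mem_nhdsWithin] with ε hε
      have hε : 0 < ε := hε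
      refine Eventually.of_forall fun z => ENNReal.ofReal_le_ofReal ?_
      refine div_le_div_of_nonneg_right ?_ (norm_nonneg _)
      have h1 : ε ^ 2 / (‖z.2‖ ^ 2 + ε ^ 2) ≤ 1 :=
        (div_le_one (by positivity)).2 (le_add_of_nonneg_left (by positivity))
      have h2 : (ε ^ 2 / (‖z.2‖ ^ 2 + ε ^ 2)) ^ 2 ≤ 1 := pow_le_one₀ (by positivity) h1
      exact mul_le_of_le_one_left (abs_nonneg _) h2
    · rcases eq_or_ne z.2 0 with h | h
      · simp [h]
      · have h1 : (0 : ℝ) < ‖z.2‖ := norm_pos_iff.2 h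
        have h2 : ContinuousAt
            (fun ε : ℝ => (ε ^ 2 / (‖z.2‖ ^ 2 + ε ^ 2)) ^ 2 * |M| / ‖z.2‖) 0 := by
          refine ContinuousAt.div_const (ContinuousAt.mul (ContinuousAt.pow ?_ 2)
            continuousAt_const) _
          exact ContinuousAt.div (by fun_prop) (by fun_prop) (by positivity)
        have h3 := ENNReal.tendsto_ofReal (h2.tendsto.mono_left (nhdsWithin_le_nhds (s := Ioi 0)))
        simpa using h3
  rw [lintegral_zero] at hT
  filter_upwards [hT.eventually_le_const zero_lt_one] with ε hε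
  refine le_trans (setLIntegral_mono' hK.measurableSet fun z hz => ?_) hε
  refine ENNReal.ofReal_le_ofReal (div_le_div_of_nonneg_right ?_ (norm_nonneg _))
  exact mul_le_mul_of_nonneg_left
    ((le_abs_self _).trans ((hM z hz).trans (le_abs_self _))) (by positivity)

end Pool.Agent.Lib.MP_124863_gt.Ok
end

-- part Pool.Agent.Lib.MP_124863_gt.OkE1
section

/-! The twisting functions and elementary integral estimates. -/

open Filter Topology Set Metric Complex MeasureTheory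
open scoped Real ENNReal

namespace Pool.Agent.Lib.MP_124863_gt.Ok

open Ec

/-- The logarithmic derivative of `t + √t`. -/
noncomputable def mm (t : ℝ) : ℝ := (1 + 1 / (2 * √t)) / (t + √t)

/-- The weight in the twisted estimate. -/
noncomputable def om (t : ℝ) : ℝ := 1 / (√t * (4 * t + 5 * √t + 2))

theorem mm_pos {t : ℝ} (ht : 0 < t) : 0 < mm t := by
  have := Real.sqrt_pos.mpr ht
  unfold mm
  positivity

theorem mm_le {t : ℝ} (ht : 1 ≤ t) : mm t ≤ 1 := by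
  have h1 : 1 ≤ √t := Real.one_le_sqrt.mpr ht
  have h2 : 1 / (2 * √t) ≤ 1 := by
    rw [div_le_one (by positivity)]
    linarith
  unfold mm
  rw [div_le_one (by positivity)]
  linarith

theorem one_le_mm {t : ℝ} (ht : 0 < t) : 1 ≤ mm t * (t + √t) := by
  have h1 := Real.sqrt_pos.mpr ht
  have h2 : 0 ≤ 1 / (2 * √t) := by positivity
  unfold mm
  rw [div_mul_cancel₀ _ (by positivity)]
  linarith

theorem mm_cont : ContinuousOn mm (Ioi 0) := by
  have h1 : ∀ t ∈ Ioi (0 : ℝ), 0 < √t := fun t ht => Real.sqrt_pos.mpr ht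
  refine ContinuousOn.div (continuousOn_const.add (ContinuousOn.div continuousOn_const
    (by fun_prop) fun t ht => ?_)) (by fun_prop) fun t ht => ?_
  · have := h1 t ht
    positivity
  · have := h1 t ht
    have h2 : 0 < t := ht
    positivity

theorem om_cont : ContinuousOn om (Ioi 0) := by
  refine ContinuousOn.div continuousOn_const (by fun_prop) fun t ht => ?_
  have h2 : 0 < t := ht
  have := Real.sqrt_pos.mpr h2
  positivity

theorem om_pos {t : ℝ} (ht : 0 < t) : 0 < om t := by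
  have := Real.sqrt_pos.mpr ht
  unfold om
  positivity

theorem om_le {t : ℝ} (ht : 0 < t) : om t * (t + √t) ≤ 1 := by
  have h1 := Real.sqrt_pos.mpr ht
  have h2 := Real.mul_self_sqrt ht.le
  unfold om
  rw [div_mul_eq_mul_div, one_mul, div_le_one (by positivity)]
  nlinarith [mul_pos h1 ht]

theorem wt1 {x s t R : ℝ} (hx : 0 < x) (hs : 0 < s) (ht : 0 < t) (h : t ≤ 3 * s)
    (hR : x ≤ R * Real.exp (-s)) :
    x ^ 2 / (x * √s) ≤ 30 * (R * (1 + R ^ 2)) * (om t / (1 + x ^ 2)) := by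
  have h1 := Real.sqrt_pos.mpr ht
  have h2 := Real.sqrt_pos.mpr hs
  have h3 := Real.mul_self_sqrt ht.le
  have h4 := Real.mul_self_sqrt hs.le
  have he := Real.exp_pos (-s)
  have hR0 : 0 < R := by
    by_contra hn
    have := mul_nonpos_of_nonpos_of_nonneg (not_lt.mp hn) he.le
    linarith
  have h5 : (1 + s) * Real.exp (-s) ≤ 1 := by
    have a1 := Real.add_one_le_exp s
    have a2 : Real.exp s * Real.exp (-s) = 1 := by rw [← Real.exp_add, add_neg_cancel, Real.exp_zero]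
    nlinarith
  have h6 : x * (1 + s) ≤ R := by nlinarith
  have h7 : x ≤ R := by nlinarith
  have h8 : √t ≤ 7 / 4 * √s := by nlinarith
  have h9 : √t ≤ (3 + s) / 2 := by nlinarith [sq_nonneg (√t - 3)]
  have h10 : x * (4 * t + 5 * √t + 2) ≤ 15 * R := by nlinarith
  have h11 : 1 + x ^ 2 ≤ 1 + R ^ 2 := by nlinarith
  have e1 : x ^ 2 / (x * √s) = x / √s := by field_simp
  have e2 : 30 * (R * (1 + R ^ 2)) * (om t / (1 + x ^ 2)) =
      30 * (R * (1 + R ^ 2)) / (√t * (4 * t + 5 * √t + 2) * (1 + x ^ 2)) := by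
    unfold om
    field_simp
  rw [e1, e2, div_le_div_iff₀ h2 (by positivity)]
  calc x * (√t * (4 * t + 5 * √t + 2) * (1 + x ^ 2))
      = (x * (4 * t + 5 * √t + 2)) * √t * (1 + x ^ 2) := by ring
    _ ≤ (15 * R) * (7 / 4 * √s) * (1 + R ^ 2) := by gcongr
    _ ≤ 30 * (R * (1 + R ^ 2)) * √s := by
      have : 0 ≤ R * (1 + R ^ 2) * √s := by positivity
      nlinarith

theorem wt2 {x ε : ℝ} (hx : 0 < x) (hε : ε ∈ Ioc (0 : ℝ) 1) : x ^ 2 / (x * (1 + x ^ 2) ^ 4) ≤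
    400 * (om (Real.log ((1 + x ^ 2) / (x ^ 2 + ε ^ 2)) + 1) / (1 + x ^ 2)) := by
  obtain ⟨he0, he1⟩ := hε
  obtain ⟨t, htd⟩ : ∃ t, t = Real.log ((1 + x ^ 2) / (x ^ 2 + ε ^ 2)) + 1 := ⟨_, rfl⟩
  rw [← htd]
  have hp : 0 < 1 + x ^ 2 := by positivity
  have ht1 : 1 ≤ t := by
    have : 0 ≤ Real.log ((1 + x ^ 2) / (x ^ 2 + ε ^ 2)) := by
      refine Real.log_nonneg ?_
      rw [one_le_div (by positivity)]
      nlinarith
    linarith
  obtain ⟨b, hb⟩ : ∃ b, b = √(1 + x ^ 2) := ⟨_, rfl⟩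
  have hb1 : 1 ≤ b := by
    rw [hb]
    exact Real.one_le_sqrt.mpr (by nlinarith)
  have hb2 : b * b = 1 + x ^ 2 := by
    rw [hb]
    exact Real.mul_self_sqrt hp.le
  obtain ⟨y, hy⟩ : ∃ y, y = √(b / x) := ⟨_, rfl⟩
  have hy0 : 0 < y := by
    rw [hy]
    exact Real.sqrt_pos.mpr (by positivity)
  have hy2 : y * y = b / x := by
    rw [hy]
    exact Real.mul_self_sqrt (by positivity)
  have hy4 : y ^ 4 = (1 + x ^ 2) / x ^ 2 := by
    rw [← hb2, show y ^ 4 = (y * y) * (y * y) by ring, hy2]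
    field_simp
  have ht2 : t ≤ 4 * y := by
    have a1 : Real.log ((1 + x ^ 2) / (x ^ 2 + ε ^ 2)) ≤ Real.log (y ^ 4) := by
      refine Real.log_le_log (by positivity) ?_
      rw [hy4]
      exact div_le_div_of_nonneg_left hp.le (by positivity) (by nlinarith)
    have a2 := Real.log_le_sub_one_of_pos hy0
    rw [Real.log_pow] at a1
    push_cast at a1
    linarith
  have ht3 : x * t ^ 2 ≤ 16 * b := by
    have a1 : t ^ 2 ≤ 16 * (b / x) := by
      rw [← hy2]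
      nlinarith
    calc x * t ^ 2 ≤ x * (16 * (b / x)) := by gcongr
      _ = 16 * b := by field_simp
  have h1 : 1 ≤ √t := Real.one_le_sqrt.mpr ht1
  have h3 := Real.mul_self_sqrt (zero_le_one.trans ht1)
  have h4 : √t ≤ t := by nlinarith
  have h5 : √t * (4 * t + 5 * √t + 2) ≤ 11 * t ^ 2 := by nlinarith
  have h6 : b ≤ (1 + x ^ 2) ^ 3 := by
    have a1 : b ≤ 1 + x ^ 2 := by nlinarith
    exact a1.trans (le_self_pow₀ (by nlinarith) (by norm_num))
  have e1 : x ^ 2 / (x * (1 + x ^ 2) ^ 4) = x / (1 + x ^ 2) ^ 3 / (1 + x ^ 2) := by field_simp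
  have e2 : 400 * (om t / (1 + x ^ 2)) = 400 / (√t * (4 * t + 5 * √t + 2)) / (1 + x ^ 2) := by
    unfold om
    field_simp
  rw [e1, e2]
  refine div_le_div_of_nonneg_right ?_ hp.le
  rw [div_le_div_iff₀ (by positivity) (by positivity)]
  calc x * (√t * (4 * t + 5 * √t + 2)) ≤ x * (11 * t ^ 2) := by gcongr
    _ ≤ 400 * (1 + x ^ 2) ^ 3 := by nlinarith

theorem e1a_deriv {x : ℝ} (hx : 0 < x) :
    HasDerivAt (fun x : ℝ => -Real.log (x + √x)) (-mm x) x := by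
  have h1 := Real.sqrt_pos.mpr hx
  exact (((hasDerivAt_id' x).add (Real.hasDerivAt_sqrt hx.ne')).log (add_pos hx h1).ne').neg

theorem e1a_deriv2 {x : ℝ} (hx : 0 < x) :
    HasDerivAt (fun x : ℝ => -mm x) (mm x ^ 2 + 1 / (4 * √x ^ 4 * (√x + 1))) x := by
  have h1 := Real.sqrt_pos.mpr hx
  have h2 := Real.hasDerivAt_sqrt hx.ne'
  have h3 := (((hasDerivAt_const x (1 : ℝ)).add ((hasDerivAt_const x (1 : ℝ)).div
    (h2.const_mul 2) (by positivity))).div ((hasDerivAt_id' x).add h2) (add_pos hx h1).ne').neg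
  refine HasDerivAt.congr_deriv h3 ?_
  simp only [mm, Pi.add_apply, Pi.div_apply]
  obtain ⟨τ, hτ⟩ : ∃ τ, τ = √x := ⟨_, rfl⟩
  have h4 : x = τ ^ 2 := by rw [hτ, Real.sq_sqrt hx.le]
  rw [← hτ] at h1 ⊢
  rw [h4]
  field_simp
  ring

theorem e1a_kappa {x : ℝ} (hx : 0 < x) :
    (1 - om x * (x + √x)) * (mm x ^ 2 + 1 / (4 * √x ^ 4 * (√x + 1))) = mm x ^ 2 := by
  have h1 := Real.sqrt_pos.mpr hx
  simp only [mm, om]
  obtain ⟨τ, hτ⟩ : ∃ τ, τ = √x := ⟨_, rfl⟩
  have h4 : x = τ ^ 2 := by rw [hτ, Real.sq_sqrt hx.le]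
  rw [← hτ] at h1 ⊢
  rw [h4]
  field_simp
  ring

theorem twist_pt {Z : Type} [NormedAddCommGroup Z] [NormedSpace ℝ Z] [NormedSpace ℂ Z]
    [IsScalarTower ℝ ℂ Z] {J : Type} [Fintype J] {N : ℕ} {e : J → Z} {z : Z} {H : Bil N}
    {t : Z → ℝ} (ht : ContDiffAt ℝ 2 t z) (h0 : 0 < t z) (hH : IsH H) (hp : ∀ v, 0 ≤ H v v)
    (α : J → Cn N) (u : Cn N) :
    2 * H u (xi e (fderiv ℝ (fun w => -Real.log (t w + √(t w))) z) α) ≤
      lev e (fderiv ℝ (fderiv ℝ fun w => -Real.log (t w + √(t w))) z) H α +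
        mm (t z) * lev e (fderiv ℝ (fderiv ℝ t) z) H α +
        (1 - om (t z) * (t z + √(t z))) * H u u := by
  have h1 := Real.sqrt_pos.mpr h0
  obtain ⟨p, hpd⟩ : ∃ p, p = mm (t z) ^ 2 + 1 / (4 * √(t z) ^ 4 * (√(t z) + 1)) := ⟨_, rfl⟩
  have hp0 : 0 < p := by
    rw [hpd]
    positivity
  have hk := e1a_kappa h0
  rw [← hpd] at hk
  have hc : ContDiffAt ℝ 2 (fun x : ℝ => -Real.log (x + √x)) (t z) :=
    ((contDiffAt_id.add (Real.contDiffAt_sqrt h0.ne')).log (by positivity)).neg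
  have hlv := fun v => lv_comp (z := z) ht (f := fun x : ℝ => -Real.log (x + √x))
    (f' := fun x => -mm x) (f'' := p)
    ((lt_mem_nhds h0).mono fun x hx => e1a_deriv hx) (hpd ▸ e1a_deriv2 h0) hc v
  have hd : fderiv ℝ (fun w => -Real.log (t w + √(t w))) z = (-mm (t z)) • fderiv ℝ t z :=
    ((e1a_deriv h0).comp_hasFDerivAt z
      (ht.differentiableAt (by norm_num)).hasFDerivAt).fderiv
  have hxi : xi e ((-mm (t z)) • fderiv ℝ t z) α = (-mm (t z)) • xi e (fderiv ℝ t z) α := by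
    simp only [xi, Finset.smul_sum, smul_apply, smul_eq_mul, mul_smul]
  have hm : lev e ((-mm (t z)) • fderiv ℝ (fderiv ℝ t) z +
      p • (fderiv ℝ t z).smulRight (fderiv ℝ t z)) H α ≤
      lev e (fderiv ℝ (fderiv ℝ fun w => -Real.log (t w + √(t w))) z) H α := by
    refine lev_mono hH hp fun v => ?_
    have := hlv v
    simp only [lv] at this
    rw [this]
    simp only [add_apply, smul_apply,
      ContinuousLinearMap.smulRight_apply, smul_eq_mul]
    exact le_of_eq (by ring)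
  rw [lev_add, lev_smul, lev_smul, lev_rank] at hm
  rw [hd, hxi, map_smul, smul_eq_mul]
  obtain ⟨ξ, hξ⟩ : ∃ ξ, ξ = xi e (fderiv ℝ t z) α := ⟨_, rfl⟩
  rw [← hξ] at hm ⊢
  have hq := hp (p • ξ + mm (t z) • u)
  simp only [map_add, map_smul, add_apply, smul_apply,
    smul_eq_mul, hH.symm ξ u] at hq
  have key : 2 * (-mm (t z) * H u ξ) ≤ p * H ξ ξ + (1 - om (t z) * (t z + √(t z))) * H u u := by
    refine le_of_mul_le_mul_left ?_ hp0
    have : p * (p * H ξ ξ + (1 - om (t z) * (t z + √(t z))) * H u u) =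
        p * p * H ξ ξ + mm (t z) ^ 2 * H u u := by
      rw [← hk]
      ring
    rw [this]
    nlinarith
  linarith

end Pool.Agent.Lib.MP_124863_gt.Ok
end

-- part Pool.Agent.Lib.MP_124863_gt.OkArea
section

/-! Area estimates on the fibres. -/

open Filter Topology Set Metric Complex MeasureTheory
open scoped Real ENNReal ComplexConjugate

namespace Pool.Agent.Lib.MP_124863_gt.Ok

open Ec

variable {n N : ℕ} {M : Type} [MetricSpace M] {ι : M → Cn N} {q : Cn N → M} {U : Set (Cn N)}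
  {G : Cn N → Bil N}

theorem oa_cP (h : Data n ι q U G) : ContinuousOn (fderiv ℂ (ι ∘ q)) U := fun z hz =>
  ((contDiffAt_of_eventually ((h.isOpen.eventually_mem hz).mono fun x hx =>
      h.hol.differentiableAt (h.isOpen.mem_nhds hx)) 2).fderiv_right (m := 1)
        (by norm_num)).continuousAt.continuousWithinAt

theorem oa_isH (h : Data n ι q U G) {z : Cn N} (hz : z ∈ U) : IsH (G z) :=
  let ⟨_, _, _, hc⟩ := h.loc z hz; hc.isH'

theorem oa_ker (h : Data n ι q U G) {z : Cn N} (hz : z ∈ U) (u : Cn N) (hu : G z u u = 0) :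
    fderiv ℂ (ι ∘ q) z u = 0 := by
  obtain ⟨c, j, B, hc⟩ := h.loc _ hz
  rw [hc.at_z] at hu
  rw [hc.fderiv_p, by_contra fun h0 => (hc.pos _ h0).ne' hu, map_zero]

theorem tubular (h : Data n ι q U G) (c : ℝ) : ∃ η Λ : ℝ, 0 < η ∧ 0 < Λ ∧ ∀ z ∈ range ι, ‖z‖ ≤ c →
    ∀ x, ‖x‖ ≤ η → z + x ∈ U ∧ ∀ v, fderiv ℂ (ι ∘ q) z v = v →
      ‖v‖ ^ 2 ≤ Λ * G z v v ∧ G z v v ≤ Λ * ‖v‖ ^ 2 ∧ G (z + x) v v ≤ 4 * G z v v := by
  have hK : IsCompact (range ι ∩ closedBall (0 : Cn N) c) :=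
    (isCompact_closedBall _ _).inter_left h.closed
  have hKU : range ι ∩ closedBall (0 : Cn N) c ⊆ U := inter_subset_left.trans h.sub
  generalize hKe : range ι ∩ closedBall (0 : Cn N) c = K at hK hKU
  have c1 : ContinuousOn (fun p : Cn N × Cn N => G p.1) (K ×ˢ univ) :=
    (h.cG.mono hKU).comp continuousOn_fst fun p hp => hp.1
  have c2 : ContinuousOn (fun p : Cn N × Cn N => fderiv ℂ (ι ∘ q) p.1) (K ×ˢ univ) :=
    ((oa_cP h).mono hKU).comp continuousOn_fst fun p hp => hp.1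
  obtain ⟨C, C0, hC⟩ := homog_le (F := Cn N) hK (Θ := fun _ v => ‖v‖ ^ 2)
    (Ξ := fun z v => G z v v + ‖v - fderiv ℂ (ι ∘ q) z v‖ ^ 2)
    ((continuousOn_snd.norm.pow 2).congr fun _ _ => rfl)
    ((((c1.clm_apply continuousOn_snd).clm_apply continuousOn_snd).add
      ((continuousOn_snd.sub (c2.clm_apply continuousOn_snd)).norm.pow 2)).congr fun _ _ => rfl)
    (fun z _ t x => by rw [norm_smul, mul_pow, Real.norm_eq_abs, sq_abs])
    (fun z _ t x => by
      rw [(fderiv ℂ (ι ∘ q) z).map_smul_of_tower, ← smul_sub, norm_smul, mul_pow, Real.norm_eq_abs,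
        sq_abs]
      simp only [map_smul, smul_apply, smul_eq_mul]
      ring)
    (fun z hz x hx => by
      have a1 := h.nonneg (hKU hz) x
      rcases a1.lt_or_eq with a2 | a2
      · positivity
      · rw [oa_ker h (hKU hz) x a2.symm, sub_zero]
        have := norm_pos_iff.2 hx
        positivity)
  obtain ⟨L, hL⟩ := hK.exists_bound_of_continuousOn (h.cG.mono hKU)
  obtain ⟨d, d0, hd⟩ := hK.exists_cthickening_subset_open h.isOpen hKU
  obtain ⟨e, e0, he⟩ := Metric.uniformContinuousOn_iff.1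
    ((hK.cthickening (r := d)).uniformContinuousOn_of_continuous (h.cG.mono hd)) (3 / C)
    (by positivity)
  refine ⟨min d (e / 2), C + |L|, by positivity, by positivity, fun z hz hzc x hx => ?_⟩
  have zK : z ∈ K := hKe ▸ ⟨hz, mem_closedBall_zero_iff.2 hzc⟩
  have a1 : z + x ∈ cthickening d K := mem_cthickening_of_dist_le _ z _ _ zK (by
    rw [dist_self_add_left]; exact hx.trans (min_le_left _ _))
  refine ⟨hd a1, fun v hv => ?_⟩
  have a2 := hC z zK v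
  simp only [hv, sub_self, norm_zero] at a2
  have a3 := h.nonneg (hKU zK) v
  have a4 : G z v v ≤ |L| * ‖v‖ ^ 2 := by
    refine (le_abs_self _).trans (((G z).le_opNorm₂ _ _).trans ?_)
    rw [mul_assoc, ← sq]
    gcongr
    exact (hL z zK).trans (le_abs_self _)
  have a5 := he (z + x) a1 z (self_subset_cthickening _ zK) (by
    rw [dist_self_add_left]; linarith [hx.trans (min_le_right _ _)])
  have a6 : (G (z + x) - G z) v v ≤ 3 / C * ‖v‖ ^ 2 := by
    refine (le_abs_self _).trans (((G (z + x) - G z).le_opNorm₂ _ _).trans ?_)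
    rw [mul_assoc, ← sq]
    gcongr
    rw [← dist_eq_norm]
    exact a5.le
  have a7 : 3 / C * ‖v‖ ^ 2 ≤ 3 * G z v v := by
    rw [div_mul_eq_mul_div, div_le_iff₀ C0]; nlinarith
  simp only [sub_apply] at a6
  refine ⟨by nlinarith [abs_nonneg L], by nlinarith [sq_nonneg ‖v‖], by linarith⟩

theorem oa_first_var (h : Data n ι q U G) {R R₀ δ : ℝ} {Z : ℂ → Cn N}
    (hZ : DifferentiableOn ℂ Z (ball 0 R)) (hU : ∀ w ∈ ball 0 R, Z w ∈ U) (hδ : 0 < δ) (h0 : 0 < R₀)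
    (hR : R₀ < R) {y : ℂ → Cn N} (hy : DifferentiableOn ℂ y (ball 0 R)) :
    HasDerivAt (fun τ : ℝ => ar G R₀ δ fun w => Z w + τ • w • y w)
      (el (fun w => G (Z w)) (deriv Z) (bb (R₀ ^ 2) δ) y).re 0 := by
  have hY : DifferentiableOn ℂ (fun w => w • y w) (ball 0 R) := differentiableOn_id.smul hy
  generalize hYy : (fun w => w • y w) = Y at hY
  have eY : ∀ w, w • y w = Y w := congrFun hYy
  simp only [eY]
  have an : ∀ {f : ℂ → Cn N}, DifferentiableOn ℂ f (ball 0 R) → ∀ {w}, w ∈ ball 0 R →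
      AnalyticAt ℂ f w := fun hf _ hw => hf.analyticAt (isOpen_ball.mem_nhds hw)
  have dT : ∀ w ∈ ball 0 R, AnalyticAt ℂ (deriv Z) w := fun w hw => (an hZ hw).deriv
  have dH : ∀ w ∈ ball 0 R, ContDiffAt ℝ 2 (fun w => G (Z w)) w := fun w hw =>
    (h.two (hU w hw)).comp w (an_two (an hZ hw))
  have cH : ContinuousOn (fun w => G (Z w)) (ball 0 R) := fun w hw =>
    (dH w hw).continuousAt.continuousWithinAt
  have cT : ContinuousOn (deriv Z) (ball 0 R) := fun w hw =>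
    (dT w hw).continuousAt.continuousWithinAt
  have s1 : closedBall (0 : ℂ) R₀ ⊆ ball 0 R := closedBall_subset_ball hR
  have tube : ∀ᶠ τ : ℝ in 𝓝 0, ∀ w ∈ closedBall 0 R₀, Z w + τ • Y w ∈ U :=
    (isCompact_closedBall (0 : ℂ) R₀).eventually_forall_of_forall_eventually (x₀ := (0 : ℝ))
      (P := fun τ w => Z w + τ • Y w ∈ U) fun w hw => by
        have c : ContinuousAt (fun p : ℝ × ℂ => Z p.2 + p.1 • Y p.2) (0, w) :=
          ((an hZ (s1 hw)).continuousAt.comp continuousAt_snd).add (continuousAt_fst.smul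
            ((an hY (s1 hw)).continuousAt.comp continuousAt_snd))
        exact c.eventually (h.isOpen.mem_nhds (by simpa using hU w (s1 hw)))
  obtain ⟨ε, hε, h1⟩ := nhds_basis_closedBall.eventually_iff.1 tube
  have c : ∀ {f : ℂ → Cn N}, (∀ w ∈ ball 0 R, AnalyticAt ℂ f w) →
      ContinuousOn (fun p : ℝ × ℂ => f p.2) (closedBall 0 ε ×ˢ closedBall 0 R₀) := fun hf p hp =>
    ((hf _ (s1 hp.2)).continuousAt.comp continuousAt_snd).continuousWithinAt
  have c1 := c fun w hw => an hY hw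
  have c2 := c fun w hw => (an hY hw).deriv
  have c3 := (c fun w hw => an hZ hw).add (continuousOn_fst.smul c1)
  have c4 := (c dT).add (continuousOn_fst.smul c2)
  have m : MapsTo (fun p : ℝ × ℂ => Z p.2 + p.1 • Y p.2) (closedBall 0 ε ×ˢ closedBall 0 R₀) U :=
    fun p hp => h1 hp.1 _ hp.2
  have c5 := h.cG.comp c3 m
  have c6 := ContinuousOn.comp (g := fderiv ℝ G)
    (fun z hz => ((h.two hz).continuousAt_fderiv two_ne_zero).continuousWithinAt) c3 m
  have c7 := ((W_smooth (S := R₀ ^ 2) hδ).1.continuous.comp continuous_snd).continuousOn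
    (s := closedBall (0 : ℝ) ε ×ˢ closedBall (0 : ℂ) R₀)
  have h2 := hasDerivAt_compact (isCompact_closedBall 0 R₀) hε
    (f := fun τ w => W0 (R₀ ^ 2) δ (‖w‖ ^ 2) * G (Z w + τ • Y w) (deriv Z w + τ • deriv Y w)
      (deriv Z w + τ • deriv Y w))
    (f' := fun τ w => W0 (R₀ ^ 2) δ (‖w‖ ^ 2) * (fderiv ℝ G (Z w + τ • Y w) (Y w)
      (deriv Z w + τ • deriv Y w) (deriv Z w + τ • deriv Y w) +
      G (Z w + τ • Y w) (deriv Y w) (deriv Z w + τ • deriv Y w) +
      G (Z w + τ • Y w) (deriv Z w + τ • deriv Y w) (deriv Y w)))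
    (c7.mul ((c5.clm_apply c4).clm_apply c4))
    (c7.mul (((((c6.clm_apply c1).clm_apply c4).clm_apply c4).add
      ((c5.clm_apply c2).clm_apply c4)).add ((c5.clm_apply c4).clm_apply c2)))
    fun τ hτ w hw => by
      have a : ∀ u v : Cn N, HasDerivAt (fun τ : ℝ => u + τ • v) v τ := fun u v => by
        simpa using ((hasDerivAt_id τ).smul_const v).const_add u
      exact (hasDerivAt_T0 (c := fun τ : ℝ => Z w + τ • Y w)
        ((h.two (m (x := (τ, w)) ⟨hτ, hw⟩)).differentiableAt two_ne_zero)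
        (a _ _) (a _ _) (a _ _)).const_mul _
  have z0 : ∀ (g : ℂ → ℝ), ∀ w ∉ closedBall (0 : ℂ) R₀, W0 (R₀ ^ 2) δ (‖w‖ ^ 2) * g w = 0 :=
    fun g w hw => by rw [W0_zero h0 w (by simp at hw; exact hw.le), zero_mul]
  rw [setIntegral_eq_integral_of_forall_compl_eq_zero (z0 _)] at h2
  refine (h2.congr_of_eventuallyEq (.of_forall fun τ => ?_)).congr_deriv ?_
  · simp only [ar]
    rw [← setIntegral_eq_integral_of_forall_compl_eq_zero (z0 _)]
    refine setIntegral_congr_fun measurableSet_closedBall fun w hw => ?_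
    rw [((an hZ (s1 hw)).differentiableAt.hasDerivAt.fun_add
      ((an hY (s1 hw)).differentiableAt.hasDerivAt.fun_const_smul τ)).deriv]
  have n1 := fun w hw => contDiffAt_hc (dH w hw) (an_two (an hY hw)) (an_two (dT w hw))
  have w1 : ContDiff ℝ 2 fun w : ℂ => (W0 (R₀ ^ 2) δ (‖w‖ ^ 2) : ℂ) :=
    ofRealCLM.contDiff.comp (W_smooth (S := R₀ ^ 2) hδ).1
  have z1 : ∀ w : ℂ, R₀ ≤ ‖w‖ → (W0 (R₀ ^ 2) δ (‖w‖ ^ 2) : ℂ) * hc (G (Z w)) (Y w) (deriv Z w) = 0 :=
    fun w hw => by simp [W0_zero h0 w hw]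
  obtain ⟨i1, i2⟩ := integral_dz (glue_diff (k := 2) hR z1 fun w hw => w1.contDiffAt.mul (n1 w hw))
    (glue_supp z1)
  have z2 : ∀ w : ℂ, R₀ ≤ ‖w‖ → bb (R₀ ^ 2) δ w * hc (G (Z w)) (y w) (deriv Z w) = 0 :=
    fun w hw => by simp [bb_zero h0 w hw]
  have i3 : Integrable fun w => bb (R₀ ^ 2) δ w * hc (G (Z w)) (y w) (deriv Z w) :=
    (glue_cont hR z2 ((bb_smooth hδ).continuous.continuousOn.mul (continuousOn_hc
    cH hy.continuousOn cT))).integrable_of_hasCompactSupport (glue_supp z2)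
  have i4 := reCLM.integral_comp_comm (i3.add (i1.const_mul 2))
  rw [integral_add' i3 (i1.const_mul 2), integral_const_mul, i2, mul_zero, add_zero] at i4
  refine Eq.trans ?_ i4
  congr 1; ext w
  rcases lt_or_ge ‖w‖ R with hw | hw
  · have hw := mem_ball_zero_iff.2 hw
    obtain ⟨c, j, B, hc'⟩ := h.loc _ (hU w hw)
    have a0 : ∀ {f : ℂ → Cn N}, AnalyticAt ℂ f w → HasFDerivAt f _ w := fun hf =>
      hf.differentiableAt.hasDerivAt.hasFDerivAt.restrictScalars ℝ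
    have a1 := ((hc'.smooth.differentiableAt two_ne_zero).hasFDerivAt.comp w
      (a0 (an hZ hw))).clm_apply (a0 (an hY hw))
    have a2 := ((ofRealCLM.hasFDerivAt.comp w (a1.clm_apply (a0 (dT w hw)))).add
      ((ofRealCLM.hasFDerivAt.comp w (a1.clm_apply ((a0 (dT w hw)).const_smul I))).const_mul I)
      ).fderiv
    have a3 : 2 * (Ec.dz (fun w => hc (G (Z w)) (Y w) (deriv Z w)) w).re =
        fderiv ℝ G (Z w) (Y w) (deriv Z w) (deriv Z w) + 2 * G (Z w) (deriv Y w) (deriv Z w) := by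
      rw [Ec.dz]
      erw [a2]
      simp [hc'.kaehler (Y w), hc'.isH'.inv, smul_smul]
      ring
    rw [Pi.add_apply, dz_mul (w1.differentiable two_ne_zero w) ((n1 w hw).differentiableAt two_ne_zero),
      dz_radial (W0_deriv hδ (sq_nonneg _)), ← eY w, hc_smul hc'.isH', eY w]
    have a4 : bb (R₀ ^ 2) δ w * hc (G (Z w)) (y w) (deriv Z w) + 2 * (W1 (R₀ ^ 2) δ (‖w‖ ^ 2) * conj w *
      (w * hc (G (Z w)) (y w) (deriv Z w))) = 0 := by
      simp only [bb]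
      push_cast
      linear_combination 2 * W1 (R₀ ^ 2) δ (‖w‖ ^ 2) * hc (G (Z w)) (y w) (deriv Z w) * mul_conj' w
    rw [mul_add (2 : ℂ), ← add_assoc, a4]
    simp only [zero_smul, add_zero, zero_add, reCLM_apply, mul_re, ofReal_re, ofReal_im, re_ofNat,
      im_ofNat, hc'.isH'.symm (deriv Z w) (deriv Y w)]
    linear_combination (-W0 (R₀ ^ 2) δ (‖w‖ ^ 2)) * a3
  · have hw := hR.trans_le hw
    simp [z2 w hw.le, W0_zero h0 w hw.le, Ec.dz, (glue_nhds z1 hw).fderiv_eq]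

theorem oa_bb {S δ s : ℝ} (hS : 0 < S) (hδ : 0 < δ) (hs : 0 ≤ s) :
    0 ≤ -2 * s * W1 S δ s ∧ -2 * s * W1 S δ s ≤ 17 * cc S s ^ 2 * vv δ s := by
  rcases le_total S s with h | h
  · have : cc S s = 0 := max_eq_right (by rwa [sub_nonpos, one_le_div hS])
    simp [W1, this]
  have c0 : 0 ≤ cc S s := le_max_right _ _
  have c1 : cc S s ≤ 1 := max_le (by simp; positivity) zero_le_one
  have v0 := vv_pos hδ hs
  have x1 : s / S ≤ 1 := (div_le_one hS).2 h
  have p1 : s / (s + δ ^ 2) ≤ 1 := (div_le_one (by positivity)).2 (by simp; positivity)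
  have q1 : s / (1 + s) ≤ 1 := (div_le_one (by positivity)).2 (by simp)
  have e : -2 * s * W1 S δ s = (8 * (s / S) * cc S s +
      cc S s ^ 2 * (s / (s + δ ^ 2) + 8 * (s / (1 + s)))) * cc S s ^ 2 * vv δ s := by
    simp only [W1, ka]
    field_simp
    ring
  have x0 : 0 ≤ s / S := by positivity
  have p0 : 0 ≤ s / (s + δ ^ 2) := by positivity
  have q0 : 0 ≤ s / (1 + s) := by positivity
  rw [e]
  generalize s / S = x, s / (s + δ ^ 2) = p, s / (1 + s) = q, cc S s = c at *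
  refine ⟨by positivity, ?_⟩
  gcongr
  have a1 : 8 * x * c + c ^ 2 * (p + 8 * q) ≤ 8 * 1 * 1 + 1 ^ 2 * (1 + 8 * 1) := by gcongr
  linarith

theorem oa_amgm {B : Bil N} (hs : ∀ u v, B u v = B v u) (h0 : ∀ u, 0 ≤ B u u) {b c v g : ℝ}
    (hv : 0 < v) (b0 : 0 ≤ b) (b1 : b ≤ 17 * c ^ 2 * v) (y T : Cn N) (hg : B y y ≤ 4 * g) :
    b * B y T ≤ c ^ 4 * v * B T T + 289 * (v * g) := by
  have a1 := h0 ((17 / 2 : ℝ) • y - (c ^ 2) • T)
  simp only [map_sub, map_smul, sub_apply, smul_apply, smul_eq_mul, hs T y] at a1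
  have a2 := h0 y
  have a3 := h0 T
  have a4 : 17 * c ^ 2 * B y T ≤ c ^ 4 * B T T + 289 * g := by nlinarith
  have a5 : 0 ≤ c ^ 4 * B T T + 289 * g := by
    have : 0 ≤ c ^ 4 * B T T := by positivity
    linarith
  rcases le_total 0 (B y T) with h | h
  · calc b * B y T ≤ 17 * c ^ 2 * v * B y T := by gcongr
      _ = v * (17 * c ^ 2 * B y T) := by ring
      _ ≤ v * (c ^ 4 * B T T + 289 * g) := by gcongr
      _ = _ := by ring
  · calc b * B y T ≤ 0 := mul_nonpos_of_nonneg_of_nonpos b0 h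
      _ ≤ v * (c ^ 4 * B T T + 289 * g) := by positivity
      _ = _ := by ring

theorem oa_vv_cont {δ : ℝ} (hδ : 0 < δ) : Continuous fun w : ℂ => vv δ (‖w‖ ^ 2) := by
  unfold vv
  exact ((by fun_prop : Continuous fun w : ℂ => √(‖w‖ ^ 2 + δ ^ 2)).inv₀ fun w => by positivity).mul
    ((by fun_prop : Continuous fun w : ℂ => (1 + ‖w‖ ^ 2) ^ 4).inv₀ fun w => by positivity)

theorem oa_el_le (h : Data n ι q U G) {R R₀ δ : ℝ} {Z : ℂ → Cn N}
    (hZ : DifferentiableOn ℂ Z (ball 0 R)) (hU : ∀ w ∈ ball 0 R, Z w ∈ U) (hδ : 0 < δ) (h0 : 0 < R₀)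
    (hR : R₀ < R) {y : ℂ → Cn N} (hy : DifferentiableOn ℂ y (ball 0 R)) {g : ℂ → ℝ}
    (cg : ContinuousOn g (ball 0 R)) (hg : ∀ w ∈ ball 0 R, G (Z w) (y w) (y w) ≤ 4 * g w) :
    (el (fun w => G (Z w)) (deriv Z) (bb (R₀ ^ 2) δ) y).re ≤
      ar G R₀ δ Z + 289 * ∫ w in closedBall 0 R₀, vv δ (‖w‖ ^ 2) * g w := by
  have s1 : closedBall (0 : ℂ) R₀ ⊆ ball 0 R := closedBall_subset_ball hR
  have cH : ContinuousOn (fun w => G (Z w)) (ball 0 R) := h.cG.comp hZ.continuousOn hU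
  have cT : ContinuousOn (deriv Z) (ball 0 R) := fun w hw =>
    (hZ.analyticAt (isOpen_ball.mem_nhds hw)).deriv.continuousAt.continuousWithinAt
  have z2 : ∀ w : ℂ, R₀ ≤ ‖w‖ → bb (R₀ ^ 2) δ w * hc (G (Z w)) (y w) (deriv Z w) = 0 :=
    fun w hw => by simp [bb_zero h0 w hw]
  have c3 := (bb_smooth (S := R₀ ^ 2) hδ).continuous.continuousOn.mul
    (continuousOn_hc cH hy.continuousOn cT)
  have i3 : IntegrableOn (fun w => bb (R₀ ^ 2) δ w * hc (G (Z w)) (y w) (deriv Z w))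
      (closedBall 0 R₀) := (c3.mono s1).integrableOn_compact (isCompact_closedBall _ _)
  have i1 : IntegrableOn (fun w => W0 (R₀ ^ 2) δ (‖w‖ ^ 2) * G (Z w) (deriv Z w) (deriv Z w))
      (closedBall 0 R₀) := (area_cont ((cH.clm_apply cT).clm_apply cT) hδ h0 hR
        ).continuousOn.integrableOn_compact (isCompact_closedBall _ _)
  have i2 : IntegrableOn (fun w => vv δ (‖w‖ ^ 2) * g w) (closedBall 0 R₀) :=
    ((oa_vv_cont hδ).continuousOn.mul (cg.mono s1)).integrableOn_compact (isCompact_closedBall _ _)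
  rw [el, ← setIntegral_eq_integral_of_forall_compl_eq_zero (s := closedBall 0 R₀)
    (fun w hw => z2 w (by simp at hw; exact hw.le)), ar_eq h0, ← integral_const_mul,
    ← integral_add i1 (i2.const_mul 289), ← reCLM_apply, ← reCLM.integral_comp_comm i3]
  refine setIntegral_mono_on (reCLM.integrable_comp i3) (i1.add (i2.const_mul 289))
    measurableSet_closedBall fun w hw => ?_
  have b := oa_bb (S := R₀ ^ 2) (by positivity) hδ (sq_nonneg ‖w‖)
  have := oa_amgm (oa_isH h (hU w (s1 hw))).symm (h.nonneg (hU w (s1 hw)))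
    (vv_pos hδ (sq_nonneg ‖w‖)) b.1 b.2 (y w) (deriv Z w) (hg w (s1 hw))
  rw [reCLM_apply, bb, re_ofReal_mul, hc_re]
  exact this

theorem area_step (h : Data n ι q U G) {R R' δ τ m : ℝ} (hR : 0 < R) (hR' : R < R') (hδ : 0 < δ)
    (hτ : 0 ≤ τ) {Z y : ℂ → Cn N} (hZ : DifferentiableOn ℂ Z (ball 0 R'))
    (hy : DifferentiableOn ℂ y (ball 0 R'))
    (hU : ∀ σ ∈ Icc 0 τ, ∀ w ∈ ball 0 R', Z w + σ • w • y w ∈ U ∧
      G (Z w + σ • w • y w) (y w) (y w) ≤ 4 * G (Z w) (y w) (y w))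
    (hm : ∫ w in closedBall 0 R, vv δ (‖w‖ ^ 2) * G (Z w) (y w) (y w) ≤ m) :
    ar G R δ (fun w => ι (q (Z w + τ • w • y w))) ≤ Real.exp τ * (ar G R δ Z + 289 * m * τ) := by
  have s1 : closedBall (0 : ℂ) R ⊆ ball 0 R' := closedBall_subset_ball hR'
  have hU0 : ∀ w ∈ ball 0 R', Z w ∈ U := fun w hw => by
    simpa using (hU 0 ⟨le_rfl, hτ⟩ w hw).1
  have m0 : 0 ≤ m := le_trans (setIntegral_nonneg measurableSet_closedBall fun w hw =>
    mul_nonneg (vv_pos hδ (sq_nonneg _)).le (h.nonneg (hU0 w (s1 hw)) _)) hm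
  have hY : DifferentiableOn ℂ (fun w => w • y w) (ball 0 R') := differentiableOn_id.smul hy
  have dZ : ∀ σ : ℝ, DifferentiableOn ℂ (fun w => Z w + σ • w • y w) (ball 0 R') := fun σ =>
    hZ.add (hY.const_smul σ)
  have cg : ContinuousOn (fun w => G (Z w) (y w) (y w)) (ball 0 R') :=
    ((h.cG.comp hZ.continuousOn hU0).clm_apply hy.continuousOn).clm_apply hy.continuousOn
  have d1 : ∀ σ ∈ Icc 0 τ, ∃ D, HasDerivAt (fun s : ℝ => ar G R δ fun w => Z w + s • w • y w) D σ ∧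
      D ≤ ar G R δ (fun w => Z w + σ • w • y w) + 289 * m := fun σ hσ => by
    have a1 := oa_first_var h (dZ σ) (fun w hw => (hU σ hσ w hw).1) hδ hR hR' hy
    have a2 := oa_el_le h (dZ σ) (fun w hw => (hU σ hσ w hw).1) hδ hR hR' hy cg
      fun w hw => (hU σ hσ w hw).2
    refine ⟨_, ?_, a2.trans (by linarith)⟩
    have a3 := (show (0 : ℝ) = σ - σ by simp) ▸ a1
    have a4 := a3.comp_sub_const σ σ
    refine a4.congr_of_eventuallyEq (.of_forall fun s => ?_)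
    simp only [add_assoc, ← add_smul, add_sub_cancel]
  choose! D hD using d1
  generalize hf : (fun s : ℝ => ar G R δ fun w => Z w + s • w • y w) = f at hD
  have hf' : ∀ s : ℝ, ar G R δ (fun w => Z w + s • w • y w) = f s := congrFun hf
  simp only [hf'] at hD
  have d2 : ∀ σ ∈ Icc 0 τ, HasDerivAt (fun s => Real.exp (-s) * f s - 289 * m * s)
      (Real.exp (-σ) * -1 * f σ + Real.exp (-σ) * D σ - 289 * m * 1) σ := fun σ hσ =>
    (((hasDerivAt_neg σ).exp).mul (hD σ hσ).1).sub ((hasDerivAt_id σ).const_mul _)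
  have anti := antitoneOn_of_deriv_nonpos (convex_Icc 0 τ)
    (fun σ hσ => (d2 σ hσ).continuousAt.continuousWithinAt)
    (fun σ hσ => (d2 σ (interior_subset hσ)).differentiableAt.differentiableWithinAt)
    (fun σ hσ => by
      have hσ := interior_subset hσ
      rw [(d2 σ hσ).deriv]
      have a1 : Real.exp (-σ) ≤ 1 := Real.exp_le_one_iff.2 (by linarith [hσ.1])
      have a2 := Real.exp_pos (-σ)
      nlinarith [mul_le_mul_of_nonneg_left (hD σ hσ).2 a2.le, mul_le_mul_of_nonneg_right a1 m0])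
  have e1 := anti ⟨le_rfl, hτ⟩ ⟨hτ, le_rfl⟩ hτ
  have e2 : f 0 = ar G R δ Z := by rw [← hf']; simp
  simp only [neg_zero, Real.exp_zero, one_mul, mul_zero, sub_zero, e2] at e1
  have e3 : ar G R δ (fun w => ι (q (Z w + τ • w • y w))) = f τ := by
    rw [← hf']
    simp only [ar]
    congr 1; ext w
    rcases lt_or_ge ‖w‖ R' with hw | hw
    · have hw := mem_ball_zero_iff.2 hw
      have a4 := (hU τ ⟨hτ, le_rfl⟩ w hw).1
      have a5 := ((dZ τ).differentiableAt (isOpen_ball.mem_nhds hw)).hasDerivAt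
      have a6 : HasDerivAt (fun w => ι (q (Z w + τ • w • y w))) _ w :=
        HasFDerivAt.comp_hasDerivAt (f := fun w => Z w + τ • w • y w) (l := ι ∘ q) w
          (h.hol.differentiableAt (h.isOpen.mem_nhds a4)).hasFDerivAt a5
      rw [a6.deriv, h.inv _ a4]
    · simp [W0_zero hR w (hR'.le.trans hw)]
  rw [e3]
  have e4 : f τ = Real.exp τ * (Real.exp (-τ) * f τ) := by
    rw [← mul_assoc, ← Real.exp_add]; simp
  rw [e4]
  exact mul_le_mul_of_nonneg_left (by linarith) (Real.exp_pos τ).le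

theorem oa_W0_le {S δ s : ℝ} (hS : 0 < S) (hδ : 0 < δ) (hs : 0 ≤ s) :
    W0 S δ s ≤ (√(s + δ ^ 2))⁻¹ := by
  have c0 : 0 ≤ cc S s := le_max_right _ _
  have c1 : cc S s ≤ 1 := max_le (by simp; positivity) zero_le_one
  have c2 : cc S s ^ 4 ≤ 1 := pow_le_one₀ c0 c1
  have c3 : ((1 + s) ^ 4)⁻¹ ≤ 1 := inv_le_one_of_one_le₀ (one_le_pow₀ (by linarith))
  have v0 := vv_pos hδ hs
  calc W0 S δ s ≤ 1 * vv δ s := by unfold W0; gcongr
    _ ≤ 1 * ((√(s + δ ^ 2))⁻¹ * 1) := by unfold vv; gcongr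
    _ = _ := by ring

theorem anchor' (h : Data n ι q U G) {ρ : ℝ} (hρ : 0 < ρ) : ∃ C, 0 < C ∧
    ∀ (Z : ℂ → Cn N) (R R' x A : ℝ), Dsc ι R' Z → 0 < x → x ≤ ρ → 8 * x ≤ R → R < R' →
      (∀ δ, 0 < δ → ar G R δ Z ≤ A) →
      ∃ r ∈ Icc x (2 * x), ∀ w ∈ sphere 0 r, dist (q (Z 0)) (q (Z w)) ≤ C * (1 + x * A) := by
  refine ⟨35 + 100000 * (1 + (4 * ρ) ^ 2) ^ 4, by positivity, fun Z R R' x A hZ x0 xρ hR hR' hA => ?_⟩
  have R0 : 0 < R := by linarith
  have hf := h.fam hZ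
  have c0 := ((hf.cH.mono ball_subset_closedBall).clm_apply hf.cT).clm_apply hf.cT
  have e0 := fun z hz => hf.nn z (ball_subset_closedBall hz) (deriv Z z)
  have nx : ∀ w : ℂ, ‖(x : ℂ) * w‖ = x * ‖w‖ := fun w => by
    rw [norm_mul, norm_real, Real.norm_of_nonneg x0.le]
  have hZ' : Dsc ι 5 fun w => Z (x * w) := by
    have m : MapsTo (fun w : ℂ => (x : ℂ) * w) (closedBall 0 5) (ball 0 R') := fun w hw => by
      rw [mem_ball_zero_iff, nx]
      nlinarith [mem_closedBall_zero_iff.1 hw]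
    exact ⟨(hZ.hol.differentiableOn.comp (differentiableOn_id.const_mul (x : ℂ)) m
      ).diffContOnCl_ball subset_rfl, fun w hw => hZ.mem _ (ball_subset_closedBall (m hw))⟩
  have hf' := h.fam hZ'
  have c1 := ((hf'.cH.mono ball_subset_closedBall).clm_apply hf'.cT).clm_apply hf'.cT
  obtain ⟨L, hL⟩ := (isCompact_closedBall (0 : ℂ) 1).exists_bound_of_continuousOn
    (c1.mono (closedBall_subset_ball (by norm_num)))
  set δ := (1 + √L)⁻¹ with hδ
  have δ0 : 0 < δ := by positivity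
  have δ1 : δ ≤ 1 := inv_le_one_of_one_le₀ (by simp)
  have nn : ∀ δ, 0 < δ → ∀ w : ℂ, 0 ≤ W0 (R ^ 2) δ (‖w‖ ^ 2) * G (Z w) (deriv Z w) (deriv Z w) :=
    fun δ hδ w => by
      rcases le_total R ‖w‖ with hw | hw
      · simp [W0_zero R0 w hw]
      · exact mul_nonneg (W0_nonneg hδ (sq_nonneg _)) (e0 w (mem_ball_zero_iff.2 (hw.trans_lt hR')))
  have A0 : 0 ≤ A := le_trans (integral_nonneg (nn 1 one_pos)) (hA 1 one_pos)
  have key : ar G 4 δ (fun w => Z (x * w)) ≤ 4 * x * (1 + (4 * ρ) ^ 2) ^ 4 * A := by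
    refine le_trans ?_ (mul_le_mul_of_nonneg_left (hA (δ * x) (by positivity)) (by positivity))
    have cv := Measure.integral_comp_smul (volume : Measure ℂ)
      (fun w => W0 (R ^ 2) (δ * x) (‖w‖ ^ 2) * G (Z w) (deriv Z w) (deriv Z w)) x
    rw [finrank_real_complex, abs_of_nonneg (by positivity), smul_eq_mul, ← ar,
      eq_inv_mul_iff_mul_eq₀ (by positivity)] at cv
    rw [← cv, ← integral_const_mul, ← integral_const_mul, ar]
    have i1 : Integrable fun w : ℂ => W0 (R ^ 2) (δ * x) (‖w‖ ^ 2) *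
        G (Z w) (deriv Z w) (deriv Z w) :=
      (area_cont c0 (by positivity) R0 hR').integrable_of_hasCompactSupport
        (glue_supp (R₀ := R) fun w hw => by simp [W0_zero R0 w hw])
    refine integral_mono_of_nonneg (.of_forall fun w => ?_)
      (((i1.comp_smul x0.ne').const_mul _).const_mul _) (.of_forall fun w => ?_)
    · rcases le_total 4 ‖w‖ with hw | hw
      · simp [W0_zero (R₀ := 4) (by norm_num) w hw]
      · exact mul_nonneg (W0_nonneg δ0 (sq_nonneg _)) (hf'.nn w (mem_closedBall_zero_iff.2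
          (by linarith)) _)
    · rcases le_total 4 ‖w‖ with hw | hw
      · simp only [W0_zero (R₀ := 4) (by norm_num) w hw, zero_mul]
        exact mul_nonneg (by positivity) (mul_nonneg (by positivity) (nn _ (by positivity) _))
      · have w1 : (x : ℂ) * w ∈ ball (0 : ℂ) R' := by
          rw [mem_ball_zero_iff, nx]; nlinarith
        have a1 := e0 _ w1
        have a2 := W0_ge (δ := δ * x) (R₀ := R) (ρ := 4 * x) (by positivity) R0
          (r := x * ‖w‖) (by positivity) (by nlinarith) (by linarith)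
        have a3 := oa_W0_le (S := 4 ^ 2) (by norm_num) δ0 (sq_nonneg ‖w‖)
        have a4 : √((x * ‖w‖) ^ 2 + (δ * x) ^ 2) = x * √(‖w‖ ^ 2 + δ ^ 2) := by
          rw [show (x * ‖w‖) ^ 2 + (δ * x) ^ 2 = x ^ 2 * (‖w‖ ^ 2 + δ ^ 2) by ring,
            Real.sqrt_mul (sq_nonneg _), Real.sqrt_sq x0.le]
        have a5 : (√(‖w‖ ^ 2 + δ ^ 2))⁻¹ ≤
            4 * x * (1 + (4 * ρ) ^ 2) ^ 4 * W0 (R ^ 2) (δ * x) ((x * ‖w‖) ^ 2) := by
          have b1 : ((1 + (4 * ρ) ^ 2) ^ 4)⁻¹ ≤ ((1 + (4 * x) ^ 2) ^ 4)⁻¹ := by gcongr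
          have b2 := (mul_le_mul_of_nonneg_left b1 (by positivity)).trans a2
          rw [a4] at b2
          have b3 : (√(‖w‖ ^ 2 + δ ^ 2))⁻¹ = x * (1 + (4 * ρ) ^ 2) ^ 4 *
            ((x * √(‖w‖ ^ 2 + δ ^ 2))⁻¹ * ((1 + (4 * ρ) ^ 2) ^ 4)⁻¹) := by field_simp
          rw [b3]
          refine (mul_le_mul_of_nonneg_left b2 (by positivity)).trans_eq (by ring)
        simp only [deriv_comp_mul_left, real_smul, nx]
        rw [isH_smul (hf.isH _ (ball_subset_closedBall w1)), norm_real, Real.norm_of_nonneg x0.le]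
        have a6 := mul_le_mul_of_nonneg_right (a3.trans a5) (mul_nonneg (sq_nonneg x) a1)
        exact a6.trans_eq (by ring)
  obtain ⟨r, hr, h1⟩ := h.anchor hZ' δ0 δ1 (ρ := 1) le_rfl (R₀ := 4) (by norm_num) (by norm_num) key
    (fun w hw => by
      rw [hδ, inv_mul_le_one₀ (by positivity)]
      exact (Real.sqrt_le_sqrt ((le_abs_self _).trans (hL w hw))).trans
        (le_add_of_nonneg_left zero_le_one))
  refine ⟨x * r, ⟨by nlinarith [hr.1], by nlinarith [hr.2]⟩, fun w hw => ?_⟩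
  have xc : (x : ℂ) ≠ 0 := ofReal_ne_zero.2 x0.ne'
  have a1 := h1 (w / x) (by
    rw [mem_sphere_zero_iff_norm, norm_div, mem_sphere_zero_iff_norm.1 hw, norm_real,
      Real.norm_of_nonneg x0.le]
    field_simp)
  simp only [mul_zero, mul_div_cancel₀ _ xc] at a1
  refine a1.trans ?_
  have a2 : 0 ≤ x * A := by positivity
  have a3 : 0 ≤ (1 + (4 * ρ) ^ 2) ^ 4 := by positivity
  generalize (1 + (4 * ρ) ^ 2) ^ 4 = K at *
  nlinarith [mul_nonneg a2 a3]

end Pool.Agent.Lib.MP_124863_gt.Ok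
end

-- part Pool.Agent.Lib.MP_124863_gt.OkE3
section

/-! A Nakano semipositive metric on the trivial bundle. -/

open Filter Topology Set Metric Complex MeasureTheory
open scoped Real ENNReal

namespace Pool.Agent.Lib.MP_124863_gt.Ok

open Ec

variable {n N : ℕ} {M : Type} [MetricSpace M] {ι : M → Cn N} {q : Cn N → M} {U : Set (Cn N)}
  {G : Cn N → Bil N} {Z : Type} [NormedAddCommGroup Z] [NormedSpace ℝ Z] [NormedSpace ℂ Z]
  [IsScalarTower ℝ ℂ Z] [FiniteDimensional ℂ Z] {J : Type} [Fintype J] [DecidableEq J] {e : J → Z}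

set_option linter.unusedSectionVars false

theorem e3_dd {k m : ℕ} {f : Cn k → Cn m} {z : Cn k} (h : ∀ᶠ w in 𝓝 z, DifferentiableAt ℂ f w) :
    ∀ᶠ w in 𝓝 z, DifferentiableAt ℂ (fderiv ℂ f) w :=
  h.eventually_nhds.mono fun _ hw => ((contDiffAt_of_eventually hw 2).fderiv_right (m := 1)
    (by norm_num)).differentiableAt one_ne_zero

theorem e3_idem (h : Data n ι q U G) {x : Cn N} (hx : x ∈ range ι) (v : Cn N) :
    fderiv ℂ (ι ∘ q) x (fderiv ℂ (ι ∘ q) x v) = fderiv ℂ (ι ∘ q) x v := by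
  obtain ⟨c, j, B, hc⟩ := h.loc _ (h.sub hx)
  rw [hc.fderiv_p, hc.left0 (h.fix hx), hc.fderiv_p]

theorem e3_inv (h : Data n ι q U G) {x : Cn N} (hx : x ∈ range ι) (u v : Cn N) :
    G x u (fderiv ℂ (ι ∘ q) x v) = G x u v := by
  obtain ⟨c, j, B, hc⟩ := h.loc _ (h.sub hx)
  rw [hc.at_z, hc.at_z, hc.left0 (h.fix hx)]

theorem e3_hol (h : Data n ι q U G) : DifferentiableOn ℂ (fderiv ℂ (ι ∘ q)) U := fun _ hz =>
  (e3_dd ((h.isOpen.eventually_mem hz).mono fun _ hx =>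
    h.hol.differentiableAt (h.isOpen.mem_nhds hx))).self_of_nhds.differentiableWithinAt

theorem e3_lv (l : J → Z →L[ℂ] ℂ) (s : Finset J) (z v : Z) :
    lv (fun x => ∑ j ∈ s, ‖l j x‖ ^ 2) z v = ∑ j ∈ s, 4 * ‖l j v‖ ^ 2 := by
  induction s using Finset.induction_on with
  | empty => simp [lv]
  | insert j s hj ih =>
    simp only [Finset.sum_insert hj]
    rw [lv_add (alg2_smooth _) (ContDiffAt.sum fun i _ => alg2_smooth (l i)), lv_norm_sq, ih]

theorem e3_lev (L : J → Z →L[ℝ] Z →L[ℝ] ℝ) (s : Finset J) (H : Bil N) (α : J → Cn N) :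
    lev e (∑ j ∈ s, L j) H α = ∑ j ∈ s, lev e (L j) H α := by
  induction s using Finset.induction_on with
  | empty => simp [lev]
  | insert j s hj ih => rw [Finset.sum_insert hj, Finset.sum_insert hj, lev_add, ih]

theorem e3_low {l : J → Z →L[ℂ] ℂ} (hl : ∀ j k, l j (e k) = if j = k then 1 else 0) {A : ℝ}
    (hA : 0 ≤ A) {H : Bil N} (hH : IsH H) (h0 : ∀ v, 0 ≤ H v v) (z : Z) (α : J → Cn N) :
    A * ∑ j, H (α j) (α j) ≤
      lev e (fderiv ℝ (fderiv ℝ fun x => A * ∑ j, ‖l j x‖ ^ 2) z) H α := by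
  refine le_trans ?_ (lev_mono hH h0 (L := (2 * A) • ∑ j, qf (l j)) fun v => le_of_eq ?_)
  · rw [lev_smul, e3_lev]
    have e1 : ∀ j, ∑ k, l j (e k) • α k = α j := fun j => by simp [hl]
    simp only [lev_qf hH, e1, ← Finset.mul_sum]
    have := mul_nonneg hA (Finset.sum_nonneg fun j (_ : j ∈ Finset.univ) => h0 (α j))
    linarith
  · have e2 := lv_const_mul (z := z) (ContDiffAt.sum fun i (_ : i ∈ Finset.univ) =>
      alg2_smooth (l i)) A v
    rw [e3_lv, lv] at e2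
    rw [e2]
    simp only [smul_apply, sum_apply, qf_apply, map_smul,
      smul_eq_mul, norm_mul, Complex.norm_I, one_mul, ← Finset.mul_sum]
    ring

theorem e3_tan (h : Data n ι q U G) (hn : HasNak n ι q U G) {O : Set Z} (hO : IsOpen O)
    {F : Z → Cn N} (hF : DifferentiableOn ℂ F O) (hF' : ∀ z ∈ O, F z ∈ range ι) {z : Z}
    (hz : z ∈ O) (α : J → Cn N) : ∃ C, 0 ≤ nk e (fun w => G (F w)) z α C := by
  obtain ⟨c, j, B, hc, hN⟩ := hn _ (h.sub (hF' z hz))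
  have a0 := hO.eventually_mem hz
  have a1 : ∀ᶠ w in 𝓝 z, DifferentiableAt ℂ F w :=
    a0.mono fun w hw => hF.differentiableAt (hO.mem_nhds hw)
  have t1 : Tendsto F (𝓝 z) (𝓝 (F z)) := a1.self_of_nhds.continuousAt
  have a2 : ∀ᶠ w in 𝓝 z, DifferentiableAt ℂ (fun w => c (F w)) w :=
    (a1.and (t1.eventually hc.dc)).mono fun w hw => hw.2.comp w hw.1
  have t2 : Tendsto (fun w => c (F w)) (𝓝 z) (𝓝 0) := by
    have := a2.self_of_nhds.continuousAt
    rwa [ContinuousAt, hc.c0] at this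
  refine nk_pull hc.two hc.d0 hN (L := fun w => fderiv ℂ c (F w))
    (R := fun w => fderiv ℂ j (c (F w))) a2 hc.c0
    ((a1.and (t1.eventually (e3_dd hc.dc))).mono fun w hw => hw.2.comp w hw.1)
    ((a2.and (t2.eventually (e3_dd hc.dj))).mono fun w hw => hw.2.comp w hw.1) ?_
    ((h.two (h.sub (hF' z hz))).comp z (alg1_h0 a1))
    (a0.mono fun w hw => oa_isH h (h.sub (hF' w hw))) (t1.eventually hc.eq) α
  filter_upwards [a0, t1.eventually hc.jc, t2.eventually (hc.left (h.fix (hF' z hz)))]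
    with w b1 b2 b3 σ
  have := b3 σ
  rwa [b2, h.fix (hF' w b1)] at this

theorem exists_metric (h : Data n ι q U G) (hn : HasNak n ι q U G) {l : J → Z →L[ℂ] ℂ}
    (hl : ∀ j k, l j (e k) = if j = k then 1 else 0) {O K : Set Z} (hO : IsOpen O)
    (hK : IsCompact K) (hKO : K ⊆ O) {F : Z → Cn N} (hF : DifferentiableOn ℂ F O)
    (hF' : ∀ z ∈ O, F z ∈ range ι) : ∃ H : Z → Bil N,
      (∀ z ∈ O, ContDiffAt ℝ 2 H z ∧ IsH (H z) ∧ ∀ v, v ≠ 0 → 0 < H z v v) ∧
      (∀ z ∈ O, ∀ v, G (F z) v v ≤ H z v v ∧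
        (fderiv ℂ (ι ∘ q) (F z) v = v → H z v v = G (F z) v v)) ∧
      ∀ z ∈ K, ∀ α : J → Cn N, ∃ C, 0 ≤ nk e H z α C := by
  let P : Z → Cn N →L[ℂ] Cn N := fun z => fderiv ℂ (ι ∘ q) (F z)
  let Q : Z → Cn N →L[ℂ] Cn N := fun z => 1 - P z
  have hQa : ∀ z u, Q z u = u - P z u := fun z u => rfl
  have hPP : ∀ z ∈ O, ∀ u, P z (P z u) = P z u := fun z hz u => e3_idem h (hF' z hz) u
  have hPQ : ∀ z ∈ O, ∀ u, P z (Q z u) = 0 := fun z hz u => by
    rw [hQa, map_sub, hPP z hz, sub_self]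
  have hQP : ∀ z ∈ O, ∀ u, Q z (P z u) = 0 := fun z hz u => by rw [hQa, hPP z hz, sub_self]
  have hQQ : ∀ z ∈ O, ∀ u, Q z (Q z u) = Q z u := fun z hz u => by
    rw [hQa z (Q z u), hPQ z hz, sub_zero]
  have dP : DifferentiableOn ℂ P O := (e3_hol h).comp hF fun z hz => h.sub (hF' z hz)
  have dQ : DifferentiableOn ℂ Q O := (differentiableOn_const _).sub dP
  obtain ⟨A, hA, hnorm⟩ := nk_norm (e := e) hK hO hKO dQ hQQ
  let φ : Z → ℝ := fun x => A * ∑ j, ‖l j x‖ ^ 2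
  have cφ : ∀ z, ContDiffAt ℝ 2 φ z := fun z =>
    contDiffAt_const.mul (ContDiffAt.sum fun i _ => alg2_smooth (l i))
  have c1 : ∀ z ∈ O, ContDiffAt ℝ 2 (fun w => G (F w)) z := fun z hz =>
    (h.two (h.sub (hF' z hz))).comp z (alg1_h0 ((hO.eventually_mem hz).mono fun w hw =>
      hF.differentiableAt (hO.mem_nhds hw)))
  have c2 : ∀ z ∈ O, ContDiffAt ℝ 2 (fun w => eq' (Q w)) z := fun z hz =>
    eq'_smooth ((hO.eventually_mem hz).mono fun w hw => dQ.differentiableAt (hO.mem_nhds hw))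
  have c3 : ∀ z ∈ O, ContDiffAt ℝ 2 (fun w => Real.exp (-φ w) • eq' (Q w)) z := fun z hz =>
    (cφ z).neg.exp.smul (c2 z hz)
  have e2 : ∀ z u v, (Real.exp (-φ z) • eq' (Q z)) u v = Real.exp (-φ z) * eu (Q z u) (Q z v) :=
    fun z u v => rfl
  have i2 : ∀ z, IsH (Real.exp (-φ z) • eq' (Q z)) := fun z =>
    ⟨fun u v => congrArg (Real.exp (-φ z) * ·) ((eq'_isH (Q z)).symm u v),
      fun u v => congrArg (Real.exp (-φ z) * ·) ((eq'_isH (Q z)).inv u v)⟩
  have e3 : ∀ z u v, (G (F z) + Real.exp (-φ z) • eq' (Q z)) u v =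
      G (F z) u v + Real.exp (-φ z) * eu (Q z u) (Q z v) := fun z u v => rfl
  refine ⟨fun z => G (F z) + Real.exp (-φ z) • eq' (Q z), fun z hz => ⟨(c1 z hz).add (c3 z hz),
    ⟨fun u v => ?_, fun u v => ?_⟩, fun v hv => ?_⟩, fun z hz v => ⟨?_, fun hv => ?_⟩,
    fun z hz α => ?_⟩
  · rw [e3, e3, ← e2, ← e2, (i2 z).symm, (oa_isH h (h.sub (hF' z hz))).symm]
  · rw [e3, e3, ← e2, ← e2, (i2 z).inv, (oa_isH h (h.sub (hF' z hz))).inv]
  · rw [e3]
    have a1 := h.nonneg (h.sub (hF' z hz)) v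
    have a2 := mul_nonneg (Real.exp_pos (-φ z)).le (eu_nonneg (Q z v))
    refine lt_of_le_of_ne (add_nonneg a1 a2) fun h0 => hv ?_
    have a3 : P z v = 0 := oa_ker h (h.sub (hF' z hz)) v (by linarith)
    have a4 : Q z v = 0 := eu_eq_zero ((mul_eq_zero.1 (show Real.exp (-φ z) *
      eu (Q z v) (Q z v) = 0 by linarith)).resolve_left (Real.exp_pos _).ne')
    rwa [hQa, a3, sub_zero] at a4
  · rw [e3]
    exact le_add_of_nonneg_right (mul_nonneg (Real.exp_pos _).le (eu_nonneg _))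
  · have a1 : Q z v = 0 := sub_eq_zero.2 hv.symm
    rw [e3, a1, map_zero, mul_zero, add_zero]
  · have hzO := hKO hz
    have a0 := hO.eventually_mem hzO
    obtain ⟨CT, hT⟩ := e3_tan (e := e) h hn hO hF hF' hzO α
    obtain ⟨C0, h0⟩ := hnorm z hz α
    have h1 := e3_low hl hA.le (eq'_isH (Q z)) (fun v => eu_nonneg (Q z v)) z α
    obtain ⟨CN, hN⟩ : ∃ C, 0 ≤ nk e (fun w => Real.exp (-φ w) • eq' (Q w)) z α C := by
      refine ⟨_, le_of_le_of_eq ?_ (nk_twist (C := C0) (cφ z) (c2 z hzO)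
        (Eventually.of_forall fun w => eq'_isH (Q w))).symm⟩
      exact mul_nonneg (Real.exp_pos _).le (by linarith)
    have p1 := fun C => nk_proj (e := e) (α := α) (C := C) (P := P)
      ((c1 z hzO).differentiableAt two_ne_zero) (oa_isH h (h.sub (hF' z hzO)))
      (dP.differentiableAt (hO.mem_nhds hzO)) (a0.mono fun w hw => e3_inv h (hF' w hw))
    have p2 := fun C => nk_proj (e := e) (α := α) (C := C) (P := Q)
      ((c3 z hzO).differentiableAt two_ne_zero) (i2 z) (dQ.differentiableAt (hO.mem_nhds hzO))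
      (a0.mono fun w hw u c => by rw [e2, e2, hQQ w hw])
    refine ⟨P z CT + Q z CN, ?_⟩
    rw [nk_add (c1 z hzO) (c3 z hzO), ← p1, ← p2, map_add, map_add, hPP z hzO, hPQ z hzO,
      hQP z hzO, hQQ z hzO, add_zero, zero_add, p1, p2]
    exact add_nonneg hT hN

end Pool.Agent.Lib.MP_124863_gt.Ok
end
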