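import Pool.Agent.Lib.MP_124863_gt.OkBK

-- part Pool.Agent.Lib.MP_124863_gt.OkWk
section

/-! The a priori estimate for weak solutions. -/

open Filter Topology Set Metric Complex MeasureTheory
open scoped Real ENNReal

namespace Pool.Agent.Lib.MP_124863_gt.Ok

open Ec

set_option linter.unusedSectionVars false

section loc

variable {Z : Type} [NormedAddCommGroup Z] [NormedSpace ℝ Z] [FiniteDimensional ℝ Z]
  [MeasurableSpace Z] [BorelSpace Z] {μ : Measure Z} [μ.IsAddHaarMeasure]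
  {F F' : Type} [NormedAddCommGroup F] [NormedSpace ℝ F] [FiniteDimensional ℝ F]
  [NormedAddCommGroup F'] [NormedSpace ℝ F'] {f : Z → F}

variable (μ) in
/-- Locally square integrable functions. -/
def L2l (f : Z → F') : Prop := ∀ K, IsCompact K → MemLp f 2 (μ.restrict K)

theorem L2l.loc {f : Z → F'} (h : L2l μ f) : LocallyIntegrable f μ :=
  locallyIntegrable_iff.2 fun K hK =>
    haveI : Fact (μ K < ⊤) := ⟨hK.measure_lt_top⟩
    (h K hK).integrable one_le_two

theorem L2l.meas {f : Z → F'} (h : L2l μ f) : AEStronglyMeasurable f μ := h.loc.aestronglyMeasurable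

theorem L2l.hom (h : L2l μ f) {Φ : Z → F → F'} (hc : Continuous (Function.uncurry Φ))
    (hh : ∀ z (t : ℝ) x, Φ z (t • x) = t • Φ z x) : L2l μ fun z => Φ z (f z) := fun K hK => by
  obtain ⟨C, C0, hC⟩ := homog_le hK (Θ := fun z x => ‖Φ z x‖ ^ 2) (Ξ := fun _ x => ‖x‖ ^ 2)
    (by exact (hc.norm.pow 2).continuousOn) (by exact (continuous_snd.norm.pow 2).continuousOn)
    (fun z _ t x => by simp [hh, norm_smul, mul_pow]) (fun z _ t x => by simp [norm_smul, mul_pow])
    fun z _ x hx => by positivity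
  refine (h K hK).of_le_mul (c := √C) (hc.comp_aestronglyMeasurable
    (aestronglyMeasurable_id.prodMk (h K hK).1)) ((ae_restrict_mem hK.measurableSet).mono
      fun z hz => ?_)
  refine (pow_le_pow_iff_left₀ (by positivity) (by positivity) two_ne_zero).1 ?_
  rw [mul_pow, Real.sq_sqrt C0.le]
  exact hC z hz (f z)

theorem l2l_cont {f : Z → F'} (h : Continuous f) : L2l μ f := fun K hK =>
  haveI : Fact (μ K < ⊤) := ⟨hK.measure_lt_top⟩
  let ⟨C, hC⟩ := hK.exists_bound_of_continuousOn h.continuousOn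
  .of_bound h.aestronglyMeasurable C ((ae_restrict_mem hK.measurableSet).mono hC)

theorem L2l.memLp {f : Z → F'} (h : L2l μ f) {K : Set Z} (hK : IsCompact K)
    (h0 : ∀ z ∉ K, f z = 0) : MemLp f 2 μ := by
  have : f = K.indicator f := by
    ext z; by_cases hz : z ∈ K <;> simp [hz, h0]
  rw [this]
  exact (memLp_indicator_iff_restrict hK.measurableSet).2 (h K hK)

theorem L2l.int {f : Z → F'} (h : L2l μ f) {θ : Z → ℝ} (h1 : Continuous θ)
    (h2 : HasCompactSupport θ) : Integrable (fun z => θ z • f z) μ :=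
  h.loc.integrable_smul_left_of_hasCompactSupport h1 h2

theorem L2l.int' (h : L2l μ f) {Φ : Z → F → F'} (hc : Continuous (Function.uncurry Φ))
    (hh : ∀ z (t : ℝ) x, Φ z (t • x) = t • Φ z x) {K : Set Z} (hK : IsCompact K)
    (h0 : ∀ z ∉ K, Φ z (f z) = 0) : Integrable (fun z => Φ z (f z)) μ :=
  ((h.hom hc hh).loc.integrableOn_isCompact hK).integrable_of_forall_notMem_eq_zero h0

theorem mo_clm [FiniteDimensional ℝ F'] {ρ : Z → ℝ} (hρ : Continuous ρ) (hρ' : HasCompactSupport ρ)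
    (hf : LocallyIntegrable f μ) (L : F →L[ℝ] F') (x : Z) :
    L (mo μ ρ f x) = ∫ t, ρ (x - t) • L (f t) ∂μ := by
  have := FiniteDimensional.complete ℝ F
  have := FiniteDimensional.complete ℝ F'
  rw [mo, ← L.integral_comp_comm (mo_int hρ hρ' hf x)]
  simp only [map_smul]

end loc

variable {Z : Type} [NormedAddCommGroup Z] [NormedSpace ℝ Z] [NormedSpace ℂ Z] [IsScalarTower ℝ ℂ Z]
  [FiniteDimensional ℝ Z] [MeasurableSpace Z] [BorelSpace Z] {μ : Measure Z} [μ.IsAddHaarMeasure]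
  {J : Type} [Fintype J] {N : ℕ} {e : J → Z} {W : Z → Bil N}

/-- Multiplication by `I`. -/
noncomputable def mI : Cn N →L[ℝ] Cn N := (I • ContinuousLinearMap.id ℂ (Cn N)).restrictScalars ℝ

@[simp] theorem mI_apply (x : Cn N) : mI x = I • x := rfl

/-- The coefficients as linear maps. -/
noncomputable def aL (a : J × Bool) : (J → Cn N) →L[ℝ] Cn N :=
  bif a.2 then -(mI.comp (.proj a.1)) else .proj a.1

omit [Fintype J] in
theorem aa_eq (α : J → Cn N) (a : J × Bool) : aa α a = aL a α := by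
  obtain ⟨j, _ | _⟩ := a <;> rfl

theorem nk_cn (hp : ∀ z v, v ≠ 0 → 0 < W z v v) (z : Z) (α : J → Cn N) :
    nk e W z α (cn e W z α) = nk e W z α 0 + W z (cn e W z α) (cn e W z α) := by
  rw [nk, nk, ← cn_spec (hp z)]
  simp only [map_zero, Finset.sum_const_zero]
  ring

variable (J N) in
/-- Forms, divergences and curls. -/
abbrev Tr : Type := (J → Cn N) × Cn N × (J → J → Cn N)

variable (e W) in
/-- The quadratic part of the estimate. -/
noncomputable def th (z : Z) (x : Tr J N) : ℝ :=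
  W z (x.2.1 + cn e W z x.1) (x.2.1 + cn e W z x.1) + 2⁻¹ * ∑ j, ∑ k, W z (x.2.2 j k) (x.2.2 j k)

theorem th_cont (hW : ContDiff ℝ 2 W) (hp : ∀ z v, v ≠ 0 → 0 < W z v v) :
    Continuous (Function.uncurry (th e W)) := by
  have h1 : Continuous fun p : Z × Tr J N => p.2.2.1 + cn e W p.1 p.2.1 :=
    continuous_snd.snd.fst.add ((cn_cont hW hp).comp (continuous_fst.prodMk continuous_snd.fst))
  have h2 := hW.continuous.comp (continuous_fst (X := Z) (Y := Tr J N))
  exact ((h2.clm_apply h1).clm_apply h1).add (continuous_const.mul (continuous_finsetSum _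
    fun j _ => continuous_finsetSum _ fun k _ => (h2.clm_apply (by fun_prop)).clm_apply (by fun_prop)))

theorem th_smul (z : Z) (t : ℝ) (x : Tr J N) : th e W z (t • x) = t ^ 2 * th e W z x := by
  simp only [th, Prod.smul_fst, Prod.smul_snd, cn_smul, ← smul_add, Pi.smul_apply, map_smul,
    smul_apply, smul_eq_mul, ← Finset.mul_sum]
  ring

theorem weak_aux (hW : ContDiff ℝ 2 W) (hH : ∀ z, IsH (W z)) (hp : ∀ z v, v ≠ 0 → 0 < W z v v)
    {v : Z → J → Cn N} {X : Z → Tr J N} {γ : Z → ℝ} (hv : L2l μ v) (hX : L2l μ X) {K : Set Z}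
    (hK : IsCompact K) (h0 : ∀ z ∉ K, X z = 0) (hγ : Integrable γ μ) (hγ0 : ∀ z, 0 ≤ γ z)
    (hd : ∀ ρ : Z → ℝ, ContDiff ℝ 2 ρ → HasCompactSupport ρ → ∀ x,
      ∫ t, xi e (fderiv ℝ ρ (x - t)) (X t).1 ∂μ = ∫ t, ρ (x - t) • (X t).2.1 ∂μ ∧ ∀ j k,
      ∫ t, (dbs e (fderiv ℝ ρ (x - t)) j ((X t).1 k) - dbs e (fderiv ℝ ρ (x - t)) k ((X t).1 j)) ∂μ =
        ∫ t, ρ (x - t) • (X t).2.2 j k ∂μ)
    (h : ∀ z α, ∃ C, 2 * ∑ j, W z (v z j) (α j) ≤ nk e W z α C + γ z) :
    0 ≤ ∫ z, (th e W z (X z) - 2 * ∑ j, W z (v z j) ((X z).1 j)) ∂μ + ∫ z, γ z ∂μ := by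
  obtain ⟨ρ, hρ, hl⟩ := exists_mol μ
  have hK1 := hK.cthickening (r := 1)
  set K₁ := cthickening 1 K
  have t0 : ∀ z, th e W z 0 = 0 := fun z => by simpa using th_smul (e := e) (W := W) z 0 0
  let Θ : Z → Tr J N × (J → Cn N) → ℝ := fun z x => th e W z x.1 - 2 * ∑ j, W z (x.2 j) (x.1.1 j)
  have c1 : Continuous (Function.uncurry Θ) :=
    ((th_cont hW hp).comp (continuous_fst.prodMk continuous_snd.fst)).sub (continuous_const.mul
      (continuous_finsetSum _ fun j _ => ((hW.continuous.comp continuous_fst).clm_apply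
        (by fun_prop)).clm_apply (by fun_prop)))
  have c2 : ∀ z (t : ℝ) x, Θ z (t • x) = t ^ 2 * Θ z x := fun z t x => by
    simp only [Θ, Prod.smul_fst, Prod.smul_snd, th_smul, Pi.smul_apply, map_smul,
      smul_apply, smul_eq_mul, ← Finset.mul_sum]
    ring
  have s1 := fun k => mo_smooth (hρ k).1 (hρ k).2.1 hX.loc
  have m1 : ∀ k, MemLp (fun z => (mo μ (ρ k) X z, v z)) 2 (μ.restrict K₁) := fun k =>
    .of_fst_snd ⟨l2l_cont (μ := μ) (s1 k).1.continuous K₁ hK1, hv K₁ hK1⟩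
  have m2 : MemLp (fun z => (X z, v z)) 2 (μ.restrict K₁) := .of_fst_snd ⟨hX K₁ hK1, hv K₁ hK1⟩
  have l1 := quad_lim c1 c2 hK1 m1 m2 (tendsto_of_tendsto_of_tendsto_of_le_of_le tendsto_const_nhds
    (hl _ X (hX.memLp hK h0)) (fun _ => bot_le) fun k => (eLpNorm_congr_norm_ae
      (g := mo μ (ρ k) X - X) (.of_forall fun z => by simp)).trans_le (eLpNorm_restrict_le _ _ _ _))
  rw [setIntegral_eq_integral_of_forall_compl_eq_zero fun z hz => by
    simp [Θ, h0 z fun h => hz (self_subset_cthickening K h), t0]] at l1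
  refine ge_of_tendsto' (l1.add_const _) fun k => ?_
  obtain ⟨s2, s3⟩ := s1 k
  have r1 := (hρ k).1.continuous_fderiv two_ne_zero
  have s4 : ∀ z ∉ K₁, mo μ (ρ k) X z = 0 := fun z hz => by
    refine integral_eq_zero_of_ae (.of_forall fun t => ?_)
    by_cases ht : t ∈ K
    · simp only [Pi.zero_apply]
      rw [(hρ k).2.2 _ (not_lt.1 fun h => hz (mem_cthickening_of_dist_le z t 1 K ht
        (by rw [dist_eq_norm]; exact h.le))), zero_smul]
    · simp [h0 t ht]
  have s5 : ∀ (L : Tr J N →L[ℝ] Cn N) x y, Integrable (fun t => fderiv ℝ (ρ k) (x - t) y • L (X t)) μ ∧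
      fderiv ℝ (fun z => L (mo μ (ρ k) X z)) x y =
        ∫ t, fderiv ℝ (ρ k) (x - t) y • L (X t) ∂μ := fun L x y => by
    have a1 := mo_int (ρ := fun x => fderiv ℝ (ρ k) x y) (r1.clm_apply continuous_const)
      ((hρ k).2.1.fderiv_apply ℝ y) hX.loc x
    refine ⟨by simpa using L.integrable_comp a1, ?_⟩
    erw [(L.hasFDerivAt.comp x (s2.differentiable two_ne_zero x).hasFDerivAt).fderiv,
      ContinuousLinearMap.comp_apply, s3, ← L.integral_comp_comm a1]
    simp only [map_smul]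
  have s6 := mo_clm (F' := Cn N) (hρ k).1.continuous (hρ k).2.1 hX.loc
  have s7 := hd _ (hρ k).1 (hρ k).2.1
  generalize mo μ (ρ k) X = Y at s2 s4 s5 s6
  let p1 : J → Tr J N →L[ℝ] Cn N := fun j => (ContinuousLinearMap.proj j).comp (.fst ℝ _ _)
  have e1 : ∀ x, dg e (fun j z => (Y z).1 j) x = (Y x).2.1 := fun x => by
    have a1 := fun a => s5 ((aL a).comp (.fst ℝ _ _)) x (ee e a)
    refine Eq.trans ?_ ((s7 x).1.trans (s6 ((ContinuousLinearMap.fst ℝ _ _).comp (.snd ℝ _ _)) x).symm)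
    simp only [xi, aa_eq]
    erw [integral_finsetSum _ fun a _ => (a1 a).1, dg]
    refine Finset.sum_congr rfl fun a _ => Eq.trans ?_ (a1 a).2
    have a2 := (s2.differentiable two_ne_zero x).hasFDerivAt
    erw [(((aL a).comp (.fst ℝ _ _)).hasFDerivAt.comp x a2).fderiv, aa_eq]
    simp only [ContinuousLinearMap.comp_apply]
    congr 1; ext1 j
    erw [((p1 j).hasFDerivAt.comp x a2).fderiv]
    rfl
  have e2 : ∀ x j k', db e (fun z => (Y z).1 k') x j - db e (fun z => (Y z).1 j) x k' =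
      (Y x).2.2 j k' := fun x j k' => by
    have a1 : ∀ j k', Integrable (fun t => dbs e (fderiv ℝ (ρ k) (x - t)) j ((X t).1 k')) μ ∧
        db e (fun z => (Y z).1 k') x j = ∫ t, dbs e (fderiv ℝ (ρ k) (x - t)) j ((X t).1 k') ∂μ :=
      fun j k' => by
        have b1 := s5 (p1 k') x (e j)
        have b2 := s5 (p1 k') x (I • e j)
        have b3 := (s5 (mI.comp (p1 k')) x (I • e j)).1
        refine ⟨b1.1.add b3, ?_⟩
        simp only [dbs]
        erw [integral_add b1.1 b3, db, b1.2, b2.2, ← integral_smul]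
        simp only [smul_comm I]
        rfl
    rw [(a1 _ _).2, (a1 _ _).2, ← integral_sub (a1 _ _).1 (a1 _ _).1, (s7 x).2]
    exact (s6 ((ContinuousLinearMap.proj (φ := fun _ => Cn N) k').comp
      ((ContinuousLinearMap.proj (φ := fun _ => J → Cn N) j).comp
      ((ContinuousLinearMap.snd ℝ _ _).comp (.snd ℝ _ _)))) x).symm
  have b1 := bk (μ := μ) (e := e) hW hH hp (α := fun j z => (Y z).1 j)
    (fun j => (p1 j).contDiff.comp s2) fun j => HasCompactSupport.intro hK1 fun z hz => by simp [s4 z hz]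
  simp only [tau, e1, e2] at b1
  have n0 : ∀ z (t : ℝ) (x : Tr J N), nk e W z (t • x).1 (cn e W z (t • x).1) =
      t ^ 2 * nk e W z x.1 (cn e W z x.1) := fun z t x => by rw [Prod.smul_fst, cn_smul, nk_smul]
  have b2 := quad_int (μ := μ) (Θ := fun z x => th e W z x - nk e W z x.1 (cn e W z x.1)) (by
    have a1 := (cn_cont (e := e) hW hp).comp (continuous_fst.prodMk (continuous_snd (X := Z)
      (Y := Tr J N)).fst)
    simp only [nk_cn hp]
    exact (th_cont hW hp).sub (((nk_cont hW).comp (continuous_fst.prodMk continuous_snd.fst)).add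
      (((hW.continuous.comp continuous_fst).clm_apply a1).clm_apply a1)))
    (fun z t x => by rw [th_smul, n0]; ring) hK1 (l2l_cont s2.continuous K₁ hK1)
  have b3 := quad_int c1 c2 hK1 (Y := fun z => (Y z, v z))
    (.of_fst_snd ⟨l2l_cont (μ := μ) s2.continuous K₁ hK1, hv K₁ hK1⟩)
  rw [← setIntegral_eq_integral_of_forall_compl_eq_zero (s := K₁) fun z hz => by
    have a1 := t0 z
    have a2 := n0 z 0 0
    simp only [th, zero_smul] at a1 a2
    rw [show (fun j => (Y z).1 j) = (Y z).1 from rfl, s4 z hz, a1, a2]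
    simp] at b1
  refine b1.trans ((setIntegral_mono_on b2 (b3.add hγ.integrableOn) hK1.measurableSet
    fun z _ => ?_).trans ?_)
  · obtain ⟨C, hC⟩ := h z (Y z).1
    have := nk_le (e := e) (hH z) (hp z) (Y z).1 C
    simp only [Θ, Pi.add_apply]
    linarith
  · rw [integral_add' b3 hγ.integrableOn]
    exact add_le_add_right (setIntegral_le_integral hγ (.of_forall hγ0)) _

theorem xi_cont {Y : Type} [TopologicalSpace Y] {l : Y → Z →L[ℝ] ℝ} {b : Y → J → Cn N}
    (hl : Continuous l) (hb : Continuous b) : Continuous fun y => xi e (l y) (b y) := by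
  simp only [xi, aa_eq]; fun_prop

theorem dbs_cont {Y : Type} [TopologicalSpace Y] {l : Y → Z →L[ℝ] ℝ} {b : Y → Cn N}
    (hl : Continuous l) (hb : Continuous b) (j : J) : Continuous fun y => dbs e (l y) j (b y) := by
  simp only [dbs]; fun_prop

theorem xi_smul (l : Z →L[ℝ] ℝ) (t : ℝ) (b : J → Cn N) : xi e l (t • b) = t • xi e l b := by
  simp only [xi, aa_eq, map_smul, Finset.smul_sum, smul_comm t]

theorem dbs_smul (l : Z →L[ℝ] ℝ) (j : J) (t : ℝ) (b : Cn N) :
    dbs e l j (t • b) = t • dbs e l j b := by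
  simp only [dbs, smul_add, smul_comm t]

theorem xi_lin (l l' : Z →L[ℝ] ℝ) (s t : ℝ) (b : J → Cn N) :
    xi e (s • l + t • l') b = s • xi e l b + t • xi e l' b := by
  simp only [xi, add_apply, smul_apply, smul_eq_mul, add_smul, mul_smul, Finset.sum_add_distrib,
    Finset.smul_sum]

theorem dbs_lin (l l' : Z →L[ℝ] ℝ) (s t : ℝ) (j : J) (b : Cn N) :
    dbs e (s • l + t • l') j b = s • dbs e l j b + t • dbs e l' j b := by
  simp only [dbs, add_apply, smul_apply, smul_eq_mul]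
  module

theorem cut_l2l (hW : ContDiff ℝ 2 W) (hp : ∀ z v, v ≠ 0 → 0 < W z v v) {β : Z → J → Cn N}
    {t : Z → Cn N} (hβ : L2l μ β) (ht : L2l μ t) {χ : Z → ℝ} (hχ : ContDiff ℝ 2 χ) :
    L2l μ fun z => ((χ z • β z, xi e (fderiv ℝ χ z) (β z) + χ z • (t z - cn e W z (β z)),
      fun j k => dbs e (fderiv ℝ χ z) j (β z k) - dbs e (fderiv ℝ χ z) k (β z j)) : Tr J N) := by
  have h1 : L2l μ fun z => (β z, t z) := fun K hK => .of_fst_snd ⟨hβ K hK, ht K hK⟩
  have c0 := hχ.continuous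
  have c1 := hχ.continuous_fderiv two_ne_zero
  have c2 := (cn_cont (e := e) hW hp).comp (continuous_fst.prodMk
    (continuous_snd (X := Z) (Y := (J → Cn N) × Cn N)).fst)
  exact h1.hom (Φ := fun z x => ((χ z • x.1, xi e (fderiv ℝ χ z) x.1 +
      χ z • (x.2 - cn e W z x.1), fun j k => dbs e (fderiv ℝ χ z) j (x.1 k) -
        dbs e (fderiv ℝ χ z) k (x.1 j)) : Tr J N))
    (((c0.comp continuous_fst).smul continuous_snd.fst).prodMk
      (((xi_cont (c1.comp continuous_fst) continuous_snd.fst).add ((c0.comp continuous_fst).smul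
        (continuous_snd.snd.sub c2))).prodMk (continuous_pi fun j => continuous_pi fun k =>
          (dbs_cont (c1.comp continuous_fst) (by fun_prop) j).sub
            (dbs_cont (c1.comp continuous_fst) (by fun_prop) k))))
    fun z s x => by
      simp only [Prod.smul_fst, Prod.smul_snd, Prod.smul_mk, xi_smul, cn_smul, Pi.smul_apply,
        dbs_smul, smul_add, ← smul_sub, smul_comm s]
      rfl

theorem weak_cut (hW : ContDiff ℝ 2 W) (hH : ∀ z, IsH (W z)) (hp : ∀ z v, v ≠ 0 → 0 < W z v v)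
    {v β : Z → J → Cn N} {t : Z → Cn N} {γ : Z → ℝ} (hv : L2l μ v) (hβ : L2l μ β) (ht : L2l μ t)
    (hγ : Integrable γ μ) (hγ0 : ∀ z, 0 ≤ γ z)
    (hd : ∀ θ : Z → ℝ, ContDiff ℝ 2 θ → HasCompactSupport θ →
      ∫ z, xi e (fderiv ℝ θ z) (β z) ∂μ = ∫ z, θ z • (cn e W z (β z) - t z) ∂μ ∧ ∀ j k,
      ∫ z, dbs e (fderiv ℝ θ z) j (β z k) ∂μ = ∫ z, dbs e (fderiv ℝ θ z) k (β z j) ∂μ)
    (h : ∀ z α, ∃ C, 2 * ∑ j, W z (v z j) (α j) ≤ nk e W z α C + γ z) {χ : Z → ℝ}
    (hχ : ContDiff ℝ 2 χ) (hχ' : HasCompactSupport χ) :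
    0 ≤ ∫ z, (th e W z (χ z • β z, xi e (fderiv ℝ χ z) (β z) + χ z • (t z - cn e W z (β z)),
      fun j k => dbs e (fderiv ℝ χ z) j (β z k) - dbs e (fderiv ℝ χ z) k (β z j)) -
        2 * ∑ j, W z (v z j) (χ z • β z j)) ∂μ + ∫ z, γ z ∂μ := by
  have h1 : L2l μ fun z => (β z, t z) := fun K hK => .of_fst_snd ⟨hβ K hK, ht K hK⟩
  have c0 := hχ.continuous
  have c1 := hχ.continuous_fderiv two_ne_zero
  have c2 := (cn_cont (e := e) hW hp).comp (continuous_fst.prodMk
    (continuous_snd (X := Z) (Y := (J → Cn N) × Cn N)).fst)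
  have z0 : ∀ z ∉ tsupport χ, χ z = 0 := fun z hz => image_eq_zero_of_notMem_tsupport hz
  have z1 : ∀ z ∉ tsupport χ, fderiv ℝ χ z = 0 := fun z hz =>
    image_eq_zero_of_notMem_tsupport fun h => hz (tsupport_fderiv_subset ℝ h)
  refine weak_aux hW hH hp hv (cut_l2l hW hp hβ ht hχ) hχ' (fun z hz => ?_) hγ hγ0
    (fun ρ hρ hρ' x => ?_) h
  · simp [z0 z hz, z1 z hz, xi, dbs]; rfl
  have r0 : Continuous fun s => ρ (x - s) := hρ.continuous.comp (by fun_prop)
  have r1 : Continuous fun s => fderiv ℝ ρ (x - s) :=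
    (hρ.continuous_fderiv two_ne_zero).comp (by fun_prop)
  have e1 : ∀ s, fderiv ℝ (fun s => ρ (x - s) * χ s) s =
      ρ (x - s) • fderiv ℝ χ s + (-χ s) • fderiv ℝ ρ (x - s) := fun s => by
    erw [(((hρ.differentiable two_ne_zero _).hasFDerivAt.comp s
      ((hasFDerivAt_id s).const_sub x)).fun_mul (hχ.differentiable two_ne_zero s).hasFDerivAt).fderiv]
    ext y; simp
  obtain ⟨a1, a2⟩ := hd (fun s => ρ (x - s) * χ s)
    ((hρ.comp (contDiff_const.sub contDiff_id)).mul hχ) hχ'.mul_left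
  simp only [e1, xi_lin, dbs_lin] at a1 a2
  refine ⟨?_, fun j k => ?_⟩
  · have i1 := (hβ.hom (Φ := fun z b => xi e (fderiv ℝ χ z) b)
      (xi_cont (c1.comp continuous_fst) continuous_snd) fun z => xi_smul _).loc
    have i2 := (hβ.hom (Φ := fun z b => xi e (fderiv ℝ ρ (x - z)) b)
      (xi_cont (r1.comp continuous_fst) continuous_snd) fun z => xi_smul _).int c0 hχ'
    have i3 := (h1.hom (Φ := fun z b => cn e W z b.1 - b.2) (c2.sub continuous_snd.snd)
      fun z s b => by simp [cn_smul, smul_sub]).int (r0.mul c0) hχ'.mul_left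
    replace i1 := mo_int hρ.continuous hρ' i1 x
    simp only [neg_smul, ← sub_eq_add_neg] at a1
    rw [integral_sub i1 i2, sub_eq_iff_eq_add', ← sub_eq_iff_eq_add] at a1
    simp only [xi_smul]
    rw [← a1]
    erw [← integral_sub i1 i3]
    congr 1; ext1 s
    simp only [Pi.mul_apply]
    module
  · have i1 : ∀ j k, Integrable (fun s => ρ (x - s) • dbs e (fderiv ℝ χ s) j (β s k)) μ :=
      fun j k => mo_int hρ.continuous hρ' (hβ.hom (Φ := fun z b => dbs e (fderiv ℝ χ z) j (b k))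
        (dbs_cont (c1.comp continuous_fst) (by fun_prop) j) fun z s b => dbs_smul _ _ _ _).loc x
    have i2 : ∀ j k, Integrable (fun s => χ s • dbs e (fderiv ℝ ρ (x - s)) j (β s k)) μ :=
      fun j k => (hβ.hom (Φ := fun z b => dbs e (fderiv ℝ ρ (x - z)) j (b k))
        (dbs_cont (r1.comp continuous_fst) (by fun_prop) j) fun z s b => dbs_smul _ _ _ _).int c0 hχ'
    have a3 := a2 j k
    simp only [neg_smul, ← sub_eq_add_neg] at a3
    rw [integral_sub (i1 _ _) (i2 _ _), integral_sub (i1 _ _) (i2 _ _)] at a3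
    simp only [Pi.smul_apply, dbs_smul, smul_sub]
    rw [integral_sub (i1 _ _) (i1 _ _), integral_sub (i2 _ _) (i2 _ _)]
    linear_combination (exp := 1) -a3

variable (N) in
/-- The Euclidean space. -/
abbrev Eu : Type := EuclideanSpace ℂ (Fin N)

theorem weak (hW : ContDiff ℝ 2 W) (hH : ∀ z, IsH (W z)) (hp : ∀ z v, v ≠ 0 → 0 < W z v v)
    {S : Z → Cn N →L[ℝ] Eu N} (hS : ∀ z u v, inner ℝ (S z u) (S z v) = W z u v)
    {v β : Z → J → Cn N} {t : Z → Cn N} {γ : Z → ℝ} (hv : L2l μ v) (hβ : L2l μ β) (ht : L2l μ t)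
    (hv' : ∀ j, MemLp (fun z => S z (v z j)) 2 μ) (hβ' : ∀ j, MemLp (fun z => S z (β z j)) 2 μ)
    (ht' : MemLp (fun z => S z (t z)) 2 μ) (hγ : Integrable γ μ) (hγ0 : ∀ z, 0 ≤ γ z)
    (hd : ∀ θ : Z → ℝ, ContDiff ℝ 2 θ → HasCompactSupport θ →
      ∫ z, xi e (fderiv ℝ θ z) (β z) ∂μ = ∫ z, θ z • (cn e W z (β z) - t z) ∂μ ∧ ∀ j k,
      ∫ z, dbs e (fderiv ℝ θ z) j (β z k) ∂μ = ∫ z, dbs e (fderiv ℝ θ z) k (β z j) ∂μ)
    (h : ∀ z α, ∃ C, 2 * ∑ j, W z (v z j) (α j) ≤ nk e W z α C + γ z) :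
    2 * ∫ z, ∑ j, W z (v z j) (β z j) ∂μ ≤ ∫ z, W z (t z) (t z) ∂μ + ∫ z, γ z ∂μ := by
  let φ : ContDiffBump (0 : Z) := ⟨1, 2, one_pos, one_lt_two⟩
  let χ : ℕ → Z → ℝ := fun k z => φ (((k + 1 : ℝ)⁻¹) • z)
  have k0 : ∀ k : ℕ, 0 < (k + 1 : ℝ)⁻¹ ∧ (k + 1 : ℝ)⁻¹ ≤ 1 := fun k =>
    ⟨by positivity, inv_le_one_of_one_le₀ (by simp)⟩
  have x1 : ∀ k, ContDiff ℝ 2 (χ k) := fun k => φ.contDiff.comp (contDiff_const_smul _)
  have x2 : ∀ k, HasCompactSupport (χ k) := fun k =>
    φ.hasCompactSupport.comp_homeomorph (Homeomorph.smulOfNeZero _ (k0 k).1.ne')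
  obtain ⟨C, hC⟩ := ((φ.contDiff (n := 1)).continuous_fderiv one_ne_zero
    ).bounded_above_of_compact_support (φ.hasCompactSupport.fderiv ℝ)
  have C0 := (norm_nonneg _).trans (hC 0)
  obtain ⟨D, hD⟩ := (Set.finite_range fun a => ‖ee e a‖).bddAbove
  have x3 : ∀ k z a, |fderiv ℝ (χ k) z (ee e a)| ≤ C * D := fun k z a => by
    erw [(((φ.contDiff (n := 1)).differentiable one_ne_zero _).hasFDerivAt.comp z
      ((hasFDerivAt_id z).const_smul _)).fderiv]
    refine ((fderiv ℝ φ _).le_opNorm _).trans (mul_le_mul (hC _) ?_ (norm_nonneg _) C0)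
    change ‖(k + 1 : ℝ)⁻¹ • ee e a‖ ≤ D
    rw [norm_smul, Real.norm_of_nonneg (k0 k).1.le]
    exact (mul_le_of_le_one_left (norm_nonneg _) (k0 k).2).trans (hD ⟨a, rfl⟩)
  have x4 : ∀ z, ∀ᶠ k in atTop, χ k z = 1 ∧ fderiv ℝ (χ k) z = 0 := fun z => by
    filter_upwards [tendsto_natCast_atTop_atTop.eventually_ge_atTop ‖z‖] with k hk
    have : χ k =ᶠ[𝓝 z] fun _ => 1 := by
      filter_upwards [continuous_norm.continuousAt.eventually (gt_mem_nhds (show ‖z‖ < k + 1 by
        linarith))] with w hw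
      refine φ.one_of_mem_closedBall ?_
      rw [mem_closedBall_zero_iff, norm_smul, Real.norm_of_nonneg (k0 k).1.le,
        inv_mul_le_iff₀ (by positivity)]
      exact hw.le.trans_eq (mul_one _).symm
    exact ⟨this.self_of_nhds, by rw [this.fderiv_eq]; simp⟩
  have n1 : ∀ z x, W z x x = ‖S z x‖ ^ 2 := fun z x => by rw [← hS, real_inner_self_eq_norm_sq]
  have n2 : ∀ z x, ‖S z (I • x)‖ = ‖S z x‖ := fun z x =>
    (pow_left_inj₀ (norm_nonneg _) (norm_nonneg _) two_ne_zero).1 (by rw [← n1, ← n1, (hH z).inv])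
  have n3 : ∀ z x y, |W z x y| ≤ ‖S z x‖ * ‖S z y‖ := fun z x y => hS z x y ▸ abs_real_inner_le_norm _ _
  let b : Z → ℝ := fun z => ∑ j, ‖S z (β z j)‖
  have b1 : ∀ z j, ‖S z (β z j)‖ ≤ b z := fun z j =>
    Finset.single_le_sum (f := fun j => ‖S z (β z j)‖) (fun _ _ => norm_nonneg _) (Finset.mem_univ j)
  have b2 : MemLp b 2 μ := memLp_finsetSum _ fun j _ => (hβ' j).norm
  have i1 : Integrable (fun z => ∑ j, ‖S z (v z j)‖ * ‖S z (β z j)‖) μ :=
    integrable_finsetSum _ fun j _ => (hv' j).norm.integrable_mul (hβ' j).norm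
  have i2 : Integrable (fun z => W z (t z) (t z)) μ := by
    simp only [n1]; exact ht'.norm.integrable_sq
  have m1 : ∀ j, AEStronglyMeasurable (fun z => W z (v z j) (β z j)) μ := fun j => by
    simp only [← hS]; exact (hv' j).1.inner (hβ' j).1
  have i3 : Integrable (fun z => ∑ j, W z (v z j) (β z j)) μ :=
    i1.mono' (Finset.aestronglyMeasurable_fun_sum _ fun j _ => m1 j) (.of_forall fun z =>
      (norm_sum_le _ _).trans (Finset.sum_le_sum fun j _ => n3 _ _ _))
  have h1 : L2l μ fun z => (β z, t z) := fun K hK => .of_fst_snd ⟨hβ K hK, ht K hK⟩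
  have key := ge_of_tendsto' ((tendsto_integral_filter_of_dominated_convergence (l := atTop)
    (f := fun z => W z (t z) (t z) - 2 * ∑ j, W z (v z j) (β z j))
    (fun z => (‖S z (t z)‖ + Fintype.card (J × Bool) * (C * D) * b z) ^ 2 +
      2⁻¹ * (Fintype.card J * (Fintype.card J * (4 * (C * D) * b z) ^ 2)) +
      2 * ∑ j, ‖S z (v z j)‖ * ‖S z (β z j)‖) (.of_forall fun k => ?_) (.of_forall fun k =>
        .of_forall fun z => ?_) (((ht'.norm.add (b2.const_mul _)).integrable_sq.add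
        ((((b2.const_mul _).integrable_sq.const_mul _).const_mul _).const_mul _)).add
        (i1.const_mul 2)) (.of_forall fun z => tendsto_const_nhds.congr' ?_)).add_const _)
    fun k => weak_cut hW hH hp hv hβ ht hγ hγ0 hd h (x1 k) (x2 k)
  · rw [integral_sub i2 (i3.const_mul 2), integral_const_mul] at key
    linarith
  · have c0 := (x1 k).continuous.aestronglyMeasurable (μ := μ)
    have c5 := (th_cont (e := e) hW hp).comp_aestronglyMeasurable
      (aestronglyMeasurable_id.prodMk (cut_l2l (e := e) hW hp hβ ht (x1 k)).meas)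
    simp only [map_smul, smul_eq_mul]
    exact c5.sub ((Finset.aestronglyMeasurable_fun_sum _ fun j _ => c0.mul (m1 j)).const_mul 2)
  · have a0 : |χ k z| ≤ 1 := abs_le.2 ⟨by linarith [φ.nonneg' ((k + 1 : ℝ)⁻¹ • z)], φ.le_one⟩
    have a1 : ∀ a, ‖S z (aa (β z) a)‖ ≤ b z := by
      rintro ⟨j, _ | _⟩
      exacts [b1 z j, by simpa [aa, n2] using b1 z j]
    have a2 : ‖S z (xi e (fderiv ℝ (χ k) z) (β z) + χ k z • t z)‖ ≤
        ‖S z (t z)‖ + Fintype.card (J × Bool) * (C * D) * b z := by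
      rw [map_add, add_comm, xi, map_sum, map_smul]
      refine norm_add_le_of_le ((norm_smul_le _ _).trans (mul_le_of_le_one_left (norm_nonneg _) a0))
        ((norm_sum_le _ _).trans ((Finset.sum_le_card_nsmul _ _ (C * D * b z) fun a _ => ?_).trans_eq
          (by simp [mul_assoc])))
      rw [map_smul, norm_smul]
      exact mul_le_mul (x3 k z a) (a1 a) (norm_nonneg _) ((abs_nonneg _).trans (x3 k z a))
    have a3 : ∀ j k', ‖S z (dbs e (fderiv ℝ (χ k) z) j (β z k'))‖ ≤ 2 * (C * D) * b z := fun j k' => by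
      rw [dbs, map_add, map_smul, map_smul, two_mul, add_mul]
      refine norm_add_le_of_le ?_ ?_ <;> rw [norm_smul]
      · exact mul_le_mul (x3 k z (j, false)) (b1 z k') (norm_nonneg _)
          ((abs_nonneg _).trans (x3 k z (j, false)))
      · exact mul_le_mul (x3 k z (j, true)) ((n2 _ _).trans_le (b1 z k')) (norm_nonneg _)
          ((abs_nonneg _).trans (x3 k z (j, true)))
    refine (norm_sub_le _ _).trans (add_le_add ((norm_add_le _ _).trans (add_le_add ?_ ?_)) ?_)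
    · rw [cn_smul, smul_sub, add_assoc, sub_add_cancel, n1, Real.norm_of_nonneg (sq_nonneg _)]
      gcongr
    · simp only [n1]
      rw [Real.norm_of_nonneg (by positivity)]
      gcongr
      refine (Finset.sum_le_card_nsmul _ _ _ fun j _ => (Finset.sum_le_card_nsmul _ _
        ((4 * (C * D) * b z) ^ 2) fun k' _ => ?_)).trans_eq (by simp)
      rw [map_sub]
      gcongr
      linarith [norm_sub_le_of_le (a3 j k') (a3 k' j)]
    · rw [norm_mul, Real.norm_two]
      gcongr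
      refine (norm_sum_le _ _).trans (Finset.sum_le_sum fun j _ => (n3 _ _ _).trans ?_)
      rw [map_smul]
      gcongr
      exact (norm_smul_le _ _).trans (mul_le_of_le_one_left (norm_nonneg _) a0)
  · filter_upwards [x4 z] with k hk
    simp [th, hk.1, hk.2, xi, dbs]

end Pool.Agent.Lib.MP_124863_gt.Ok
end

-- part Pool.Agent.Lib.MP_124863_gt.OkAp
section

/-! The a priori estimate for smooth forms. -/

open Filter Topology Set Metric Complex MeasureTheory
open scoped Real ENNReal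

namespace Pool.Agent.Lib.MP_124863_gt.Ok

open Ec

set_option linter.unusedSectionVars false

variable {Z : Type} [NormedAddCommGroup Z] [NormedSpace ℝ Z] [NormedSpace ℂ Z] [IsScalarTower ℝ ℂ Z]
  [FiniteDimensional ℝ Z] [MeasurableSpace Z] [BorelSpace Z] {μ : Measure Z} [μ.IsAddHaarMeasure]
  {J : Type} [Fintype J] {N : ℕ} {e : J → Z} {W : Z → Bil N}

theorem exists_pair {E F : Type} [NormedAddCommGroup E] [NormedSpace ℝ E] [NormedAddCommGroup F]
    [NormedSpace ℝ F] [CompleteSpace F] {M : Z → E →L[ℝ] F} (hM : Continuous M)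
    (hM' : HasCompactSupport M) : ∃ Λ : Lp E 2 μ →L[ℝ] F, ∀ x, Λ x = ∫ z, M z (x z) ∂μ := by
  have h := hM.memLp_of_hasCompactSupport (p := 2) (μ := μ) hM'
  refine ⟨(ContinuousLinearMap.id ℝ (E →L[ℝ] F)).lpPairing μ 2 2 h.toLp, fun x => ?_⟩
  rw [ContinuousLinearMap.lpPairing_eq_integral]
  exact integral_congr_ae (h.coeFn_toLp.mono fun z hz => by simp [hz])

theorem db_cont {φ : Z → Cn N} (hφ : ContDiff ℝ 1 φ) : Continuous (db e φ) := by
  have := hφ.continuous_fderiv one_ne_zero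
  unfold db; fun_prop

theorem dbs_int {θ : Z → ℝ} (hθ : ContDiff ℝ 1 θ) (hθ' : HasCompactSupport θ) {u : Z → Cn N}
    (hu : L2l μ u) (j : J) : Integrable (fun z => dbs e (fderiv ℝ θ z) j (u z)) μ :=
  hu.int' (Φ := fun z x => dbs e (fderiv ℝ θ z) j x)
    (dbs_cont ((hθ.continuous_fderiv one_ne_zero).comp continuous_fst) continuous_snd j)
    (fun _ => dbs_smul _ _) (hθ'.fderiv ℝ) fun z hz => by
      simp [dbs, image_eq_zero_of_notMem_tsupport hz]

theorem parts {θ : Z → ℝ} (hθ : ContDiff ℝ 1 θ) (hθ' : HasCompactSupport θ) {φ : Z → Cn N}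
    (hφ : ContDiff ℝ 1 φ) (j : J) :
    ∫ z, θ z • db e φ z j ∂μ = -∫ z, dbs e (fderiv ℝ θ z) j (φ z) ∂μ := by
  have h1 := fun y => int_deriv (μ := μ) (hθ.smul hφ) hθ'.smul_right y
  have h2 : ∀ y, Integrable (fun z => fderiv ℝ (fun z => θ z • φ z) z y) μ := fun y =>
    (((hθ.smul hφ).continuous_fderiv one_ne_zero).clm_apply continuous_const
      ).integrable_of_hasCompactSupport (hθ'.smul_right.fderiv_apply ℝ y)
  have h3 : Integrable (fun z => θ z • db e φ z j) μ :=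
    (l2l_cont ((continuous_apply j).comp (db_cont hφ))).int hθ.continuous hθ'
  have h4 : Integrable (fun z => I • fderiv ℝ (fun z => θ z • φ z) z (I • e j)) μ := (h2 _).smul I
  have h5 : ∫ z, (fderiv ℝ (fun z => θ z • φ z) z (e j) +
      I • fderiv ℝ (fun z => θ z • φ z) z (I • e j)) ∂μ = 0 := by
    rw [integral_add (h2 _) h4, integral_smul]
    erw [h1, h1]
    simp
  rw [eq_neg_iff_add_eq_zero, ← integral_add h3 (dbs_int hθ hθ' (l2l_cont hφ.continuous) j), ← h5]
  congr 1; ext1 z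
  rw [fderiv_fun_smul (hθ.differentiable one_ne_zero z) (hφ.differentiable one_ne_zero z)]
  simp only [db, dbs, Function.comp_apply, add_apply, smul_apply,
    ContinuousLinearMap.smulRight_apply, smul_add, smul_comm I]
  abel

theorem closed_of_weak {u : Z → Cn N} {v : Z → J → Cn N} (hu : L2l μ u) (hv : L2l μ v)
    (h : ∀ θ : Z → ℝ, ContDiff ℝ 1 θ → HasCompactSupport θ → ∀ j,
      ∫ z, θ z • v z j ∂μ = -∫ z, dbs e (fderiv ℝ θ z) j (u z) ∂μ) {θ : Z → ℝ}
    (hθ : ContDiff ℝ 2 θ) (hθ' : HasCompactSupport θ) (j k : J) :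
    ∫ z, dbs e (fderiv ℝ θ z) j (v z k) ∂μ = ∫ z, dbs e (fderiv ℝ θ z) k (v z j) ∂μ := by
  have h0 := hθ.fderiv_right (m := 1) (by norm_num)
  have h1 : ∀ y, ContDiff ℝ 1 fun z => fderiv ℝ θ z y := fun y => h0.clm_apply contDiff_const
  have h2 := hθ'.fderiv_apply ℝ
  have h3 : ∀ y z x, fderiv ℝ (fun z => fderiv ℝ θ z y) z x = fderiv ℝ (fderiv ℝ θ) z x y :=
    fun y z x => by
      rw [((h0.differentiable one_ne_zero z).hasFDerivAt.clm_apply (hasFDerivAt_const y z)).fderiv]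
      simp
  have h4 : ∀ y k, Integrable (fun z => fderiv ℝ θ z y • v z k) μ := fun y k =>
    (hv.hom (Φ := fun _ x => x k) (by fun_prop) fun _ _ _ => rfl).int (h1 y).continuous (h2 y)
  have key : ∀ j k, ∫ z, dbs e (fderiv ℝ θ z) j (v z k) ∂μ =
      -∫ z, (dbs e (fderiv ℝ (fun z => fderiv ℝ θ z (e j)) z) k (u z) +
        I • dbs e (fderiv ℝ (fun z => fderiv ℝ θ z (I • e j)) z) k (u z)) ∂μ := fun j k => by
    have a1 : Integrable (fun z =>
      I • dbs e (fderiv ℝ (fun z => fderiv ℝ θ z (I • e j)) z) k (u z)) μ :=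
      (dbs_int (h1 _) (h2 _) hu k).smul I
    have a2 : Integrable (fun z => I • fderiv ℝ θ z (I • e j) • v z k) μ := (h4 _ _).smul I
    rw [integral_add (dbs_int (h1 _) (h2 _) hu k) a1, integral_smul,
      neg_add, ← smul_neg, ← h _ (h1 _) (h2 _), ← h _ (h1 _) (h2 _), ← integral_smul,
      ← integral_add (h4 _ _) a2]
    simp only [dbs, smul_comm I]
  rw [key, key]
  congr 2; ext1 z
  have := ((hθ.contDiffAt (x := z)).isSymmSndFDerivAt (by simp)).eq
  simp only [dbs, h3]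
  rw [this (e k) (e j), this (I • e k) (e j), this (e k) (I • e j), this (I • e k) (I • e j)]
  simp only [smul_add, ← Complex.coe_smul]
  module

theorem symm_fderiv (hW : ContDiff ℝ 2 W) (hH : ∀ z, IsH (W z)) (z y : Z) (u v : Cn N) :
    fderiv ℝ W z y u v = fderiv ℝ W z y v u := by
  have h := fun u v => ((hW.differentiable two_ne_zero z).hasFDerivAt.clm_apply
    (hasFDerivAt_const u z)).clm_apply (hasFDerivAt_const v z)
  simpa using DFunLike.congr_fun ((h u v).unique ((h v u).congr_of_eventuallyEq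
    (.of_forall fun w => (hH w).symm u v))) y

theorem tau_cont (hW : ContDiff ℝ 2 W) (hp : ∀ z v, v ≠ 0 → 0 < W z v v) {α : J → Z → Cn N}
    (hα : ∀ j, ContDiff ℝ 1 (α j) ∧ HasCompactSupport (α j)) :
    Continuous (tau e W α) ∧ HasCompactSupport (tau e W α) := by
  have h1 := fun j => (hα j).1.continuous_fderiv one_ne_zero
  refine ⟨Continuous.add ?_ ((cn_cont hW hp).comp (continuous_id.prodMk
    (continuous_pi fun j => (hα j).1.continuous))), .intro (isCompact_iUnion fun j => (hα j).2)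
    fun z hz => ?_⟩
  · unfold dg; simp only [aa_eq]; fun_prop
  · simp only [mem_iUnion, not_exists] at hz
    have a1 : (fun j => α j z) = (0 : ℝ) • 0 := by
      ext1 j; simpa using image_eq_zero_of_notMem_tsupport (hz j)
    have a2 : ∀ j, fderiv ℝ (α j) z = 0 := fun j =>
      image_eq_zero_of_notMem_tsupport fun h => hz j (tsupport_fderiv_subset ℝ h)
    rw [tau, a1, cn_smul, dg]
    simp only [a2, aa_eq, zero_apply, zero_smul, add_zero]
    exact Finset.sum_eq_zero fun a _ => map_zero _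

theorem fderiv_aa {α : J → Z → Cn N} {z : Z} (hα : ∀ j, DifferentiableAt ℝ (α j) z) (a : J × Bool) :
    ∃ D : Z →L[ℝ] Cn N, HasFDerivAt (fun z => aa (fun j => α j z) a) D z ∧
      ∀ y, D y = aa (fun j => fderiv ℝ (α j) z y) a := by
  simp only [aa_eq]
  exact ⟨_, (aL a).hasFDerivAt.comp z (hasFDerivAt_pi.2 fun j => (hα j).hasFDerivAt), fun y => rfl⟩

theorem adj (hW : ContDiff ℝ 2 W) (hH : ∀ z, IsH (W z)) (hp : ∀ z v, v ≠ 0 → 0 < W z v v)
    {φ : Z → Cn N} (hφ : ContDiff ℝ 1 φ) {α : J → Z → Cn N}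
    (hα : ∀ j, ContDiff ℝ 1 (α j) ∧ HasCompactSupport (α j)) :
    ∫ z, (pr e (W z) (fderiv ℝ φ z) (fun j => α j z) + W z (φ z) (tau e W α z)) ∂μ = 0 := by
  have h1 : ∀ a, ContDiff ℝ 1 fun z => W z (φ z) (aa (fun j => α j z) a) := fun a => by
    simp only [aa_eq]
    exact ((hW.of_le one_le_two).clm_apply hφ).clm_apply
      ((aL a).contDiff.comp (contDiff_pi.2 fun j => (hα j).1))
  have h2 : ∀ a, HasCompactSupport fun z => W z (φ z) (aa (fun j => α j z) a) := fun a =>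
    .intro (hα a.1).2 fun z hz => by
      obtain ⟨j, _ | _⟩ := a <;> simp [aa, image_eq_zero_of_notMem_tsupport hz]
  rw [← Finset.sum_eq_zero (s := Finset.univ) fun a _ => int_deriv (μ := μ) (h1 a) (h2 a) (ee e a),
    ← integral_finsetSum _ fun a _ => (((h1 a).continuous_fderiv one_ne_zero).clm_apply
      continuous_const).integrable_of_hasCompactSupport ((h2 a).fderiv_apply ℝ _)]
  congr 1; ext1 z
  rw [tau, map_add, (hH z).symm _ (cn _ _ _ _), cn_spec (hp z), pr, dg, map_sum,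
    ← Finset.sum_add_distrib, ← Finset.sum_add_distrib]
  refine Finset.sum_congr rfl fun a _ => ?_
  obtain ⟨D, d1, d2⟩ := fderiv_aa (fun j => (hα j).1.differentiable one_ne_zero z) a
  rw [(((hW.differentiable two_ne_zero z).hasFDerivAt.clm_apply
    (hφ.differentiable one_ne_zero z).hasFDerivAt).clm_apply d1).fderiv,
    symm_fderiv hW hH z _ _ (φ z), ← d2]
  simp
  ring

theorem dual_der {φ : Z → Cn N} {θ : Z → ℝ} {l : Cn N →L[ℝ] ℝ} {z : Z} (hW : DifferentiableAt ℝ W z)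
    (hφ : DifferentiableAt ℝ φ z) (hθ : DifferentiableAt ℝ θ z) (h : ∀ w c, W w (φ w) c = θ w * l c)
    (y : Z) (c : Cn N) : fderiv ℝ W z y (φ z) c + W z (fderiv ℝ φ z y) c = fderiv ℝ θ z y * l c := by
  have := DFunLike.congr_fun ((((hW.hasFDerivAt.clm_apply hφ.hasFDerivAt).clm_apply
    (hasFDerivAt_const c z)).congr_of_eventuallyEq (.of_forall fun w => (h w c).symm)).unique
    (hθ.hasFDerivAt.mul_const (l c))) y
  simp at this
  linarith

theorem exists_dual (hW : ContDiff ℝ 2 W) (hp : ∀ z v, v ≠ 0 → 0 < W z v v) {θ : Z → ℝ}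
    (hθ : ContDiff ℝ 1 θ) (hθ' : HasCompactSupport θ) (l : Cn N →L[ℝ] ℝ) : ∃ φ : Z → Cn N,
      (ContDiff ℝ 1 φ ∧ HasCompactSupport φ) ∧ ∀ w c, W w (φ w) c = θ w * l c :=
  ⟨fun w => θ w • (W w).inverse l, ⟨hθ.smul ((contDiff_iff_contDiffAt.2 fun z =>
    (isInvertible_of_pos (hp z)).contDiffAt_map_inverse.comp z
      (hW.of_le one_le_two).contDiffAt).clm_apply contDiff_const), hθ'.smul_right⟩, fun w c => by
    rw [map_smul, (isInvertible_of_pos (hp w)).self_apply_inverse]; rfl⟩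

theorem eq_of_fun {x y : Cn N} (h : ∀ l : Cn N →L[ℝ] ℝ, l x = l y) : x = y :=
  SeparatingDual.eq_iff_forall_dual_eq.2 h

/-- The a priori estimate. -/
theorem apriori (hW : ContDiff ℝ 2 W) (hH : ∀ z, IsH (W z)) (hp : ∀ z v, v ≠ 0 → 0 < W z v v)
    {v : Z → J → Cn N} {γ : Z → ℝ} (hv : L2l μ v)
    (hv' : ∀ j, Integrable (fun z => W z (v z j) (v z j)) μ) (hγ : Integrable γ μ)
    (hγ0 : ∀ z, 0 ≤ γ z) (hc : ∀ θ : Z → ℝ, ContDiff ℝ 2 θ → HasCompactSupport θ → ∀ j k,
      ∫ z, dbs e (fderiv ℝ θ z) j (v z k) ∂μ = ∫ z, dbs e (fderiv ℝ θ z) k (v z j) ∂μ)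
    (h : ∀ z α, ∃ C, 2 * ∑ j, W z (v z j) (α j) ≤ nk e W z α C + γ z) {α : J → Z → Cn N}
    (hα : ∀ j, ContDiff ℝ 1 (α j) ∧ HasCompactSupport (α j)) :
    2 * ∫ z, ∑ j, W z (v z j) (α j z) ∂μ ≤
      ∫ z, W z (tau e W α z) (tau e W α z) ∂μ + ∫ z, γ z ∂μ := by
  obtain ⟨S, T, cS, cT, hTS, hST, hS⟩ := exists_sqrt hW.continuous hH hp
  let dL : (Z →L[ℝ] ℝ) → J → Cn N →L[ℝ] Cn N := fun l j =>
    l (e j) • ContinuousLinearMap.id ℝ _ + l (I • e j) • mI
  have p1 : ∀ (θ : {θ : Z → ℝ // ContDiff ℝ 2 θ ∧ HasCompactSupport θ}) j,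
      ∃ Λ : Lp (Eu N) 2 μ →L[ℝ] Cn N, ∀ x, Λ x = ∫ z, dbs e (fderiv ℝ θ.1 z) j (T z (x z)) ∂μ :=
    fun θ j => exists_pair (M := fun z => (dL (fderiv ℝ θ.1 z) j).comp (T z)) (by
      have := θ.2.1.continuous_fderiv two_ne_zero
      simp only [dL]; fun_prop) (.intro (θ.2.2.fderiv ℝ) fun z hz => by
        ext1 x; simp [dL, image_eq_zero_of_notMem_tsupport hz])
  choose Λ hΛ using p1
  let H := PiLp 2 fun _ : J => Lp (Eu N) 2 μ
  let P : J → H →L[ℝ] Lp (Eu N) 2 μ := fun j => PiLp.proj 2 _ j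
  let K : Submodule ℝ H := ⨅ θ, ⨅ j, ⨅ k, ((Λ θ j).comp (P k) - (Λ θ k).comp (P j)).ker
  have K1 : IsClosed (K : Set H) := by
    simp only [K, Submodule.coe_iInf]
    exact isClosed_iInter fun θ => isClosed_iInter fun j => isClosed_iInter fun k =>
      ContinuousLinearMap.isClosed_ker _
  have K2 : ∀ x : H, x ∈ K ↔ ∀ θ j k, Λ θ j (x k) = Λ θ k (x j) := fun x => by
    simp only [K, Submodule.mem_iInf, LinearMap.mem_ker, ContinuousLinearMap.coe_coe, sub_apply,
      sub_eq_zero]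
    rfl
  have := K1.completeSpace_coe
  have m0 : ∀ {w : Z → Cn N}, Continuous w → HasCompactSupport w →
      MemLp (fun z => S z (w z)) 2 μ := fun h1 h2 =>
    (cS.clm_apply h1).memLp_of_hasCompactSupport (.intro h2 fun z hz => by
      simp [image_eq_zero_of_notMem_tsupport hz])
  have m1 := fun j => m0 (hα j).1.continuous (hα j).2
  obtain ⟨x, hx, y, hy, hxy⟩ := K.exists_add_mem_mem_orthogonal (WithLp.toLp 2 fun j => (m1 j).toLp)
  let β : Z → J → Cn N := fun z j => T z (x j z)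
  have b1 : L2l μ β := fun C hC => memLp_pi_iff.2 fun j => L2l.hom (f := x j) (Φ := fun z x => T z x)
    (fun C _ => (Lp.memLp _).restrict C) (by fun_prop) (fun _ _ _ => map_smul _ _ _) C hC
  have b2 : ∀ j, MemLp (fun z => S z (β z j)) 2 μ := fun j => by
    simp only [β, hST]; exact Lp.memLp _
  have key : ∀ w : Z → J → Cn N, (∀ j, MemLp (fun z => S z (w z j)) 2 μ) →
      (∀ θ : Z → ℝ, ContDiff ℝ 2 θ → HasCompactSupport θ → ∀ j k,
        ∫ z, dbs e (fderiv ℝ θ z) j (w z k) ∂μ = ∫ z, dbs e (fderiv ℝ θ z) k (w z j) ∂μ) →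
      ∫ z, ∑ j, W z (w z j) (α j z) ∂μ = ∫ z, ∑ j, W z (w z j) (β z j) ∂μ := fun w w1 w2 => by
    have a1 : ∀ θ j k, Λ θ j (w1 k).toLp = ∫ z, dbs e (fderiv ℝ θ.1 z) j (w z k) ∂μ := fun θ j k =>
      (hΛ _ _ _).trans (integral_congr_ae ((w1 k).coeFn_toLp.mono fun z hz => by simp only [hz, hTS]))
    have a2 := hy _ ((K2 (WithLp.toLp 2 fun j => (w1 j).toLp)).2 fun θ j k => by
      rw [a1, a1, w2 _ θ.2.1 θ.2.2])
    have a3 := congrArg (inner ℝ (WithLp.toLp 2 fun j => (w1 j).toLp : H)) hxy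
    rw [inner_add_right, a2, add_zero, PiLp.inner_apply, PiLp.inner_apply] at a3
    simp only [← hS]
    rw [integral_finsetSum _ fun j _ => ?_, integral_finsetSum _ fun j _ => ?_]
    · refine Eq.trans ?_ (a3.trans ?_) <;> refine Finset.sum_congr rfl fun j _ => ?_ <;>
        rw [L2.inner_def] <;> refine integral_congr_ae ?_
      · filter_upwards [(w1 j).coeFn_toLp, (m1 j).coeFn_toLp] with z h1 h2
        rw [h1, h2]
      · filter_upwards [(w1 j).coeFn_toLp] with z h1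
        rw [h1, hST]
    · exact memLp_one_iff_integrable.1 ((innerSL ℝ).memLp_of_bilin 1 (w1 j) (b2 j))
    · exact memLp_one_iff_integrable.1 ((innerSL ℝ).memLp_of_bilin 1 (w1 j) (m1 j))
  have v1 : ∀ j, MemLp (fun z => S z (v z j)) 2 μ := fun j =>
    (memLp_two_iff_integrable_sq_norm (hv.hom (Φ := fun z x => S z (x j)) (by fun_prop)
      fun z t x => (S z).map_smul t (x j)).meas).2 (by simpa only [← hS, real_inner_self_eq_norm_sq] using hv' j)
  obtain ⟨t1, t2⟩ := tau_cont (e := e) hW hp hα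
  rw [key v v1 hc]
  refine weak hW hH hp hS hv b1 (l2l_cont t1) v1 b2 (m0 t1 t2) hγ hγ0 (fun θ θ1 θ2 =>
    ⟨eq_of_fun fun l => ?_, fun j k => by
      simpa only [hΛ] using (K2 x).1 hx ⟨θ, θ1, θ2⟩ j k⟩) h
  have θ0 := θ1.of_le one_le_two
  obtain ⟨φ, ⟨φ1, φ2⟩, φ3⟩ := exists_dual hW hp θ0 θ2 l
  have d1 := db_cont (e := e) φ1
  have d2 : ∀ z b, ∑ j, W z (db e φ z j) (b j) =
      l (xi e (fderiv ℝ θ z) b - θ z • cn e W z b) := fun z b => by
    rw [← pr_eq (hH z), map_sub, map_smul, smul_eq_mul, ← φ3, (hH z).symm, cn_spec (hp z), pr, xi,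
      map_sum, ← Finset.sum_sub_distrib]
    refine Finset.sum_congr rfl fun a _ => ?_
    rw [map_smul, smul_eq_mul, ← dual_der (hW.differentiable two_ne_zero z)
      (φ1.differentiable one_ne_zero z) (θ0.differentiable one_ne_zero z) φ3,
      symm_fderiv hW hH z _ (φ z)]
    ring
  have d3 := key (db e φ) (fun j => m0 ((continuous_apply j).comp d1) (.intro (φ2.fderiv ℝ)
    fun z hz => by simp [db, image_eq_zero_of_notMem_tsupport hz]))
    fun θ => closed_of_weak (l2l_cont φ1.continuous) (l2l_cont d1) fun θ a1 a2 => parts a1 a2 φ1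
  have d4 := adj (μ := μ) (e := e) hW hH hp φ1 hα
  have i1 := b1.int' (Φ := fun z b => xi e (fderiv ℝ θ z) b)
    (xi_cont ((θ0.continuous_fderiv one_ne_zero).comp continuous_fst) continuous_snd)
    (fun z => xi_smul _) (θ2.fderiv ℝ) fun z hz => by simp [xi, image_eq_zero_of_notMem_tsupport hz]
  have i2 := (b1.hom (Φ := cn e W) (cn_cont hW hp) fun z => cn_smul).int θ1.continuous θ2
  have i3 := (l2l_cont (μ := μ) t1).int θ1.continuous θ2
  have i4 : Integrable (fun z => ∑ j, W z (db e φ z j) (α j z)) μ := integrable_finsetSum _ fun j _ =>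
    ((hW.continuous.clm_apply ((continuous_apply j).comp d1)).clm_apply (hα j).1.continuous
      ).integrable_of_hasCompactSupport (.intro (hα j).2 fun z hz => by
        simp [image_eq_zero_of_notMem_tsupport hz])
  simp only [pr_eq (hH _), φ3, ← smul_eq_mul, ← map_smul] at d4
  rw [integral_add i4 (l.integrable_comp i3), d3, l.integral_comp_comm i3] at d4
  simp only [d2] at d4
  simp only [smul_sub]
  have i5 : Integrable (fun z => xi e (fderiv ℝ θ z) (β z) - θ z • cn e W z (β z)) μ := i1.sub i2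
  rw [l.integral_comp_comm i5, integral_sub i1 i2] at d4
  rw [integral_sub i2 i3]
  simp only [map_sub] at d4 ⊢
  linarith

end Pool.Agent.Lib.MP_124863_gt.Ok
end

-- part Pool.Agent.Lib.MP_124863_gt.OkL2
section

/-! The twisted estimates for the Cauchy-Riemann operator. -/

open Filter Topology Set Metric Complex MeasureTheory
open scoped Real ENNReal

namespace Pool.Agent.Lib.MP_124863_gt.Ok

open Ec

set_option linter.unusedSectionVars false

variable {Z : Type} [NormedAddCommGroup Z] [NormedSpace ℝ Z] [NormedSpace ℂ Z] [IsScalarTower ℝ ℂ Z]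
  [FiniteDimensional ℝ Z] [MeasurableSpace Z] [BorelSpace Z] {μ : Measure Z} [μ.IsAddHaarMeasure]
  {J : Type} [Fintype J] {N : ℕ} {e : J → Z} {W : Z → Bil N}

theorem tau_lin {α β : J → Z → Cn N} {z : Z} (hα : ∀ j, DifferentiableAt ℝ (α j) z)
    (hβ : ∀ j, DifferentiableAt ℝ (β j) z) {s : Z → ℝ} (hs : DifferentiableAt ℝ s z) :
    tau e W (fun j w => s w • α j w + β j w) z =
      s z • tau e W α z + xi e (fderiv ℝ s z) (fun j => α j z) + tau e W β z := by
  have h1 : ∀ j y, fderiv ℝ (fun w => s w • α j w + β j w) z y = (s z • (fun j => fderiv ℝ (α j) z y)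
      + fderiv ℝ s z y • (fun j => α j z) + fun j => fderiv ℝ (β j) z y) j := fun j y => by
    rw [((hs.hasFDerivAt.fun_smul (hα j).hasFDerivAt).fun_add (hβ j).hasFDerivAt).fderiv]
    simp
  have h2 : (fun j => s z • α j z + β j z) = s z • (fun j => α j z) + fun j => β j z := rfl
  simp only [tau, dg, xi, h1, h2, cn_add, cn_smul, aa_eq, map_add, map_smul, Finset.sum_add_distrib,
    ← Finset.smul_sum, smul_add]
  abel

theorem tau_zero (z : Z) : tau e W (fun _ _ => 0) z = 0 := by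
  have := cn_smul (e := e) (W := W) (z := z) 0 0
  simp only [zero_smul] at this
  simp [tau, dg, aa_eq, this, ← Pi.zero_def]

theorem tau_smul {α : J → Z → Cn N} {z : Z} (hα : ∀ j, DifferentiableAt ℝ (α j) z) {s : Z → ℝ}
    (hs : DifferentiableAt ℝ s z) : tau e W (fun j w => s w • α j w) z =
      s z • tau e W α z + xi e (fderiv ℝ s z) (fun j => α j z) := by
  simpa only [add_zero, tau_zero] using tau_lin (e := e) (W := W) (β := fun _ _ => 0) hα
    (fun _ => differentiableAt_const _) hs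

theorem cc_smul {α : J → Z → Cn N} (hα : ∀ j, ContDiff ℝ 1 (α j) ∧ HasCompactSupport (α j))
    {s : Z → ℝ} (hs : ContDiff ℝ 1 s) (j : J) :
    (ContDiff ℝ 1 fun w => s w • α j w) ∧ HasCompactSupport fun w => s w • α j w :=
  ⟨hs.smul (hα j).1, .intro (hα j).2 fun z hz => by simp [image_eq_zero_of_notMem_tsupport hz]⟩

variable (μ e W) in
/-- The range of the adjoint operator. -/
noncomputable def rg (S : Z → Cn N →L[ℝ] Eu N) : Submodule ℝ (Lp (Eu N) 2 μ) where
  carrier := {x | ∃ α : J → Z → Cn N, (∀ j, ContDiff ℝ 1 (α j) ∧ HasCompactSupport (α j)) ∧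
    x =ᵐ[μ] fun z => S z (tau e W α z)}
  zero_mem' := ⟨fun _ _ => 0, fun _ => ⟨contDiff_const, .zero⟩, (Lp.coeFn_zero _ _ _).mono
    fun z hz => by rw [hz]; simp only [tau_zero, map_zero, Pi.zero_apply]⟩
  add_mem' := by
    rintro x y ⟨α, a1, a2⟩ ⟨β, b1, b2⟩
    refine ⟨fun j w => (1 : ℝ) • α j w + β j w, fun j => ⟨((a1 j).1.const_smul _).add (b1 j).1,
      (cc_smul a1 contDiff_const j).2.add (b1 j).2⟩, ?_⟩
    filter_upwards [Lp.coeFn_add x y, a2, b2] with z h1 h2 h3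
    rw [tau_lin (fun j => (a1 j).1.differentiable one_ne_zero z)
      (fun j => (b1 j).1.differentiable one_ne_zero z) (differentiableAt_const _), h1, Pi.add_apply,
      h2, h3]
    simp [xi]
  smul_mem' := by
    rintro c x ⟨α, a1, a2⟩
    refine ⟨fun j w => c • α j w, cc_smul a1 contDiff_const, ?_⟩
    filter_upwards [Lp.coeFn_smul c x, a2] with z h1 h2
    rw [tau_smul (fun j => (a1 j).1.differentiable one_ne_zero z) (differentiableAt_const _), h1,
      Pi.smul_apply, h2]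
    simp [xi]

theorem exists_mul {ω : Z → ℝ} {C : ℝ} (h1 : Continuous ω) (h2 : ∀ z, ‖ω z‖ ≤ C) :
    ∃ M : Lp (Eu N) 2 μ →L[ℝ] Lp (Eu N) 2 μ,
      ∀ x y, inner ℝ (M x) y = ∫ z, ω z * inner ℝ (x z) (y z) ∂μ := by
  have a1 : MemLp ω ∞ μ := memLp_top_of_bound h1.aestronglyMeasurable C (.of_forall h2)
  refine ⟨(ContinuousLinearMap.lsmul ℝ ℝ).holderL μ ∞ 2 2 a1.toLp, fun x y => ?_⟩
  rw [L2.inner_def]
  refine integral_congr_ae ?_
  filter_upwards [(ContinuousLinearMap.lsmul ℝ ℝ).coeFn_holder (r := 2) a1.toLp x,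
    a1.coeFn_toLp] with z h1 h2
  rw [ContinuousLinearMap.holderL_apply_apply, h1, h2, ContinuousLinearMap.lsmul_apply,
    real_inner_smul_left]

theorem exists_sol (hW : ContDiff ℝ 2 W) (hH : ∀ z, IsH (W z)) (hp : ∀ z v, v ≠ 0 → 0 < W z v v)
    {g : Z → Cn N} (hg : Continuous g) (hg' : HasCompactSupport g) : ∃ u : Z → Cn N, L2l μ u ∧
      Integrable (fun z => W z (u z) (u z)) μ ∧
      (∀ α : J → Z → Cn N, (∀ j, ContDiff ℝ 1 (α j) ∧ HasCompactSupport (α j)) →
        ∫ z, W z (u z) (tau e W α z) ∂μ = ∫ z, W z (g z) (tau e W α z) ∂μ) ∧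
      ∀ (ω : Z → ℝ) (C Γ : ℝ), Continuous ω → (∀ z, ‖ω z‖ ≤ C) →
        (∀ α : J → Z → Cn N, (∀ j, ContDiff ℝ 1 (α j) ∧ HasCompactSupport (α j)) →
          -(2 * ∫ z, ω z * W z (u z) (tau e W α z) ∂μ) ≤
            ∫ z, ω z * W z (tau e W α z) (tau e W α z) ∂μ + Γ) →
        ∫ z, ω z * W z (u z) (u z) ∂μ ≤ Γ := by
  obtain ⟨S, T, cS, cT, hTS, hST, hS⟩ := exists_sqrt hW.continuous hH hp
  have m0 : ∀ {w : Z → Cn N}, Continuous w → HasCompactSupport w →
      MemLp (fun z => S z (w z)) 2 μ := fun h1 h2 =>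
    (cS.clm_apply h1).memLp_of_hasCompactSupport (.intro h2 fun z hz => by
      simp [image_eq_zero_of_notMem_tsupport hz])
  obtain ⟨x, hx, y, hy, hxy⟩ :=
    (rg μ e W S).topologicalClosure.exists_add_mem_mem_orthogonal (m0 hg hg').toLp
  have m1 := fun (α : J → Z → Cn N) (hα : ∀ j, ContDiff ℝ 1 (α j) ∧ HasCompactSupport (α j)) =>
    m0 (tau_cont (e := e) hW hp hα).1 (tau_cont hW hp hα).2
  refine ⟨fun z => T z (x z), L2l.hom (f := x) (Φ := fun z x => T z x)
    (fun C _ => (Lp.memLp _).restrict C) (by fun_prop) (fun _ _ _ => map_smul _ _ _), ?_,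
    fun α hα => ?_, fun ω C Γ h1 h2 h3 => ?_⟩
  · simp only [← hS, hST]
    exact L2.integrable_inner x x
  · have a1 := hy _ ((rg μ e W S).le_topologicalClosure ⟨α, hα, (m1 α hα).coeFn_toLp⟩)
    have a2 := congrArg (inner ℝ (m1 α hα).toLp) hxy
    rw [inner_add_right, a1, add_zero, L2.inner_def, L2.inner_def] at a2
    refine Eq.trans ?_ (a2.symm.trans ?_) <;> refine integral_congr_ae ?_
    · filter_upwards [(m1 α hα).coeFn_toLp] with z h1
      rw [h1, ← hS, hST, real_inner_comm]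
    · filter_upwards [(m1 α hα).coeFn_toLp, (m0 hg hg').coeFn_toLp] with z h1 h2
      rw [h1, h2, ← hS, real_inner_comm]
  · obtain ⟨M, a2⟩ := exists_mul (N := N) (μ := μ) h1 h2
    have a3 : IsClosed {y : Lp (Eu N) 2 μ | -(2 * inner ℝ (M x) y) ≤ inner ℝ (M y) y + Γ} :=
      isClosed_le (continuous_const.mul (continuous_const.inner continuous_id)).neg
        ((M.continuous.inner continuous_id).add continuous_const)
    have a5 : ((rg μ e W S).topologicalClosure : Set (Lp (Eu N) 2 μ)) ⊆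
        {y | -(2 * inner ℝ (M x) y) ≤ inner ℝ (M y) y + Γ} := closure_minimal (by
      rintro y ⟨α, b1, b2⟩
      have := h3 α b1
      simp only [← hS, hST] at this
      simp only [mem_ofPred_eq, a2]
      refine (le_of_eq ?_).trans (this.trans (le_of_eq ?_))
      · exact congrArg (-(2 * ·)) (integral_congr_ae (b2.mono fun z hz => by simp only [hz]))
      · exact congrArg (· + Γ) (integral_congr_ae (b2.mono fun z hz => by simp only [hz]))) a3
    have a4 : -(2 * inner ℝ (M x) (-x)) ≤ inner ℝ (M (-x)) (-x) + Γ :=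
      a5 ((rg μ e W S).topologicalClosure.neg_mem hx)
    rw [map_neg, inner_neg_right, inner_neg_neg, a2] at a4
    simp only [← hS, hST]
    linarith

theorem weak_holo (hW : ContDiff ℝ 2 W) (hH : ∀ z, IsH (W z)) (hp : ∀ z v, v ≠ 0 → 0 < W z v v)
    {u g : Z → Cn N} (hu : L2l μ u) (hg : L2l μ g)
    (h : ∀ α : J → Z → Cn N, (∀ j, ContDiff ℝ 1 (α j) ∧ HasCompactSupport (α j)) →
      ∫ z, W z (u z) (tau e W α z) ∂μ = ∫ z, W z (g z) (tau e W α z) ∂μ) {θ : Z → ℝ}
    (hθ : ContDiff ℝ 1 θ) (hθ' : HasCompactSupport θ) (j : J) :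
    ∫ z, dbs e (fderiv ℝ θ z) j (u z) ∂μ = ∫ z, dbs e (fderiv ℝ θ z) j (g z) ∂μ := by
  classical
  refine eq_of_fun fun l => ?_
  choose φ φ1 φ2 using fun k => exists_dual hW hp hθ hθ' (Pi.single (M := fun _ => _) j l k)
  have key : ∀ z x, W z x (tau e W φ z) = l (dbs e (fderiv ℝ θ z) j x) := fun z x => by
    have d1 := hW.differentiable two_ne_zero z
    have d2 := fun k => (φ1 k).1.differentiable one_ne_zero z
    have d3 := hθ.differentiable one_ne_zero z
    rw [tau, map_add, (hH z).symm _ (cn _ _ _ _), cn_spec (hp z), dg, map_sum,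
      ← Finset.sum_add_distrib, Fintype.sum_prod_type, ← Finset.sum_ite_eq_of_mem Finset.univ j
        (fun _ => l (dbs e (fderiv ℝ θ z) j x)) (Finset.mem_univ _)]
    refine Finset.sum_congr rfl fun k _ => ?_
    have a1 := dual_der d1 (d2 k) d3 (φ2 k) (e k) x
    have a2 := dual_der (l := (Pi.single (M := fun _ => Cn N →L[ℝ] ℝ) j l k).comp mI) d1
      ((d2 k).const_smul I).neg d3 (fun w c => by
        simp [(hH w).skew, φ2]) (I • e k) x
    erw [fderiv_neg, fderiv_const_smul (d2 k)] at a2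
    simp only [Fintype.sum_bool, aa, ee, cond_true, cond_false, (hH z).symm x]
    by_cases hk : j = k
    · subst hk
      simp [dbs] at a1 a2 ⊢
      linarith
    · simp [hk, Ne.symm hk] at a1 a2 ⊢
      linarith
  have := h φ φ1
  simp only [key] at this
  rwa [l.integral_comp_comm (dbs_int hθ hθ' hu j), l.integral_comp_comm (dbs_int hθ hθ' hg j)]
    at this

theorem mo_holo (he : Submodule.span ℂ (range e) = ⊤) {h : Z → Cn N} (hh : L2l μ h)
    (h0 : ∀ θ : Z → ℝ, ContDiff ℝ 1 θ → HasCompactSupport θ → ∀ j,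
      ∫ z, dbs e (fderiv ℝ θ z) j (h z) ∂μ = 0) {ρ : Z → ℝ} (a1 : ContDiff ℝ 2 ρ)
    (a2 : HasCompactSupport ρ) : Differentiable ℂ (mo μ ρ h) := fun x => by
  obtain ⟨b1, b2⟩ := mo_smooth a1 a2 hh.loc
  refine diff_of_db he (b1.differentiable two_ne_zero x) fun j => ?_
  have c0 := a1.continuous_fderiv two_ne_zero
  have c1 : ∀ y, Integrable (fun t => fderiv ℝ ρ (x - t) y • h t) μ := fun y =>
    mo_int (ρ := fun z => fderiv ℝ ρ z y) (c0.clm_apply continuous_const) (a2.fderiv_apply ℝ y)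
      hh.loc x
  have c2 : Integrable (fun t => I • fderiv ℝ ρ (x - t) (I • e j) • h t) μ := (c1 _).smul I
  have c3 : ContDiff ℝ 1 fun t => ρ (x - t) :=
    (a1.of_le one_le_two).comp (contDiff_const.sub contDiff_id)
  have c4 : HasCompactSupport fun t => ρ (x - t) := a2.comp_homeomorph (Homeomorph.subLeft x)
  rw [db, b2, b2, ← integral_smul, ← integral_add (c1 _) c2, ← neg_eq_zero, ← integral_neg,
    ← h0 _ c3 c4 j]
  congr 1; ext1 t
  have c5 : fderiv ℝ (fun t => ρ (x - t)) t = _ := ((a1.differentiable two_ne_zero (x - t)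
    ).hasFDerivAt.comp t ((hasFDerivAt_id t).const_sub x)).fderiv
  rw [c5]
  simp [dbs, smul_comm I, add_comm]

theorem exists_approx (he : Submodule.span ℂ (range e) = ⊤) {h : Z → Cn N} (hh : L2l μ h)
    (h0 : ∀ θ : Z → ℝ, ContDiff ℝ 1 θ → HasCompactSupport θ → ∀ j,
      ∫ z, dbs e (fderiv ℝ θ z) j (h z) ∂μ = 0) {K : Set Z} (hK : IsCompact K) :
    ∃ f : ℕ → Z → Cn N, (∀ k, Differentiable ℂ (f k)) ∧
      Tendsto (fun k => eLpNorm (f k - h) 2 (μ.restrict K)) atTop (𝓝 0) := by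
  obtain ⟨ρ, h1, h2⟩ := exists_mol μ
  have K1 := hK.cthickening (r := 1)
  have h3 : MemLp ((cthickening 1 K).indicator h) 2 μ :=
    (memLp_indicator_iff_restrict K1.measurableSet).2 (hh _ K1)
  refine ⟨fun k => mo μ (ρ k) h, fun k => mo_holo he hh h0 (h1 k).1 (h1 k).2.1,
    tendsto_of_tendsto_of_tendsto_of_le_of_le tendsto_const_nhds (h2 _ _ h3) (fun _ => zero_le)
      fun k => ?_⟩
  refine le_trans (le_of_eq (eLpNorm_congr_ae ?_))
    (eLpNorm_mono_measure _ (Measure.restrict_le_self (s := K)))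
  filter_upwards [ae_restrict_mem hK.measurableSet] with z hz
  simp only [Pi.sub_apply, indicator_of_mem (self_subset_cthickening K hz), mo]
  congr 2; ext1 t
  by_cases ht : t ∈ cthickening 1 K
  · rw [indicator_of_mem ht]
  · rw [(h1 k).2.2 _ (not_lt.1 fun h => ht (mem_cthickening_of_dist_le _ z _ _ hz (by
      rw [dist_comm, dist_eq_norm]; exact h.le))), zero_smul, zero_smul]

theorem twisted (hW : ContDiff ℝ 2 W) (hH : ∀ z, IsH (W z)) (hp : ∀ z v, v ≠ 0 → 0 < W z v v)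
    {g u : Z → Cn N} (hg : ContDiff ℝ 1 g) (hg' : HasCompactSupport g) (hu : L2l μ u)
    (h0 : ∀ α : J → Z → Cn N, (∀ j, ContDiff ℝ 1 (α j) ∧ HasCompactSupport (α j)) →
      ∫ z, W z (u z) (tau e W α z) ∂μ = ∫ z, W z (g z) (tau e W α z) ∂μ) {Ψ γ : Z → ℝ}
    (hΨ : ContDiff ℝ 2 Ψ) (hΨ' : HasCompactSupport (fderiv ℝ Ψ))
    (hγ : Integrable (fun z => Real.exp (Ψ z) * γ z) μ) (hγ0 : ∀ z, 0 ≤ γ z)
    (h : ∀ z α, ∃ C, 2 * pr e (W z) (fderiv ℝ g z) α + 2 * W z (u z) (xi e (fderiv ℝ Ψ z) α) ≤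
      nk e W z α C + lev e (fderiv ℝ (fderiv ℝ Ψ) z) (W z) α + γ z) {α : J → Z → Cn N}
    (hα : ∀ j, ContDiff ℝ 1 (α j) ∧ HasCompactSupport (α j)) :
    -(2 * ∫ z, Real.exp (Ψ z) * W z (u z) (tau e W α z) ∂μ) ≤
      ∫ z, Real.exp (Ψ z) * W z (tau e W α z) (tau e W α z) ∂μ +
        ∫ z, Real.exp (Ψ z) * γ z ∂μ := by
  have p1 := hΨ.of_le one_le_two
  have p2 := p1.continuous_fderiv one_ne_zero
  have p3 : ∀ z, fderiv ℝ (fun z => Real.exp (Ψ z)) z = Real.exp (Ψ z) • fderiv ℝ Ψ z := fun z =>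
    (p1.differentiable one_ne_zero z).hasFDerivAt.exp.fderiv
  have p4 : ∀ z, Real.exp (-Ψ z) * Real.exp (Ψ z) = 1 := fun z => by simp [← Real.exp_add]
  have g1 := db_cont (e := e) hg
  have g2 : HasCompactSupport (db e g) := .intro (hg'.fderiv ℝ) fun z hz => by
    ext1 j; simp [db, image_eq_zero_of_notMem_tsupport hz]
  have W1 : ∀ z, IsH (Real.exp (-Ψ z) • W z) := fun z =>
    ⟨fun u v => by simp [(hH z).symm u], fun u v => by simp [(hH z).inv]⟩
  let v : Z → J → Cn N := fun z j =>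
    Real.exp (Ψ z) • db e g z j + dbs e (fderiv ℝ Ψ z) j (Real.exp (Ψ z) • u z)
  have u1 : L2l μ fun z => Real.exp (Ψ z) • u z :=
    hu.hom (Φ := fun z x => Real.exp (Ψ z) • x) (by fun_prop) fun _ _ _ => smul_comm _ _ _
  have u2 : ∀ j, L2l μ fun z => dbs e (fderiv ℝ Ψ z) j (Real.exp (Ψ z) • u z) := fun j =>
    u1.hom (Φ := fun z x => dbs e (fderiv ℝ Ψ z) j x)
      (dbs_cont (p2.comp continuous_fst) continuous_snd j) fun _ => dbs_smul _ _
  have u3 : ∀ j, L2l μ fun z => Real.exp (Ψ z) • db e g z j := fun j => l2l_cont (by fun_prop)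
  have v1 : L2l μ v := fun C hC => memLp_pi_iff.2 fun j => (u3 j C hC).add (u2 j C hC)
  have v2 : ∀ z ∉ tsupport (db e g) ∪ tsupport (fderiv ℝ Ψ), v z = 0 := fun z hz => by
    ext1 j
    simp [v, dbs, image_eq_zero_of_notMem_tsupport fun h => hz (.inl h),
      image_eq_zero_of_notMem_tsupport fun h => hz (.inr h)]
  have W2 : ContDiff ℝ 2 fun z => Real.exp (-Ψ z) • W z := hΨ.neg.exp.smul hW
  have a1 := cc_smul hα p1.exp
  have key := apriori (μ := μ) (e := e) (W := fun z => Real.exp (-Ψ z) • W z) W2 W1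
    (fun z v hv => mul_pos (Real.exp_pos _) (hp z v hv)) v1 (fun j =>
      (quad_int (Θ := fun z x => (Real.exp (-Ψ z) • W z) (x j) (x j)) (by
        have := W2.continuous; fun_prop) (fun z t x => by simp; ring) (g2.union hΨ')
        (v1 _ (g2.union hΨ'))).integrable_of_forall_notMem_eq_zero fun z hz => by simp [v2 z hz])
    hγ (fun z => mul_nonneg (Real.exp_pos _).le (hγ0 z))
    (fun θ => closed_of_weak u1 v1 fun θ θ1 θ2 j => ?_) (fun z β => ?_) a1
  · have b0 : ∀ z, xi e (fderiv ℝ (fun z => Real.exp (Ψ z)) z) (fun j => α j z) =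
        Real.exp (Ψ z) • xi e (fderiv ℝ Ψ z) fun j => α j z := fun z => by
      simp only [p3, xi, smul_apply, smul_eq_mul, mul_smul, Finset.smul_sum]
    have b1 := fun W z => tau_smul (e := e) (W := W) (fun j => (hα j).1.differentiable one_ne_zero z)
      (p1.exp.differentiable one_ne_zero z)
    have b2 : ∀ z, tau e (fun z => Real.exp (-Ψ z) • W z) (fun j w => Real.exp (Ψ w) • α j w) z =
        Real.exp (Ψ z) • tau e W α z := fun z => by
      rw [b1, b0, tau, cn_twist (p1.differentiable one_ne_zero z) (hW.differentiable two_ne_zero z)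
        (hp z), tau, ← smul_add]
      congr 1; abel
    have b3 : ∀ {u : Z → Cn N} {t : Z → Cn N}, L2l μ u → Continuous t → HasCompactSupport t →
        Integrable (fun z => W z (u z) (t z)) μ := fun {u t} hu h1 h2 =>
      hu.int' (Φ := fun z x => W z x (t z)) (by have := hW.continuous; fun_prop)
        (fun _ _ _ => by simp) h2 fun z hz => by simp [image_eq_zero_of_notMem_tsupport hz]
    obtain ⟨t1, t2⟩ := tau_cont (e := e) hW hp a1
    obtain ⟨t3, t4⟩ := tau_cont (e := e) hW hp hα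
    have i1 := b3 hu t1 t2
    have i2 := b3 (l2l_cont hg.continuous) t1 t2
    have i3 := (b3 hu (p1.exp.continuous.smul t3) (.intro t4 fun z hz => by
      simp [image_eq_zero_of_notMem_tsupport hz]))
    have i4 : Integrable (fun z => ∑ j, W z (db e g z j) (Real.exp (Ψ z) • α j z)) μ :=
      integrable_finsetSum _ fun j _ => b3 (l2l_cont ((continuous_apply j).comp g1))
        (a1 j).1.continuous (a1 j).2
    have b4 := adj (μ := μ) (e := e) hW hH hp hg a1
    simp only [pr_eq (hH _)] at b4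
    rw [integral_add i4 i2, ← h0 _ a1, ← integral_add i4 i1] at b4
    have b5 : ∫ z, ∑ j, (Real.exp (-Ψ z) • W z) (v z j) (Real.exp (Ψ z) • α j z) ∂μ =
        -∫ z, Real.exp (Ψ z) * W z (u z) (tau e W α z) ∂μ := by
      simp only [Pi.smul_apply', map_smul, smul_eq_mul] at i3
      rw [← zero_sub, ← b4]
      refine Eq.trans ?_ (integral_sub (i4.add i1) i3)
      congr 1; ext1 z
      simp only [Pi.add_apply, b1, b0, map_add, map_smul, xi_eq (hH z), v, dbs_smul, smul_apply,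
        add_apply, smul_eq_mul, ← mul_assoc, mul_add, mul_right_comm _ _ (Real.exp (Ψ z)),
        Finset.sum_add_distrib, Finset.mul_sum]
      simp only [mul_assoc, ← Finset.mul_sum]
      linear_combination (Real.exp (Ψ z) * ∑ j, W z (db e g z j) (α j z) +
        Real.exp (Ψ z) * ∑ j, W z (dbs e (fderiv ℝ Ψ z) j (u z)) (α j z)) * p4 z
    rw [b5] at key
    simp only [b2, map_smul, smul_apply, smul_eq_mul, ← mul_assoc, mul_comm _ (Real.exp (-Ψ _)),
      p4, one_mul] at key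
    linarith
  · have b1 := θ1.mul p1.exp
    have b2 : HasCompactSupport fun z => θ z * Real.exp (Ψ z) := θ2.mul_right
    have b3 := parts (μ := μ) (e := e) b1 b2 hg j
    rw [← weak_holo hW hH hp hu (l2l_cont hg.continuous) h0 b1 b2] at b3
    simp only [v, smul_add]
    rw [integral_add ((u3 j).int θ1.continuous θ2) ((u2 j).int θ1.continuous θ2)]
    simp only [← mul_smul]
    rw [b3, neg_add_eq_iff_eq_add, ← sub_eq_add_neg, eq_sub_iff_add_eq,
      ← integral_add ((u2 j).int θ1.continuous θ2) (dbs_int θ1 θ2 u1 j)]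
    congr 1; ext1 z
    rw [fderiv_fun_mul (θ1.differentiable one_ne_zero z) (p1.exp.differentiable one_ne_zero z), p3,
      smul_smul, dbs_lin, dbs_smul, dbs_smul, mul_smul]
  · obtain ⟨C, hC⟩ := h z (Real.exp (-Ψ z) • β)
    refine ⟨Real.exp (Ψ z) • (C - xi e (fderiv ℝ Ψ z) (Real.exp (-Ψ z) • β)), ?_⟩
    have b1 : β = Real.exp (Ψ z) • Real.exp (-Ψ z) • β := by
      rw [smul_smul, mul_comm, p4, one_smul]
    generalize Real.exp (-Ψ z) • β = β' at hC b1
    subst b1
    rw [nk_smul, nk_twist hΨ.contDiffAt hW.contDiffAt (.of_forall hH)]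
    rw [pr_eq (hH z), xi_eq (hH z)] at hC
    simp only [v, dbs_smul, map_add, map_smul, smul_apply, add_apply, Pi.smul_apply, smul_eq_mul,
      mul_add, Finset.sum_add_distrib, ← Finset.mul_sum]
    have b2 := mul_le_mul_of_nonneg_left hC (Real.exp_pos (Ψ z)).le
    refine (le_of_eq ?_).trans (b2.trans (le_of_eq ?_))
    · linear_combination (2 * Real.exp (Ψ z) * ∑ j, W z (db e g z j) (β' j) +
        2 * Real.exp (Ψ z) * ∑ j, W z (dbs e (fderiv ℝ Ψ z) j (u z)) (β' j)) * p4 z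
    · linear_combination -(Real.exp (Ψ z) * (nk e W z β' C +
        lev e (fderiv ℝ (fderiv ℝ Ψ) z) (W z) β')) * p4 z

theorem l2 (he : Submodule.span ℂ (range e) = ⊤) (hW : ContDiff ℝ 2 W) (hH : ∀ z, IsH (W z))
    (hp : ∀ z v, v ≠ 0 → 0 < W z v v) {g : Z → Cn N} (hg : ContDiff ℝ 1 g)
    (hg' : HasCompactSupport g) {ι : Type} [Finite ι] {Ψ c κ : ι → Z → ℝ} {k : ι → ℝ}
    (hΨ : ∀ i, ContDiff ℝ 2 (Ψ i)) (hΨ' : ∀ i, HasCompactSupport fun z => Ψ i z - k i)
    (hc : ∀ i, Continuous (c i)) (hc' : ∀ i, HasCompactSupport (c i)) (hc0 : ∀ i z, 0 ≤ c i z)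
    (hκ : ∀ i, Continuous (κ i)) (hκ' : ∀ i z, κ i z ∈ Icc (0 : ℝ) 1)
    (h : ∀ i z α u, ∃ C, 2 * pr e (W z) (fderiv ℝ g z) α + 2 * W z u (xi e (fderiv ℝ (Ψ i) z) α) ≤
      nk e W z α C + lev e (fderiv ℝ (fderiv ℝ (Ψ i)) z) (W z) α + c i z + κ i z * W z u u)
    {K : Set Z} (hK : IsCompact K) {η : ℝ} (hη : 0 < η) :
    ∃ f : Z → Cn N, Differentiable ℂ f ∧ ∀ i,
      ∫ z in K, (1 - κ i z) * Real.exp (Ψ i z) * W z (g z - f z) (g z - f z) ∂μ ≤
        ∫ z, Real.exp (Ψ i z) * c i z ∂μ + η := by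
  obtain ⟨u, u1, u2, u3, u4⟩ := exists_sol (μ := μ) (e := e) hW hH hp hg.continuous hg'
  have g1 := l2l_cont (μ := μ) hg.continuous
  have W0 : ∀ z x, 0 ≤ W z x x := fun z x => by
    by_cases hx : x = 0
    · simp [hx]
    · exact (hp z x hx).le
  obtain ⟨f, f1, f2⟩ := exists_approx he (h := g - u) (fun C hC => (g1 C hC).sub (u1 C hC))
    (fun θ θ1 θ2 j => by
      rw [← sub_eq_zero.2 (weak_holo hW hH hp u1 g1 u3 θ1 θ2 j).symm,
        ← integral_sub (dbs_int θ1 θ2 g1 j) (dbs_int θ1 θ2 u1 j)]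
      simp only [dbs, Pi.sub_apply, smul_sub]
      congr 1; ext1 z; abel) hK
  suffices ∀ i, ∀ᶠ k in atTop, ∫ z in K, (1 - κ i z) * Real.exp (Ψ i z) *
      W z (g z - f k z) (g z - f k z) ∂μ ≤ ∫ z, Real.exp (Ψ i z) * c i z ∂μ + η from
    let ⟨k, hk⟩ := (eventually_all.2 this).exists; ⟨f k, f1 k, hk⟩
  intro i
  have p0 := (hΨ i).continuous
  obtain ⟨C, hC⟩ := (p0.sub continuous_const).bounded_above_of_compact_support (hΨ' i)
  have p1 : ∀ z, ‖Real.exp (Ψ i z)‖ ≤ Real.exp (C + k i) := fun z => by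
    rw [Real.norm_of_nonneg (Real.exp_pos _).le, Real.exp_le_exp]
    exact sub_le_iff_le_add.1 ((le_abs_self _).trans (hC z))
  have p2 : HasCompactSupport (fderiv ℝ (Ψ i)) := by
    convert (hΨ' i).fderiv ℝ using 1
    ext1 z; rw [fderiv_sub_const]
  have i1 : Integrable (fun z => Real.exp (Ψ i z) * c i z) μ :=
    (p0.rexp.mul (hc i)).integrable_of_hasCompactSupport (hc' i).mul_left
  have i2 := u2.bdd_mul p0.rexp.aestronglyMeasurable (.of_forall p1)
  have i3 := i2.bdd_mul (hκ i).aestronglyMeasurable (c := 1) (.of_forall fun z => by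
    rw [Real.norm_of_nonneg (hκ' i z).1]; exact (hκ' i z).2)
  have a1 : ∀ z, Real.exp (Ψ i z) * (c i z + κ i z * W z (u z) (u z)) = Real.exp (Ψ i z) * c i z +
      κ i z * (Real.exp (Ψ i z) * W z (u z) (u z)) := fun z => by ring
  have a2 := u4 _ _ _ p0.rexp p1 fun α hα => twisted hW hH hp hg hg' u1 u3 (hΨ i) p2
    (γ := fun z => c i z + κ i z * W z (u z) (u z)) (by simp only [a1]; exact i1.add i3)
    (fun z => add_nonneg (hc0 i z) (mul_nonneg (hκ' i z).1 (W0 z _)))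
    (fun z α => by simpa only [add_assoc] using h i z α (u z)) hα
  simp only [a1] at a2
  rw [integral_add i1 i3, ← sub_le_iff_le_add, ← integral_sub i2 i3] at a2
  have a3 := quad_lim (μ := μ) (Θ := fun z x => (1 - κ i z) * Real.exp (Ψ i z) * W z x x)
    (by have := hW.continuous; have := hκ i; fun_prop) (fun z t x => by simp; ring) hK
    (X := fun k => g - f k) (fun k => (g1 K hK).sub (l2l_cont (f1 k).continuous K hK)) (u1 K hK)
    (f2.congr fun k => by rw [← eLpNorm_neg]; congr 1; abel)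
  refine a3.eventually_le_const (lt_of_le_of_lt ?_ (lt_add_of_le_of_pos a2 hη))
  refine le_trans (le_of_eq ?_) (setIntegral_le_integral (s := K) (i2.sub i3)
    (.of_forall fun z => ?_))
  · congr 1; ext1 z; ring
  · have := mul_nonneg (sub_nonneg.2 (hκ' i z).2) (mul_nonneg (Real.exp_pos (Ψ i z)).le (W0 z (u z)))
    simp only [Pi.sub_apply, Pi.zero_apply]
    linarith

end Pool.Agent.Lib.MP_124863_gt.Ok
end
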