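import Pool.Agent.Lib.MP_124863_gt.OkSt

-- part Pool.Agent.Lib.MP_124863_gt.OkStp
section

/-! The deformation step. -/

open Filter Topology Set Metric Complex MeasureTheory
open scoped Real ENNReal

namespace Pool.Agent.Lib.MP_124863_gt.Ok

open Ec

theorem stp_disc {w : ℂ} {e x : ℝ} (hw : w ≠ 0) (he : 0 < e) (h : Real.log ‖w‖ + e ≤ x) :
    closedBall w (‖w‖ * min e 1 / 2) ⊆ closedBall 0 (Real.exp x) := by
  refine closedBall_subset_closedBall' ?_
  have h1 : 0 < ‖w‖ := norm_pos_iff.2 hw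
  have h2 := Real.exp_le_exp.2 h
  rw [Real.exp_add, Real.exp_log h1] at h2
  have h3 := mul_le_mul_of_nonneg_left (Real.add_one_le_exp e) h1.le
  have h4 := mul_le_mul_of_nonneg_left (min_le_left e 1) h1.le
  have h5 := mul_pos h1 he
  rw [dist_zero_right]
  linarith

theorem stp_av {f g k : ℂ → ℝ} {w : ℂ} {ρ α c : ℝ} (hρ : 0 < ρ)
    (hf : ContinuousOn f (closedBall w ρ)) (hg : ContinuousOn g (closedBall w ρ))
    (hk : ContinuousOn k (closedBall w ρ)) (h : ∀ ζ ∈ closedBall w ρ, f ζ ≤ g ζ + α * k ζ + c) :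
    ⨍ ζ in closedBall w ρ, f ζ ≤
      (⨍ ζ in closedBall w ρ, g ζ) + α * (⨍ ζ in closedBall w ρ, k ζ) + c := by
  have K := isCompact_closedBall w ρ
  have i1 : IntegrableOn f (closedBall w ρ) := hf.integrableOn_compact K
  have i2 : IntegrableOn g (closedBall w ρ) := hg.integrableOn_compact K
  have i3 : IntegrableOn (fun ζ => α * k ζ) (closedBall w ρ) :=
    (hk.integrableOn_compact K).const_mul α
  have i4 : IntegrableOn (fun _ : ℂ => c) (closedBall w ρ) := integrableOn_const K.measure_lt_top.ne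
  have p : 0 < volume.real (closedBall w ρ) :=
    ENNReal.toReal_pos (measure_closedBall_pos _ w hρ).ne' K.measure_lt_top.ne
  have := setIntegral_mono_on i1 ((i2.add i3).add i4) measurableSet_closedBall h
  rw [integral_add' (i2.add i3) i4, integral_add' i2 i3, integral_const_mul, setIntegral_const] at this
  simp only [setAverage_eq, smul_eq_mul] at this ⊢
  refine (mul_le_mul_of_nonneg_left this (inv_pos.2 p).le).trans_eq ?_
  field_simp

theorem stp_av_const {f : ℂ → ℝ} {w : ℂ} {ρ c : ℝ} (hρ : 0 < ρ)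
    (hf : ContinuousOn f (closedBall w ρ)) (h : ∀ ζ ∈ closedBall w ρ, f ζ ≤ c) :
    ⨍ ζ in closedBall w ρ, f ζ ≤ c := by
  simpa using stp_av (g := fun _ => 0) (k := fun _ => 0) (α := 0) (c := c) hρ hf continuousOn_const
    continuousOn_const (by simpa using h)

theorem stp_amgm {x k : ℝ} (hx : 0 ≤ x) (hk : 0 < k) : √x ≤ 1 / (2 * k) * x + k / 2 := by
  have h1 := Real.sq_sqrt hx
  have h2 : 1 / (2 * k) * x + k / 2 - √x = (√x - k) ^ 2 / (2 * k) := by
    field_simp; linear_combination (-1) * h1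
  have h3 : 0 ≤ (√x - k) ^ 2 / (2 * k) := by positivity
  linarith

theorem stp_gap {Γ g : ℂ → ℝ} {z a R₀ Λ T ϑ x : ℝ} {ν : ℝ≥0∞} (ha : 0 < a) (hR : Real.exp z ≤ R₀)
    (hΓ : ContinuousOn Γ (closedBall 0 (Real.exp (z - a))))
    (h0 : ∀ ζ ∈ closedBall 0 (Real.exp (z - a)), 0 ≤ Γ ζ)
    (hg : ContinuousOn g (closedBall 0 (Real.exp (z - a))))
    (hs : SM g (closedBall 0 (Real.exp (z - a))))
    (hb : ∀ ζ ∈ closedBall 0 (Real.exp (z - a)), g ζ ^ 2 ≤ Λ * (‖ζ‖ ^ 2 * Γ ζ))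
    (hν : ∫⁻ ζ in closedBall 0 (Real.exp (z - a)),
      ENNReal.ofReal (Γ ζ / (‖ζ‖ * √(z - Real.log ‖ζ‖))) ≤ ν)
    (hΛ : 0 < Λ) (hT : 0 < T) (hϑ : 0 < ϑ) (h3 : 8 * R₀ * Λ ≤ T ^ 2 * (ϑ * √ϑ)) {w : ℂ}
    (hw : ‖w‖ = Real.exp (z - a - x)) (hx : a < x) (hw' : T < g w) :
    ENNReal.ofReal x ≤ ENNReal.ofReal ϑ + ENNReal.ofReal ϑ * ν := by
  rcases eq_or_ne ν ⊤ with rfl | hν'
  · rw [ENNReal.mul_top (by simpa using hϑ), add_top]; exact le_top
  lift ν to NNReal using hν'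
  have x0 : 0 < x := ha.trans hx
  have w0 : 0 < ‖w‖ := hw ▸ Real.exp_pos _
  have lw : Real.log ‖w‖ = z - a - x := by rw [hw, Real.log_exp]
  obtain ⟨d1, d2⟩ := fibre_av (R₀ := R₀) ha hR hΓ h0 (norm_pos_iff.1 w0) x0 (by linarith)
    (by linarith)
  have r0 : 0 < ‖w‖ * min x 1 / 2 := by have := lt_min x0 one_pos; positivity
  have c1 : ContinuousOn (fun ζ : ℂ => ‖ζ‖ ^ 2 * Γ ζ) (closedBall w (‖w‖ * min x 1 / 2)) :=
    (continuous_norm.pow 2).continuousOn.mul (hΓ.mono d1)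
  have a1 := (av_le (hg.mono d1) (hs.mono d1) r0 le_rfl).1
  have a2 := stp_av (g := fun _ => 0) (α := Λ / (2 * T)) (c := T / 2) r0 (hg.mono d1)
    continuousOn_const c1 fun ζ hζ => by
      have b1 := hb ζ (d1 hζ)
      have b2 : Λ / (2 * T) * (‖ζ‖ ^ 2 * Γ ζ) + T / 2 - g ζ =
          (Λ * (‖ζ‖ ^ 2 * Γ ζ) - g ζ ^ 2 + (g ζ - T) ^ 2) / (2 * T) := by field_simp; ring
      have b3 : 0 ≤ (Λ * (‖ζ‖ ^ 2 * Γ ζ) - g ζ ^ 2 + (g ζ - T) ^ 2) / (2 * T) :=
        div_nonneg (add_nonneg (by linarith) (sq_nonneg _)) (by positivity)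
      linarith
  have R0 : 0 < R₀ := (Real.exp_pos z).trans_le hR
  have d3 := d2.trans (mul_le_mul_right hν _)
  rw [← ENNReal.ofReal_coe_nnreal, ← ENNReal.ofReal_mul (by positivity),
    ENNReal.ofReal_le_ofReal_iff (by positivity)] at d3
  rw [← ENNReal.ofReal_coe_nnreal, ← ENNReal.ofReal_mul hϑ.le,
    ← ENNReal.ofReal_add hϑ.le (by positivity)]
  refine ENNReal.ofReal_le_ofReal ?_
  simp only [zero_add, MeasureTheory.average_zero] at a2
  generalize (⨍ ζ in closedBall w (‖w‖ * min x 1 / 2), ‖ζ‖ ^ 2 * Γ ζ) = X at a2 d3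
  obtain ⟨k1, k2⟩ := kp_sq x0
  have n0 : (0 : ℝ) ≤ ν := ν.2
  have e1 : T ^ 2 < Λ * X := by
    have : T / 2 < Λ / (2 * T) * X := by linarith
    rw [div_mul_eq_mul_div, lt_div_iff₀ (by positivity)] at this
    linarith
  have e2 : Λ * X ≤ T ^ 2 * (ϑ * √ϑ * (kp x ^ 2 * ν)) := by
    have := mul_le_mul_of_nonneg_left d3 hΛ.le
    have := mul_le_mul_of_nonneg_right h3 (show 0 ≤ kp x ^ 2 * ν by positivity)
    linarith
  have e3 : 1 < ϑ * √ϑ * (kp x ^ 2 * ν) :=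
    lt_of_mul_lt_mul_left (by linarith) (show 0 ≤ T ^ 2 by positivity)
  by_contra hc
  have e4 : ϑ + ϑ * ν < x := not_le.1 hc
  have e5 : 0 ≤ ϑ * ν := by positivity
  have e6 : √ϑ ≤ √x := Real.sqrt_le_sqrt (by linarith)
  have e7 : ϑ * ν * √ϑ ≤ x * √x := mul_le_mul (by linarith) e6 (by positivity) x0.le
  have e8 := mul_le_mul_of_nonneg_left e7 (show 0 ≤ kp x ^ 2 by positivity)
  linarith

theorem stp_inv {V V' Γ : ℂ → ℝ} {z z' z'' a R₀ c : ℝ} {ν : ℝ≥0∞} {s : ℝ → ℝ≥0∞} (ha : 0 < a)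
    (hR : Real.exp z ≤ R₀) (hz : z' ≤ z - a) (hz' : z'' ≤ z') (hc : 0 < c)
    (hΓ : ContinuousOn Γ (closedBall 0 (Real.exp (z - a))))
    (h0 : ∀ ζ ∈ closedBall 0 (Real.exp (z - a)), 0 ≤ Γ ζ)
    (hV : ContinuousOn V (closedBall 0 (Real.exp z')))
    (hV' : ContinuousOn V' (closedBall 0 (Real.exp z'))) (hs : SM V' (closedBall 0 (Real.exp z')))
    (hb : ∀ ζ ∈ closedBall 0 (Real.exp z'), V' ζ ≤ 2 ∧ V' ζ ≤ V ζ + c * √(‖ζ‖ ^ 2 * Γ ζ))
    (hν : ∫⁻ ζ in closedBall 0 (Real.exp (z - a)),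
      ENNReal.ofReal (Γ ζ / (‖ζ‖ * √(z - Real.log ‖ζ‖))) ≤ ν)
    (s0 : Measurable s) (s1 : ∀ l ∈ Ioo z (Real.log R₀), 1 ≤ s l)
    (s2 : ∀ w : ℂ, w ≠ 0 → ∀ ρ, 0 < ρ → ρ ≤ ‖w‖ * min (z - Real.log ‖w‖) 1 / 2 →
      ENNReal.ofReal (2 * ⨍ ζ in closedBall w ρ, V ζ) ≤ s (Real.log ‖w‖))
    (hl : z'' < z' → ∀ r, Real.exp z'' ≤ r → r ≤ Real.exp z' → ∃ w, ‖w‖ = r ∧ 1 / 2 < V' w) :
    ∃ s' : ℝ → ℝ≥0∞, Measurable s' ∧ ∫⁻ l, s' l ≤ (∫⁻ l, s l) + ENNReal.ofReal (8 * (z - z')) +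
      ENNReal.ofReal (c * √(8 * R₀)) * (1 + ν) * ∫⁻ e, ENNReal.ofReal (kp e) ∧
      (∀ l ∈ Ioo z'' (Real.log R₀), 1 ≤ s' l) ∧ ∀ w : ℂ, w ≠ 0 → ∀ ρ, 0 < ρ →
        ρ ≤ ‖w‖ * min (z'' - Real.log ‖w‖) 1 / 2 →
        ENNReal.ofReal (2 * ⨍ ζ in closedBall w ρ, V' ζ) ≤ s' (Real.log ‖w‖) := by
  have R0 : 0 < R₀ := (Real.exp_pos z).trans_le hR
  obtain ⟨s', hs'⟩ : ∃ s' : ℝ → ℝ≥0∞, s' = fun l => s l + (Icc (2 * z' - z) z).indicator (fun _ => 4) l +
      ENNReal.ofReal (c * √(8 * R₀)) * (1 + ν) * ENNReal.ofReal (kp (z' - l)) := ⟨_, rfl⟩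
  have m1 : Measurable fun l : ℝ => (Icc (2 * z' - z) z).indicator (fun _ => (4 : ℝ≥0∞)) l :=
    measurable_const.indicator measurableSet_Icc
  have m2 : Measurable fun l : ℝ => ENNReal.ofReal (kp (z' - l)) :=
    (kp_meas.comp (measurable_const.sub measurable_id)).ennreal_ofReal
  have b1 : ∀ l, s l ≤ s' l := fun l => by
    rw [hs']; exact le_self_add.trans le_self_add
  have b2 : ∀ l ∈ Icc (2 * z' - z) z, 4 ≤ s' l := fun l hl => by
    rw [hs']; simp only [indicator_of_mem hl]; exact le_add_self.trans le_self_add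
  have AB : ∀ w : ℂ, w ≠ 0 → ∀ ρ, 0 < ρ → ρ ≤ ‖w‖ * min (z' - Real.log ‖w‖) 1 / 2 →
      ENNReal.ofReal (2 * ⨍ ζ in closedBall w ρ, V' ζ) ≤ s' (Real.log ‖w‖) := by
    intro w hw ρ r0 r1
    have w0 : 0 < ‖w‖ := norm_pos_iff.2 hw
    generalize he : z' - Real.log ‖w‖ = e at r1
    have r2 := r0.trans_le r1
    have e0 : 0 < e := (lt_min_iff.1 ((mul_pos_iff_of_pos_left w0).1
      (show 0 < ‖w‖ * min e 1 by linarith))).1
    have d1 := stp_disc (x := z') hw e0 (by linarith)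
    have d2 := (closedBall_subset_closedBall r1).trans d1
    rcases le_or_gt e (z - z') with h | h
    · refine le_trans ?_ (b2 _ ⟨by linarith, by linarith⟩)
      have := stp_av_const r0 (hV'.mono d2) fun ζ hζ => (hb ζ (d2 hζ)).1
      refine (ENNReal.ofReal_le_ofReal (show _ ≤ (4 : ℝ) by linarith)).trans_eq ?_
      simp
    · obtain ⟨f1, f2⟩ := fibre_av (R₀ := R₀) ha hR hΓ h0 hw e0 (by linarith) (by linarith)
      obtain ⟨k1, -⟩ := kp_sq e0
      have k2 : 0 < √(8 * R₀) * kp e := by positivity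
      have k3 : 8 * R₀ * kp e ^ 2 = (√(8 * R₀) * kp e) ^ 2 := by
        rw [mul_pow, Real.sq_sqrt (by positivity)]
      have a1 := (av_le (hV'.mono d1) (hs.mono d1) r0 r1).2
      have a2 := stp_av (α := c * (1 / (2 * (√(8 * R₀) * kp e)))) (c := c * (√(8 * R₀) * kp e / 2))
        r2 (hV'.mono d1) (hV.mono d1) ((continuous_norm.pow 2).continuousOn.mul (hΓ.mono f1))
        fun ζ hζ => by
          have := mul_le_mul_of_nonneg_left
            (stp_amgm (mul_nonneg (sq_nonneg ‖ζ‖) (h0 ζ (f1 hζ))) k2) hc.le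
          have := (hb ζ (d1 hζ)).2
          simp only [Pi.mul_apply, Pi.pow_apply]
          linarith
      have a3 := s2 w hw _ r2 (by
        gcongr; linarith)
      have a4 := f2.trans (mul_le_mul_right hν _)
      simp only [Pi.mul_apply, Pi.pow_apply] at a2
      rw [k3] at a4
      rw [hs']
      simp only [he]
      generalize √(8 * R₀) = k at k2 a2 a4 ⊢
      generalize (⨍ ζ in closedBall w (‖w‖ * min e 1 / 2), ‖ζ‖ ^ 2 * Γ ζ) = X at a2 a4
      generalize (⨍ ζ in closedBall w (‖w‖ * min e 1 / 2), V ζ) = Y at a2 a3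
      have a5 : 2 * ⨍ ζ in closedBall w ρ, V' ζ ≤ 2 * Y + (c * (k * kp e) + c / (k * kp e) * X) := by
        have : c / (k * kp e) = 2 * (c * (1 / (2 * (k * kp e)))) := by field_simp
        rw [this]
        linarith
      refine (ENNReal.ofReal_le_ofReal a5).trans (ENNReal.ofReal_add_le.trans
        (add_le_add (a3.trans le_self_add) (ENNReal.ofReal_add_le.trans ?_)))
      have a6 : ENNReal.ofReal (c / (k * kp e) * X) ≤ ENNReal.ofReal (c * (k * kp e)) * ν := by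
        rw [ENNReal.ofReal_mul (by positivity)]
        refine (mul_le_mul_right a4 _).trans_eq ?_
        rw [← mul_assoc, ← ENNReal.ofReal_mul (by positivity)]
        congr 2
        field_simp
      refine (add_le_add_right a6 _).trans_eq ?_
      rw [mul_right_comm, ← ENNReal.ofReal_mul' k1.le, mul_add, mul_one, mul_assoc c]
  refine ⟨s', hs' ▸ (s0.add m1).add (m2.const_mul _), ?_, fun l hl' => ?_,
    fun w hw ρ r0 r1 => AB w hw ρ r0 (r1.trans (by gcongr))⟩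
  · simp only [hs']
    rw [lintegral_add_left (s0.fun_add m1), lintegral_add_left s0, lintegral_const_mul _ m2,
      lintegral_sub_left_eq_self (fun e => ENNReal.ofReal (kp e)) z',
      lintegral_indicator_const measurableSet_Icc, Real.volume_Icc]
    refine le_of_eq ?_
    congr 2
    rw [show (4 : ℝ≥0∞) = ENNReal.ofReal 4 by simp, ← ENNReal.ofReal_mul (by norm_num)]
    congr 1
    ring
  · rcases lt_or_ge z l with h | h
    · exact (s1 l ⟨h, hl'.2⟩).trans (b1 l)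
    rcases le_or_gt (2 * z' - z) l with h' | h'
    · exact le_trans (by norm_num) (b2 l ⟨h', h⟩)
    have l1 : l < z' := by linarith
    obtain ⟨w, w1, w2⟩ := hl (hl'.1.trans l1) (Real.exp l) (Real.exp_le_exp.2 hl'.1.le)
      (Real.exp_le_exp.2 l1.le)
    have w0 : 0 < ‖w‖ := w1 ▸ Real.exp_pos _
    have lw : Real.log ‖w‖ = l := by rw [w1, Real.log_exp]
    have e0 : 0 < z' - Real.log ‖w‖ := by linarith
    have r0 : 0 < ‖w‖ * min (z' - Real.log ‖w‖) 1 / 2 := by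
      have := lt_min e0 one_pos; positivity
    have d1 := stp_disc (x := z') (norm_pos_iff.1 w0) e0 (by linarith)
    have a1 := (av_le (hV'.mono d1) (hs.mono d1) r0 le_rfl).1
    have a2 := AB w (norm_pos_iff.1 w0) _ r0 le_rfl
    rw [← lw]
    exact le_trans (ENNReal.one_le_ofReal.2 (by linarith)) a2

theorem stp_vv {Γ : ℂ → ℝ} {R R' d : ℝ} {ν : NNReal} (hd : 0 < d) (hR : R ≤ R')
    (hΓ : ContinuousOn Γ (closedBall 0 R')) (h0 : ∀ ζ ∈ closedBall 0 R', 0 ≤ Γ ζ)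
    (hν : ∫⁻ ζ in closedBall 0 R', ENNReal.ofReal (Γ ζ / (‖ζ‖ * (1 + ‖ζ‖ ^ 2) ^ 4)) ≤ ν) :
    ∫ w in closedBall 0 R, vv d (‖w‖ ^ 2) * Γ w ≤ ν := by
  have s := closedBall_subset_closedBall (x := (0 : ℂ)) hR
  have c : Continuous fun w : ℂ => vv d (‖w‖ ^ 2) := by
    unfold vv
    refine Continuous.mul (Continuous.inv₀ (by fun_prop) fun w => ?_)
      (Continuous.inv₀ (by fun_prop) fun w => ?_) <;> positivity
  rw [integral_eq_lintegral_of_nonneg_ae ((ae_restrict_mem measurableSet_closedBall).mono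
    fun w hw => mul_nonneg (vv_pos hd (sq_nonneg _)).le (h0 w (s hw)))
    ((c.continuousOn.mul (hΓ.mono s)).aestronglyMeasurable measurableSet_closedBall)]
  refine ENNReal.toReal_le_of_le_ofReal ν.2 ?_
  rw [ENNReal.ofReal_coe_nnreal]
  refine le_trans (lintegral_mono_ae ?_) ((lintegral_mono_set s).trans hν)
  filter_upwards [ae_restrict_mem measurableSet_closedBall,
    ae_restrict_of_ae (Measure.ae_ne volume (0 : ℂ))] with w h1 h2
  refine ENNReal.ofReal_le_ofReal ?_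
  have w0 : 0 < ‖w‖ := norm_pos_iff.2 h2
  rw [div_eq_inv_mul, mul_inv]
  refine mul_le_mul_of_nonneg_right (mul_le_mul_of_nonneg_right (inv_anti₀ w0 ?_) (by positivity))
    (h0 w (s h1))
  exact Real.le_sqrt_of_sq_le (by linarith [sq_nonneg d])

theorem stp_ext {X : Type} [TopologicalSpace X] [MeasurableSpace X] [OpensMeasurableSpace X]
    {K : Set X} (hK : IsClosed K) {f : X → ℝ} (hf : ContinuousOn f K) :
    ∃ g : X → ℝ, Measurable g ∧ ∀ x ∈ K, g x = f x := by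
  classical
  exact ⟨K.piecewise f fun _ => 0, hf.measurable_piecewise continuousOn_const hK.measurableSet,
    fun x hx => piecewise_eq_of_mem _ _ _ hx⟩

theorem stp_hsm {X : Type} [NormedAddCommGroup X] [NormedSpace ℂ X] {Φ Ψ : X → ℝ} {B : Set X}
    (h : HSM Ψ B) (hc : ContinuousOn Ψ B) {k : ℝ} (e : ∀ z ∈ B, Φ z = Ψ z + k) : HSM Φ B := by
  intro Z hZ hB
  have s : sphere (0 : ℂ) |1| ⊆ closedBall 0 1 := by rw [abs_one]; exact sphere_subset_closedBall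
  have i : CircleIntegrable (fun ζ => Ψ (Z ζ)) 0 1 := ContinuousOn.circleIntegrable'
    (hc.comp hZ.continuous.continuousOn fun ζ hζ => hB ζ (s hζ))
  rw [e _ (hB 0 (mem_closedBall_self zero_le_one)), Real.circleAverage_congr_sphere
    (f₂ := fun ζ => Ψ (Z ζ) + k) fun ζ hζ => e _ (hB ζ (s hζ)),
    Real.circleAverage_fun_add i (circleIntegrable_const _ _ _), Real.circleAverage_const]
  exact add_le_add_left (h Z hZ hB) k

section

variable {E : Type} [NormedAddCommGroup E] [MeasurableSpace E] [BorelSpace E] {μ : Measure E}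

omit [MeasurableSpace E] [BorelSpace E] in
theorem stp_closed {L : Set E} (hL : IsClosed L) {v : E → ℝ} (hv : ContinuousOn v L) :
    IsClosed (Hc L v) :=
  IsClosed.isClosed_le (s := Prod.fst ⁻¹' L) (hL.preimage continuous_fst)
    continuous_snd.norm.continuousOn
    (Real.continuous_exp.comp_continuousOn (hv.comp continuousOn_fst fun _ h => h).neg)

theorem stp_fib [SFinite μ] {L : Set E} (hL : IsClosed L) {v β : E → ℝ} (hv : ContinuousOn v L)
    (hβ : ContinuousOn β L) {Γ κ κ' : E × ℂ → ℝ} (hΓ : ContinuousOn Γ (Hc L v))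
    (hκ : Measurable κ') (hκ' : ∀ z : E × ℂ, z.1 ∈ L → κ' z = κ z) {C : ℝ≥0∞}
    (hC : ∫⁻ z in Hc L v, ENNReal.ofReal (Real.exp (-β z.1) * Γ z / κ z) ∂μ.prod volume ≤ C) :
    ∃ ν : E → ℝ≥0∞, Measurable ν ∧ (∀ b ∈ L, ∫⁻ w in closedBall 0 (Real.exp (-v b)),
      ENNReal.ofReal (Γ (b, w) / κ (b, w)) ≤ ν b) ∧
      ∫⁻ b in L, ENNReal.ofReal (Real.exp (-β b)) * ν b ∂μ ≤ C := by
  have K := stp_closed hL hv
  obtain ⟨Γ', g1, g2⟩ := stp_ext K hΓ
  obtain ⟨β', b1, b2⟩ := stp_ext hL hβ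
  have m1 : Measurable ((Hc L v).indicator fun z => ENNReal.ofReal (Γ' z / κ' z)) :=
    (g1.div hκ).ennreal_ofReal.indicator K.measurableSet
  have m2 : Measurable fun z : E × ℂ => ENNReal.ofReal (Real.exp (-β' z.1)) *
      (Hc L v).indicator (fun z => ENNReal.ofReal (Γ' z / κ' z)) z :=
    (b1.comp measurable_fst).neg.exp.ennreal_ofReal.mul m1
  refine ⟨fun b => ∫⁻ w, (Hc L v).indicator (fun z => ENNReal.ofReal (Γ' z / κ' z)) (b, w),
    m1.lintegral_prod_right', fun b hb => ?_, le_trans ?_ hC⟩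
  · rw [← lintegral_indicator measurableSet_closedBall]
    refine lintegral_mono fun w => indicator_apply_le' (fun hw => le_of_eq ?_) fun _ => zero_le
    have hz : (b, w) ∈ Hc L v := ⟨hb, mem_closedBall_zero_iff.1 hw⟩
    rw [indicator_of_mem hz, g2 _ hz, hκ' _ hb]
  · rw [← lintegral_indicator K.measurableSet]
    refine le_trans ?_ ((lintegral_prod _ m2.aemeasurable).symm.le.trans (lintegral_mono fun z => ?_))
    · refine le_trans (setLIntegral_mono' hL.measurableSet fun b hb => ?_) (setLIntegral_le_lintegral _ _)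
      rw [← b2 b hb]
      exact (lintegral_const_mul' _ _ ENNReal.ofReal_ne_top).ge
    · by_cases hz : z ∈ Hc L v
      · simp only [indicator_of_mem hz]
        rw [← ENNReal.ofReal_mul (Real.exp_pos _).le, g2 z hz, b2 _ hz.1, hκ' z hz.1, mul_div_assoc]
      · simp [indicator_of_notMem hz]

end

section

variable {n N : ℕ} {M : Type} [MetricSpace M] {ι : M → Cn N} {q : Cn N → M} {U : Set (Cn N)}
  {G : Cn N → Bil N} {δ : M → ℝ} {D : ℝ}

theorem stp_pt (h : Data n ι q U G) (hD : 0 < D) {c η Λ τ T : ℝ} (hδ : LipschitzWith 1 δ)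
    (hη : ∀ z ∈ range ι, ‖z‖ ≤ c → ∀ x, ‖x‖ ≤ η → z + x ∈ U ∧ ∀ v, fderiv ℂ (ι ∘ q) z v = v →
      ‖v‖ ^ 2 ≤ Λ * G z v v ∧ G z v v ≤ Λ * ‖v‖ ^ 2 ∧ G (z + x) v v ≤ 4 * G z v v)
    (hτ : 0 < τ) (hΛ : 0 < Λ) (h1 : τ * (T + 1) ≤ η)
    (h2 : 4 * Real.exp 1 * √Λ * (τ * (T + 1)) ≤ D) {p y : Cn N} {w : ℂ} (hp : p ∈ range ι)
    (hc : ‖p‖ ≤ c) (hp' : D / Real.exp 1 ≤ δ (q p)) (hy : fderiv ℂ (ι ∘ q) p y = y)
    (hY : ‖w • y‖ ≤ T + 1) :
    (∀ σ ∈ Icc 0 τ, p + σ • w • y ∈ U ∧ G (p + σ • w • y) y y ≤ 4 * G p y y) ∧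
      0 < δ (q (p + τ • w • y)) ∧ -Real.log (δ (q (p + τ • w • y)) / D) ≤ 2 ∧
      -Real.log (δ (q (p + τ • w • y)) / D) ≤ -Real.log (δ (q p) / D) +
        4 * Real.exp 1 * τ / D * √(‖w‖ ^ 2 * G p y y) := by
  obtain ⟨_, _, _, hc'⟩ := h.loc p (h.sub hp)
  rw [← isH_smul hc'.isH']
  have tY : fderiv ℂ (ι ∘ q) p (w • y) = w • y := by rw [map_smul, hy]
  generalize w • y = Y at hY tY
  have a1 : ∀ σ ∈ Icc 0 τ, ‖σ • Y‖ ≤ η := fun σ hσ => by
    rw [norm_smul, Real.norm_of_nonneg hσ.1]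
    exact (mul_le_mul hσ.2 hY (norm_nonneg _) hτ.le).trans h1
  have a2 := fun σ hσ => hη p hp hc _ (a1 σ hσ)
  have a3 := h.len (fun σ => p + σ • Y) (fun _ => Y) (fun _ => 2 * √(G p Y Y)) 0 τ hτ.le
    (fun σ hσ => ⟨(a2 σ hσ).1, by simpa using ((hasDerivAt_id σ).smul_const Y).const_add p,
      Real.sqrt_le_iff.2 ⟨by positivity, by
        rw [mul_pow, Real.sq_sqrt (h.nonneg (h.sub hp) Y)]
        linarith [((a2 σ hσ).2 Y tY).2.2]⟩⟩) continuousOn_const continuousOn_const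
  simp only [zero_smul, add_zero, intervalIntegral.integral_const, sub_zero, smul_eq_mul] at a3
  have a4 := hδ.dist_le_mul (q p) (q (p + τ • Y))
  rw [NNReal.coe_one, one_mul, Real.dist_eq] at a4
  have a5 := (le_abs_self _).trans (a4.trans a3)
  have a6 : √(G p Y Y) ≤ √Λ * (T + 1) := by
    refine (Real.sqrt_le_sqrt ((a2 0 ⟨le_rfl, hτ.le⟩).2 Y tY).2.1).trans ?_
    rw [Real.sqrt_mul hΛ.le, Real.sqrt_sq (norm_nonneg _)]
    gcongr
  have e0 := Real.exp_pos 1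
  have a7 : τ * (2 * √(G p Y Y)) ≤ D / (2 * Real.exp 1) := by
    rw [le_div_iff₀ (by positivity)]
    have := mul_le_mul_of_nonneg_left a6 (show 0 ≤ 4 * Real.exp 1 * τ by positivity)
    linarith
  have a8 : D / (2 * Real.exp 1) ≤ δ (q (p + τ • Y)) := by
    have : D / Real.exp 1 = 2 * (D / (2 * Real.exp 1)) := by field_simp
    linarith
  have a9 : 0 < D / (2 * Real.exp 1) := by positivity
  have d0 : 0 < δ (q p) := lt_of_lt_of_le (by positivity) hp'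
  refine ⟨fun σ hσ => ⟨(a2 σ hσ).1, ((a2 σ hσ).2 y hy).2.2⟩, a9.trans_le a8, ?_, ?_⟩
  · have b1 := Real.log_le_log (by positivity) (div_le_div_of_nonneg_right a8 hD.le)
    rw [show D / (2 * Real.exp 1) / D = (2 * Real.exp 1)⁻¹ by field_simp, Real.log_inv,
      Real.log_mul two_ne_zero e0.ne', Real.log_exp] at b1
    linarith [Real.log_two_lt_d9]
  · generalize δ (q (p + τ • Y)) = x at a5 a8
    generalize δ (q p) = x₀ at a5 d0
    have x0 := a9.trans_le a8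
    have b1 := Real.log_le_sub_one_of_pos (div_pos d0 x0)
    rw [Real.log_div d0.ne' x0.ne', div_sub_one x0.ne'] at b1
    rw [Real.log_div d0.ne' hD.ne', Real.log_div x0.ne' hD.ne']
    have b2 : (x₀ - x) / x ≤ τ * (2 * √(G p Y Y)) / (D / (2 * Real.exp 1)) :=
      (div_le_div_of_nonneg_right a5 x0.le).trans (div_le_div_of_nonneg_left (by positivity) a9 a8)
    have b3 : τ * (2 * √(G p Y Y)) / (D / (2 * Real.exp 1)) =
        4 * Real.exp 1 * τ / D * √(G p Y Y) := by field_simp; ring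
    linarith

theorem stp_zero (h : Data n ι q U G) {Z y : ℂ → Cn N} {t τ : ℝ} (hZ : DifferentiableAt ℂ Z 0)
    (hy : DifferentiableAt ℂ y 0) (h0 : Z 0 ∈ range ι) (h1 : deriv Z 0 = (t : ℂ) • y 0)
    (h2 : fderiv ℂ (ι ∘ q) (Z 0) (y 0) = y 0) :
    deriv (fun w => ι (q (Z w + τ • w • y w))) 0 = ((t + τ : ℝ) : ℂ) • y 0 := by
  have e1 : HasDerivAt (fun w => w • y w) (y 0) 0 := by
    simpa using (hasDerivAt_id (0 : ℂ)).fun_smul hy.hasDerivAt
  have e2 := HasFDerivAt.comp_hasDerivAt (f := fun w => Z w + τ • w • y w) (l := ι ∘ q) 0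
    (h.hol.differentiableAt (h.isOpen.mem_nhds (by simpa using h.sub h0))).hasFDerivAt
    (hZ.hasDerivAt.fun_add (e1.fun_const_smul τ))
  refine e2.deriv.trans ?_
  rw [h1, ← coe_smul τ (y 0), ← add_smul, map_smul]
  simp [h2]

theorem stp_area (h : Data n ι q U G) {R R' R'' d τ : ℝ} (hR : 0 < R) (hR' : R < R') (hd : 0 < d)
    (hR'' : R' ≤ R'') (hτ : 0 < τ) {Z y : ℂ → Cn N} (hZ : DifferentiableOn ℂ Z (ball 0 R'))
    (hy : DifferentiableOn ℂ y (ball 0 R'))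
    (hU : ∀ σ ∈ Icc 0 τ, ∀ w ∈ ball 0 R', Z w + σ • w • y w ∈ U ∧
      G (Z w + σ • w • y w) (y w) (y w) ≤ 4 * G (Z w) (y w) (y w))
    (hΓ : ContinuousOn (fun w => G (Z w) (y w) (y w)) (closedBall 0 R''))
    (h0 : ∀ w ∈ closedBall 0 R'', 0 ≤ G (Z w) (y w) (y w)) {ν g : ℝ≥0∞}
    (hν : ∫⁻ w in closedBall 0 R'',
      ENNReal.ofReal (G (Z w) (y w) (y w) / (‖w‖ * (1 + ‖w‖ ^ 2) ^ 4)) ≤ ν)
    (hg : ENNReal.ofReal (ar G R d Z) ≤ g) :
    ENNReal.ofReal (ar G R d fun w => ι (q (Z w + τ • w • y w))) ≤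
      ENNReal.ofReal (Real.exp τ) * (g + ENNReal.ofReal (289 * τ) * ν) := by
  rcases eq_or_ne ν ⊤ with rfl | hν'
  · rw [ENNReal.mul_top (by simpa using hτ), add_top, ENNReal.mul_top (by simpa using Real.exp_pos τ)]
    exact le_top
  lift ν to NNReal using hν'
  refine (ENNReal.ofReal_le_ofReal (area_step h hR hR' hd hτ.le hZ hy hU
    (stp_vv hd (hR'.le.trans hR'') hΓ h0 hν))).trans ?_
  rw [ENNReal.ofReal_mul (Real.exp_pos _).le]
  refine mul_le_mul_right (ENNReal.ofReal_add_le.trans (add_le_add hg (le_of_eq ?_))) _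
  rw [mul_right_comm, ENNReal.ofReal_mul (by positivity), ENNReal.ofReal_coe_nnreal]

end

section

variable {E : Type} [MeasurableSpace E] {μ : Measure E} {L L₁ : Set E}

theorem stp_e (hL : L₁ ⊆ L) {e ν : E → ℝ≥0∞} (hν : Measurable ν)
    {ε m₀ m a b c : ℝ} {k : ℝ≥0∞} (hk : k ≠ ⊤) (he : ∫⁻ x in L, e x ∂μ ≤ ENNReal.ofReal ε)
    (h0 : μ L₁ ≤ ENNReal.ofReal m₀) (h1 : ∫⁻ x in L₁, ν x ∂μ ≤ ENNReal.ofReal m) (hε : 0 ≤ ε)
    (hm₀ : 0 ≤ m₀) (hm : 0 ≤ m) (ha : 0 ≤ a) (hb : 0 ≤ b) (hc : 0 ≤ c) :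
    ∫⁻ x in L₁, e x + (ENNReal.ofReal a + ENNReal.ofReal b * ν x +
      ENNReal.ofReal c * (1 + ν x) * k) ∂μ ≤
      ENNReal.ofReal (ε + a * m₀ + b * m + c * k.toReal * (m₀ + m)) := by
  have m1 : Measurable fun x => ENNReal.ofReal c * (1 + ν x) := (hν.const_add _).const_mul _
  have m2 : Measurable fun x => ENNReal.ofReal b * ν x := hν.const_mul _
  rw [lintegral_add_right _ ((m2.const_add _).fun_add (m1.mul_const _)),
    lintegral_add_right _ (m1.mul_const _), lintegral_add_right _ m2, lintegral_mul_const _ m1,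
    lintegral_const_mul _ hν, lintegral_const_mul _ (hν.const_add _), lintegral_add_right _ hν,
    setLIntegral_const, setLIntegral_const, one_mul]
  rw [ENNReal.ofReal_add (by positivity) (by positivity),
    ENNReal.ofReal_add (by positivity) (by positivity), ENNReal.ofReal_add hε (by positivity),
    ENNReal.ofReal_mul ha, ENNReal.ofReal_mul hb, mul_right_comm c,
    ENNReal.ofReal_mul (by positivity), ENNReal.ofReal_mul hc, ENNReal.ofReal_add hm₀ hm,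
    ENNReal.ofReal_toReal hk, add_assoc (ENNReal.ofReal ε), add_assoc (ENNReal.ofReal ε)]
  have := (lintegral_mono_set hL).trans he
  gcongr

theorem stp_g (hL : L₁ ⊆ L) {g ν ω : E → ℝ≥0∞} (hν : Measurable ν)
    (hω : AEMeasurable ω (μ.restrict L₁)) {γ C τ : ℝ}
    (hg : ∫⁻ x in L, ω x * g x ∂μ ≤ ENNReal.ofReal γ)
    (h1 : ∫⁻ x in L₁, ω x * ν x ∂μ ≤ ENNReal.ofReal C) (hγ : 0 ≤ γ) (hC : 0 ≤ C) (hτ : 0 ≤ τ) :
    ∫⁻ x in L₁, ω x * (ENNReal.ofReal (Real.exp τ) * (g x + ENNReal.ofReal (289 * τ) * ν x)) ∂μ ≤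
      ENNReal.ofReal (Real.exp τ * (γ + 289 * C * τ)) := by
  simp only [mul_left_comm (ω _), mul_add (ω _)]
  rw [lintegral_const_mul' _ _ ENNReal.ofReal_ne_top,
    lintegral_add_right' _ ((hω.fun_mul hν.aemeasurable).const_mul _),
    lintegral_const_mul' _ _ ENNReal.ofReal_ne_top, ENNReal.ofReal_mul (Real.exp_pos _).le,
    ENNReal.ofReal_add hγ (by positivity), mul_right_comm,
    ENNReal.ofReal_mul (p := 289 * τ) (by positivity)]
  have := (lintegral_mono_set hL).trans hg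
  gcongr

end

variable {n N : ℕ} {M : Type} [MetricSpace M] {ι : M → Cn N} {q : Cn N → M} {U : Set (Cn N)}
  {G : Cn N → Bil N} {E : Type} [NormedAddCommGroup E] [NormedSpace ℝ E] [NormedSpace ℂ E]
  [IsScalarTower ℝ ℂ E] [FiniteDimensional ℝ E] [FiniteDimensional ℂ E] [MeasurableSpace E]
  [BorelSpace E] {μ : Measure E} [μ.IsAddHaarMeasure] {β : E → ℝ} {f A : E → Cn N} {δ : M → ℝ}
  {D R₀ : ℝ}

theorem St.step (h : Data n ι q U G) {L L₁ : Set E} {t ε γ : ℝ} {u : E → ℝ} {F : E × ℂ → Cn N}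
    {e g : E → ℝ≥0∞} (hs : St ι q G μ β f A δ D R₀ L t ε γ u F e g) (hL₁ : IsCompact L₁)
    (hL : L₁ ⊆ L) (hβ : ContinuousOn β L) (hA : ∀ b ∈ L, fderiv ℂ (ι ∘ q) (f b) (A b) = A b)
    (hD : 0 < D) (hR : 0 < R₀) {c η Λ : ℝ} (hδ : LipschitzWith 1 δ) (hδ1 : ∀ x, δ x ≤ D)
    (hδ2 : ∀ b ∈ L, δ (q (f b)) = D) (hδ3 : ∀ x, 0 < δ x → ‖ι x‖ < c)
    (hδ4 : ∀ Z, Dsc ι 1 Z → (∀ w ∈ closedBall 0 1, 0 < δ (q (Z w))) → -Real.log (δ (q (Z 0))) ≤
      Real.circleAverage (fun w => -Real.log (δ (q (Z w)))) 0 1) (hΛ : 0 < Λ)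
    (hη : ∀ z ∈ range ι, ‖z‖ ≤ c → ∀ x, ‖x‖ ≤ η → z + x ∈ U ∧ ∀ v, fderiv ℂ (ι ∘ q) z v = v →
      ‖v‖ ^ 2 ≤ Λ * G z v v ∧ G z v v ≤ Λ * ‖v‖ ^ 2 ∧ G (z + x) v v ≤ 4 * G z v v)
    {a τ T ϑ C₁ C₂ m₀ m₁ : ℝ} (ha : 0 < a) (hτ : 0 < τ) (hT : 0 < T) (hϑ : 0 < ϑ)
    (h1 : τ * (T + 1) ≤ η) (h2 : 4 * Real.exp 1 * √Λ * (τ * (T + 1)) ≤ D)
    (h3 : 8 * R₀ * Λ ≤ T ^ 2 * (ϑ * √ϑ)) (hε : 0 ≤ ε) (hγ : 0 ≤ γ) (hC₁ : 0 ≤ C₁) (hC₂ : 0 ≤ C₂)
    (hm₀ : μ.real L₁ ≤ m₀) (hm₁ : ∀ b ∈ L, Real.exp (β b) ≤ m₁) (hm₂ : 0 ≤ m₁) {y : E × ℂ → Cn N}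
    (y1 : ∀ z ∈ Ht L u, DifferentiableAt ℂ y z ∧ fderiv ℂ (ι ∘ q) (F z) (y z) = y z)
    (y2 : ∀ b ∈ L, y (b, 0) = A b)
    (y3 : ∫⁻ z in Hc L₁ fun b => u b + a, ENNReal.ofReal (Real.exp (-β z.1) * G (F z) (y z) (y z) /
      (‖z.2‖ * √(-Real.log ‖z.2‖ - u z.1))) ∂μ.prod volume ≤ ENNReal.ofReal C₁)
    (y4 : ∫⁻ z in Hc L₁ fun b => u b + a, ENNReal.ofReal (Real.exp (-β z.1) * G (F z) (y z) (y z) /
      (‖z.2‖ * (1 + ‖z.2‖ ^ 2) ^ 4)) ∂μ.prod volume ≤ ENNReal.ofReal C₂) :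
    ∃ u' F' e' g', St ι q G μ β f A δ D R₀ L₁ (t + τ)
      (ε + 8 * (3 * a + ϑ) * m₀ + 8 * ϑ * (m₁ * C₁) + 4 * Real.exp 1 * √(8 * R₀) * τ / D *
        (∫⁻ e, ENNReal.ofReal (kp e)).toReal * (m₀ + m₁ * C₁))
      (Real.exp τ * (γ + 289 * C₂ * τ)) u' F' e' g' := by
  have e0 := Real.exp_pos 1
  have cL := hL₁.isClosed
  have cu := hs.cu.mono hL
  have c1 : ContinuousOn (fun b => u b + a) L₁ := cu.add continuousOn_const
  have mono : ∀ {v v' : E → ℝ}, (∀ b ∈ L₁, v b ≤ v' b) → Ht L₁ v' ⊆ Hc L₁ v := fun hv z hz =>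
    ⟨hz.1, hz.2.le.trans (Real.exp_le_exp.2 (neg_le_neg (hv _ hz.1)))⟩
  have mono' : ∀ {v : E → ℝ}, (Hc L₁ fun b => v b + a) ⊆ Ht L₁ v := fun {v} z hz =>
    ⟨hz.1, hz.2.trans_lt (Real.exp_lt_exp.2 (by linarith))⟩
  have k1 : (Hc L₁ fun b => u b + a) ⊆ Ht L u := fun z hz => ⟨hL hz.1, (mono' hz).2⟩
  have nF : ∀ z ∈ Ht L u, ‖F z‖ ≤ c := fun z hz => by
    obtain ⟨-, h4, h5⟩ := hs.hol z hz
    have := hδ3 (q (F z)) (lt_of_lt_of_le (by positivity) h5)
    rw [show ι (q (F z)) = F z from h.fix h4] at this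
    exact this.le
  have cV : ∀ {H : E × ℂ → Cn N} {z}, DifferentiableAt ℂ H z → H z ∈ range ι → 0 < δ (q (H z)) →
      ContinuousAt (fun z => -Real.log (δ (q (H z)))) z ∧
        ContinuousAt (fun z => -Real.log (δ (q (H z)) / D)) z := fun {H z} h4 h5 h6 => by
    have : ContinuousAt (fun z => δ (q (H z))) z := hδ.continuous.continuousAt.comp
      ((h.cq.continuousAt (h.isOpen.mem_nhds (h.sub h5))).comp h4.continuousAt)
    exact ⟨(this.log h6.ne').neg, ((this.div_const D).log (div_pos h6 hD).ne').neg⟩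
  have cΓ : ContinuousOn (fun z => G (F z) (y z) (y z)) (Hc L₁ fun b => u b + a) := fun z hz => by
    obtain ⟨h4, h5, -⟩ := hs.hol z (k1 hz)
    have h6 := (y1 z (k1 hz)).1.continuousAt
    exact ((((h.two (h.sub h5)).continuousAt.comp h4.continuousAt).clm_apply h6).clm_apply
      h6).continuousWithinAt
  have dY : ∀ z ∈ Ht L u, DifferentiableAt ℂ (fun z : E × ℂ => z.2 • y z) z := fun z hz =>
    differentiableAt_snd.smul (y1 z hz).1
  obtain ⟨u₀, u1, u2⟩ := stp_ext cL cu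
  obtain ⟨n1, n11, n12, n13⟩ := stp_fib cL c1 (hβ.mono hL) cΓ
    (κ' := fun z => ‖z.2‖ * √(-Real.log ‖z.2‖ - u₀ z.1)) (by fun_prop)
    (fun z hz => by rw [u2 _ hz]) y3
  obtain ⟨n2, n21, n22, n23⟩ := stp_fib cL c1 (hβ.mono hL) cΓ (by fun_prop) (fun _ _ => rfl) y4
  have cY : ContinuousOn (fun z : E × ℂ => ‖z.2 • y z‖) (Hc L₁ fun b => u b + a) := fun z hz =>
    (dY z (k1 hz)).continuousAt.norm.continuousWithinAt
  have sY := hsm_norm fun z hz => dY z (k1 hz)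
  obtain ⟨v, v1, v2, v3, v4, v5⟩ := cut hL₁ c1 ((hs.su.mono hL).add_const cu a) cY sY (c := T)
    one_pos fun b _ => by simpa using hT
  have k2 : Ht L₁ v ⊆ Ht L u := (mono v3).trans k1
  have pt := fun z (hz : z ∈ Ht L₁ v) => stp_pt h hD hδ hη hτ hΛ h1 h2 (hs.hol z (k2 hz)).2.1
    (nF z (k2 hz)) (hs.hol z (k2 hz)).2.2 (y1 z (k2 hz)).2 (v4 z hz)
  obtain ⟨F', hF⟩ : ∃ F' : E × ℂ → Cn N, F' = fun z => ι (q (F z + τ • z.2 • y z)) := ⟨_, rfl⟩
  have qF : ∀ z, q (F' z) = q (F z + τ • z.2 • y z) := fun z => by rw [hF, h.left]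
  have rF : ∀ z, F' z ∈ range ι := fun z => by rw [hF]; exact mem_range_self _
  have dF : ∀ z ∈ Ht L₁ v, DifferentiableAt ℂ F' z := fun z hz => by
    rw [hF]
    exact DifferentiableAt.comp (g := ι ∘ q) z (h.hol.differentiableAt (h.isOpen.mem_nhds
      ((pt z hz).1 τ ⟨hτ.le, le_rfl⟩).1))
      ((hs.hol z (k2 hz)).1.fun_add ((dY z (k2 hz)).fun_const_smul τ))
  have pF : ∀ z ∈ Ht L₁ v, 0 < δ (q (F' z)) := fun z hz => by rw [qF]; exact (pt z hz).2.1
  have cV' := fun z (hz : z ∈ Hc L₁ fun b => v b + a) =>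
    cV (dF z (mono' hz)) (rF z) (pF z (mono' hz))
  have c2 : ContinuousOn (fun z => -Real.log (δ (q (F' z)) / D)) (Hc L₁ fun b => v b + a) :=
    fun z hz => (cV' z hz).2.continuousWithinAt
  have s2 : HSM (fun z => -Real.log (δ (q (F' z)) / D)) (Hc L₁ fun b => v b + a) := by
    refine stp_hsm (Ψ := fun z => -Real.log (δ (q (F' z)))) (k := Real.log D) (fun Z hZ hB => ?_)
      (fun z hz => (cV' z hz).1.continuousWithinAt) fun z hz => ?_
    · refine hδ4 (fun w => F' (Z w)) ⟨DifferentiableOn.diffContOnCl fun w hw => ?_, fun w _ => rF _⟩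
        fun w hw => pF _ (mono' (hB w hw))
      rw [closure_ball _ one_ne_zero] at hw
      exact ((dF _ (mono' (hB w hw))).comp w (hZ w)).differentiableWithinAt
    · rw [Real.log_div (pF z (mono' hz)).ne' hD.ne']
      ring
  have z0 : ∀ b ∈ L₁, (b, (0 : ℂ)) ∈ Ht L u := fun b hb => ⟨hL hb, by simpa using Real.exp_pos _⟩
  have F0 : ∀ b ∈ L₁, F' (b, 0) = f b := fun b hb => by
    simpa [hF, (hs.zero b (hL hb)).1] using h.fix (hs.hol _ (z0 b hb)).2.1
  obtain ⟨u', w1, w2, w3, w4, w5⟩ := cut (u := fun b => v b + a) hL₁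
    (v1.add continuousOn_const) (v2.add_const v1 a) c2 s2 (c := 1 / 2) (η := 1 / 2) one_half_pos fun b hb => by
      simp [F0 b hb, hδ2 b (hL hb), hD.ne']
  have k3 : Ht L₁ u' ⊆ Ht L₁ v := (mono w3).trans mono'
  have mβ : AEMeasurable (fun b => ENNReal.ofReal (Real.exp (-β b))) (μ.restrict L₁) :=
    ((hβ.mono hL).aemeasurable cL.measurableSet).neg.exp.ennreal_ofReal
  have fib : ∀ {H : E × ℂ → Cn N} {b w}, DifferentiableAt ℂ H (b, w) →
      DifferentiableAt ℂ (fun w => H (b, w)) w := fun hH =>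
    hH.comp _ ((differentiableAt_const _).prodMk differentiableAt_id)
  have fc : ∀ {φ : E × ℂ → ℝ} {x : E → ℝ} {b}, b ∈ L₁ → ContinuousOn φ (Hc L₁ x) →
      ContinuousOn (fun w => φ (b, w)) (closedBall 0 (Real.exp (-x b))) := fun hb hφ =>
    hφ.comp (by fun_prop) fun w hw => ⟨hb, mem_closedBall_zero_iff.1 hw⟩
  have fs : ∀ {φ : E × ℂ → ℝ} {x : E → ℝ} {b}, b ∈ L₁ → HSM φ (Hc L₁ x) →
      SM (fun w => φ (b, w)) (closedBall 0 (Real.exp (-x b))) := fun hb hφ =>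
    (hφ.fibre _).mono fun w hw => ⟨hb, mem_closedBall_zero_iff.1 hw⟩
  have f0 : ∀ b ∈ L₁, ∀ w ∈ closedBall 0 (Real.exp (-(u b + a))),
      0 ≤ G (F (b, w)) (y (b, w)) (y (b, w)) := fun b hb w hw =>
    h.nonneg (h.sub (hs.hol _ (k1 ⟨hb, mem_closedBall_zero_iff.1 hw⟩)).2.1) _
  refine ⟨u', F', fun b => e b + (ENNReal.ofReal (8 * (3 * a + ϑ)) + ENNReal.ofReal (8 * ϑ) * n1 b +
    ENNReal.ofReal (4 * Real.exp 1 * √(8 * R₀) * τ / D) * (1 + n1 b) * ∫⁻ e, ENNReal.ofReal (kp e)),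
    fun b => ENNReal.ofReal (Real.exp τ) * (g b + ENNReal.ofReal (289 * τ) * n2 b), w1, w2,
    fun b hb => ?_, fun z hz => ⟨dF z (k3 hz), rF z, ?_⟩, fun b hb => ⟨F0 b hb, ?_⟩,
    hs.me.fun_add (by fun_prop), ?_, fun b hb => ?_,
    (hs.mg.fun_add (n21.const_mul _)).const_mul _, stp_g hL n21 mβ hs.ig n23 hγ hC₂ hτ.le,
    fun b hb R d hR0 hR1 hd => ?_⟩
  · linarith [hs.lo b (hL hb), v3 b hb, w3 b hb]
  · have := w4 z hz
    rw [div_le_iff₀ e0, ← div_le_iff₀' (pF z (k3 hz)), ← Real.log_le_iff_le_exp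
      (div_pos hD (pF z (k3 hz))), ← inv_div, Real.log_inv]
    linarith
  · have := stp_zero h (Z := fun w => F (b, w)) (y := fun w => y (b, w)) (t := t) (τ := τ)
      (fib (hs.hol _ (z0 b hb)).1) (fib (y1 _ (z0 b hb)).1) (hs.hol _ (z0 b hb)).2.1
      (by rw [y2 b (hL hb)]; exact (hs.zero b (hL hb)).2) (y1 _ (z0 b hb)).2
    rw [hF, ← y2 b (hL hb)]
    exact this
  · refine stp_e hL n11 kp_int hs.ie ?_ ?_ hε (measureReal_nonneg.trans hm₀) (by positivity)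
      (by positivity) (by positivity) (by positivity)
    · exact (ENNReal.ofReal_toReal hL₁.measure_lt_top.ne).ge.trans (ENNReal.ofReal_le_ofReal hm₀)
    · rw [ENNReal.ofReal_mul hm₂]
      refine le_trans ?_ (mul_le_mul_right n13 _)
      rw [← lintegral_const_mul' _ _ ENNReal.ofReal_ne_top]
      refine setLIntegral_mono' cL.measurableSet fun b hb => ?_
      rw [← mul_assoc, ← ENNReal.ofReal_mul hm₂]
      refine le_mul_of_one_le_left' (ENNReal.one_le_ofReal.2 ?_)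
      rw [Real.exp_neg, ← div_eq_mul_inv, one_le_div (Real.exp_pos _)]
      exact hm₁ b (hL hb)
  · obtain ⟨s, s1, s2', s3, s4⟩ := hs.inv b (hL hb)
    have eR : Real.exp (-u b) ≤ R₀ := by
      rw [← Real.le_log_iff_exp_le hR]; linarith [hs.lo b (hL hb)]
    have ea : -(u b + a) = -u b - a := by ring
    have i1 := fc hb cΓ
    have i2 := f0 b hb
    have i3 := n12 b hb
    have i4 := fc hb cY
    have i5 := fs hb sY
    have i6 := v3 b hb
    have i7 := w3 b hb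
    simp only [ea] at i1 i2 i3 i4 i5
    simp only [show ∀ x : ℝ, -x - u b = -u b - x from fun x => by ring] at i3
    have kb : ∀ w ∈ closedBall (0 : ℂ) (Real.exp (-(v b + a))), (b, w) ∈ Ht L₁ v := fun w hw =>
      mono' ⟨hb, mem_closedBall_zero_iff.1 hw⟩
    have gap : ENNReal.ofReal (8 * (-u b - -(v b + a))) ≤
        ENNReal.ofReal (8 * (3 * a + ϑ)) + ENNReal.ofReal (8 * ϑ) * n1 b := by
      rcases le_or_gt (v b - u b - a) a with hx | hx
      · exact (ENNReal.ofReal_le_ofReal (by linarith)).trans le_self_add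
      obtain ⟨w, hw, hw'⟩ := v5 b hb (by linarith) _ le_rfl (Real.exp_le_exp.2 (by linarith))
      have := stp_gap ha eR i1 i2 i4 i5 (fun w hw => by
        have hz : (b, w) ∈ Ht L u := k1 ⟨hb, by rw [ea]; exact mem_closedBall_zero_iff.1 hw⟩
        have := ((hη _ (hs.hol _ hz).2.1 (nF _ hz) 0 (by
          rw [norm_zero]; exact le_trans (by positivity) h1)).2 _ (y1 _ hz).2).1
        rw [norm_smul, mul_pow, mul_left_comm]
        gcongr) i3 hΛ hT hϑ h3 (x := v b - u b - a) (by rw [hw]; congr 1; ring) hx hw'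
      rw [show 8 * (-u b - -(v b + a)) = 8 * (2 * a) + 8 * (v b - u b - a) by ring]
      refine ENNReal.ofReal_add_le.trans ?_
      rw [ENNReal.ofReal_mul (p := 8) (q := v b - u b - a) (by norm_num)]
      refine (add_le_add_right (mul_le_mul_right this _) _).trans ?_
      rw [mul_add (ENNReal.ofReal 8), ← mul_assoc (ENNReal.ofReal 8),
        ← ENNReal.ofReal_mul (by norm_num), ← add_assoc,
        ← ENNReal.ofReal_add (by positivity) (by positivity)]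
      gcongr
      linarith
    obtain ⟨s', t1, t2, t3, t4⟩ := stp_inv (z' := -(v b + a)) (z'' := -u' b)
      (c := 4 * Real.exp 1 * τ / D) (V := fun w => -Real.log (δ (q (F (b, w))) / D))
      (V' := fun w => -Real.log (δ (q (F' (b, w))) / D)) ha eR (by linarith) (by linarith)
      (by positivity) i1 i2 (fun w hw => by
        obtain ⟨h4, h5, h6⟩ := hs.hol _ (k2 (kb w hw))
        exact ((cV h4 h5 (lt_of_lt_of_le (by positivity) h6)).2.comp (f := fun w => (b, w))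
          (by fun_prop)).continuousWithinAt)
      (fc hb c2) (fs hb s2) (fun w hw => by simp only [qF]; exact (pt _ (kb w hw)).2.2) i3 s1 s3 s4
      fun h4 => w5 b hb (by linarith)
    refine ⟨s', t1, t2.trans ?_, t3, t4⟩
    rw [add_assoc, show 4 * Real.exp 1 * τ / D * √(8 * R₀) = 4 * Real.exp 1 * √(8 * R₀) * τ / D by
      ring]
    gcongr
  · have kb : ∀ w ∈ ball (0 : ℂ) (Real.exp (-v b)), (b, w) ∈ Ht L₁ v := fun w hw =>
      ⟨hb, mem_ball_zero_iff.1 hw⟩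
    have i6 := v3 b hb
    have i7 := w3 b hb
    rw [hF]
    exact stp_area h (Z := fun w => F (b, w)) (y := fun w => y (b, w)) hR0
      (hR1.trans_le (Real.exp_le_exp.2 (by linarith))) hd (Real.exp_le_exp.2 (neg_le_neg i6)) hτ
      (fun w hw => (fib (hs.hol _ (k2 (kb w hw))).1).differentiableWithinAt)
      (fun w hw => (fib (y1 _ (k2 (kb w hw))).1).differentiableWithinAt)
      (fun σ hσ w hw => (pt _ (kb w hw)).1 σ hσ) (fc hb cΓ) (f0 b hb) (n22 b hb)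
      (hs.area b (hL hb) R d hR0 (hR1.trans_le (Real.exp_le_exp.2 (by linarith))) hd)

end Pool.Agent.Lib.MP_124863_gt.Ok
end

-- part Pool.Agent.Lib.MP_124863_gt.OkStep
section

/-! Sprays with large discs as fibres. -/

open Filter Topology Set Metric Complex MeasureTheory
open scoped Real ENNReal

namespace Pool.Agent.Lib.MP_124863_gt.Ok

open Ec

set_option linter.unusedSectionVars false

variable {n N : ℕ} {M : Type} [MetricSpace M] {ι : M → Cn N} {q : Cn N → M} {U : Set (Cn N)}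
  {G : Cn N → Bil N} {E : Type} [NormedAddCommGroup E] [NormedSpace ℝ E] [NormedSpace ℂ E]
  [IsScalarTower ℝ ℂ E] [FiniteDimensional ℝ E] [FiniteDimensional ℂ E] [MeasurableSpace E]
  [BorelSpace E] {μ : Measure E} [μ.IsAddHaarMeasure] {B : Set E} {β : E → ℝ} {f A : E → Cn N}

variable (ι q G μ B β f A) in
/-- A holomorphic map with a vector field along it, on a Runge base with an exhaustion. -/
structure Bs : Prop where
  isOpen : IsOpen B
  cont : ContinuousOn β B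
  rng : ∀ σ, ∃ r : E → ℝ, Continuous r ∧ SM r univ ∧ (∀ b ∈ Lv B β σ, r b = β b) ∧
    ∀ b, r b ≤ σ → b ∈ Lv B β σ
  cpt : ∀ σ, IsCompact (Lv B β σ)
  df : ∀ b ∈ B, DifferentiableAt ℂ f b
  dA : ∀ b ∈ B, DifferentiableAt ℂ A b
  mem : ∀ b ∈ B, f b ∈ range ι
  tan : ∀ b ∈ B, fderiv ℂ (ι ∘ q) (f b) (A b) = A b
  int : ∫⁻ b in B, ENNReal.ofReal (Real.exp (-β b) * G (f b) (A b) (A b)) ∂μ ≤ 1

theorem okstep_par {P η Y v : ℝ} (hP : 0 ≤ P) (hη : 0 < η) (hY : 0 ≤ Y) (hv : 0 < v) :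
    ∃ (K : ℕ) (T ϑ : ℝ), 0 < K ∧ 0 < T ∧ 0 < ϑ ∧ 1 / (K : ℝ) * (T + 1) ≤ η ∧
      P ≤ T ^ 2 * (ϑ * √ϑ) ∧ K * ϑ * Y ≤ v := by
  obtain ⟨Z, hZ⟩ : ∃ Z, Z = (P + 2) / η + 1 := ⟨_, rfl⟩
  have Z0 : 0 < Z := by rw [hZ]; positivity
  obtain ⟨s, s0, s1, s2⟩ : ∃ s : ℝ, 0 < s ∧ s ≤ 1 ∧ s ≤ v / (Z * Y + 1) :=
    ⟨min 1 (v / (Z * Y + 1)), by positivity, min_le_left _ _, min_le_right _ _⟩
  have T0 : 0 < (P + 1) / s ^ 3 := by positivity
  have x0 : 0 < ((P + 1) / s ^ 3 + 1) / η := by positivity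
  have K0 : 0 < ⌈((P + 1) / s ^ 3 + 1) / η⌉₊ := Nat.ceil_pos.2 x0
  refine ⟨_, _, s ^ 4, K0, T0, by positivity, ?_, ?_, ?_⟩
  · have h1 := Nat.le_ceil (((P + 1) / s ^ 3 + 1) / η)
    rw [div_le_iff₀ hη] at h1
    rw [one_div, inv_mul_le_iff₀ (by exact_mod_cast K0)]
    exact h1
  · rw [show s ^ 4 = (s ^ 2) ^ 2 by ring, Real.sqrt_sq (sq_nonneg s)]
    have h1 : ((P + 1) / s ^ 3) ^ 2 * ((s ^ 2) ^ 2 * s ^ 2) = (P + 1) ^ 2 := by field_simp
    rw [h1]
    nlinarith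
  · have h1 := (Nat.ceil_lt_add_one x0.le).le
    have h2 : s ^ 3 ≤ 1 := pow_le_one₀ s0.le s1
    have h3 : (((P + 1) / s ^ 3 + 1) / η + 1) * s ^ 4 = s * ((P + 1 + s ^ 3) / η + s ^ 3) := by
      field_simp
    have h4 : (P + 1 + s ^ 3) / η + s ^ 3 ≤ Z := by
      rw [hZ]
      exact add_le_add (div_le_div_of_nonneg_right (by linarith) hη.le) h2
    have h5 : (⌈((P + 1) / s ^ 3 + 1) / η⌉₊ : ℝ) * s ^ 4 ≤ s * Z :=
      (mul_le_mul_of_nonneg_right h1 (by positivity)).trans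
        (h3 ▸ mul_le_mul_of_nonneg_left h4 s0.le)
    have h6 := mul_le_mul_of_nonneg_right h5 hY
    rw [le_div_iff₀ (by positivity)] at s2
    nlinarith

theorem okstep_int {X : Type} [MeasurableSpace X] {ν : Measure X} {g : X → ℝ} {c : ℝ} (hc : 0 ≤ c)
    (h : ∫⁻ x, ENNReal.ofReal (g x) ∂ν ≤ ENNReal.ofReal c) : ∫ x, g x ∂ν ≤ c := by
  by_cases hi : Integrable g ν
  · rw [integral_eq_lintegral_pos_part_sub_lintegral_neg_part hi]
    have h1 := ENNReal.toReal_le_of_le_ofReal hc h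
    have h2 := ENNReal.toReal_nonneg (a := ∫⁻ x, ENNReal.ofReal (-g x) ∂ν)
    linarith
  · rwa [integral_undef hi]

omit [NormedSpace ℝ E] [NormedSpace ℂ E] [IsScalarTower ℝ ℂ E] [FiniteDimensional ℝ E]
  [FiniteDimensional ℂ E] [MeasurableSpace E] [BorelSpace E] [NormedAddCommGroup E] in
theorem okstep_mono {σ σ' : ℝ} (h : σ ≤ σ') : Lv B β σ ⊆ Lv B β σ' :=
  fun _ hb => ⟨hb.1, hb.2.trans h⟩

theorem okstep_thick (hB : Bs ι q G μ B β f A) {σ σ' : ℝ} (h : σ < σ') :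
    ∃ d, 0 < d ∧ cthickening d (Lv B β σ) ⊆ Lv B β σ' := by
  obtain ⟨d, hd, h1⟩ := (hB.cpt σ).exists_cthickening_subset_open
    (hB.cont.isOpen_inter_preimage hB.isOpen (isOpen_Iio (a := σ')))
    fun b hb => ⟨hb.1, hb.2.trans_lt h⟩
  exact ⟨d, hd, fun b hb => ⟨(h1 hb).1, le_of_lt (h1 hb).2⟩⟩

omit [NormedSpace ℝ E] [IsScalarTower ℝ ℂ E] [FiniteDimensional ℝ E] [FiniteDimensional ℂ E]
  [BorelSpace E] [μ.IsAddHaarMeasure] in
theorem okstep_le {δ : M → ℝ} {D R₀ : ℝ} {L : Set E} {t ε γ γ' : ℝ} {u : E → ℝ}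
    {F : E × ℂ → Cn N} {e g : E → ℝ≥0∞} (hs : St ι q G μ β f A δ D R₀ L t ε γ u F e g)
    (h : γ ≤ γ') : St ι q G μ β f A δ D R₀ L t ε γ' u F e g :=
  { hs with ig := hs.ig.trans (ENNReal.ofReal_le_ofReal h) }

theorem okstep_zero (hB : Bs ι q G μ B β f A) {δ : M → ℝ} {D : ℝ} (R₀ : ℝ) {L : Set E}
    (hL : L ⊆ B) (hD : 0 < D) (hδ : ∀ b ∈ L, δ (q (f b)) = D) :
    St ι q G μ β f A δ D R₀ L 0 0 0 (fun _ => -Real.log R₀) (fun z => f z.1) 0 0 := by
  refine ⟨continuousOn_const, fun _ _ _ => by rw [Real.circleAverage_const], fun _ _ => le_rfl,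
    fun z hz => ⟨(hB.df _ (hL hz.1)).comp z differentiableAt_fst, hB.mem _ (hL hz.1), ?_⟩,
    fun b _ => ⟨rfl, by simp⟩, measurable_const, by simp,
    fun b hb => ⟨0, measurable_const, by simp, by simp, fun w _ ρ _ _ => ?_⟩, measurable_const,
    by simp, fun b _ R d _ _ _ => by simp [ar]⟩
  · rw [hδ _ hz.1]
    exact div_le_self hD.le (Real.one_le_exp zero_le_one)
  · simp [hδ b hb, hD.ne']

omit [FiniteDimensional ℂ E] in
theorem okstep_end {δ : M → ℝ} {D R : ℝ} {L : Set E} {t ε γ : ℝ} {u : E → ℝ}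
    {F : E × ℂ → Cn N} {e g : E → ℝ≥0∞} (hR : 0 < R)
    (hs : St ι q G μ β f A δ D (Real.exp 1 * R) L t ε γ u F e g) {b : E} {d : ℝ} (hd : 0 < d)
    (hb : closedBall b d ⊆ L) (hε : ε ≤ μ.real (closedBall 0 d)) : R ≤ Real.exp (-u b) := by
  have hv : μ.real (closedBall b d) = μ.real (closedBall 0 d) := by
    rw [measureReal_def, measureReal_def, Measure.addHaar_closedBall_center]
  have := FiniteDimensional.proper_real E
  have v0 : 0 < μ.real (closedBall (0 : E) d) :=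
    ENNReal.toReal_pos (measure_closedBall_pos μ 0 hd).ne' measure_closedBall_lt_top.ne
  have h1 := sm_ball μ (u := fun x => u x + Real.log (Real.exp 1 * R))
    ((hs.cu.mono hb).add continuousOn_const) ((hs.su.add_const hs.cu _).mono hb)
  have h2 : ∫ x in closedBall b d, (u x + Real.log (Real.exp 1 * R)) ∂μ ≤
      μ.real (closedBall 0 d) := by
    refine okstep_int v0.le (le_trans ?_ (hs.ie.trans (ENNReal.ofReal_le_ofReal hε)))
    refine (setLIntegral_mono' measurableSet_closedBall fun x hx => ?_).trans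
      (lintegral_mono_set hb)
    obtain ⟨s, -, s1, s2, -⟩ := hs.inv x (hb hx)
    refine le_trans ?_ s1
    calc ENNReal.ofReal (u x + Real.log (Real.exp 1 * R))
        = ∫⁻ _ in Ioo (-u x) (Real.log (Real.exp 1 * R)), 1 := by
          rw [setLIntegral_one, Real.volume_Ioo]
          congr 1
          ring
      _ ≤ ∫⁻ l in Ioo (-u x) (Real.log (Real.exp 1 * R)), s l :=
          setLIntegral_mono' measurableSet_Ioo s2
      _ ≤ ∫⁻ l, s l := setLIntegral_le_lintegral _ _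
  rw [hv] at h1
  have h3 : u b + Real.log (Real.exp 1 * R) ≤ 1 :=
    le_of_mul_le_mul_right (by linarith) v0
  rw [Real.log_mul (Real.exp_pos 1).ne' hR.ne', Real.log_exp] at h3
  exact (Real.log_le_iff_le_exp hR).1 (by linarith)

theorem finite [ProperSpace M] (h : Data n ι q U G) (hn : HasNak n ι q U G) (hp : HasPath ι G)
    (hB : Bs ι q G μ B β f A) : ∃ C : ℝ, 0 < C ∧ ∀ σ R : ℝ, 0 < R →
      ∃ (F : E × ℂ → Cn N) (g : E → ℝ≥0∞), Measurable g ∧
        ∫⁻ b in Lv B β σ, ENNReal.ofReal (Real.exp (-β b)) * g b ∂μ ≤ ENNReal.ofReal C ∧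
        ∀ b ∈ Lv B β σ, F (b, 0) = f b ∧ deriv (fun w => F (b, w)) 0 = A b ∧
          (∀ w ∈ ball (0 : ℂ) R, DifferentiableAt ℂ F (b, w) ∧ F (b, w) ∈ range ι) ∧
          ∀ R' δ, 0 < R' → R' < R → 0 < δ →
            ENNReal.ofReal (ar G R' δ fun w => F (b, w)) ≤ g b := by
  obtain ⟨C₂, hC₂, hext⟩ := ext μ h hn
  refine ⟨Real.exp 1 * (289 * C₂ * 1), by positivity, fun σ R hR => ?_⟩
  obtain ⟨R₀, hR₀⟩ : ∃ R₀, R₀ = Real.exp 1 * R := ⟨_, rfl⟩
  have R0 : 0 < R₀ := by rw [hR₀]; positivity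
  obtain ⟨C₁, hC₁, hext⟩ := hext R₀
  obtain ⟨d, hd, hdL⟩ := okstep_thick hB (lt_add_one σ)
  have := FiniteDimensional.proper_real E
  obtain ⟨v, hv⟩ : ∃ v, v = μ.real (closedBall (0 : E) d) := ⟨_, rfl⟩
  have v0 : 0 < v := hv ▸
    ENNReal.toReal_pos (measure_closedBall_pos μ 0 hd).ne' measure_closedBall_lt_top.ne
  obtain ⟨m₀, hm₀⟩ : ∃ m₀, m₀ = μ.real (Lv B β (σ + 2)) := ⟨_, rfl⟩
  have m0 : 0 ≤ m₀ := hm₀ ▸ measureReal_nonneg
  obtain ⟨m₁, hm₁⟩ : ∃ m₁, m₁ = Real.exp (σ + 2) := ⟨_, rfl⟩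
  have m1 : 0 ≤ m₁ := hm₁ ▸ (Real.exp_pos _).le
  obtain ⟨k₀, hk₀⟩ : ∃ k₀, k₀ = (∫⁻ e, ENNReal.ofReal (kp e)).toReal := ⟨_, rfl⟩
  have k0 : 0 ≤ k₀ := hk₀ ▸ ENNReal.toReal_nonneg
  obtain ⟨X, hX⟩ : ∃ X, X = 4 * Real.exp 1 * √(8 * R₀) * k₀ * (m₀ + m₁ * C₁) := ⟨_, rfl⟩
  have X0 : 0 ≤ X := by rw [hX]; positivity
  obtain ⟨D, hD, hDX⟩ : ∃ D : ℝ, 0 < D ∧ X / D ≤ v / 2 := by
    refine ⟨2 * X / v + 1, by positivity, ?_⟩
    rw [div_le_iff₀ (by positivity)]
    have e1 : v / 2 * (2 * X / v + 1) = X + v / 2 := by field_simp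
    linarith
  have hLB : ∀ s, Lv B β s ⊆ B := fun s b hb => hb.1
  have hβ := hB.cont
  have hK : IsCompact ((fun b => q (f b)) '' Lv B β (σ + 2)) :=
    (hB.cpt _).image_of_continuousOn (h.cq.comp
      (fun b hb => (hB.df b hb.1).continuousAt.continuousWithinAt)
      fun b hb => h.sub (hB.mem b hb.1))
  obtain ⟨c, δ, hδ, hδ1, hδ2, hδ3, hδ4⟩ := takeuchi h hp hK hD
  obtain ⟨η, Λ, hη, hΛ, htub⟩ := tubular h c
  obtain ⟨K, T, ϑ, K0, T0, ϑ0, p1, p2, p3⟩ := okstep_par (P := 8 * R₀ * Λ)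
    (η := min η (D / (4 * Real.exp 1 * √Λ))) (Y := 32 * m₀ + 8 * (m₁ * C₁)) (by positivity)
    (by positivity) (by positivity) (half_pos v0)
  obtain ⟨τ, hτ⟩ : ∃ τ, τ = 1 / (K : ℝ) := ⟨_, rfl⟩
  have K1 : (0 : ℝ) < K := by exact_mod_cast K0
  have τ0 : 0 < τ := by rw [hτ]; positivity
  have Kτ : K * τ = 1 := by rw [hτ]; field_simp
  rw [← hτ] at p1
  have p4 : 4 * Real.exp 1 * √Λ * (τ * (T + 1)) ≤ D := by
    have := p1.trans (min_le_right _ _)
    rw [le_div_iff₀ (by positivity)] at this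
    linarith
  obtain ⟨Δ, hΔ⟩ : ∃ Δ, Δ = 8 * (3 * ϑ + ϑ) * m₀ + 8 * ϑ * (m₁ * C₁) +
      4 * Real.exp 1 * √(8 * R₀) * τ / D * k₀ * (m₀ + m₁ * C₁) := ⟨_, rfl⟩
  have Δ0 : 0 ≤ Δ := by rw [hΔ]; positivity
  have KΔ : K * Δ ≤ v := by
    have e1 : K * Δ = K * ϑ * (32 * m₀ + 8 * (m₁ * C₁)) + K * τ * (X / D) := by
      rw [hΔ, hX]
      ring
    rw [e1, Kτ]
    linarith
  have key : ∀ i : ℕ, i ≤ K → ∃ u F e g, St ι q G μ β f A δ D R₀ (Lv B β (σ + 2 - i * τ))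
      (i * τ) (i * Δ) (Real.exp (i * τ) * (289 * C₂ * (i * τ))) u F e g := by
    intro i
    induction i with
    | zero =>
      intro _
      simp only [Nat.cast_zero, zero_mul, sub_zero, mul_zero]
      exact ⟨_, _, _, _, okstep_zero hB R₀ (hLB _) hD fun b hb => hδ2 _ ⟨b, hb, rfl⟩⟩
    | succ i ih =>
      intro hi
      obtain ⟨u, F, e, g, hs⟩ := ih (by omega)
      have i0 : (0 : ℝ) ≤ i * τ := by positivity
      have i1 : ((i + 1 : ℕ) : ℝ) * τ = i * τ + τ := by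
        push_cast
        ring
      have i2 : ((i + 1 : ℕ) : ℝ) * τ ≤ 1 :=
        Kτ ▸ mul_le_mul_of_nonneg_right (by exact_mod_cast hi) τ0.le
      have hL : Lv B β (σ + 2 - i * τ) ⊆ Lv B β (σ + 2) := okstep_mono (by linarith)
      have hL₁ : Lv B β (σ + 2 - (i + 1 : ℕ) * τ) ⊆ Lv B β (σ + 2 - i * τ) :=
        okstep_mono (by linarith)
      obtain ⟨r, r1, r2, r3, r4⟩ := hB.rng (σ + 2 - i * τ)
      have i3 : ∀ x, τ⁻¹ * x + -(τ⁻¹ * (σ + 2 - (i + 1 : ℕ) * τ)) =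
          (x - (σ + 2 - (i + 1 : ℕ) * τ)) / τ := fun x => by ring
      obtain ⟨y, y1, y2, y3, y4⟩ := hext _ _
        (fun b => τ⁻¹ * r b + -(τ⁻¹ * (σ + 2 - (i + 1 : ℕ) * τ))) ϑ u β F A (hB.cpt _) (hB.cpt _)
        (by fun_prop) ((r2.const_mul (inv_pos.2 τ0).le).add_const (by fun_prop) _)
        (fun b hb => by
          rw [i3, r3 b (hL₁ hb)]
          exact div_nonpos_of_nonpos_of_nonneg (sub_nonpos.2 hb.2) τ0.le)
        (fun b hb => r4 b (by rw [i3, div_lt_one τ0] at hb; linarith)) ϑ0 hs.cu hs.su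
        (hβ.mono (hLB _)) (okq_congr (r2.mono (subset_univ _)) r3)
        (fun b hb => (Real.le_log_iff_exp_le R0).1 (by linarith [hs.lo b hb]))
        (fun z hz => ⟨(hs.hol z hz).1, (hs.hol z hz).2.1⟩)
        (fun b hb => ⟨hB.dA b hb.1, by rw [(hs.zero b hb).1]; exact hB.tan b hb.1⟩) (by
          rw [setIntegral_congr_fun (g := fun b => Real.exp (-β b) * G (f b) (A b) (A b))
            (hB.cpt _).measurableSet fun b hb => by simp only [(hs.zero b hb).1]]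
          refine okstep_int zero_le_one ?_
          rw [ENNReal.ofReal_one]
          exact (lintegral_mono_set (hLB _)).trans hB.int)
      obtain ⟨u', F', e', g', hs'⟩ := hs.step h (hB.cpt _) hL₁ (hβ.mono (hLB _))
        (fun b hb => hB.tan b hb.1) hD R0 hδ hδ1 (fun b hb => hδ2 _ ⟨b, hL hb, rfl⟩) hδ3 hδ4 hΛ
        htub ϑ0 τ0 T0 ϑ0 (p1.trans (min_le_left _ _)) p4 p2 (by positivity) (by positivity)
        hC₁.le hC₂.le (m₀ := m₀) (m₁ := m₁)
        (hm₀ ▸ measureReal_mono (hL₁.trans hL) (hB.cpt _).measure_lt_top.ne)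
        (fun b hb => hm₁ ▸ Real.exp_le_exp.2 (hL hb).2) m1 y1 y2 y3 y4
      have e1 : ((i + 1 : ℕ) : ℝ) * Δ = i * Δ + 8 * (3 * ϑ + ϑ) * m₀ + 8 * ϑ * (m₁ * C₁) +
          4 * Real.exp 1 * √(8 * R₀) * τ / D * k₀ * (m₀ + m₁ * C₁) := by
        push_cast
        rw [add_mul, one_mul]
        nth_rw 2 [hΔ]
        ring
      refine ⟨u', F', e', g', ?_⟩
      rw [e1, hk₀]
      nth_rw 2 [i1]
      refine okstep_le hs' ?_
      have c1 := Real.one_le_exp i0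
      have c2 : 289 * C₂ * τ ≤ Real.exp (i * τ) * (289 * C₂ * τ) :=
        le_mul_of_one_le_left (by positivity) c1
      have c3 := mul_le_mul_of_nonneg_left c2 (Real.exp_pos τ).le
      rw [i1, Real.exp_add]
      nlinarith
  obtain ⟨u, F, e, g, hs⟩ := key K le_rfl
  rw [Kτ, show σ + 2 - 1 = σ + 1 by ring, hR₀] at hs
  have hL : Lv B β σ ⊆ Lv B β (σ + 1) := okstep_mono (by linarith)
  refine ⟨F, g, hs.mg, (lintegral_mono_set hL).trans hs.ig, fun b hb => ?_⟩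
  have hu := okstep_end hR hs hd ((closedBall_subset_cthickening hb d).trans hdL) (hv ▸ KΔ)
  refine ⟨(hs.zero b (hL hb)).1, by simpa using (hs.zero b (hL hb)).2, fun w hw => ?_,
    fun R' d' h1 h2 h3 => hs.area b (hL hb) R' d' h1 (h2.trans_le hu) h3⟩
  have h1 := hs.hol (b, w) ⟨hL hb, (mem_ball_zero_iff.1 hw).trans_le hu⟩
  exact ⟨h1.1, h1.2.1⟩

end Pool.Agent.Lib.MP_124863_gt.Ok
end

-- part Pool.Agent.Lib.MP_124863_gt.OkMain
section

/-! Entire sprays. -/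

set_option linter.unusedSectionVars false

open Filter Topology Set Metric Complex MeasureTheory
open scoped Real ENNReal

namespace Pool.Agent.Lib.MP_124863_gt.Ok

open Ec

variable {n N : ℕ} {M : Type} [MetricSpace M] {ι : M → Cn N} {q : Cn N → M} {U : Set (Cn N)}
  {G : Cn N → Bil N} {E : Type} [NormedAddCommGroup E] [NormedSpace ℝ E] [NormedSpace ℂ E]
  [IsScalarTower ℝ ℂ E] [FiniteDimensional ℝ E] [FiniteDimensional ℂ E]

/-- Montel's theorem along an ultrafilter. -/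
theorem montel' {F : ℕ → E → Cn N} (l : Ultrafilter ℕ) {O : Set E} (hO : IsOpen O)
    (h : ∀ z ∈ O, ∃ r C, 0 < r ∧ ∀ᶠ k in l,
      DifferentiableOn ℂ (F k) (ball z r) ∧ ∀ w ∈ ball z r, ‖F k w‖ ≤ C) :
    ∃ Φ, DifferentiableOn ℂ Φ O ∧ TendstoLocallyUniformlyOn F Φ l O := by
  have := FiniteDimensional.proper_real E
  have h1 : ∀ w ∈ O, ∃ z, Tendsto (fun k => F k w) l (𝓝 z) := fun w hw => by
    obtain ⟨r, C, hr, hC⟩ := h w hw
    obtain ⟨z, -, hz⟩ := (isCompact_closedBall (0 : Cn N) C).ultrafilter_le_nhds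
      (l.map fun k => F k w) (tendsto_principal.2 (hC.mono fun k hk =>
        mem_closedBall_zero_iff.2 (hk.2 w (mem_ball_self hr))))
    exact ⟨z, hz⟩
  choose! Z hZ using h1
  have hl : TendstoLocallyUniformlyOn F Z l O := by
    refine Metric.tendstoLocallyUniformlyOn_iff.2 fun ε hε x hx => ?_
    obtain ⟨r, C, hr, hC⟩ := h x hx
    have h2 : ∀ᶠ k in l, ∀ y ∈ ball x r, dist (F k y) (F k x) ≤ 2 * C / r * dist y x :=
      hC.mono fun k hk y hy =>
        dist_le_div_mul_dist_of_mapsTo_ball (R₂ := 2 * C) hk.1 (fun z hz => by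
          rw [mem_closedBall, dist_eq_norm]
          linarith [norm_sub_le (F k z) (F k x), hk.2 z hz, hk.2 x (mem_ball_self hr)]) hy
    have h3 : ∀ᶠ y in 𝓝 x, 2 * C / r * dist y x < ε / 3 :=
      (by fun_prop : ContinuousAt (fun y => 2 * C / r * dist y x) x).eventually
        (gt_mem_nhds (by simpa using hε))
    refine ⟨_, inter_mem_nhdsWithin O (h3.and (ball_mem_nhds x hr)), ?_⟩
    filter_upwards [h2, Metric.tendsto_nhds.1 (hZ x hx) (ε / 3) (by positivity)] with k a1 a2 y hy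
    have a3 := le_of_tendsto ((hZ y hy.1).dist (hZ x hx)) (h2.mono fun k hk => hk y hy.2.2)
    linarith [dist_triangle4_right (Z y) (F k y) (Z x) (F k x), a1 y hy.2.2, hy.2.1,
      dist_comm (Z x) (F k x)]
  refine ⟨Z, fun x hx => DifferentiableAt.differentiableWithinAt ?_, hl⟩
  obtain ⟨r, C, hr, hC⟩ := h x hx
  obtain ⟨s, hs, hsO⟩ := nhds_basis_closedBall.mem_iff.1
    (inter_mem (hO.mem_nhds hx) (ball_mem_nhds x hr))
  have hu := (tendstoLocallyUniformlyOn_iff_tendstoUniformlyOn_of_compact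
    (isCompact_closedBall x s)).1 (hl.mono (hsO.trans inter_subset_left))
  have h4 : ∀ m : ℕ, ∃ k, DifferentiableOn ℂ (F k) (ball x r) ∧
      ∀ y ∈ closedBall x s, dist (Z y) (F k y) < 1 / ((m : ℝ) + 1) := fun m =>
    ((hC.mono fun k hk => hk.1).and (Metric.tendstoUniformlyOn_iff.1 hu _ (by positivity))).exists
  choose κ k1 k2 using h4
  refine MP_7906d6_an.weierstrass (F := fun m => F (κ m)) hs (fun m => (k1 m).mono
    (ball_subset_closedBall.trans (hsO.trans inter_subset_right)))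
    (Metric.tendstoUniformlyOn_iff.2 fun ε hε => ?_)
  filter_upwards [(tendsto_one_div_add_atTop_nhds_zero_nat (𝕜 := ℝ)).eventually (gt_mem_nhds hε)]
    with m hm y hy using (k2 m y (ball_subset_closedBall hy)).trans hm

theorem exists_base [MeasurableSpace E] [BorelSpace E] (μ : Measure E) [μ.IsAddHaarMeasure]
    {B : Set E} {p : E → ℝ} (p1 : Continuous p) (p2 : SM p univ) (p3 : ∀ b, b ∈ B ↔ p b < 1)
    {θ : E → ℝ} (hθ : ContinuousOn θ B) : ∃ β : E → ℝ, ContinuousOn β B ∧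
      (∀ σ, ∃ r : E → ℝ, Continuous r ∧ SM r univ ∧ (∀ b ∈ Lv B β σ, r b = β b) ∧
        ∀ b, r b ≤ σ → b ∈ Lv B β σ) ∧ (∀ σ, IsCompact (Lv B β σ)) ∧
      ∫⁻ b in B, ENNReal.ofReal (Real.exp (-β b) * θ b) ∂μ ≤ 1 := by
  have := FiniteDimensional.proper_real E
  obtain ⟨φ, hφ⟩ : ∃ φ : ℕ → E → ℝ, ∀ j b, φ j b =
      max 0 (max (‖b‖ + (1 - j)) ((j + 1) * (j + 2) * p b + (j + 2) * (-j))) := ⟨_, fun _ _ => rfl⟩
  obtain ⟨L, hL⟩ : ∃ L : ℕ → Set E, ∀ j, L j = {b | ‖b‖ + 1 ≤ j ∧ (j + 1) * p b ≤ j} :=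
    ⟨_, fun _ => rfl⟩
  have f0 : ∀ j b, 0 ≤ φ j b := fun j b => by rw [hφ]; exact le_max_left _ _
  have f1 : ∀ j, Continuous (φ j) := fun j => by
    rw [show φ j = _ from funext (hφ j)]; fun_prop
  have f2 : ∀ j, SM (φ j) univ := fun j => by
    rw [show φ j = _ from funext (hφ j)]
    exact okq_max continuousOn_const (by fun_prop)
      (sm_convex (convexOn_const 0 convex_univ) continuousOn_const) (okq_max (by fun_prop)
        (by fun_prop) (sm_convex (convexOn_univ_norm.add_const _) (by fun_prop))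
        ((p2.const_mul (c := ((j : ℝ) + 1) * (j + 2)) (by positivity)).add_const (by fun_prop) _))
  have f3 : ∀ j, ∀ b ∈ L j, φ j b = 0 := fun j b hb => by
    rw [hL] at hb
    rw [hφ]
    have : (0 : ℝ) ≤ j := j.cast_nonneg
    exact max_eq_left (max_le (by linarith [hb.1]) (by nlinarith [hb.2]))
  have f4 : ∀ j, ∀ b ∉ L (j + 1), 1 ≤ φ j b := fun j b hb => by
    rw [hL] at hb
    rw [hφ]
    have : (0 : ℝ) ≤ j := j.cast_nonneg
    simp only [mem_ofPred_eq, not_and_or, not_le] at hb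
    push_cast at hb
    rcases hb with hb | hb
    · exact le_max_of_le_right (le_max_of_le_left (by linarith))
    · exact le_max_of_le_right (le_max_of_le_right (by nlinarith))
  have f5 : ∀ b, 1 ≤ φ 0 b := fun b => by
    rw [hφ]
    exact le_max_of_le_right (le_max_of_le_left (by simp))
  have l1 : ∀ j, L j ⊆ B := fun j b hb => by
    rw [hL] at hb
    have : (0 : ℝ) ≤ j := j.cast_nonneg
    exact (p3 b).2 (by nlinarith [hb.2])
  have l2 : ∀ j, IsCompact (L j) := fun j => by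
    rw [hL]
    have c1 : IsClosed {b : E | ‖b‖ + 1 ≤ j} := isClosed_le (by fun_prop) continuous_const
    have c2 : IsClosed {b : E | (j + 1) * p b ≤ j} := isClosed_le (by fun_prop) continuous_const
    exact (isCompact_closedBall (0 : E) j).of_isClosed_subset (c1.inter c2)
      fun b hb => mem_closedBall_zero_iff.2 (by linarith [hb.1])
  have l3 : ∀ b ∈ B, ∀ᶠ j in atTop, b ∈ L j := fun b hb => by
    have h1 := (p3 b).1 hb
    filter_upwards [tendsto_natCast_atTop_atTop.eventually_ge_atTop (‖b‖ + 1),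
      tendsto_natCast_atTop_atTop.eventually_ge_atTop (p b / (1 - p b))] with j a1 a2
    rw [hL]
    rw [div_le_iff₀ (by linarith)] at a2
    exact ⟨a1, by linarith⟩
  have m1 : ∀ j, ∃ K, 0 ≤ K ∧ ∀ b ∈ L j, θ b ≤ K := fun j => by
    obtain ⟨K, hK⟩ := (l2 j).exists_bound_of_continuousOn (hθ.mono (l1 j))
    exact ⟨max K 0, le_max_right _ _, fun b hb =>
      le_max_of_le_left ((le_abs_self _).trans (hK b hb))⟩
  choose K K0 K1 using m1
  obtain ⟨a, ha⟩ : ∃ a : ℕ → ℝ, ∀ j, a j = j + 2 * 2 ^ j * (K (j + 2) * μ.real (L (j + 2))) :=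
    ⟨_, fun _ => rfl⟩
  have a0 : ∀ j, 0 ≤ K j * μ.real (L j) := fun j => mul_nonneg (K0 j) measureReal_nonneg
  have a1 : ∀ j : ℕ, (j : ℝ) ≤ a j := fun j => by
    rw [ha]; exact le_add_of_nonneg_right (mul_nonneg (by positivity) (a0 _))
  have a2 : ∀ j, 0 ≤ a j := fun j => j.cast_nonneg.trans (a1 j)
  have bd : ∀ b ∈ B, BddAbove (range fun j => a j * φ j b) := fun b hb =>
    (tendsto_const_nhds (x := (0 : ℝ)).congr' ((l3 b hb).mono fun j hj => by
      simp only [f3 j b hj, mul_zero])).bddAbove_range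
  have l4 : Monotone L := monotone_nat_of_le_succ fun j b hb => by
    have := (p3 b).1 (l1 j hb)
    rw [hL] at hb ⊢
    push_cast
    exact ⟨by linarith [hb.1], by linarith [hb.2]⟩
  have r0 : ∀ J, ∃ r : E → ℝ, Continuous r ∧ SM r univ ∧ (∀ b, ∀ j ≤ J, a j * φ j b ≤ r b) ∧
      ∀ b, ∃ j, r b = a j * φ j b := fun J => by
    induction J with
    | zero => exact ⟨fun b => a 0 * φ 0 b, continuous_const.mul (f1 0), (f2 0).const_mul (a2 0),
        fun b j hj => by rw [Nat.le_zero.1 hj], fun b => ⟨0, rfl⟩⟩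
    | succ J ih =>
      obtain ⟨r, r1, r2, r3, r4⟩ := ih
      have c1 : Continuous fun b => a (J + 1) * φ (J + 1) b := continuous_const.mul (f1 _)
      refine ⟨_, r1.max c1, okq_max r1.continuousOn c1.continuousOn r2 ((f2 _).const_mul (a2 _)),
        fun b j hj => ?_, fun b => ?_⟩
      · rcases hj.eq_or_lt with rfl | hj
        exacts [le_max_right _ _, le_max_of_le_left (r3 b j (by omega))]
      · rcases max_choice (r b) (a (J + 1) * φ (J + 1) b) with h | h <;> rw [h]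
        exacts [r4 b, ⟨_, rfl⟩]
  have r1 : ∀ σ, ∃ r : E → ℝ, Continuous r ∧ SM r univ ∧
      (∀ b ∈ Lv B (fun b => ⨆ j, a j * φ j b) σ, r b = ⨆ j, a j * φ j b) ∧
        ∀ b, r b ≤ σ → b ∈ Lv B (fun b => ⨆ j, a j * φ j b) σ := fun σ => by
    obtain ⟨j0, hj0⟩ := exists_nat_gt σ
    obtain ⟨r, r1, r2, r3, r4⟩ := r0 j0
    have e1 : ∀ b, a j0 * φ j0 b ≤ σ → b ∈ L (j0 + 1) := fun b hb => by_contra fun h0 => by
      nlinarith [f4 j0 b h0, a1 j0, a2 j0]
    have e2 : ∀ b ∈ L (j0 + 1), r b = ⨆ j, a j * φ j b := fun b hb => by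
      refine le_antisymm (let ⟨j, hj⟩ := r4 b; hj ▸ le_ciSup (bd b (l1 _ hb)) j)
        (ciSup_le fun j => ?_)
      rcases le_or_gt j j0 with hj | hj
      · exact r3 b j hj
      · rw [f3 j b (l4 hj hb), mul_zero]
        exact (mul_nonneg (a2 0) (f0 0 b)).trans (r3 b 0 j0.zero_le)
    refine ⟨r, r1, r2, fun b hb => e2 b (e1 b ((le_ciSup (bd b hb.1) j0).trans hb.2)),
      fun b hb => ?_⟩
    have := e1 b ((r3 b j0 le_rfl).trans hb)
    exact ⟨l1 _ this, (e2 b this).symm.trans_le hb⟩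
  refine ⟨fun b => ⨆ j, a j * φ j b, fun b hb => ?_, r1, fun σ => ?_, ?_⟩
  · obtain ⟨r, c1, -, c2, c3⟩ := r1 ((⨆ j, a j * φ j b) + 1)
    refine (c1.continuousAt.congr (mem_of_superset ((isOpen_lt c1 continuous_const).mem_nhds
      (show r b < (⨆ j, a j * φ j b) + 1 by
        rw [c2 b ⟨hb, (lt_add_one _).le⟩]; exact lt_add_one _))
      fun x hx => c2 x (c3 x (le_of_lt hx)))).continuousWithinAt
  · obtain ⟨j0, hj0⟩ := exists_nat_gt σ
    have e : Lv B (fun b => ⨆ j, a j * φ j b) σ = L (j0 + 1) ∩ ⋂ j, {b | a j * φ j b ≤ σ} := by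
      ext b
      simp only [Lv, mem_ofPred_eq, mem_inter_iff, mem_iInter]
      refine ⟨fun hb => ⟨by_contra fun h0 => ?_, fun j => (le_ciSup (bd b hb.1) j).trans hb.2⟩,
        fun hb => ⟨l1 _ hb.1, ciSup_le hb.2⟩⟩
      have h1 := (le_ciSup (bd b hb.1) j0).trans hb.2
      nlinarith [f4 j0 b h0, a1 j0, a2 j0]
    rw [e]
    exact (l2 _).inter_right (isClosed_iInter fun j =>
      isClosed_le (continuous_const.mul (f1 j)) continuous_const)
  · have cov : B ⊆ ⋃ j, L (j + 2) ∩ {b | 1 ≤ φ j b} := fun b hb => by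
      classical
      have ex : ∃ j, b ∈ L (j + 2) := ((tendsto_add_atTop_nat 2).eventually (l3 b hb)).exists
      refine mem_iUnion.2 ⟨Nat.find ex, Nat.find_spec ex, ?_⟩
      rcases h0 : Nat.find ex with _ | i
      · exact f5 b
      · exact f4 _ b (Nat.find_min ex (m := i) (by omega))
    refine (lintegral_mono_set cov).trans ((lintegral_iUnion_le _ _).trans ?_)
    have s1 : ∑' j : ℕ, ENNReal.ofReal (1 / 2 / 2 ^ j) = 1 := by
      rw [← ENNReal.ofReal_tsum_of_nonneg (fun j => by positivity) (summable_geometric_two' 1),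
        tsum_geometric_two', ENNReal.ofReal_one]
    refine (ENNReal.tsum_le_tsum fun j => ?_).trans_eq s1
    have c1 : IsClosed (L (j + 2) ∩ {b | 1 ≤ φ j b}) :=
      (l2 _).isClosed.inter (isClosed_le continuous_const (f1 j))
    refine (setLIntegral_mono' c1.measurableSet
      (g := fun _ => ENNReal.ofReal (Real.exp (-a j) * K (j + 2))) fun b hb => ?_).trans ?_
    · refine ENNReal.ofReal_le_ofReal ((mul_le_mul_of_nonneg_left (K1 _ b hb.1)
        (Real.exp_pos _).le).trans (mul_le_mul_of_nonneg_right (Real.exp_le_exp.2 ?_) (K0 _)))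
      have h1 := le_ciSup (bd b (l1 _ hb.1)) j
      have h2 : 1 ≤ φ j b := hb.2
      nlinarith [a2 j]
    · rw [setLIntegral_const]
      refine (mul_le_mul_right (measure_mono inter_subset_left) _).trans ?_
      rw [← ofReal_measureReal (l2 _).measure_lt_top.ne,
        ← ENNReal.ofReal_mul (mul_nonneg (Real.exp_pos _).le (K0 _))]
      refine ENNReal.ofReal_le_ofReal ?_
      rw [mul_assoc, Real.exp_neg, inv_mul_le_iff₀ (Real.exp_pos _), div_div, mul_one_div,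
        le_div_iff₀ (by positivity)]
      have := Real.add_one_le_exp (a j)
      have h3 : (0 : ℝ) ≤ j := j.cast_nonneg
      linarith [ha j]

variable [ProperSpace M]

/-- The local bound for maps whose fibre areas are bounded in the mean. -/
theorem okm_bound [MeasurableSpace E] [BorelSpace E] (μ : Measure E) [μ.IsAddHaarMeasure]
    (h : Data n ι q U G) {b0 : E} {d ρ C : ℝ} (hd : 0 < d) (hρ : 0 < ρ) (hC : 0 < C)
    {f : E → Cn N} (hf : ContinuousOn f (closedBall b0 (2 * d)))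
    (hf' : ∀ b ∈ closedBall b0 (2 * d), f b ∈ range ι) :
    ∃ K R₀, ∀ (R : ℝ) (F : E × ℂ → Cn N) (g : E → ℝ≥0∞), R₀ ≤ R → Measurable g →
      ∫⁻ b in closedBall b0 (2 * d), g b ∂μ ≤ ENNReal.ofReal C →
      (∀ b ∈ closedBall b0 (2 * d), F (b, 0) = f b ∧
        (∀ w ∈ ball (0 : ℂ) R, DifferentiableAt ℂ F (b, w) ∧ F (b, w) ∈ range ι) ∧
        ∀ R' δ, 0 < R' → R' < R → 0 < δ → ENNReal.ofReal (ar G R' δ fun w => F (b, w)) ≤ g b) →
      ∀ b ∈ closedBall b0 d, ∀ w ∈ ball (0 : ℂ) ρ, ‖F (b, w)‖ ≤ K := by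
  have := FiniteDimensional.proper_real E
  obtain ⟨ρ1, hρ1⟩ : ∃ ρ1, ρ1 = Real.exp 1 * ρ := ⟨_, rfl⟩
  have r1 : 0 < ρ1 := by rw [hρ1]; positivity
  obtain ⟨m, hm⟩ : ∃ m, m = μ.real (closedBall (0 : E) d) := ⟨_, rfl⟩
  have m0 : 0 < m := by
    rw [hm]
    exact ENNReal.toReal_pos (measure_closedBall_pos μ 0 hd).ne'
      (isCompact_closedBall 0 d).measure_lt_top.ne
  obtain ⟨T, hT⟩ : ∃ T, T = C / m := ⟨_, rfl⟩
  have T0 : 0 < T := by rw [hT]; positivity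
  obtain ⟨C', C0, hC'⟩ := anchor' h r1
  have hL := isCompact_closedBall b0 (2 * d)
  have hK : IsCompact ((q ∘ f) '' closedBall b0 (2 * d)) :=
    hL.image_of_continuousOn (h.cq.comp hf fun b hb => h.sub (hf' b hb))
  obtain ⟨c, hc⟩ := (hK.cthickening (r := C' * (1 + ρ1 * T))).exists_bound_of_continuousOn
    h.cι.continuousOn
  refine ⟨c + 1 + 1, 10 * ρ1, fun R F g hR hg hI hF => ?_⟩
  have e0 : Real.exp (-(-Real.log (3 * ρ1))) = 3 * ρ1 := by
    rw [neg_neg, Real.exp_log (by positivity)]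
  have hD : ∀ z ∈ Hc (closedBall b0 (2 * d)) fun _ => -Real.log (3 * ρ1),
      DifferentiableAt ℂ F z := fun z hz =>
    ((hF z.1 hz.1).2.1 z.2 (mem_ball_zero_iff.2 (by linarith [e0 ▸ hz.2]))).1
  obtain ⟨u, u1, u2, u3, u4, u5⟩ := cut (u := fun _ => -Real.log (3 * ρ1)) hL continuousOn_const
    (fun b v _ => (Real.circleAverage_const _ _ _).ge) (Φ := fun z => ‖F z‖)
    (fun z hz => (hD z hz).continuousAt.norm.continuousWithinAt) (hsm_norm hD) (c := c + 1) one_pos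
    (fun b hb => by
      have := hc _ (self_subset_cthickening _ ⟨b, hb, rfl⟩)
      rw [Function.comp_apply, h.eq_of (hf' b hb)] at this
      simp only [(hF b hb).1]
      linarith)
  have key : ∀ b ∈ closedBall b0 (2 * d), g b < ∞ → u b ≤ -Real.log ρ1 + (g b).toReal / T := by
    intro b hb hgb
    obtain ⟨a, ha⟩ : ∃ a, a = (g b).toReal := ⟨_, rfl⟩
    have a0 : 0 ≤ a := ha ▸ ENNReal.toReal_nonneg
    rw [← ha]
    obtain ⟨x, hx⟩ : ∃ x, x = ρ1 / (1 + a / T) := ⟨_, rfl⟩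
    have t0 : 0 ≤ a / T := by positivity
    have x0 : 0 < x := by rw [hx]; positivity
    have x1 : x ≤ ρ1 := by rw [hx]; exact div_le_self r1.le (by linarith)
    have x2 : x * a ≤ ρ1 * T := by
      rw [hx, div_mul_eq_mul_div, div_le_iff₀ (by positivity), mul_assoc, mul_add,
        mul_div_cancel₀ _ T0.ne']
      nlinarith
    have x3 : x ≤ Real.exp (-u b) := by
      by_contra hlt
      rw [not_le] at hlt
      have h1 : -Real.log (3 * ρ1) < u b := by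
        rw [← neg_lt_neg_iff, ← Real.exp_lt_exp, e0]; linarith
      obtain ⟨f1, f2, f3⟩ := hF b hb
      have hZ : Dsc ι (9 * ρ1) fun w => F (b, w) :=
        ⟨DifferentiableOn.diffContOnCl_ball (U := ball 0 R) (fun w hw =>
          ((f2 w hw).1.comp w (by fun_prop)).differentiableWithinAt)
          (closedBall_subset_ball (by linarith)),
          fun w hw => (f2 w (closedBall_subset_ball (by linarith) hw)).2⟩
      obtain ⟨r, hr, hr'⟩ := hC' _ (8 * ρ1) (9 * ρ1) x a hZ x0 x1 (by linarith) (by linarith)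
        fun δ hδ => ha ▸ (ENNReal.ofReal_le_iff_le_toReal hgb.ne).1
          (f3 _ δ (by linarith) (by linarith) hδ)
      obtain ⟨w, hw, hw'⟩ := u5 b hb h1 r (hlt.le.trans hr.1) (by rw [e0]; linarith [hr.2])
      have h2 := hr' w (mem_sphere_zero_iff_norm.2 hw)
      simp only [f1] at h2
      have h3 := hc _ (mem_cthickening_of_dist_le (q (F (b, w))) _ _ _ ⟨b, hb, rfl⟩
        ((dist_comm _ _).trans_le (h2.trans (mul_le_mul_of_nonneg_left (by linarith) C0.le))))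
      rw [h.eq_of (f2 w (mem_ball_zero_iff.2 (by linarith [hr.2]))).2] at h3
      linarith
    have x4 := Real.log_le_log x0 x3
    rw [Real.log_exp, hx, Real.log_div r1.ne' (by positivity)] at x4
    have := Real.log_le_sub_one_of_pos (x := 1 + a / T) (by positivity)
    linarith
  intro b hb w hw
  have s1 : closedBall b d ⊆ closedBall b0 (2 * d) :=
    closedBall_subset_closedBall' (by linarith [mem_closedBall.1 hb])
  have hS := isCompact_closedBall b d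
  have i1 : ∫⁻ x in closedBall b d, g x ∂μ ≤ ENNReal.ofReal C := (lintegral_mono_set s1).trans hI
  have i2 := (i1.trans_lt ENNReal.ofReal_lt_top).ne
  have i3 := ae_lt_top hg i2
  have i4 := integrable_toReal_of_lintegral_ne_top hg.aemeasurable i2
  have i5 : IntegrableOn (fun _ : E => -Real.log ρ1) (closedBall b d) μ :=
    continuousOn_const.integrableOn_compact hS
  have i6 := sm_ball μ (u1.mono s1) (u2.mono s1)
  have i7 := integral_mono_ae ((u1.mono s1).integrableOn_compact hS) (i5.add (i4.div_const T))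
    (by
      filter_upwards [i3, ae_restrict_mem measurableSet_closedBall] with x a1 a2
      exact key x (s1 a2) a1)
  simp only [Pi.add_apply] at i7
  rw [integral_add i5 (i4.div_const T), integral_div, integral_toReal hg.aemeasurable i3,
    setIntegral_const, smul_eq_mul] at i7
  rw [Measure.addHaar_real_closedBall_center, ← hm] at i6 i7
  have i8 : (∫⁻ x in closedBall b d, g x ∂μ).toReal / T ≤ m := by
    rw [div_le_iff₀ T0, hT, mul_div_cancel₀ _ m0.ne']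
    exact ENNReal.toReal_le_of_le_ofReal hC.le i1
  have i9 : u b ≤ -Real.log ρ := by
    rw [hρ1, Real.log_mul (Real.exp_pos 1).ne' hρ.ne', Real.log_exp] at i7
    refine le_of_mul_le_mul_right ?_ m0
    linarith
  refine u4 (b, w) ⟨s1 (mem_closedBall_self hd.le), (mem_ball_zero_iff.1 hw).trans_le ?_⟩
  rw [← Real.log_le_iff_le_exp hρ]
  linarith

theorem okm_proj (h : Data n ι q U G) {z : Cn N} (hz : z ∈ range ι) (v : Cn N) :
    fderiv ℂ (ι ∘ q) z (fderiv ℂ (ι ∘ q) z v) = fderiv ℂ (ι ∘ q) z v := by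
  obtain ⟨c, j, B, hc⟩ := h.loc _ (h.sub hz)
  rw [hc.fderiv_p, hc.left0 (h.fix hz), hc.fderiv_p]

theorem okm_dproj (h : Data n ι q U G) {f A : E → Cn N} {b : E} (hf : DifferentiableAt ℂ f b)
    (hA : DifferentiableAt ℂ A b) (hz : f b ∈ range ι) :
    DifferentiableAt ℂ (fun b => fderiv ℂ (ι ∘ q) (f b) (A b)) b :=
  (((MP_7906d6_an.differentiableOn_fderiv h.isOpen h.hol).differentiableAt
    (h.isOpen.mem_nhds (h.sub hz))).comp b hf).clm_apply hA

theorem spray (h : Data n ι q U G) (hn : HasNak n ι q U G) (hp : HasPath ι G) {B : Set E}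
    {p : E → ℝ} (p1 : Continuous p) (p2 : SM p univ) (p3 : ∀ b, b ∈ B ↔ p b < 1)
    {f A : E → Cn N} (hf : ∀ b ∈ B, DifferentiableAt ℂ f b ∧
      DifferentiableAt ℂ A b ∧ f b ∈ range ι ∧ fderiv ℂ (ι ∘ q) (f b) (A b) = A b) :
    ∃ F : E × ℂ → Cn N, ∀ b ∈ B, F (b, 0) = f b ∧ deriv (fun w => F (b, w)) 0 = A b ∧
      ∀ w, DifferentiableAt ℂ F (b, w) ∧ F (b, w) ∈ range ι := by
  have := FiniteDimensional.proper_real E
  have hB : IsOpen B := Set.ext p3 ▸ isOpen_lt p1 continuous_const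
  borelize E
  obtain ⟨μ, hμ⟩ : ∃ μ : Measure E, μ.IsAddHaarMeasure := ⟨Measure.addHaar, inferInstance⟩
  have cf : ContinuousOn f B := fun b hb => (hf b hb).1.continuousAt.continuousWithinAt
  have cA : ContinuousOn A B := fun b hb => (hf b hb).2.1.continuousAt.continuousWithinAt
  obtain ⟨β, β1, β0, β2, β3⟩ := exists_base μ p1 p2 p3 (θ := fun b => G (f b) (A b) (A b))
    (((h.cG.comp cf fun b hb => h.sub (hf b hb).2.2.1).clm_apply cA).clm_apply cA)
  obtain ⟨C, C0, hC⟩ := finite h hn hp (μ := μ) (B := B) (β := β) (f := f) (A := A)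
    ⟨hB, β1, β0, β2, fun b hb => (hf b hb).1, fun b hb => (hf b hb).2.1, fun b hb => (hf b hb).2.2.1,
      fun b hb => (hf b hb).2.2.2, β3⟩
  have h1 : ∀ k : ℕ, ∃ (F : E × ℂ → Cn N) (g : E → ℝ≥0∞), Measurable g ∧
      ∫⁻ b in Lv B β k, ENNReal.ofReal (Real.exp (-β b)) * g b ∂μ ≤ ENNReal.ofReal C ∧
      ∀ b ∈ Lv B β k, F (b, 0) = f b ∧ deriv (fun w => F (b, w)) 0 = A b ∧
        (∀ w ∈ ball (0 : ℂ) (k + 1), DifferentiableAt ℂ F (b, w) ∧ F (b, w) ∈ range ι) ∧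
        ∀ R' δ : ℝ, 0 < R' → R' < k + 1 → 0 < δ →
          ENNReal.ofReal (ar G R' δ fun w => F (b, w)) ≤ g b := fun k => hC k (k + 1) (by positivity)
  choose F g g1 g2 g3 using h1
  have ev : ∀ ρ : ℝ, ∀ᶠ k : ℕ in hyperfilter ℕ, ρ ≤ k := fun ρ => Nat.hyperfilter_le_atTop
    (tendsto_natCast_atTop_atTop.eventually_ge_atTop ρ)
  obtain ⟨Φ, Φ1, Φ2⟩ := montel' (F := F) (hyperfilter ℕ) (hB.prod isOpen_univ) (by
    rintro ⟨b0, w0⟩ ⟨hb0, -⟩
    obtain ⟨d', d0, hd⟩ := nhds_basis_closedBall.mem_iff.1 (hB.mem_nhds hb0)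
    obtain ⟨d, rfl⟩ : ∃ d, d' = 2 * d := ⟨d' / 2, by ring⟩
    have d1 : 0 < d := by linarith
    obtain ⟨σ, hσ⟩ := (isCompact_closedBall b0 (2 * d)).exists_bound_of_continuousOn
      (β1.mono hd)
    have hσ' : ∀ b ∈ closedBall b0 (2 * d), β b ≤ σ := fun b hb => (le_abs_self _).trans (hσ b hb)
    obtain ⟨K, R₀, hK⟩ := okm_bound μ h d1 (ρ := ‖w0‖ + 1) (C := Real.exp σ * C) (by positivity)
      (by positivity) (cf.mono hd) fun b hb => (hf b (hd hb)).2.2.1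
    refine ⟨min d 1, K, by positivity, ?_⟩
    filter_upwards [ev σ, ev R₀, ev ‖w0‖] with k a1 a2 a3
    have s1 : closedBall b0 (2 * d) ⊆ Lv B β k := fun b hb => ⟨hd hb, (hσ' b hb).trans a1⟩
    have s2 : ∀ z ∈ ball (b0, w0) (min d 1), z.1 ∈ closedBall b0 d ∧ z.2 ∈ ball 0 (‖w0‖ + 1) := by
      intro z hz
      rw [mem_ball, Prod.dist_eq, max_lt_iff, lt_min_iff, lt_min_iff] at hz
      exact ⟨hz.1.1.le, ball_subset_ball' (by simp [add_comm]) (mem_ball.2 hz.2.2)⟩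
    refine ⟨fun z hz => ((g3 k z.1 (s1 (closedBall_subset_closedBall (by linarith) (s2 z hz).1))).2.2.1
      z.2 (ball_subset_ball (by linarith) (s2 z hz).2)).1.differentiableWithinAt, fun z hz =>
      hK (k + 1) (F k) (g k) (by linarith) (g1 k) ?_ (fun b hb => ⟨(g3 k b (s1 hb)).1,
        (g3 k b (s1 hb)).2.2⟩) z.1 (s2 z hz).1 z.2 (s2 z hz).2⟩
    rw [ENNReal.ofReal_mul (Real.exp_pos _).le]
    refine le_trans ?_ (mul_le_mul_right ((lintegral_mono_set s1).trans (g2 k)) _)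
    rw [← lintegral_const_mul' _ _ ENNReal.ofReal_ne_top]
    refine setLIntegral_mono' measurableSet_closedBall fun b hb => ?_
    rw [← mul_assoc, ← ENNReal.ofReal_mul (Real.exp_pos _).le, ← Real.exp_add]
    exact le_mul_of_one_le_left' (ENNReal.one_le_ofReal.2 (Real.one_le_exp (by linarith [hσ' b hb]))))
  refine ⟨Φ, fun b hb => ?_⟩
  have e1 : ∀ᶠ k : ℕ in hyperfilter ℕ, b ∈ Lv B β k := (ev (β b)).mono fun k hk => ⟨hb, hk⟩
  have t1 := fun w : ℂ => Φ2.tendsto_at (a := (b, w)) ⟨hb, mem_univ _⟩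
  refine ⟨tendsto_nhds_unique (t1 0) (tendsto_const_nhds.congr' (e1.mono fun k hk =>
    (g3 k b hk).1.symm)), ?_, fun w => ⟨Φ1.differentiableAt ((hB.prod isOpen_univ).mem_nhds
      ⟨hb, mem_univ _⟩), h.closed.mem_of_tendsto (t1 w) ?_⟩⟩
  · have t2 := Φ2.comp (t := ball (0 : ℂ) 1) (fun w => (b, w)) (fun w _ => ⟨hb, mem_univ _⟩)
      (by fun_prop)
    exact tendsto_nhds_unique ((t2.deriv (e1.mono fun k hk w hw =>
      (((g3 k b hk).2.2.1 w (ball_subset_ball (by simp) hw)).1.comp w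
        (by fun_prop)).differentiableWithinAt) isOpen_ball).tendsto_at (mem_ball_self one_pos))
      (tendsto_const_nhds.congr' (e1.mono fun k hk => (g3 k b hk).2.1.symm))
  · filter_upwards [e1, ev ‖w‖] with k a1 a2
    exact ((g3 k b a1).2.2.1 w (mem_ball_zero_iff.2 (by linarith))).2

theorem okm_iter (h : Data n ι q U G) (hn : HasNak n ι q U G) (hp : HasPath ι G) (k : ℕ) :
    ∀ (E : Type) [NormedAddCommGroup E] [NormedSpace ℝ E] [NormedSpace ℂ E] [IsScalarTower ℝ ℂ E]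
      [FiniteDimensional ℝ E] [FiniteDimensional ℂ E] (B : Set E) (p : E → ℝ), Continuous p →
      SM p univ → (∀ b, b ∈ B ↔ p b < 1) →
      ∀ (f : E → Cn N) (A : Fin k → E → Cn N),
      (∀ b ∈ B, DifferentiableAt ℂ f b ∧ f b ∈ range ι ∧ ∀ j, DifferentiableAt ℂ (A j) b ∧
        fderiv ℂ (ι ∘ q) (f b) (A j b) = A j b) →
      ∃ F : E × Cn k → Cn N, ∀ b ∈ B, F (b, 0) = f b ∧
        (∀ j, deriv (fun t : ℂ => F (b, Pi.single j t)) 0 = A j b) ∧
        ∀ w, DifferentiableAt ℂ F (b, w) ∧ F (b, w) ∈ range ι := by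
  induction k with
  | zero =>
    intro E _ _ _ _ _ _ B _ _ _ _ f A hf
    exact ⟨fun z => f z.1, fun b hb => ⟨rfl, fun j => j.elim0, fun w =>
      ⟨DifferentiableAt.comp (g := f) (f := Prod.fst) (b, w) (hf b hb).1 differentiableAt_fst,
        (hf b hb).2.1⟩⟩⟩
  | succ k ih =>
    intro E _ _ _ _ _ _ B p p1 p2 p3 f A hf
    obtain ⟨F1, h1⟩ := spray h hn hp p1 p2 p3 (f := f) (A := A 0) fun b hb =>
      ⟨(hf b hb).1, ((hf b hb).2.2 0).1, (hf b hb).2.1, ((hf b hb).2.2 0).2⟩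
    obtain ⟨F2, h2⟩ := ih (E × ℂ) (B ×ˢ univ) _ (p1.comp continuous_fst) p2.fst
      (fun z => by simp [p3]) F1
      (fun j z => fderiv ℂ (ι ∘ q) (F1 z) (A j.succ z.1)) fun z hz =>
        ⟨((h1 z.1 hz.1).2.2 z.2).1, ((h1 z.1 hz.1).2.2 z.2).2, fun j =>
          ⟨okm_dproj h ((h1 z.1 hz.1).2.2 z.2).1 (DifferentiableAt.comp (g := A j.succ)
            (f := Prod.fst) z ((hf z.1 hz.1).2.2 _).1 differentiableAt_fst)
            ((h1 z.1 hz.1).2.2 z.2).2, okm_proj h ((h1 z.1 hz.1).2.2 z.2).2 _⟩⟩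
    refine ⟨fun z => F2 ((z.1, z.2 0), fun j => z.2 j.succ), fun b hb => ⟨?_, fun j => ?_, fun w =>
      ⟨DifferentiableAt.comp (g := F2) (b, w) ((h2 (b, w 0) ⟨hb, mem_univ _⟩).2.2 _).1 (by fun_prop),
        ((h2 (b, w 0) ⟨hb, mem_univ _⟩).2.2 _).2⟩⟩⟩
    · exact (h2 (b, 0) ⟨hb, mem_univ _⟩).1.trans (h1 b hb).1
    · refine Fin.cases ?_ (fun i => ?_) j
      · rw [← (h1 b hb).2.1]
        congr 1
        ext1 t
        rw [← (h2 (b, t) ⟨hb, mem_univ _⟩).1]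
        congr 2
      · have := (h2 (b, 0) ⟨hb, mem_univ _⟩).2.1 i
        simp only [(h1 b hb).1, ((hf b hb).2.2 _).2] at this
        rw [← this]
        congr 1
        ext1 t
        refine congrArg F2 (Prod.ext (Prod.ext rfl (by simp)) ?_)
        ext j
        simp [Pi.single_apply]

theorem sprays (h : Data n ι q U G) (hn : HasNak n ι q U G) (hp : HasPath ι G) {B : Set E}
    {p : E → ℝ} (p1 : Continuous p) (p2 : SM p univ) (p3 : ∀ b, b ∈ B ↔ p b < 1) {f : E → Cn N}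
    (hf : ∀ b ∈ B, DifferentiableAt ℂ f b ∧ f b ∈ range ι) :
    ∃ F : E × Cn N → Cn N, ∀ b ∈ B, F (b, 0) = f b ∧
      fderiv ℂ (fun w => F (b, w)) 0 = fderiv ℂ (ι ∘ q) (f b) ∧
      ∀ w, DifferentiableAt ℂ F (b, w) ∧ F (b, w) ∈ range ι := by
  obtain ⟨F, hF⟩ := okm_iter h hn hp N E B p p1 p2 p3 f
    (fun j b => fderiv ℂ (ι ∘ q) (f b) (Pi.single j 1)) fun b hb => ⟨(hf b hb).1, (hf b hb).2,
      fun j => ⟨okm_dproj h (hf b hb).1 (differentiableAt_const _) (hf b hb).2,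
        okm_proj h (hf b hb).2 _⟩⟩
  refine ⟨F, fun b hb => ⟨(hF b hb).1, ?_, (hF b hb).2.2⟩⟩
  refine ContinuousLinearMap.coe_injective (LinearMap.pi_ext' fun j => LinearMap.ext_ring ?_)
  have h1 : DifferentiableAt ℂ (fun w => F (b, w)) 0 :=
    DifferentiableAt.comp (g := F) 0 ((hF b hb).2.2 0).1 (by fun_prop)
  have h2 : HasDerivAt (fun t : ℂ => (Pi.single j t : Cn N)) (Pi.single j 1) 0 :=
    (ContinuousLinearMap.single ℂ (fun _ : Fin N => ℂ) j).hasFDerivAt.hasDerivAt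
  have h3 := (h1.hasFDerivAt.comp_hasDerivAt_of_eq (0 : ℂ) h2 (by simp)).deriv
  exact h3.symm.trans ((hF b hb).2.1 j)

end Pool.Agent.Lib.MP_124863_gt.Ok
end
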