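import Pool.Agent.Lib.MP_124863_gt.OkBK

-- part Pool.Agent.Lib.MP_124863_gt.OkPsh
section

/-! Continuous plurisubharmonic functions. -/

open Filter Topology Set Metric Complex MeasureTheory
open scoped Real ENNReal Convolution

namespace Pool.Agent.Lib.MP_124863_gt.Ok

open Ec

theorem okp_int {ψ : ℂ → ℝ} {c : ℂ} {R : ℝ} (hR : 0 ≤ R) (h : ContinuousOn ψ (sphere c R)) :
    CircleIntegrable ψ c R := h.circleIntegrable hR

theorem okp_avg_re {p : ℂ → ℂ} (hp : Differentiable ℂ p) (c : ℂ) (R : ℝ) :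
    Real.circleAverage (fun z => (p z).re) c R = (p c).re := by
  have h1 : CircleIntegrable p c R := hp.continuous.continuousOn.circleIntegrable'
  have h2 := reCLM.circleAverage_comp_comm h1
  rw [hp.diffContOnCl.circleAverage] at h2
  exact h2

theorem okp_span {f : C(AddCircle (2 * π), ℂ)}
    (hf : f ∈ Submodule.span ℂ (range (@fourier (2 * π)))) :
    ∃ p q : ℂ → ℂ, Differentiable ℂ p ∧ Differentiable ℂ q ∧ ∀ t : ℝ,
      f (t : AddCircle (2 * π)) = p (exp (t * I)) + (starRingEnd ℂ) (q (exp (t * I))) := by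
  induction hf using Submodule.span_induction with
  | mem f hf =>
    obtain ⟨n, rfl⟩ := hf
    have key : ∀ (k : ℕ) (t : ℝ), fourier (k : ℤ) (t : AddCircle (2 * π)) = exp (t * I) ^ k := by
      intro k t
      rw [fourier_coe_apply, ← Complex.exp_nat_mul]
      congr 1
      have : (π : ℂ) ≠ 0 := ofReal_ne_zero.2 Real.pi_ne_zero
      push_cast
      field_simp
    obtain ⟨k, rfl | rfl⟩ := n.eq_nat_or_neg
    · exact ⟨fun z => z ^ k, fun _ => 0, by fun_prop, by fun_prop, fun t => by simp [key]⟩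
    · exact ⟨fun _ => 0, fun z => z ^ k, by fun_prop, by fun_prop, fun t => by
        rw [fourier_neg, key, zero_add]⟩
  | zero => exact ⟨fun _ => 0, fun _ => 0, by fun_prop, by fun_prop, fun t => by simp⟩
  | add f g _ _ hf hg =>
    obtain ⟨p, q, hp, hq, h⟩ := hf
    obtain ⟨p', q', hp', hq', h'⟩ := hg
    refine ⟨fun z => p z + p' z, fun z => q z + q' z, hp.add hp', hq.add hq', fun t => ?_⟩
    rw [ContinuousMap.add_apply, h, h', map_add]
    ring
  | smul a f _ hf =>
    obtain ⟨p, q, hp, hq, h⟩ := hf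
    refine ⟨fun z => a * p z, fun z => (starRingEnd ℂ) a * q z, hp.const_mul _, hq.const_mul _,
      fun t => ?_⟩
    rw [ContinuousMap.smul_apply, h, map_mul, conj_conj, smul_eq_mul]
    ring

theorem okp_approx {ψ : ℂ → ℝ} (hψ : ContinuousOn ψ (sphere 0 1)) {ε : ℝ} (hε : 0 < ε) :
    ∃ p : ℂ → ℂ, Differentiable ℂ p ∧ ∀ ζ ∈ sphere (0 : ℂ) 1, |ψ ζ - (p ζ).re| < ε := by
  have : Fact (0 < 2 * π) := ⟨Real.two_pi_pos⟩
  have hc : Continuous fun x : AddCircle (2 * π) => (ψ (fourier 1 x) : ℂ) :=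
    continuous_ofReal.comp (hψ.comp_continuous (fourier 1).continuous fun x => by simp)
  have h1 : (⟨_, hc⟩ : C(AddCircle (2 * π), ℂ)) ∈
      closure (Submodule.span ℂ (range (@fourier (2 * π))) : Set C(AddCircle (2 * π), ℂ)) := by
    rw [← Submodule.topologicalClosure_coe, span_fourier_closure_eq_top]
    trivial
  obtain ⟨f, hf, hd⟩ := Metric.mem_closure_iff.1 h1 ε hε
  obtain ⟨p, q, hp, hq, h⟩ := okp_span hf
  refine ⟨fun z => p z + q z, hp.add hq, fun ζ hζ => ?_⟩
  have h2 : exp (arg ζ * I) = ζ := by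
    have := norm_mul_exp_arg_mul_I ζ
    rwa [mem_sphere_zero_iff_norm.1 hζ, ofReal_one, one_mul] at this
  have h3 := (ContinuousMap.dist_apply_le_dist (arg ζ : AddCircle (2 * π))).trans_lt hd
  have h4 : fourier 1 (arg ζ : AddCircle (2 * π)) = ζ := by
    rw [fourier_coe_apply]
    refine Eq.trans ?_ h2
    congr 1
    have : (π : ℂ) ≠ 0 := ofReal_ne_zero.2 Real.pi_ne_zero
    push_cast
    field_simp
  rw [h, h2, ContinuousMap.coe_mk, h4, dist_eq_norm] at h3
  refine lt_of_le_of_lt ?_ h3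
  simpa using abs_re_le_norm ((ψ ζ : ℂ) - (p ζ + (starRingEnd ℂ) (q ζ)))

/-- Domination by harmonic polynomials gives the sub-mean value inequality. -/
theorem sm_of_dm {ψ : ℂ → ℝ} (hψ : ContinuousOn ψ (sphere 0 1)) {a : ℝ}
    (h : ∀ p : ℂ → ℂ, Differentiable ℂ p → (∀ ζ ∈ sphere (0 : ℂ) 1, ψ ζ ≤ (p ζ).re) → a ≤ (p 0).re) :
    a ≤ Real.circleAverage ψ 0 1 := by
  refine le_of_forall_pos_le_add fun ε hε => ?_
  obtain ⟨p, hp, hp'⟩ := okp_approx hψ (half_pos hε)
  have hq : Differentiable ℂ fun z => p z + (ε / 2 : ℝ) := hp.add_const _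
  have h1 := h _ hq fun ζ hζ => by
    have := (abs_lt.1 (hp' ζ hζ)).2
    simp only [add_re, ofReal_re]
    linarith
  have hi := okp_int zero_le_one hψ
  rw [← okp_avg_re hq 0 1] at h1
  refine h1.trans ((Real.circleAverage_mono (okp_int zero_le_one
    (continuous_re.comp hq.continuous).continuousOn) (hi.add (circleIntegrable_const ε _ _))
    fun ζ hζ => ?_).trans_eq ?_)
  · rw [abs_one] at hζ
    have := (abs_lt.1 (hp' ζ hζ)).1
    simp only [Function.comp_apply, add_re, ofReal_re, Pi.add_apply]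
    linarith
  · rw [Real.circleAverage_add hi (circleIntegrable_const _ _ _), Real.circleAverage_const]

/-- The maximum principle. -/
theorem max_sm {ψ : ℂ → ℝ} {c : ℂ} {R m : ℝ} (hψ : ContinuousOn ψ (closedBall c R))
    (h : ∀ z ∈ ball c R, ∀ᶠ r in 𝓝[>] 0, ψ z ≤ Real.circleAverage ψ z r)
    (hm : ∀ z ∈ sphere c R, ψ z ≤ m) : ∀ z ∈ closedBall c R, ψ z ≤ m := by
  intro z hz
  have key : ∀ ε : ℝ, 0 < ε → ψ z ≤ m + ε * R ^ 2 := by
    intro ε hε
    obtain ⟨z0, hz0, hmax⟩ := (isCompact_closedBall c R).exists_isMaxOn ⟨z, hz⟩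
      (f := fun w => ψ w + ε * ‖w - c‖ ^ 2) (hψ.add (by fun_prop))
    have h1 : ψ z + ε * ‖z - c‖ ^ 2 ≤ ψ z0 + ε * ‖z0 - c‖ ^ 2 := hmax hz
    have h2 : 0 ≤ ε * ‖z - c‖ ^ 2 := by positivity
    rcases (mem_closedBall.1 hz0).eq_or_lt with h3 | h3
    · have := hm z0 h3
      rw [dist_eq_norm] at h3
      rw [h3] at h1
      linarith
    · exfalso
      obtain ⟨r, ⟨hr1, hr2⟩, hr3⟩ := (((h z0 h3).and (mem_nhdsWithin_of_mem_nhds
        (Iio_mem_nhds (sub_pos.2 h3)))).and self_mem_nhdsWithin).exists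
      have hr3 : 0 < r := hr3
      have hr2 : r < R - dist z0 c := hr2
      have hsub : sphere z0 r ⊆ closedBall c R := fun w hw => by
        have := dist_triangle w z0 c
        rw [mem_sphere.1 hw] at this
        exact mem_closedBall.2 (by linarith)
      have hp : Differentiable ℂ fun w : ℂ => ((ψ z0 - ε * r ^ 2 : ℝ) : ℂ) -
          (2 * ε : ℝ) * ((starRingEnd ℂ) (z0 - c) * (w - z0)) := by fun_prop
      have h4 := Real.circleAverage_mono (c := z0) (R := r) (okp_int hr3.le (hψ.mono hsub))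
        (okp_int hr3.le (continuous_re.comp hp.continuous).continuousOn) fun w hw => by
          rw [abs_of_pos hr3] at hw
          have h5 : ψ w + ε * ‖w - c‖ ^ 2 ≤ ψ z0 + ε * ‖z0 - c‖ ^ 2 := hmax (hsub hw)
          have h6 : ‖w - z0‖ = r := by rw [← dist_eq_norm]; exact hw
          have h7 : ‖w - c‖ ^ 2 = ‖z0 - c‖ ^ 2 + ‖w - z0‖ ^ 2 +
              2 * ((starRingEnd ℂ) (z0 - c) * (w - z0)).re := by
            simp only [Complex.sq_norm, normSq_apply, mul_re, sub_re, sub_im, conj_re, conj_im]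
            ring
          rw [h7, h6] at h5
          simp only [Function.comp_apply, sub_re, ofReal_re, re_ofReal_mul]
          linarith
      have h8 := okp_avg_re hp z0 r
      simp only [Function.comp_def] at h4
      rw [h8] at h4
      simp only [sub_self, mul_zero, sub_zero, ofReal_re] at h4
      have : 0 < ε * r ^ 2 := by positivity
      linarith
  refine le_of_forall_pos_le_add fun δ hδ => (key (δ / (R ^ 2 + 1)) (by positivity)).trans ?_
  have : δ / (R ^ 2 + 1) * R ^ 2 ≤ δ := by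
    rw [div_mul_eq_mul_div, div_le_iff₀ (by positivity)]
    nlinarith
  linarith

theorem okp_loc {ψ : ℂ → ℝ} {S : Set ℂ} {z : ℂ} (h : SM ψ S) (hS : S ∈ 𝓝 z) :
    ∀ᶠ r in 𝓝[>] 0, ψ z ≤ Real.circleAverage ψ z r := by
  obtain ⟨δ, hδ, hs⟩ := nhds_basis_closedBall.mem_iff.1 hS
  filter_upwards [Ioo_mem_nhdsGT hδ] with r hr
  have := h z r fun ζ hζ => hs (by
    rw [mem_closedBall_iff_norm, add_sub_cancel_left, norm_smul, norm_real, Real.norm_of_nonneg hr.1.le]
    exact (mul_le_of_le_one_left hr.1.le (mem_closedBall_zero_iff.1 hζ)).trans hr.2.le)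
  rw [Real.circleAverage_eq_circleAverage_zero_one]
  simpa only [smul_eq_mul, add_comm, mul_comm] using this

theorem okp_dom {ψ : ℂ → ℝ} {c : ℂ} {R : ℝ} (hψ : ContinuousOn ψ (closedBall c R))
    (h : ∀ z ∈ ball c R, ∀ᶠ r in 𝓝[>] 0, ψ z ≤ Real.circleAverage ψ z r) {p : ℂ → ℂ}
    (hp : Differentiable ℂ p) (hm : ∀ z ∈ sphere c R, ψ z ≤ (p z).re) :
    ∀ z ∈ closedBall c R, ψ z ≤ (p z).re := by
  have hc : Continuous fun z => (p z).re := continuous_re.comp hp.continuous
  intro z hz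
  refine sub_nonpos.1 (max_sm (ψ := fun z => ψ z - (p z).re) (hψ.sub hc.continuousOn)
    (fun z hz => ?_) (fun z hz => sub_nonpos.2 (hm z hz)) z hz)
  filter_upwards [h z hz, Ioo_mem_nhdsGT (sub_pos.2 (mem_ball.1 hz))] with r h1 hr
  rw [Real.circleAverage_fun_sub (okp_int hr.1.le (hψ.mono fun w hw => ?_))
    (okp_int hr.1.le hc.continuousOn), okp_avg_re hp]
  · linarith
  · have := dist_triangle w z c
    rw [mem_sphere.1 hw] at this
    exact mem_closedBall.2 (by linarith [hr.2])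

variable {E : Type} [NormedAddCommGroup E] [NormedSpace ℝ E] [NormedSpace ℂ E] [IsScalarTower ℝ ℂ E]
  {u : E → ℝ} {B L : Set E}

omit [NormedSpace ℝ E] [IsScalarTower ℝ ℂ E] in
theorem SM.mono (h : SM u B) (hL : L ⊆ B) : SM u L := fun b v hb => h b v fun ζ hζ => hL (hb ζ hζ)

omit [NormedSpace ℝ E] [IsScalarTower ℝ ℂ E] in
theorem HSM.mono (h : HSM u B) (hL : L ⊆ B) : HSM u L :=
  fun Z hZ hb => h Z hZ fun ζ hζ => hL (hb ζ hζ)

omit [NormedSpace ℝ E] [IsScalarTower ℝ ℂ E] in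
theorem okp_cont (hu : ContinuousOn u B) {b v : E} (hb : ∀ ζ ∈ closedBall (0 : ℂ) 1, b + ζ • v ∈ B) :
    ContinuousOn (fun ζ : ℂ => u (b + ζ • v)) (closedBall 0 1) :=
  hu.comp (by fun_prop) hb

omit [NormedSpace ℝ E] [IsScalarTower ℝ ℂ E] in
theorem okp_line (h : SM u B) (b v : E) :
    SM (fun ζ : ℂ => u (b + ζ • v)) {ζ | b + ζ • v ∈ B} := by
  intro a w ha
  have e : ∀ ζ : ℂ, b + a • v + ζ • w • v = b + (a + ζ • w) • v := fun ζ => by
    rw [add_smul, smul_assoc, add_assoc]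
  simpa only [e] using h (b + a • v) (w • v) fun ζ hζ => by rw [e]; exact ha ζ hζ

omit [NormedSpace ℝ E] [IsScalarTower ℝ ℂ E] in
theorem okp_dom' (hu : ContinuousOn u B) (h : ∀ b ∈ B, ∃ V ∈ 𝓝 b, SM u (V ∩ B)) {b v : E}
    (hb : ∀ ζ ∈ closedBall (0 : ℂ) 1, b + ζ • v ∈ B) {p : ℂ → ℂ} (hp : Differentiable ℂ p)
    (hm : ∀ ζ ∈ sphere (0 : ℂ) 1, u (b + ζ • v) ≤ (p ζ).re) :
    ∀ ζ ∈ closedBall (0 : ℂ) 1, u (b + ζ • v) ≤ (p ζ).re := by
  refine okp_dom (okp_cont hu hb) (fun z hz => ?_) hp hm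
  obtain ⟨V, hV, hs⟩ := h _ (hb z (ball_subset_closedBall hz))
  refine okp_loc (okp_line hs b v) ?_
  have hc : Continuous fun ζ : ℂ => b + ζ • v := by fun_prop
  filter_upwards [hc.continuousAt.preimage_mem_nhds hV, isOpen_ball.mem_nhds hz] with ζ h1 h2
  exact ⟨h1, hb ζ (ball_subset_closedBall h2)⟩

omit [NormedSpace ℝ E] [IsScalarTower ℝ ℂ E] in
theorem SM.add_const (h : SM u B) (hu : ContinuousOn u B) (a : ℝ) : SM (fun b => u b + a) B := by
  intro b v hb
  rw [Real.circleAverage_fun_add (okp_int zero_le_one ((okp_cont hu hb).mono sphere_subset_closedBall))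
    (circleIntegrable_const _ _ _), Real.circleAverage_const]
  exact add_le_add_left (h b v hb) a

omit [NormedSpace ℝ E] [IsScalarTower ℝ ℂ E] in
theorem HSM.fibre {Φ : E × ℂ → ℝ} {Ω : Set (E × ℂ)} (h : HSM Φ Ω) (b : E) :
    SM (fun w : ℂ => Φ (b, w)) {w | (b, w) ∈ Ω} := fun w v hw => by
  simpa using h (fun ζ => (b, w + ζ • v)) (by fun_prop) hw

omit [NormedSpace ℝ E] [IsScalarTower ℝ ℂ E] in
theorem hsm_norm {N : ℕ} {Y : E → Cn N} (h : ∀ z ∈ B, DifferentiableAt ℂ Y z) :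
    HSM (fun z => ‖Y z‖) B := by
  intro Z hZ hB
  have h1 : DiffContOnCl ℂ (fun ζ => Y (Z ζ)) (ball 0 |(1 : ℝ)|) := by
    refine DifferentiableOn.diffContOnCl fun ζ hζ => ?_
    rw [abs_one, closure_ball _ one_ne_zero] at hζ
    exact ((h _ (hB ζ hζ)).comp ζ (hZ ζ)).differentiableWithinAt
  beta_reduce
  rw [← h1.circleAverage, Real.circleAverage_def, Real.circleAverage_def, norm_smul,
    Real.norm_of_nonneg (by positivity), smul_eq_mul]
  exact mul_le_mul_of_nonneg_left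
    (intervalIntegral.norm_integral_le_integral_norm Real.two_pi_pos.le) (by positivity)

theorem sm_convex (h : ConvexOn ℝ B u) (hu : ContinuousOn u B) : SM u B := by
  intro b v hb
  have hb' : ∀ ζ ∈ closedBall (0 : ℂ) 1, b + ζ • -v ∈ B := fun ζ hζ => by
    rw [smul_neg, ← neg_smul]
    exact hb _ (by simpa using hζ)
  have h1 := okp_int zero_le_one ((okp_cont hu hb).mono sphere_subset_closedBall)
  have h2 := okp_int zero_le_one ((okp_cont hu hb').mono sphere_subset_closedBall)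
  have h3 : Real.circleAverage (fun ζ : ℂ => u (b + ζ • -v)) 0 1 =
      Real.circleAverage (fun ζ : ℂ => u (b + ζ • v)) 0 1 := by
    rw [← Real.circleAverage_neg_radius, Real.circleAverage_eq_circleAverage_zero_one]
    simp
  have h4 := Real.circleAverage_mono (circleIntegrable_const (2 * u b) 0 1) (h1.add h2) fun ζ hζ => by
    rw [abs_one] at hζ
    have h5 := h.2 (hb ζ (sphere_subset_closedBall hζ)) (hb' ζ (sphere_subset_closedBall hζ))
      one_half_pos.le one_half_pos.le (add_halves 1)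
    rw [smul_neg, ← smul_add, show b + ζ • v + (b + -(ζ • v)) = (2 : ℝ) • b by rw [two_smul]; abel,
      smul_smul, show (1 / 2 * 2 : ℝ) = 1 by norm_num, one_smul] at h5
    simp only [Pi.add_apply, smul_neg, smul_eq_mul] at h5 ⊢
    linarith
  rw [Real.circleAverage_const, Real.circleAverage_add h1 h2, h3] at h4
  linarith

omit [NormedSpace ℝ E] [IsScalarTower ℝ ℂ E] in
theorem sm_of_local (hu : ContinuousOn u B) (h : ∀ b ∈ B, ∃ V ∈ 𝓝 b, SM u (V ∩ B)) : SM u B :=
  fun b v hb => sm_of_dm ((okp_cont hu hb).mono sphere_subset_closedBall) fun p hp hm => by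
    simpa using okp_dom' hu h hb hp hm 0 (mem_closedBall_self zero_le_one)

omit [NormedSpace ℝ E] [NormedSpace ℂ E] [IsScalarTower ℝ ℂ E] in
theorem okp_min {F : E × ℂ → ℝ} {D : Set ℂ} (hD : IsCompact D) (hD' : D.Nonempty)
    (hF : ContinuousOn F (L ×ˢ D)) : ∃ m : E → ℝ, ContinuousOn m L ∧
      ∀ b ∈ L, (∀ l ∈ D, m b ≤ F (b, l)) ∧ ∃ l ∈ D, m b = F (b, l) := by
  have : CompactSpace D := isCompact_iff_compactSpace.1 hD
  have := hD'.to_subtype
  have hc : Continuous fun z : L × D => F (z.1, z.2) :=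
    hF.comp_continuous (by fun_prop) fun z => ⟨z.1.2, z.2.2⟩
  refine ⟨fun b => sInf ((fun l : D => F (b, l)) '' univ), ?_, fun b hb => ?_⟩
  · rw [continuousOn_iff_continuous_domRestrict]
    exact isCompact_univ.continuous_sInf (f := fun (b : L) (l : D) => F (b, l)) hc
  · obtain ⟨l, -, h1, h2⟩ := isCompact_univ.exists_sInf_image_eq_and_le univ_nonempty
      (f := fun l : D => F (b, l)) (hc.comp (Continuous.prodMk_right (⟨b, hb⟩ : L))).continuousOn
    exact ⟨fun l' hl' => h1.trans_le (h2 ⟨l', hl'⟩ trivial), l, l.2, h1⟩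

omit [NormedSpace ℝ E] [NormedSpace ℂ E] [IsScalarTower ℝ ℂ E] in
theorem okp_cut (hL : IsCompact L) (hu : ContinuousOn u L) {Φ : E × ℂ → ℝ}
    (hΦ : ContinuousOn Φ (Hc L u)) {c η : ℝ} (hη : 0 < η) (h0 : ∀ b ∈ L, Φ (b, 0) < c) :
    ∃ (A : ℝ) (u' : E → ℝ), 0 < A ∧ ContinuousOn u' L ∧ ∀ b ∈ L, u b ≤ u' b ∧ u' b - u b ≤ A * η ∧
      (∀ w, ‖w‖ < Real.exp (-u' b) → A * (Φ (b, w) - c) ≤ u' b - u b) ∧
      ∃ w, ‖w‖ ≤ Real.exp (-u' b) ∧ u' b - u b ≤ A * max (Φ (b, w) - c) 0 := by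
  have hK : IsCompact (L ×ˢ closedBall (0 : ℂ) 1) := hL.prod (isCompact_closedBall _ _)
  have hn : ∀ (l : ℂ) (t : ℝ), ‖l * (Real.exp t : ℝ)‖ = ‖l‖ * Real.exp t := fun l t => by
    rw [norm_mul, norm_real, Real.norm_of_nonneg (Real.exp_pos _).le]
  obtain ⟨g, hg⟩ : ∃ g : E × ℂ → ℝ, g = fun z => Φ (z.1, z.2 * (Real.exp (-u z.1) : ℝ)) := ⟨_, rfl⟩
  have hgc : ContinuousOn g (L ×ˢ closedBall 0 1) := by
    rw [hg]
    have h1 : ContinuousOn (fun z : E × ℂ => u z.1) (L ×ˢ closedBall 0 1) :=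
      hu.comp continuousOn_fst fun z hz => hz.1
    refine hΦ.comp (continuousOn_fst.prodMk (continuousOn_snd.mul
      (continuous_ofReal.comp_continuousOn h1.neg.rexp))) fun z hz => ⟨hz.1, ?_⟩
    exact (hn _ _).trans_le (mul_le_of_le_one_left (Real.exp_pos _).le (mem_closedBall_zero_iff.1 hz.2))
  obtain ⟨l1, hl1, hl⟩ := (hK.of_isClosed_subset (hgc.preimage_isClosed_of_isClosed hK.isClosed
    (isClosed_Ici (a := c))) inter_subset_left).exists_forall_le' (f := fun z => ‖z.2‖) (a := 0)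
    (by fun_prop) fun z hz => norm_pos_iff.2 fun h => by
      have h1 : c ≤ g z := hz.2
      have h2 := h0 _ hz.1.1
      simp only [hg, h, zero_mul] at h1
      linarith
  have hl0 : 0 < min l1 1 := lt_min hl1 one_pos
  have hlog : Real.log (min l1 1) ≤ 0 := Real.log_nonpos hl0.le (min_le_right _ _)
  obtain ⟨A, hA⟩ : ∃ A, A = (1 - Real.log (min l1 1)) / η := ⟨_, rfl⟩
  have hA0 : 0 < A := hA ▸ div_pos (by linarith) hη
  have hA1 : A * η = 1 - Real.log (min l1 1) := by rw [hA, div_mul_cancel₀ _ hη.ne']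
  obtain ⟨m, hm, hm'⟩ := okp_min (L := L) (isCompact_closedBall (0 : ℂ) 1)
    ⟨0, mem_closedBall_self zero_le_one⟩
    (F := fun z => max ‖z.2‖ (Real.exp (-(A * max (g z - c) 0))))
    (continuous_snd.norm.continuousOn.sup ((continuousOn_const.mul
      ((hgc.sub continuousOn_const).sup continuousOn_const)).neg.rexp))
  have h1 : ∀ b ∈ L, min l1 1 ≤ m b := fun b hb => by
    obtain ⟨l, hl1, hl2⟩ := (hm' b hb).2
    rw [hl2]
    rcases le_total c (g (b, l)) with h | h
    · exact (min_le_left _ _).trans ((hl (b, l) ⟨⟨hb, hl1⟩, h⟩).trans (le_max_left _ _))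
    · rw [max_eq_right (sub_nonpos.2 h), mul_zero, neg_zero, Real.exp_zero]
      exact (min_le_right _ _).trans (le_max_right _ _)
  refine ⟨A, fun b => u b - Real.log (m b), hA0,
    hu.sub (hm.log fun b hb => (hl0.trans_le (h1 b hb)).ne'), fun b hb => ?_⟩
  have hp := hl0.trans_le (h1 b hb)
  have h2 : m b ≤ 1 := ((hm' b hb).1 0 (mem_closedBall_self zero_le_one)).trans (max_le (by simp)
    (Real.exp_le_one_iff.2 (neg_nonpos.2 (mul_nonneg hA0.le (le_max_right _ _)))))
  have h3 := Real.log_nonpos hp.le h2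
  have h4 := Real.log_le_log hl0 (h1 b hb)
  have h5 : Real.exp (-(u b - Real.log (m b))) = m b * Real.exp (-u b) := by
    rw [neg_sub, sub_eq_add_neg, Real.exp_add, Real.exp_log hp]
  refine ⟨by linarith, by linarith, fun w hw => ?_, ?_⟩
  · have h6 : ‖w * (Real.exp (u b) : ℝ)‖ < m b := by
      rw [hn, ← lt_div_iff₀ (Real.exp_pos _), div_eq_mul_inv, ← Real.exp_neg, ← h5]
      exact hw
    have h7 := (hm' b hb).1 _ (mem_closedBall_zero_iff.2 (h6.le.trans h2))
    have h8 := (Real.log_le_iff_le_exp hp).2 ((le_max_iff.1 h7).resolve_left h6.not_ge)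
    have h9 : g (b, w * (Real.exp (u b) : ℝ)) = Φ (b, w) := by
      simp only [hg]
      rw [mul_assoc, ← ofReal_mul, ← Real.exp_add, add_neg_cancel, Real.exp_zero, ofReal_one, mul_one]
    rw [h9] at h8
    have := mul_le_mul_of_nonneg_left (le_max_left (Φ (b, w) - c) 0) hA0.le
    linarith
  · obtain ⟨l, -, hl2⟩ := (hm' b hb).2
    refine ⟨l * (Real.exp (-u b) : ℝ), ?_, ?_⟩
    · rw [hn, h5]
      exact mul_le_mul_of_nonneg_right (hl2.ge.trans' (le_max_left _ _)) (Real.exp_pos _).le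
    · have h6 := (Real.le_log_iff_exp_le hp).2 (hl2.ge.trans' (le_max_right _ _))
      simp only [hg] at h6
      linarith

omit [NormedSpace ℝ E] [IsScalarTower ℝ ℂ E] in
/-- Cutting a Hartogs domain along a level set of a plurisubharmonic function. -/
theorem cut (hL : IsCompact L) (hu : ContinuousOn u L) (hs : SM u L) {Φ : E × ℂ → ℝ}
    (hΦ : ContinuousOn Φ (Hc L u)) (hΦ' : HSM Φ (Hc L u)) {c η : ℝ} (hη : 0 < η)
    (h0 : ∀ b ∈ L, Φ (b, 0) < c) : ∃ u', ContinuousOn u' L ∧ SM u' L ∧ (∀ b ∈ L, u b ≤ u' b) ∧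
      (∀ z ∈ Ht L u', Φ z ≤ c + η) ∧ ∀ b ∈ L, u b < u' b → ∀ r, Real.exp (-u' b) ≤ r →
        r ≤ Real.exp (-u b) → ∃ w, ‖w‖ = r ∧ c < Φ (b, w) := by
  obtain ⟨A, u', hA, hu', H⟩ := okp_cut hL hu hΦ hη h0
  refine ⟨u', hu', fun b v hb => ?_, fun b hb => (H b hb).1, fun z hz => ?_,
    fun b hb hlt r h1 h2 => ?_⟩
  · refine sm_of_dm ((okp_cont hu' hb).mono sphere_subset_closedBall) fun p hp hm => ?_
    have hb0 : b ∈ L := by simpa using hb 0 (mem_closedBall_self zero_le_one)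
    have h1 := okp_dom' hu (fun b _ => ⟨univ, univ_mem, by rwa [univ_inter]⟩) hb hp fun ζ hζ =>
      (H _ (hb ζ (sphere_subset_closedBall hζ))).1.trans (hm ζ hζ)
    obtain ⟨w, hw, hw'⟩ := (H b hb0).2.2.2
    by_contra! hlt
    have h2 : ∀ ζ, ‖w * exp (p 0 - p ζ)‖ < Real.exp (-(p ζ).re) := fun ζ => by
      rw [norm_mul, norm_exp, sub_re, ← lt_div_iff₀ (Real.exp_pos _), ← Real.exp_sub]
      exact hw.trans_lt (Real.exp_lt_exp.2 (by linarith))
    have hZ : Differentiable ℂ fun ζ : ℂ => (b + ζ • v, w * exp (p 0 - p ζ)) := by fun_prop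
    have h3 : ∀ ζ ∈ closedBall (0 : ℂ) 1, (b + ζ • v, w * exp (p 0 - p ζ)) ∈ Hc L u := fun ζ hζ =>
      ⟨hb ζ hζ, (h2 ζ).le.trans (Real.exp_le_exp.2 (neg_le_neg (h1 ζ hζ)))⟩
    have h4 := hΦ' _ hZ h3
    have h5 := hs b v hb
    have i1 : CircleIntegrable (fun ζ => A • Φ (b + ζ • v, w * exp (p 0 - p ζ))) 0 1 :=
      okp_int zero_le_one (continuousOn_const (c := A).smul
        ((hΦ.comp hZ.continuous.continuousOn h3).mono sphere_subset_closedBall))
    have i2 := okp_int zero_le_one ((okp_cont hu hb).mono sphere_subset_closedBall)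
    have hq : Differentiable ℂ fun z => p z + (A * c : ℝ) := hp.add_const _
    have h6 := Real.circleAverage_mono (i1.add i2) (okp_int zero_le_one
      (continuous_re.comp hq.continuous).continuousOn) fun ζ hζ => by
        rw [abs_one] at hζ
        have h7 := hm ζ hζ
        have h8 := (H _ (hb ζ (sphere_subset_closedBall hζ))).2.2.1 _
          ((h2 ζ).trans_le (Real.exp_le_exp.2 (neg_le_neg h7)))
        simp only [Pi.add_apply, Function.comp_apply, add_re, ofReal_re, smul_eq_mul]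
        linarith
    rw [Real.circleAverage_add i1 i2] at h6
    simp only [Function.comp_def] at h6
    rw [okp_avg_re hq, Real.circleAverage_fun_smul, add_re, ofReal_re, smul_eq_mul] at h6
    have h7 := h1 0 (mem_closedBall_self zero_le_one)
    simp only [zero_smul, add_zero, sub_self, exp_zero, mul_one] at h4 h7
    have h8 := mul_le_mul_of_nonneg_left h4 hA.le
    rcases le_total (Φ (b, w) - c) 0 with h | h
    · rw [max_eq_right h] at hw'
      linarith
    · rw [max_eq_left h] at hw'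
      linarith
  · obtain ⟨-, h1, h2, -⟩ := H z.1 hz.1
    have := le_of_mul_le_mul_left ((h2 z.2 hz.2).trans h1) hA
    linarith
  · obtain ⟨w, hw, hw'⟩ := (H b hb).2.2.2
    by_contra! hc
    have hsub : closedBall 0 r ⊆ {w | (b, w) ∈ Hc L u} := fun w hw =>
      ⟨hb, (mem_closedBall_zero_iff.1 hw).trans h2⟩
    have := max_sm (ψ := fun w => Φ (b, w)) (hΦ.comp (by fun_prop) hsub) (fun z hz =>
      okp_loc (hΦ'.fibre b) (mem_of_superset (isOpen_ball.mem_nhds hz)
        (ball_subset_closedBall.trans hsub))) (fun z hz => hc z (mem_sphere_zero_iff_norm.1 hz)) w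
      (mem_closedBall_zero_iff.2 (hw.trans h1))
    rw [max_eq_right (sub_nonpos.2 this)] at hw'
    linarith

theorem okq_mem {R ρ r : ℝ} (hρ : ρ < R) (hr : r ∈ Icc 0 ρ) : r ∈ Ioo (-R) R :=
  ⟨by linarith [hr.1, hr.2], hr.2.trans_lt hρ⟩

theorem le_mean {u : ℂ → ℝ} {R ρ : ℝ} (hu : ∀ z ∈ ball (0 : ℂ) R, ContDiffAt ℝ 2 u z)
    (hl : ∀ z ∈ ball (0 : ℂ) R, 0 ≤ lp u z) (hρ : ρ ∈ Ico 0 R) : 2 * π * u 0 ≤ mean u ρ := by
  obtain ⟨V1, V2, hV⟩ := mean_derivs hu
  have d1 : ∀ r ∈ Icc 0 ρ, HasDerivAt (fun r => r * V1 r) (V1 r + r * V2 r) r := fun r hr =>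
    ((hasDerivAt_id r).mul (hV r (okq_mem hρ.2 hr)).2.1).congr_deriv (by simp)
  have m1 := monotoneOn_of_deriv_nonneg (convex_Icc 0 ρ)
    (fun r hr => (d1 r hr).continuousAt.continuousWithinAt)
    (fun r hr => (d1 r (interior_subset hr)).differentiableAt.differentiableWithinAt) fun r hr => by
      rw [interior_Icc] at hr
      have h1 := okq_mem hρ.2 (Ioo_subset_Icc_self hr)
      rw [(d1 r (Ioo_subset_Icc_self hr)).deriv, (hV r h1).2.2 hr.1.ne']
      exact mul_nonneg hr.1.le (mean_nonneg fun θ => hl _ (cm_mem h1 θ))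
  have m2 := monotoneOn_of_deriv_nonneg (f := mean u) (convex_Icc 0 ρ)
    (fun r hr => (hV r (okq_mem hρ.2 hr)).1.continuousAt.continuousWithinAt)
    (fun r hr => (hV r (okq_mem hρ.2 (interior_subset hr))).1.differentiableAt.differentiableWithinAt)
    fun r hr => by
      rw [interior_Icc] at hr
      have h1 := m1 (left_mem_Icc.2 hρ.1) (Ioo_subset_Icc_self hr) hr.1.le
      rw [(hV r (okq_mem hρ.2 (Ioo_subset_Icc_self hr))).1.deriv]
      exact nonneg_of_mul_nonneg_right (by simpa using h1) hr.1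
  simpa [mean, cm] using m2 (left_mem_Icc.2 hρ.1) (right_mem_Icc.2 hρ.1) hρ.1

/-- The converse of `le_mean` at a point. -/
theorem okq_lp {u : ℂ → ℝ} (hu : ContDiff ℝ 2 u) (h : ∀ r, 2 * π * u 0 ≤ mean u r) :
    0 ≤ lp u 0 := by
  by_contra! h0
  have c2 : Continuous (lp u) := by
    have := (hu.fderiv_right (m := 1) (by norm_num)).continuous_fderiv one_ne_zero
    exact ((this.clm_apply continuous_const).clm_apply continuous_const).add
      ((this.clm_apply continuous_const).clm_apply continuous_const)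
  obtain ⟨R, hR, h1⟩ := Metric.eventually_nhds_iff_ball.1
    (c2.continuousAt.eventually_lt continuousAt_const (show lp u 0 < lp u 0 / 2 by linarith))
  obtain ⟨V1, V2, hV⟩ := mean_derivs (R := R) fun z _ => hu.contDiffAt
  have hρ : R / 2 < R := by linarith
  have h2 : (0 : ℝ) ≤ R / 2 := by linarith
  have d1 : ∀ r ∈ Icc 0 (R / 2), HasDerivAt (fun r => r * V1 r) (V1 r + r * V2 r) r := fun r hr =>
    ((hasDerivAt_id r).mul (hV r (okq_mem hρ hr)).2.1).congr_deriv (by simp)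
  have m1 := strictAntiOn_of_deriv_neg (convex_Icc 0 (R / 2))
    (fun r hr => (d1 r hr).continuousAt.continuousWithinAt) fun r hr => by
      rw [interior_Icc] at hr
      have h3 := okq_mem hρ (Ioo_subset_Icc_self hr)
      have h4 := mean_mono (v := fun _ => lp u 0 / 2) c2.continuousOn continuousOn_const h3
        fun θ => (h1 _ (cm_mem h3 θ)).le
      rw [(d1 r (Ioo_subset_Icc_self hr)).deriv, (hV r h3).2.2 hr.1.ne']
      refine mul_neg_of_pos_of_neg hr.1 (h4.trans_lt ?_)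
      simp only [mean, intervalIntegral.integral_const, smul_eq_mul]
      nlinarith [Real.pi_pos]
  have m2 := strictAntiOn_of_deriv_neg (f := mean u) (convex_Icc 0 (R / 2))
    (fun r hr => (hV r (okq_mem hρ hr)).1.continuousAt.continuousWithinAt) fun r hr => by
      rw [interior_Icc] at hr
      have h3 := m1 (left_mem_Icc.2 h2) (Ioo_subset_Icc_self hr) hr.1
      rw [(hV r (okq_mem hρ (Ioo_subset_Icc_self hr))).1.deriv]
      exact neg_of_mul_neg_right (by simpa using h3) hr.1.le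
  have h5 := m2 (left_mem_Icc.2 h2) (right_mem_Icc.2 h2) (by linarith)
  have h6 : mean u 0 = 2 * π * u 0 := by simp [mean, cm]
  linarith [h (R / 2)]

omit [NormedSpace ℝ E] [IsScalarTower ℝ ℂ E] in
theorem okq_ci (hu : ContinuousOn u B) {b v : E} (h : ∀ ζ ∈ closedBall (0 : ℂ) 1, b + ζ • v ∈ B) :
    CircleIntegrable (fun ζ : ℂ => u (b + ζ • v)) 0 1 :=
  ContinuousOn.circleIntegrable zero_le_one
    (hu.comp (by fun_prop) fun ζ hζ => h ζ (sphere_subset_closedBall hζ))

omit [NormedSpace ℝ E] [IsScalarTower ℝ ℂ E] in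
theorem okq_disc {b v : E} {r : ℝ} (hv : ‖v‖ ≤ r) :
    ∀ ζ ∈ closedBall (0 : ℂ) 1, b + ζ • v ∈ closedBall b r := fun ζ hζ => by
  rw [mem_closedBall_zero_iff] at hζ
  rw [mem_closedBall, dist_self_add_left, norm_smul]
  nlinarith [norm_nonneg ζ, norm_nonneg v]

/-- Circle means are monotone. -/
theorem okq_circ {ψ : ℂ → ℝ} (hψ : ContinuousOn ψ (closedBall 0 1)) (hs : SM ψ (closedBall 0 1))
    {t : ℝ} (h0 : 0 ≤ t) (h1 : t ≤ 1) :
    Real.circleAverage ψ 0 t ≤ Real.circleAverage ψ 0 1 := by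
  refine sm_of_dm (hψ.mono sphere_subset_closedBall) fun p hp h => ?_
  have cp : Continuous fun z => (p z).re := continuous_re.comp hp.continuous
  have ip : ∀ z r, CircleIntegrable (fun z => (p z).re) z r := fun z r =>
    cp.continuousOn.circleIntegrable'
  have ap : ∀ z r, Real.circleAverage (fun z => (p z).re) z r = (p z).re := fun z r => by
    have h2 := reCLM.circleAverage_comp_comm (f := p) (c := z) (R := r)
      hp.continuous.continuousOn.circleIntegrable'
    rw [hp.diffContOnCl.circleAverage] at h2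
    exact h2
  have h2 := max_sm (ψ := fun z => ψ z - (p z).re) (m := 0) (hψ.sub cp.continuousOn)
    (fun z hz => ?_) fun z hz => sub_nonpos.2 (h z hz)
  · have h3 : sphere (0 : ℂ) |t| ⊆ closedBall 0 1 :=
      sphere_subset_closedBall.trans (closedBall_subset_closedBall (by rwa [abs_of_nonneg h0]))
    rw [← ap 0 t]
    exact Real.circleAverage_mono (hψ.mono h3).circleIntegrable' (ip 0 t)
      fun z hz => sub_nonpos.1 (h2 z (h3 hz))
  · rw [mem_ball_zero_iff] at hz
    filter_upwards [Ioo_mem_nhdsGT (sub_pos.2 hz)] with r hr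
    have h3 : closedBall z r ⊆ closedBall 0 1 :=
      closedBall_subset_closedBall' (by rw [dist_zero_right]; linarith [hr.2])
    have h4 := hs z r fun ζ hζ => h3 (okq_disc (by simp [abs_of_pos hr.1]) ζ hζ)
    rw [Real.circleAverage_fun_sub (ContinuousOn.circleIntegrable hr.1.le
      (hψ.mono (sphere_subset_closedBall.trans h3))) (ip z r), ap,
      Real.circleAverage_eq_circleAverage_zero_one]
    simp only [smul_eq_mul, add_comm z, mul_comm _ (r : ℂ)] at h4
    linarith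

variable [FiniteDimensional ℝ E]

section haar

variable [MeasurableSpace E] [BorelSpace E] (μ : Measure E) [μ.IsAddHaarMeasure]

omit [IsScalarTower ℝ ℂ E] in
theorem okq_chg (b : E) {c : ℂ} (hc : c ≠ 0) : ∃ k : ℝ, 0 < k ∧ ∀ (f : E → ℝ) (r : ℝ),
    ∫ v in closedBall 0 r, f (b + c • v) ∂μ = k * ∫ x in closedBall b (‖c‖ * r), f x ∂μ := by
  have h1 : (μ.map (DistribMulAction.toAddEquiv₀ E c hc)).IsAddHaarMeasure :=
    AddEquiv.isAddHaarMeasure_map μ _ (continuous_const_smul c) (continuous_const_smul c⁻¹)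
  have h2 := Measure.isAddLeftInvariant_eq_smul (μ.map (DistribMulAction.toAddEquiv₀ E c hc)) μ
  have h3 := Measure.addHaarScalarFactor_pos_of_isAddHaarMeasure
    (μ.map (DistribMulAction.toAddEquiv₀ E c hc)) μ
  generalize Measure.addHaarScalarFactor (μ.map (DistribMulAction.toAddEquiv₀ E c hc)) μ = k at h2 h3
  have h4 : MeasurableEmbedding fun v : E => b + c • v :=
    ((Homeomorph.smulOfNeZero c hc).trans (Homeomorph.addLeft b)).measurableEmbedding
  have h5 : μ.map (fun v : E => b + c • v) = k • μ := by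
    rw [← h2, ← map_add_left_eq_self (μ.map (DistribMulAction.toAddEquiv₀ E c hc)) b]
    exact (Measure.map_map (measurable_const_add b) (continuous_const_smul c).measurable).symm
  refine ⟨k, h3, fun f r => ?_⟩
  have h6 : (fun v : E => b + c • v) ⁻¹' closedBall b (‖c‖ * r) = closedBall 0 r := by
    ext v
    rw [mem_preimage, mem_closedBall, dist_self_add_left, norm_smul, mem_closedBall_zero_iff,
      mul_le_mul_iff_right₀ (norm_pos_iff.2 hc)]
  rw [← h6, ← h4.setIntegral_map, h5, Measure.restrict_smul, integral_smul_nnreal_measure]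
  rfl

omit [IsScalarTower ℝ ℂ E] in
theorem okq_rot (b : E) {c : ℂ} (hc : ‖c‖ = 1) (f : E → ℝ) (r : ℝ) :
    ∫ v in closedBall 0 r, f (b + c • v) ∂μ = ∫ x in closedBall b r, f x ∂μ := by
  obtain ⟨k, -, h⟩ := okq_chg μ b (c := c) (norm_pos_iff.1 (by rw [hc]; exact one_pos))
  have h1 := h (fun _ => 1) 1
  have h2 : 0 < μ.real (closedBall (0 : E) 1) :=
    ENNReal.toReal_pos (measure_closedBall_pos μ _ one_pos).ne' measure_closedBall_lt_top.ne
  simp only [hc, mul_one, setIntegral_const, smul_eq_mul, Measure.addHaar_real_closedBall_center μ b]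
    at h1
  rw [h, hc, one_mul, (mul_eq_right₀ h2.ne').1 h1.symm, one_mul]

omit [IsScalarTower ℝ ℂ E] in
theorem okq_avg (b : E) {c : ℂ} (hc : c ≠ 0) (f : E → ℝ) (r : ℝ) :
    ⨍ x in closedBall b (‖c‖ * r), f x ∂μ = ⨍ v in closedBall 0 r, f (b + c • v) ∂μ := by
  obtain ⟨k, hk, h⟩ := okq_chg μ b hc
  have h1 := h (fun _ => 1) r
  simp only [mul_one, setIntegral_const, smul_eq_mul] at h1
  rw [setAverage_eq, setAverage_eq, h, h1, smul_eq_mul, smul_eq_mul, mul_inv, mul_mul_mul_comm,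
    inv_mul_cancel₀ hk.ne', one_mul]

omit [IsScalarTower ℝ ℂ E] in
theorem okq_pos {h : E → ℝ} {r : ℝ} (hc : ContinuousOn h (closedBall 0 r))
    (h0 : ∀ v ∈ closedBall (0 : E) r, 0 ≤ Real.circleAverage (fun ζ : ℂ => h (ζ • v)) 0 1) :
    0 ≤ ∫ v in closedBall 0 r, h v ∂μ := by
  have := FiniteDimensional.proper_real E
  have n1 : ∀ θ, ‖circleMap 0 1 θ‖ = 1 := fun θ => by simp
  have h1 := intervalIntegral_integral_swap (μ := μ.restrict (closedBall 0 r)) (a := 0) (b := 2 * π)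
    (f := fun θ v => h (circleMap 0 1 θ • v)) (by
      rw [Measure.prod_restrict]
      refine IntegrableOn.mono_set (t := uIcc 0 (2 * π) ×ˢ closedBall 0 r)
        (ContinuousOn.integrableOn_compact (isCompact_uIcc.prod (isCompact_closedBall _ _)) ?_)
        (prod_mono uIoc_subset_uIcc subset_rfl)
      refine hc.comp (f := fun p : ℝ × E => circleMap 0 1 p.1 • p.2) (by fun_prop) fun p hp => ?_
      rw [mem_closedBall_zero_iff, norm_smul, n1, one_mul]
      exact mem_closedBall_zero_iff.1 hp.2)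
  have h2 : ∀ θ, ∫ v in closedBall 0 r, h (circleMap 0 1 θ • v) ∂μ =
      ∫ v in closedBall 0 r, h v ∂μ := fun θ => by simpa using okq_rot μ 0 (n1 θ) h r
  simp only [h2, intervalIntegral.integral_const, sub_zero, smul_eq_mul] at h1
  refine nonneg_of_mul_nonneg_right (h1 ▸ setIntegral_nonneg measurableSet_closedBall
    fun v hv => ?_) Real.two_pi_pos
  exact nonneg_of_mul_nonneg_right (h0 v hv) (inv_pos.2 Real.two_pi_pos)

omit [IsScalarTower ℝ ℂ E] in
/-- Convolution with a nonnegative kernel keeps the sub-mean value property. -/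
theorem okq_conv {φ : E → ℝ} (h1 : Continuous φ) (h2 : HasCompactSupport φ) (h3 : ∀ t, 0 ≤ φ t)
    (hu : Continuous u) (hs : SM u univ) (b x : E) :
    2 * π * ∫ t, φ t * u (b - t) ∂μ ≤
      ∫ θ in 0..2 * π, ∫ t, φ t * u (b + circleMap 0 1 θ • x - t) ∂μ := by
  have := FiniteDimensional.proper_real E
  have i1 : Integrable (fun t => φ t * u (b - t)) μ :=
    Continuous.integrable_of_hasCompactSupport (by fun_prop) h2.mul_right
  have i2 : Integrable (Function.uncurry fun θ t => φ t * u (b + circleMap 0 1 θ • x - t))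
      ((volume.restrict (uIoc 0 (2 * π))).prod μ) := by
    rw [Measure.restrict_prod_eq_prod_univ]
    refine IntegrableOn.of_forall_sdiff_eq_zero (s := uIcc 0 (2 * π) ×ˢ tsupport φ)
      (ContinuousOn.integrableOn_compact (isCompact_uIcc.prod h2) (Continuous.continuousOn ?_))
      (measurableSet_uIoc.prod MeasurableSet.univ) fun p hp => ?_
    · unfold Function.uncurry; fun_prop
    · rw [Function.uncurry, image_eq_zero_of_notMem_tsupport
        fun h => hp.2 ⟨uIoc_subset_uIcc hp.1.1, h⟩, zero_mul]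
  rw [intervalIntegral_integral_swap i2, ← integral_const_mul]
  refine integral_mono (i1.const_mul _) ?_ fun t => ?_
  · simpa only [intervalIntegral.integral_of_le Real.two_pi_pos.le, uIoc_of_le Real.two_pi_pos.le,
      Function.uncurry] using i2.integral_prod_right
  · have h4 := hs (b - t) x fun _ _ => trivial
    rw [Real.circleAverage_def, smul_eq_mul, le_inv_mul_iff₀ Real.two_pi_pos] at h4
    simp only [intervalIntegral.integral_const_mul, add_sub_right_comm]
    nlinarith [mul_le_mul_of_nonneg_left h4 (h3 t)]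

end haar

omit [FiniteDimensional ℝ E] in
theorem okq_dir {v : E → ℝ} (hv : ContDiff ℝ 2 v) (b x : E) (e : ℂ) :
    D2 (fun z : ℂ => v (b + z • x)) 0 e = fderiv ℝ (fderiv ℝ v) b (e • x) (e • x) := by
  have h1 : ContDiff ℝ 2 fun z : ℂ => v (b + z • x) := hv.comp (contDiff_const.add
    (((ContinuousLinearMap.id ℂ ℂ).smulRight x).restrictScalars ℝ).contDiff)
  have l : ∀ t : ℝ, HasDerivAt (fun t : ℝ => b + t • e • x) (e • x) t := fun t => by
    simpa using ((hasDerivAt_id t).smul_const (e • x)).const_add b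
  refine ((j2_line h1.contDiffAt e).unique (a' := fderiv ℝ v b (e • x))
    ⟨fun t => fderiv ℝ v (b + t • e • x) (e • x), .of_forall fun t => ?_, by simp, ?_⟩).2
  · have := (hv.differentiable two_ne_zero _).hasFDerivAt.comp_hasDerivAt t (l t)
    have e1 : ∀ (t : ℝ) (y : E), (t : ℂ) • y = t • y := fun t y => algebraMap_smul ℂ t y
    simpa only [zero_add, mul_smul, e1, Function.comp_def] using this
  · have h2 : HasFDerivAt (fderiv ℝ v) (fderiv ℝ (fderiv ℝ v) b) (b + (0 : ℝ) • e • x) := by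
      simpa using (two_diff hv.contDiffAt).2.hasFDerivAt
    exact ((HasFDerivAt.comp_hasDerivAt (f := fun t : ℝ => b + t • e • x) (0 : ℝ) h2
      (l 0)).clm_apply (hasDerivAt_const (0 : ℝ) (e • x))).congr_deriv (by simp)

omit [NormedSpace ℂ E] [IsScalarTower ℝ ℂ E] [FiniteDimensional ℝ E] in
theorem okq_cvx {L₁ : Set E} (h1 : IsCompact L₁) (h2 : Convex ℝ L₁) (h3 : L₁.Nonempty) :
    ConvexOn ℝ univ fun b => infDist b L₁ := by
  refine ⟨convex_univ, fun x _ y _ a c ha hc hac => ?_⟩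
  obtain ⟨p, hp, e1⟩ := h1.exists_infDist_eq_dist h3 x
  obtain ⟨q, hq, e2⟩ := h1.exists_infDist_eq_dist h3 y
  refine (infDist_le_dist_of_mem (h2 hp hq ha hc hac)).trans ((dist_add_add_le _ _ _ _).trans ?_)
  simp only [e1, e2, dist_smul₀, Real.norm_of_nonneg ha, Real.norm_of_nonneg hc, smul_eq_mul, le_rfl]

omit [NormedSpace ℝ E] [IsScalarTower ℝ ℂ E] [FiniteDimensional ℝ E] in
theorem okq_max {w : E → ℝ} (hu : ContinuousOn u B) (hw : ContinuousOn w B) (h1 : SM u B)
    (h2 : SM w B) : SM (fun b => max (u b) (w b)) B := fun b v h =>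
  max_le ((h1 b v h).trans (Real.circleAverage_mono (okq_ci hu h) (okq_ci (hu.sup hw) h)
    fun _ _ => le_max_left _ _)) ((h2 b v h).trans (Real.circleAverage_mono (okq_ci hw h)
      (okq_ci (hu.sup hw) h) fun _ _ => le_max_right _ _))

omit [NormedSpace ℝ E] [IsScalarTower ℝ ℂ E] [FiniteDimensional ℝ E] in
theorem okq_congr {w : E → ℝ} (h : SM u B) (e : EqOn u w B) : SM w B := fun b v hb => by
  have h0 : b ∈ B := by simpa using hb 0 (by simp)
  rw [← e h0, ← Real.circleAverage_congr_sphere (f₁ := fun ζ : ℂ => u (b + ζ • v))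
    fun ζ hζ => e (hb ζ (sphere_subset_closedBall (by simpa using hζ)))]
  exact h b v hb

/-- Extension to a uniformly continuous function on the whole space. -/
theorem okq_ext {L₁ : Set E} (h1 : IsCompact L₁) (h2 : Convex ℝ L₁) (h3 : L₁.Nonempty) {d : ℝ}
    (hd : 0 < d) (hL : cthickening d L₁ ⊆ L) (hu : ContinuousOn u L) (hs : SM u L) (T : ℝ) :
    ∃ w : E → ℝ, UniformContinuous w ∧ SM w univ ∧ (∀ b ∈ L₁, w b = u b) ∧
      (∀ b, infDist b L₁ ≤ d / 2 → u b ≤ w b) ∧ ∀ b, d / 2 ≤ infDist b L₁ → T ≤ w b := by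
  have := FiniteDimensional.proper_real E
  obtain ⟨K, hK⟩ : ∃ K, K = {b | infDist b L₁ ≤ d} := ⟨_, rfl⟩
  have mK : ∀ b, b ∈ K ↔ infDist b L₁ ≤ d := fun b => by rw [hK]; rfl
  have c0 : Continuous fun b => infDist b L₁ := continuous_infDist_pt L₁
  have sK : K ⊆ cthickening d L₁ := fun b hb => by
    obtain ⟨p, hp, e⟩ := h1.exists_infDist_eq_dist h3 b
    exact mem_cthickening_of_dist_le b p d L₁ hp (e ▸ (mK b).1 hb)
  have cK : IsCompact K := h1.cthickening.of_isClosed_subset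
    (hK ▸ isClosed_le c0 continuous_const) sK
  have uK : ContinuousOn u K := hu.mono (sK.trans hL)
  obtain ⟨M, hM⟩ := cK.exists_bound_of_continuousOn uK
  have M0 : 0 ≤ M := (norm_nonneg _).trans
    (hM _ ((mK _).2 (by rw [infDist_zero_of_mem h3.some_mem]; exact hd.le)))
  obtain ⟨A, hA⟩ : ∃ A, A = 2 * (2 * M + |T|) / d := ⟨_, rfl⟩
  have A0 : 0 ≤ A := by rw [hA]; positivity
  have A1 : A * (d / 2) = 2 * M + |T| := by rw [hA]; field_simp
  obtain ⟨g, hg⟩ : ∃ g : E → ℝ, g = fun b => A * infDist b L₁ + -M := ⟨_, rfl⟩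
  have g0 : ∀ b, g b = A * infDist b L₁ + -M := fun b => by rw [hg]
  have g1 : UniformContinuous g := hg ▸
    ((uniformContinuous_infDist_pt L₁).const_smul A).add uniformContinuous_const
  have g2 : SM g univ := sm_convex (hg ▸ ((okq_cvx h1 h2 h3).smul A0).add_const (-M))
    g1.continuous.continuousOn
  have g3 : ∀ b, d / 2 ≤ infDist b L₁ → M + |T| ≤ g b := fun b hb => by
    have := mul_le_mul_of_nonneg_left hb A0
    rw [g0]; linarith
  obtain ⟨k, hk⟩ : ∃ k : E → ℝ, k = K.indicator fun b => max (u b - g b) 0 := ⟨_, rfl⟩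
  have k1 : ∀ b ∈ K, max (u b) (g b) = k b + g b := fun b hb => by
    rw [hk, indicator_of_mem hb, ← max_add_add_right, sub_add_cancel, zero_add]
  have k2 : ∀ b, d / 2 ≤ infDist b L₁ → k b = 0 := fun b hb => by
    rw [hk, indicator_apply_eq_zero]
    exact fun h => max_eq_right (by linarith [g3 b hb, (abs_le.1 (hM b h)).2, abs_nonneg T])
  have n1 : ∀ b, infDist b L₁ < d → K ∈ 𝓝 b := fun b hb =>
    mem_of_superset ((isOpen_lt c0 continuous_const).mem_nhds hb) fun x hx => (mK x).2 (le_of_lt hx)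
  have n2 : ∀ b, ¬ infDist b L₁ < d → {x | d / 2 < infDist x L₁} ∈ 𝓝 b := fun b hb =>
    (isOpen_lt continuous_const c0).mem_nhds (show d / 2 < _ by linarith [not_lt.1 hb])
  have k3 : Continuous k := continuous_iff_continuousAt.2 fun b => by
    by_cases hb : infDist b L₁ < d
    · refine ContinuousOn.continuousAt (((uK.sub g1.continuous.continuousOn).sup
        (continuousOn_const (c := 0))).congr fun x hx => ?_) (n1 b hb)
      rw [hk, indicator_of_mem hx]; rfl
    · exact continuousAt_const.congr (mem_of_superset (n2 b hb) fun x hx => (k2 x (le_of_lt hx)).symm)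
  have k4 : HasCompactSupport k := HasCompactSupport.intro cK fun b hb => by
    rw [hk, indicator_of_notMem hb]
  have w1 := (k4.uniformContinuous_of_continuous k3).add g1
  refine ⟨fun b => k b + g b, w1, sm_of_local w1.continuous.continuousOn fun b _ => ?_,
    fun b hb => ?_, fun b hb => ?_, fun b hb => ?_⟩
  · by_cases hb : infDist b L₁ < d
    · exact ⟨K, n1 b hb, (okq_congr (okq_max uK g1.continuous.continuousOn
        (hs.mono (sK.trans hL)) (g2.mono (subset_univ _))) k1).mono inter_subset_left⟩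
    · exact ⟨_, n2 b hb, okq_congr (g2.mono (subset_univ _)) fun x hx => by
        simp only [k2 x (le_of_lt hx.1), zero_add]⟩
  · have h4 : b ∈ K := (mK b).2 (by rw [infDist_zero_of_mem hb]; exact hd.le)
    refine (k1 b h4).symm.trans (max_eq_left ?_)
    rw [g0, infDist_zero_of_mem hb]
    linarith [(abs_le.1 (hM b h4)).1]
  · exact (le_max_left _ _).trans_eq (k1 b ((mK b).2 (by linarith)))
  · linarith [k2 b hb, g3 b hb, le_abs_self T]

/-- Global regularization. -/
theorem reg {L₁ : Set E} (h1 : IsCompact L₁) (h2 : Convex ℝ L₁) (h3 : L₁.Nonempty) {d : ℝ}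
    (hd : 0 < d) (hL : cthickening d L₁ ⊆ L) (hu : ContinuousOn u L) (hs : SM u L) (T : ℝ) {η : ℝ}
    (hη : 0 < η) : ∃ v : E → ℝ, ContDiff ℝ 2 v ∧ (∀ b x, 0 ≤ lv v b x) ∧
      (∀ b ∈ L₁, v b ≤ u b + η) ∧ (∀ b, infDist b L₁ ≤ d / 2 → u b - η ≤ v b) ∧
      ∀ b, d / 2 ≤ infDist b L₁ → T ≤ v b := by
  obtain ⟨w, w1, w2, w3, w4, w5⟩ := okq_ext h1 h2 h3 hd hL hu hs (T + η)
  have := FiniteDimensional.proper_real E
  borelize E
  obtain ⟨δ, hδ, h4⟩ := Metric.uniformContinuous_iff.1 w1 η hη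
  let φ : ContDiffBump (0 : E) := ⟨δ / 2, δ, by linarith, by linarith⟩
  let μ : Measure E := Measure.addHaar
  obtain ⟨v, hv⟩ : ∃ v : E → ℝ, v = φ.normed μ ⋆[ContinuousLinearMap.lsmul ℝ ℝ, μ] w := ⟨_, rfl⟩
  have v1 : ContDiff ℝ 2 v := hv ▸ φ.hasCompactSupport_normed.contDiff_convolution_left (n := 2) _
    φ.contDiff_normed w1.continuous.locallyIntegrable
  have v2 : ∀ b, |v b - w b| ≤ η := fun b => hv ▸ φ.dist_normed_convolution_le (μ := μ)
    w1.continuous.aestronglyMeasurable fun x hx => (h4 hx).le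
  refine ⟨v, v1, fun b x => ?_, fun b hb => ?_, fun b hb => ?_, fun b hb => ?_⟩
  · have h5 := okq_lp (u := fun z : ℂ => v (b + z • x)) (v1.comp (contDiff_const.add
      (((ContinuousLinearMap.id ℂ ℂ).smulRight x).restrictScalars ℝ).contDiff)) fun r => by
        have h6 := okq_conv μ (φ := φ.normed μ) φ.continuous_normed φ.hasCompactSupport_normed
          φ.nonneg_normed w1.continuous w2 b ((r : ℂ) • x)
        have e : ∀ θ, circleMap 0 1 θ • (r : ℂ) • x = cm r θ • x := fun θ => by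
          rw [smul_smul, mul_comm]; simp [circleMap, cm]
        simp only [e] at h6
        simpa only [hv, mean, zero_smul, add_zero, convolution_lsmul, smul_eq_mul] using h6
    rwa [Ec.lp, okq_dir v1, okq_dir v1, one_smul] at h5
  · linarith [(abs_le.1 (v2 b)).2, w3 b hb]
  · linarith [(abs_le.1 (v2 b)).1, w4 b hb]
  · linarith [(abs_le.1 (v2 b)).1, w5 b hb]

theorem sm_ball [MeasurableSpace E] [BorelSpace E] (μ : Measure E) [μ.IsAddHaarMeasure] {b : E}
    {r : ℝ} (hu : ContinuousOn u (closedBall b r)) (hs : SM u (closedBall b r)) :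
    u b * μ.real (closedBall b r) ≤ ∫ x in closedBall b r, u x ∂μ := by
  have := FiniteDimensional.proper_real E
  have c1 : ContinuousOn (fun v => u (b + v)) (closedBall 0 r) :=
    hu.comp (by fun_prop) fun v hv => by simpa using hv
  have h1 := okq_pos μ (h := fun v => u (b + v) - u b) (c1.sub continuousOn_const) fun v hv => by
    have h2 := okq_disc (b := b) (mem_closedBall_zero_iff.1 hv)
    rw [Real.circleAverage_fun_sub (okq_ci hu h2) (circleIntegrable_const _ _ _),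
      Real.circleAverage_const, sub_nonneg]
    exact hs b v h2
  have h3 := okq_rot μ b (c := 1) norm_one u r
  simp only [one_smul] at h3
  rw [integral_sub (c1.integrableOn_compact (isCompact_closedBall _ _))
    (continuousOn_const.integrableOn_compact (isCompact_closedBall _ _)), h3, setIntegral_const,
    smul_eq_mul, ← Measure.addHaar_real_closedBall_center μ b] at h1
  linarith

theorem av_le {g : ℂ → ℝ} {w : ℂ} {ρ ρ' : ℝ} (hg : ContinuousOn g (closedBall w ρ'))
    (hs : SM g (closedBall w ρ')) (hρ : 0 < ρ) (h : ρ ≤ ρ') :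
    g w ≤ ⨍ ζ in closedBall w ρ, g ζ ∧
      ⨍ ζ in closedBall w ρ, g ζ ≤ ⨍ ζ in closedBall w ρ', g ζ := by
  have hρ' : 0 < ρ' := hρ.trans_le h
  constructor
  · have h1 := sm_ball volume (hg.mono (closedBall_subset_closedBall h))
      (hs.mono (closedBall_subset_closedBall h))
    have h2 : 0 < volume.real (closedBall w ρ) :=
      ENNReal.toReal_pos (measure_closedBall_pos _ _ hρ).ne' measure_closedBall_lt_top.ne
    rwa [setAverage_eq, smul_eq_mul, le_inv_mul_iff₀ h2, mul_comm]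
  have e : ∀ t : ℝ, 0 < t → ⨍ ζ in closedBall w t, g ζ =
      ⨍ v in closedBall (0 : ℂ) 1, g (w + (t : ℂ) • v) := fun t ht => by
    rw [← okq_avg volume w (ofReal_ne_zero.2 ht.ne'), mul_one, norm_real, Real.norm_of_nonneg ht.le]
  have m : ∀ t : ℝ, 0 < t → t ≤ ρ' → ∀ v ∈ closedBall (0 : ℂ) 1,
      w + (t : ℂ) • v ∈ closedBall w ρ' := fun t ht ht' v hv => by
    rw [smul_eq_mul, mul_comm, ← smul_eq_mul]
    exact okq_disc (by rwa [norm_real, Real.norm_of_nonneg ht.le]) v hv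
  have c : ∀ t : ℝ, 0 < t → t ≤ ρ' →
      ContinuousOn (fun v : ℂ => g (w + (t : ℂ) • v)) (closedBall 0 1) := fun t ht ht' =>
    hg.comp (by fun_prop) (m t ht ht')
  have h1 := okq_pos volume ((c ρ' hρ' le_rfl).sub (c ρ hρ h)) fun v hv => by
    have h2 : ∀ ζ ∈ closedBall (0 : ℂ) 1, 0 + ζ • v ∈ closedBall (0 : ℂ) 1 :=
      okq_disc (mem_closedBall_zero_iff.1 hv)
    have h3 := okq_ci (c ρ' hρ' le_rfl) h2
    have h4 := okq_ci (c ρ hρ h) h2
    simp only [zero_add] at h2 h3 h4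
    have h5 := okq_circ (ψ := fun ζ => g (w + (ρ' : ℂ) • ζ • v))
      ((c ρ' hρ' le_rfl).comp (by fun_prop) h2) (fun b x hb => by
        have h6 := hs (w + (ρ' : ℂ) • b • v) ((ρ' : ℂ) • x • v) fun ζ hζ => by
          convert m ρ' hρ' le_rfl _ (h2 _ (hb ζ hζ)) using 1
          simp only [smul_eq_mul]; ring
        convert h6 using 4
        simp only [smul_eq_mul]; ring) (div_pos hρ hρ').le ((div_le_one hρ').2 h)
    rw [Real.circleAverage_eq_circleAverage_zero_one] at h5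
    simp only [Pi.sub_apply]
    rw [Real.circleAverage_fun_sub h3 h4, sub_nonneg]
    convert h5 using 4
    have := ofReal_ne_zero.2 hρ'.ne'
    simp only [smul_eq_mul, ofReal_div]
    field_simp
    ring
  simp only [Pi.sub_apply] at h1
  rw [integral_sub ((c ρ' hρ' le_rfl).integrableOn_compact (isCompact_closedBall _ _))
    ((c ρ hρ h).integrableOn_compact (isCompact_closedBall _ _)), sub_nonneg] at h1
  rw [e ρ hρ, e ρ' hρ', setAverage_eq, setAverage_eq]
  exact mul_le_mul_of_nonneg_left h1 (inv_nonneg.2 measureReal_nonneg)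

end Pool.Agent.Lib.MP_124863_gt.Ok
end

-- part Pool.Agent.Lib.MP_124863_gt.OkReg
section

/-! Regularization on sublevel sets of global plurisubharmonic functions. -/

open Filter Topology Set Metric Complex MeasureTheory
open scoped Real ENNReal Convolution

namespace Pool.Agent.Lib.MP_124863_gt.Ok

open Ec

set_option linter.unusedSectionVars false

variable {E : Type} [NormedAddCommGroup E] [NormedSpace ℝ E] [NormedSpace ℂ E] [IsScalarTower ℝ ℂ E]
  {u w : E → ℝ} {B L : Set E}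

theorem SM.add (h : SM u B) (h' : SM w B) (hu : ContinuousOn u B) (hw : ContinuousOn w B) :
    SM (fun b => u b + w b) B := fun b v hb => by
  rw [Real.circleAverage_fun_add (okq_ci hu hb) (okq_ci hw hb)]
  exact add_le_add (h b v hb) (h' b v hb)

theorem SM.const_mul (h : SM u B) {c : ℝ} (hc : 0 ≤ c) : SM (fun b => c * u b) B :=
  fun b v hb => by
    have := Real.circleAverage_fun_smul (a := c) (f := fun ζ : ℂ => u (b + ζ • v)) (c := 0) (R := 1)
    simp only [smul_eq_mul] at this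
    beta_reduce
    rw [this]
    exact mul_le_mul_of_nonneg_left (h b v hb) hc

theorem SM.fst (h : SM u univ) : SM (fun z : E × ℂ => u z.1) univ := fun b v _ => by
  simpa using h b.1 v.1 fun _ _ => trivial

theorem okr_aff (b x : E) : ContDiff ℝ 2 fun z : ℂ => b + z • x :=
  contDiff_const.add (((ContinuousLinearMap.id ℂ ℂ).smulRight x).restrictScalars ℝ).contDiff

theorem okr_dir {b x : E} {z : ℂ} (hu : ContDiffAt ℝ 2 u (b + z • x)) (e : ℂ) :
    D2 (fun ζ : ℂ => u (b + ζ • x)) z e =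
      fderiv ℝ (fderiv ℝ u) (b + z • x) (e • x) (e • x) := by
  have h1 : ContDiffAt ℝ 2 (fun ζ : ℂ => u (b + ζ • x)) z := hu.comp z (okr_aff b x).contDiffAt
  have h2 := j2_dir hu (e • x)
  have e1 : ∀ (t : ℝ) (y : E), (t : ℂ) • y = t • y := fun t y => algebraMap_smul ℂ t y
  have e2 : (fun t : ℝ => u (b + z • x + t • e • x)) = fun t : ℝ => u (b + (z + t * e) • x) := by
    funext t
    rw [add_smul, mul_smul, e1, add_assoc]
  rw [e2] at h2
  exact ((j2_line h1 e).unique h2).2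

theorem sm_of_lv (hB : IsOpen B) (h : ∀ z ∈ B, ContDiffAt ℝ 2 u z ∧ ∀ v, 0 ≤ lv u z v) :
    SM u B := fun b x hb => by
  obtain ⟨δ, hδ, h1⟩ := (isCompact_closedBall (0 : ℂ) 1).exists_thickening_subset_open
    (hB.preimage (okr_aff b x).continuous) hb
  rw [thickening_closedBall hδ zero_le_one] at h1
  have h2 := le_mean (u := fun ζ : ℂ => u (b + ζ • x)) (R := δ + 1) (ρ := 1)
    (fun z hz => (h _ (h1 hz)).1.comp z (okr_aff b x).contDiffAt) (fun z hz => by
      rw [Ec.lp, okr_dir (h _ (h1 hz)).1, okr_dir (h _ (h1 hz)).1, one_smul]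
      exact (h _ (h1 hz)).2 x) ⟨zero_le_one, by linarith⟩
  rw [Real.circleAverage_def, smul_eq_mul, le_inv_mul_iff₀ Real.two_pi_pos]
  simpa [mean, cm, circleMap] using h2

/-- Mollification of a uniformly continuous function. -/
theorem okr_moll [FiniteDimensional ℝ E] (w1 : UniformContinuous w) (w2 : SM w univ) {η : ℝ}
    (hη : 0 < η) : ∃ v : E → ℝ, ContDiff ℝ 2 v ∧ (∀ b x, 0 ≤ lv v b x) ∧ ∀ b, |v b - w b| ≤ η := by
  have := FiniteDimensional.proper_real E
  borelize E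
  obtain ⟨δ, hδ, h4⟩ := Metric.uniformContinuous_iff.1 w1 η hη
  let φ : ContDiffBump (0 : E) := ⟨δ / 2, δ, by linarith, by linarith⟩
  let μ : Measure E := Measure.addHaar
  obtain ⟨v, hv⟩ : ∃ v : E → ℝ, v = φ.normed μ ⋆[ContinuousLinearMap.lsmul ℝ ℝ, μ] w := ⟨_, rfl⟩
  have v1 : ContDiff ℝ 2 v := hv ▸ φ.hasCompactSupport_normed.contDiff_convolution_left (n := 2) _
    φ.contDiff_normed w1.continuous.locallyIntegrable
  have v2 : ∀ b, |v b - w b| ≤ η := fun b => hv ▸ φ.dist_normed_convolution_le (μ := μ)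
    w1.continuous.aestronglyMeasurable fun x hx => (h4 hx).le
  refine ⟨v, v1, fun b x => ?_, v2⟩
  have h5 := okq_lp (u := fun z : ℂ => v (b + z • x)) (v1.comp (okr_aff b x)) fun r => by
    have h6 := okq_conv μ (φ := φ.normed μ) φ.continuous_normed φ.hasCompactSupport_normed
      φ.nonneg_normed w1.continuous w2 b ((r : ℂ) • x)
    have e : ∀ θ, circleMap 0 1 θ • (r : ℂ) • x = cm r θ • x := fun θ => by
      rw [smul_smul, mul_comm]; simp [circleMap, cm]
    simp only [e] at h6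
    simpa only [hv, mean, zero_smul, add_zero, convolution_lsmul, smul_eq_mul] using h6
  rwa [Ec.lp, okq_dir v1, okq_dir v1, one_smul] at h5

/-- Extension to a uniformly continuous function on the whole space. -/
theorem okr_ext (hL : IsCompact L) {r : E → ℝ} (hr : UniformContinuous r) (hr' : SM r univ)
    (h2 : ∀ b, r b < 1 → b ∈ L) (hu : ContinuousOn u L) (hs : SM u L) (T : ℝ) :
    ∃ w : E → ℝ, UniformContinuous w ∧ SM w univ ∧ (∀ b, r b ≤ 0 → w b = u b) ∧
      (∀ b, r b ≤ 1 / 2 → u b ≤ w b) ∧ ∀ b, 1 / 2 ≤ r b → T ≤ w b := by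
  obtain ⟨K, hK⟩ : ∃ K, K = {b | r b ≤ 3 / 4} := ⟨_, rfl⟩
  have mK : ∀ b, b ∈ K ↔ r b ≤ 3 / 4 := fun b => by rw [hK]; rfl
  have c0 : Continuous r := hr.continuous
  have sK : K ⊆ L := fun b hb => h2 b (by linarith [(mK b).1 hb])
  have cK : IsCompact K := hL.of_isClosed_subset (hK ▸ isClosed_le c0 continuous_const) sK
  have uK : ContinuousOn u K := hu.mono sK
  obtain ⟨M', hM'⟩ := cK.exists_bound_of_continuousOn uK
  obtain ⟨M, M0, hM⟩ : ∃ M : ℝ, 0 ≤ M ∧ ∀ b ∈ K, |u b| ≤ M :=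
    ⟨|M'|, abs_nonneg _, fun b hb => (hM' b hb).trans (le_abs_self _)⟩
  obtain ⟨A, hA⟩ : ∃ A, A = 2 * (2 * M + |T|) := ⟨_, rfl⟩
  have A0 : 0 ≤ A := by rw [hA]; positivity
  obtain ⟨g, hg⟩ : ∃ g : E → ℝ, g = fun b => A * r b + -M := ⟨_, rfl⟩
  have g0 : ∀ b, g b = A * r b + -M := fun b => by rw [hg]
  have g1 : UniformContinuous g := hg ▸ (hr.const_smul A).add uniformContinuous_const
  have g2 : SM g univ := hg ▸ (hr'.const_mul A0).add_const (by fun_prop) (-M)
  have g3 : ∀ b, 1 / 2 ≤ r b → M + |T| ≤ g b := fun b hb => by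
    have := mul_le_mul_of_nonneg_left hb A0
    rw [g0]; linarith
  obtain ⟨k, hk⟩ : ∃ k : E → ℝ, k = K.indicator fun b => max (u b - g b) 0 := ⟨_, rfl⟩
  have k1 : ∀ b ∈ K, max (u b) (g b) = k b + g b := fun b hb => by
    rw [hk, indicator_of_mem hb, ← max_add_add_right, sub_add_cancel, zero_add]
  have k2 : ∀ b, 1 / 2 ≤ r b → k b = 0 := fun b hb => by
    rw [hk, indicator_apply_eq_zero]
    exact fun h => max_eq_right (by linarith [g3 b hb, (abs_le.1 (hM b h)).2, abs_nonneg T])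
  have n1 : ∀ b, r b < 3 / 4 → K ∈ 𝓝 b := fun b hb =>
    mem_of_superset ((isOpen_lt c0 continuous_const).mem_nhds hb) fun x hx => (mK x).2 (le_of_lt hx)
  have n2 : ∀ b, ¬ r b < 3 / 4 → {x | 1 / 2 < r x} ∈ 𝓝 b := fun b hb =>
    (isOpen_lt continuous_const c0).mem_nhds (show 1 / 2 < r b by linarith [not_lt.1 hb])
  have k3 : Continuous k := continuous_iff_continuousAt.2 fun b => by
    by_cases hb : r b < 3 / 4
    · refine ContinuousOn.continuousAt (((uK.sub g1.continuous.continuousOn).sup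
        (continuousOn_const (c := 0))).congr fun x hx => ?_) (n1 b hb)
      rw [hk, indicator_of_mem hx]; rfl
    · exact continuousAt_const.congr (mem_of_superset (n2 b hb) fun x hx => (k2 x (le_of_lt hx)).symm)
  have k4 : HasCompactSupport k := HasCompactSupport.intro cK fun b hb => by
    rw [hk, indicator_of_notMem hb]
  have w1 := (k4.uniformContinuous_of_continuous k3).add g1
  refine ⟨fun b => k b + g b, w1, sm_of_local w1.continuous.continuousOn fun b _ => ?_,
    fun b hb => ?_, fun b hb => ?_, fun b hb => ?_⟩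
  · by_cases hb : r b < 3 / 4
    · exact ⟨K, n1 b hb, (okq_congr (okq_max uK g1.continuous.continuousOn
        (hs.mono sK) (g2.mono (subset_univ _))) k1).mono inter_subset_left⟩
    · exact ⟨_, n2 b hb, okq_congr (g2.mono (subset_univ _)) fun x hx => by
        simp only [k2 x (le_of_lt hx.1), zero_add]⟩
  · have h4 : b ∈ K := (mK b).2 (by linarith)
    refine (k1 b h4).symm.trans (max_eq_left ?_)
    rw [g0]
    linarith [(abs_le.1 (hM b h4)).1, mul_nonpos_of_nonneg_of_nonpos A0 hb]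
  · exact (le_max_left _ _).trans_eq (k1 b ((mK b).2 (by linarith)))
  · linarith [k2 b hb, g3 b hb, le_abs_self T]

theorem reg' [FiniteDimensional ℝ E] {L₁ : Set E} (hL : IsCompact L) {r : E → ℝ} (hr : Continuous r)
    (hr' : SM r univ) (h1 : ∀ b ∈ L₁, r b ≤ 0) (h2 : ∀ b, r b < 1 → b ∈ L) (hu : ContinuousOn u L)
    (hs : SM u L) (T : ℝ) {η : ℝ} (hη : 0 < η) : ∃ v : E → ℝ, ContDiff ℝ 2 v ∧
      (∀ b x, 0 ≤ lv v b x) ∧ (∀ b ∈ L₁, v b ≤ u b + η) ∧ (∀ b, r b ≤ 1 / 2 → u b - η ≤ v b) ∧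
      ∀ b, 1 / 2 ≤ r b → T ≤ v b := by
  have := FiniteDimensional.proper_real E
  obtain ⟨ρ, hρ, h3⟩ := hL.isBounded.subset_closedBall_lt 0 0
  obtain ⟨r', r1, r2, r3, r4, r5⟩ := okq_ext (u := r) (L := univ) (isCompact_closedBall (0 : E) ρ)
    (convex_closedBall _ _) (nonempty_closedBall.2 hρ.le) one_pos (subset_univ _)
    hr.continuousOn hr' 1
  have r6 : ∀ b, r' b = r b ∨ (1 ≤ r b ∧ 1 ≤ r' b) := fun b => by
    by_cases hb : b ∈ closedBall (0 : E) ρ
    · exact Or.inl (r3 b hb)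
    · have h4 : 1 ≤ r b := not_lt.1 fun h => hb (h3 (h2 b h))
      rcases le_total (infDist b (closedBall (0 : E) ρ)) (1 / 2) with h | h
      · exact Or.inr ⟨h4, h4.trans (r4 b h)⟩
      · exact Or.inr ⟨h4, r5 b h⟩
  obtain ⟨w, w1, w2, w3, w4, w5⟩ := okr_ext hL r1 r2 (fun b hb => h2 b (by
    rcases r6 b with h | h <;> linarith [h])) hu hs (T + η)
  obtain ⟨v, v1, v3, v2⟩ := okr_moll w1 w2 hη
  refine ⟨v, v1, v3, fun b hb => ?_, fun b hb => ?_, fun b hb => ?_⟩
  · have := w3 b (by rcases r6 b with h | ⟨h, h'⟩ <;> linarith [h1 b hb])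
    linarith [(abs_le.1 (v2 b)).2]
  · have := w4 b (by rcases r6 b with h | ⟨h, h'⟩ <;> linarith)
    linarith [(abs_le.1 (v2 b)).1]
  · have := w5 b (by rcases r6 b with h | ⟨h, h'⟩ <;> linarith)
    linarith [(abs_le.1 (v2 b)).1]

end Pool.Agent.Lib.MP_124863_gt.Ok
end

-- part Pool.Agent.Lib.MP_124863_gt.OkNbh
section

/-! Runge neighbourhoods of a closed complex submanifold. -/

open Filter Topology Set Metric Complex MeasureTheory
open scoped Real ENNReal

namespace Pool.Agent.Lib.MP_124863_gt.Ok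

open Ec

variable {N : ℕ}

/-- The squared Euclidean norm. -/
noncomputable def nbh_s (z : Cn N) : ℝ := ∑ i, ‖z i‖ ^ 2

theorem nbh_s_nonneg (z : Cn N) : 0 ≤ nbh_s z := Finset.sum_nonneg fun _ _ => sq_nonneg _

theorem nbh_s_ge (z : Cn N) : ‖z‖ ^ 2 ≤ nbh_s z := by
  have h : ‖z‖ ≤ √(nbh_s z) := (pi_norm_le_iff_of_nonneg (Real.sqrt_nonneg _)).2 fun i =>
    Real.le_sqrt_of_sq_le (Finset.single_le_sum (f := fun i => ‖z i‖ ^ 2)
      (fun _ _ => sq_nonneg _) (Finset.mem_univ i))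
  exact (Real.le_sqrt (norm_nonneg _) (nbh_s_nonneg z)).1 h

theorem nbh_s_pos {z : Cn N} (h : z ≠ 0) : 0 < nbh_s z :=
  (pow_pos (norm_pos_iff.2 h) 2).trans_le (nbh_s_ge z)

theorem nbh_part (F : Finset (Fin N)) (z : Cn N) :
    ContDiffAt ℝ 2 (fun x : Cn N => ∑ i ∈ F, ‖x i‖ ^ 2) z ∧
      ∀ v, lv (fun x : Cn N => ∑ i ∈ F, ‖x i‖ ^ 2) z v = 4 * ∑ i ∈ F, ‖v i‖ ^ 2 := by
  classical
  induction F using Finset.induction_on with
  | empty => exact ⟨by simpa using contDiffAt_const, fun v => by simp [lv]⟩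
  | insert i F hi ih =>
    have h1 : ContDiffAt ℝ 2 (fun x : Cn N => ‖x i‖ ^ 2) z :=
      alg2_smooth (ContinuousLinearMap.proj (R := ℂ) (φ := fun _ : Fin N => ℂ) i)
    have h2 : ∀ v, lv (fun x : Cn N => ‖x i‖ ^ 2) z v = 4 * ‖v i‖ ^ 2 :=
      lv_norm_sq (ContinuousLinearMap.proj (R := ℂ) (φ := fun _ : Fin N => ℂ) i)
    simp only [Finset.sum_insert hi]
    refine ⟨h1.add ih.1, fun v => ?_⟩
    rw [lv_add h1 ih.1, h2, ih.2]
    ring

theorem nbh_s_smooth (z : Cn N) : ContDiffAt ℝ 2 (nbh_s : Cn N → ℝ) z := (nbh_part _ z).1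

theorem nbh_s_lv (z v : Cn N) : lv nbh_s z v = 4 * nbh_s v := (nbh_part _ z).2 v

theorem nbh_s_cont : Continuous (nbh_s : Cn N → ℝ) :=
  continuous_iff_continuousAt.2 fun z => (nbh_s_smooth z).continuousAt

theorem nbh_s_sm : SM (nbh_s : Cn N → ℝ) univ :=
  sm_of_lv isOpen_univ fun z _ => ⟨nbh_s_smooth z, fun v => by
    rw [nbh_s_lv]; exact mul_nonneg (by norm_num) (nbh_s_nonneg v)⟩

theorem nbh_const (c : ℝ) (B : Set (Cn N)) : SM (fun _ => c) B := fun _ _ _ => by
  rw [Real.circleAverage_const]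

/-- The building blocks of the correction term. -/
noncomputable def nbh_t (j : ℕ) (z : Cn N) : ℝ := max (nbh_s z + (1 - j)) 0

theorem nbh_t_cont (j : ℕ) : Continuous (nbh_t j : Cn N → ℝ) :=
  (nbh_s_cont.add continuous_const).max continuous_const

theorem nbh_t_sm (j : ℕ) : SM (nbh_t j : Cn N → ℝ) univ :=
  okq_max (nbh_s_cont.add continuous_const).continuousOn continuousOn_const
    (nbh_s_sm.add_const nbh_s_cont.continuousOn _) (nbh_const 0 _)

theorem nbh_sum {A : ℕ → ℝ} (hA : ∀ j, 0 ≤ A j) (F : Finset ℕ) :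
    Continuous (fun z : Cn N => ∑ j ∈ F, A j * nbh_t j z) ∧
      SM (fun z : Cn N => ∑ j ∈ F, A j * nbh_t j z) univ := by
  classical
  induction F using Finset.induction_on with
  | empty => exact ⟨by simpa using continuous_const, by simpa using nbh_const 0 _⟩
  | insert i F hi ih =>
    simp only [Finset.sum_insert hi]
    have h1 : Continuous fun z : Cn N => A i * nbh_t i z := continuous_const.mul (nbh_t_cont i)
    exact ⟨h1.add ih.1, ((nbh_t_sm i).const_mul (hA i)).add ih.2 h1.continuousOn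
      ih.1.continuousOn⟩

/-- The correction term. -/
noncomputable def nbh_l (A : ℕ → ℝ) (z : Cn N) : ℝ := ∑' j, A j * nbh_t j z

theorem nbh_l_eq (A : ℕ → ℝ) {J : ℕ} {z : Cn N} (h : nbh_s z < J) :
    nbh_l A z = ∑ j ∈ Finset.range (J + 1), A j * nbh_t j z := by
  refine tsum_eq_sum fun j hj => ?_
  have h1 : ((J + 1 : ℕ) : ℝ) ≤ j := Nat.cast_le.2 (not_lt.1 fun h2 => hj (Finset.mem_range.2 h2))
  push_cast at h1
  rw [nbh_t, max_eq_right (by linarith), mul_zero]

theorem nbh_l_nonneg {A : ℕ → ℝ} (hA : ∀ j, 0 ≤ A j) (z : Cn N) : 0 ≤ nbh_l A z :=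
  tsum_nonneg fun j => mul_nonneg (hA j) (le_max_right _ _)

theorem nbh_open (c : ℝ) : IsOpen {z : Cn N | nbh_s z < c} := isOpen_lt nbh_s_cont continuous_const

theorem nbh_l_cont {A : ℕ → ℝ} (hA : ∀ j, 0 ≤ A j) : Continuous (nbh_l A : Cn N → ℝ) := by
  refine continuous_iff_continuousAt.2 fun z => ?_
  obtain ⟨J, hJ⟩ := exists_nat_gt (nbh_s z)
  refine (nbh_sum hA (Finset.range (J + 1))).1.continuousAt.congr ?_
  filter_upwards [(nbh_open J).mem_nhds hJ] with x hx
  exact (nbh_l_eq A hx).symm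

theorem nbh_l_sm {A : ℕ → ℝ} (hA : ∀ j, 0 ≤ A j) : SM (nbh_l A : Cn N → ℝ) univ := by
  refine sm_of_local (nbh_l_cont hA).continuousOn fun z _ => ?_
  obtain ⟨J, hJ⟩ := exists_nat_gt (nbh_s z)
  exact ⟨_, (nbh_open J).mem_nhds hJ, okq_congr
    ((nbh_sum hA (Finset.range (J + 1))).2.mono (subset_univ _))
      fun x hx => (nbh_l_eq A hx.1).symm⟩

/-- The logarithm of the norm of a holomorphic map without zeros. -/
theorem nbh_log {W : Set (Cn N)} (hW : IsOpen W) {g : Cn N → Cn N} (hg : DifferentiableOn ℂ g W)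
    (h0 : ∀ z ∈ W, g z ≠ 0) : SM (fun z => Real.log (nbh_s (g z))) W := by
  intro b v hb
  have hc : ContinuousOn (fun z => Real.log (nbh_s (g z))) W :=
    (nbh_s_cont.comp_continuousOn hg.continuousOn).log fun z hz => (nbh_s_pos (h0 z hz)).ne'
  refine sm_of_dm ((okp_cont hc hb).mono sphere_subset_closedBall) fun P hP hm => ?_
  let e : Cn N ≃L[ℂ] EuclideanSpace ℂ (Fin N) := (EuclideanSpace.equiv (Fin N) ℂ).symm
  have he : ∀ x : Cn N, ‖e x‖ ^ 2 = nbh_s x := fun x => by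
    rw [EuclideanSpace.norm_sq_eq]; rfl
  have hn : ∀ ζ : ℂ, ‖exp (-(P ζ / 2)) • e (g (b + ζ • v))‖ ^ 2 =
      Real.exp (-(P ζ).re) * nbh_s (g (b + ζ • v)) := fun ζ => by
    rw [norm_smul, mul_pow, he, norm_exp, ← Real.exp_nat_mul]
    congr 2
    simp only [neg_re, div_ofNat_re]
    push_cast
    ring
  have hd : DiffContOnCl ℂ (fun ζ : ℂ => exp (-(P ζ / 2)) • e (g (b + ζ • v))) (ball 0 1) := by
    refine DifferentiableOn.diffContOnCl fun ζ hζ => ?_
    rw [closure_ball _ one_ne_zero] at hζ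
    have h1 : DifferentiableAt ℂ (fun ζ : ℂ => g (b + ζ • v)) ζ :=
      (hg.differentiableAt (hW.mem_nhds (hb ζ hζ))).comp ζ (f := fun ζ : ℂ => b + ζ • v)
        (by fun_prop)
    have h2 : DifferentiableAt ℂ (fun ζ : ℂ => exp (-(P ζ / 2))) ζ := by
      have := hP ζ
      fun_prop
    exact (h2.smul (e.differentiableAt.comp ζ h1)).differentiableWithinAt
  have h1 := norm_le_of_forall_mem_frontier_norm_le isBounded_ball hd (C := 1) (z := 0)
    (fun ζ hζ => by
      rw [frontier_ball _ one_ne_zero] at hζ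
      refine (sq_le_one_iff₀ (norm_nonneg _)).1 ?_
      rw [hn, Real.exp_neg, inv_mul_le_iff₀ (Real.exp_pos _), mul_one]
      exact (Real.log_le_iff_le_exp (nbh_s_pos (h0 _ (hb ζ (sphere_subset_closedBall hζ))))).1
        (hm ζ hζ))
    (subset_closure (mem_ball_self one_pos))
  have h2 := (sq_le_one_iff₀ (norm_nonneg _)).2 h1
  rw [hn, Real.exp_neg, inv_mul_le_iff₀ (Real.exp_pos _), mul_one, zero_smul, add_zero] at h2
  have h3 : b ∈ W := by simpa using hb 0 (by simp)
  exact (Real.log_le_iff_le_exp (nbh_s_pos (h0 b h3))).2 h2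

theorem nbh_lv_ge {ψ : Cn N → ℝ} {z : Cn N} {A : ℝ} (h : ‖fderiv ℝ (fderiv ℝ ψ) z‖ ≤ A)
    (v : Cn N) : -(2 * A * ‖v‖ ^ 2) ≤ lv ψ z v := by
  have k : ∀ w : Cn N, -(A * ‖w‖ ^ 2) ≤ fderiv ℝ (fderiv ℝ ψ) z w w := fun w => by
    have h1 := (fderiv ℝ (fderiv ℝ ψ) z).le_opNorm₂ w w
    have h2 : ‖fderiv ℝ (fderiv ℝ ψ) z‖ * ‖w‖ * ‖w‖ ≤ A * ‖w‖ ^ 2 := by
      rw [mul_assoc, ← sq]
      exact mul_le_mul_of_nonneg_right h (sq_nonneg _)
    exact (neg_le_neg (h1.trans h2)).trans (neg_abs_le _)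
  have h1 := k v
  have h2 := k (I • v)
  rw [norm_smul, norm_I, one_mul] at h2
  rw [lv]
  linarith

/-- A function that is smooth near a closed set becomes plurisubharmonic in its interior after
adding a correction term. -/
theorem nbh_fix {K : Set (Cn N)} (hK : IsClosed K) {ψ : Cn N → ℝ}
    (hψ : ∀ z ∈ K, ContDiffAt ℝ 2 ψ z) : ∃ A : ℕ → ℝ, (∀ j, 0 ≤ A j) ∧
      SM (fun z => ψ z + nbh_l A z) (interior K) := by
  have hb : ∀ j : ℕ, ∃ C : ℝ, 0 ≤ C ∧ ∀ z ∈ K, nbh_s z ≤ j + 1 →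
      ‖fderiv ℝ (fderiv ℝ ψ) z‖ ≤ C := fun j => by
    have h1 : IsCompact (K ∩ {z | nbh_s z ≤ j + 1}) := by
      refine (isCompact_closedBall (0 : Cn N) (j + 2)).of_isClosed_subset
        (hK.inter (isClosed_le nbh_s_cont continuous_const)) fun z hz => ?_
      have h2 := (nbh_s_ge z).trans hz.2
      rw [mem_closedBall_zero_iff]
      nlinarith [sq_nonneg (‖z‖ - 1), Nat.cast_nonneg (α := ℝ) j]
    obtain ⟨C, hC⟩ := h1.exists_bound_of_continuousOn (f := fderiv ℝ (fderiv ℝ ψ)) fun z hz =>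
      (((hψ z hz.1).fderiv_right (m := 1) (by norm_num)).fderiv_right (m := 0)
        (by norm_num)).continuousAt.continuousWithinAt
    exact ⟨max C 0, le_max_right _ _, fun z h2 h3 => (hC z ⟨h2, h3⟩).trans (le_max_left _ _)⟩
  choose A hA hA' using hb
  have hc : ContinuousOn ψ (interior K) := fun z hz =>
    (hψ z (interior_subset hz)).continuousAt.continuousWithinAt
  refine ⟨A, hA, sm_of_local (hc.add (nbh_l_cont hA).continuousOn) fun z hz => ?_⟩
  obtain ⟨j, hj⟩ : ∃ j, j = ⌊nbh_s z⌋₊ := ⟨_, rfl⟩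
  have j0 : (j : ℝ) ≤ nbh_s z := hj ▸ Nat.floor_le (nbh_s_nonneg z)
  have j1 : nbh_s z < j + 1 := hj ▸ Nat.lt_floor_add_one _
  have hV : IsOpen ({x : Cn N | (j : ℝ) - 1 < nbh_s x} ∩ {x | nbh_s x < j + 1}) :=
    (isOpen_lt continuous_const nbh_s_cont).inter (nbh_open _)
  refine ⟨_, hV.mem_nhds ⟨show (j : ℝ) - 1 < nbh_s z by linarith, j1⟩, ?_⟩
  have hs : ∀ x, ContDiffAt ℝ 2 (fun x : Cn N => A j * nbh_s x) x := fun x =>
    contDiffAt_const.mul (nbh_s_smooth x)
  have c1 : ContinuousOn (fun x => ψ x + A j * nbh_s x) (interior K) :=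
    hc.add (continuous_const.mul nbh_s_cont).continuousOn
  have h1 : SM (fun x => ψ x + A j * nbh_s x)
      (({x : Cn N | (j : ℝ) - 1 < nbh_s x} ∩ {x | nbh_s x < j + 1}) ∩ interior K) := by
    refine sm_of_lv (hV.inter isOpen_interior) fun x hx => ?_
    have h2 := hψ x (interior_subset hx.2)
    refine ⟨h2.add (hs x), fun v => ?_⟩
    rw [lv_add h2 (hs x), lv_const_mul (nbh_s_smooth x), nbh_s_lv]
    have h3 := nbh_lv_ge (hA' j x (interior_subset hx.2) (le_of_lt hx.1.2)) v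
    have h4 := mul_le_mul_of_nonneg_left (nbh_s_ge v) (hA j)
    have h5 := mul_nonneg (hA j) (sq_nonneg ‖v‖)
    linarith
  have h2 := nbh_sum (N := N) hA ((Finset.range (j + 1 + 1)).erase j)
  refine okq_congr ((h1.add_const (c1.mono inter_subset_right) (A j * (1 - j))).add
    (h2.2.mono (subset_univ _)) ((c1.mono inter_subset_right).add continuousOn_const)
    h2.1.continuousOn) fun x hx => ?_
  have h3 : nbh_s x < (j + 1 : ℕ) := by push_cast; exact hx.1.2
  have h4 : (j : ℝ) - 1 < nbh_s x := hx.1.1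
  have h5 : nbh_t j x = nbh_s x + (1 - j) := max_eq_left (by linarith)
  rw [nbh_l_eq A h3, ← Finset.add_sum_erase _ _ (Finset.mem_range.2 (show j < j + 1 + 1 by omega)),
    h5]
  ring

theorem exists_nbhd {N : ℕ} {S U : Set (Cn N)} (hS : IsClosed S) (hU : IsOpen U) (hSU : S ⊆ U)
    {g : Cn N → Cn N} (hg : DifferentiableOn ℂ g U) (h0 : ∀ z ∈ U, g z = 0 ↔ z ∈ S) :
    ∃ p : Cn N → ℝ, Continuous p ∧ SM p univ ∧ (∀ z ∈ S, p z < 1) ∧ ∀ z, p z < 1 → z ∈ U := by
  classical
  obtain ⟨χ', χ0, χ1, -⟩ := exists_contMDiffMap_zero_one_nhds_of_isClosed (n := 2)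
    (modelWithCornersSelf ℝ (Cn N)) hU.isClosed_compl hS
    (disjoint_left.2 fun z hz hz' => hz (hSU hz'))
  obtain ⟨χ, hχ⟩ : ∃ χ : Cn N → ℝ, χ = χ' := ⟨_, rfl⟩
  have χs : ContDiff ℝ 2 χ := hχ ▸ χ'.contMDiff.contDiff
  rw [← hχ] at χ0 χ1
  rw [eventually_nhdsSet_iff_forall] at χ0 χ1
  obtain ⟨V, hV⟩ : ∃ V, V = interior {z | χ z = 1} := ⟨_, rfl⟩
  have Vo : IsOpen V := hV ▸ isOpen_interior
  have V1 : ∀ z ∈ V, χ z = 1 := fun z hz => interior_subset (s := {z | χ z = 1}) (hV ▸ hz)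
  have SV : S ⊆ V := fun z hz => hV ▸ mem_interior_iff_mem_nhds.2 (χ1 z hz)
  have VU : V ⊆ U := fun z hz => by
    by_contra h
    have := (χ0 z h).self_of_nhds
    rw [V1 z hz] at this
    exact one_ne_zero this
  obtain ⟨V0, V0o, SV0, V0V⟩ := normal_exists_closure_subset hS Vo SV
  obtain ⟨ψ, hψ⟩ : ∃ ψ : Cn N → ℝ, ψ = fun z => χ z * Real.log (nbh_s (g z)) := ⟨_, rfl⟩
  have ψ0 : ∀ z, ψ z = χ z * Real.log (nbh_s (g z)) := fun z => by rw [hψ]
  have ψs : ∀ z, z ∉ S → ContDiffAt ℝ 2 ψ z := fun z hz => by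
    by_cases h : z ∈ U
    · have h1 : ContDiffAt ℝ 2 g z := alg1_h0 (hg.eventually_differentiableAt (hU.mem_nhds h))
      rw [hψ]
      exact χs.contDiffAt.mul (((nbh_s_smooth (g z)).comp z h1).log
        (nbh_s_pos fun e => hz ((h0 z h).1 e)).ne')
    · refine (contDiffAt_const (c := 0)).congr_of_eventuallyEq ((χ0 z h).mono fun x hx => ?_)
      rw [ψ0, hx, zero_mul]
  obtain ⟨A, hA, hf⟩ := nbh_fix V0o.isClosed_compl fun z hz => ψs z fun h => hz (SV0 h)
  have lc : Continuous (nbh_l A : Cn N → ℝ) := nbh_l_cont hA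
  have ψc : ContinuousOn ψ Sᶜ := fun z hz => (ψs z hz).continuousAt.continuousWithinAt
  have fc : ContinuousOn (fun z => ψ z + nbh_l A z) Sᶜ := ψc.add lc.continuousOn
  have fs : SM (fun z => ψ z + nbh_l A z) Sᶜ := by
    refine sm_of_local fc fun z hz => ?_
    by_cases h : z ∈ V
    · refine ⟨V, Vo.mem_nhds h, SM.add ?_ ((nbh_l_sm hA).mono (subset_univ _))
        (ψc.mono inter_subset_right) lc.continuousOn⟩
      refine okq_congr (nbh_log (Vo.inter hS.isOpen_compl) (hg.mono fun x hx => VU hx.1)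
        fun x hx e => hx.2 ((h0 x (VU hx.1)).1 e)) fun x hx => ?_
      rw [ψ0, V1 x hx.1, one_mul]
    · refine ⟨interior V0ᶜ, isOpen_interior.mem_nhds ?_, hf.mono inter_subset_left⟩
      rw [interior_compl]
      exact fun h1 => h (V0V h1)
  obtain ⟨p, hp⟩ : ∃ p : Cn N → ℝ,
      p = fun z => if z ∈ S then 0 else max (ψ z + nbh_l A z) (-1) + 1 := ⟨_, rfl⟩
  have p0 : ∀ z ∈ S, p z = 0 := fun z hz => by rw [hp]; exact if_pos hz
  have p1 : ∀ z, z ∉ S → p z = max (ψ z + nbh_l A z) (-1) + 1 := fun z hz => by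
    rw [hp]; exact if_neg hz
  have p2 : ∀ z ∈ S, ∀ᶠ x in 𝓝 z, p x = 0 := fun z hz => by
    have h1 : ContinuousAt (fun x => nbh_s (g x)) z :=
      nbh_s_cont.continuousAt.comp (hg.continuousOn.continuousAt (hU.mem_nhds (hSU hz)))
    have h2 : ContinuousAt (fun x : Cn N => Real.exp (-1 - nbh_l A x)) z :=
      (Real.continuous_exp.comp (continuous_const.sub lc)).continuousAt
    have h3 : nbh_s (g z) < Real.exp (-1 - nbh_l A z) := by
      rw [(h0 z (hSU hz)).2 hz]
      simpa [nbh_s] using Real.exp_pos _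
    filter_upwards [h1.eventually_lt h2 h3, Vo.mem_nhds (SV hz)] with x h4 h5
    by_cases h6 : x ∈ S
    · exact p0 x h6
    · have h7 := (Real.log_lt_iff_lt_exp (nbh_s_pos fun e => h6 ((h0 x (VU h5)).1 e))).2 h4
      rw [p1 x h6, ψ0, V1 x h5, one_mul, max_eq_right (by linarith)]
      ring
  have mc : ContinuousOn (fun z => max (ψ z + nbh_l A z) (-1)) Sᶜ := fc.sup continuousOn_const
  have pc : Continuous p := by
    refine continuous_iff_continuousAt.2 fun z => ?_
    by_cases h : z ∈ S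
    · exact (continuousAt_const (y := 0)).congr ((p2 z h).mono fun x hx => hx.symm)
    · exact ((mc.add continuousOn_const).congr fun x hx => p1 x hx).continuousAt
        (hS.isOpen_compl.mem_nhds h)
  refine ⟨p, pc, sm_of_local pc.continuousOn fun z _ => ?_, fun z hz => ?_, fun z hz => ?_⟩
  · by_cases h : z ∈ S
    · exact ⟨_, p2 z h, okq_congr (nbh_const 0 _) fun x hx => hx.1.symm⟩
    · exact ⟨Sᶜ, hS.isOpen_compl.mem_nhds h, (okq_congr ((okq_max fc continuousOn_const fs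
        (nbh_const (-1) _)).add_const mc 1) fun x hx => (p1 x hx).symm).mono inter_subset_left⟩
  · rw [p0 z hz]; exact one_pos
  · by_contra h
    rw [p1 z fun h1 => h (hSU h1), ψ0, (χ0 z h).self_of_nhds, zero_mul, zero_add] at hz
    linarith [le_max_left (nbh_l A z) (-1), nbh_l_nonneg hA z]

end Pool.Agent.Lib.MP_124863_gt.Ok
end
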