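import Pool.Agent.Lib.MP_124863_gt.OkBK

/-! Symmetric tensors as sums of products. -/

open Complex
open scoped Matrix

namespace Pool.Agent.Lib.MP_124863_gt.Ok

variable {n : ℕ}

/-- Symmetric complex bilinear maps, seen as real valued functions. -/
structure OkBil (β : Cn n → Cn n → ℝ) : Prop where
  add : ∀ x y s, β (x + y) s = β x s + β y s
  smul : ∀ (r : ℝ) x s, β (r • x) s = r * β x s
  symm : ∀ x s, β x s = β s x
  cpx : ∀ x s, β (I • x) s = β x (I • s)

theorem OkBil.move {β : Cn n → Cn n → ℝ} (h : OkBil β) (c : ℂ) (x s : Cn n) :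
    β x (c • s) = β (c • x) s := by
  rw [h.symm x, smul_eq c x, smul_eq c s, h.add, h.add, h.smul, h.smul, h.smul, h.smul,
    h.symm s x, h.symm (I • s) x, h.cpx]

theorem OkBil.sum {β : Cn n → Cn n → ℝ} (h : OkBil β) {J : Type} (t : Finset J) (x : J → Cn n)
    (s : Cn n) : β (∑ j ∈ t, x j) s = ∑ j ∈ t, β (x j) s :=
  map_sum (AddMonoidHom.mk' (β · s) fun a b => h.add a b s) x t

theorem OkBil.expand {β : Cn n → Cn n → ℝ} (h : OkBil β) (Y s : Cn n) : 2 * β Y s =
    ∑ p, ∑ q, β ((Y p * s q + Y q * s p) • Pi.single p 1) (Pi.single q 1) := by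
  have e : ∀ u : Cn n, u = ∑ i, u i • (Pi.single i 1 : Cn n) := fun u => by
    ext j; simp [Finset.sum_apply, Pi.single_apply]
  have a1 : ∀ Y s : Cn n, β Y s = ∑ p, ∑ q, β ((Y p * s q) • Pi.single p 1) (Pi.single q 1) :=
    fun Y s => by
      conv_lhs => rw [e Y, e s, h.sum]
      refine Finset.sum_congr rfl fun p _ => ?_
      rw [h.symm, h.sum]
      refine Finset.sum_congr rfl fun q _ => ?_
      rw [h.symm, h.move, smul_smul, mul_comm]
  simp only [add_smul, h.add, Finset.sum_add_distrib, mul_comm (Y _) (s _)]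
  rw [← a1 s Y, two_mul, h.symm s Y]
  simp only [mul_comm (s _) (Y _), ← a1 Y s]

theorem exists_squares (S : Matrix (Fin n) (Fin n) ℂ) (hS : S.IsSymm) :
    ∃ v : Fin n → Cn n, ∀ p q, S p q = ∑ i, v i p * v i q := by
  obtain ⟨b, hb⟩ := LinearMap.BilinForm.exists_orthogonal_basis (B := Matrix.toBilin' S)
    (LinearMap.BilinForm.isSymm_iff.1 (Matrix.isSymm_toBilin'_iff_isSymm.2 hS))
  let b' := b.reindex (finCongr (Module.finrank_fin_fun ℂ))
  choose r hr using fun i => IsAlgClosed.exists_pow_nat_eq (Matrix.toBilin' S (b' i) (b' i))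
    (n := 2) two_pos
  refine ⟨fun i p => r i * b'.repr (Pi.single p 1) i, fun p q => ?_⟩
  conv_lhs => rw [← Matrix.toBilin'_single S p q, ← b'.sum_repr (Pi.single p 1),
    ← b'.sum_repr (Pi.single q 1)]
  simp only [map_sum, map_smul, LinearMap.sum_apply, LinearMap.smul_apply, smul_eq_mul]
  refine Finset.sum_congr rfl fun i _ => ?_
  rw [Finset.sum_eq_single i (fun j _ hj => ?_) (by simp), ← hr]
  · ring
  · have := hb (i := (finCongr (Module.finrank_fin_fun ℂ)).symm j)
      (j := (finCongr (Module.finrank_fin_fun ℂ)).symm i) (by simpa using hj)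
    simp only [b', Module.Basis.reindex_apply]
    rw [show Matrix.toBilin' S _ _ = 0 from this, mul_zero]

theorem exists_products {J : Type} [Fintype J] (Y σ : J → Cn n) :
    ∃ Y' σ' : Fin ((n + 1) / 2) → Cn n, ∀ β : Cn n → Cn n → ℝ, OkBil β →
      ∑ j, β (Y j) (σ j) = ∑ i, β (Y' i) (σ' i) := by
  obtain ⟨v, hv⟩ := exists_squares (Matrix.of fun p q => (∑ j, (Y j p * σ j q + Y j q * σ j p)) / 2)
    (Matrix.IsSymm.ext fun p q => by simp [add_comm])
  let w : ℕ → Cn n := fun i => if h : i < n then v ⟨i, h⟩ else 0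
  have h1 : ∀ (f : ℕ → ℂ) k, ∑ i ∈ Finset.range (2 * k), f i =
      ∑ i ∈ Finset.range k, (f (2 * i) + f (2 * i + 1)) := fun f k => by
    induction k with
    | zero => rfl
    | succ k ih => rw [mul_add, mul_one, Finset.sum_range_succ, Finset.sum_range_succ, ih,
        Finset.sum_range_succ, add_assoc]
  have h2 : ∀ p q, ∑ j, (Y j p * σ j q + Y j q * σ j p) = ∑ i : Fin ((n + 1) / 2),
      ((w (2 * i) + I • w (2 * i + 1)) p * (w (2 * i) - I • w (2 * i + 1)) q +
        (w (2 * i) + I • w (2 * i + 1)) q * (w (2 * i) - I • w (2 * i + 1)) p) := fun p q => by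
    have a1 := hv p q
    rw [Matrix.of_apply, div_eq_iff two_ne_zero] at a1
    have a2 : ∑ i, v i p * v i q = ∑ i ∈ Finset.range (2 * ((n + 1) / 2)), w i p * w i q := by
      rw [← Finset.sum_subset (Finset.range_subset_range.2 (by omega : n ≤ _)) fun i _ hi => by
        simp [w, Finset.mem_range.not.1 hi], Finset.sum_range]
      simp [w]
    rw [a1, a2, h1, Finset.sum_range, Finset.sum_mul]
    refine Finset.sum_congr rfl fun i _ => ?_
    simp only [Pi.add_apply, Pi.sub_apply, Pi.smul_apply, smul_eq_mul]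
    linear_combination (2 * w (2 * i + 1) p * w (2 * i + 1) q) * I_mul_I
  refine ⟨fun i => w (2 * i) + I • w (2 * i + 1), fun i => w (2 * i) - I • w (2 * i + 1),
    fun β h => mul_left_cancel₀ two_ne_zero ?_⟩
  simp only [Finset.mul_sum, h.expand]
  rw [Finset.sum_comm, Finset.sum_comm (s := Finset.univ (α := Fin ((n + 1) / 2)))]
  refine Finset.sum_congr rfl fun p _ => ?_
  rw [Finset.sum_comm, Finset.sum_comm (s := Finset.univ (α := Fin ((n + 1) / 2)))]
  refine Finset.sum_congr rfl fun q _ => ?_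
  rw [← h.sum, ← h.sum, ← Finset.sum_smul, ← Finset.sum_smul, h2]

end Pool.Agent.Lib.MP_124863_gt.Ok
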