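import Pool.Agent.Lib.MP_124863_gt.OkMain
import Pool.Agent.Lib.MP_124863_gt.EcMan
import Pool.Agent.Lib.MP_124863_gt.OkSym
import Pool.Agent.Lib.MP_124863_gt.OkNbh
import Pool.Agent.Lib.MP_124863_gt.ElStmt

/-! Dominating sprays on Stein manifolds with semipositive curvature. -/

open scoped Manifold ContDiff Topology Bundle Matrix
open Set Filter Function Metric Complex Manifold MeasureTheory

namespace Pool.Agent.Lib.MP_124863_gt.Ok

open Ec

variable {n N : ℕ}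

theorem okman_alg (D : Cn n →L[ℝ] Cn n →L[ℝ] Bil n) (h1 : ∀ Y Z, D Y Z = D Z Y)
    (h2 : ∀ Y Z, IsH (D Y Z))
    (h3 : ∀ W u v x, D W u (I • v) x + D W v (I • x) u + D W x (I • u) v = 0)
    (h0 : ∀ Y σ : Fin ((n + 1) / 2) → Cn n,
      ∑ a, ∑ b, D (ee Y a) (ee Y b) (aa σ a) (aa σ b) ≤ 0) {J : Type} [Fintype J] (Y σ : J → Cn n) :
    ∑ a, ∑ b, D (ee Y a) (ee Y b) (aa σ a) (aa σ b) ≤ 0 := by
  have hII : ∀ u : Cn n, I • I • u = -u := fun u => by rw [smul_smul, I_mul_I, neg_one_smul]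
  have hT : ∀ W Y s x, D W Y s x - D W (I • Y) (I • s) x = D W s Y x - D W (I • s) (I • Y) x := by
    intro W Y s x
    have a1 := h3 W Y s (I • x)
    have a2 := h3 W (I • Y) (I • s) (I • x)
    simp only [hII, map_neg, neg_apply, (h2 _ _).inv] at a1 a2
    rw [(h2 W s).symm x Y] at a1
    rw [(h2 W (I • s)).symm x (I • Y)] at a2
    have a3 := (h2 W (I • Y)).skew s x
    have a4 := (h2 W (I • x)).skew Y s
    linarith
  let ρ : Cn n → Cn n → Cn n → Cn n → ℝ := fun Y s Z t =>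
    D Y Z s t - D Y (I • Z) s (I • t) - D (I • Y) Z (I • s) t + D (I • Y) (I • Z) (I • s) (I • t)
  have r1 : ∀ Y s Z t, ρ Y s Z t = ρ Z t Y s := fun Y s Z t => by
    simp only [ρ]
    rw [h1 Y Z, h1 Y (I • Z), h1 (I • Y) Z, h1 (I • Y) (I • Z), (h2 _ _).symm s t,
      (h2 _ _).symm s (I • t), (h2 _ _).symm (I • s) t, (h2 _ _).symm (I • s) (I • t)]
    ring
  have r2 : ∀ Z t, OkBil fun Y s => ρ Y s Z t := fun Z t => by
    refine ⟨fun x y s => ?_, fun r x s => ?_, fun x s => ?_, fun x s => ?_⟩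
    · simp only [ρ, smul_add, map_add, add_apply]
      ring
    · simp only [ρ, smul_comm I r, map_smul, smul_apply, smul_eq_mul]
      ring
    · have a1 := hT Z x s t
      have a2 := hT (I • Z) x s (I • t)
      simp only [ρ]
      rw [h1 x Z, h1 x (I • Z), h1 (I • x) Z, h1 (I • x) (I • Z), h1 s Z, h1 s (I • Z),
        h1 (I • s) Z, h1 (I • s) (I • Z)]
      linarith
    · simp only [ρ, hII, map_neg, neg_apply]
      ring
  obtain ⟨Y₀, s₀, hs⟩ := exists_products Y σ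
  have e1 : ∀ {J : Type} [Fintype J] (Y σ : J → Cn n), ∑ a, ∑ b,
      D (ee Y a) (ee Y b) (aa σ a) (aa σ b) = ∑ j, ∑ k, ρ (Y k) (σ k) (Y j) (σ j) := by
    intro J _ Y σ
    rw [Finset.sum_comm]
    simp only [Fintype.sum_prod_type, Fintype.sum_bool, ee, aa, cond_true, cond_false, map_neg,
      neg_apply, neg_neg, ← Finset.sum_add_distrib, ρ]
    exact Finset.sum_congr rfl fun j _ => Finset.sum_congr rfl fun k _ => by ring
  refine le_of_eq_of_le ?_ (h0 Y₀ s₀)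
  rw [e1, e1, Finset.sum_congr rfl fun j _ => hs _ (r2 (Y j) (σ j)), Finset.sum_comm]
  refine Finset.sum_congr rfl fun i _ => ?_
  simp only [r1 (Y₀ i)]
  exact hs _ (r2 _ _)

theorem dz_dzb {B : Cn n → Bil n} {z : Cn n} (h : ContDiffAt ℝ 2 B z) (Y Y' : Cn n) :
    (Matrix.of fun i j => dz Y (dzb Y' fun w => hm (B w) i j) z) =
      (1 / 4 : ℂ) • (hm (fderiv ℝ (fderiv ℝ B) z Y Y' + fderiv ℝ (fderiv ℝ B) z (I • Y) (I • Y')) +
        I • hm (fderiv ℝ (fderiv ℝ B) z Y (I • Y') - fderiv ℝ (fderiv ℝ B) z (I • Y) Y')) ∧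
    (fderiv ℝ B z = 0 → (Matrix.of fun i j => dzb Y' (fun w => hm (B w) i j) z) = 0) := by
  let E : Fin n → Fin n → Bil n →L[ℝ] ℂ := fun i j => LinearMap.toContinuousLinearMap (E := Bil n)
    ((Matrix.entryLinearMap ℝ ℂ i j).comp hm)
  have hE : ∀ i j A, hm A i j = E i j A := fun _ _ _ => rfl
  have d1 : ∀ i j w, DifferentiableAt ℝ B w → ∀ u, fderiv ℝ (fun w => hm (B w) i j) w u =
      hm (fderiv ℝ B w u) i j := fun i j w hw u => by
    rw [show (fun w => hm (B w) i j) = E i j ∘ B from rfl,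
      ((E i j).hasFDerivAt.comp w hw.hasFDerivAt).fderiv]; rfl
  have h1 : ∀ᶠ w in 𝓝 z, DifferentiableAt ℝ B w :=
    (h.eventually (by simp)).mono fun w hw => hw.differentiableAt (by simp)
  have h2 : DifferentiableAt ℝ (fderiv ℝ B) z :=
    (h.fderiv_right (m := 1) (by norm_num)).differentiableAt (by simp)
  refine ⟨?_, fun h0 => ?_⟩ <;> ext i j
  · have b1 : (dzb Y' fun w => hm (B w) i j) =ᶠ[𝓝 z] fun w =>
        (E i j (fderiv ℝ B w Y') + I * E i j (fderiv ℝ B w (I • Y'))) / 2 :=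
      h1.mono fun w hw => by simp only [dzb, d1 i j w hw, ← hE]
    have b2 := fun u => (E i j).hasFDerivAt.comp z (h2.hasFDerivAt.clm_apply (hasFDerivAt_const u z))
    have b3 := (((b2 Y').add ((b2 (I • Y')).const_mul I)).mul_const (2⁻¹ : ℂ)).fderiv
    simp only [Matrix.of_apply, dz, b1.fderiv_eq, div_eq_mul_inv]
    erw [b3]
    simp [hE]
    ring_nf
    simp
    ring
  · simp [dzb, d1 i j z h1.self_of_nhds, h0]

/-- Tensor semipositivity of a Kaehler metric gives Nakano semipositivity. -/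
theorem nak_of {B : Cn n → Bil n} (h : ContDiffAt ℝ 2 B 0) (hH : ∀ᶠ w in 𝓝 0, IsH (B w))
    (hc : ∀ᶠ w in 𝓝 0, ∀ u v x, fderiv ℝ B w u (I • v) x + fderiv ℝ B w v (I • x) u +
      fderiv ℝ B w x (I • u) v = 0) (hd : fderiv ℝ B 0 = 0) (h0 : ∀ X Y : Fin ((n + 1) / 2) → Cn n,
      0 ≤ (∑ i, ∑ j, curv (fun w => hm (B w)) 0 (X i) (X j) (Y i) (Y j)).re) : Nak B := by
  have h2 := (h.fderiv_right (m := 1) (by norm_num)).differentiableAt (by simp)
  have h3 : ∀ Y Z, IsH (fderiv ℝ (fderiv ℝ B) 0 Y Z) := fun Y Z => by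
    have a1 := h2.hasFDerivAt.clm_apply (hasFDerivAt_const Z 0)
    have a2 := IsH.fderiv (B := fun w => fderiv ℝ B w Z) (by
      filter_upwards [hH.eventually_nhds, h.eventually (by simp)] with w b1 b2
        using IsH.fderiv b1 (b2.differentiableAt (by simp)) Z) a1.differentiableAt Y
    rw [a1.fderiv] at a2
    simpa using a2
  intro J _ Y σ
  refine okman_alg _ (h.isSymmSndFDerivAt (by simp)) h3 (fun W u v x => ?_) (fun Y σ => ?_) Y σ
  · have a1 := fun u a b : Cn n => ((h2.hasFDerivAt.clm_apply (hasFDerivAt_const u 0)).clm_apply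
      (hasFDerivAt_const a 0)).clm_apply (hasFDerivAt_const b 0)
    have a2 := (((a1 u (I • v) x).add (a1 v (I • x) u)).add (a1 x (I • u) v)).unique
      ((hasFDerivAt_const (0 : ℝ) (0 : Cn n)).congr_of_eventuallyEq
        (hc.mono fun w hw => hw u v x))
    simpa using DFunLike.congr_fun a2 W
  · have a1 := h0 σ Y
    simp only [curv, (dz_dzb h _ _).1, (dz_dzb h 0 _).2 hd] at a1
    generalize fderiv ℝ (fderiv ℝ B) 0 = D at h3 a1
    simp only [mul_zero, add_zero, map_add, map_sub, Matrix.neg_mulVec, Matrix.smul_mulVec,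
      Matrix.add_mulVec, Matrix.sub_mulVec, dotProduct_neg, dotProduct_smul, dotProduct_add,
      dotProduct_sub, (h3 _ _).form, re_sum] at a1
    refine le_of_eq_of_le ?_ (mul_nonpos_of_nonpos_of_nonneg (by norm_num : (-4 : ℝ) ≤ 0) a1)
    simp only [Fintype.sum_prod_type, Fintype.sum_bool, ee, aa, cond_true, cond_false, map_neg,
      neg_apply, neg_neg, ← Finset.sum_add_distrib, Finset.mul_sum, (h3 _ _).inv]
    refine Finset.sum_congr rfl fun j _ => Finset.sum_congr rfl fun k _ => ?_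
    rw [(h3 _ _).skew]
    simp
    ring

variable {M : Type} [MetricSpace M] [ChartedSpace (Cn n) M]
  [Bundle.RiemannianBundle fun x : M => TangentSpace 𝓘(ℝ, Cn n) x] {ι : M → Cn N} {q : Cn N → M}
  {U : Set (Cn N)} [IsManifold 𝓘(ℂ, Cn n) ω M] [IsRiemannianManifold 𝓘(ℝ, Cn n) M]

theorem hasPath (hK : IsKaehler n M) (hι : ∀ x, HolAt (Cn n) (Cn N) ι x) (ho : IsOpen U)
    (hU : ∀ x, ι x ∈ U) (hq : ∀ z ∈ U, HolAt (Cn N) (Cn n) q z) (hl : ∀ x, q (ι x) = x) :
    HasPath ι (Gm n q) := by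
  intro x y r h
  obtain ⟨γ, g0, g1, g2, g3, -⟩ := exists_path n h
  have h2 : ∀ t, ContDiffAt ℝ 1 (ι ∘ γ) t := fun t => by
    set e := chartAt (Cn n) (γ t)
    have a1 : γ t ∈ e.source := mem_chart_source _ _
    have a2 : ∀ᶠ w in 𝓝 (e (γ t)), DifferentiableAt ℂ (ι ∘ e.symm) w :=
      (e.open_target.eventually_mem (e.map_source a1)).mono fun w hw =>
        (MDifferentiableAt.comp w (hι _) (chart_symm_diff hw)).differentiableAt
    have a3 : ContDiffAt ℝ 1 (e ∘ γ) t := (contMDiffAt_iff_target.1 (g2 t)).2.contDiffAt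
    refine (((contDiffAt_of_eventually a2 1).restrict_scalars ℝ).comp t a3).congr_of_eventuallyEq ?_
    filter_upwards [g2.continuous.continuousAt.eventually (e.open_source.eventually_mem a1)]
      with s hs
    simp only [comp_apply]
    rw [e.left_inv hs]
  have h3 := fun t => ((h2 t).differentiableAt one_ne_zero).hasDerivAt
  refine ⟨ι ∘ γ, deriv (ι ∘ γ), by simp [g0], by simp [g1], fun t => ⟨mem_range_self _, h3 t⟩,
    (contDiff_iff_contDiffAt.2 h2).continuous_deriv le_rfl, ?_⟩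
  rw [intervalIntegral.integral_of_le zero_le_one, ← integral_Icc_eq_integral_Ioc,
    ← ENNReal.ofReal_le_ofReal_iff (dist_nonneg.trans h.le)]
  refine (Real.ofReal_le_enorm _).trans ((enorm_integral_le_lintegral_enorm _).trans
    (le_of_eq_of_le ?_ g3.le))
  rw [pathELength_eq_lintegral_mfderiv_Icc]
  refine setLIntegral_congr_fun measurableSet_Icc fun t _ => ?_
  have h6 : q ∘ ι ∘ γ = γ := funext fun s => hl _
  have h7 := ((mdiff_real (hq _ (hU (γ t)))).hasMFDerivAt.comp t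
    (h3 t).hasFDerivAt.hasMFDerivAt).mfderiv
  rw [h6] at h7
  have key : ∀ (p p' : M) (v : Cn n), p = p' → ‖(show TangentSpace 𝓘(ℝ, Cn n) p from v)‖ₑ =
      ‖√(ip (n := n) p' v v)‖ₑ := by
    rintro p p' v rfl
    rw [Real.enorm_eq_ofReal (Real.sqrt_nonneg _), ← ofReal_norm, norm_eq_sqrt_real_inner]
    rfl
  refine ((key _ _ _ (hl (γ t)).symm).trans ?_).symm
  rw [h7]
  change ‖√(ip (n := n) (q (ι (γ t)))
    (mfderiv 𝓘(ℝ, Cn N) 𝓘(ℝ, Cn n) q (ι (γ t)) ((1 : ℝ) • deriv (ι ∘ γ) t))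
    (mfderiv 𝓘(ℝ, Cn N) 𝓘(ℝ, Cn n) q (ι (γ t)) ((1 : ℝ) • deriv (ι ∘ γ) t)))‖ₑ = _
  rw [one_smul]; rfl

omit [IsManifold 𝓘(ℂ, Cn n) ω M] [IsRiemannianManifold 𝓘(ℝ, Cn n) M] in
theorem bisec_of (hR : TensorSemipositive ((n + 1) / 2) n M) : NonnegBisec n M := by
  intro f z hf X Y
  rcases n.eq_zero_or_pos with rfl | hn
  · simp [bisec, Subsingleton.elim X 0]
  have i0 : Fin ((n + 1) / 2) := ⟨0, by omega⟩
  have := hR f z hf (Pi.single i0 X) fun _ => Y
  rw [Finset.sum_eq_single i0 (fun i _ hi => by simp [curv, hi]) (by simp),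
    Finset.sum_eq_single i0 (fun i _ hi => by simp [curv, hi]) (by simp), Pi.single_eq_same] at this
  exact this

theorem hasNak (hK : IsKaehler n M) (hR : TensorSemipositive ((n + 1) / 2) n M)
    (hι : ∀ x, HolAt (Cn n) (Cn N) ι x) (ho : IsOpen U) (hU : ∀ x, ι x ∈ U)
    (hq : ∀ z ∈ U, HolAt (Cn N) (Cn n) q z) (hl : ∀ x, q (ι x) = x) :
    HasNak n ι q U (Gm n q) := by
  intro z hz
  obtain ⟨f, f1, f2, f3⟩ := hK.exists_normal (q z)
  obtain ⟨κ, k1, k2, k3⟩ := f1.inv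
  have k0 := k1.self_of_nhds
  rw [f2] at k0 k2 k3
  have c1 := (hq z hz).continuousAt
  have c2 : ∀ᶠ x in 𝓝 z, HolAt (Cn N) (Cn n) (κ ∘ q) x :=
    ((ho.eventually_mem hz).and (c1.eventually k3.1)).mono fun x hx => hx.2.comp x (hq x hx.1)
  have c3 : ∀ᶠ x in 𝓝 z, HolAt (Cn n) (Cn n) f (κ (q x)) :=
    c2.self_of_nhds.continuousAt.eventually (p := HolAt (Cn n) (Cn n) f)
      (by rw [comp_apply, k0]; exact f1.1)
  have c4 : ∀ᶠ x in 𝓝 z, q x = (f ∘ κ ∘ q) x := (c1.eventually k2).mono fun x hx => hx.symm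
  have c5 := lap_nonpos (hK.two f1) (f1.eventually.mono fun w hw => hK.isH hw) f3
    (bisec_of hR f 0 f1)
  refine ⟨κ ∘ q, ι ∘ f, Bm f, ⟨c2.mono fun x hx => hx.differentiableAt, k0,
    f1.1.mono fun y hy => ((hι _).comp y hy).differentiableAt, k1.mono fun y hy => by simp [hl, hy],
    c4.mono fun x hx => congrArg ι hx.symm, hK.two f1, hK.isH f1, fun v => Bm_pos f1, f3,
    c5, ?_⟩, nak_of (hK.two f1) (f1.eventually.mono fun w hw => hK.isH hw)
      (f1.eventually.mono fun w hw => hK.cyc hw) f3 (hR f 0 f1)⟩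
  filter_upwards [ho.mem_nhds hz, c2, c3, c4.eventually_nhds] with x a1 a2 a3 a4 u v
  rw [Gm_apply (hq x a1), md_congr a4, md_comp (f := κ ∘ q) a3 a2, md_comp (f := κ ∘ q) a3 a2,
    md_flat, a4.self_of_nhds]
  exact (Gm_apply a3 _ _).symm

theorem main [CompleteSpace M] (hK : IsKaehler n M) (hR : TensorSemipositive ((n + 1) / 2) n M)
    (hS : Stein n M) : Elliptic n M := by
  obtain ⟨N, ι, U, q, hι, hcl, ho, hU, hq, hl⟩ := hS
  have := properSpace n M
  have h := data hK (bisec_of hR) hι hcl ho hU hq hl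
  obtain ⟨p, p1, p2, p3, p4⟩ := exists_nbhd hcl ho h.sub (g := fun z => z - ι (q z))
    (differentiableOn_id.sub h.hol) fun z _ =>
      ⟨fun h0 => ⟨_, (sub_eq_zero.1 h0).symm⟩, fun h0 => sub_eq_zero.2 (h.fix h0).symm⟩
  obtain ⟨F, hF⟩ := sprays h (hasNak hK hR hι ho hU hq hl) (hasPath hK hι ho hU hq hl) p1 p2
    (B := {z | p z < 1}) (fun _ => Iff.rfl) (f := ι ∘ q) fun b hb =>
      ⟨h.hol.differentiableAt (ho.mem_nhds (p4 b hb)), mem_range_self _⟩
  refine ⟨N, fun z => q (F (ι z.1, z.2)), fun z => ?_, fun x => ?_⟩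
  · obtain ⟨-, -, a3⟩ := hF (ι z.1) (p3 _ (mem_range_self _))
    exact MDifferentiableAt.comp (g := q) (f := F ∘ fun z : M × Cn N => (ι z.1, z.2)) z
      (hq _ (h.sub (a3 z.2).2)) ((a3 z.2).1.mdifferentiableAt.comp z
        ((MDifferentiableAt.comp z (hι z.1) mdifferentiableAt_fst).prodMk_space
          mdifferentiableAt_snd))
  obtain ⟨a1, a2, a3⟩ := hF (ι x) (p3 _ (mem_range_self _))
  simp only [comp_apply, hl] at a1 a2
  refine ⟨by simp [a1, hl], fun u => ⟨md (Cn n) (Cn N) ι x u, ?_⟩⟩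
  have b1 : DifferentiableAt ℂ (fun w => F (ι x, w)) 0 :=
    (a3 0).1.comp 0 ((differentiableAt_const _).prodMk differentiableAt_id)
  have b2 := md_left hι (fun x => hq _ (hU x)) hl x u
  have b3 := md_comp (g := q) (f := fun w => F (ι x, w)) (x := (0 : Cn N))
    (hq _ (h.sub (a3 0).2)) b1.mdifferentiableAt (md (Cn n) (Cn N) ι x u)
  rw [md_flat, a2, a1, ← md_flat, md_comp (hι _) (hq _ (hU _)), b2, hl, b2] at b3
  exact b3

end Pool.Agent.Lib.MP_124863_gt.Ok
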