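import Pool.Agent.Lib.MP_124863_gt.OkNbh

/-! The boundary distance is plurisubharmonic. -/

open Filter Topology Set Metric Complex MeasureTheory
open scoped Real ENNReal Matrix

namespace Pool.Agent.Lib.MP_124863_gt.Ok

open Ec Pool.Agent.Lib.MP_45f16c_ag

variable {n N : ℕ} {M : Type} [MetricSpace M] {ι : M → Cn N} {q : Cn N → M} {U : Set (Cn N)}
  {G : Cn N → Bil N}

/-- The boundary estimate without source term. -/
theorem tak_bd {H : ℂ → Bil N} {P : ℂ → Cn N →L[ℂ] Cn N} {R : ℝ} {T : ℂ → Cn N} (h : Fam R H P T)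
    (R0 : 0 < R) {Λ : Bd N R →L[ℂ] ℂ} {l μ A ε t : ℝ} (hA : 0 < A)
    (hΛ : ∀ y : ℂ → Cn N, DiffContOnCl ℂ y (ball 0 R) → y 0 = 0 → ∀ g : Bd N R,
      (∀ ζ, g ζ = y ζ) → Λ g + μ * el H T (fun _ => 0) y = 0)
    (hl : ∀ g t, 0 < t → (∀ ζ, H ζ.1 (g ζ) (g ζ) ≤ t ^ 2) → A * (Λ g).re ≤ l * t) (hε : 0 < ε)
    (ht : 1 + R ^ 2 < t) :
    ∃ ρ ∈ Ico 0 R, mean (uu H P (al H T (fun _ => 0) Λ μ) ε) ρ ≤ 2 * π * (l / A * t + ε) := by
  have hb : ContDiff ℝ 2 fun _ : ℂ => (0 : ℂ) := contDiff_const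
  have hR : R / 2 < R := half_lt_self R0
  have h0 : ∀ w : ℂ, R / 2 ≤ ‖w‖ → (fun _ : ℂ => (0 : ℂ)) w = 0 := fun _ _ => rfl
  have t0 : 0 < t := lt_trans (by positivity) ht
  obtain ⟨η, η0, hη⟩ : ∃ η : ℝ, 0 < η ∧ (1 + R ^ 2) ^ 2 + η + η = t ^ 2 :=
    ⟨(t ^ 2 - (1 + R ^ 2) ^ 2) / 2, by
      have := pow_lt_pow_left₀ ht (by positivity) two_ne_zero
      linarith, by ring⟩
  obtain ⟨m, m0, hm⟩ := bil_lower (isCompact_closedBall 0 R) h.ht_cont fun z hz => h.ht_pos hz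
  set D := (1 + R ^ 2) ^ 2 / m with hD
  have D0 : 0 < D := by positivity
  obtain ⟨C, C0, hC⟩ := unif_quad (isCompact_closedBall 0 R) h.cH (η := η / D) (by positivity)
  obtain ⟨ρ, ⟨ρ0, ρ4⟩, ρ5⟩ := ((((lt_mem_nhds R0).and
      ((show ContinuousAt (fun ρ => C * D * (R ^ 2 - ρ ^ 2)) R by fun_prop).eventually
        (gt_mem_nhds (show C * D * (R ^ 2 - R ^ 2) < η by simpa using η0)))).filter_mono
    (nhdsWithin_le_nhds (s := Iio R))).and self_mem_nhdsWithin).exists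
  replace ρ5 : ρ < R := ρ5
  have ρ6 : ρ ∈ Ioo (-R) R := ⟨by linarith, ρ5⟩
  have ρ7 : R < R ^ 2 / ρ := by rw [lt_div_iff₀ ρ0]; nlinarith
  refine ⟨ρ, ⟨ρ0.le, ρ5⟩, ?_⟩
  set α := al H T (fun _ => 0) Λ μ with hα
  have w1 := cm_mem ρ6
  have w2 := fun θ => ball_subset_closedBall (w1 θ)
  have w3 : ∀ θ, ‖cm ρ θ‖ = ρ := fun θ => by rw [norm_cm, abs_of_pos ρ0]
  have s1 := fun z hz => (h.al_smooth hb hR h0 Λ μ (z := z) hz).1
  have u1 : ∀ θ, 0 < uu H P α ε (cm ρ θ) := fun θ => Real.sqrt_pos.2 (by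
    have := h.fn_nonneg (α := α) (w2 θ); positivity)
  have u2 : ∀ θ, uu H P α ε (cm ρ θ) ^ 2 =
      (1 + ρ ^ 2) ^ 2 * fn P α (cm ρ θ) (dv H P α (cm ρ θ)) + ε ^ 2 := fun θ => by
    have := h.fn_nonneg (α := α) (w2 θ)
    rw [uu, Real.sq_sqrt (by positivity), w3]
  have u3 : Continuous fun θ => uu H P α ε (cm ρ θ) := continuous_on_circle
    (fun z hz => (h.uu_smooth hz (s1 z hz) hε).continuousAt.continuousWithinAt) ρ6
  set d : ℝ → Cn N := fun θ => ((1 + ρ ^ 2) ^ 2 / uu H P α ε (cm ρ θ)) • dv H P α (cm ρ θ) with hd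
  have d1 : Continuous d := (continuous_const.div u3 fun θ => (u1 θ).ne').smul (continuous_on_circle
    (fun z hz => (h.dv_smooth hz (s1 z hz)).2.continuousAt.continuousWithinAt) ρ6)
  have d2 : ∀ θ, P (cm ρ θ) (d θ) = d θ := fun θ => by
    rw [hd, (P _).map_smul_of_tower, h.P_dv (w2 θ)]
  have d3 : ∀ θ, H (cm ρ θ) (d θ) (d θ) ≤ (1 + R ^ 2) ^ 2 := fun θ => by
    simp only [hd, map_smul, smul_apply, smul_eq_mul, h.H_dv (w2 θ)]
    rw [← mul_assoc, div_mul_div_comm, div_mul_eq_mul_div, div_le_iff₀ (mul_pos (u1 θ) (u1 θ)),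
      ← sq (uu _ _ _ _ _), u2, mul_assoc]
    have := h.fn_nonneg (α := α) (w2 θ)
    gcongr
    exact le_add_of_nonneg_right (by positivity)
  have d4 : ∀ θ, ‖d θ‖ ^ 2 ≤ D := fun θ => by
    have := hm _ (w2 θ) (d θ)
    rw [ht_apply, d2, sub_self, map_zero, add_zero] at this
    rw [hD, le_div_iff₀ m0]
    linarith [d3 θ]
  have p0 : ∀ (ζ : sphere (0 : ℂ) R) θ, 0 < ‖ζ.1 - cm ρ θ‖ := fun ζ θ =>
    norm_pos_iff.2 fun e => by
      have := w3 θ
      rw [← sub_eq_zero.1 e, norm_eq_of_mem_sphere] at this; linarith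
  have p1 : Continuous fun q : ℝ × sphere (0 : ℂ) R => (R ^ 2 - ρ ^ 2) / ‖q.2.1 - cm ρ q.1‖ ^ 2 :=
    continuous_const.div (by fun_prop) fun q => (pow_pos (p0 _ _) 2).ne'
  let G : ℝ → Bd N R := fun θ => ⟨fun ζ => ((R ^ 2 - ρ ^ 2) / ‖ζ.1 - cm ρ θ‖ ^ 2) • d θ,
    (p1.comp (Continuous.prodMk_right θ)).smul continuous_const⟩
  have G1 : Continuous G := ContinuousMap.continuous_of_continuous_uncurry G
    (p1.smul (d1.comp continuous_fst))
  have G2 : ∀ θ, uu H P α ε (cm ρ θ) ≤ (Λ (G θ)).re + ε := fun θ => by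
    have a1 : uu H P α ε (cm ρ θ) ≤ fn P α (cm ρ θ) (d θ) + ε := by
      refine le_of_mul_le_mul_left ?_ (u1 θ)
      have : ε ≤ uu H P α ε (cm ρ θ) := Real.le_sqrt_of_sq_le (le_add_of_nonneg_left (by
        have := h.fn_nonneg (α := α) (w2 θ); positivity))
      rw [← sq, u2, hd, map_smul, smul_eq_mul, mul_add, ← mul_assoc, mul_div_cancel₀ _ (u1 θ).ne']
      nlinarith
    have a2 : R < ‖cm (R ^ 2 / ρ) θ‖ := by rwa [norm_cm, abs_of_pos (R0.trans ρ7)]
    have a3 : G θ = sm (d θ) (kk R (cm ρ θ)) - sm (d θ) (kk R (cm (R ^ 2 / ρ) θ)) := by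
      ext1 ζ
      rw [ContinuousMap.sub_apply, sm_apply, sm_apply, kk_apply a2.ne',
        kk_apply (by rw [w3]; exact ρ5.ne), ← sub_smul,
        poisson_ker ρ0 ρ5 (norm_eq_of_mem_sphere ζ), coe_smul]
      rfl
    have a4 : ∀ w, (fun i => CI (ps H T (fun _ => 0) i) w) = 0 := fun w => by
      ext i; simp [CI, ps]
    have a7 : fn P α (cm ρ θ) (d θ) = (Λ (G θ)).re := by
      rw [fn_apply, d2, ← sub_zero (α _), ← al_out h hR h0 hΛ a2, hα, al, al, a3, map_sub,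
        ← dot_sm, ← dot_sm, a4, a4]
      simp only [dotProduct_sub, smul_zero, add_zero]
    linarith
  have G3 := hl (∫ θ in 0..2 * π, G θ) (2 * π * t) (by positivity) fun ζ => by
    rw [← ContinuousMap.evalCLM_apply ℝ, ← (ContinuousMap.evalCLM ℝ ζ).intervalIntegral_comp_comm
      (G1.intervalIntegrable _ _)]
    refine (jensen (h.isH _ (mem_cb ζ)).symm (h.nn _ (mem_cb ζ))
      (p := fun θ => (R ^ 2 - ρ ^ 2) / ‖ζ.1 - cm ρ θ‖ ^ 2)
      (p1.comp (Continuous.prodMk_left ζ)) d1 (fun θ => div_nonneg (by nlinarith) (sq_nonneg _))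
      (poisson_int ρ0.le ρ5 (norm_eq_of_mem_sphere ζ)) (c := (1 + R ^ 2) ^ 2 + η) (e := η)
      fun θ => ?_).trans (by rw [mul_pow (2 * π) t, hη])
    have a1 := (le_abs_self _).trans ((H ζ - H (cm ρ θ)).le_opNorm₂ (d θ) (d θ))
    rw [mul_assoc, ← sq] at a1
    have a2 := mul_le_mul (hC _ (mem_cb ζ) _ (w2 θ)) (d4 θ) (sq_nonneg _) (by positivity)
    rw [add_mul, div_mul_cancel₀ _ D0.ne'] at a2
    have a3 : 0 ≤ (R ^ 2 - ρ ^ 2) / ‖ζ.1 - cm ρ θ‖ ^ 2 := div_nonneg (by nlinarith) (sq_nonneg _)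
    have a4 := mul_le_mul_of_nonneg_left (show H ζ (d θ) (d θ) ≤
      (1 + R ^ 2) ^ 2 + η + C * ‖ζ.1 - cm ρ θ‖ ^ 2 * D by
        simp only [sub_apply] at a1; linarith [d3 θ]) a3
    have a5 : (R ^ 2 - ρ ^ 2) / ‖ζ.1 - cm ρ θ‖ ^ 2 * (C * ‖ζ.1 - cm ρ θ‖ ^ 2 * D) =
      C * D * (R ^ 2 - ρ ^ 2) := by have := p0 ζ θ; field_simp
    linarith
  have G4 := (reCLM.comp (Λ.restrictScalars ℝ)).intervalIntegral_comp_comm
    (G1.intervalIntegrable (μ := volume) 0 (2 * π))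
  have G5 := intervalIntegral.integral_mono_on (μ := volume) (a := 0) (b := 2 * π) (by positivity)
    (u3.intervalIntegrable _ _) (Continuous.intervalIntegrable (by fun_prop) _ _) fun θ _ => G2 θ
  rw [intervalIntegral.integral_add (Continuous.intervalIntegrable (by fun_prop) _ _)
    intervalIntegrable_const, intervalIntegral.integral_const] at G5
  erw [G4] at G5
  rw [← le_div_iff₀' hA] at G3
  refine G5.trans ((add_le_add_left G3 _).trans_eq ?_)
  simp only [sub_zero, smul_eq_mul]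
  ring

/-- The sharp dual estimate. -/
theorem dual0 {H : ℂ → Bil N} {P : ℂ → Cn N →L[ℂ] Cn N} {R : ℝ} {T : ℂ → Cn N} (h : Fam R H P T)
    (hR : 0 < R) {a : Cn N} (ha : P 0 a = a) {A : ℝ} (hA : 0 < A)
    (h1 : H 0 a a * (1 + R ^ 2) ^ 2 < A ^ 2) : ∃ y, DiffContOnCl ℂ y (ball 0 R) ∧ y 0 = a ∧
      ∀ ζ ∈ sphere 0 R, H ζ (y ζ) (y ζ) < A ^ 2 := by
  by_contra hn
  have hb : ContDiff ℝ 2 fun _ : ℂ => (0 : ℂ) := contDiff_const
  have hR' : R / 2 < R := half_lt_self hR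
  have h0 : ∀ w : ℂ, R / 2 ≤ ‖w‖ → (fun _ : ℂ => (0 : ℂ)) w = 0 := fun _ _ => rfl
  obtain ⟨Λ, l, μ, l0, μ0, k1, k2, k3, k4⟩ := h.sep hb.continuous hR' h0 hA one_pos (a := a)
    fun ⟨y, y1, y2, y3, _⟩ => hn ⟨y, y1, y2, y3⟩
  have z0 : (0 : ℂ) ∈ closedBall 0 R := mem_closedBall_self hR.le
  have s1 := fun z hz => h.al_smooth hb hR' h0 Λ μ (z := z) hz
  obtain ⟨t, t1, t2⟩ := ((((show ContinuousAt (fun t : ℝ => H 0 a a * t ^ 2) (1 + R ^ 2) by
    fun_prop).eventually (gt_mem_nhds h1)).filter_mono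
      (nhdsWithin_le_nhds (s := Ioi (1 + R ^ 2)))).and self_mem_nhdsWithin).exists
  replace t2 : 1 + R ^ 2 < t := t2
  have t0 : 0 < t := lt_trans (by positivity) t2
  have t3 : √(H 0 a a) * t < A := by
    refine lt_of_pow_lt_pow_left₀ 2 hA.le ?_
    rwa [mul_pow, Real.sq_sqrt (h.nn 0 z0 a)]
  have key : l + μ * 1 ≤ l / A * t * √(H 0 a a) := by
    refine le_of_forall_small one_pos (k := √(H 0 a a)) fun ε hε => ?_
    have hε := hε.1
    obtain ⟨ρ, hρ, b1⟩ := tak_bd h hR hA k2 k3 hε t2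
    have b2 := le_mean (fun z hz => h.uu_smooth hz (s1 z hz).1 hε) (fun z hz => by
      have a1 := h.kato hz (s1 z hz).1 (m := fun _ => 0) (differentiableAt_const _) le_rfl hε
        ((isOpen_ball.eventually_mem hz).mono fun w hw i => by rw [(s1 w hw).2]; simp)
      have a2 : ε ≤ uu H P (al H T (fun _ => 0) Λ μ) ε z :=
        Real.le_sqrt_of_sq_le (le_add_of_nonneg_left (by
          have := h.fn_nonneg (α := al H T (fun _ => 0) Λ μ) (ball_subset_closedBall hz)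
          positivity))
      have a3 := mul_le_mul_of_nonneg_left a2 (show 0 ≤ 4 / (1 + ‖z‖ ^ 2) ^ 2 by positivity)
      rw [mul_zero, zero_mul, add_zero, mul_div_right_comm] at a1
      linarith) hρ
    have b7 := le_of_mul_le_mul_left (b2.trans b1) (show 0 < 2 * π by positivity)
    have b8 := h.fn_le (α := al H T (fun _ => 0) Λ μ) z0 a
    rw [fn_apply, ha, h.al_zero hb.continuous hR' hR h0, k4] at b8
    have b9 := b8.trans (mul_le_mul_of_nonneg_right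
      (show _ ≤ uu H P (al H T (fun _ => 0) Λ μ) ε 0 from Real.sqrt_le_sqrt (by
        simp; positivity)) (Real.sqrt_nonneg _))
    linarith [mul_le_mul_of_nonneg_right b7 (Real.sqrt_nonneg (H 0 a a))]
  have e : l / A * t * √(H 0 a a) = l * (√(H 0 a a) * t / A) := by ring
  have h4 := (div_lt_one hA).2 t3
  rw [e] at key
  rcases l0.eq_or_lt with rfl | l0
  · linarith
  · nlinarith

/-- One step of the motion of a disc along a path. -/
theorem tak_step (h : Data n ι q U G) {R : ℝ} (hR : 0 < R) {γ : ℝ → Cn N} {a : Cn N} {t : ℝ}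
    (h1 : ∀ u, γ u ∈ range ι) (h2 : HasDerivAt γ a t) {s : ℝ → ℝ} {σ : ℝ} (h3 : HasDerivAt s σ t)
    (h4 : √(G (γ t) a a) * (1 + R ^ 2) < σ) {e : ℂ → ℂ} (he : Differentiable ℂ e) (e0 : e 0 = 1)
    (e1 : ∀ w, e w ≠ 0) {Z : ℂ → Cn N} (hZ : Dsc ι R Z) (z0 : Z 0 = γ t) :
    ∀ᶠ τ : ℝ in 𝓝[>] 0, ∃ Z', Dsc ι R Z' ∧ Z' 0 = γ (t + τ) ∧
      ∀ w ∈ sphere 0 R, dist (q (Z w)) (q (Z' w)) ≤ ‖e w‖ * (s (t + τ) - s t) := by
  have hf := h.fam hZ
  obtain ⟨A, A1, A2⟩ := exists_between h4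
  have A0 : 0 < A := lt_of_le_of_lt (by positivity) A1
  have hU : γ t ∈ U := h.sub (h1 t)
  have ha : fderiv ℂ (ι ∘ q) (Z 0) a = a := by
    have a1 := ((h.hol.differentiableAt (h.isOpen.mem_nhds hU)).hasFDerivAt.restrictScalars
      ℝ).comp_hasDerivAt t h2
    rw [show (ι ∘ q) ∘ γ = γ from funext fun u => h.fix (h1 u)] at a1
    rw [z0]
    exact a1.unique h2
  obtain ⟨y, y1, y2, y3⟩ := dual0 hf hR ha A0 (by
    have a1 := pow_lt_pow_left₀ A1 (by positivity) two_ne_zero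
    rwa [mul_pow, Real.sq_sqrt (h.nonneg hU a), ← z0] at a1)
  have hY : DiffContOnCl ℂ (fun w => e w • y w) (ball 0 R) := he.diffContOnCl.smul y1
  have e4 : ∀ w ∈ sphere (0 : ℂ) R, G (Z w) (e w • y w) (e w • y w) < (‖e w‖ * A) ^ 2 :=
    fun w hw => by
      rw [isH_smul (hf.isH w (sphere_subset_closedBall hw)), mul_pow]
      exact mul_lt_mul_of_pos_left (y3 w hw) (pow_pos (norm_pos_iff.2 (e1 w)) 2)
  have e6 : (fun w => e w • y w) 0 = a := by simp [e0, y2]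
  generalize hYy : (fun w => e w • y w) = Y at hY e6
  have eY : ∀ w, e w • y w = Y w := congrFun hYy
  simp only [eY] at e4
  have c1 : ContinuousOn (fun p : (ℝ × Cn N) × ℂ => Y p.2 + p.1.2) (univ ×ˢ closedBall 0 R) :=
    (hY.continuousOn_ball.comp continuousOn_snd fun p hp => hp.2).add (by fun_prop)
  have c2 : ContinuousOn (fun p : (ℝ × Cn N) × ℂ => Z p.2 + p.1.1 • (Y p.2 + p.1.2))
      (univ ×ˢ closedBall 0 R) :=
    (hZ.hol.continuousOn_ball.comp continuousOn_snd fun p hp => hp.2).add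
      ((show ContinuousOn (fun p : (ℝ × Cn N) × ℂ => p.1.1) _ by fun_prop).smul c1)
  have E1 := (isCompact_closedBall (0 : ℂ) R).eventually_forall_of_forall_eventually
    (x₀ := ((0, 0) : ℝ × Cn N))
    (P := fun x w => w ∈ closedBall 0 R → Z w + x.1 • (Y w + x.2) ∈ U) fun w hw => by
      have := (c2 ((0, 0), w) ⟨trivial, hw⟩).eventually (h.isOpen.mem_nhds (by
        simpa using h.sub (hZ.mem w hw)))
      exact (eventually_nhdsWithin_iff.1 this).mono fun p hp h1 => hp ⟨trivial, h1⟩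
  have E2 := (isCompact_sphere (0 : ℂ) R).eventually_forall_of_forall_eventually
    (x₀ := ((0, 0) : ℝ × Cn N))
    (P := fun x w => w ∈ closedBall 0 R →
      G (Z w + x.1 • (Y w + x.2)) (Y w + x.2) (Y w + x.2) < (‖e w‖ * A) ^ 2) fun w hw => by
      have hw' := sphere_subset_closedBall hw
      have a1 := ((ContinuousAt.comp_continuousWithinAt
        (f := fun p : (ℝ × Cn N) × ℂ => Z p.2 + p.1.1 • (Y p.2 + p.1.2))
        (h.two (by simpa using h.sub (hZ.mem w hw'))).continuousAt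
        (c2 ((0, 0), w) ⟨trivial, hw'⟩)).clm_apply (c1 ((0, 0), w) ⟨trivial, hw'⟩)).clm_apply
          (c1 ((0, 0), w) ⟨trivial, hw'⟩)
      have a2 : ContinuousWithinAt (fun p : (ℝ × Cn N) × ℂ => (‖e p.2‖ * A) ^ 2)
          (univ ×ˢ closedBall 0 R) ((0, 0), w) :=
        ((((he.continuous.comp continuous_snd).norm.mul continuous_const).pow 2).continuousAt
          ).continuousWithinAt
      have := Tendsto.eventually_lt a1 a2 (by simpa using e4 w hw)
      exact (eventually_nhdsWithin_iff.1 this).mono fun p hp h1 => hp ⟨trivial, h1⟩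
  obtain ⟨ε, hε, E3⟩ := eventually_nhds_iff_ball.1 (E1.and E2)
  have E4 : ∀ᶠ τ : ℝ in 𝓝[>] 0, τ⁻¹ • (γ (t + τ) - γ t) - a ∈ ball (0 : Cn N) ε := by
    have := h2.tendsto_slope_zero_right.sub_const a
    rw [sub_self] at this
    exact this.eventually (ball_mem_nhds _ hε)
  filter_upwards [h3.tendsto_slope_zero_right.eventually (lt_mem_nhds A2), Ioo_mem_nhdsGT hε, E4]
    with τ a1 a2 a0
  have a7 : γ t + τ • (a + (τ⁻¹ • (γ (t + τ) - γ t) - a)) = γ (t + τ) := by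
    rw [add_sub_cancel, smul_inv_smul₀ a2.1.ne', add_sub_cancel]
  generalize τ⁻¹ • (γ (t + τ) - γ t) - a = v at a0 a7
  have a3 : ∀ u ∈ Icc 0 τ, (u, v) ∈ ball ((0, 0) : ℝ × Cn N) ε := fun u hu => by
    rw [← ball_prod_same]
    refine ⟨?_, a0⟩
    rw [mem_ball_zero_iff, Real.norm_of_nonneg hu.1]
    exact hu.2.trans_lt a2.2
  have a4 := fun w hw => (E3 _ (a3 τ ⟨a2.1.le, le_rfl⟩)).1 w hw hw
  have a5 : DiffContOnCl ℂ (fun w => Z w + τ • (Y w + v)) (ball 0 R) :=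
    hZ.hol.add ((hY.add diffContOnCl_const).const_smul τ)
  refine ⟨fun w => ι (q (Z w + τ • (Y w + v))), ⟨.mk_ball
    (h.hol.comp a5.differentiableOn fun w hw => a4 w (ball_subset_closedBall hw))
    (h.hol.continuousOn.comp a5.continuousOn_ball a4), fun w _ => mem_range_self _⟩, ?_,
    fun w hw => ?_⟩
  · simp only [z0, e6, a7]
    exact h.fix (h1 _)
  · have hw' := sphere_subset_closedBall hw
    have := h.len (fun u => Z w + u • (Y w + v)) (fun _ => Y w + v) (fun _ => ‖e w‖ * A) 0 τ a2.1.le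
      (fun u hu => ⟨(E3 _ (a3 u hu)).1 w hw' hw', by
        simpa using ((hasDerivAt_id u).smul_const (Y w + v)).const_add (Z w),
        Real.sqrt_le_iff.2 ⟨by positivity, ((E3 _ (a3 u hu)).2 w hw hw').le⟩⟩)
      continuousOn_const continuousOn_const
    rw [smul_eq_mul, lt_inv_mul_iff₀ a2.1] at a1
    rw [zero_smul, add_zero, intervalIntegral.integral_const, sub_zero, smul_eq_mul] at this
    rw [h.left]
    nlinarith [mul_le_mul_of_nonneg_left a1.le (norm_nonneg (e w))]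

/-- The motion of a disc along a path. -/
theorem tak_flow [ProperSpace M] (h : Data n ι q U G) {R : ℝ} (hR : 0 < R) {γ : ℝ → Cn N}
    (cγ : Continuous γ) {s : ℝ → ℝ} (cs : Continuous s) (ms : Monotone s) {g : ℂ → ℝ} {C : ℝ}
    (hg : ∀ w ∈ sphere (0 : ℂ) R, g w ≤ C) (C0 : 0 ≤ C)
    (st : ∀ Z t, Dsc ι R Z → Z 0 = γ t → ∀ᶠ τ : ℝ in 𝓝[>] 0, ∃ Z', Dsc ι R Z' ∧
      Z' 0 = γ (t + τ) ∧ ∀ w ∈ sphere 0 R, dist (q (Z w)) (q (Z' w)) ≤ g w * (s (t + τ) - s t))
    {Z₀ : ℂ → Cn N} (hZ : Dsc ι R Z₀) (h0 : Z₀ 0 = γ 0) : ∃ Z, Dsc ι R Z ∧ Z 0 = γ 1 ∧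
      ∀ w ∈ sphere 0 R, dist (q (Z₀ w)) (q (Z w)) ≤ g w * (s 1 - s 0) := by
  let X := {p : (ℂ → Cn N) × ℝ // Dsc ι R p.1 ∧ p.1 0 = γ p.2 ∧ p.2 ≤ 1}
  obtain ⟨⟨⟨Z, t⟩, z1, z2, z4⟩, z5, hm⟩ := exists_max (X := X)
    (r := fun p p' => p.1.2 ≤ p'.1.2 ∧ ∀ w ∈ sphere 0 R, dist (q (p.1.1 w)) (q (p'.1.1 w)) ≤
      g w * (s p'.1.2 - s p.1.2))
    (fun p => by simp) (fun p p' p'' a1 a2 => ⟨a1.1.trans a2.1, fun w hw => by
      linarith [a1.2 w hw, a2.2 w hw, dist_triangle (q (p.1.1 w)) (q (p'.1.1 w)) (q (p''.1.1 w))]⟩)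
    (t := fun p => p.1.2) (fun p => p.2.2.2) (fun _ _ h => h.1)
    (fun u hu => by
      have m1 : Monotone fun k => (u k).1.2 := monotone_nat_of_le_succ fun k => (hu k).1
      have m2 : ∀ k l, k ≤ l → ∀ w ∈ sphere 0 R, dist (q ((u k).1.1 w)) (q ((u l).1.1 w)) ≤
          g w * (s (u l).1.2 - s (u k).1.2) := fun k l hkl => by
        induction l, hkl using Nat.le_induction with
        | base => simp
        | succ l _ ih =>
          intro w hw
          linarith [ih w hw, (hu l).2 w hw,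
            dist_triangle (q ((u k).1.1 w)) (q ((u l).1.1 w)) (q ((u (l + 1)).1.1 w))]
      have m3 : ∀ k l, k ≤ l → ∀ w ∈ sphere 0 R, dist (q ((u k).1.1 w)) (q ((u l).1.1 w)) ≤
          C * (s (u l).1.2 - s (u k).1.2) := fun k l hkl w hw => (m2 k l hkl w hw).trans
        (mul_le_mul_of_nonneg_right (hg w hw) (sub_nonneg.2 (ms (m1 hkl))))
      have b1 : BddAbove (range fun k => (u k).1.2) := ⟨1, by rintro _ ⟨k, rfl⟩; exact (u k).2.2.2⟩
      have t1 := tendsto_atTop_ciSup m1 b1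
      have t2 := (cs.tendsto _).comp t1
      obtain ⟨C₁, hC⟩ := ((isCompact_sphere (0 : ℂ) R).image_of_continuousOn
        (h.cq.comp ((u 0).2.1.hol.continuousOn_ball.mono sphere_subset_closedBall) fun w hw =>
          h.sub ((u 0).2.1.mem w (sphere_subset_closedBall hw)))).isBounded.subset_closedBall
            (q (Z₀ 0))
      obtain ⟨Z, z1, z2⟩ := h.limit hR (fun k => (u k).2.1) (x := q (Z₀ 0))
        (C := C₁ + C * (s 1 - s (u 0).1.2))
        (fun k w hw => by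
          have a1 := mem_closedBall'.1 (hC ⟨w, hw, rfl⟩)
          have a2 := mul_le_mul_of_nonneg_left (ms (u k).2.2.2) C0
          simp only [Function.comp_apply] at a1
          linarith [m3 0 k k.zero_le w hw,
            dist_triangle (q (Z₀ 0)) (q ((u 0).1.1 w)) (q ((u k).1.1 w))])
        fun ε hε => by
          obtain ⟨k₀, hk⟩ := Metric.cauchySeq_iff.1 (t2.const_mul C).cauchySeq ε hε
          refine ⟨k₀, fun k h1 l h2 w hw => ?_⟩
          have := abs_lt.1 (hk k h1 l h2)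
          simp only [Function.comp_apply] at this
          rcases le_total k l with h3 | h3
          · linarith [m3 k l h3 w hw]
          · rw [dist_comm]; linarith [m3 l k h3 w hw]
      have z5 : ∀ w ∈ sphere (0 : ℂ) R, Tendsto (fun k => q ((u k).1.1 w)) atTop (𝓝 (q (Z w))) :=
        fun w hw => (h.cq.continuousAt (h.isOpen.mem_nhds (h.sub (z1.mem w
          (sphere_subset_closedBall hw))))).tendsto.comp (z2.tendsto_at (sphere_subset_closedBall hw))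
      exact ⟨⟨(Z, _), z1, tendsto_nhds_unique (z2.tendsto_at (mem_closedBall_self hR.le))
        (((cγ.tendsto _).comp t1).congr fun k => (u k).2.2.1.symm), ciSup_le fun k => (u k).2.2.2⟩,
        fun k => ⟨le_ciSup b1 k, fun w hw => le_of_tendsto_of_tendsto
          (tendsto_const_nhds.dist (z5 w hw)) ((t2.sub_const _).const_mul (g w))
          ((eventually_ge_atTop k).mono fun l hl => m2 k l hl w hw)⟩⟩)
    ⟨(Z₀, 0), hZ, h0, zero_le_one⟩
  simp only at z1 z2 z4 z5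
  rcases z4.eq_or_lt with rfl | z4
  · exact ⟨Z, z1, z2, z5.2⟩
  obtain ⟨τ, ⟨Z', a1, a2, a4⟩, a6⟩ := ((st Z t z1 z2).and (Ioo_mem_nhdsGT (sub_pos.2 z4))).exists
  have := hm ⟨(Z', t + τ), a1, a2, by linarith [a6.2]⟩ ⟨by linarith [a6.1], a4⟩
  linarith [a6.1]

/-- A disc can be moved to every point that is close to its centre. -/
theorem tak_move [ProperSpace M] (h : Data n ι q U G) (hp : HasPath ι G) {Z : ℂ → Cn N}
    (hZ : Dsc ι 1 Z) {e : ℂ → ℂ} (he : Differentiable ℂ e) (e0 : e 0 = 1) (e1 : ∀ w, e w ≠ 0)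
    {y : M} {r : ℝ} (hy : dist (q (Z 0)) y < r) : ∃ R > 0, ∃ Z', Dsc ι R Z' ∧ Z' 0 = ι y ∧
      ∀ w ∈ sphere (0 : ℂ) R, ∃ ζ ∈ sphere (0 : ℂ) 1, dist (q (Z ζ)) (q (Z' w)) < ‖e ζ‖ * r := by
  obtain ⟨r₁, r1, r2⟩ := exists_between hy
  obtain ⟨γ, γ', g0, g1, g2, g3, g4⟩ := hp _ _ _ r1
  obtain ⟨R, R1, R0⟩ := ((((show ContinuousAt (fun R : ℝ => r₁ * (1 + R ^ 2) + R) 0 by
    fun_prop).eventually (gt_mem_nhds (show r₁ * (1 + 0 ^ 2) + 0 < r by simpa using r2))).filter_mono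
      (nhdsWithin_le_nhds (s := Ioi 0))).and self_mem_nhdsWithin).exists
  replace R0 : 0 < R := R0
  have R2 : (R : ℂ) ≠ 0 := ofReal_ne_zero.2 R0.ne'
  have cγ : Continuous γ := continuous_iff_continuousAt.2 fun t => (g2 t).2.continuousAt
  have c1 : Continuous fun t => √(G (γ t) (γ' t) (γ' t)) :=
    (((h.cG.comp_continuous cγ fun t => h.sub (g2 t).1).clm_apply g3).clm_apply g3).sqrt
  have c2 : Continuous fun t => √(G (γ t) (γ' t) (γ' t)) * (1 + R ^ 2) + R :=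
    (c1.mul continuous_const).add continuous_const
  have d1 := fun t => (c2.integral_hasStrictDerivAt 0 t).hasDerivAt
  have n1 : ∀ w : ℂ, ‖w / R‖ = ‖w‖ / R := fun w => by
    rw [norm_div, norm_real, Real.norm_of_nonneg R0.le]
  have he' : Differentiable ℂ fun w => e (w / R) := he.comp (by fun_prop)
  obtain ⟨C, hC⟩ := (isCompact_sphere (0 : ℂ) R).exists_bound_of_continuousOn
    he'.continuous.continuousOn
  obtain ⟨Z', z1, z2, z3⟩ := tak_flow h R0 cγ
    (continuous_iff_continuousAt.2 fun t => (d1 t).continuousAt)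
    (monotone_of_hasDerivAt_nonneg d1 fun t => by simp only [Pi.zero_apply]; positivity)
    (g := fun w => ‖e (w / R)‖) (C := |C|) (fun w hw => (hC w hw).trans (le_abs_self C))
    (abs_nonneg C) (fun Z t hZ z0 => tak_step h R0 (fun u => (g2 u).1) (g2 t).2 (d1 t)
      (lt_add_of_pos_right _ R0) he' (by simpa using e0) (fun w => e1 _) hZ z0)
    (Z₀ := fun w => Z (w / R))
    ⟨hZ.hol.comp (g := fun w : ℂ => w / R) (Differentiable.diffContOnCl (by fun_prop))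
      fun w hw => by
        rw [mem_ball_zero_iff] at hw ⊢
        rwa [n1, div_lt_one R0],
    fun w hw => hZ.mem _ (by
        rw [mem_closedBall_zero_iff] at hw ⊢
        rwa [n1, div_le_one R0])⟩
    (by rw [g0, zero_div, h.eq_of (hZ.mem 0 (mem_closedBall_self zero_le_one))])
  refine ⟨R, R0, Z', z1, z2.trans g1, fun w hw => ⟨w / R, ?_, (z3 w hw).trans_lt
    (mul_lt_mul_of_pos_left ?_ (norm_pos_iff.2 (e1 _)))⟩⟩
  · rw [mem_sphere_zero_iff_norm] at hw ⊢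
    rw [n1, hw, div_self R0.ne']
  · rw [intervalIntegral.integral_same, sub_zero, intervalIntegral.integral_add
      ((c1.mul_const _).intervalIntegrable _ _) intervalIntegrable_const,
      intervalIntegral.integral_mul_const, intervalIntegral.integral_const]
    have := mul_le_mul_of_nonneg_right g4 (show 0 ≤ 1 + R ^ 2 by positivity)
    simp only [sub_zero, smul_eq_mul, one_mul]
    linarith

theorem takeuchi [ProperSpace M] (h : Data n ι q U G) (hp : HasPath ι G) {K : Set M}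
    (hK : IsCompact K) {D : ℝ} (hD : 0 < D) : ∃ (c : ℝ) (δ : M → ℝ), LipschitzWith 1 δ ∧
      (∀ x, δ x ≤ D) ∧ (∀ x ∈ K, δ x = D) ∧ (∀ x, 0 < δ x → ‖ι x‖ < c) ∧
      ∀ Z, Dsc ι 1 Z → (∀ w ∈ closedBall 0 1, 0 < δ (q (Z w))) → -Real.log (δ (q (Z 0))) ≤
        Real.circleAverage (fun w => -Real.log (δ (q (Z w)))) 0 1 := by
  obtain ⟨c₀, hc⟩ := (hK.cthickening (r := D)).exists_bound_of_continuousOn h.cι.continuousOn
  refine ⟨c₀ + 1, ?_⟩
  rcases Set.eq_empty_or_nonempty {x | c₀ + 1 ≤ ‖ι x‖} with hΓ | hΓ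
  · refine ⟨fun _ => D, (LipschitzWith.const D).weaken zero_le_one, fun _ => le_rfl, fun _ _ => rfl,
      fun x _ => not_le.1 fun hx => (hΓ.subset hx).elim, fun Z _ _ => ?_⟩
    rw [Real.circleAverage_const]
  have L : LipschitzWith 1 fun x => min D (infDist x {x | c₀ + 1 ≤ ‖ι x‖}) :=
    (lipschitz_infDist_pt _).const_min D
  refine ⟨_, L, fun x => min_le_left _ _, fun x hx => min_eq_left ((le_infDist hΓ).2 fun y hy =>
    not_lt.1 fun hd => ?_), fun x hx => not_le.1 fun h1 => ?_, fun Z hZ h1 => ?_⟩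
  · have := hc y (mem_cthickening_of_dist_le y x D K hx (by rw [dist_comm]; exact hd.le))
    have h2 : c₀ + 1 ≤ ‖ι y‖ := hy
    linarith
  · rw [infDist_zero_of_mem (s := {x | c₀ + 1 ≤ ‖ι x‖}) h1] at hx
    exact (hx.trans_le (min_le_right _ _)).false
  refine sm_of_dm (ContinuousOn.fun_neg (ContinuousOn.log (L.continuous.comp_continuousOn
    (h.cq.comp (hZ.hol.continuousOn_ball.mono sphere_subset_closedBall) fun w hw =>
      h.sub (hZ.mem w (sphere_subset_closedBall hw))))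
    fun w hw => (h1 w (sphere_subset_closedBall hw)).ne')) fun p p1 p2 => ?_
  by_contra! p3
  have p4 : ∀ ζ ∈ sphere (0 : ℂ) 1, Real.exp (-(p ζ).re) ≤
      min D (infDist (q (Z ζ)) {x | c₀ + 1 ≤ ‖ι x‖}) := fun ζ hζ =>
    (Real.le_log_iff_exp_le (h1 ζ (sphere_subset_closedBall hζ))).1 (by
      have := p2 ζ hζ
      simp only [Function.comp_apply] at this
      linarith)
  have p5 : min D (infDist (q (Z 0)) {x | c₀ + 1 ≤ ‖ι x‖}) < Real.exp (-(p 0).re) :=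
    (Real.log_lt_iff_lt_exp (h1 0 (mem_closedBall_self zero_le_one))).1 (by linarith)
  have p6 : Real.exp (-(p 0).re) ≤ D := by
    have := norm_le_of_forall_mem_frontier_norm_le (f := fun ζ => exp (-p ζ)) (U := ball 0 1)
      (C := D) (z := 0) isBounded_ball (Differentiable.diffContOnCl (by fun_prop)) (fun ζ hζ => by
        rw [frontier_ball _ one_ne_zero] at hζ
        rw [norm_exp, neg_re]
        exact (p4 ζ hζ).trans (min_le_left _ _)) (subset_closure (mem_ball_self one_pos))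
    rwa [norm_exp, neg_re] at this
  obtain ⟨y, hy, y1⟩ := (infDist_lt_iff hΓ).1 ((min_lt_iff.1 p5).resolve_left p6.not_gt)
  obtain ⟨R, R0, Z', z1, z2, z3⟩ := tak_move h hp hZ (e := fun ζ => exp (p 0 - p ζ))
    (by fun_prop) (by simp) (fun _ => exp_ne_zero _) y1
  obtain ⟨w, hw, hm⟩ := exists_mem_frontier_isMaxOn_norm isBounded_ball (nonempty_ball.2 R0) z1.hol
  rw [frontier_ball _ R0.ne'] at hw
  obtain ⟨ζ, hζ, z4⟩ := z3 w hw
  rw [norm_exp, ← Real.exp_add, sub_re, show (p 0).re - (p ζ).re + -(p 0).re = -(p ζ).re by ring]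
    at z4
  have z5 : ‖Z' 0‖ ≤ ‖Z' w‖ := hm (subset_closure (mem_ball_self R0))
  refine (z4.trans_le ((p4 ζ hζ).trans (min_le_right _ _))).not_ge (infDist_le_dist_of_mem ?_)
  have y2 : c₀ + 1 ≤ ‖ι y‖ := hy
  show c₀ + 1 ≤ ‖ι (q (Z' w))‖
  rw [h.eq_of (z1.mem w (sphere_subset_closedBall hw))]
  rw [z2] at z5
  linarith

end Pool.Agent.Lib.MP_124863_gt.Ok
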