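import Pool.Agent.Lib.MP_124863_gt.OkL2
import Pool.Agent.Lib.MP_124863_gt.OkE3
import Pool.Agent.Lib.MP_124863_gt.OkNbh
import Pool.Agent.Lib.MP_124863_gt.OkTak

-- part Pool.Agent.Lib.MP_124863_gt.OkE2
section

/-! The twisted estimate with a large weight. -/

open Filter Topology Set Metric Complex MeasureTheory
open scoped Real ENNReal

namespace Pool.Agent.Lib.MP_124863_gt.Ok

open Ec

section aux

variable {Y : Type} [NormedAddCommGroup Y] [NormedSpace ℝ Y] [NormedSpace ℂ Y]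
  [IsScalarTower ℝ ℂ Y] {A : Type} [Fintype A] {n : ℕ} {b : A → Y} {B : Bil n}

theorem e2_am (hH : IsH B) (h0 : ∀ v, 0 ≤ B v v) {k : ℝ} (hk : 0 < k) (x y : Cn n) :
    2 * B x y ≤ B x x / k + k * B y y := by
  have h := h0 (x - k • y)
  simp only [map_sub, map_smul, sub_apply, smul_apply,
    smul_eq_mul, hH.symm y x] at h
  rw [div_add' _ _ _ hk.ne', le_div_iff₀ hk]
  nlinarith

theorem e2_pr (hH : IsH B) (h0 : ∀ v, 0 ≤ B v v) {k : ℝ} (hk : 0 < k) (D : Y →L[ℝ] Cn n)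
    (α : A → Cn n) : 2 * pr b B D α ≤
      (∑ a, B (D (ee b a)) (D (ee b a))) / k + 2 * k * ∑ j, B (α j) (α j) := by
  have h1 : 2 * k * ∑ j, B (α j) (α j) = ∑ a, k * B (aa α a) (aa α a) := by
    rw [← Finset.mul_sum, sum_aa hH]; ring
  rw [h1, pr, Finset.mul_sum, Finset.sum_div, ← Finset.sum_add_distrib]
  exact Finset.sum_le_sum fun a _ => e2_am hH h0 hk _ _

theorem e2_pr_smul (t : ℝ) (D : Y →L[ℝ] Cn n) (α : A → Cn n) :
    pr b (t • B) D α = t * pr b B D α := by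
  simp only [pr, Finset.mul_sum, smul_apply, smul_eq_mul]

theorem e2_lev_hom (L : Y →L[ℝ] Y →L[ℝ] ℝ) (t : ℝ) (α : A → Cn n) :
    lev b L B (t • α) = t ^ 2 * lev b L B α := by
  simp only [lev, alg1_aa_smul, map_smul, smul_apply, smul_eq_mul,
    Finset.mul_sum]
  exact Finset.sum_congr rfl fun a _ => Finset.sum_congr rfl fun c _ => by ring

theorem e2_lev_zero (α : A → Cn n) : lev b 0 B α = 0 := by
  simp [lev]

theorem e2_lev_sum {S : Type} (s : Finset S) (L : S → Y →L[ℝ] Y →L[ℝ] ℝ) (α : A → Cn n) :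
    lev b (∑ j ∈ s, L j) B α = ∑ j ∈ s, lev b (L j) B α := by
  classical
  induction s using Finset.induction_on with
  | empty => simp [e2_lev_zero]
  | insert j s hj ih => rw [Finset.sum_insert hj, Finset.sum_insert hj, lev_add, ih]

theorem e2_lev_cont {u : Y → ℝ} (hu : ContDiff ℝ 2 u) {W : Y → Bil n} (hW : Continuous W) :
    Continuous fun p : Y × (A → Cn n) => lev b (fderiv ℝ (fderiv ℝ u) p.1) (W p.1) p.2 := by
  have h1 : Continuous (fderiv ℝ (fderiv ℝ u)) :=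
    (hu.fderiv_right (m := 1) (by norm_num)).continuous_fderiv (by norm_num)
  unfold lev
  refine continuous_finsetSum _ fun a _ => continuous_finsetSum _ fun c _ => Continuous.mul ?_ ?_
  · exact ((h1.comp continuous_fst).clm_apply continuous_const).clm_apply continuous_const
  · exact ((hW.comp continuous_fst).clm_apply (alg1_aa_cont continuous_snd a)).clm_apply
      (alg1_aa_cont continuous_snd c)

theorem e2_lev_nonneg (hH : IsH B) (h0 : ∀ v, 0 ≤ B v v) {u : Y → ℝ} {z : Y}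
    (hu : ∀ v, 0 ≤ lv u z v) (α : A → Cn n) : 0 ≤ lev b (fderiv ℝ (fderiv ℝ u) z) B α := by
  rw [← e2_lev_zero (b := b) (B := B) α]
  exact lev_mono hH h0 fun v => by simpa [lv] using hu v

theorem e2_lev_pos [DecidableEq A] (hH : IsH B) (h0 : ∀ v, 0 ≤ B v v) {l : A → Y →L[ℂ] ℂ}
    (hl : ∀ j k, l j (b k) = if j = k then 1 else 0) {u : Y → ℝ} {z : Y} {c : ℝ}
    (hu : ∀ v, c * ∑ j, ‖l j v‖ ^ 2 ≤ lv u z v) (α : A → Cn n) :
    c * ∑ j, B (α j) (α j) ≤ lev b (fderiv ℝ (fderiv ℝ u) z) B α := by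
  have h1 : lev b ((c / 2) • ∑ j, qf (l j)) B α = c * ∑ j, B (α j) (α j) := by
    rw [lev_smul, e2_lev_sum, Finset.mul_sum, Finset.mul_sum]
    refine Finset.sum_congr rfl fun j _ => ?_
    have : ∑ k, l j (b k) • α k = α j := by simp [hl]
    rw [lev_qf hH, this]
    ring
  rw [← h1]
  refine lev_mono hH h0 fun v => le_trans (le_of_eq ?_) (hu v)
  have h2 : ∀ j, ‖l j (I • v)‖ = ‖l j v‖ := fun j => by
    rw [map_smul, norm_smul, Complex.norm_I, one_mul]
  simp only [smul_apply, sum_apply, smul_eq_mul, qf_apply,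
    h2]
  ring

theorem e2_lev_comb (hH : IsH B) (h0 : ∀ v, 0 ≤ B v v) {u w : Y → ℝ} {z : Y}
    (hu : ContDiffAt ℝ 2 u z) (hw : ContDiffAt ℝ 2 w z) (k : ℝ) (α : A → Cn n) :
    lev b (fderiv ℝ (fderiv ℝ u) z) B α + k * lev b (fderiv ℝ (fderiv ℝ w) z) B α ≤
      lev b (fderiv ℝ (fderiv ℝ fun x => u x + k * w x) z) B α := by
  rw [← lev_smul, ← lev_add]
  refine lev_mono hH h0 fun v => le_of_eq ?_
  have h1 := lv_add hu (contDiffAt_const.mul hw : ContDiffAt ℝ 2 (fun x => k * w x) z) v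
  rw [lv_const_mul hw] at h1
  simp only [lv] at h1
  simp only [add_apply, smul_apply, smul_eq_mul]
  rw [h1]
  ring

theorem e2_isH (hH : IsH B) (t : ℝ) : IsH (t • B) :=
  ⟨fun u v => by simp only [smul_apply, hH.symm u v],
    fun u v => by simp only [smul_apply, hH.inv u v]⟩

end aux

variable {Z : Type} [NormedAddCommGroup Z] [NormedSpace ℝ Z] [NormedSpace ℂ Z] [IsScalarTower ℝ ℂ Z]
  [FiniteDimensional ℝ Z] [MeasurableSpace Z] [BorelSpace Z] {μ : Measure Z} [μ.IsAddHaarMeasure]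
  {J : Type} [Fintype J] [DecidableEq J] {N : ℕ} {e : J → Z} {H : Z → Bil N}

theorem core (he : Submodule.span ℂ (range e) = ⊤) {l : J → Z →L[ℂ] ℂ}
    (hl : ∀ j k, l j (e k) = if j = k then 1 else 0) (hW : ContDiff ℝ 2 H) (hH : ∀ z, IsH (H z))
    (hp : ∀ z v, v ≠ 0 → 0 < H z v v) {g : Z → Cn N} (hg : ContDiff ℝ 1 g)
    (hg' : HasCompactSupport g) {ι : Type} [Finite ι] {t c : ι → Z → ℝ} {k : ι → ℝ}
    (ht : ∀ i, ContDiff ℝ 2 (t i)) (ht0 : ∀ i z, 0 < t i z)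
    (ht' : ∀ i, HasCompactSupport fun z => t i z - k i) (hc : ∀ i, Continuous (c i))
    (hc' : ∀ i, HasCompactSupport (c i)) (hc0 : ∀ i z, 0 ≤ c i z) {φ P : Z → ℝ}
    (hφ : ContDiff ℝ 2 φ) (hP : ContDiff ℝ 2 P) (hP0 : ∀ z, 0 ≤ P z) (hP1 : ∀ z v, 0 ≤ lv P z v)
    {D : Set Z} (hD : IsCompact D) {c₁ : ℝ} (hc₁ : 0 < c₁)
    (hP2 : ∀ z ∈ D, ∀ v, c₁ * ∑ j, ‖l j v‖ ^ 2 ≤ lv P z v)
    (h : ∀ i, ∀ z ∉ D, ∀ α, ∃ C, 2 * pr e (H z) (fderiv ℝ g z) α +
      mm (t i z) * lev e (fderiv ℝ (fderiv ℝ (t i)) z) (H z) α ≤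
        nk e H z α C + lev e (fderiv ℝ (fderiv ℝ φ) z) (H z) α + c i z)
    {K : Set Z} (hK : IsCompact K) (hKP : ∀ z ∈ K, P z = 0) :
    ∃ f : Z → Cn N, Differentiable ℂ f ∧ ∀ i,
      ∫ z in K, om (t i z) * Real.exp (-φ z) * H z (g z - f z) (g z - f z) ∂μ ≤
        ∫ z, Real.exp (-φ z) * (c i z / (t i z + √(t i z))) ∂μ + 1 := by
  have h0 : ∀ z v, 0 ≤ H z v v := fun z v => by
    by_cases hv : v = 0
    · simp [hv]
    · exact (hp z v hv).le
  have hs : ∀ i z, 0 < t i z + √(t i z) := fun i z => add_pos (ht0 i z) (Real.sqrt_pos.2 (ht0 i z))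
  have hsd : ∀ i, ContDiff ℝ 2 fun z => t i z + √(t i z) := fun i =>
    (ht i).add ((ht i).sqrt fun z => (ht0 i z).ne')
  -- the energy density of `g`
  obtain ⟨Γ, hΓ⟩ : ∃ Γ : Z → ℝ,
      Γ = fun z => ∑ a, H z (fderiv ℝ g z (ee e a)) (fderiv ℝ g z (ee e a)) := ⟨_, rfl⟩
  have hΓc : Continuous Γ := by
    have h1 : Continuous (fderiv ℝ g) := hg.continuous_fderiv (by norm_num)
    rw [hΓ]
    exact continuous_finsetSum _ fun a _ =>
      (hW.continuous.clm_apply (h1.clm_apply continuous_const)).clm_apply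
        (h1.clm_apply continuous_const)
  have hΓs : HasCompactSupport Γ := by
    refine (hg'.fderiv ℝ).mono fun z hz => ?_
    intro h1
    refine hz ?_
    rw [hΓ]
    simp [h1]
  have hΓ0 : ∀ z, 0 ≤ Γ z := fun z => by
    rw [hΓ]; exact Finset.sum_nonneg fun a _ => h0 _ _
  have hE : Continuous fun z => Real.exp (-φ z) := Real.continuous_exp.comp hφ.continuous.neg
  have hI : ∀ i {u : Z → ℝ}, Continuous u → HasCompactSupport u →
      Integrable (fun z => Real.exp (-φ z) * (u z / (t i z + √(t i z)))) μ := fun i u hu hu' =>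
    (hE.mul (hu.div (hsd i).continuous fun z => (hs i z).ne')).integrable_of_hasCompactSupport
      (hu'.mono fun z hz h1 => hz (by simp [h1]))
  obtain ⟨k₀, hk₀⟩ := Finite.bddAbove_range
    fun i => ∫ z, Real.exp (-φ z) * (Γ z / (t i z + √(t i z))) ∂μ
  obtain ⟨k', hk', hk''⟩ : ∃ k' : ℝ, 0 < k' ∧
      ∀ i, (∫ z, Real.exp (-φ z) * (Γ z / (t i z + √(t i z))) ∂μ) / k' ≤ 1 / 2 := by
    refine ⟨max (2 * k₀) 1, lt_max_of_lt_right one_pos, fun i => ?_⟩
    rw [div_le_iff₀ (lt_max_of_lt_right one_pos)]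
    have h1 := hk₀ (mem_range_self i)
    have h2 := le_max_left (2 * k₀) 1
    linarith
  -- the bound on `D`
  have hb : ∀ i, ∃ C, 0 < C ∧ ∀ z ∈ D, ∀ α : J → Cn N,
      -nk e H z α 0 - lev e (fderiv ℝ (fderiv ℝ φ) z) (H z) α +
        mm (t i z) * lev e (fderiv ℝ (fderiv ℝ (t i)) z) (H z) α ≤ C * ∑ j, H z (α j) (α j) := by
    intro i
    have hm : Continuous fun z => mm (t i z) :=
      mm_cont.comp_continuous (ht i).continuous fun z => ht0 i z
    refine homog_le hD (Θ := fun z α => -nk e H z α 0 - lev e (fderiv ℝ (fderiv ℝ φ) z) (H z) α +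
        mm (t i z) * lev e (fderiv ℝ (fderiv ℝ (t i)) z) (H z) α)
      (Ξ := fun z α => ∑ j, H z (α j) (α j)) ?_ ?_ (fun z _ r α => ?_) (fun z _ r α => ?_)
      fun z _ α hα => ?_
    · exact (((nk_cont hW).neg.sub (e2_lev_cont hφ hW.continuous)).add
        ((hm.comp continuous_fst).mul (e2_lev_cont (ht i) hW.continuous))).continuousOn
    · refine (continuous_finsetSum _ fun j _ => ?_).continuousOn
      exact ((hW.continuous.comp continuous_fst).clm_apply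
        ((continuous_apply j).comp continuous_snd)).clm_apply
        ((continuous_apply j).comp continuous_snd)
    · have h1 := nk_smul (e := e) (W := H) (z := z) (α := α) (C := 0) r
      rw [smul_zero] at h1
      rw [h1, e2_lev_hom, e2_lev_hom]
      ring
    · simp only [Pi.smul_apply, map_smul, smul_apply, smul_eq_mul,
        Finset.mul_sum]
      exact Finset.sum_congr rfl fun j _ => by ring
    · obtain ⟨j, hj⟩ := Function.ne_iff.1 hα
      exact Finset.sum_pos' (fun j _ => h0 _ _) ⟨j, Finset.mem_univ _, hp _ _ hj⟩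
  choose C hC0 hC using hb
  obtain ⟨C₀, hC₀⟩ := Finite.bddAbove_range C
  obtain ⟨r, hr0, hr⟩ : ∃ r : ℝ, 0 ≤ r ∧ ∀ i, C i + 2 * k' ≤ r * c₁ := by
    refine ⟨(max C₀ 0 + 2 * k') / c₁, by positivity, fun i => ?_⟩
    rw [div_mul_cancel₀ _ hc₁.ne']
    have h1 := hC₀ (mem_range_self i)
    have h2 := le_max_left C₀ 0
    linarith
  have hψ : ContDiff ℝ 2 fun z => φ z + r * P z := hφ.add (contDiff_const.mul hP)
  have hF : ContDiff ℝ 2 fun z => Real.exp (-(φ z + r * P z)) := hψ.neg.exp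
  refine Exists.imp (fun f hf0 => ?_) (l2 (μ := μ) (e := e)
    (W := fun z => Real.exp (-(φ z + r * P z)) • H z) he
    (hF.smul hW) (fun z => e2_isH (hH z) _)
    (fun z v hv => by
      simpa only [smul_apply, smul_eq_mul] using
        mul_pos (Real.exp_pos _) (hp z v hv))
    hg hg' (Ψ := fun i z => -Real.log (t i z + √(t i z)))
    (c := fun i z => Real.exp (-(φ z + r * P z)) * (c i z + Γ z / k'))
    (κ := fun i z => 1 - om (t i z) * (t i z + √(t i z)))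
    (k := fun i => -Real.log (k i + √(k i)))
    (fun i => ((hsd i).log fun z => (hs i z).ne').neg)
    (fun i => (ht' i).mono fun z hz h1 => hz (by
      have h2 : t i z = k i := sub_eq_zero.1 h1
      simp only [h2, sub_self]))
    (fun i => hF.continuous.mul ((hc i).add (hΓc.div_const _)))
    (fun i => ((hc' i).add hΓs).mono fun z hz h1 => hz (by
      have h2 : c i z + Γ z = 0 := h1
      have h3 := hc0 i z
      have h4 := hΓ0 z
      have h5 : c i z = 0 := by linarith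
      have h6 : Γ z = 0 := by linarith
      simp [h5, h6]))
    (fun i z => mul_nonneg (Real.exp_pos _).le (add_nonneg (hc0 i z) (div_nonneg (hΓ0 z) hk'.le)))
    (fun i => continuous_const.sub
      ((om_cont.comp_continuous (ht i).continuous fun z => ht0 i z).mul (hsd i).continuous))
    (fun i z => ⟨sub_nonneg.2 (om_le (ht0 i z)),
      sub_le_self _ (mul_pos (om_pos (ht0 i z)) (hs i z)).le⟩)
    (fun i z α u => ?_) hK (η := 1 / 2) (by norm_num))
  · obtain ⟨hf, hf'⟩ := hf0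
    refine ⟨hf, fun i => ?_⟩
    have h1 : ∫ z in K, om (t i z) * Real.exp (-φ z) * H z (g z - f z) (g z - f z) ∂μ =
        ∫ z in K, (1 - (1 - om (t i z) * (t i z + √(t i z)))) *
          Real.exp (-Real.log (t i z + √(t i z))) *
          (Real.exp (-(φ z + r * P z)) • H z) (g z - f z) (g z - f z) ∂μ := by
      refine setIntegral_congr_fun hK.measurableSet fun z hz => ?_
      have h2 := (hs i z).ne'
      simp only [smul_apply, smul_eq_mul]
      rw [Real.exp_neg (Real.log _), Real.exp_log (hs i z), hKP z hz, mul_zero, add_zero]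
      field_simp
      ring
    have h2 : ∫ z, Real.exp (-Real.log (t i z + √(t i z))) *
        (Real.exp (-(φ z + r * P z)) * (c i z + Γ z / k')) ∂μ ≤
        ∫ z, (Real.exp (-φ z) * (c i z / (t i z + √(t i z))) +
          Real.exp (-φ z) * (Γ z / (t i z + √(t i z))) / k') ∂μ := by
      refine integral_mono_of_nonneg (Eventually.of_forall fun z => ?_)
        ((hI i (hc i) (hc' i)).add ((hI i hΓc hΓs).div_const _)) (Eventually.of_forall fun z => ?_)
      · exact mul_nonneg (Real.exp_pos _).le (mul_nonneg (Real.exp_pos _).le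
          (add_nonneg (hc0 i z) (div_nonneg (hΓ0 z) hk'.le)))
      · have h3 : Real.exp (-(φ z + r * P z)) ≤ Real.exp (-φ z) :=
          Real.exp_le_exp.2 (by nlinarith [mul_nonneg hr0 (hP0 z)])
        have h4 := add_nonneg (hc0 i z) (div_nonneg (hΓ0 z) hk'.le)
        have h5 := (hs i z)
        calc Real.exp (-Real.log (t i z + √(t i z))) *
              (Real.exp (-(φ z + r * P z)) * (c i z + Γ z / k'))
            ≤ Real.exp (-Real.log (t i z + √(t i z))) * (Real.exp (-φ z) * (c i z + Γ z / k')) :=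
              mul_le_mul_of_nonneg_left (mul_le_mul_of_nonneg_right h3 h4) (Real.exp_pos _).le
          _ = _ := by
              rw [Real.exp_neg (Real.log _), Real.exp_log h5]
              field_simp
    rw [integral_add (hI i (hc i) (hc' i)) ((hI i hΓc hΓs).div_const _), integral_div] at h2
    have h3 := hf' i
    have h4 := hk'' i
    rw [h1]
    linarith
  · have hE0 := Real.exp_pos (-(φ z + r * P z))
    have h1 := twist_pt (e := e) (ht i).contDiffAt (ht0 i z)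
      (e2_isH (hH z) (Real.exp (-(φ z + r * P z))))
      (fun v => by
        simpa only [smul_apply, smul_eq_mul] using mul_nonneg hE0.le (h0 z v))
      α u
    have h2 := e2_lev_comb (b := e) (hH z) (h0 z) hφ.contDiffAt hP.contDiffAt (z := z) r α
    obtain ⟨C', hC'⟩ : ∃ C', 2 * pr e (H z) (fderiv ℝ g z) α +
        mm (t i z) * lev e (fderiv ℝ (fderiv ℝ (t i)) z) (H z) α ≤
          nk e H z α C' + lev e (fderiv ℝ (fderiv ℝ φ) z) (H z) α +
            r * lev e (fderiv ℝ (fderiv ℝ P) z) (H z) α + (c i z + Γ z / k') := by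
      by_cases hz : z ∈ D
      · refine ⟨0, ?_⟩
        have h3 := e2_pr (b := e) (hH z) (h0 z) hk' (fderiv ℝ g z) α
        have h4 := hC i z hz α
        have h5 := mul_le_mul_of_nonneg_left (e2_lev_pos (hH z) (h0 z) hl (hP2 z hz) α) hr0
        have h6 : 0 ≤ ∑ j, H z (α j) (α j) := Finset.sum_nonneg fun j _ => h0 _ _
        have h7 := mul_le_mul_of_nonneg_right (hr i) h6
        have h8 := hc0 i z
        have h9 : Γ z = ∑ a, H z (fderiv ℝ g z (ee e a)) (fderiv ℝ g z (ee e a)) := by rw [hΓ]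
        rw [← h9] at h3
        nlinarith
      · obtain ⟨C', hC'⟩ := h i z hz α
        have h3 := mul_nonneg hr0 (e2_lev_nonneg (b := e) (hH z) (h0 z) (hP1 z) α)
        have h4 := div_nonneg (hΓ0 z) hk'.le
        exact ⟨C', by linarith⟩
    refine ⟨C' - xi e (fderiv ℝ (fun z => φ z + r * P z) z) α, ?_⟩
    rw [nk_twist hψ.contDiffAt hW.contDiffAt (Eventually.of_forall hH), e2_pr_smul]
    rw [lev_smul' _ (fderiv ℝ (fderiv ℝ (t i)) z)] at h1
    have h3 := mul_le_mul_of_nonneg_left (hC'.trans (add_le_add_left (add_le_add_right h2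
      (nk e H z α C')) (c i z + Γ z / k') |>.trans_eq' (by ring))) hE0.le
    nlinarith

end Pool.Agent.Lib.MP_124863_gt.Ok
end

-- part Pool.Agent.Lib.MP_124863_gt.OkE4
section

/-! The extension theorem on a sublevel set. -/

open Filter Topology Set Metric Complex MeasureTheory
open scoped Real ENNReal ComplexConjugate

namespace Pool.Agent.Lib.MP_124863_gt.Ok

open Ec

set_option linter.unusedSectionVars false

section pre

variable {Z : Type} [NormedAddCommGroup Z] [NormedSpace ℝ Z] [NormedSpace ℂ Z] [IsScalarTower ℝ ℂ Z]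
  {J : Type} [Fintype J] {N : ℕ} {e : J → Z}

/-- The cut-off. -/
noncomputable def oe4_chi (a : ℝ) (ψ : Z → ℝ) (z : Z) : ℝ :=
  Real.smoothTransition ((-a - ψ z) / (a / 5))

theorem oe4_chi_zero {a : ℝ} (ha : 0 < a) {ψ : Z → ℝ} {z : Z} (h : -a ≤ ψ z) :
    oe4_chi a ψ z = 0 :=
  Real.smoothTransition.zero_of_nonpos (div_nonpos_of_nonpos_of_nonneg (by linarith) (by positivity))

theorem oe4_chi_one {a : ℝ} (ha : 0 < a) {ψ : Z → ℝ} {z : Z} (h : ψ z ≤ -(6 / 5 * a)) :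
    oe4_chi a ψ z = 1 :=
  Real.smoothTransition.one_of_one_le ((one_le_div (by positivity)).2 (by linarith))

theorem oe4_chi_mem (a : ℝ) (ψ : Z → ℝ) (z : Z) : 0 ≤ oe4_chi a ψ z ∧ oe4_chi a ψ z ≤ 1 :=
  ⟨Real.smoothTransition.nonneg _, Real.smoothTransition.le_one _⟩

theorem oe4_chi_smooth (a : ℝ) {ψ : Z → ℝ} (hψ : ContDiff ℝ 2 ψ) : ContDiff ℝ 2 (oe4_chi a ψ) :=
  (Real.smoothTransition.contDiff (n := 2)).comp ((contDiff_const.sub hψ).div_const _)

theorem oe4_ev_zero {a : ℝ} (ha : 0 < a) {ψ : Z → ℝ} (hψ : Continuous ψ) {z : Z} (h : -a < ψ z) :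
    ∀ᶠ w in 𝓝 z, oe4_chi a ψ w = 0 :=
  (hψ.continuousAt.eventually (lt_mem_nhds h)).mono fun _ hw => oe4_chi_zero ha hw.le

theorem oe4_ev_one {a : ℝ} (ha : 0 < a) {ψ : Z → ℝ} (hψ : Continuous ψ) {z : Z}
    (h : ψ z < -(6 / 5 * a)) : ∀ᶠ w in 𝓝 z, oe4_chi a ψ w = 1 :=
  (hψ.continuousAt.eventually (gt_mem_nhds h)).mono fun _ hw => oe4_chi_one ha hw.le

theorem oe4_glue {X : Type} [NormedAddCommGroup X] [NormedSpace ℝ X] {a : ℝ} (ha : 0 < a)
    {ψ : Z → ℝ} (hψ : ContDiff ℝ 2 ψ) {n : WithTop ℕ∞} (hn : n ≤ 2) {F : Z → X}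
    (hF : ∀ z, ψ z ≤ -a → ContDiffAt ℝ n F z) : ContDiff ℝ n fun z => oe4_chi a ψ z • F z := by
  refine contDiff_iff_contDiffAt.2 fun z => ?_
  rcases le_or_gt (ψ z) (-a) with h | h
  · exact ((oe4_chi_smooth a hψ).of_le hn).contDiffAt.smul (hF z h)
  · refine (contDiffAt_const (c := (0 : X))).congr_of_eventuallyEq ?_
    exact (oe4_ev_zero ha hψ.continuous h).mono fun w hw => by simp only [hw, zero_smul]

theorem oe4_supp {X : Type} [NormedAddCommGroup X] [NormedSpace ℝ X] {a : ℝ} (ha : 0 < a)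
    {ψ : Z → ℝ} {K : Set Z} (hK : IsCompact K) (h : ∀ z, ψ z ≤ -a → z ∈ K) (F : Z → X) :
    HasCompactSupport fun z => oe4_chi a ψ z • F z :=
  HasCompactSupport.intro hK fun z hz => by
    rw [oe4_chi_zero ha (not_le.1 fun h' => hz (h z h')).le, zero_smul]

theorem oe4_nonneg {B : Bil N} (hp : ∀ v, v ≠ 0 → 0 < B v v) (v : Cn N) : 0 ≤ B v v := by
  rcases eq_or_ne v 0 with rfl | h
  · simp
  · exact (hp v h).le

theorem oe4_u_smooth (l : Z →L[ℂ] ℂ) {c : ℝ} (hc : 0 < c) :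
    ContDiff ℝ 2 fun z => (conj (l z) / (‖l z‖ ^ 2 + c : ℝ) : ℂ) := by
  have h1 : ContDiff ℝ 2 fun z => (‖l z‖ ^ 2 + c)⁻¹ :=
    ((contDiff_iff_contDiffAt.2 fun _ => alg2_smooth l).add contDiff_const).inv fun z => by positivity
  have h2 : ContDiff ℝ 2 fun z => conj (l z) :=
    conjCLE.contDiff.comp (l.restrictScalars ℝ).contDiff
  convert h1.smul h2 using 2 with z
  rw [Pi.smul_apply', real_smul, div_eq_inv_mul, ofReal_inv]

theorem oe4_u_deriv (l : Z →L[ℂ] ℂ) {c : ℝ} (hc : 0 < c) (z x : Z) :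
    fderiv ℝ (fun z => (conj (l z) / (‖l z‖ ^ 2 + c : ℝ) : ℂ)) z x =
      conj (l x) / (‖l z‖ ^ 2 + c : ℝ) -
        conj (l z) * (2 * inner ℝ (l z) (l x) : ℝ) / ((‖l z‖ ^ 2 + c) ^ 2 : ℝ) := by
  have p : (0 : ℝ) < ‖l z‖ ^ 2 + c := by positivity
  have h0 : HasFDerivAt (fun z => ‖l z‖ ^ 2 + c) (fderiv ℝ (fun z => ‖l z‖ ^ 2) z) z :=
    ((alg2_smooth l).differentiableAt two_ne_zero).hasFDerivAt.add_const c
  have h1 := (_root_.hasDerivAt_inv p.ne').comp_hasFDerivAt z h0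
  have h2 : HasFDerivAt (fun z => conj (l z))
      ((conjCLE : ℂ →L[ℝ] ℂ).comp (l.restrictScalars ℝ)) z :=
    ((conjCLE : ℂ →L[ℝ] ℂ).comp (l.restrictScalars ℝ)).hasFDerivAt
  have e1 : (fun z => (conj (l z) / (‖l z‖ ^ 2 + c : ℝ) : ℂ)) =
      fun z => ((fun y : ℝ => y⁻¹) ∘ fun z => ‖l z‖ ^ 2 + c) z • conj (l z) := by
    ext w
    rw [Function.comp, real_smul, div_eq_inv_mul, ofReal_inv]
  rw [e1, (h1.fun_smul h2).fderiv]
  have p' : ((‖l z‖ ^ 2 + c : ℝ) : ℂ) ≠ 0 := ofReal_ne_zero.2 p.ne'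
  simp only [add_apply, smul_apply, ContinuousLinearMap.comp_apply, Function.comp,
    ContinuousLinearMap.smulRight_apply, (alg2_nsq l z x).1, smul_eq_mul, real_smul,
    ContinuousLinearMap.coe_restrictScalars', ContinuousLinearEquiv.coe_coe, conjCLE_apply]
  rw [ofReal_mul, ofReal_neg, ofReal_inv, ofReal_inv, ofReal_pow]
  field_simp
  ring

theorem oe4_db (l : Z →L[ℂ] ℂ) {c : ℝ} (hc : 0 < c) {V : Z → Cn N} {z : Z}
    (hV : DifferentiableAt ℂ V z) (j : J) :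
    db e (fun z => (conj (l z) / (‖l z‖ ^ 2 + c : ℝ) : ℂ) • V z) z j =
      conj (l (e j)) • (2 * (c / (‖l z‖ ^ 2 + c) ^ 2)) • V z := by
  have p : (0 : ℝ) < ‖l z‖ ^ 2 + c := by positivity
  have hu := ((oe4_u_smooth l hc).differentiable two_ne_zero z).hasFDerivAt
  have hv := (hV.restrictScalars ℝ).hasFDerivAt
  have h0 := alg1_h1 hV (e j)
  rw [db, (hu.fun_smul hv).fderiv]
  simp only [add_apply, smul_apply, ContinuousLinearMap.smulRight_apply, oe4_u_deriv l hc, h0]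
  have p' : ((‖l z‖ ^ 2 + c : ℝ) : ℂ) ≠ 0 := ofReal_ne_zero.2 p.ne'
  have k : (conj (l (e j)) / (‖l z‖ ^ 2 + c : ℝ) -
        conj (l z) * (2 * inner ℝ (l z) (l (e j)) : ℝ) / ((‖l z‖ ^ 2 + c) ^ 2 : ℝ) : ℂ) +
      I * (conj (l (I • e j)) / (‖l z‖ ^ 2 + c : ℝ) -
        conj (l z) * (2 * inner ℝ (l z) (l (I • e j)) : ℝ) / ((‖l z‖ ^ 2 + c) ^ 2 : ℝ)) =
      conj (l (e j)) * (2 * (c / (‖l z‖ ^ 2 + c) ^ 2) : ℝ) := by
    have n : ((c : ℝ) : ℂ) = (‖l z‖ ^ 2 + c : ℝ) - l z * conj (l z) := by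
      rw [mul_conj, normSq_eq_norm_sq]; push_cast; ring
    have i1 : ((2 * inner ℝ (l z) (l (e j)) : ℝ) : ℂ) +
        I * (2 * inner ℝ (l z) (l (I • e j)) : ℝ) = 2 * (l z * conj (l (e j))) := by
      rw [map_smul, alg2_inner, alg2_inner]
      apply Complex.ext <;> simp
    have i2 : conj (l (I • e j)) = -I * conj (l (e j)) := by
      rw [map_smul, smul_eq_mul, map_mul, conj_I]
    rw [ofReal_mul 2 (c / _), ofReal_div, n, i2, ofReal_pow, eq_sub_of_add_eq i1]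
    push_cast at p' ⊢
    field_simp
    linear_combination (-(conj (l (e j))) * (((‖l z‖ : ℝ) : ℂ) ^ 2 + c)) * I_mul_I
  rw [← Complex.coe_smul (2 * (c / (‖l z‖ ^ 2 + c) ^ 2)), smul_smul (conj (l (e j))), ← k]
  generalize (conj (l z) / (‖l z‖ ^ 2 + c : ℝ) : ℂ) = u
  have k2 : I • u • I • fderiv ℝ V z (e j) = -(u • fderiv ℝ V z (e j)) := by
    rw [smul_comm u, smul_smul I, I_mul_I, neg_one_smul]
  rw [smul_add I, k2, smul_smul I, add_smul]
  abel

end pre

variable {Z : Type} [NormedAddCommGroup Z] [NormedSpace ℝ Z] [NormedSpace ℂ Z] [IsScalarTower ℝ ℂ Z]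
  [FiniteDimensional ℝ Z] [FiniteDimensional ℂ Z] [MeasurableSpace Z] [BorelSpace Z] {μ : Measure Z}
  [μ.IsAddHaarMeasure] {J : Type} [Fintype J] [DecidableEq J] {N : ℕ} {e : J → Z} {H : Z → Bil N}

theorem oe4_P {s : Z → ℝ} (hs : ContDiff ℝ 2 s) (z x : Z) (h0 : 0 ≤ lv s z x) {b : ℝ} (hb : 0 ≤ b)
    (h : b ≤ max (s z) 0) : 3 * b ^ 2 * lv s z x ≤ lv (fun w => max (s w) 0 ^ 3) z x := by
  have k := lv_comp (z := z) hs.contDiffAt (f := fun y : ℝ => max y 0 ^ 3)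
    (f' := fun y : ℝ => 3 * max y 0 ^ 2) (f'' := 3 * (2 * max (s z) 0))
    (.of_forall fun y => (hasDerivAt_pos_pow 1 y).congr_deriv (by norm_num))
    (by simpa using (hasDerivAt_pos_pow 0 (s z)).const_mul 3)
    (contDiff_pos_pow 2 0).contDiffAt x
  rw [k]
  have h1 : b ^ 2 ≤ max (s z) 0 ^ 2 := pow_le_pow_left₀ hb h 2
  have h2 : 0 ≤ 3 * (2 * max (s z) 0) * (fderiv ℝ s z x ^ 2 + fderiv ℝ s z (I • x) ^ 2) := by
    have := le_max_right (s z) 0
    positivity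
  nlinarith [mul_le_mul_of_nonneg_right h1 h0]

theorem oe4_rho (l : J → Z →L[ℂ] ℂ) (s : Finset J) :
    ContDiff ℝ 2 (fun z => ∑ j ∈ s, ‖l j z‖ ^ 2) ∧
      ∀ z x, lv (fun z => ∑ j ∈ s, ‖l j z‖ ^ 2) z x = 4 * ∑ j ∈ s, ‖l j x‖ ^ 2 := by
  induction s using Finset.induction_on with
  | empty => exact ⟨by simpa using contDiff_const, fun z x => by simp [lv]⟩
  | insert j s hj ih =>
    simp only [Finset.sum_insert hj]
    have h1 : ContDiff ℝ 2 fun z => ‖l j z‖ ^ 2 := contDiff_iff_contDiffAt.2 fun _ => alg2_smooth _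
    refine ⟨h1.add ih.1, fun z x => ?_⟩
    rw [lv_add h1.contDiffAt ih.1.contDiffAt, lv_norm_sq, ih.2]
    ring

theorem oe4_main (he : Submodule.span ℂ (range e) = ⊤) {l : J → Z →L[ℂ] ℂ}
    (hl : ∀ j k, l j (e k) = if j = k then 1 else 0) (j₀ : J) {O : Set Z} (hO : IsOpen O)
    (hH : ∀ z ∈ O, ContDiffAt ℝ 2 H z ∧ IsH (H z) ∧ ∀ v, v ≠ 0 → 0 < H z v v) {V : Z → Cn N}
    (hV : DifferentiableOn ℂ V O) {c a : ℝ} (hc : 0 < c) (ha : 0 < a) {ψ φ : Z → ℝ}
    (hψ : ContDiff ℝ 2 ψ) (hψ' : ∀ z x, 0 ≤ lv ψ z x) (hφ : ContDiff ℝ 2 φ)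
    (hφ' : ∀ z x, 0 ≤ lv φ z x) {K K' : Set Z} (hK : IsCompact K) (hK' : IsCompact K')
    (hO' : K' ⊆ O) (h1 : ∀ z ∈ K, ψ z ≤ -(17 / 10 * a)) (h2 : ∀ z, ψ z ≤ -a → z ∈ K')
    (hn : ∀ z ∈ K', ∀ α, ∃ C, 0 ≤ nk e H z α C) {g : Z → Cn N}
    (hg : g = fun z => (conj (l j₀ z) / (‖l j₀ z‖ ^ 2 + c : ℝ) : ℂ) • V z)
    {ι : Type} [Finite ι] {t : ι → Z → ℝ} {k : ι → ℝ} (ht : ∀ i, ContDiff ℝ 2 (t i))
    (hk : ∀ i, 0 < k i) (hkt : ∀ i z, ψ z ≤ -a → k i ≤ t i z)
    (hL : ∀ i z x, ψ z ≤ -a → mm (t i z) * (4 * (c / (‖l j₀ z‖ ^ 2 + c) ^ 2) * ‖l j₀ x‖ ^ 2 +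
      lv (t i) z x) ≤ lv φ z x) :
    ∃ f : Z → Cn N, Differentiable ℂ f ∧ ∀ i,
      ∫ z in K, om (t i z) * Real.exp (-φ z) * H z (g z - f z) (g z - f z) ∂μ ≤
        ∫ z in K', c / (‖l j₀ z‖ ^ 2 + c) ^ 2 * (Real.exp (-φ z) * H z (V z) (V z)) ∂μ + 1 := by
  have hS : ∀ z, ψ z ≤ -a → z ∈ O := fun z hz => hO' (h2 z hz)
  have hVd : ∀ z ∈ O, ∀ᶠ w in 𝓝 z, DifferentiableAt ℂ V w := fun z hz =>
    (hO.eventually_mem hz).mono fun w hw => hV.differentiableAt (hO.mem_nhds hw)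
  have hV2 : ∀ z ∈ O, ContDiffAt ℝ 2 V z := fun z hz => alg1_h0 (hVd z hz)
  have hχ := oe4_chi_smooth a hψ
  have hm := oe4_chi_mem a ψ
  have hz0 : ∀ z, ¬ψ z ≤ -a → oe4_chi a ψ z = 0 := fun z hz => oe4_chi_zero ha (not_le.1 hz).le
  let θ : Z → ℝ := fun z => c / (‖l j₀ z‖ ^ 2 + c) ^ 2
  have θ0 : ∀ z, 0 < θ z := fun z => by positivity
  have θc : Continuous θ := continuous_const.div (by fun_prop) fun z => by positivity
  let W : Z → Bil N := fun z => oe4_chi a ψ z • H z + (1 - oe4_chi a ψ z) • eu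
  let G : Z → Cn N := fun z => oe4_chi a ψ z • g z
  let T : ι → Z → ℝ := fun i z => oe4_chi a ψ z • (t i z - k i) + k i
  let Q : Z → ℝ := fun z => θ z * H z (V z) (V z)
  let γ : ι → Z → ℝ := fun i z => oe4_chi a ψ z • (Q z / mm (T i z))
  have W2 : ContDiff ℝ 2 W := (oe4_glue ha hψ le_rfl fun z hz => (hH z (hS z hz)).1).add
    ((contDiff_const.sub hχ).smul contDiff_const)
  have WH : ∀ z, IsH (W z) := fun z => by
    by_cases hz : ψ z ≤ -a
    · have h := (hH z (hS z hz)).2.1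
      constructor <;> intro u v <;> simp only [W, add_apply, smul_apply]
      · rw [h.symm, alg1_eu.symm]
      · rw [h.inv, alg1_eu.inv]
    · simpa only [W, hz0 z hz, zero_smul, zero_add, sub_zero, one_smul] using alg1_eu
  have eup : ∀ v : Cn N, v ≠ 0 → 0 < eu v v := fun v hv =>
    (eu_nonneg v).lt_of_ne' fun h => hv (eu_eq_zero h)
  have Wp : ∀ z v, v ≠ 0 → 0 < W z v v := fun z v hv => by
    by_cases hz : ψ z ≤ -a
    · have h := (hH z (hS z hz)).2.2 v hv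
      have h' := eup v hv
      simp only [W, add_apply, smul_apply, smul_eq_mul]
      rcases (hm z).1.eq_or_lt with h0 | h0
      · rw [← h0]; linarith
      · exact add_pos_of_pos_of_nonneg (mul_pos h0 h) (mul_nonneg (sub_nonneg.2 (hm z).2) h'.le)
    · simpa only [W, hz0 z hz, zero_smul, zero_add, sub_zero, one_smul] using eup v hv
  have G1 : ContDiff ℝ 1 G := oe4_glue ha hψ one_le_two fun z hz => by
    rw [hg]
    exact ((oe4_u_smooth (l j₀) hc).contDiffAt.smul (hV2 z (hS z hz))).of_le one_le_two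
  have T2 : ∀ i, ContDiff ℝ 2 (T i) := fun i =>
    (hχ.smul ((ht i).sub contDiff_const)).add contDiff_const
  have T0 : ∀ i z, 0 < T i z := fun i z => by
    by_cases hz : ψ z ≤ -a
    · exact add_pos_of_nonneg_of_pos (mul_nonneg (hm z).1 (sub_nonneg.2 (hkt i z hz))) (hk i)
    · simpa only [T, hz0 z hz, zero_smul, zero_add] using hk i
  have Qc : ∀ z ∈ O, ContinuousAt Q z := fun z hz => θc.continuousAt.mul
    (((hH z hz).1.continuousAt.clm_apply (hV2 z hz).continuousAt).clm_apply (hV2 z hz).continuousAt)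
  have Q0 : ∀ z ∈ O, 0 ≤ Q z := fun z hz => mul_nonneg (θ0 z).le (oe4_nonneg (hH z hz).2.2 _)
  have mc : ∀ i, Continuous fun z => mm (T i z) := fun i =>
    mm_cont.comp_continuous (T2 i).continuous (T0 i)
  have γc : ∀ i, Continuous (γ i) := fun i => continuous_iff_continuousAt.2 fun z => by
    rcases le_or_gt (ψ z) (-a) with h | h
    · exact hχ.continuous.continuousAt.smul
        ((Qc z (hS z h)).div (mc i).continuousAt (mm_pos (T0 i z)).ne')
    · refine (continuousAt_const (y := (0 : ℝ))).congr ?_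
      exact (oe4_ev_zero ha hψ.continuous h).mono fun w hw => by simp only [γ, hw, zero_smul]
  have γ0 : ∀ i z, 0 ≤ γ i z := fun i z => by
    by_cases hz : ψ z ≤ -a
    · exact mul_nonneg (hm z).1 (div_nonneg (Q0 z (hS z hz)) (mm_pos (T0 i z)).le)
    · simp only [γ, hz0 z hz, zero_smul, le_refl]
  obtain ⟨r2, rl⟩ := oe4_rho l Finset.univ
  obtain ⟨R, hR⟩ := hK.bddAbove_image r2.continuous.continuousOn
  let δ : ℝ := a / 5 / (|R| + 1)
  have δ0 : 0 < δ := by positivity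
  let s : Z → ℝ := fun z => ψ z + (δ * ∑ j, ‖l j z‖ ^ 2 + 3 / 2 * a)
  have s1 : ContDiff ℝ 2 fun z => δ * ∑ j, ‖l j z‖ ^ 2 := contDiff_const.mul r2
  have s2 : ContDiff ℝ 2 s := hψ.add (s1.add contDiff_const)
  have sl : ∀ z x, 4 * δ * ∑ j, ‖l j x‖ ^ 2 ≤ lv s z x := fun z x => by
    rw [lv_add hψ.contDiffAt (s1.add contDiff_const).contDiffAt,
      lv_add s1.contDiffAt contDiffAt_const, lv_const_mul r2.contDiffAt, rl]
    have : lv (fun _ : Z => 3 / 2 * a) z x = 0 := by simp [lv]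
    linarith [hψ' z x]
  have sl0 : ∀ z x, 0 ≤ lv s z x := fun z x => le_trans (by positivity) (sl z x)
  have hD : IsCompact {z | -(6 / 5 * a) ≤ ψ z ∧ ψ z ≤ -a} :=
    hK'.of_isClosed_subset ((isClosed_le continuous_const hψ.continuous).inter
      (isClosed_le hψ.continuous continuous_const)) fun z hz => h2 z hz.2
  obtain ⟨f, hf, hI⟩ := core (μ := μ) (H := W) (g := G) (t := T) (c := γ) (k := k) (φ := φ)
    (P := fun w => max (s w) 0 ^ 3) (c₁ := 3 * (3 / 10 * a) ^ 2 * (4 * δ)) (K := K) he hl W2 WH Wp G1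
    (oe4_supp ha hK' h2 g) T2 T0
    (fun i => by simpa only [T, add_sub_cancel_right] using oe4_supp ha hK' h2 fun z => t i z - k i)
    γc (fun i => oe4_supp ha hK' h2 _) γ0 hφ ((contDiff_pos_pow 2 0).comp s2)
    (fun z => pow_nonneg (le_max_right _ _) 3)
    (fun z x => by simpa using oe4_P s2 z x (sl0 z x) le_rfl (le_max_right _ _)) hD (by positivity)
    (fun z hz x => by
      refine le_trans ?_ (oe4_P s2 z x (sl0 z x) (b := 3 / 10 * a) (by positivity)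
        (le_max_of_le_left ?_))
      · rw [mul_assoc _ (4 * δ)]
        exact mul_le_mul_of_nonneg_left (sl z x) (by positivity)
      · have : 0 ≤ δ * ∑ j, ‖l j z‖ ^ 2 := by positivity
        simp only [s]
        linarith [hz.1])
    (fun i z hz α => by
      have W0 := oe4_nonneg (Wp z)
      rcases le_or_gt (ψ z) (-a) with h | h
      · have h' : ψ z < -(6 / 5 * a) := not_le.1 fun h' => hz ⟨h', h⟩
        have ev := oe4_ev_one ha hψ.continuous h'
        have eW : W =ᶠ[𝓝 z] H := ev.mono fun w hw => by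
          simp only [W, hw, one_smul, sub_self, zero_smul, add_zero]
        have eG : G =ᶠ[𝓝 z] g := ev.mono fun w hw => by simp only [G, hw, one_smul]
        have eT : T i =ᶠ[𝓝 z] t i := ev.mono fun w hw => by
          simp only [T, hw, one_smul, sub_add_cancel]
        obtain ⟨C, hC⟩ := hn z (h2 z h) α
        refine ⟨C, ?_⟩
        have eγ : γ i z = Q z / mm (t i z) := by
          simp only [γ, ev.self_of_nhds, one_smul, eT.self_of_nhds]
        have hz' := hH z (hS z h)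
        have H0 := oe4_nonneg hz'.2.2
        have m0 : 0 < mm (t i z) := eT.self_of_nhds ▸ mm_pos (T0 i z)
        rw [nk_congr eW, eG.fderiv_eq, eT.fderiv.fderiv_eq, eγ, eW.self_of_nhds, eT.self_of_nhds,
          pr_eq hz'.2.1, hg]
        have e1 : ∑ j, H z (db e (fun z => (conj (l j₀ z) / (‖l j₀ z‖ ^ 2 + c : ℝ) : ℂ) • V z) z j)
            (α j) = 2 * θ z * H z (V z) (α j₀) := by
          rw [Finset.sum_eq_single j₀ (fun j _ hj => ?_) (by simp)]
          · rw [oe4_db _ hc (hVd z (hS z h)).self_of_nhds, hl, if_pos rfl, map_one, one_smul,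
              map_smul, smul_apply, smul_eq_mul]
          · rw [oe4_db _ hc (hVd z (hS z h)).self_of_nhds, hl, if_neg hj.symm, map_zero, zero_smul,
              map_zero, zero_apply]
        have e2 : ∑ j, l j₀ (e j) • α j = α j₀ := by simp [hl]
        have e3 := lev_mono (e := e) (α := α) hz'.2.1 H0
          (L := (2 * mm (t i z) * θ z) • qf (l j₀) + mm (t i z) • fderiv ℝ (fderiv ℝ (t i)) z)
          (L' := fderiv ℝ (fderiv ℝ φ) z) fun x => by
            have := hL i z x h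
            simp only [add_apply, smul_apply, qf_apply, smul_eq_mul, (l j₀).map_smul, norm_mul,
              norm_I, one_mul]
            simp only [lv] at this
            simp only [θ]
            linarith
        rw [lev_add, lev_smul, lev_smul, lev_qf hz'.2.1, e2] at e3
        have e4 := H0 (V z - (2 * mm (t i z)) • α j₀)
        simp only [map_sub, map_smul, sub_apply, smul_apply, smul_eq_mul,
          hz'.2.1.symm (α j₀) (V z)] at e4
        have e5 : 4 * θ z * H z (V z) (α j₀) - 4 * mm (t i z) * θ z * H z (α j₀) (α j₀) ≤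
            Q z / mm (t i z) := by
          rw [le_div_iff₀ m0]
          simp only [Q]
          nlinarith [mul_nonneg (θ0 z).le e4]
        rw [e1]
        linarith
      · have ev := oe4_ev_zero ha hψ.continuous h
        have eW : W =ᶠ[𝓝 z] fun _ => eu := ev.mono fun w hw => by
          simp only [W, hw, one_smul, sub_zero, zero_smul, zero_add]
        have eG : G =ᶠ[𝓝 z] fun _ => 0 := ev.mono fun w hw => by simp only [G, hw, zero_smul]
        have eT : T i =ᶠ[𝓝 z] fun _ => k i := ev.mono fun w hw => by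
          simp only [T, hw, zero_smul, zero_add]
        refine ⟨0, ?_⟩
        have e3 := lev_mono (e := e) (α := α) (WH z) W0 (L := 0) (L' := fderiv ℝ (fderiv ℝ φ) z)
          fun x => by simpa [lv] using hφ' z x
        rw [nk_congr eW, nk_const, eG.fderiv_eq, eT.fderiv.fderiv_eq]
        have e4 : lev e (0 : Z →L[ℝ] Z →L[ℝ] ℝ) (W z) α = 0 := by simp [lev]
        have e5 : fderiv ℝ (fderiv ℝ fun _ : Z => k i) z = 0 := by simp
        have e6 : pr e (W z) (fderiv ℝ (fun _ : Z => (0 : Cn N)) z) α = 0 := by simp [pr]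
        rw [e5, e6, e4]
        linarith [γ0 i z])
    hK (fun z hz => by
      have h3 : ∑ j, ‖l j z‖ ^ 2 ≤ |R| + 1 :=
        ((hR (mem_image_of_mem _ hz)).trans (le_abs_self R)).trans (by linarith)
      have h4 : δ * ∑ j, ‖l j z‖ ^ 2 ≤ a / 5 := by
        refine (mul_le_mul_of_nonneg_left h3 δ0.le).trans_eq ?_
        exact div_mul_cancel₀ _ (by positivity)
      have h5 : s z ≤ 0 := by
        simp only [s]
        linarith [h1 z hz]
      simp only [max_eq_right h5]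
      norm_num)
  refine ⟨f, hf, fun i => le_trans (le_of_eq ?_) ((hI i).trans (add_le_add_left ?_ 1))⟩
  · refine setIntegral_congr_fun hK.measurableSet fun z hz => ?_
    have h0 : oe4_chi a ψ z = 1 := oe4_chi_one ha (by linarith [h1 z hz])
    simp only [T, W, G, h0, one_smul, sub_add_cancel, sub_self, zero_smul, add_zero]
  · have ec : Continuous fun z => Real.exp (-φ z) := Real.continuous_exp.comp hφ.continuous.neg
    have tp : ∀ z, 0 < T i z + √(T i z) := fun z => add_pos_of_pos_of_nonneg (T0 i z) (Real.sqrt_nonneg _)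
    rw [← setIntegral_eq_integral_of_forall_compl_eq_zero (s := K') fun z hz => by
      simp only [γ, hz0 z fun h => hz (h2 z h), zero_smul, zero_div, mul_zero]]
    refine setIntegral_mono_on ?_ ?_ hK'.measurableSet fun z hz => ?_
    · exact (ec.mul ((γc i).div ((T2 i).continuous.add (T2 i).continuous.sqrt)
        fun z => (tp z).ne')).continuousOn.integrableOn_compact hK'
    · refine ContinuousOn.integrableOn_compact hK' fun z hz => ContinuousAt.continuousWithinAt ?_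
      have := ec.continuousAt.mul (Qc z (hO' hz))
      refine this.congr (.of_forall fun w => ?_)
      simp only [Q, θ, Pi.mul_apply]
      ring
    · have q0 := Q0 z (hO' hz)
      have m0 := mm_pos (T0 i z)
      have h3 : γ i z / (T i z + √(T i z)) ≤ Q z := by
        rw [div_le_iff₀ (tp z)]
        refine (mul_le_of_le_one_left (div_nonneg q0 m0.le) (hm z).2).trans ?_
        rw [div_le_iff₀ m0, mul_assoc, mul_comm _ (mm _)]
        exact le_mul_of_one_le_right q0 (one_le_mm (T0 i z))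
      refine (mul_le_mul_of_nonneg_left h3 (Real.exp_pos _).le).trans_eq ?_
      simp only [Q, θ]
      ring

theorem ot (he : Submodule.span ℂ (range e) = ⊤) {l : J → Z →L[ℂ] ℂ}
    (hl : ∀ j k, l j (e k) = if j = k then 1 else 0) (j₀ : J) {O : Set Z} (hO : IsOpen O)
    (hH : ∀ z ∈ O, ContDiffAt ℝ 2 H z ∧ IsH (H z) ∧ ∀ v, v ≠ 0 → 0 < H z v v) {V : Z → Cn N}
    (hV : DifferentiableOn ℂ V O) {ε a : ℝ} (hε : ε ∈ Ioc (0 : ℝ) 1) (ha : 0 < a) {v φ : Z → ℝ}
    (hv : ContDiff ℝ 2 v) (hv' : ∀ z x, 0 ≤ lv v z x) (hφ : ContDiff ℝ 2 φ)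
    (hφ' : ∀ z x, 0 ≤ lv φ z x) {K K' : Set Z} (hK : IsCompact K) (hK' : IsCompact K')
    (hO' : K' ⊆ O) (h1 : ∀ z ∈ K, Real.log (‖l j₀ z‖ ^ 2 + ε ^ 2) + v z ≤ -(17 / 10 * a))
    (h2 : ∀ z, Real.log (‖l j₀ z‖ ^ 2 + ε ^ 2) + v z ≤ -a → z ∈ K')
    (hn : ∀ z ∈ K', ∀ α, ∃ C, 0 ≤ nk e H z α C) {g : Z → Cn N}
    (hg : ∀ z, g z = (conj (l j₀ z) / (‖l j₀ z‖ ^ 2 + ε ^ 2 : ℝ)) • V z) :
    ∃ f : Z → Cn N, Differentiable ℂ f ∧
      ∫ z in K, om (-(Real.log (‖l j₀ z‖ ^ 2 + ε ^ 2) + v z)) / (1 + ‖l j₀ z‖ ^ 2) *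
        (Real.exp (-φ z) * H z (g z - f z) (g z - f z)) ∂μ ≤ ∫ z in K',
          ε ^ 2 / (‖l j₀ z‖ ^ 2 + ε ^ 2) ^ 2 * (Real.exp (-φ z) * H z (V z) (V z)) ∂μ + 1 ∧
      ∫ z in K, om (Real.log ((1 + ‖l j₀ z‖ ^ 2) / (‖l j₀ z‖ ^ 2 + ε ^ 2)) + 1) /
        (1 + ‖l j₀ z‖ ^ 2) * (Real.exp (-φ z) * H z (g z - f z) (g z - f z)) ∂μ ≤ ∫ z in K',
          ε ^ 2 / (‖l j₀ z‖ ^ 2 + ε ^ 2) ^ 2 * (Real.exp (-φ z) * H z (V z) (V z)) ∂μ + 1 := by
  have hc : 0 < ε ^ 2 := pow_pos hε.1 2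
  have hc1 : ε ^ 2 ≤ 1 := pow_le_one₀ hε.1.le hε.2
  have sm : ∀ {c : ℝ}, 0 < c → ContDiff ℝ 2 fun z => Real.log (‖l j₀ z‖ ^ 2 + c) := fun hc =>
    ((contDiff_iff_contDiffAt.2 fun _ => alg2_smooth (l j₀)).add contDiff_const).log
      fun z => by positivity
  have l0 : ∀ z x, 0 ≤ lv (fun z => Real.log (‖l j₀ z‖ ^ 2 + 1)) z x := fun z x => by
    rw [lv_log _ one_pos]; positivity
  let t : Bool → Z → ℝ := fun i z => bif i then -1 * (Real.log (‖l j₀ z‖ ^ 2 + ε ^ 2) + v z) else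
    Real.log (‖l j₀ z‖ ^ 2 + 1) + (-1 * Real.log (‖l j₀ z‖ ^ 2 + ε ^ 2) + 1)
  have t1 : ∀ z, 1 ≤ t false z := fun z => by
    have := Real.log_le_log (by positivity : 0 < ‖l j₀ z‖ ^ 2 + ε ^ 2)
      (add_le_add_right hc1 (‖l j₀ z‖ ^ 2))
    simp only [t, cond_false]
    linarith
  obtain ⟨f, hf, hI⟩ := oe4_main (μ := μ) he hl j₀ hO hH hV hc ha
    (ψ := fun z => Real.log (‖l j₀ z‖ ^ 2 + ε ^ 2) + v z)
    (φ := fun z => φ z + Real.log (‖l j₀ z‖ ^ 2 + 1)) ((sm hc).add hv)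
    (fun z x => by
      rw [lv_add (sm hc).contDiffAt hv.contDiffAt, lv_log _ hc]
      exact add_nonneg (by positivity) (hv' z x))
    (hφ.add (sm one_pos))
    (fun z x => by
      rw [lv_add hφ.contDiffAt (sm one_pos).contDiffAt]
      exact add_nonneg (hφ' z x) (l0 z x))
    hK hK' hO' h1 h2 hn (funext hg) (t := t) (k := fun i => bif i then a else 1)
    (fun i => by
      cases i
      · exact (sm one_pos).add ((contDiff_const.mul (sm hc)).add contDiff_const)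
      · exact contDiff_const.mul ((sm hc).add hv))
    (fun i => by cases i; exacts [one_pos, ha])
    (fun i z hz => by
      cases i
      · exact t1 z
      · simp only [t, cond_true]
        linarith)
    (fun i z x hz => by
      rw [lv_add hφ.contDiffAt (sm one_pos).contDiffAt]
      have a1 := hφ' z x
      have a2 := l0 z x
      cases i
      · have e1 : lv (t false) z x = lv (fun z => Real.log (‖l j₀ z‖ ^ 2 + 1)) z x -
            4 * (ε ^ 2 / (‖l j₀ z‖ ^ 2 + ε ^ 2) ^ 2) * ‖l j₀ x‖ ^ 2 := by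
          have : lv (fun _ : Z => (1 : ℝ)) z x = 0 := by simp [lv]
          simp only [t, cond_false]
          rw [lv_add (sm one_pos).contDiffAt
            ((contDiff_const.mul (sm hc)).add contDiff_const).contDiffAt,
            lv_add (contDiff_const.mul (sm hc)).contDiffAt contDiffAt_const,
            lv_const_mul (sm hc).contDiffAt, lv_log _ hc, this]
          ring
        rw [e1, add_sub_cancel]
        linarith [mul_le_of_le_one_left a2 (mm_le (t1 z))]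
      · have e1 : lv (t true) z x =
            -(4 * (ε ^ 2 / (‖l j₀ z‖ ^ 2 + ε ^ 2) ^ 2) * ‖l j₀ x‖ ^ 2) - lv v z x := by
          simp only [t, cond_true]
          rw [lv_const_mul ((sm hc).add hv).contDiffAt, lv_add (sm hc).contDiffAt hv.contDiffAt,
            lv_log _ hc]
          ring
        have m0 : 0 < mm (t true z) := mm_pos (by simp only [t, cond_true]; linarith)
        rw [e1]
        nlinarith [mul_nonneg m0.le (hv' z x)])
  have ee : ∀ z, Real.exp (-(φ z + Real.log (‖l j₀ z‖ ^ 2 + 1))) =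
      Real.exp (-φ z) / (1 + ‖l j₀ z‖ ^ 2) := fun z => by
    rw [neg_add, Real.exp_add, Real.exp_neg (Real.log _), Real.exp_log (by positivity), add_comm 1,
      div_eq_mul_inv]
  have hVc : ∀ z ∈ K', ContinuousAt (fun z => ε ^ 2 / (‖l j₀ z‖ ^ 2 + ε ^ 2) ^ 2 *
      (Real.exp (-φ z) * H z (V z) (V z))) z := fun z hz => by
    have hv1 := (hV.differentiableAt (hO.mem_nhds (hO' hz))).continuousAt
    exact (continuousAt_const.div (by fun_prop) (by positivity)).mul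
      ((Real.continuous_exp.comp hφ.continuous.neg).continuousAt.mul
        (((hH z (hO' hz)).1.continuousAt.clm_apply hv1).clm_apply hv1))
  have hR : ∫ z in K', ε ^ 2 / (‖l j₀ z‖ ^ 2 + ε ^ 2) ^ 2 *
      (Real.exp (-(φ z + Real.log (‖l j₀ z‖ ^ 2 + 1))) * H z (V z) (V z)) ∂μ ≤ ∫ z in K',
        ε ^ 2 / (‖l j₀ z‖ ^ 2 + ε ^ 2) ^ 2 * (Real.exp (-φ z) * H z (V z) (V z)) ∂μ := by
    refine setIntegral_mono_on ?_ (ContinuousOn.integrableOn_compact hK' fun z hz =>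
      (hVc z hz).continuousWithinAt) hK'.measurableSet fun z hz => ?_
    · refine ContinuousOn.integrableOn_compact hK' fun z hz => ContinuousAt.continuousWithinAt ?_
      have h3 : ContinuousAt (fun z => 1 + ‖l j₀ z‖ ^ 2) z := by fun_prop
      refine ((hVc z hz).div h3 (by positivity)).congr (.of_forall fun w => ?_)
      simp only [ee, Pi.div_apply]
      ring
    · rw [ee]
      refine mul_le_mul_of_nonneg_left (mul_le_mul_of_nonneg_right
        (div_le_self (Real.exp_pos _).le (le_add_of_nonneg_right (by positivity)))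
        (oe4_nonneg (hH z (hO' hz)).2.2 _)) (by positivity)
  refine ⟨f, hf, le_trans (le_of_eq ?_) ((hI true).trans (add_le_add_left hR 1)),
    le_trans (le_of_eq ?_) ((hI false).trans (add_le_add_left hR 1))⟩
  · refine setIntegral_congr_fun hK.measurableSet fun z _ => ?_
    simp only [ee, t, cond_true, neg_one_mul]
    ring
  · refine setIntegral_congr_fun hK.measurableSet fun z _ => ?_
    have : Real.log ((1 + ‖l j₀ z‖ ^ 2) / (‖l j₀ z‖ ^ 2 + ε ^ 2)) + 1 = t false z := by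
      simp only [t, cond_false]
      rw [Real.log_div (by positivity) (by positivity), add_comm 1]
      ring
    simp only [ee, this]
    ring

end Pool.Agent.Lib.MP_124863_gt.Ok
end

-- part Pool.Agent.Lib.MP_124863_gt.OkExt
section

/-! Extension of vector fields with estimates. -/

set_option linter.unusedSectionVars false

open Filter Topology Set Metric Complex MeasureTheory
open scoped Real ENNReal ComplexConjugate

namespace Pool.Agent.Lib.MP_124863_gt.Ok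

open Ec

variable {n N : ℕ} {M : Type} [MetricSpace M] {ι : M → Cn N} {q : Cn N → M} {U : Set (Cn N)}
  {G : Cn N → Bil N} {E : Type} [NormedAddCommGroup E] [NormedSpace ℝ E] [NormedSpace ℂ E]
  [IsScalarTower ℝ ℂ E] [FiniteDimensional ℝ E] [FiniteDimensional ℂ E] [MeasurableSpace E]
  [BorelSpace E] (μ : Measure E) [μ.IsAddHaarMeasure]

theorem okx_basis : ∃ (J : Type) (_ : Fintype J) (_ : DecidableEq J) (e : J → E × ℂ)
    (l : J → E × ℂ →L[ℂ] ℂ) (j₀ : J), Submodule.span ℂ (range e) = ⊤ ∧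
      (∀ j k, l j (e k) = if j = k then 1 else 0) ∧ ∀ z, l j₀ z = z.2 := by
  classical
  let b := (Module.finBasis ℂ E).prod (Module.Basis.singleton Unit ℂ)
  refine ⟨_, inferInstance, inferInstance, b, fun j => LinearMap.toContinuousLinearMap (b.coord j),
    Sum.inr (), b.span_eq, fun j k => ?_, fun z => ?_⟩
  · simp [Finsupp.single_apply, eq_comm]
  · simp [b]

theorem okx_cpt {L : Set E} {u : E → ℝ} (hL : IsCompact L) (hu : ContinuousOn u L) :
    IsCompact (Hc L u) := by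
  have h1 := (hL.prod (isCompact_closedBall (0 : ℂ) 1)).image_of_continuousOn
    (f := fun p : E × ℂ => (p.1, (Real.exp (-u p.1) : ℂ) * p.2)) (continuousOn_fst.prodMk
      ((continuous_ofReal.comp_continuousOn (hu.comp continuousOn_fst fun p hp => hp.1).neg.rexp).mul
        continuousOn_snd))
  convert h1 using 1
  ext z
  constructor
  · intro hz
    have e0 := Real.exp_pos (-u z.1)
    refine ⟨(z.1, z.2 / Real.exp (-u z.1)), ⟨hz.1, ?_⟩, Prod.ext rfl
      (mul_div_cancel₀ _ (ofReal_ne_zero.2 e0.ne'))⟩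
    rw [mem_closedBall_zero_iff, norm_div, norm_real, Real.norm_of_nonneg e0.le, div_le_one e0]
    exact hz.2
  · rintro ⟨p, hp, rfl⟩
    have e0 := Real.exp_pos (-u p.1)
    refine ⟨hp.1, ?_⟩
    rw [norm_mul, norm_real, Real.norm_of_nonneg e0.le]
    exact mul_le_of_le_one_right e0.le (mem_closedBall_zero_iff.1 hp.2)

theorem okx_open {L : Set E} {u : E → ℝ} (hL : IsOpen L) (hu : ContinuousOn u L) :
    IsOpen (Ht L u) := by
  have h1 : ContinuousOn (fun z : E × ℂ => Real.exp (-u z.1) - ‖z.2‖) (Prod.fst ⁻¹' L) :=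
    (hu.comp continuousOn_fst fun p hp => hp).neg.rexp.sub continuousOn_snd.norm
  convert h1.isOpen_inter_preimage (hL.preimage continuous_fst) (isOpen_Ioi (a := 0)) using 1
  ext z
  simp [Ht]

theorem okx_lint {X : Type} [TopologicalSpace X] [T2Space X] [MeasurableSpace X]
    [OpensMeasurableSpace X] {ν : Measure X} [IsFiniteMeasureOnCompacts ν] {K : Set X}
    (hK : IsCompact K) {I S T : X → ℝ} {c C : ℝ} (hc : 0 ≤ c) (hT : ContinuousOn T K)
    (h0 : ∀ z ∈ K, 0 ≤ T z) (h1 : ∀ z ∈ K, I z ≤ S z + c * T z)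
    (h2 : ∫⁻ z in K, ENNReal.ofReal (S z) ∂ν ≤ 1) (h3 : ∫ z in K, T z ∂ν ≤ C) :
    ∫⁻ z in K, ENNReal.ofReal (I z) ∂ν ≤ ENNReal.ofReal (1 + c * C) := by
  have i1 : IntegrableOn (fun z => c * T z) K ν := (hT.integrableOn_compact hK).const_mul c
  have i2 : 0 ≤ᵐ[ν.restrict K] fun z => c * T z :=
    (ae_restrict_mem hK.measurableSet).mono fun z hz => mul_nonneg hc (h0 z hz)
  have i3 : 0 ≤ C := (setIntegral_nonneg hK.measurableSet h0).trans h3
  refine (setLIntegral_mono' hK.measurableSet fun z hz =>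
    (ENNReal.ofReal_le_ofReal (h1 z hz)).trans ENNReal.ofReal_add_le).trans ?_
  rw [lintegral_add_right' _ i1.aemeasurable.ennreal_ofReal,
    ← ofReal_integral_eq_lintegral_ofReal i1 i2, integral_const_mul,
    ENNReal.ofReal_add zero_le_one (mul_nonneg hc i3), ENNReal.ofReal_one]
  exact add_le_add h2 (ENNReal.ofReal_le_ofReal (mul_le_mul_of_nonneg_left h3 hc))

theorem okx_split {B : Bil N} (hB : IsH B) (h0 : ∀ v, 0 ≤ B v v) {ε : ℝ} (hε : 0 < ε) (w : ℂ)
    (V f : Cn N) : B (V - w • f) (V - w • f) ≤ 2 * (ε ^ 2 / (‖w‖ ^ 2 + ε ^ 2)) ^ 2 * B V V +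
      2 * ‖w‖ ^ 2 * B ((conj w / (‖w‖ ^ 2 + ε ^ 2 : ℝ)) • V - f)
        ((conj w / (‖w‖ ^ 2 + ε ^ 2 : ℝ)) • V - f) := by
  have p0 : 0 < ‖w‖ ^ 2 + ε ^ 2 := by positivity
  have e1 : V - w • f = ((ε ^ 2 / (‖w‖ ^ 2 + ε ^ 2) : ℝ) : ℂ) • V +
      w • ((conj w / (‖w‖ ^ 2 + ε ^ 2 : ℝ)) • V - f) := by
    rw [smul_sub, smul_smul, ← add_sub_assoc, ← add_smul, ← mul_div_assoc, mul_conj', ← ofReal_pow,
      ← ofReal_div, ← ofReal_add, ← add_div, add_comm (ε ^ 2), div_self p0.ne', ofReal_one, one_smul]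
  have e2 := isH_smul hB ((ε ^ 2 / (‖w‖ ^ 2 + ε ^ 2) : ℝ) : ℂ) V
  have e3 := isH_smul hB w ((conj w / (‖w‖ ^ 2 + ε ^ 2 : ℝ)) • V - f)
  rw [norm_real, Real.norm_eq_abs, sq_abs] at e2
  rw [e1, mul_assoc, mul_assoc, ← e2, ← e3]
  generalize ((ε ^ 2 / (‖w‖ ^ 2 + ε ^ 2) : ℝ) : ℂ) • V = p
  generalize w • ((conj w / (‖w‖ ^ 2 + ε ^ 2 : ℝ)) • V - f) = r
  have := h0 (p - r)
  simp only [map_add, map_sub, add_apply, sub_apply] at this ⊢
  linarith

theorem ext (h : Data n ι q U G) (hn : HasNak n ι q U G) : ∃ C₂ : ℝ, 0 < C₂ ∧ ∀ R₀ : ℝ, ∃ C₁ : ℝ,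
    0 < C₁ ∧ ∀ (L L₁ : Set E) (r : E → ℝ) (a : ℝ) (u φ : E → ℝ) (F : E × ℂ → Cn N) (A : E → Cn N),
    IsCompact L → IsCompact L₁ → Continuous r → SM r univ → (∀ b ∈ L₁, r b ≤ 0) →
    (∀ b, r b < 1 → b ∈ L) → 0 < a →
    ContinuousOn u L → SM u L → ContinuousOn φ L → SM φ L → (∀ b ∈ L, Real.exp (-u b) ≤ R₀) →
    (∀ z ∈ Ht L u, DifferentiableAt ℂ F z ∧ F z ∈ range ι) →
    (∀ b ∈ L, DifferentiableAt ℂ A b ∧ fderiv ℂ (ι ∘ q) (F (b, 0)) (A b) = A b) →
    ∫ b in L, Real.exp (-φ b) * G (F (b, 0)) (A b) (A b) ∂μ ≤ 1 →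
    ∃ y : E × ℂ → Cn N,
      (∀ z ∈ Ht L u, DifferentiableAt ℂ y z ∧ fderiv ℂ (ι ∘ q) (F z) (y z) = y z) ∧
      (∀ b ∈ L, y (b, 0) = A b) ∧
      ∫⁻ z in Hc L₁ fun b => u b + a, ENNReal.ofReal (Real.exp (-φ z.1) * G (F z) (y z) (y z) /
        (‖z.2‖ * √(-Real.log ‖z.2‖ - u z.1))) ∂μ.prod volume ≤ ENNReal.ofReal C₁ ∧
      ∫⁻ z in Hc L₁ fun b => u b + a, ENNReal.ofReal (Real.exp (-φ z.1) * G (F z) (y z) (y z) /
        (‖z.2‖ * (1 + ‖z.2‖ ^ 2) ^ 4)) ∂μ.prod volume ≤ ENNReal.ofReal C₂ := by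
  have := FiniteDimensional.proper_real E
  obtain ⟨c0, c0p, hc0⟩ := main_term μ
  obtain ⟨J, _, _, e, l, j₀, he, hl, hl0⟩ := okx_basis (E := E)
  refine ⟨1 + 800 * Real.exp 1 * (Real.exp 1 * c0 + 1), by positivity, fun R₀ =>
    ⟨1 + 60 * Real.exp 1 * (|R₀| * (1 + |R₀| ^ 2)) * (Real.exp 1 * c0 + 1), by positivity, ?_⟩⟩
  intro L L₁ r a u φ F A hL hL₁ hr hr' hr0 hr1 ha hu hsu hφ hsφ hR hF hA hI
  -- the sets
  obtain ⟨L', hL'⟩ : ∃ L', L' = {b | r b ≤ 1 / 2} := ⟨_, rfl⟩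
  have mL : ∀ b, b ∈ L' ↔ r b ≤ 1 / 2 := fun b => by rw [hL']; rfl
  have s1 : L' ⊆ interior L := fun b hb => mem_interior_iff_mem_nhds.2 (mem_of_superset
    ((isOpen_lt hr continuous_const).mem_nhds
      (show r b < 1 by linarith [(mL b).1 hb])) fun x hx => hr1 x hx)
  have s2 : L' ⊆ L := s1.trans interior_subset
  have s3 : L₁ ⊆ L' := fun b hb => (mL b).2 (by linarith [hr0 b hb])
  have cL' : IsCompact L' := hL.of_isClosed_subset (hL' ▸ isClosed_le hr continuous_const) s2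
  have hO := okx_open isOpen_interior (hu.mono interior_subset)
  have hK' := okx_cpt cL' ((hu.mono s2).add (continuousOn_const (c := a / 4)))
  have hK := okx_cpt hL₁ ((hu.mono (s3.trans s2)).add (continuousOn_const (c := a)))
  obtain ⟨K', eK'⟩ : ∃ K', K' = Hc L' fun b => u b + a / 4 := ⟨_, rfl⟩
  obtain ⟨K, eK⟩ : ∃ K, K = Hc L₁ fun b => u b + a := ⟨_, rfl⟩
  replace hK' : IsCompact K' := eK' ▸ hK'
  replace hK : IsCompact K := eK ▸ hK
  have mK' : ∀ z, z ∈ K' ↔ z.1 ∈ L' ∧ ‖z.2‖ ≤ Real.exp (-(u z.1 + a / 4)) := fun z => by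
    rw [eK']; rfl
  have mK : ∀ z, z ∈ K ↔ z.1 ∈ L₁ ∧ ‖z.2‖ ≤ Real.exp (-(u z.1 + a)) := fun z => by rw [eK]; rfl
  rw [← eK]
  have k1 : K ⊆ K' := fun z hz => (mK' z).2 ⟨s3 ((mK z).1 hz).1,
    ((mK z).1 hz).2.trans (Real.exp_le_exp.2 (by linarith))⟩
  have k2 : K' ⊆ Ht (interior L) u := fun z hz => ⟨s1 ((mK' z).1 hz).1,
    ((mK' z).1 hz).2.trans_lt (Real.exp_lt_exp.2 (by linarith))⟩
  have k3 : Ht (interior L) u ⊆ Ht L u := fun z hz => ⟨interior_subset hz.1, hz.2⟩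
  have k4 : L ×ˢ {0} ⊆ Ht L u := by
    rintro ⟨b, w⟩ ⟨hb, rfl⟩
    exact ⟨hb, by simpa using Real.exp_pos _⟩
  obtain ⟨H, H1, H2, H3⟩ := exists_metric h hn (e := e) hl hO hK' k2
    (fun z hz => (hF z (k3 hz)).1.differentiableWithinAt) fun z hz => (hF z (k3 hz)).2
  have dP : ∀ z ∈ Ht L u, DifferentiableAt ℂ (fun z => fderiv ℂ (ι ∘ q) (F z)) z := fun z hz =>
    ((e3_hol h).differentiableAt (h.isOpen.mem_nhds (h.sub (hF z hz).2))).comp z (hF z hz).1
  have dA : ∀ z ∈ Ht L u, DifferentiableAt ℂ (fun z : E × ℂ => A z.1) z := fun z hz =>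
    DifferentiableAt.comp (g := A) z (hA z.1 hz.1).1 differentiableAt_fst
  obtain ⟨V, hV⟩ : ∃ V : E × ℂ → Cn N, V = fun z => fderiv ℂ (ι ∘ q) (F z) (A z.1) := ⟨_, rfl⟩
  have V0 : ∀ z, V z = fderiv ℂ (ι ∘ q) (F z) (A z.1) := fun z => by rw [hV]
  have dV : ∀ z ∈ Ht L u, DifferentiableAt ℂ V z := fun z hz => hV ▸ (dP z hz).clm_apply (dA z hz)
  have cV : ContinuousOn V (Ht L u) := fun z hz => (dV z hz).continuousAt.continuousWithinAt
  obtain ⟨Θ, hΘ⟩ : ∃ Θ : E × ℂ → ℝ, Θ = fun z => Real.exp (-φ z.1) * G (F z) (V z) (V z) := ⟨_, rfl⟩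
  have Θ0 : ∀ z, Θ z = Real.exp (-φ z.1) * G (F z) (V z) (V z) := fun z => by rw [hΘ]
  have cΘ : ContinuousOn Θ (Ht L u) := hΘ ▸
    (hφ.comp continuousOn_fst fun z hz => hz.1).neg.rexp.mul (((h.cG.comp
      (fun z hz => (hF z hz).1.continuousAt.continuousWithinAt)
      fun z hz => h.sub (hF z hz).2).clm_apply cV).clm_apply cV)
  have pΘ : ∀ z ∈ Ht L u, 0 ≤ Θ z := fun z hz => by
    rw [Θ0]; exact mul_nonneg (Real.exp_pos _).le (h.nonneg (h.sub (hF z hz).2) _)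
  have k5 : K' ∪ L ×ˢ {0} ⊆ Ht L u := union_subset (k2.trans k3) k4
  have k6 : K ⊆ Ht L u := k1.trans (k2.trans k3)
  -- the choice of the parameter
  have ev1 := hc0 K' L Θ hK' hL (fun z hz => s2 ((mK' z).1 hz).1) (cΘ.mono k5)
    (fun z hz => pΘ z (k5 hz)) (le_of_eq_of_le (setIntegral_congr_fun hL.measurableSet
      fun b hb => by simp only [Θ0, V0, (hA b hb).2]) hI)
  have ev2 := small_term μ hK (Θ := fun z => 2 * (1 + (√a)⁻¹) * Θ z)
    (continuousOn_const.mul (cΘ.mono k6))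
  obtain ⟨m, hm⟩ := hL.exists_bound_of_continuousOn hu
  have ev3 : ∀ᶠ ε : ℝ in 𝓝[>] 0, ε ^ 2 < a / 10 * Real.exp (-(m + a)) ^ 2 :=
    nhdsWithin_le_nhds ((by fun_prop : ContinuousAt (fun ε : ℝ => ε ^ 2) 0).eventually
      (gt_mem_nhds (by simp only [zero_pow two_ne_zero]; positivity)))
  obtain ⟨ε, ⟨⟨ε1, ε2⟩, ε3⟩, hε⟩ := (((ev1.and ev2).and ev3).and (Ioc_mem_nhdsGT one_pos)).exists
  have hε : ε ∈ Ioc (0 : ℝ) 1 := hε
  have ε0 := hε.1
  have p0 : ∀ w : ℂ, 0 < ‖w‖ ^ 2 + ε ^ 2 := fun w => by positivity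
  obtain ⟨v, v1, v2, v3, v4, v5⟩ := reg' hL hr hr' hr0 hr1 hu hsu (-Real.log ε) (η := a / 10)
    (by positivity)
  obtain ⟨ψ, ψ1, ψ2, ψ3, ψ4, -⟩ := reg' hL hr hr' hr0 hr1 hφ hsφ 0 one_pos
  have cv : ContDiff ℝ 2 fun z : E × ℂ => v z.1 := v1.comp contDiff_fst
  have cψ : ContDiff ℝ 2 fun z : E × ℂ => ψ z.1 := ψ1.comp contDiff_fst
  have a1 : ∀ z ∈ K, Real.log (‖z.2‖ ^ 2 + ε ^ 2) + 2 * v z.1 ≤ -(17 / 10 * a) := by
    intro z hz
    obtain ⟨b1, b2⟩ := (mK z).1 hz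
    have b3 : Real.exp (-(m + a)) ≤ Real.exp (-(u z.1 + a)) := Real.exp_le_exp.2 (by
      linarith [(abs_le.1 (hm _ (s2 (s3 b1)))).2])
    have b4 := pow_le_pow_left₀ (Real.exp_pos _).le b3 2
    have b5 := pow_le_pow_left₀ (norm_nonneg _) b2 2
    have b6 : ‖z.2‖ ^ 2 + ε ^ 2 ≤ (1 + a / 10) * Real.exp (-(u z.1 + a)) ^ 2 := by nlinarith
    have b7 := Real.log_le_log (p0 _) b6
    rw [Real.log_mul (by positivity) (by positivity), Real.log_pow, Real.log_exp] at b7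
    have b8 := Real.log_le_sub_one_of_pos (x := 1 + a / 10) (by positivity)
    push_cast at b7
    linarith [v3 _ b1]
  have a2 : ∀ z : E × ℂ, Real.log (‖z.2‖ ^ 2 + ε ^ 2) + 2 * v z.1 ≤ -a → z ∈ K' := by
    intro z hz
    have b1 : r z.1 ≤ 1 / 2 := by
      by_contra hlt
      have b2 := v5 _ (not_le.1 hlt).le
      have b3 := Real.log_le_log (by positivity : 0 < ε ^ 2)
        (le_add_of_nonneg_left (sq_nonneg ‖z.2‖))
      rw [Real.log_pow] at b3
      push_cast at b3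
      linarith
    refine (mK' z).2 ⟨(mL _).2 b1, le_of_sq_le_sq ?_ (Real.exp_pos _).le⟩
    rw [← Real.exp_nat_mul]
    refine (le_add_of_nonneg_right (sq_nonneg ε)).trans ((Real.log_le_iff_le_exp (p0 _)).1 ?_)
    push_cast
    linarith [v4 _ b1]
  obtain ⟨g, hg⟩ : ∃ g : E × ℂ → Cn N,
      g = fun z => (conj z.2 / (‖z.2‖ ^ 2 + ε ^ 2 : ℝ) : ℂ) • V z := ⟨_, rfl⟩
  have g0 : ∀ z, g z = (conj z.2 / (‖z.2‖ ^ 2 + ε ^ 2 : ℝ) : ℂ) • V z := fun z => by rw [hg]
  obtain ⟨f, f1, f2, f3⟩ := ot (μ := μ.prod volume) he hl j₀ hO H1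
    (fun z hz => (dV z (k3 hz)).differentiableWithinAt) hε ha (v := fun z => 2 * v z.1)
    (φ := fun z => ψ z.1) (contDiff_const.mul cv) (fun z x => by
      rw [lv_const_mul cv.contDiffAt]
      exact mul_nonneg two_pos.le ((v2 _ _).trans_eq
        (lv_clm (ContinuousLinearMap.fst ℂ E ℂ) v1.contDiffAt x).symm)) cψ
    (fun z x => (ψ2 _ _).trans_eq (lv_clm (ContinuousLinearMap.fst ℂ E ℂ) ψ1.contDiffAt x).symm)
    hK hK' k2 (by simpa only [hl0] using a1) (by simpa only [hl0] using a2) H3 (g := g)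
    (by simpa only [hl0] using g0)
  simp only [hl0] at f2 f3
  have cH : ContinuousOn H K' := fun z hz => (H1 z (k2 hz)).1.continuousAt.continuousWithinAt
  have cθ : Continuous fun z : E × ℂ => ε ^ 2 / (‖z.2‖ ^ 2 + ε ^ 2) ^ 2 :=
    continuous_const.div (by fun_prop) fun z => (pow_pos (p0 _) 2).ne'
  have rhs : ∫ z in K', ε ^ 2 / (‖z.2‖ ^ 2 + ε ^ 2) ^ 2 * (Real.exp (-ψ z.1) * H z (V z) (V z))
      ∂μ.prod volume ≤ Real.exp 1 * c0 := by
    refine le_trans ?_ (mul_le_mul_of_nonneg_left ε1 (Real.exp_pos 1).le)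
    rw [← integral_const_mul]
    have cV' := cV.mono (k2.trans k3)
    refine setIntegral_mono_on ((cθ.continuousOn.mul (cψ.continuous.neg.rexp.continuousOn.mul
      ((cH.clm_apply cV').clm_apply cV'))).integrableOn_compact hK')
      ((continuousOn_const.mul (cθ.continuousOn.mul (cΘ.mono (k2.trans k3)))).integrableOn_compact hK')
      hK'.measurableSet fun z hz => ?_
    have b0 := (hF z (k3 (k2 hz))).2
    rw [mul_left_comm (Real.exp 1), (H2 z (k2 hz) _).2 (by rw [V0, e3_idem h b0]), Θ0,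
      ← mul_assoc (Real.exp 1), ← Real.exp_add]
    refine mul_le_mul_of_nonneg_left (mul_le_mul_of_nonneg_right (Real.exp_le_exp.2 ?_)
      (h.nonneg (h.sub b0) _)) (by positivity)
    linarith [ψ4 _ ((mL _).1 ((mK' z).1 hz).1)]
  obtain ⟨T, hT⟩ : ∃ T : E × ℂ → ℝ,
      ∀ z, T z = Real.exp (-ψ z.1) * H z (g z - f z) (g z - f z) := ⟨_, fun _ => rfl⟩
  simp only [← hT] at f2 f3
  have cg : ContinuousOn (fun z => g z - f z) K := by
    refine ContinuousOn.sub (hg ▸ ContinuousOn.fun_smul (Continuous.continuousOn ?_) (cV.mono k6))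
      f1.continuous.continuousOn
    exact (continuous_conj.comp continuous_snd).div (by fun_prop) fun z => ofReal_ne_zero.2 (p0 _).ne'
  have cT : ContinuousOn T K := by
    rw [show T = _ from funext hT]
    exact cψ.continuous.neg.rexp.continuousOn.mul (((cH.mono k1).clm_apply cg).clm_apply cg)
  have pT : ∀ z ∈ K, 0 ≤ T z := fun z hz => by
    rw [hT]
    exact mul_nonneg (Real.exp_pos _).le ((h.nonneg (h.sub (hF z (k6 hz)).2) _).trans
      (H2 z (k2 (k1 hz)) _).1)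
  refine ⟨fun z => fderiv ℂ (ι ∘ q) (F z) (A z.1 - z.2 • f z), fun z hz => ⟨(dP z hz).clm_apply
    ((dA z hz).sub (differentiableAt_snd.smul (f1 z))), e3_idem h (hF z hz).2 _⟩,
    fun b hb => by simp only [zero_smul, sub_zero, (hA b hb).2], ?_⟩
  have key : ∀ z ∈ K, Real.exp (-φ z.1) * G (F z) (fderiv ℂ (ι ∘ q) (F z) (A z.1 - z.2 • f z))
      (fderiv ℂ (ι ∘ q) (F z) (A z.1 - z.2 • f z)) ≤
      2 * (ε ^ 2 / (‖z.2‖ ^ 2 + ε ^ 2)) ^ 2 * Θ z + 2 * Real.exp 1 * ‖z.2‖ ^ 2 * T z := by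
    intro z hz
    have b0 := (hF z (k6 hz)).2
    obtain ⟨_, _, _, hch⟩ := h.loc _ (h.sub b0)
    have b1 : fderiv ℂ (ι ∘ q) (F z) (A z.1 - z.2 • f z) =
        fderiv ℂ (ι ∘ q) (F z) (V z - z.2 • f z) := by
      rw [map_sub, map_sub, V0, e3_idem h b0]
    have b2 := okx_split hch.isH' hch.nonneg ε0 z.2 (V z) (f z)
    rw [← g0] at b2
    rw [b1, e3_inv h b0, hch.isH'.symm, e3_inv h b0, Θ0, hT]
    have b3 := (H2 z (k2 (k1 hz)) (g z - f z)).1
    have b4 : Real.exp (-φ z.1) ≤ Real.exp 1 * Real.exp (-ψ z.1) := by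
      rw [← Real.exp_add]
      exact Real.exp_le_exp.2 (by linarith [ψ3 _ ((mK z).1 hz).1])
    have b5 := mul_le_mul b4 b3 (hch.nonneg _) (by positivity)
    have b6 := mul_le_mul_of_nonneg_left b2 (Real.exp_pos (-φ z.1)).le
    have b7 := mul_le_mul_of_nonneg_left b5 (sq_nonneg ‖z.2‖)
    linarith
  have fin : ∀ (D W : E × ℂ → ℝ) (c : ℝ), 0 ≤ c → ContinuousOn W K → (∀ z ∈ K, 0 ≤ W z) →
      (∀ z ∈ K, 0 < ‖z.2‖ → 0 < D z ∧ (D z)⁻¹ ≤ 1 + (√a)⁻¹ ∧ ‖z.2‖ ^ 2 / (‖z.2‖ * D z) ≤ c * W z) →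
      ∫ z in K, W z * T z ∂μ.prod volume ≤ Real.exp 1 * c0 + 1 →
      ∫⁻ z in K, ENNReal.ofReal (Real.exp (-φ z.1) *
        G (F z) (fderiv ℂ (ι ∘ q) (F z) (A z.1 - z.2 • f z))
          (fderiv ℂ (ι ∘ q) (F z) (A z.1 - z.2 • f z)) / (‖z.2‖ * D z)) ∂μ.prod volume ≤
        ENNReal.ofReal (1 + 2 * Real.exp 1 * c * (Real.exp 1 * c0 + 1)) := by
    intro D W c hc0 cW pW hD hW
    refine okx_lint hK (T := fun z => W z * T z) (by positivity) (cW.mul cT) (fun z hz => mul_nonneg (pW z hz) (pT z hz))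
      (fun z hz => ?_) ε2 hW
    have b1 := pΘ z (k6 hz)
    have b2 := pT z hz
    have b3 := pW z hz
    rcases (norm_nonneg z.2).eq_or_lt with h0 | h0
    · rw [← h0, zero_mul, div_zero, div_zero, zero_add]
      positivity
    obtain ⟨d1, d2, d3⟩ := hD z hz h0
    refine (div_le_div_of_nonneg_right (key z hz) (mul_pos h0 d1).le).trans ?_
    rw [add_div]
    refine add_le_add ?_ ?_
    · have := mul_le_mul_of_nonneg_left d2
        (show 0 ≤ 2 * (ε ^ 2 / (‖z.2‖ ^ 2 + ε ^ 2)) ^ 2 * Θ z / ‖z.2‖ by positivity)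
      rw [← div_div, div_eq_mul_inv _ (D z)]
      exact this.trans_eq (by ring)
    · have := mul_le_mul_of_nonneg_left d3 (show 0 ≤ 2 * Real.exp 1 * T z by positivity)
      refine le_of_eq_of_le ?_ (this.trans_eq ?_) <;> ring
  have cw : Continuous fun z : E × ℂ => 1 + ‖z.2‖ ^ 2 := by fun_prop
  have cl : Continuous fun z : E × ℂ => ‖z.2‖ ^ 2 + ε ^ 2 := by fun_prop
  constructor
  · have t1 : ∀ z ∈ K, 0 < -(Real.log (‖z.2‖ ^ 2 + ε ^ 2) + 2 * v z.1) := fun z hz => by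
      linarith [a1 z hz]
    refine (fin _ (fun z => om (-(Real.log (‖z.2‖ ^ 2 + ε ^ 2) + 2 * v z.1)) / (1 + ‖z.2‖ ^ 2))
      (30 * (|R₀| * (1 + |R₀| ^ 2))) (by positivity) ((om_cont.comp
      ((cl.log fun z => (p0 _).ne').add (continuous_const.mul cv.continuous)).neg.continuousOn
      t1).div cw.continuousOn fun z _ => by positivity)
      (fun z hz => div_nonneg (om_pos (t1 z hz)).le (by positivity)) (fun z hz h0 => ?_)
      (f2.trans (by linarith))).trans_eq (by congr 1; ring)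
    obtain ⟨b1, b2⟩ := (mK z).1 hz
    have b3 := (Real.log_le_iff_le_exp h0).2 b2
    have b4 : a ≤ -Real.log ‖z.2‖ - u z.1 := by linarith
    have b5 := Real.sqrt_pos.2 ha
    refine ⟨Real.sqrt_pos.2 (by linarith), le_add_of_nonneg_of_le zero_le_one
      (inv_anti₀ b5 (Real.sqrt_le_sqrt b4)), wt1 h0 (by linarith) (t1 z hz) ?_ ?_⟩
    · have b6 := Real.log_le_log (by positivity : 0 < ‖z.2‖ ^ 2)
        (le_add_of_nonneg_right (sq_nonneg ε))
      rw [Real.log_pow] at b6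
      push_cast at b6
      linarith [v4 _ ((mL _).1 (s3 b1))]
    · refine le_trans (le_of_eq ?_) (mul_le_mul_of_nonneg_right ((hR _ (s2 (s3 b1))).trans
        (le_abs_self _)) (Real.exp_pos _).le)
      rw [← Real.exp_add, ← Real.exp_log h0, Real.log_exp]
      congr 1
      ring
  · have t2 : ∀ z : E × ℂ, 0 < Real.log ((1 + ‖z.2‖ ^ 2) / (‖z.2‖ ^ 2 + ε ^ 2)) + 1 := fun z => by
      have : 0 ≤ Real.log ((1 + ‖z.2‖ ^ 2) / (‖z.2‖ ^ 2 + ε ^ 2)) := Real.log_nonneg (by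
        rw [one_le_div (p0 _)]; nlinarith [hε.2])
      linarith
    refine (fin _ (fun z => om (Real.log ((1 + ‖z.2‖ ^ 2) / (‖z.2‖ ^ 2 + ε ^ 2)) + 1) /
      (1 + ‖z.2‖ ^ 2)) 400 (by positivity) ((om_cont.comp
      (((cw.div cl fun z => (p0 _).ne').log fun z => (div_pos (by positivity) (p0 z.2)).ne').add
        continuous_const).continuousOn fun z _ => t2 z).div cw.continuousOn fun z _ => by positivity)
      (fun z hz => div_nonneg (om_pos (t2 z)).le (by positivity)) (fun z hz h0 => ?_)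
      (f3.trans (by linarith))).trans_eq (by congr 1; ring)
    exact ⟨by positivity, le_add_of_le_of_nonneg (inv_le_one_of_one_le₀ (one_le_pow₀
      (le_add_of_nonneg_right (sq_nonneg _)))) (by positivity), wt2 h0 hε⟩

end Pool.Agent.Lib.MP_124863_gt.Ok
end

-- part Pool.Agent.Lib.MP_124863_gt.OkSt
section

/-! The states of the deformation. -/

open Filter Topology Set Metric Complex MeasureTheory
open scoped Real ENNReal

namespace Pool.Agent.Lib.MP_124863_gt.Ok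

open Ec

/-- The kernel of the multi-scale estimate. -/
noncomputable def kp (e : ℝ) : ℝ := if 0 < e then √(Real.exp (-e) * √e) / min e 1 else 0

theorem kp_meas : Measurable kp := by
  unfold kp
  exact Measurable.ite (measurableSet_lt measurable_const measurable_id) (by fun_prop)
    measurable_const

theorem okst_int {a : ℝ} (ha : 0 < a) :
    IntegrableOn (fun t : ℝ => t ^ (a - 1) * Real.exp (-(1 / 2 * t))) (Ioi 0) := by
  have h := Real.Gamma_pos_of_pos ha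
  exact .of_integral_ne_zero (by
    rw [Real.integral_rpow_mul_exp_neg_mul_Ioi ha one_half_pos]
    positivity)

theorem kp_int : ∫⁻ e, ENNReal.ofReal (kp e) ≠ ⊤ := by
  have h := ((okst_int (a := 1 / 4) (by norm_num)).add
    (okst_int (a := 5 / 4) (by norm_num))).integrable_indicator measurableSet_Ioi
  refine (lt_of_le_of_lt (lintegral_mono fun e => ENNReal.ofReal_le_ofReal ?_)
    h.lintegral_lt_top).ne
  by_cases he : 0 < e
  · have h1 : √(Real.exp (-e) * √e) = Real.exp (-(1 / 2 * e)) * e ^ (1 / 4 : ℝ) := by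
      rw [Real.sqrt_mul (Real.exp_pos _).le, ← Real.exp_half, Real.sqrt_eq_rpow, Real.sqrt_eq_rpow,
        ← Real.rpow_mul he.le]
      congr 2 <;> ring
    have h2 : 1 / min e 1 ≤ 1 / e + 1 := by
      have h3 : 0 < 1 / e := by positivity
      rcases le_total e 1 with h4 | h4
      · rw [min_eq_left h4]
        linarith
      · rw [min_eq_right h4]
        linarith
    have h3 : 0 ≤ Real.exp (-(1 / 2 * e)) * e ^ (1 / 4 : ℝ) := by positivity
    have h4 := mul_le_mul_of_nonneg_left h2 h3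
    rw [kp, if_pos he, indicator_of_mem (mem_Ioi.2 he), h1, Pi.add_apply, Real.rpow_sub_one he.ne',
      show (5 / 4 - 1 : ℝ) = 1 / 4 by norm_num, div_eq_mul_one_div]
    refine h4.trans (le_of_eq ?_)
    ring
  · rw [kp, if_neg he, indicator_of_notMem (fun h1 => he (mem_Ioi.1 h1))]

theorem okst_sq {e : ℝ} (he : 0 < e) : kp e ^ 2 = Real.exp (-e) * √e / min e 1 ^ 2 := by
  rw [kp, if_pos he, div_pow, Real.sq_sqrt (by positivity)]

theorem kp_sq {e : ℝ} (he : 0 < e) : 0 < kp e ∧ kp e ^ 2 * (e * √e) ≤ 1 := by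
  have hm : 0 < min e 1 := lt_min he one_pos
  refine ⟨by rw [kp, if_pos he]; positivity, ?_⟩
  have h1 : Real.exp (-e) * √e * (e * √e) = Real.exp (-e) * e ^ 2 := by
    have := Real.mul_self_sqrt he.le
    linear_combination Real.exp (-e) * e * this
  rw [okst_sq he, div_mul_eq_mul_div, h1, div_le_one (by positivity)]
  rcases le_total e 1 with h4 | h4
  · rw [min_eq_left h4]
    exact mul_le_of_le_one_left (sq_nonneg e) (Real.exp_le_one_iff.2 (by linarith))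
  · have h2 := Real.add_one_le_exp (e / 2 - 1)
    have h3 := Real.add_one_le_exp (1 : ℝ)
    have h5 : e ≤ Real.exp (e / 2) := by
      rw [show e / 2 = 1 + (e / 2 - 1) by ring, Real.exp_add]
      nlinarith
    have h6 : e ^ 2 ≤ Real.exp e := by
      calc e ^ 2 ≤ Real.exp (e / 2) ^ 2 := pow_le_pow_left₀ he.le h5 2
        _ = Real.exp e := by rw [sq, ← Real.exp_add, add_halves]
    rw [min_eq_right h4, one_pow, Real.exp_neg, inv_mul_le_iff₀ (Real.exp_pos e), mul_one]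
    exact h6

/-- Disc averages are controlled by the weighted norm on the fibre. -/
theorem fibre_av {Γ : ℂ → ℝ} {z a R₀ e : ℝ} {w : ℂ} (ha : 0 < a) (hR : Real.exp z ≤ R₀)
    (hΓ : ContinuousOn Γ (closedBall 0 (Real.exp (z - a))))
    (h0 : ∀ ζ ∈ closedBall 0 (Real.exp (z - a)), 0 ≤ Γ ζ) (hw : w ≠ 0)
    (he : 0 < e) (h1 : Real.log ‖w‖ + e ≤ z - a) (h2 : z - Real.log ‖w‖ ≤ 2 * e) :
    closedBall w (‖w‖ * min e 1 / 2) ⊆ closedBall 0 (Real.exp (z - a)) ∧
    ENNReal.ofReal (⨍ ζ in closedBall w (‖w‖ * min e 1 / 2), ‖ζ‖ ^ 2 * Γ ζ) ≤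
      ENNReal.ofReal (8 * R₀ * kp e ^ 2) * ∫⁻ ζ in closedBall 0 (Real.exp (z - a)),
        ENNReal.ofReal (Γ ζ / (‖ζ‖ * √(z - Real.log ‖ζ‖))) := by
  have hx : 0 < ‖w‖ := norm_pos_iff.2 hw
  obtain ⟨m, hm⟩ : ∃ m, m = min e 1 := ⟨_, rfl⟩
  have m0 : 0 < m := hm ▸ lt_min he one_pos
  have m1 : m ≤ 1 := hm ▸ min_le_right _ _
  have me : m ≤ e := hm ▸ min_le_left _ _
  have hk := okst_sq he
  rw [← hm] at hk ⊢
  have hxe : ‖w‖ * Real.exp e ≤ Real.exp (z - a) := by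
    rw [← Real.exp_log hx, ← Real.exp_add]
    exact Real.exp_le_exp.2 h1
  have up : ∀ ζ ∈ closedBall w (‖w‖ * m / 2), ‖ζ‖ ≤ ‖w‖ + ‖w‖ * m / 2 := fun ζ hζ =>
    norm_le_norm_add_const_of_dist_le hζ
  have lo : ∀ ζ ∈ closedBall w (‖w‖ * m / 2), ‖w‖ * (1 - m / 2) ≤ ‖ζ‖ := fun ζ hζ => by
    have := norm_le_norm_add_const_of_dist_le (mem_closedBall'.1 hζ)
    linarith
  have sub : closedBall w (‖w‖ * m / 2) ⊆ closedBall 0 (Real.exp (z - a)) := fun ζ hζ => by
    have h3 := Real.add_one_le_exp e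
    have h4 := up ζ hζ
    rw [mem_closedBall_zero_iff]
    nlinarith
  refine ⟨sub, ?_⟩
  obtain ⟨K, hK⟩ : ∃ K, K = (3 * ‖w‖ / 2) ^ 3 * √(3 * e) := ⟨_, rfl⟩
  have K0 : 0 ≤ K := by rw [hK]; positivity
  have pt : ∀ ζ ∈ closedBall w (‖w‖ * m / 2), ENNReal.ofReal (‖ζ‖ ^ 2 * Γ ζ) ≤
      ENNReal.ofReal K * ENNReal.ofReal (Γ ζ / (‖ζ‖ * √(z - Real.log ‖ζ‖))) := by
    intro ζ hζ
    have l1 : 0 < 1 - m / 2 := by linarith
    have l2 : 0 < ‖ζ‖ := lt_of_lt_of_le (by positivity) (lo ζ hζ)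
    have l3 : Real.log ‖ζ‖ ≤ z - a :=
      (Real.log_le_iff_le_exp l2).2 (mem_closedBall_zero_iff.1 (sub hζ))
    have l4 : Real.log ‖w‖ + Real.log (1 - m / 2) ≤ Real.log ‖ζ‖ := by
      rw [← Real.log_mul hx.ne' l1.ne']
      exact Real.log_le_log (by positivity) (lo ζ hζ)
    have l5 := Real.one_sub_inv_le_log_of_pos l1
    have l6 : (1 - m / 2)⁻¹ ≤ 1 + m := by
      rw [inv_le_iff_one_le_mul₀ l1]
      nlinarith
    have l7 : √(z - Real.log ‖ζ‖) ≤ √(3 * e) := Real.sqrt_le_sqrt (by linarith)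
    have l8 : 0 < √(z - Real.log ‖ζ‖) := Real.sqrt_pos.2 (by linarith)
    have l9 : ‖ζ‖ ^ 3 ≤ (3 * ‖w‖ / 2) ^ 3 :=
      pow_le_pow_left₀ l2.le (by nlinarith [up ζ hζ]) 3
    have l10 : ‖ζ‖ ^ 3 * √(z - Real.log ‖ζ‖) ≤ K := hK ▸ mul_le_mul l9 l7 l8.le (by positivity)
    have l11 := mul_le_mul_of_nonneg_right l10 (h0 ζ (sub hζ))
    rw [← ENNReal.ofReal_mul K0]
    refine ENNReal.ofReal_le_ofReal ?_
    rw [← mul_div_assoc, le_div_iff₀ (by positivity)]
    refine le_trans (le_of_eq ?_) l11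
    ring
  have hi : IntegrableOn (fun ζ => ‖ζ‖ ^ 2 * Γ ζ) (closedBall w (‖w‖ * m / 2)) :=
    ((continuous_norm.pow 2).continuousOn.mul (hΓ.mono sub)).integrableOn_compact
      (isCompact_closedBall _ _)
  have hv : (volume : Measure ℂ).real (closedBall w (‖w‖ * m / 2)) = (‖w‖ * m / 2) ^ 2 * π := by
    rw [measureReal_def, Complex.volume_closedBall, ENNReal.toReal_mul, ENNReal.toReal_pow,
      ENNReal.toReal_ofReal (by positivity)]
    rfl
  have hp := Real.pi_pos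
  have hc : ((‖w‖ * m / 2) ^ 2 * π)⁻¹ * K ≤ 8 * R₀ * kp e ^ 2 := by
    have c1 : √(3 : ℝ) ≤ 174 / 100 := Real.sqrt_le_iff.2 ⟨by norm_num, by norm_num⟩
    have c2 := Real.pi_gt_three
    have c3 : ‖w‖ ≤ R₀ * Real.exp (-e) := by
      have c4 : Real.exp (z - a) ≤ R₀ := (Real.exp_le_exp.2 (by linarith)).trans hR
      rw [Real.exp_neg, ← div_eq_mul_inv, le_div_iff₀ (Real.exp_pos e)]
      linarith
    have c4 : 27 * √(3 : ℝ) / (2 * π) ≤ 8 := by
      rw [div_le_iff₀ (by positivity)]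
      linarith
    have c5 : ((‖w‖ * m / 2) ^ 2 * π)⁻¹ * K = 27 * √(3 : ℝ) / (2 * π) * ‖w‖ * (√e / m ^ 2) := by
      rw [hK, Real.sqrt_mul (by norm_num)]
      field_simp
      ring
    have c6 : 8 * R₀ * kp e ^ 2 = 8 * (R₀ * Real.exp (-e)) * (√e / m ^ 2) := by
      rw [hk]
      ring
    rw [c5, c6]
    exact mul_le_mul_of_nonneg_right (mul_le_mul c4 c3 hx.le (by norm_num)) (by positivity)
  rw [setAverage_eq, hv, smul_eq_mul, ENNReal.ofReal_mul (by positivity),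
    ofReal_integral_eq_lintegral_ofReal hi ((ae_restrict_mem measurableSet_closedBall).mono
      fun ζ hζ => mul_nonneg (sq_nonneg _) (h0 ζ (sub hζ)))]
  refine (mul_le_mul_right (setLIntegral_mono' measurableSet_closedBall pt) _).trans ?_
  rw [lintegral_const_mul' _ _ ENNReal.ofReal_ne_top, ← mul_assoc,
    ← ENNReal.ofReal_mul (by positivity)]
  exact mul_le_mul' (ENNReal.ofReal_le_ofReal hc) (lintegral_mono_set sub)

variable {n N : ℕ} {M : Type} [MetricSpace M] (ι : M → Cn N) (q : Cn N → M) (G : Cn N → Bil N)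
  {E : Type} [NormedAddCommGroup E] [NormedSpace ℂ E] [MeasurableSpace E] (μ : Measure E)
  (β : E → ℝ) (f A : E → Cn N) (δ : M → ℝ) (D R₀ : ℝ)

/-- A state of the deformation. -/
structure St (L : Set E) (t ε γ : ℝ) (u : E → ℝ) (F : E × ℂ → Cn N) (e g : E → ℝ≥0∞) : Prop where
  cu : ContinuousOn u L
  su : SM u L
  lo : ∀ b ∈ L, -Real.log R₀ ≤ u b
  hol : ∀ z ∈ Ht L u, DifferentiableAt ℂ F z ∧ F z ∈ range ι ∧ D / Real.exp 1 ≤ δ (q (F z))
  zero : ∀ b ∈ L, F (b, 0) = f b ∧ deriv (fun w => F (b, w)) 0 = (t : ℂ) • A b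
  me : Measurable e
  ie : ∫⁻ b in L, e b ∂μ ≤ ENNReal.ofReal ε
  inv : ∀ b ∈ L, ∃ s : ℝ → ℝ≥0∞, Measurable s ∧ ∫⁻ l, s l ≤ e b ∧
    (∀ l ∈ Ioo (-u b) (Real.log R₀), 1 ≤ s l) ∧ ∀ w : ℂ, w ≠ 0 → ∀ ρ, 0 < ρ →
      ρ ≤ ‖w‖ * min (-u b - Real.log ‖w‖) 1 / 2 → ENNReal.ofReal
        (2 * ⨍ ζ in closedBall w ρ, -Real.log (δ (q (F (b, ζ))) / D)) ≤ s (Real.log ‖w‖)
  mg : Measurable g
  ig : ∫⁻ b in L, ENNReal.ofReal (Real.exp (-β b)) * g b ∂μ ≤ ENNReal.ofReal γ
  area : ∀ b ∈ L, ∀ R d, 0 < R → R < Real.exp (-u b) → 0 < d →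
    ENNReal.ofReal (ar G R d fun w => F (b, w)) ≤ g b

end Pool.Agent.Lib.MP_124863_gt.Ok
end
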