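import Pool.Agent.Lib.MP_124863_gt.EcDefs

/-! Submersions. -/

open scoped Manifold

namespace Pool.Agent.Lib.MP_124863_gt

/-- The complex differential of `f` at `x` is surjective, for the model spaces `F` and `G`. -/
def SubmAt (F G : Type) [NormedAddCommGroup F] [NormedSpace ℂ F] [NormedAddCommGroup G]
    [NormedSpace ℂ G] {X Y : Type} [TopologicalSpace X] [ChartedSpace F X] [TopologicalSpace Y]
    [ChartedSpace G Y] (f : X → Y) (x : X) : Prop :=
  Function.Surjective (mfderiv 𝓘(ℂ, F) 𝓘(ℂ, G) f x)

end Pool.Agent.Lib.MP_124863_gt
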