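import Mathlib

/-! Kaehler manifolds, holomorphic bisectional curvature and isometric flows. -/

open scoped Manifold ContDiff Matrix Bundle Topology
open Complex

namespace Pool.Agent.Lib.MP_124863_gt

section

variable (K F : Type) [NontriviallyNormedField K] [NormedAddCommGroup F] [NormedSpace K F]
  {X Y : Type} [TopologicalSpace X] [ChartedSpace F X] [TopologicalSpace Y] [ChartedSpace F Y]

/-- `f` is `K`-differentiable at `x`. -/
def DiffAt (f : X → Y) (x : X) : Prop := MDifferentiableAt 𝓘(K, F) 𝓘(K, F) f x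

/-- The differential of `f` at `x`. -/
noncomputable def df (f : X → Y) (x : X) (v : F) : F := mfderiv 𝓘(K, F) 𝓘(K, F) f x v

end

section

variable (F : Type) [NormedAddCommGroup F] [NormedSpace ℝ F] [NormedSpace ℂ F]
  (M : Type) [MetricSpace M] [ChartedSpace F M]

/-- A scalar product on each tangent space. -/
abbrev Riem : Type := Bundle.RiemannianBundle fun x : M => TangentSpace 𝓘(ℝ, F) x

/-- `M` is biholomorphic to `F`. -/
def Bihol : Prop := ∃ ψ : F ≃ M, (∀ z, DiffAt ℂ F ψ z) ∧ ∀ x, DiffAt ℂ F ψ.symm x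

variable {F M}

/-- `f` is a holomorphic local coordinate system near `z`. -/
def Coord (f : F → M) (z : F) : Prop :=
  (∀ᶠ w in 𝓝 z, DiffAt ℂ F f w) ∧ Function.Bijective (df ℂ F f z)

variable [Riem F M]

/-- The scalar product at `x`. -/
noncomputable def scal (x : M) (u v : F) : ℝ := inner (E := TangentSpace 𝓘(ℝ, F) x) ℝ u v

/-- The Riemannian metric read in the coordinates `f`. -/
noncomputable def pull (f : F → M) (z u v : F) : ℝ := scal (f z) (df ℝ F f z u) (df ℝ F f z v)

variable (F M)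

/-- `M` is a complex manifold, its distance is the Riemannian distance, and the metric is smooth,
Hermitian, and has closed fundamental form `ω(u, v) = g(J u, v)`. -/
structure Kaehler : Prop where
  complex : IsManifold 𝓘(ℂ, F) ω M
  real : IsManifold 𝓘(ℝ, F) ∞ M
  dist : IsRiemannianManifold 𝓘(ℝ, F) M
  smooth : ∀ (f : F → M) z, Coord f z → ∀ u v, ContDiffAt ℝ ∞ (fun x => pull f x u v) z
  hermitian : ∀ (f : F → M) z, Coord f z → ∀ u v, pull f z (I • u) (I • v) = pull f z u v
  closed : ∀ (f : F → M) z, Coord f z → ∀ u v w,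
    fderiv ℝ (fun x => pull f x (I • v) w) z u + fderiv ℝ (fun x => pull f x (I • w) u) z v +
      fderiv ℝ (fun x => pull f x (I • u) v) z w = 0

variable {M}

/-- A smooth one-parameter group of holomorphic isometries. -/
structure IsomFlow (a : ℝ → M → M) : Prop where
  zero : ∀ x, a 0 x = x
  add : ∀ s t x, a (s + t) x = a s (a t x)
  smooth : ContMDiff (𝓘(ℝ, ℝ).prod 𝓘(ℝ, F)) 𝓘(ℝ, F) ∞ fun p : ℝ × M => a p.1 p.2
  holo : ∀ t x, DiffAt ℂ F (a t) x
  isom : ∀ t x (u v : F), scal (a t x) (df ℝ F (a t) x u) (df ℝ F (a t) x v) = scal x u v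

end

/-- The model space. -/
abbrev Cn (n : ℕ) : Type := Fin n → ℂ

variable {n : ℕ}

/-- The Wirtinger derivative `∑ Y_k ∂F/∂z_k`. -/
noncomputable def dz (Y : Cn n) (F : Cn n → ℂ) (z : Cn n) : ℂ :=
  (fderiv ℝ F z Y - I * fderiv ℝ F z (I • Y)) / 2

/-- The Wirtinger derivative `∑ conj(Y_l) ∂F/∂conj(z_l)`. -/
noncomputable def dzb (Y : Cn n) (F : Cn n → ℂ) (z : Cn n) : ℂ :=
  (fderiv ℝ F z Y + I * fderiv ℝ F z (I • Y)) / 2

/-- `R(X, conj X, Y, conj Y)` at `z` for the Hermitian metric with matrix `h`, where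
`R_{i j k l} = - ∂_k ∂bar_l h_{i j} + ∑ ∂_k h_{i q} h^{q p} ∂bar_l h_{p j}`. -/
noncomputable def bisec (h : Cn n → Matrix (Fin n) (Fin n) ℂ) (z X Y : Cn n) : ℝ :=
  (X ⬝ᵥ (-(Matrix.of fun i j => dz Y (dzb Y fun w => h w i j) z) +
    (Matrix.of fun i j => dz Y (fun w => h w i j) z) * (h z)⁻¹ *
      (Matrix.of fun i j => dzb Y (fun w => h w i j) z)) *ᵥ star X).re

/-- The Hermitian matrix of a `J`-invariant scalar product. -/
noncomputable def hmat (g : Cn n → Cn n → ℝ) : Matrix (Fin n) (Fin n) ℂ :=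
  Matrix.of fun i j => g (Pi.single i 1) (Pi.single j 1) + I * g (Pi.single i 1) (Pi.single j I)

variable (n) in
/-- Positive holomorphic bisectional curvature. -/
def PositiveBisec (M : Type) [MetricSpace M] [ChartedSpace (Cn n) M] [Riem (Cn n) M] : Prop :=
  ∀ (f : Cn n → M) z, Coord f z → ∀ X Y : Cn n, X ≠ 0 → Y ≠ 0 →
    0 < bisec (fun w => hmat (pull f w)) z X Y

end Pool.Agent.Lib.MP_124863_gt
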