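import Pool.Agent.Lib.MP_124863_gt.Met

/-! Second variation of the energy along holomorphic variations. -/

open scoped Topology
open Set Filter Function Metric Complex

namespace Pool.Agent.Lib.MP_124863_gt

theorem taylor_unif {P : Type} [TopologicalSpace P] {K : Set P} (hK : IsCompact K)
    {u u1 u2 : ℝ × P → ℝ} (h : ∀ π ∈ K, (∀ᶠ q : ℝ × P in 𝓝 (0, π),
      HasDerivAt (fun s => u (s, q.2)) (u1 q) q.1 ∧ HasDerivAt (fun s => u1 (s, q.2)) (u2 q) q.1) ∧
      ContinuousAt u2 (0, π)) {ε : ℝ} (hε : 0 < ε) : ∀ᶠ r in 𝓝[>] (0 : ℝ), ∀ π ∈ K,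
      u (r, π) + u (-r, π) - 2 * u (0, π) ≤ (u2 (0, π) + ε) * r ^ 2 := by
  have h1 := hK.eventually_forall_of_forall_eventually (x₀ := (0 : ℝ)) (P := fun s π =>
    (HasDerivAt (fun s => u (s, π)) (u1 (s, π)) s ∧ HasDerivAt (fun s => u1 (s, π)) (u2 (s, π)) s) ∧
      u2 (s, π) - u2 (0, π) < ε) fun π hπ => (h π hπ).1.and
      (((h π hπ).2.sub (ContinuousAt.comp (f := fun q : ℝ × P => ((0 : ℝ), q.2)) (h π hπ).2
        (by fun_prop))).eventually (gt_mem_nhds (by simpa using hε)))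
  obtain ⟨δ, hδ, h2⟩ := eventually_nhds_iff_ball.1 h1
  filter_upwards [Ioo_mem_nhdsGT hδ] with r hr π hπ
  have a1 : ∀ s ∈ Icc 0 r, s ∈ ball (0 : ℝ) δ ∧ -s ∈ ball (0 : ℝ) δ := fun s hs => by
    simp only [mem_ball_zero_iff, norm_neg, Real.norm_of_nonneg hs.1, and_self]
    exact hs.2.trans_lt hr.2
  have a2 := fun s hs => (h2 s (a1 s hs).1 π hπ).1.2.sub
    ((h2 _ (a1 s hs).2 π hπ).1.2.comp s (hasDerivAt_neg s))
  have a3 := fun s hs => ((h2 s (a1 s hs).1 π hπ).1.1.add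
    ((h2 _ (a1 s hs).2 π hπ).1.1.comp s (hasDerivAt_neg s))).sub_const (2 * u (0, π))
  have a4 := fun s => (hasDerivAt_id s).const_mul (2 * (u2 (0, π) + ε))
  have a5 := fun s => (hasDerivAt_pow 2 s).const_mul (u2 (0, π) + ε)
  have a6 := image_le_of_deriv_right_le_deriv_boundary
    (fun s hs => (a2 s hs).continuousAt.continuousWithinAt)
    (fun s hs => (a2 s (Ico_subset_Icc_self hs)).hasDerivWithinAt) (by simp)
    (fun s _ => (a4 s).continuousAt.continuousWithinAt) (fun s _ => (a4 s).hasDerivWithinAt)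
    fun s hs => by
      linarith [(h2 s (a1 s (Ico_subset_Icc_self hs)).1 π hπ).2,
        (h2 _ (a1 s (Ico_subset_Icc_self hs)).2 π hπ).2]
  exact image_le_of_deriv_right_le_deriv_boundary
    (fun s hs => (a3 s hs).continuousAt.continuousWithinAt)
    (fun s hs => (a3 s (Ico_subset_Icc_self hs)).hasDerivWithinAt) (by simp; linarith)
    (fun s _ => (a5 s).continuousAt.continuousWithinAt) (fun s _ => (a5 s).hasDerivWithinAt)
    (fun s hs => by
      have := a6 (Ico_subset_Icc_self hs)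
      simp only [Pi.sub_apply, comp_apply, id] at this
      norm_num; linarith) (right_mem_Icc.2 hr.1.le)

variable {n : ℕ} {B : Cn n → Bil n}

variable (B) in
/-- First derivative of the energy density. -/
noncomputable def T1 (c c1 v v1 : Cn n) : ℝ := fderiv ℝ B c c1 v v + B c v1 v + B c v v1

variable (B) in
/-- Second derivative of the energy density. -/
noncomputable def T2 (c c1 c2 v v1 v2 : Cn n) : ℝ :=
  fderiv ℝ (fderiv ℝ B) c c1 c1 v v + fderiv ℝ B c c2 v v + 2 * fderiv ℝ B c c1 v1 v +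
    2 * fderiv ℝ B c c1 v v1 + B c v2 v + 2 * B c v1 v1 + B c v v2

theorem hasDerivAt_T0 {c v w : ℝ → Cn n} {c1 v1 w1 : Cn n} {s : ℝ} (hB : DifferentiableAt ℝ B (c s))
    (hc : HasDerivAt c c1 s) (hv : HasDerivAt v v1 s) (hw : HasDerivAt w w1 s) :
    HasDerivAt (fun s => B (c s) (v s) (w s))
      (fderiv ℝ B (c s) c1 (v s) (w s) + B (c s) v1 (w s) + B (c s) (v s) w1) s :=
  ((hB.hasFDerivAt.comp_hasDerivAt s hc).clm_apply hv).clm_apply hw

theorem hasDerivAt_T1 {c c1 v v1 : ℝ → Cn n} {c2 v2 : Cn n} {s : ℝ} (hB : ContDiffAt ℝ 2 B (c s))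
    (hc : HasDerivAt c (c1 s) s) (hc1 : HasDerivAt c1 c2 s) (hv : HasDerivAt v (v1 s) s)
    (hv1 : HasDerivAt v1 v2 s) : HasDerivAt (fun s => T1 B (c s) (c1 s) (v s) (v1 s))
      (T2 B (c s) (c1 s) c2 (v s) (v1 s) v2) s := by
  have h1 := hB.differentiableAt (by simp)
  have h2 := (hB.fderiv_right (m := 1) (by norm_num)).differentiableAt (by simp)
  refine (((((h2.hasFDerivAt.comp_hasDerivAt s hc).clm_apply hc1).clm_apply hv).clm_apply hv).add
    (hasDerivAt_T0 h1 hc hv1 hv) |>.add (hasDerivAt_T0 h1 hc hv hv1)).congr_deriv ?_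
  simp only [T2, add_apply, comp_apply]
  ring

theorem continuousAt_T2 {X : Type} [TopologicalSpace X] {c c1 c2 v v1 v2 : X → Cn n} {x : X}
    (hB : ContDiffAt ℝ 2 B (c x)) (hc : ContinuousAt c x) (hc1 : ContinuousAt c1 x)
    (hc2 : ContinuousAt c2 x) (hv : ContinuousAt v x) (hv1 : ContinuousAt v1 x)
    (hv2 : ContinuousAt v2 x) :
    ContinuousAt (fun x => T2 B (c x) (c1 x) (c2 x) (v x) (v1 x) (v2 x)) x := by
  have h0 := hB.continuousAt.comp hc
  have h := hB.fderiv_right (m := 1) (by norm_num)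
  have h1 := h.continuousAt.comp hc
  have h2 := (h.continuousAt_fderiv one_ne_zero).comp hc
  exact ((((((((h2.clm_apply hc1).clm_apply hc1).clm_apply hv).clm_apply hv).add
    (((h1.clm_apply hc2).clm_apply hv).clm_apply hv)).add
    ((((h1.clm_apply hc1).clm_apply hv1).clm_apply hv).const_mul 2)).add
    ((((h1.clm_apply hc1).clm_apply hv).clm_apply hv1).const_mul 2)).add
    ((h0.clm_apply hv2).clm_apply hv)).add (((h0.clm_apply hv1).clm_apply hv1).const_mul 2) |>.add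
    ((h0.clm_apply hv).clm_apply hv2)

theorem line_derivs {p : ℂ → Cn n} (hp : AnalyticAt ℂ p 0) (e : ℂ) :
    (∀ᶠ s : ℝ in 𝓝 0, HasDerivAt (fun s : ℝ => p (s * e)) (e • deriv p (s * e)) s ∧
      HasDerivAt (fun s : ℝ => e • deriv p (s * e)) ((e * e) • deriv (deriv p) (s * e)) s) ∧
    ContinuousAt (fun s : ℝ => (e * e) • deriv (deriv p) (s * e)) 0 := by
  have h1 : Tendsto (fun s : ℝ => s * e) (𝓝 0) (𝓝 0) :=
    (by fun_prop : Continuous fun s : ℝ => s * e).tendsto' 0 0 (by simp)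
  have key : ∀ (f : ℂ → Cn n) (s : ℝ), AnalyticAt ℂ f (s * e) →
      HasDerivAt (fun s : ℝ => f (s * e)) (e • deriv f (s * e)) s := fun f s hf =>
    (HasFDerivAt.comp_hasDerivAt (f := fun s : ℝ => s * e) s
      (hf.differentiableAt.hasDerivAt.hasFDerivAt.restrictScalars ℝ)
      (ofRealCLM.hasDerivAt.mul_const e)).congr_deriv (by simp)
  refine ⟨(h1.eventually hp.eventually_analyticAt).mono fun s hs =>
    ⟨key p s hs, ((key _ s hs.deriv).const_smul e).congr_deriv (smul_smul _ _ _)⟩, ?_⟩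
  exact (key _ 0 (by simpa using hp.deriv.deriv)).continuousAt.const_smul (e * e)

variable (B) in
/-- The energy density of a holomorphic variation. -/
noncomputable def en (p q : ℂ → Cn n) (π : Cn n × ℝ × Cn n × ℝ) (ζ : ℂ) : ℝ :=
  B (π.1 + p ζ + π.2.1 • q ζ) (π.2.2.1 + π.2.2.2 • q ζ) (π.2.2.1 + π.2.2.2 • q ζ)

theorem en_two {p q : ℂ → Cn n} (hp : AnalyticAt ℂ p 0) (hq : AnalyticAt ℂ q 0) (p0 : p 0 = 0)
    (q0 : q 0 = 0) {K : Set (Cn n × ℝ × Cn n × ℝ)} (hK : IsCompact K)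
    (hB : ∀ π ∈ K, ContDiffAt ℝ 2 B π.1) (e : ℂ) {ε : ℝ} (hε : 0 < ε) :
    ∀ᶠ r : ℝ in 𝓝[>] 0, ∀ π ∈ K, en B p q π (r * e) + en B p q π (-(r * e)) - 2 * en B p q π 0 ≤
      (T2 B π.1 (e • deriv p 0 + π.2.1 • e • deriv q 0)
        ((e * e) • deriv (deriv p) 0 + π.2.1 • (e * e) • deriv (deriv q) 0) π.2.2.1
        (π.2.2.2 • e • deriv q 0) (π.2.2.2 • (e * e) • deriv (deriv q) 0) + ε) * r ^ 2 := by
  obtain ⟨p1, p2⟩ := line_derivs hp e
  obtain ⟨q1, q2⟩ := line_derivs hq e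
  have c0 : ∀ {f : ℝ → Cn n} (π : Cn n × ℝ × Cn n × ℝ), ContinuousAt f 0 →
      ContinuousAt (fun x : ℝ × (Cn n × ℝ × Cn n × ℝ) => f x.1) (0, π) := fun π hf =>
    ContinuousAt.comp (f := Prod.fst) hf continuousAt_fst
  have := taylor_unif hK (u := fun x => en B p q x.2 (x.1 * e))
    (u1 := fun x => T1 B (x.2.1 + p (x.1 * e) + x.2.2.1 • q (x.1 * e))
      (e • deriv p (x.1 * e) + x.2.2.1 • e • deriv q (x.1 * e))
      (x.2.2.2.1 + x.2.2.2.2 • q (x.1 * e)) (x.2.2.2.2 • e • deriv q (x.1 * e)))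
    (u2 := fun x => T2 B (x.2.1 + p (x.1 * e) + x.2.2.1 • q (x.1 * e))
      (e • deriv p (x.1 * e) + x.2.2.1 • e • deriv q (x.1 * e))
      ((e * e) • deriv (deriv p) (x.1 * e) + x.2.2.1 • (e * e) • deriv (deriv q) (x.1 * e))
      (x.2.2.2.1 + x.2.2.2.2 • q (x.1 * e)) (x.2.2.2.2 • e • deriv q (x.1 * e))
      (x.2.2.2.2 • (e * e) • deriv (deriv q) (x.1 * e))) (fun π hπ => by
      have a1 := c0 π p1.self_of_nhds.1.continuousAt
      have a2 := c0 π q1.self_of_nhds.1.continuousAt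
      have a3 := c0 π p1.self_of_nhds.2.continuousAt
      have a4 := c0 π q1.self_of_nhds.2.continuousAt
      have a5 := c0 π p2
      have a6 := c0 π q2
      have f1 : ContinuousAt (fun x : ℝ × (Cn n × ℝ × Cn n × ℝ) => x.2.1) (0, π) := by fun_prop
      have f2 : ContinuousAt (fun x : ℝ × (Cn n × ℝ × Cn n × ℝ) => x.2.2.1) (0, π) := by fun_prop
      have f3 : ContinuousAt (fun x : ℝ × (Cn n × ℝ × Cn n × ℝ) => x.2.2.2.1) (0, π) := by fun_prop
      have f4 : ContinuousAt (fun x : ℝ × (Cn n × ℝ × Cn n × ℝ) => x.2.2.2.2) (0, π) := by fun_prop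
      have a7 := (f1.add a1).add (f2.smul a2)
      have a8 : ContDiffAt ℝ 2 B (π.1 + p ((0 : ℝ) * e) + π.2.1 • q ((0 : ℝ) * e)) := by
        simpa [p0, q0] using hB π hπ
      refine ⟨?_, continuousAt_T2 a8 a7 (a3.add (f2.smul a4)) (a5.add (f2.smul a6))
        (f3.add (f4.smul a2)) (f4.smul a4) (f4.smul a6)⟩
      filter_upwards [a7.eventually (a8.eventually (by simp)), continuousAt_fst.eventually p1,
        continuousAt_fst.eventually q1] with x b1 b2 b3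
      have b4 := (b2.1.const_add x.2.1).add (b3.1.const_smul x.2.2.1)
      have b5 := (b3.1.const_smul x.2.2.2.2).const_add x.2.2.2.1
      exact ⟨hasDerivAt_T0 (b1.differentiableAt (by simp)) b4 b5 b5,
        hasDerivAt_T1 b1 b4 (b2.2.add (b3.2.const_smul x.2.2.1)) b5 (b3.2.const_smul x.2.2.2.2)⟩) hε
  simpa [p0, q0] using this

/-- The four point difference operator. -/
def four (u : ℂ → ℝ) (r : ℝ) : ℝ := u r + u (-r) + u (r * I) + u (-(r * I)) - 4 * u 0

variable (B) in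
/-- The Laplacian of the energy density. -/
noncomputable def lap (a c u v : Cn n) : ℝ :=
  (fderiv ℝ (fderiv ℝ B) a c c + fderiv ℝ (fderiv ℝ B) a (I • c) (I • c)) u u +
    2 * (fderiv ℝ B a c v u + fderiv ℝ B a c u v + fderiv ℝ B a (I • c) (I • v) u +
      fderiv ℝ B a (I • c) u (I • v)) + 2 * (B a v v + B a (I • v) (I • v))

theorem en_four {p q : ℂ → Cn n} (hp : AnalyticAt ℂ p 0) (hq : AnalyticAt ℂ q 0) (p0 : p 0 = 0)
    (q0 : q 0 = 0) {K : Set (Cn n × ℝ × Cn n × ℝ)} (hK : IsCompact K)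
    (hB : ∀ π ∈ K, ContDiffAt ℝ 2 B π.1) {ε : ℝ} (hε : 0 < ε) :
    ∀ᶠ r in 𝓝[>] (0 : ℝ), ∀ π ∈ K, four (en B p q π) r ≤
      (lap B π.1 (deriv p 0 + π.2.1 • deriv q 0) π.2.2.1 (π.2.2.2 • deriv q 0) + ε) * r ^ 2 := by
  filter_upwards [en_two hp hq p0 q0 hK hB 1 (half_pos hε), en_two hp hq p0 q0 hK hB I (half_pos hε)]
    with r h1 h2 π hπ
  have a1 := h1 π hπ
  have a2 := h2 π hπ
  rw [← smul_comm I π.2.1, ← smul_add, ← smul_comm I π.2.2.2] at a2
  simp only [T2, mul_one, one_smul, I_mul_I, neg_smul, smul_neg, ← neg_add, map_neg,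
    neg_apply] at a1 a2
  simp only [four, lap, add_apply]
  linarith

end Pool.Agent.Lib.MP_124863_gt
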