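import Pool.Agent.Lib.MP_124863_gt.Ext
import Pool.Agent.Lib.MP_124863_gt.Len

-- part Pool.Agent.Lib.MP_124863_gt.Surj
section

/-! The moment map and surjectivity of the linearisation. -/

open scoped Manifold ContDiff Topology Bundle
open Set Filter Function Metric Complex

namespace Pool.Agent.Lib.MP_124863_gt

attribute [local irreducible] Bm fl gn

variable {n : ℕ} {α : Fin n → ℝ}

theorem hasDerivAt_fl_real (s : Cn n) (t : ℝ) :
    HasDerivAt (fun t : ℝ => fl α t s) (fl α t (gn α s)) t := by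
  have := ((hasDerivAt_fl (α := α) t s).hasFDerivAt.restrictScalars ℝ).comp_hasDerivAt t
    ofRealCLM.hasDerivAt
  exact this.congr_deriv (by simp)

theorem hasDerivAt_fl_I (s : Cn n) : HasDerivAt (fun θ : ℝ => fl α (θ * I) s) (I • gn α s) 0 := by
  have := HasFDerivAt.comp_hasDerivAt (f := fun θ : ℝ => θ * I) (0 : ℝ)
    ((hasDerivAt_fl (α := α) _ s).hasFDerivAt.restrictScalars ℝ)
    (ofRealCLM.hasDerivAt.mul_const I)
  exact this.congr_deriv (by simp)

theorem exists_moment {B : Cn n → Bil n} (hd : Differentiable ℝ B) (hH : ∀ z, IsH (B z))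
    (hi : ∀ (θ : ℝ) z u v, B (fl α (θ * I) z) (fl α (θ * I) u) (fl α (θ * I) v) = B z u v)
    (hc : ∀ z u v w, fderiv ℝ B z u (I • v) w + fderiv ℝ B z v (I • w) u +
      fderiv ℝ B z w (I • u) v = 0) : ∃ μ : Cn n → ℝ, ∀ z, HasFDerivAt μ (B z (gn α z)) z := by
  have h1 := fun z => (hd z).hasFDerivAt.clm_apply ((gn α).restrictScalars ℝ).hasFDerivAt
  obtain ⟨μ, hμ⟩ := convex_univ.exists_forall_hasFDerivAt_of_fderiv_symmetric isOpen_univ
    (fun z _ => (h1 z).differentiableAt.differentiableWithinAt) fun z _ x y => by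
      have a1 : ∀ u v, fderiv ℝ B z (I • gn α z) u v + B z (I • gn α u) v + B z u (I • gn α v) = 0 :=
        fun u v => by
          have := (((hd z).hasFDerivAt.comp_hasDerivAt_of_eq (0 : ℝ) (hasDerivAt_fl_I (α := α) z)
            (by simp)).clm_apply (hasDerivAt_fl_I (α := α) u)).clm_apply (hasDerivAt_fl_I (α := α) v)
          simp only [comp_apply, hi] at this
          simpa using this.unique (hasDerivAt_const _ _)
      have a2 := hc z x y (I • gn α z)
      have a3 := fun Y => IsH.fderiv (.of_forall hH) (hd z) Y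
      have a4 := a1 (I • x) y
      rw [(a3 x).inv, smul_smul, I_mul_I, neg_one_smul, map_neg, (a3 x).symm] at a2
      rw [(gn α).map_smul, smul_smul, I_mul_I, neg_one_smul, map_neg, (hH z).inv,
        (hH z).symm x] at a4
      rw [(h1 z).fderiv]
      simp only [neg_apply] at a2 a4
      simp
      linarith
  exact ⟨μ, fun z => hμ z trivial⟩

theorem isCompact_sublevel (hα : ∀ j, 1 ≤ α j) {μ : Cn n → ℝ} (hc : Continuous μ)
    (hm : ∀ s, Monotone fun t : ℝ => μ (fl α t s)) (hu : ∀ s ≠ 0, ∀ m, ∃ t : ℝ, m < μ (fl α t s))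
    (m : ℝ) : IsCompact {z | μ z ≤ m} := by
  have h1 : ∀ᶠ t : ℝ in atTop, ∀ s ∈ sphere (0 : Cn n) 1, m < μ (fl α t s) := by
    refine (isCompact_sphere (0 : Cn n) 1).induction_on
      (p := fun U => ∀ᶠ t : ℝ in atTop, ∀ s ∈ U, m < μ (fl α t s)) (by simp)
      (fun s t hst h => h.mono fun t ht s hs => ht s (hst hs)) (fun s t hs ht => ?_) fun s hs => ?_
    · filter_upwards [hs, ht] with x h1 h2 y hy using hy.elim (h1 y) (h2 y)
    · obtain ⟨t, ht⟩ := hu s (ne_zero_of_mem_unit_sphere ⟨s, hs⟩) m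
      exact ⟨_, mem_nhdsWithin_of_mem_nhds ((hc.comp (fl α t).continuous).continuousAt.eventually
        (lt_mem_nhds ht)), (eventually_ge_atTop t).mono fun t' h s hs => lt_of_lt_of_le hs (hm s h)⟩
  obtain ⟨T, hT⟩ := eventually_atTop.1 h1
  refine ((isCompact_closedBall 0 1).image (fl α T).continuous).of_isClosed_subset
    (isClosed_le hc continuous_const) fun z hz => ⟨_, ?_, fl_neg' α T z⟩
  by_contra h
  rw [mem_closedBall_zero_iff, not_le] at h
  obtain ⟨T', a1, a2⟩ := ((eventually_mem_dom hα one_pos z).and (eventually_ge_atTop T)).exists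
  obtain ⟨t, ht, e⟩ := intermediate_value_Icc' a2 (f := fun t : ℝ => ‖fl α (-t) z‖)
    ((continuous_fl z).comp continuous_ofReal.neg).norm.continuousOn
    ⟨(mem_ball_zero_iff.1 a1).le, h.le⟩
  have := hT t ht.1 _ (mem_sphere_zero_iff_norm.2 e)
  rw [fl_neg'] at this
  exact this.not_ge hz

variable {M : Type} [MetricSpace M] [ChartedSpace (Cn n) M]
  [Bundle.RiemannianBundle fun x : M => TangentSpace 𝓘(ℝ, Cn n) x] {a : ℝ → M → M}
  [IsManifold 𝓘(ℂ, Cn n) ω M] {ψ : Cn n → M} [IsManifold 𝓘(ℝ, Cn n) ∞ M]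

theorem Good.closed_range (hK : IsKaehler n M) (ha : IsIsomFlow n a) (h : Good α a ψ univ)
    (hi : Injective ψ) {μ : Cn n → ℝ} (hμ : ∀ z, HasFDerivAt μ (Bm ψ z (gn α z)) z)
    (hc : ∀ m, IsCompact {z | μ z ≤ m}) : IsClosed (range ψ) := by
  refine isClosed_of_closure_subset fun q hq' => ?_
  set e := chartAt (Cn n) q with he
  have hq : q ∈ e.source := mem_chart_source _ q
  have h1 := ha.chart q (θ := 0) (e.map_source hq) (by rwa [ha.zero, e.left_inv hq])
  rw [← he] at h1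
  let b : ℝ × Cn n → Cn n := fun p => e (a p.1 (e.symm p.2))
  have h0 : ∀ y ∈ e.target, b (0, y) = y := fun y hy => by simp only [b, ha.zero, e.right_inv hy]
  obtain ⟨X, hX, hb⟩ := exists_generator (b := b) h1.self_of_nhds.2.2.1
    (h1.mono fun p hp => hp.2.2.2) ((e.open_target.eventually_mem (e.map_source hq)).mono h0)
    (h1.mono fun p hp => .of_forall fun s => by simp only [b, ha.add, e.left_inv hp.2.1])
  obtain ⟨r, hr, h2⟩ := nhds_basis_closedBall.eventually_iff.1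
    (hX.and ((continuousAt_const.prodMk continuousAt_id).eventually (hb.and h1.eventually_nhds)))
  have hs : ∀ y ∈ closedBall (e q) r, IsLoc n e.symm y := fun y hy =>
    isLoc_chart_symm (h2 hy).2.2.self_of_nhds.1
  obtain ⟨C, hC⟩ := (isCompact_closedBall (e q) r).exists_bound_of_continuousOn
    (f := fun y => Bm e.symm y (-I • X y)) fun y hy =>
      ((hK.diff (hs y hy)).continuousAt.clm_apply
        ((h2 hy).1.continuousAt.const_smul (-I))).continuousWithinAt
  let G : Cn n → Cn n := invFun ψ ∘ e.symm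
  have hl := leftInverse_invFun hi
  have key : ∀ y ∈ closedBall (e q) r, e.symm y ∈ range ψ → (∀ᶠ w in 𝓝 y, ψ (G w) = e.symm w) ∧
      HasFDerivAt (μ ∘ G) (Bm e.symm y (-I • X y)) y := by
    rintro y hy ⟨z, hz⟩
    obtain ⟨g, -, g2, g3⟩ := (h z trivial).1.inv
    rw [hz] at g2 g3
    have a1 : G =ᶠ[𝓝 y] g ∘ e.symm := ((hs y hy).md.continuousAt.eventually g2).mono fun w hw => by
      simp only [G, comp_apply]; rw [← hw, hl, hw]
    have a2 : ∀ᶠ w in 𝓝 y, ψ (G w) = e.symm w := by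
      filter_upwards [a1, (hs y hy).md.continuousAt.eventually g2] with w b1 b2 using b1 ▸ b2
    have a3 := ((g3.comp (hs y hy)).congr a1).md.differentiableAt.hasFDerivAt
    have a4 : G y = z := by simp only [G, comp_apply, ← hz, hl z]
    have a5 : fderiv ℂ G y (X y) = I • gn α z := by
      have b0 := h0 y (h2 hy).2.2.self_of_nhds.1
      have b1 := (h2 hy).2.1
      simp only [id, b0] at b1
      refine ((a3.restrictScalars ℝ).comp_hasDerivAt_of_eq (0 : ℝ) b1 b0.symm).unique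
        ((hasDerivAt_fl_I z).congr_of_eventuallyEq ?_)
      filter_upwards [(continuousAt_id.prodMk continuousAt_const).eventually (h2 hy).2.2] with θ hθ
      have b2 := e.left_inv hθ.2.1
      simp only [id] at b2
      simp only [G, b, comp_apply, b2]
      rw [← hz, ← (h z trivial).2, hl]
    refine ⟨a2, ((hμ _).comp y (a3.restrictScalars ℝ)).congr_fderiv ?_⟩
    ext1 v
    rw [← Bm_congr (f := ψ ∘ G) a2, Bm_comp (h _ trivial).1.md (a3.restrictScalars ℝ)]
    simp [a5, a4, smul_smul]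
  obtain ⟨_, hx, z₀, rfl⟩ := mem_closure_iff_nhds.1 hq' _ (inter_mem (e.open_source.mem_nhds hq)
    (e.continuousAt hq (closedBall_mem_nhds _ hr)))
  let γ : ℝ → Cn n := fun t => e (ψ z₀) + t • (e q - e (ψ z₀))
  have g1 : ∀ t ∈ Icc (0 : ℝ) 1, γ t ∈ closedBall (e q) r := fun t ht =>
    (convex_closedBall _ _).add_smul_sub_mem hx.2 (mem_closedBall_self hr.le) ht
  have g2 : ∀ t, HasDerivAt γ (e q - e (ψ z₀)) t := fun t =>
    (((hasDerivAt_id t).smul_const (e q - e (ψ z₀))).const_add (e (ψ z₀))).congr_deriv (one_smul _ _)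
  obtain ⟨k, hk, hk'⟩ : ∃ k ≥ 0, C * ‖e q - e (ψ z₀)‖ < k :=
    ⟨|C * ‖e q - e (ψ z₀)‖| + 1, by positivity, by linarith [le_abs_self (C * ‖e q - e (ψ z₀)‖)]⟩
  have hcμ : Continuous μ := continuous_iff_continuousAt.2 fun z => (hμ z).continuousAt
  have hcψ : Continuous ψ := continuous_iff_continuousAt.2 fun z => (h z trivial).1.md.continuousAt
  have := IsClosed.Icc_subset_of_forall_mem_nhdsWithin (a := (0 : ℝ)) (b := 1)
    (s := {t | ∃ z, ψ z = e.symm (γ t) ∧ μ z ≤ μ z₀ + k * t}) ?_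
    ⟨z₀, by simp [γ, e.left_inv hx.1], by simp⟩ ?_
  · obtain ⟨z, hz, -⟩ := this (right_mem_Icc.2 zero_le_one)
    exact ⟨z, by simpa [γ, e.left_inv hq] using hz⟩
  · have a1 := ((((hc (μ z₀ + k)).prod (isCompact_Icc (a := (0 : ℝ)) (b := 1))).inter_right
      (isClosed_le (f := fun p => μ p.1) (g := fun p => μ z₀ + k * p.2) (by fun_prop)
        (by fun_prop))).image (hcψ.prodMap continuous_id)).isClosed
    have a2 : ContinuousOn (fun t => (e.symm (γ t), t)) (Icc 0 1) := fun t ht =>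
      (((hs _ (g1 t ht)).md.continuousAt.comp (g2 t).continuousAt).prodMk
        continuousAt_id).continuousWithinAt
    convert a2.preimage_isClosed_of_isClosed isClosed_Icc a1 using 1
    ext t
    constructor
    · rintro ⟨⟨z, b1, b2⟩, b3⟩
      exact ⟨b3, (z, t), ⟨⟨b2.trans (by nlinarith [b3.2]), b3⟩, b2⟩, Prod.ext b1 rfl⟩
    · rintro ⟨b3, ⟨z, s⟩, ⟨-, b2⟩, b1⟩
      obtain ⟨b1, rfl⟩ := Prod.ext_iff.1 b1
      exact ⟨⟨z, b1, b2⟩, b3⟩
  · rintro t ⟨⟨z, b1, b2⟩, ht⟩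
    have b3 := g1 t (Ico_subset_Icc_self ht)
    obtain ⟨b4, b5⟩ := key _ b3 ⟨z, b1⟩
    have b6 : G (γ t) = z := by simp only [G, comp_apply, ← b1, hl z]
    filter_upwards [(b5.comp_hasDerivAt t (g2 t)).hasDerivWithinAt.limsup_slope_le'
      (s := Ioi t) (lt_irrefl t) (((le_abs_self _).trans ((Bm e.symm (γ t) _).le_opNorm _)).trans_lt
        (lt_of_le_of_lt (by gcongr; exact hC _ b3) hk')),
      mem_nhdsWithin_of_mem_nhds ((g2 t).continuousAt.eventually b4), self_mem_nhdsWithin]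
      with s c1 c2 c3
    refine ⟨_, c2, ?_⟩
    rw [slope_def_field, div_lt_iff₀ (sub_pos.2 c3), comp_apply, comp_apply, comp_apply, comp_apply,
      b6] at c1
    linarith

variable [IsRiemannianManifold 𝓘(ℝ, Cn n) M]

omit [IsManifold 𝓘(ℝ, Cn n) ∞ M] in
theorem Good.bounded (hK : IsKaehler n M) (hR : NonnegBisec n M) (ha : IsIsomFlow n a)
    (hα : ∀ j, 1 ≤ α j) (h : Good α a ψ univ) {μ : Cn n → ℝ}
    (hμ : ∀ z, HasFDerivAt μ (Bm ψ z (gn α z)) z) {s : Cn n} (hs : s ≠ 0) {m : ℝ}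
    (hm : ∀ t : ℝ, μ (fl α t s) ≤ m) : ∃ R, ∀ w, ψ (fl α w s) ∈ closedBall (ψ 0) R := by
  obtain ⟨G, G1, G2, hG, h1⟩ := h.exists_cv hK hR ha hα isOpen_univ hs
  have h2 := fun t => h1 t trivial (star (gn α s))
  simp only [star_star] at h2
  simp only [mem_univ, ofPred_true] at hG
  obtain ⟨T, Λ, h3⟩ := hG.decay (star (gn α s)) (μ := fun t => μ (fl α t s)) (fun t => by
    rw [h2, ← gn_fl]
    exact (hμ _).comp_hasDerivAt t (by simpa only [gn_fl] using hasDerivAt_fl_real s t)) hm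
  have hcψ : Continuous ψ := continuous_iff_continuousAt.2 fun z => (h z trivial).1.md.continuousAt
  have h4 : Continuous fun t => √(fm (star (gn α s)) (star (gn α s)) (G t)) :=
    (continuous_iff_continuousAt.2 fun t =>
      (hasDerivAt_fm (hG.d1 t trivial) _ _).continuousAt).sqrt
  choose! l hl hl' using fun t ht => (h3 t ht).2
  have h5 : ∀ t ≥ T, dist (ψ (fl α T s)) (ψ (fl α t s)) ≤ Λ T := fun t ht => by
    refine (dist_le_integral (f := ψ) (c := fun t : ℝ => fl α t s) ht (fun t _ => (h _ trivial).1.1)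
      (((fl_diff α).restrict_scalars ℝ |>.of_le (by norm_cast)).comp
        (ofRealCLM.contDiff.prodMk contDiff_const)).contDiffOn
      (fun t _ => hasDerivAt_fl_real s t) h4.continuousOn fun t _ => by rw [h2]).trans ?_
    have := intervalIntegral.integral_le_sub_of_hasDeriv_right_of_le ht (g := fun t => -Λ t)
      (fun x hx => (hl x hx.1).neg.continuousAt.continuousWithinAt)
      (fun x hx => (hl x hx.1.le).neg.hasDerivWithinAt) h4.continuousOn.integrableOn_Icc
      fun x hx => le_neg.1 (hl' x hx.1.le)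
    linarith [(h3 t ht).1]
  obtain ⟨R, hR⟩ := ((isBounded_closedBall (x := ψ (fl α T s)) (r := Λ T)).union
    ((isCompact_closedBall 0 ‖fl α T s‖).image hcψ).isBounded).subset_closedBall (ψ 0)
  refine ⟨R, fun w => ?_⟩
  have h6 := (h 0 trivial).2 w.im
  rw [map_zero] at h6
  rw [← re_add_im w, add_comm, fl_add, (h _ trivial).2, mem_closedBall, h6, ha.dist_eq]
  refine hR ?_
  rcases le_total T w.re with h7 | h7
  · exact .inl (mem_closedBall'.2 (h5 _ h7))
  · refine .inr ⟨_, mem_closedBall_zero_iff.2 ?_, rfl⟩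
    have := norm_fl_le' hα (w := w.re - T) (by simpa using h7) (fl α T s)
    rwa [← fl_add, sub_add_cancel] at this

/-- Either the linearisation is onto, or some orbit of the complexified action is bounded. -/
theorem Good.dichotomy [ConnectedSpace M] (hK : IsKaehler n M) (hR : NonnegBisec n M)
    (ha : IsIsomFlow n a) (hα : ∀ j, 1 ≤ α j) (h : Good α a ψ univ) (hi : Injective ψ) :
    BiholCn n M ∨ ∃ s ≠ 0, ∃ R, ∀ w, ψ (fl α w s) ∈ closedBall (ψ 0) R := by
  obtain ⟨μ, hμ⟩ := exists_moment (α := α) (fun z => hK.diff (h z trivial).1)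
    (fun z => hK.isH (h z trivial).1) (fun θ z u v => by
      rw [← Bm_act ha θ (h z trivial).1.md, ← show ψ ∘ fl α (θ * I) = a θ ∘ ψ from
        funext fun z => (h z trivial).2 θ,
        Bm_comp (h _ trivial).1.md ((fl α (θ * I)).hasFDerivAt.restrictScalars ℝ)]
      rfl) fun z => hK.cyc (h z trivial).1
  by_cases hu : ∀ s ≠ 0, ∀ m, ∃ t : ℝ, m < μ (fl α t s)
  · have h1 := isCompact_sublevel hα (continuous_iff_continuousAt.2 fun z => (hμ z).continuousAt)
      (fun s => monotone_of_hasDerivAt_nonneg (fun t => (hμ _).comp_hasDerivAt t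
        (hasDerivAt_fl_real s t)) fun t => by rw [gn_fl]; exact Bm_nonneg _ _ _) hu
    refine .inl (biholCn_of (fun z => (h z trivial).1) ⟨hi, range_eq_univ.1 ?_⟩)
    refine IsClopen.eq_univ ⟨h.closed_range hK ha hi hμ h1, isOpen_iff_mem_nhds.2 ?_⟩
      (range_nonempty ψ)
    rintro _ ⟨z, rfl⟩
    simpa using (h z trivial).1.image_mem univ_mem
  · push Not at hu
    obtain ⟨s, hs, m, hm⟩ := hu
    exact .inr ⟨s, hs, h.bounded hK hR ha hα hμ hs hm⟩

end Pool.Agent.Lib.MP_124863_gt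
end

-- part Pool.Agent.Lib.MP_124863_gt.Lin
section

/-! Linearisation of an isometric holomorphic flow at a fixed point. -/

open scoped Manifold ContDiff Topology Bundle
open Set Filter Function Metric Complex Pool.Agent.Lib.MP_7906d6_an

namespace Pool.Agent.Lib.MP_124863_gt

variable {n : ℕ}

/-- Limits along ultrafilters of bounded holomorphic maps are holomorphic. -/
theorem ultra_holo {F : ℕ → Cn n → Cn n} {G : Cn n → Cn n} {U : Ultrafilter ℕ} {D : Set (Cn n)}
    (ho : IsOpen D) {C : ℝ} (hd : ∀ N, DifferentiableOn ℂ (F N) D) (hb : ∀ N, ∀ z ∈ D, ‖F N z‖ ≤ C)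
    (hG : ∀ z ∈ D, Tendsto (fun N => F N z) U (𝓝 (G z))) {z : Cn n} (hz : z ∈ D) :
    ∃ A, HasFDerivAt G A z ∧ Tendsto (fun N => fderiv ℂ (F N) z) U (𝓝 A) := by
  obtain ⟨ρ, hρ, h1⟩ := Metric.isOpen_iff.1 ho z hz
  have := FiniteDimensional.proper ℂ (Cn n →L[ℂ] Cn n)
  obtain ⟨A, -, hA⟩ := (isCompact_closedBall (0 : Cn n →L[ℂ] Cn n) (2 * C / ρ)).ultrafilter_le_nhds
    (U.map fun N => fderiv ℂ (F N) z) (tendsto_principal.2 (.of_forall fun N =>
      mem_closedBall_zero_iff.2 (cauchy_fderiv hρ ((hd N).mono h1) fun w hw => hb N w (h1 hw))))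
  refine ⟨A, hasFDerivAt_iff_isLittleO_nhds_zero.2 (Asymptotics.IsBigO.trans_isLittleO
    (.of_bound (4 * C / ρ ^ 2) ?_) (Asymptotics.isLittleO_norm_pow_id one_lt_two)), hA⟩
  filter_upwards [ball_mem_nhds 0 hρ] with y hy
  rw [mem_ball_zero_iff] at hy
  refine le_of_tendsto' (((hG _ (h1 (by simpa using hy))).sub (hG z hz)).sub
    (((ContinuousLinearMap.apply ℂ (Cn n) y).continuous.tendsto A).comp hA)).norm fun N => ?_
  refine (taylor_two hρ ((hd N).mono h1) (fun w hw => hb N w (h1 hw)) hy).trans_eq ?_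
  rw [norm_pow, norm_norm]; ring

theorem norm_fl_I (α : Fin n → ℝ) (θ : ℝ) (z : Cn n) : ‖fl α (θ * I) z‖ ≤ ‖z‖ :=
  (pi_norm_le_iff_of_nonneg (norm_nonneg _)).2 fun j => by
    rw [fl_apply, norm_mul, norm_exp]
    simpa using norm_le_pi_norm z j

theorem shift_le {H : ℝ → Cn n} (hc : Continuous H) {C : ℝ} (hb : ∀ θ, ‖H θ‖ ≤ C) (T t : ℝ) :
    ‖(∫ θ in 0..T, H (θ + t)) - ∫ θ in 0..T, H θ‖ ≤ 2 * (C * |t|) := by
  have i := hc.intervalIntegrable (μ := MeasureTheory.volume)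
  rw [intervalIntegral.integral_comp_add_right, zero_add,
    intervalIntegral.integral_interval_sub_interval_comm' (i _ _) (i _ _) (i _ _)]
  refine (norm_sub_le _ _).trans ?_
  have h1 := intervalIntegral.norm_integral_le_of_norm_le_const (a := T) (b := T + t)
    fun θ _ => hb θ
  have h2 := intervalIntegral.norm_integral_le_of_norm_le_const (a := 0) (b := t) fun θ _ => hb θ
  simp only [add_sub_cancel_left, sub_zero] at h1 h2
  linarith

variable {M : Type} [MetricSpace M] [ChartedSpace (Cn n) M]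
  [Bundle.RiemannianBundle fun x : M => TangentSpace 𝓘(ℝ, Cn n) x] {a : ℝ → M → M}
  [IsManifold 𝓘(ℂ, Cn n) ω M] [IsManifold 𝓘(ℝ, Cn n) ∞ M] [IsRiemannianManifold 𝓘(ℝ, Cn n) M]

/-- Linearisation at a fixed point. -/
theorem IsIsomFlow.exists_lin (ha : IsIsomFlow n a) {p : M} (hp : ∀ t, a t p = p)
    {L : Cn n ≃L[ℂ] Cn n} {α : Fin n → ℝ}
    (hd : ∀ (t : ℝ) v, mfderiv 𝓘(ℂ, Cn n) 𝓘(ℂ, Cn n) (a t) p (L v) = L (fl α (t * I) v)) :
    ∃ (ψ : Cn n → M) (ε : ℝ), 0 < ε ∧ InjOn ψ (ball 0 ε) ∧ ∀ z ∈ ball 0 ε, IsLoc n ψ z ∧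
      ∀ t : ℝ, ψ (fl α (t * I) z) = a t (ψ z) := by
  set e := chartAt (Cn n) p with he
  have hq : p ∈ e.source := mem_chart_source _ p
  have hb : ∀ {r x} t, x ∈ ball p r → a t x ∈ ball p r := fun t hx => by
    rwa [mem_ball, ← hp t, ha.dist_eq]
  obtain ⟨r, hr, h0⟩ := eventually_nhds_iff_ball.1 ((e.open_source.eventually_mem hq).and
    ((e.continuousAt hq).eventually (ball_mem_nhds _ one_pos)))
  let H : M → ℝ → Cn n := fun x θ => fl α (-(θ * I)) (L.symm (e (a θ x) - e p))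
  let P : ℕ → M → Cn n := fun N x => ((N + 1 : ℝ) : ℂ)⁻¹ • ∫ θ in 0..N + 1, H x θ
  set C := ‖(L.symm : Cn n →L[ℂ] Cn n)‖ with hC
  have b1 : ∀ x ∈ ball p r, ∀ θ, ‖H x θ‖ ≤ C := fun x hx θ => by
    have := norm_fl_I α (-θ) (L.symm (e (a θ x) - e p))
    rw [ofReal_neg, neg_mul] at this
    refine this.trans (((L.symm : Cn n →L[ℂ] Cn n).le_opNorm _).trans
      (mul_le_of_le_one_right (norm_nonneg _) ?_))
    exact (mem_ball_iff_norm.1 (h0 _ (hb θ hx)).2).le
  have b2 : ∀ N, ∀ x ∈ ball p r, ‖P N x‖ ≤ C := fun N x hx => by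
    have := intervalIntegral.norm_integral_le_of_norm_le_const (a := 0) (b := N + 1)
      fun θ _ => b1 x hx θ
    rw [sub_zero, abs_of_pos (by positivity)] at this
    rwa [norm_smul, norm_inv, norm_real, Real.norm_of_nonneg (by positivity),
      inv_mul_le_iff₀' (by positivity)]
  have b3 : ∀ x ∈ ball p r, Continuous (H x) := fun x hx =>
    (fl_diff α).continuous.comp (f := fun θ : ℝ => (-(θ * I), L.symm (e (a θ x) - e p)))
      (Continuous.prodMk (by fun_prop) (L.symm.continuous.comp (Continuous.sub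
        (e.continuousOn.comp_continuous (ha.cont.comp (continuous_id.prodMk continuous_const))
          fun θ => (h0 _ (hb θ hx)).1) continuous_const)))
  choose! Φ hΦ using fun x hx => ((isCompact_closedBall (0 : Cn n) C).ultrafilter_le_nhds
    ((hyperfilter ℕ).map fun N => P N x) (tendsto_principal.2 (.of_forall fun N =>
      mem_closedBall_zero_iff.2 (b2 N x hx)))).imp fun _ h => h.2
  replace hΦ : ∀ x ∈ ball p r, Tendsto (fun N => P N x) (hyperfilter ℕ) (𝓝 (Φ x)) := hΦ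
  have e1 : ∀ (t : ℝ), ∀ x ∈ ball p r, Φ (a t x) = fl α (t * I) (Φ x) := fun t x hx => by
    refine tendsto_nhds_unique (hΦ _ (hb t hx)) ?_
    refine (((fl α (t * I)).continuous.tendsto _).comp (hΦ x hx)).congr_dist
      (squeeze_zero (g := fun N : ℕ => 2 * (C * |t|) * (1 / (N + 1))) (fun _ => dist_nonneg)
        (fun N => ?_) ?_)
    · have a1 : P N (a t x) = fl α (t * I) (((N + 1 : ℝ) : ℂ)⁻¹ • ∫ θ in 0..N + 1, H x (θ + t)) := by
        rw [map_smul, ← (fl α (t * I)).intervalIntegral_comp_comm (f := fun θ => H x (θ + t))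
          (((b3 x hx).comp (continuous_add_const t)).intervalIntegrable _ _)]
        simp only [P, H, ← ha.add, ← fl_add]
        congr 2; ext1 θ; congr 2; push_cast; ring
      rw [comp_apply, a1, dist_comm, dist_eq_norm, ← map_sub, ← smul_sub]
      refine (norm_fl_I α t _).trans ?_
      rw [norm_smul, norm_inv, norm_real, Real.norm_of_nonneg (by positivity), mul_comm, one_div]
      gcongr
      exact shift_le (b3 x hx) (b1 x hx) _ t
    · simpa using (tendsto_one_div_add_atTop_nhds_zero_nat.const_mul (2 * (C * |t|))).mono_left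
        Nat.hyperfilter_le_atTop
  have e2 : Φ p = 0 := tendsto_nhds_unique (hΦ p (mem_ball_self hr)) (by simp [P, H, hp])
  let D := e.target ∩ e.symm ⁻¹' ball p r
  have hD : IsOpen D := e.isOpen_inter_preimage_symm isOpen_ball
  have hp0 : e p ∈ D := ⟨e.map_source hq, by simpa [e.left_inv hq]⟩
  have h1 := fun y (hy : y ∈ D) θ => ha.chart p (θ := θ) hy.1 (h0 _ (hb θ hy.2)).1
  rw [← he] at h1
  have h2 := fun (N : ℕ) y (hy : y ∈ D) => (integral_holo (F := fun q => H (e.symm q.2) q.1)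
    (c := y) (T := N + 1) (by positivity) fun θ _ => (h1 y hy θ).mono fun q hq => ⟨by
      refine ((fl_diff α).restrict_scalars ℝ |>.of_le (by norm_cast) |>.contDiffAt).comp q
        (g := fun p : ℂ × Cn n => fl α p.1 p.2) (ContDiffAt.prodMk ?_ ?_)
      · exact ((ofRealCLM.contDiff.comp contDiff_fst).mul contDiff_const).neg.contDiffAt
      · exact ((L.symm : Cn n →L[ℂ] Cn n).restrictScalars ℝ).contDiff.contDiffAt.comp q
          ((hq.2.2.1.of_le (by norm_cast)).sub contDiffAt_const),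
      (fl α (-(q.1 * I))).differentiableAt.comp _
        (L.symm.differentiableAt.comp _ (hq.2.2.2.sub_const (e p)))⟩).self_of_nhds.const_smul
          ((N + 1 : ℝ) : ℂ)⁻¹
  have h3 : ∀ θ : ℝ, fderiv ℂ (fun y => H (e.symm y) θ) (e p) = L.symm := fun θ => by
    have a1 := (ha.holo θ p).mfderiv
    simp only [writtenInExtChartAt, hp, mfld_simps, fderivWithin_univ] at a1
    have a2 := (h1 _ hp0 θ).self_of_nhds.2.2.2.hasFDerivAt
    refine ((fl α (-(θ * I))).hasFDerivAt.comp _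
      (L.symm.hasFDerivAt.comp _ (a2.sub_const (e p)))).fderiv.trans ?_
    ext1 v
    obtain ⟨v, rfl⟩ := L.surjective v
    have a3 := hd θ v
    rw [a1] at a3
    erw [ContinuousLinearMap.comp_apply, ContinuousLinearMap.comp_apply, a3]
    simp [fl_neg]
  have h4 := fun y (hy : y ∈ D) => ultra_holo (F := fun N y => P N (e.symm y)) (G := Φ ∘ e.symm) hD
    (fun N y hy => (h2 N y hy).differentiableAt.differentiableWithinAt)
    (fun N y hy => b2 N _ hy.2) (fun y hy => hΦ _ hy.2) hy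
  have h5 : IsLoc n Φ p := by
    refine IsLoc.congr (IsLoc.comp (g := Φ ∘ e.symm) (isLoc_flat ((hD.eventually_mem hp0).mono
      fun y hy => (h4 y hy).choose_spec.1.differentiableAt) ?_)
      (isLoc_chart hq)) ((e.open_source.eventually_mem hq).mono fun x hx => by
        simp only [comp_apply]; rw [e.left_inv hx])
    obtain ⟨A, a1, a2⟩ := h4 _ hp0
    have a3 : ∀ N, fderiv ℂ (fun y => P N (e.symm y)) (e p) = L.symm := fun N => by
      refine (h2 N _ hp0).fderiv.trans ?_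
      simp only [h3, intervalIntegral.integral_const, sub_zero]
      rw [← Complex.coe_smul, inv_smul_smul₀ (by exact_mod_cast N.succ_ne_zero)]
    simp only [a3] at a2
    rw [a1.fderiv, ← tendsto_nhds_unique tendsto_const_nhds a2]
    exact L.symm.injective
  obtain ⟨g, g1, g2, g3⟩ := h5.inv
  have g0 := g1.self_of_nhds
  rw [e2] at g0 g2 g3
  obtain ⟨r', hr', h6⟩ := eventually_nhds_iff_ball.1 (g1.and (ball_mem_nhds p hr))
  obtain ⟨ε, hε, h7⟩ := eventually_nhds_iff_ball.1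
    (g2.and (g3.eventually.and (g3.md.continuousAt.eventually (p := (· ∈ ball p r'))
      (by rw [g0]; exact ball_mem_nhds p hr'))))
  refine ⟨g, ε, hε, fun z hz w hw h => by rw [← (h7 z hz).1, h, (h7 w hw).1], fun z hz =>
    ⟨(h7 z hz).2.1, fun t => ?_⟩⟩
  have h8 := (h6 _ (hb t (h7 z hz).2.2)).1
  rwa [e1 t _ (h6 _ (h7 z hz).2.2).2, (h7 z hz).1] at h8

end Pool.Agent.Lib.MP_124863_gt
end

-- part Pool.Agent.Lib.MP_124863_gt.Wu
section

/-! Distance functions from far away points are strictly plurisuperharmonic on compact sets. -/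

open scoped Manifold ContDiff Topology Bundle
open Set Filter Function Metric Complex

namespace Pool.Agent.Lib.MP_124863_gt

theorem QLe.add {u v w : ℂ → ℝ} {a b c : ℝ} (hv : QLe v a) (hw : QLe w b)
    (h : ∀ ζ, u ζ ≤ v ζ + w ζ) (h0 : u 0 = v 0 + w 0) (hc : a + b ≤ c) : QLe u c := fun ε hε => by
  filter_upwards [hv _ (half_pos hε), hw _ (half_pos hε)] with r h1 h2
  simp only [four] at h1 h2 ⊢
  nlinarith [h r, h (-r), h (r * I), h (-(r * I)), mul_le_mul_of_nonneg_right hc (sq_nonneg r)]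

theorem QLe.nonneg {u v : ℂ → ℝ} {b : ℝ} (h : QLe u b) (hm : ∀ ζ, u 0 + v 0 ≤ u ζ + v ζ)
    (hv : ∀ᶠ r : ℝ in 𝓝[>] 0, four v r = 0) : 0 ≤ b := by
  by_contra! hb
  obtain ⟨r, ⟨h1, h2⟩, h3⟩ := (((h (-b / 2) (by linarith)).and hv).and self_mem_nhdsWithin).exists
  simp only [four] at h1 h2
  nlinarith [hm r, hm (-r), hm (r * I), hm (-(r * I)), pow_pos (show 0 < r from h3) 2]

variable {n : ℕ} {M : Type} [MetricSpace M] [ChartedSpace (Cn n) M]
  [Bundle.RiemannianBundle fun x : M => TangentSpace 𝓘(ℝ, Cn n) x]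

theorem sp_nonneg (g : ℂ → M) : 0 ≤ sp n g :=
  real_inner_self_nonneg (F := TangentSpace 𝓘(ℝ, Cn n) (g 0))

omit [ChartedSpace (Cn n) M] [Bundle.RiemannianBundle fun x : M => TangentSpace 𝓘(ℝ, Cn n) x] in
theorem exists_leb {K : Set M} (hK : IsCompact K) {U : M → Set M} (hU : ∀ z, U z ∈ 𝓝 z) {κ : M → ℝ}
    (hκ : ∀ z, 0 < κ z) : ∃ s ∈ Ioc (0 : ℝ) 1, ∀ y ∈ K, ∃ z, s ≤ κ z ∧ closedBall y s ⊆ U z := by
  have := hK.eventually_forall_of_forall_eventually (x₀ := (0 : ℝ))
    (P := fun s y => ∃ z, s ≤ κ z ∧ closedBall y s ⊆ U z) fun z _ => by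
      obtain ⟨r, hr, h⟩ := Metric.mem_nhds_iff.1 (hU z)
      filter_upwards [continuousAt_fst.eventually (ge_mem_nhds (hκ z)),
        (by fun_prop : Continuous fun p : ℝ × M => p.1 + dist p.2 z).continuousAt.eventually
          (gt_mem_nhds (show (0 : ℝ) + dist z z < r by simpa))] with p a1 a2
      exact ⟨z, a1, (closedBall_subset_ball' a2).trans h⟩
  obtain ⟨s, h1, h2⟩ := ((this.filter_mono nhdsWithin_le_nhds).and
    (Ioc_mem_nhdsGT (zero_lt_one' ℝ))).exists
  exact ⟨s, h2, h1⟩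

variable [IsManifold 𝓘(ℂ, Cn n) ω M] [IsManifold 𝓘(ℝ, Cn n) ∞ M]
  [IsRiemannianManifold 𝓘(ℝ, Cn n) M] [CompleteSpace M]

theorem far_bound (hK : IsKaehler n M) (hR : PosBisec n M) {x y : M} (hL : 1 ≤ dist y x)
    {g : ℂ → M} (hg : Disc n g) (g0 : g 0 = y) :
    QLe (fun ζ => dist (g ζ) x) (21 / dist y x * sp n g) := by
  have := properSpace n M
  obtain ⟨L, e⟩ : ∃ L, dist y x = L := ⟨_, rfl⟩
  rw [e] at hL ⊢
  choose κ hκ h using one_step hK hR
  obtain ⟨η, hη, e1⟩ : ∃ η > 0, η * L ^ 2 = 1 := ⟨1 / L ^ 2, by positivity, by field_simp⟩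
  choose U hU h using fun z => h z η hη
  obtain ⟨s, hs, h1⟩ := exists_leb (isCompact_closedBall x L) hU hκ
  obtain ⟨N, hN⟩ := exists_nat_ge (L / s)
  obtain ⟨δ, hδ, e2⟩ : ∃ δ > 0, (N + 1) * δ = L := ⟨L / (N + 1), by positivity, by field_simp⟩
  have e3 : δ ≤ s := by
    rw [div_le_iff₀ hs.1] at hN
    nlinarith [hs.1, N.cast_nonneg (α := ℝ)]
  have key : ∀ j : ℕ, j ≤ N → ∀ y, dist y x = (j + 1) * δ → ∀ g, Disc n g → g 0 = y →
      QLe (fun ζ => dist (g ζ) x)
        ((6 / ((j + 1) * δ) + (j + 1) * (η * δ)) * (1 + η * δ) ^ (j + 1) * sp n g) := by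
    intro j hj
    induction j with
    | zero =>
      intro y hy g hg g0
      simp only [Nat.cast_zero, zero_add, one_mul, pow_one] at hy ⊢
      obtain ⟨z, -, a1⟩ := h1 y (by
        rw [mem_closedBall, hy]; nlinarith [N.cast_nonneg (α := ℝ)])
      obtain ⟨g₁, -, -, -, a2, a3⟩ := h z y (a1 (mem_closedBall_self hs.1.le)) x
        (a1 (mem_closedBall'.2 (hy.trans_le e3))) (dist_pos.1 (hy ▸ hδ)) g hg g0 0 (by simp)
      simp only [a2 rfl, hy] at a3
      refine fun ε hε => (a3 ε hε).mono fun r hr => hr.trans ?_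
      gcongr
      · exact sp_nonneg g
      · nlinarith [show 0 ≤ (6 / δ + η * δ) * (η * δ) by positivity,
          show 6 * (1 - 0) ^ 2 / δ = 6 / δ by simp]
    | succ j ih =>
      intro y hy g hg g0
      have hj' : (j : ℝ) + 1 ≤ N := by exact_mod_cast hj
      have hj0 := j.cast_nonneg (α := ℝ)
      push_cast at hy ⊢
      obtain ⟨z, -, a1⟩ := h1 y (by rw [mem_closedBall, hy]; nlinarith)
      obtain ⟨y₁, b1, b2⟩ := exists_mid n y x hδ.le (by rw [hy]; nlinarith)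
      obtain ⟨g₁, a2, a3, a4, -, a5⟩ := h z y (a1 (mem_closedBall_self hs.1.le)) y₁
        (a1 (mem_closedBall'.2 (b1.trans_le e3))) (dist_pos.1 (b1 ▸ hδ)) g hg g0
        ((j + 1) / (j + 2)) ⟨by positivity, (div_le_one (by positivity)).2 (by linarith)⟩
      refine a5.add (ih (by omega) y₁ (by rw [b2, hy]; ring) g₁ a2 a3)
        (fun ζ => dist_triangle _ _ _) (by rw [g0, a3, b1, b2]; ring) ?_
      rw [b1] at a4 ⊢
      refine (add_le_add le_rfl (mul_le_mul_of_nonneg_left a4 (by positivity))).trans ?_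
      rw [← mul_assoc, ← add_mul]
      refine mul_le_mul_of_nonneg_right ?_ (sp_nonneg g)
      obtain ⟨P, hP, e4⟩ : ∃ P ≥ 1, (1 + η * δ) ^ (j + 1 + 1) = P :=
        ⟨_, one_le_pow₀ (by nlinarith [mul_pos hη hδ]), rfl⟩
      have c1 : (6 / ((j + 1) * δ) + (j + 1) * (η * δ)) * (1 + η * δ) ^ (j + 1) *
          (((j + 1) / (j + 2)) ^ 2 * (1 + η * δ)) = (6 * (j + 1) / ((j + 2) ^ 2 * δ) +
            ((j + 1) / (j + 2)) ^ 2 * ((j + 1) * (η * δ))) * P := by
        rw [← e4]; field_simp; ring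
      have c2 : 6 * (1 - ((j : ℝ) + 1) / (j + 2)) ^ 2 / δ = 6 / ((j + 2) ^ 2 * δ) := by
        field_simp; ring
      have c3 : 6 / ((j + 1 + 1) * δ) = 6 / ((j + 2) ^ 2 * δ) + 6 * (j + 1) / ((j + 2) ^ 2 * δ) := by
        field_simp; ring
      have c4 : (((j : ℝ) + 1) / (j + 2)) ^ 2 * ((j + 1) * (η * δ)) ≤ (j + 1) * (η * δ) :=
        mul_le_of_le_one_left (by positivity)
          (pow_le_one₀ (by positivity) ((div_le_one (by positivity)).2 (by linarith)))
      have c5 : 0 ≤ κ z * ((j + 1) / (j + 2)) ^ 2 * δ := by have := hκ z; positivity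
      have c6 := le_mul_of_one_le_right
        (show 0 ≤ 6 / ((j + 2) ^ 2 * δ) + η * δ by positivity) hP
      rw [c1, c2, c3, e4]
      nlinarith [mul_le_mul_of_nonneg_right c4 (zero_le_one.trans hP)]
  refine fun ε hε => (key N le_rfl y (e.trans e2.symm) g hg g0 ε hε).mono fun r hr => hr.trans ?_
  have a1 : η * L ≤ 1 := by nlinarith [mul_pos hη (zero_lt_one.trans_le hL)]
  have a2 : (1 + η * δ) ^ (N + 1) ≤ 3 := by
    calc _ ≤ Real.exp (η * δ) ^ (N + 1) := by gcongr; linarith [Real.add_one_le_exp (η * δ)]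
      _ ≤ Real.exp 1 := by
        rw [← Real.exp_nat_mul, Real.exp_le_exp]; push_cast; nlinarith
      _ ≤ 3 := by linarith [Real.exp_one_lt_d9]
  have a3 : 6 / ((N + 1) * δ) + (N + 1) * (η * δ) = 7 / L := by
    rw [mul_left_comm, e2]; field_simp; linarith
  rw [a3]
  gcongr
  · exact sp_nonneg g
  · calc _ ≤ 7 / L * 3 := by gcongr
      _ = _ := by ring

theorem exists_far (hK : IsKaehler n M) (hR : PosBisec n M) {K : Set M}
    (hc : IsCompact K) : ∃ L, ∃ τ > 0, ∀ x g, Disc n g → g 0 ∈ K → L < dist (g 0) x →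
      QLe (fun ζ => dist (g ζ) x) (-τ * sp n g) := by
  choose κ hκ h using one_step hK hR
  choose U hU h using fun z => h z (κ z / 4) (by have := hκ z; positivity)
  obtain ⟨s, hs, h1⟩ := exists_leb hc hU hκ
  have hs0 := hs.1
  refine ⟨84 / s ^ 2 + 2, s ^ 2 / 4, by positivity, fun x g hg g0 a0 => ?_⟩
  have a00 : 0 < 84 / s ^ 2 := by positivity
  obtain ⟨z, a1, a2⟩ := h1 _ g0
  obtain ⟨y₁, b1, b2⟩ := exists_mid n (g 0) x hs0.le (by linarith [hs.2])
  obtain ⟨g₁, a3, a4, a5, -, a6⟩ := h z _ (a2 (mem_closedBall_self hs0.le)) y₁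
    (a2 (mem_closedBall'.2 b1.le)) (dist_pos.1 (b1 ▸ hs0)) g hg rfl 1 (by simp)
  refine a6.add (far_bound hK hR (x := x) (by linarith [hs.2]) a3 a4)
    (fun ζ => dist_triangle _ _ _) (by rw [a4, b1, b2]; ring) ?_
  have c1 : 21 / dist y₁ x ≤ s ^ 2 / 4 := by
    rw [div_le_iff₀ (by linarith [hs.2])]
    calc (21 : ℝ) = s ^ 2 / 4 * (84 / s ^ 2) := by field_simp; norm_num
      _ ≤ _ := by gcongr; linarith [hs.2]
  rw [b1] at a5 ⊢
  refine (add_le_add le_rfl (mul_le_mul c1 a5 (sp_nonneg _) (by positivity))).trans ?_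
  rw [← mul_assoc, ← add_mul]
  refine mul_le_mul_of_nonneg_right ?_ (sp_nonneg g)
  have c2 : s ^ 2 ≤ 1 := pow_le_one₀ hs0.le hs.2
  have c3 := mul_pos (hκ z) hs0
  rw [show 6 * (1 - 1) ^ 2 / s = 0 by simp]
  nlinarith [mul_le_mul_of_nonneg_right a1 hs0.le, mul_le_mul_of_nonneg_right c2 c3.le]

/-- There are no bounded orbits of the complexified flow. -/
theorem no_cylinder [NoncompactSpace M] (hK : IsKaehler n M) (hR : PosBisec n M) {a : ℝ → M → M}
    (ha : IsIsomFlow n a) {p : M} (hp : ∀ t, a t p = p) {R : ℝ} {c : ℂ → M}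
    (hd : ∀ w, MDifferentiableAt 𝓘(ℂ, ℂ) 𝓘(ℂ, Cn n) c w)
    (hc : ∀ w (t : ℝ), c (t * I + w) = a t (c w)) (hs : ∀ w, 0 < sp n fun ζ => c (w + ζ))
    (hm : ∀ w, c w ∈ closedBall p R) : False := by
  have := properSpace n M
  obtain ⟨L, τ, hτ, h⟩ := exists_far hK hR (isCompact_closedBall p R)
  obtain ⟨x, hx⟩ := (ne_univ_iff_exists_notMem _).1 (isCompact_closedBall p (L + R)).ne_univ
  have hS := fun y => (isCompact_sphere p (dist x p)).exists_infDist_eq_dist ⟨x, rfl⟩ y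
  obtain ⟨d, e⟩ : ∃ d : ℂ → ℝ, ∀ w, infDist (c w) (sphere p (dist x p)) = d w := ⟨_, fun _ => rfl⟩
  have d0 : ∀ w, 0 ≤ d w := fun w => e w ▸ infDist_nonneg
  have key : ∀ (w : ℂ) (v : ℂ → ℝ), (∀ w', d w + v w ≤ d w' + v w') →
      (∀ᶠ r : ℝ in 𝓝[>] 0, four (fun ζ => v (w + ζ)) r = 0) → False := fun w v h1 h2 => by
    obtain ⟨y, hy, e'⟩ := hS (c w)
    have := (h y (fun ζ => c (w + ζ)) (.of_forall fun ζ => (hd _).comp ζ
      ((differentiableAt_id.const_add w).mdifferentiableAt)) (hm _) (by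
        have := dist_triangle_left y p (c (w + 0))
        simp only [mem_closedBall, mem_sphere, not_le] at hx hy hm
        linarith [hm (w + 0)])).nonneg
      (fun ζ => by
        have := h1 (w + ζ)
        rw [← e, ← e, e'] at this
        simpa using this.trans (add_le_add_left (infDist_le_dist_of_mem hy) _)) h2
    nlinarith [mul_pos hτ (hs w)]
  have h1 : Continuous d := funext e ▸ (continuous_infDist_pt _).comp
    (continuous_iff_continuousAt.2 fun w => (hd w).continuousAt)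
  have h2 : ∀ (v : ℝ → ℝ) (T : ℝ), 0 ≤ T → Continuous v → ∃ w : ℂ, |w.re| ≤ T ∧ ∀ w' : ℂ,
      |w'.re| ≤ T → d w + v w.re ≤ d w' + v w'.re := fun v T hT hv => by
    obtain ⟨t, a1, a2⟩ := (isCompact_Icc (a := -T) (b := T)).exists_isMinOn ⟨0, by simpa⟩
      ((h1.comp continuous_ofReal).add hv).continuousOn
    refine ⟨t, abs_le.2 a1, fun w hw => (a2 (abs_le.1 hw)).trans (add_le_add_left ?_ _)⟩
    obtain ⟨y, hy, e'⟩ := hS (c w)
    rw [comp_apply, ← e, ← e, e', ← ha.dist_eq (-w.im) (c w), ← hc]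
    refine le_of_eq_of_le ?_ (infDist_le_dist_of_mem (s := sphere p (dist x p)) ?_)
    · congr 2; apply Complex.ext <;> simp
    · rwa [mem_sphere, ← hp (-w.im), ha.dist_eq, hp]
  obtain ⟨w₀, a1, a2⟩ := h2 (fun _ => 0) 0 le_rfl continuous_const
  by_cases h3 : ∀ w, d w₀ ≤ d w
  · exact key w₀ (fun _ => 0) (by simpa using h3) (by simp [four])
  push Not at h3
  obtain ⟨w₁, h3⟩ := h3
  have d1 := d0 w₀
  obtain ⟨ε, hε, h4⟩ : ∃ ε > 0, d w₁ + ε * |w₁.re| < d w₀ :=
    ⟨(d w₀ - d w₁) / (|w₁.re| + 1), div_pos (sub_pos.2 h3) (by positivity), by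
      rw [← lt_sub_iff_add_lt', div_mul_eq_mul_div, div_lt_iff₀ (by positivity)]
      nlinarith⟩
  obtain ⟨w, b1, b2⟩ := h2 (fun t => ε * |t|) (|w₁.re| + d w₀ / ε) (by positivity)
    (by fun_prop)
  have b3 := b2 w₁ (le_add_of_nonneg_right (by positivity))
  refine key w (fun w => ε * |w.re|) (fun w' => ?_) ?_
  · rcases le_total |w'.re| (|w₁.re| + d w₀ / ε) with h5 | h5
    · exact b2 w' h5
    · have := mul_le_mul_of_nonneg_left h5 hε.le
      rw [mul_add, mul_div_cancel₀ _ hε.ne'] at this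
      linarith [d0 w', show 0 ≤ ε * |w₁.re| by positivity]
  · have b4 : 0 < |w.re| := abs_pos.2 fun h0 => by
      have := a2 w (by simp [h0])
      simp only [h0, abs_zero, mul_zero] at b3
      linarith
    filter_upwards [Ioo_mem_nhdsGT b4] with r hr
    simp only [four, add_re, ofReal_re, neg_re, mul_re, I_re, I_im, ofReal_im, mul_zero, zero_mul,
      sub_zero, neg_zero, add_zero]
    rcases le_total 0 w.re with h5 | h5
    · rw [abs_of_nonneg h5] at hr ⊢
      rw [abs_of_nonneg (by linarith [hr.1]), abs_of_nonneg (by linarith [hr.2])]; ring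
    · rw [abs_of_nonpos h5] at hr ⊢
      rw [abs_of_nonpos (by linarith [hr.2]), abs_of_nonpos (by linarith [hr.1])]; ring

omit [CompleteSpace M] in
theorem exists_good {a : ℝ → M → M} (ha : IsIsomFlow n a) {p : M} (hp : ∀ t, a t p = p)
    {L : Cn n ≃L[ℂ] Cn n} {α : Fin n → ℝ}
    (hd : ∀ (t : ℝ) v, mfderiv 𝓘(ℂ, Cn n) 𝓘(ℂ, Cn n) (a t) p (L v) =
      L fun j => exp (α j * t * I) * v j) :
    ∃ (ψ : Cn n → M) (ε : ℝ), 0 < ε ∧ InjOn ψ (ball 0 ε) ∧ Good α a ψ (ball 0 ε) :=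
  ha.exists_lin hp fun t v => (hd t v).trans (by congr 1; ext j; rw [fl_apply, mul_assoc])

/-- Either `M` is the affine space, or the complexified flow has a bounded orbit. -/
theorem dichotomy [ConnectedSpace M] (hK : IsKaehler n M) (hR : NonnegBisec n M) {a : ℝ → M → M}
    (ha : IsIsomFlow n a) {p : M} (hp : ∀ t, a t p = p) {L : Cn n ≃L[ℂ] Cn n} {α : Fin n → ℝ}
    (hα : ∀ j, 1 ≤ α j) (hd : ∀ (t : ℝ) v, mfderiv 𝓘(ℂ, Cn n) 𝓘(ℂ, Cn n) (a t) p (L v) =
      L fun j => exp (α j * t * I) * v j) : BiholCn n M ∨ ∃ (q : M) (R : ℝ) (c : ℂ → M),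
        (∀ t, a t q = q) ∧ (∀ w, MDifferentiableAt 𝓘(ℂ, ℂ) 𝓘(ℂ, Cn n) c w) ∧
        (∀ w (t : ℝ), c (t * I + w) = a t (c w)) ∧
        (∀ w, 0 < sp n fun ζ => c (w + ζ)) ∧ ∀ w, c w ∈ closedBall q R := by
  obtain ⟨ψ₀, ε, hε, h1, h2⟩ := exists_good ha hp hd
  obtain ⟨ψ, h3, h4, -⟩ := exists_global hK hR ha hα hε h1 h2
  refine (h3.dichotomy hK hR ha hα h4).imp_right fun ⟨s, hs, R, h6⟩ =>
    ⟨ψ 0, R, _, fun t => by rw [← (h3 0 trivial).2, map_zero],
      fun w => (h3.isOrb (u := s) trivial fun _ _ => trivial).1 w (mem_univ w),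
      fun w t => by simp only [fl_add, (h3 _ trivial).2], fun w => ?_, h6⟩
  have := sp_comp (c := fun ζ => fl α (w + ζ) s) (h3 _ trivial).1.md
    (((hasDerivAt_fl (w + 0) s).scomp (0 : ℂ) ((hasDerivAt_id _).const_add w)).congr_deriv
      (one_smul _ _))
  refine (Bm_pos (h3 _ trivial).1 fun h => gn_ne hα hs ?_).trans_eq this.symm
  rw [← fl_neg α (w + 0) (gn α s), h, map_zero]

omit [IsManifold 𝓘(ℂ, Cn n) ω M] [IsManifold 𝓘(ℝ, Cn n) ∞ M] [IsRiemannianManifold 𝓘(ℝ, Cn n) M]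
  [CompleteSpace M] in
theorem PosBisec.nonneg (h : PosBisec n M) : NonnegBisec n M := fun f z hf X Y => by
  rcases eq_or_ne X 0 with rfl | hX
  · simp [bisec]
  rcases eq_or_ne Y 0 with rfl | hY
  · have e1 : ∀ F z, dz (0 : Cn n) F z = 0 := fun F z => by simp [dz]
    simp only [bisec, e1]
    rw [show (Matrix.of fun _ _ : Fin n => (0 : ℂ)) = 0 from rfl]
    simp
  exact (h f z hf X Y hX hY).le

theorem main [ConnectedSpace M] [NoncompactSpace M] (hK : IsKaehler n M) (hR : PosBisec n M)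
    {a : ℝ → M → M} (ha : IsIsomFlow n a) {p : M} (hp : ∀ t, a t p = p) {L : Cn n ≃L[ℂ] Cn n}
    {α : Fin n → ℝ} (hα : ∀ j, 0 < α j) (hd : ∀ (t : ℝ) v,
      mfderiv 𝓘(ℂ, Cn n) 𝓘(ℂ, Cn n) (a t) p (L v) = L fun j => exp (α j * t * I) * v j) :
    BiholCn n M := by
  let k := ∑ j, (α j)⁻¹
  have hb : IsIsomFlow n fun t => a (k * t) :=
    ⟨by simpa using ha.zero, fun s t x => by rw [mul_add, ha.add], ha.smooth.comp
      (((contDiff_const.mul contDiff_id).contMDiff.comp contMDiff_fst).prodMk contMDiff_snd),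
      fun t => ha.holo _, fun t => ha.isom _⟩
  refine (dichotomy hK hR.nonneg hb (fun t => hp _) (L := L) (α := fun j => α j * k)
    (fun j => (inv_le_iff_one_le_mul₀' (hα j)).1 (Finset.single_le_sum
      (fun i _ => (inv_pos.2 (hα i)).le) (Finset.mem_univ j))) fun t v => ?_).resolve_right
    fun ⟨q, R, c, h1, h2, h3, h4, h5⟩ => no_cylinder hK hR hb h1 h2 h3 h4 h5
  rw [hd]; simp only [ofReal_mul, mul_assoc]

end Pool.Agent.Lib.MP_124863_gt
end
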